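import Pool.Agent.Lib.MP_732f67_ag.N.CarA

/-!
Part N: morphisms `Y' → Y`, pull back of divisors and sections.
-/

namespace Pool.Agent.KM

variable {F F' : Type} [Field F] [Algebra ℂ F] [Field F'] [Algebra ℂ F'] {i : F →ₐ[ℂ] F'}
  {Y : Set (Subalgebra ℂ F)} {Y' : Set (Subalgebra ℂ F')} {O O₁ : Subalgebra ℂ F}
  {O' : Subalgebra ℂ F'} {D E : Subalgebra ℂ F → Fˣ}

theorem Dm.un_iff (h : Dm i O O') {x : F} (hx : x ∈ O) : Un O' (i x) ↔ Un O x := by
  constructor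
  · rintro ⟨h1, -, h3⟩
    refine ⟨?_, hx, h.2 x hx h3⟩
    rintro rfl
    exact h1 (map_zero i)
  · rintro ⟨h1, h2, h3⟩
    refine ⟨(map_ne_zero i).2 h1, h.1 x h2, ?_⟩
    rw [← map_inv₀]
    exact h.1 _ h3

theorem Dm.un (h : Dm i O O') {x : F} (hx : Un O x) : Un O' (i x) := (h.un_iff hx.2.1).2 hx

/-- an element of `O'` which comes from a fraction of elements of `O` -/
theorem Dm.le_comap (h : Dm i O O') : Dom O (O'.comap i) := by
  refine ⟨fun x hx => h.1 x hx, fun x hx hx' => h.2 x hx ?_⟩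
  rw [← map_inv₀]
  exact hx'

/-- the center is unique (`IsProj.eq_of_dom`) -/
theorem dm_unique (hY : IsProj Y) (hO : O ∈ Y) (hO₁ : O₁ ∈ Y) (h : Dm i O O') (h₁ : Dm i O₁ O') :
    O = O₁ := hY.eq_of_dom hO hO₁ h.le_comap h₁.le_comap

theorem cen_spec (h : ∃ O ∈ Y, Dm i O O') : cen i Y O' ∈ Y ∧ Dm i (cen i Y O') O' := by
  unfold cen
  rw [dif_pos h]
  exact h.choose_spec

theorem cen_eq_of (hY : IsProj Y) (hO : O ∈ Y) (h : Dm i O O') : cen i Y O' = O := dm_unique hY (cen_spec ⟨O, hO, h⟩).1 hO (cen_spec ⟨O, hO, h⟩).2 h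

theorem pb_one : pb i Y 1 = 1 := by
  funext O'
  exact map_one _

theorem pb_mul : pb i Y (D * E) = pb i Y D * pb i Y E := by
  funext O'
  exact map_mul _ _ _

theorem pb_div : pb i Y (D / E) = pb i Y D / pb i Y E := by
  funext O'
  exact map_div _ _ _

theorem pb_pow (m : ℕ) : pb i Y (D ^ m) = pb i Y D ^ m := by
  funext O'
  exact map_pow _ _ _

theorem pb_zpow (m : ℤ) : pb i Y (D ^ m) = pb i Y D ^ m := by
  funext O'
  exact map_zpow _ _ _

theorem pb_val : (pb i Y D O' : F') = i (D (cen i Y O')) := rfl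

/-- a morphism of projective varieties, given by a finite extension of function fields -/
structure Mor (i : F →ₐ[ℂ] F') (Y : Set (Subalgebra ℂ F)) (Y' : Set (Subalgebra ℂ F')) :
    Prop where
  proj : IsProj Y
  proj' : IsProj Y'
  fin : (i : F →+* F').Finite
  dom : ∀ O' ∈ Y', ∃ O ∈ Y, Dm i O O'

theorem sec_pb (h : Mor i Y Y') {f : F} (hf : f ∈ Sec Y D) : i f ∈ Sec Y' (pb i Y D) := by
  intro O' hO'
  obtain ⟨h1, h2⟩ := cen_spec (h.dom O' hO')
  rw [pb_val, ← map_mul]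
  exact h2.1 _ (hf _ h1)

theorem bf_pb (h : Mor i Y Y') {V : Submodule ℂ F} (hV : BF Y D V) :
    BF Y' (pb i Y D) (V.map i.toLinearMap) := by
  refine ⟨?_, ?_, ?_⟩
  · have := hV.fin
    exact Module.Finite.map V i.toLinearMap
  · rintro _ ⟨f, hf, rfl⟩
    exact sec_pb h (hV.sec hf)
  · intro O' hO'
    obtain ⟨h1, h2⟩ := cen_spec (h.dom O' hO')
    obtain ⟨f, hf, hu⟩ := hV.gen _ h1
    refine ⟨i f, ⟨f, hf, rfl⟩, ?_⟩
    rw [pb_val, ← map_mul]
    exact h2.un hu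

theorem sf_pb (h : Mor i Y Y') (hD : SF Y D) : SF Y' (pb i Y D) := by
  obtain ⟨m, hm, V, hV⟩ := hD
  refine ⟨m, hm, V.map i.toLinearMap, ?_⟩
  rw [← pb_pow]
  exact bf_pb h hV

theorem un_pb (h : Mor i Y Y') (hD : ∀ O ∈ Y, Un O ((D O : F) / E O)) {O' : Subalgebra ℂ F'}
    (hO' : O' ∈ Y') : Un O' ((pb i Y D O' : F') / pb i Y E O') := by
  obtain ⟨h1, h2⟩ := cen_spec (h.dom O' hO')
  rw [pb_val, pb_val, ← map_div₀]
  exact h2.un (hD _ h1)

end Pool.Agent.KM
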