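import Pool.Agent.Lib.MP_732f67_ag.N.CarA
import Pool.Agent.Lib.MP_732f67_ag.N.DmE

/-!
Part N: morphisms `Y' → Y`, pull back of divisors and sections.
-/

namespace Pool.Agent.KM

variable {F F' : Type} [Field F] [Algebra ℂ F] [Field F'] [Algebra ℂ F'] {i : F →ₐ[ℂ] F'}
  {Y : Set (Subalgebra ℂ F)} {Y' : Set (Subalgebra ℂ F')} {O O₁ : Subalgebra ℂ F}
  {O' : Subalgebra ℂ F'} {D E : Subalgebra ℂ F → Fˣ}

/-- the inverse image of a local ring under an embedding of fields is local -/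
theorem DmC_local (i : F →ₐ[ℂ] F') {O' : Subalgebra ℂ F'} (h : IsLocalRing O') :
    IsLocalRing (O'.comap i) := by
  let f : O'.comap i →+* O' :=
    { toFun := fun x => ⟨i x, x.2⟩
      map_one' := Subtype.ext (map_one i)
      map_mul' := fun x y => Subtype.ext (map_mul i _ _)
      map_zero' := Subtype.ext (map_zero i)
      map_add' := fun x y => Subtype.ext (map_add i _ _) }
  have hf : IsLocalHom f := ⟨fun x hx => by
    rw [pt_isUnit_iff] at hx ⊢
    change i (x : F) ≠ 0 ∧ (i (x : F))⁻¹ ∈ O' at hx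
    refine ⟨fun h0 => hx.1 (by rw [h0, map_zero]), ?_⟩
    change i ((x : F)⁻¹) ∈ O'
    rw [map_inv₀]
    exact hx.2⟩
  exact RingHom.domain_isLocalRing f

/-- elements of the center are elements of the centers of the neighbouring points -/
theorem DmC_open (h : Mor i Y Y') {O' : Subalgebra ℂ F'} (hO' : O' ∈ Y') (S : Finset F)
    (hS : ∀ s ∈ S, s ∈ cen i Y O') : ∃ S' : Finset F', (∀ s ∈ S', s ∈ O') ∧
      ∀ O₁ ∈ Y', (∀ s ∈ S', s ∈ O₁) → ∀ s ∈ S, s ∈ cen i Y O₁ := by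
  classical
  obtain ⟨hcY, hcD⟩ := cen_spec (h.dom O' hO')
  obtain ⟨V, hVf, -, -, hV⟩ := h.proj
  have hV2 : ∀ O, O ∈ Y → O ∈ Pts V := fun O hO => by
    rw [← hV]
    exact hO
  obtain ⟨v, hv, hv0, hl⟩ := hV2 _ hcY
  obtain ⟨T, hT⟩ := cht_fg hVf v
  obtain ⟨-, -, hfrac⟩ := pt_locAt_iff.1 hl
  choose! a ha b hb hb0 hbi hab using hfrac
  refine ⟨(T ∪ S.image fun s => (b s)⁻¹).image i, ?_, ?_⟩
  · intro s hs
    obtain ⟨t, ht, rfl⟩ := Finset.mem_image.1 hs
    refine hcD.1 t ?_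
    rcases Finset.mem_union.1 ht with ht | ht
    · refine hl.le ?_
      rw [← hT]
      exact Algebra.subset_adjoin ht
    · obtain ⟨s', hs', rfl⟩ := Finset.mem_image.1 ht
      exact hbi s' (hS s' hs')
  · intro O₁ hO₁ hsub s hs
    obtain ⟨hcY₁, hcD₁⟩ := cen_spec (h.dom O₁ hO₁)
    have hdom := hcD₁.le_comap
    have hloc : IsLocalRing O₁ := by
      obtain ⟨V', -, -, -, hV'⟩ := h.proj'
      rw [hV'] at hO₁
      obtain ⟨v', _, _, hl'⟩ := hO₁
      exact hl'.isLocalRing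
    have hle : cht V v ≤ O₁.comap i := by
      rw [← hT, Algebra.adjoin_le_iff]
      intro t ht
      exact hsub _ (Finset.mem_image_of_mem i (Finset.mem_union_left _ ht))
    have hA : cht V v ≤ cen i Y O₁ :=
      Pts.le_of_dom (hV2 _ hcY₁) hdom hv hv0 le_rfl
        (fun x hx => ⟨x, hx, 1, Subalgebra.one_mem _, one_ne_zero, by
          rw [inv_one]
          exact Subalgebra.one_mem _, (div_one x).symm⟩) hle (DmC_local i hloc)
    have hsc := hS s hs
    have h1 : (b s)⁻¹ ∈ cen i Y O₁ := by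
      refine hdom.2 _ (hA (hb s hsc)) ?_
      exact hsub _ (Finset.mem_image_of_mem i (Finset.mem_union_right _
        (Finset.mem_image_of_mem _ hs)))
    rw [hab s hsc, div_eq_mul_inv]
    exact Subalgebra.mul_mem _ (hA (ha s hsc)) h1

/-- PROOF. `O = cen O'`, `S ⊆ O` as in `IsCar`, `A ≤ O` a finitely generated chart of `Y` with `O` as
local ring; an open neighbourhood of `O'` is given by the images of `S` and of the generators of
`A`. If they belong to `O'₁ ∈ Y'` with the center `O₁`, then `A` and `S` are contained in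
`O'₁.comap i`, which dominates `O₁`; `A` has a center `Q` on `O'₁.comap i`, `Q ∈ Y`, `Q = O₁`; choose
`A` containing `S`. -/
theorem car_pb (h : Mor i Y Y') (hD : IsCar Y D) : IsCar Y' (pb i Y D) := by
  intro O' hO'
  obtain ⟨hcY, hcD⟩ := cen_spec (h.dom O' hO')
  obtain ⟨S, hS, hS'⟩ := hD _ hcY
  obtain ⟨T, hT, hT'⟩ := DmC_open h hO' S hS
  refine ⟨T, hT, fun O₁ hO₁ hsub => ?_⟩
  obtain ⟨hcY₁, hcD₁⟩ := cen_spec (h.dom O₁ hO₁)
  have h1 := hcD₁.un (hS' _ hcY₁ (hT' O₁ hO₁ hsub))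
  have h2 : ((pb i Y D O' / pb i Y D O₁ : F'ˣ) : F') =
      i ((D (cen i Y O') / D (cen i Y O₁) : Fˣ) : F) := by
    rw [Units.val_div_eq_div_val, Units.val_div_eq_div_val, map_div₀]
    rfl
  rw [h2]
  exact h1

end Pool.Agent.KM
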