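import Pool.Agent.Lib.MP_732f67_ag.N.CarA
import Pool.Agent.Lib.MP_732f67_ag.N.DmE
import Pool.Agent.Lib.MP_732f67_ag.N.DmC

/-!
Part N: morphisms `Y' → Y`, pull back of divisors and sections.
-/

namespace Pool.Agent.KM

variable {F F' : Type} [Field F] [Algebra ℂ F] [Field F'] [Algebra ℂ F'] {i : F →ₐ[ℂ] F'}
  {Y : Set (Subalgebra ℂ F)} {Y' : Set (Subalgebra ℂ F')} {O O₁ : Subalgebra ℂ F}
  {O' : Subalgebra ℂ F'} {D E : Subalgebra ℂ F → Fˣ}

/-- a local ring which contains the integral closure `C` of a Dedekind domain `A` and is not a field on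
`A` contains the localization of `C` at a non-zero prime ideal, a valuation ring -/
theorem dmO_val {A K L : Type*} [CommRing A] [IsDedekindDomain A] [Field K] [Field L]
    [Algebra A K] [IsFractionRing A K] [Algebra A L] [Algebra K L] [IsScalarTower A K L]
    [FiniteDimensional K L] [Algebra.IsSeparable K L] (S : Subring L) (hloc : IsLocalRing S)
    (hint : ∀ x : L, IsIntegral A x → x ∈ S)
    (hm : ∃ a : A, algebraMap A L a ≠ 0 ∧ (algebraMap A L a)⁻¹ ∉ S) (x : L) :
    x ∈ S ∨ x⁻¹ ∈ S := by
  have hD : IsDedekindDomain (integralClosure A L) := integralClosure.isDedekindDomain A K L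
  have hF : IsFractionRing (integralClosure A L) L :=
    integralClosure.isFractionRing_of_finite_extension K L
  let j : integralClosure A L →+* S :=
    { toFun := fun c => ⟨c, hint c c.2⟩
      map_one' := rfl
      map_mul' := fun _ _ => rfl
      map_zero' := rfl
      map_add' := fun _ _ => rfl }
  have hun : ∀ s : S, IsUnit s → (s : L)⁻¹ ∈ S := by
    intro s hs
    obtain ⟨t, ht⟩ := hs.exists_right_inv
    have h1 : (s : L) * t = 1 := congrArg Subtype.val ht
    rw [inv_eq_of_mul_eq_one_right h1]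
    exact t.2
  let m : Ideal (integralClosure A L) := (IsLocalRing.maximalIdeal S).comap j
  have hmp : m.IsPrime := Ideal.IsPrime.comap j
  have hm0 : m ≠ ⊥ := by
    obtain ⟨a, ha0, ha⟩ := hm
    intro h
    have h1 : algebraMap A (integralClosure A L) a ∈ m := by
      rw [Ideal.mem_comap, IsLocalRing.mem_maximalIdeal]
      intro hu
      exact ha (hun _ hu)
    rw [h, Ideal.mem_bot] at h1
    exact ha0 (congrArg Subtype.val h1)
  have hdvr : IsDiscreteValuationRing (Localization.AtPrime m) :=
    IsLocalization.AtPrime.isDiscreteValuationRing_of_dedekind_domain (integralClosure A L) hm0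
      (Localization.AtPrime m)
  have hinj : Function.Injective (algebraMap (integralClosure A L) (Localization.AtPrime m)) :=
    IsLocalization.injective _ (Ideal.primeCompl_le_nonZeroDivisors m)
  have key : ∀ a b : integralClosure A L, (a : L) ≠ 0 →
      (∃ c, algebraMap _ (Localization.AtPrime m) a * c =
        algebraMap _ (Localization.AtPrime m) b) → (b : L) / a ∈ S := by
    rintro a b ha ⟨c, hc⟩
    obtain ⟨u, v, rfl⟩ := IsLocalization.exists_mk'_eq m.primeCompl c
    have h1 : a * u = b * v := by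
      apply hinj
      rw [map_mul, map_mul, ← hc, mul_assoc, IsLocalization.mk'_spec]
    have hv : IsUnit (j v) := by
      by_contra hcon
      have h4 : (v : integralClosure A L) ∈ m := by
        rw [Ideal.mem_comap, IsLocalRing.mem_maximalIdeal]
        exact hcon
      exact v.2 h4
    have hv0 : ((v : integralClosure A L) : L) ≠ 0 := by
      intro h0
      obtain ⟨t, ht⟩ := hv.exists_right_inv
      have h2 : ((v : integralClosure A L) : L) * t = 1 := congrArg Subtype.val ht
      rw [h0, zero_mul] at h2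
      exact zero_ne_one h2
    have h2 : (a : L) * u = b * (v : integralClosure A L) := congrArg Subtype.val h1
    have h3 : (b : L) / a = u * ((v : integralClosure A L) : L)⁻¹ := by
      rw [div_eq_iff ha, mul_right_comm, eq_mul_inv_iff_mul_eq₀ hv0, ← h2]
      ring
    rw [h3]
    exact S.mul_mem (hint _ u.2) (hun _ hv)
  obtain ⟨a, b, hb, rfl⟩ := IsFractionRing.div_surjective (A := integralClosure A L) x
  have hb0 : (b : L) ≠ 0 := fun h0 => nonZeroDivisors.ne_zero hb (Subtype.ext h0)
  change (a : L) / b ∈ S ∨ ((a : L) / b)⁻¹ ∈ S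
  by_cases ha0 : (a : L) = 0
  · left
    rw [ha0, zero_div]
    exact S.zero_mem
  · obtain ⟨c, hc⟩ := ValuationRing.cond (algebraMap _ (Localization.AtPrime m) a)
      (algebraMap _ (Localization.AtPrime m) b)
    rcases hc with hc | hc
    · right
      rw [inv_div]
      exact key a b ha0 ⟨c, hc⟩
    · left
      exact key b a hb0 ⟨c, hc⟩

/-- PROOF. A valuation ring `R` of `F'` which dominates `i (O)` (`F'` is algebraic over `F`:
extend a valuation ring which dominates `O`, or use `LocalSubring`), its center `O' ∈ Y'`; the center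
of `O'` on `Y` and `O` are both dominated by `R.comap i`. -/
theorem exists_over (h : Mor i Y Y') (hO : O ∈ Y) : ∃ O' ∈ Y', Dm i O O' := by
  have hloc := h.proj.isLocalRing hO
  have hS : IsLocalRing (O.map i) :=
    (Subalgebra.equivMapOfInjective O i i.injective).toRingEquiv.isLocalRing
  obtain ⟨R, hR1, hR2⟩ := exists_val hS
  have hc : ∀ c : ℂ, algebraMap ℂ F' c ∈ R := fun c => hR1 _ ((O.map i).algebraMap_mem c)
  obtain ⟨O', hO', h1, h2⟩ := h.proj'.exists_center R hc
  obtain ⟨O₁, hO₁, h3⟩ := h.dom O' hO'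
  let R' : Subalgebra ℂ F' :=
    { carrier := {x | x ∈ R}
      mul_mem' := fun hx hy => R.mul_mem _ _ hx hy
      one_mem' := R.one_mem
      add_mem' := fun hx hy => R.add_mem _ _ hx hy
      zero_mem' := R.zero_mem
      algebraMap_mem' := hc }
  have e : O = O₁ := by
    refine h.proj.eq_of_dom hO hO₁ (R := R'.comap i) ⟨fun x hx => hR1 _ ⟨x, hx, rfl⟩, ?_⟩
      ⟨fun x hx => h1 _ (h3.1 x hx), ?_⟩
    · intro x hx hx'
      have h4 : (i x)⁻¹ ∈ R := by
        rw [← map_inv₀]
        exact hx'
      obtain ⟨y, hy, hyx⟩ := hR2 (i x) ⟨x, hx, rfl⟩ h4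
      have h5 : y = x⁻¹ := i.injective (by
        rw [map_inv₀]
        exact hyx)
      rw [← h5]
      exact hy
    · intro x hx hx'
      have h4 : (i x)⁻¹ ∈ R := by
        rw [← map_inv₀]
        exact hx'
      exact h3.2 x hx (h2 _ (h3.1 x hx) h4)
  rw [e]
  exact ⟨O', hO', h3⟩

/-- every prime divisor of `Y` is dominated by one of `Y'`

PROOF. `O' ∈ Y'` over `O` (`exists_over`), contained in a point `O₁ ∈ Y'` dominated by a valuation ring
`R` over `O`: the integral closure `C` of the discrete valuation ring `O` in `F'` is contained in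
the normal ring `O'`, it is a Dedekind domain, finite over `O`, and its localization `W` at the center
`m` of `O'` is a discrete valuation ring contained in `O'`, so `O' = W` (as `O' ≠ F'`). -/
theorem exists_over_prim (h : Mor i Y Y') (hn : Normal Y') (hO : O ∈ Y) (hp : PrimDiv O) :
    ∃ O' ∈ Y', PrimDiv O' ∧ Dm i O O' := by
  obtain ⟨O', hO', hd⟩ := exists_over h hO
  obtain ⟨A, hA, -, hl, -⟩ := h.proj'.exists_chart hO'
  refine ⟨O', hO', ⟨?_, h.proj'.fracEq hO', A, hA, hl⟩, hd⟩
  have hloc : IsLocalRing O' := h.proj'.isLocalRing hO'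
  have hnoeth : IsNoetherianRing O' := hl.isNoetherianRing hA
  obtain ⟨π, hπ⟩ := hp.exists_unif
  have hπ' : (i π)⁻¹ ∉ O' := fun h1 => hπ.2.1 (hd.2 π hπ.1 h1)
  have hπ0 : i π ≠ 0 := fun h1 => hπ.ne_zero ((map_eq_zero i).1 h1)
  have hval : ∀ x : F', x ∈ O' ∨ x⁻¹ ∈ O' := by
    have hdvr := hp.1
    let a1 : Algebra F F' := i.toRingHom.toAlgebra
    have a3 : IsScalarTower O F F' := IsScalarTower.of_algebraMap_eq fun _ => rfl
    have a4 : IsFractionRing O F := by
      refine IsFractionRing.of_field O F fun z => ?_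
      obtain ⟨a, b, -, hab⟩ := hp.2.1 z
      exact ⟨a, b, hab⟩
    have a5 : FiniteDimensional F F' := h.fin
    have a6 : CharZero F := charZero_of_injective_algebraMap (algebraMap ℂ F).injective
    intro x
    refine dmO_val (A := O) (K := F) O'.toSubring hloc (fun x hx => hn O' hO' x ?_)
      ⟨⟨π, hπ.1⟩, hπ0, hπ'⟩ x
    obtain ⟨p, hp1, hp2⟩ := hx
    let j : O →+* O' :=
      { toFun := fun c => ⟨i c, hd.1 c c.2⟩
        map_one' := Subtype.ext (map_one i)
        map_mul' := fun _ _ => Subtype.ext (map_mul i _ _)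
        map_zero' := Subtype.ext (map_zero i)
        map_add' := fun _ _ => Subtype.ext (map_add i _ _) }
    refine ⟨p.map j, hp1.map j, ?_⟩
    rw [Polynomial.eval₂_map]
    exact hp2
  have hnf : ¬ IsField O' := by
    intro hf
    obtain ⟨t, ht⟩ := hf.mul_inv_cancel (a := (⟨i π, hd.1 π hπ.1⟩ : O'))
      (fun h1 => hπ0 (congrArg Subtype.val h1))
    have h1 : i π * (t : F') = 1 := congrArg Subtype.val ht
    exact hπ' (by
      rw [inv_eq_of_mul_eq_one_right h1]
      exact t.2)
  have hV : ValuationRing O' := { cond' := ?_ }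
  · exact ((IsDiscreteValuationRing.TFAE O' hnf).out 0 1).2 hV
  intro a b
  by_cases ha : (a : F') = 0
  · exact ⟨0, Or.inr (by rw [mul_zero]; exact (Subtype.ext ha).symm)⟩
  · rcases hval (b / a) with h1 | h1
    · exact ⟨⟨_, h1⟩, Or.inl (Subtype.ext (mul_div_cancel₀ _ ha))⟩
    · by_cases hb : (b : F') = 0
      · exact ⟨0, Or.inl (by rw [mul_zero]; exact (Subtype.ext hb).symm)⟩
      · rw [inv_div] at h1
        exact ⟨⟨_, h1⟩, Or.inr (Subtype.ext (mul_div_cancel₀ _ hb))⟩

end Pool.Agent.KM
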