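import Pool.Agent.Lib.MP_732f67_ag.N.CarA
import Pool.Agent.Lib.MP_732f67_ag.N.DmE
import Pool.Agent.Lib.MP_732f67_ag.N.DmC
import Pool.Agent.Lib.MP_732f67_ag.N.DmO

/-!
Part N: morphisms `Y' → Y`, pull back of divisors and sections.
-/

namespace Pool.Agent.KM

variable {F F' : Type} [Field F] [Algebra ℂ F] [Field F'] [Algebra ℂ F'] {i : F →ₐ[ℂ] F'}
  {Y : Set (Subalgebra ℂ F)} {Y' : Set (Subalgebra ℂ F')} {O O₁ : Subalgebra ℂ F}
  {O' : Subalgebra ℂ F'} {D E : Subalgebra ℂ F → Fˣ}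

private theorem dmS_total {O : Subalgebra ℂ F} (h : IsDiscreteValuationRing O) (hf : FracEq O)
    (x : F) : x ∈ O ∨ x⁻¹ ∈ O := by
  obtain ⟨a, b, hb, rfl⟩ := hf x
  obtain ⟨c, hc | hc⟩ := ValuationRing.cond a b
  · right
    have h1 : (a : F) * c = b := congrArg (fun x : O => (x : F)) hc
    have ha : (a : F) ≠ 0 := fun ha => hb (by rw [← h1, ha, zero_mul])
    rw [inv_div, ← h1, mul_div_cancel_left₀ _ ha]
    exact c.2
  · left
    have h1 : (b : F) * c = a := congrArg (fun x : O => (x : F)) hc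
    rw [← h1, mul_div_cancel_left₀ _ hb]
    exact c.2

/-- PROOF. `sec_of_prim`; a discrete valuation ring is maximal for domination, so for a prime divisor
`O ∈ Y` and `O' ∈ Y'` over `O` (`exists_over`) an element of `F` with image in `O'` belongs to `O`. -/
theorem sec_of_pb (h : Mor i Y Y') (hn : Normal Y) (hD : IsCar Y D) {f : F}
    (hf : i f ∈ Sec Y' (pb i Y D)) : f ∈ Sec Y D := by
  refine sec_of_prim h.proj hn hD fun O hO hp => ?_
  obtain ⟨O', hO', hd⟩ := exists_over h hO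
  have h1 := hf O' hO'
  rw [pb_val, cen_eq_of h.proj hO hd, ← map_mul] at h1
  rcases dmS_total hp.1 hp.2.1 (f * D O) with h2 | h2
  · exact h2
  · have h3 := hd.2 _ h2 (by rwa [map_inv₀, inv_inv])
    rwa [inv_inv] at h3

end Pool.Agent.KM
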