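import Pool.Agent.Lib.MP_732f67_ag.N.NefA
import Pool.Agent.Lib.MP_732f67_ag.N.Dmn

/-!
Part N: the pull back of a nef divisor is nef.
-/

namespace Pool.Agent.KM

variable {F F' : Type} [Field F] [Algebra ℂ F] [Field F'] [Algebra ℂ F'] {i : F →ₐ[ℂ] F'}
  {Y : Set (Subalgebra ℂ F)} {Y' : Set (Subalgebra ℂ F')} {D : Subalgebra ℂ F → Fˣ}

/-- PROOF. `H` ample on `Y`, `H'` ample on `Y'` (`exists_amp`); `H' ^ k / pb H` is ample for large `k`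
(`serre`). `(pb D ^ m * H') ^ k = pb (D ^ (m k) * H) * (H' ^ k / pb H)` is ample (`amp_mul_sf`). `nf_of`. -/
theorem nf_pb (h : Mor i Y Y') (hD : Nf Y D) : Nf Y' (pb i Y D) := by
  obtain ⟨H, hH, hA⟩ := exists_amp h.proj
  obtain ⟨H', hH', hA'⟩ := exists_amp h.proj'
  refine nf_of h.proj' hH' fun m => ⟨m + 1, by omega, by omega, ?_⟩
  obtain ⟨m₀, hm₀⟩ := serre h.proj' hH' hA' (car_inv (car_pb h hH))
  obtain ⟨V, hV⟩ := hm₀ (m₀ + 1) (by omega)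
  have h1 : Amp Y' (H' ^ (m₀ + 1) * (pb i Y H)⁻¹) := ⟨1, le_rfl, V, by rwa [pow_one]⟩
  have h2 : SF Y' (pb i Y (D ^ ((m + 1) * (m₀ + 1)) * H)) :=
    sf_pb h (amp_sf (hD H hH hA _))
  refine amp_of_pow (m := m₀ + 1) (by omega) ?_
  have h3 : (pb i Y D ^ (m + 1) * H') ^ (m₀ + 1) =
      H' ^ (m₀ + 1) * (pb i Y H)⁻¹ * pb i Y (D ^ ((m + 1) * (m₀ + 1)) * H) := by
    rw [pb_mul, pb_pow, mul_pow, ← pow_mul, mul_comm (pb i Y D ^ _) (pb i Y H), mul_assoc,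
      inv_mul_cancel_left, mul_comm]
  rw [h3]
  exact amp_mul_sf h.proj' h1 h2

end Pool.Agent.KM
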