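import Pool.Agent.Lib.MP_732f67_ag.N.Mdl
import Pool.Agent.Lib.MP_732f67_ag.N.NefB

/-!
Part N: ample classes on the Galois model.
-/

namespace Pool.Agent.KM

variable {F : Type} [Field F] [Algebra ℂ F] {Y : Set (Subalgebra ℂ F)}

/-- principal divisors do not matter -/
theorem QK.prin {K : Type} [Fintype K] {S : K → Subalgebra ℂ F → Fˣ} {x : K → ℚ}
    (h : QK Y S x) (hY : IsProj Y) {r : K → ℤ} {u : Fˣ}
    (hr : ∀ O ∈ Y, Un O ((∏ k, (S k O : F) ^ r k) / u)) (t : ℚ) :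
    QK Y S (fun k => x k + t * r k) := by
  obtain ⟨N, hN, e, he, ha⟩ := h
  have h1 := amp_const (amp_pow hY ha t.den_pos) (u ^ ((N : ℤ) * t.num))
  refine ⟨N * t.den, Nat.mul_pos hN t.den_pos, fun k => t.den * e k + ((N : ℤ) * t.num) * r k,
    fun k => ?_, amp_congr h1 fun O hO => ?_⟩
  · push_cast
    rw [he, ← Rat.mul_den_eq_num t]
    ring
  · have h2 := (hr O hO).zpow (-((N : ℤ) * t.num))
    have h3 : ((((∏ k, S k ^ e k) ^ t.den *
        (fun _ => u ^ ((N : ℤ) * t.num) : Subalgebra ℂ F → Fˣ)) O : Fˣ) : F) =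
        (∏ k, (S k O : F) ^ e k) ^ t.den * (u : F) ^ ((N : ℤ) * t.num) := by
      simp only [Pi.mul_apply, Pi.pow_apply, Finset.prod_apply, Units.val_mul,
        Units.val_pow_eq_pow_val, Units.coe_prod, Units.val_zpow_eq_zpow_val]
    have h4 : (((∏ k, S k ^ (t.den * e k + ((N : ℤ) * t.num) * r k)) O : Fˣ) : F) =
        (∏ k, (S k O : F) ^ e k) ^ t.den * (∏ k, (S k O : F) ^ r k) ^ ((N : ℤ) * t.num) := by
      simp only [Pi.pow_apply, Finset.prod_apply, Units.coe_prod, Units.val_zpow_eq_zpow_val]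
      rw [← zpow_natCast, ← Finset.prod_zpow, ← Finset.prod_zpow, ← Finset.prod_mul_distrib]
      refine Finset.prod_congr rfl fun k _ => ?_
      rw [zpow_add₀ (S k O).ne_zero, mul_comm ((t.den : ℤ)) (e k), zpow_mul,
        mul_comm ((N : ℤ) * t.num) (r k), zpow_mul _ (r k)]
    rw [h3, h4, mul_div_mul_left]
    · rwa [zpow_neg, div_zpow, inv_div] at h2
    · exact pow_ne_zero _ (Finset.prod_ne_zero_iff.2 fun k _ => zpow_ne_zero _ (S k O).ne_zero)

/-- the family of the divisors `A 0`, `A 1`, `A 2` and `B j` -/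
def fam {J : Type} (A : Fin 3 → Subalgebra ℂ F → Fˣ) (B : J → Subalgebra ℂ F → Fˣ) :
    Fin 3 ⊕ J → Subalgebra ℂ F → Fˣ :=
  Sum.elim A B

namespace GMod

variable {d : ℕ} {G : Subgroup (F ≃ₐ[ℂ] F)} {Δ : Fin d → Derivation ℂ F F} {Φ : Finset F}
  {H : Subalgebra ℂ F → Fˣ} (M : GMod d Y G Δ Φ H)

variable {m : ℕ} {ν : Subalgebra ℂ F → Fˣ}

end GMod

end Pool.Agent.KM
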