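import Pool.Agent.Lib.MP_732f67_ag.N.Mdl
import Pool.Agent.Lib.MP_732f67_ag.N.NefB
import Pool.Agent.Lib.MP_732f67_ag.N.PeK

/-!
Part N: ample classes on the Galois model.
-/

namespace Pool.Agent.KM

variable {F : Type} [Field F] [Algebra ℂ F] {Y : Set (Subalgebra ℂ F)}

namespace GMod

variable {d : ℕ} {G : Subgroup (F ≃ₐ[ℂ] F)} {Δ : Fin d → Derivation ℂ F F} {Φ : Finset F}
  {H : Subalgebra ℂ F → Fˣ} (M : GMod d Y G Δ Φ H)

/-- the generic point -/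
theorem peP_top {F : Type} [Field F] [Algebra ℂ F] {Y : Set (Subalgebra ℂ F)} (hY : IsProj Y) :
    (⊤ : Subalgebra ℂ F) ∈ Y := by
  obtain ⟨O, hO⟩ := hY.nonempty
  refine hY.loc_mem hO ⟨⊥, Ideal.isPrime_bot, fun x => ⟨fun _ => ?_, fun _ => Algebra.mem_top⟩⟩
  obtain ⟨a, b, hb, hx⟩ := hY.fracEq hO x
  refine ⟨a, b, fun h => hb ?_, hx⟩
  rw [Ideal.mem_bot.1 h]
  rfl

theorem peP_a_ne : M.a ≠ 0 := by
  intro h
  have h1 := (M.a_un ⊤ (peP_top M.base.proj)).1 fun j =>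
    ⟨(M.B j ⊤).ne_zero, Algebra.mem_top, Algebra.mem_top⟩
  apply h1.1
  rw [h, zero_mul, map_zero]

/-- the divisor of the section `a` -/
noncomputable def peP_D : Subalgebra ℂ M.F' → M.F'ˣ :=
  pb M.i Y H ^ M.l * fun _ => Units.mk0 (M.i M.a) ((map_ne_zero M.i).2 M.peP_a_ne)

theorem peP_val (O' : Subalgebra ℂ M.F') :
    (M.peP_D O' : M.F') = M.i (M.a * H (cen M.i Y O') ^ M.l) := by
  rw [peP_D, Pi.mul_apply, Pi.pow_apply, Units.val_mul, Units.val_pow_eq_pow_val, pb_val,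
    Units.val_mk0, map_mul, map_pow, mul_comm]

theorem peP_gi (hY : Base d Y G Δ) (hH : GC Y G H) : GI M.Y' M.G' M.peP_D := by
  refine gi_mul (gi_pow (gi_pb (M.mor hY.proj) hY.st M.grp (gc_gi hH)) M.l) ?_
  intro γ' hγ O' hO'
  have h1 : γ' (M.i M.a) = M.i M.a := by
    obtain ⟨γ, hγ, h⟩ := M.grp γ' hγ
    rw [h, M.a_inv γ hγ]
  show Un (gm γ' O') (M.i M.a / γ' (M.i M.a))
  rw [h1, div_self ((map_ne_zero M.i).2 M.peP_a_ne)]
  exact Un.one _

/-- the boundary is invariant -/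
theorem peP_bdry (hY : Base d Y G Δ) (hH : GC Y G H) {γ' : M.F' ≃ₐ[ℂ] M.F'} (hγ : γ' ∈ M.G')
    {O' : Subalgebra ℂ M.F'} (hO' : O' ∈ M.Y') :
    (∀ j, Un (gm γ' O') (M.B j (gm γ' O'))) ↔ ∀ j, Un O' (M.B j O') := by
  rw [M.a_un _ (M.base.st γ' hγ O' hO'), M.a_un _ hO', ← M.peP_val, ← M.peP_val]
  have h1 := M.peP_gi hY hH γ' hγ O' hO'
  have h2 : ((M.peP_D (gm γ' O') : M.F'ˣ) : M.F') ≠ 0 := Units.ne_zero _
  have h3 : γ' ((M.peP_D O' : M.F'ˣ) : M.F') ≠ 0 := (map_ne_zero γ').2 (Units.ne_zero _)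
  rw [← un_gm (γ := γ') (O := O')]
  constructor
  · intro h
    have h4 := h.div h1
    rwa [div_div_cancel₀ h2] at h4
  · intro h
    have h4 := h1.mul h
    rwa [div_mul_cancel₀ _ h3] at h4

/-- orders of invariant divisors -/
theorem peP_oD {E : Subalgebra ℂ M.F' → M.F'ˣ} (hE : GI M.Y' M.G' E) {γ' : M.F' ≃ₐ[ℂ] M.F'}
    (hγ : γ' ∈ M.G') {j j' : M.J} (h : gm γ' (M.P j) = M.P j') :
    oD (M.P j') (E (M.P j')) = oD (M.P j) (E (M.P j)) := by
  have hp := (M.bd.mem j).2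
  have h3 : γ' ((E (M.P j) : M.F'ˣ) : M.F') ≠ 0 := (map_ne_zero γ').2 (Units.ne_zero _)
  rw [← h, oD_of_un (prim_gm hp) (Units.ne_zero _) h3 (hE γ' hγ _ (M.bd.mem j).1), oD_gm hp]

/-- the section `a` vanishes on the boundary -/
theorem peP_pos (hY : Base d Y G Δ) (j : M.J) : 1 ≤ oD (M.P j) (M.peP_D (M.P j)) := by
  have hp := (M.bd.mem j).2
  have hmem := (M.bd.mem j).1
  have h1 : ((M.peP_D (M.P j) : M.F'ˣ) : M.F') ∈ M.P j := by
    have h2 := sec_pb (M.mor hY.proj) M.a_sec (M.P j) hmem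
    rw [pb_pow] at h2
    rw [peP_D, Pi.mul_apply, Units.val_mul, mul_comm]
    exact h2
  have h2 : 0 ≤ oD (M.P j) (M.peP_D (M.P j)) := (oD_nonneg hp (Units.ne_zero _)).2 h1
  have h3 : oD (M.P j) (M.peP_D (M.P j)) ≠ 0 := by
    intro h4
    have h5 := (oD_zero hp (Units.ne_zero _)).1 h4
    rw [M.peP_val, ← M.a_un _ hmem] at h5
    exact ((M.bd.eqn j _ hmem hp).1 rfl).2.1 (h5 j).2.2
  omega

/-- the values of a product -/
theorem peP_prod {J : Type} [Fintype J] {F : Type} [Field F] [Algebra ℂ F]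
    (A : Fin 3 → Subalgebra ℂ F → Fˣ) (B : J → Subalgebra ℂ F → Fˣ)
    (e : Fin 3 ⊕ J → ℤ) : ∏ k, fam A B k ^ e k =
      (A 0 ^ e (Sum.inl 0) * A 1 ^ e (Sum.inl 1) * A 2 ^ e (Sum.inl 2)) *
        ∏ j, B j ^ e (Sum.inr j) := by
  rw [Fintype.prod_sum_type, Fin.prod_univ_three]
  rfl

/-- Negative perturbations of `f^* H` are ample.

PROOF. `H''` = an invariant ample divisor supported by the boundary (`exists_gi_amp` for `H'`),
`h j = oD (P j) (H'' (P j))`. `α j = oD (P j) (i a * f^* H ^ l)` is `≥ 1` (`a_un`; at `P j` the `B j` is not a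
unit) and invariant (`gc_pb`, `a_inv`). With `ε₀ > 0` small, `p j = (α j - ε₀ h j) / (1 + l) > 0`. The
class `(1 + l) (f^* H - ∑ p j B j)` is that of `f^* H + ε₀ H''` (`exp`, `QK.prin` for the principal
divisor `f^* H ^ l / ∏ B j ^ α j`), which is ample. `QK.open` gives `ε` for `t = 1`, and
`f^* H - t ∑ q j B j = (1 - t) f^* H + t (f^* H - ∑ q j B j)`, `f^* H` is nef. (Work with one `A`, all
`A l = pb H`; the divisors `A 0` and `A 1` have the coefficient `0`.) -/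
theorem pert (hY : Base d Y G Δ) (hH : GC Y G H) (hA : Amp Y H) :
    ∃ p : M.J → ℚ, (∀ j, 0 < p j) ∧
      (∀ γ' ∈ M.G', ∀ j j', gm γ' (M.P j) = M.P j' → p j' = p j) ∧
      ∃ ε : ℚ, 0 < ε ∧ ∀ A : Fin 3 → Subalgebra ℂ M.F' → M.F'ˣ, A 2 = pb M.i Y H →
        ∀ q : M.J → ℚ, (∀ j, |q j - p j| ≤ ε) → ∀ t : ℚ, 0 < t → t ≤ 1 →
          QK M.Y' (fam A M.B) (Sum.elim ![0, 0, 1] fun j => -(t * q j)) := by
  classical
  have hmor := M.mor hY.proj
  have hY' := M.base.proj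
  have hHH : IsCar M.Y' (pb M.i Y H) := car_pb hmor hH.1
  have hD₁ : IsCar M.Y' M.peP_D := car_mul (car_pow hHH _) (car_const _)
  have hgi := M.peP_gi hY hH
  obtain ⟨E, hEcar, hEamp, hEgi, hEun⟩ := exists_gi_amp M.base M.hcar M.hamp
    (fun O' => ∀ j, Un O' (M.B j O')) (fun γ' hγ O' hO' => M.peP_bdry hY hH hγ hO') M.hun
  have hexpE := fun O' (hO' : O' ∈ M.Y') => M.exp hEcar hEun hO'
  have hexpD := fun O' (hO' : O' ∈ M.Y') => M.exp hD₁ (fun O' hO' h => by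
    rw [M.peP_val]
    exact (M.a_un O' hO').1 h) hO'
  obtain ⟨h, hh⟩ : ∃ h : M.J → ℤ, ∀ j, oD (M.P j) (E (M.P j)) = h j := ⟨_, fun _ => rfl⟩
  obtain ⟨α, hα⟩ : ∃ α : M.J → ℤ, ∀ j, oD (M.P j) (M.peP_D (M.P j)) = α j := ⟨_, fun _ => rfl⟩
  have hα1 : ∀ j, 1 ≤ α j := fun j => by
    rw [← hα]
    exact M.peP_pos hY j
  have hih : ∀ γ' ∈ M.G', ∀ j j', gm γ' (M.P j) = M.P j' → h j' = h j := fun γ' hγ j j' hj => by
    rw [← hh, ← hh]
    exact M.peP_oD hEgi hγ hj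
  have hiα : ∀ γ' ∈ M.G', ∀ j j', gm γ' (M.P j) = M.P j' → α j' = α j := fun γ' hγ j j' hj => by
    rw [← hα, ← hα]
    exact M.peP_oD hgi hγ hj
  simp only [hh] at hexpE
  simp only [hα] at hexpD
  obtain ⟨ε₀, hε₀, hε₀'⟩ : ∃ ε₀ : ℚ, 0 < ε₀ ∧ ∀ j, 0 < (α j : ℚ) - ε₀ * h j := by
    have hs : (0 : ℚ) ≤ ∑ j, |(h j : ℚ)| := Finset.sum_nonneg fun _ _ => abs_nonneg _
    refine ⟨1 / (1 + ∑ j, |(h j : ℚ)|), by positivity, fun j => ?_⟩
    have h1 : |(h j : ℚ)| ≤ ∑ j, |(h j : ℚ)| :=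
      Finset.single_le_sum (f := fun j => |(h j : ℚ)|) (fun _ _ => abs_nonneg _)
        (Finset.mem_univ j)
    have h2 := le_abs_self (h j : ℚ)
    have h3 : (1 : ℚ) ≤ α j := by exact_mod_cast hα1 j
    have h4 : 1 / (1 + ∑ j, |(h j : ℚ)|) * h j < 1 := by
      rw [one_div_mul_eq_div, div_lt_one (by linarith)]
      linarith
    linarith
  have hl : (0 : ℚ) < 1 + M.l := by positivity
  -- the family of divisors
  let S : Fin 3 ⊕ M.J → Subalgebra ℂ M.F' → M.F'ˣ := fam (fun _ => pb M.i Y H) M.B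
  have hS : ∀ k, IsCar M.Y' (S k) := by
    rintro (k | j)
    · exact hHH
    · exact M.snc.car j
  have q1 : QK M.Y' S (Sum.elim (fun _ => 0) fun j => (h j : ℚ)) := by
    refine ⟨1, le_rfl, Sum.elim (fun _ => 0) h, ?_, ?_⟩
    · rintro (k | j)
      · simp
      · simp
    · refine amp_congr hEamp fun O' hO' => ?_
      have h1 : (((∏ k, S k ^ (Sum.elim (fun _ => 0) h : Fin 3 ⊕ M.J → ℤ) k) O' : M.F'ˣ) : M.F') =
          ∏ j, (M.B j O' : M.F') ^ h j := by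
        rw [peP_prod]
        simp only [Sum.elim_inl, Sum.elim_inr, zpow_zero, one_mul, Finset.prod_apply,
          Pi.pow_apply, Units.coe_prod, Units.val_zpow_eq_zpow_val]
      rw [h1]
      exact hexpE O' hO'
  have n1 : QN M.Y' S (Pi.single (Sum.inl 2) 1) :=
    qn_single _ (nf_pb hmor (nf_of_sf hY.proj (amp_sf hA)))
  have q3 := (q1.smul hY' hε₀).add_nef hY' hS n1
  have hr : ∀ O' ∈ M.Y', Un O' ((∏ k, (S k O' : M.F') ^
      (Sum.elim ![0, 0, (M.l : ℤ)] fun j => -α j : Fin 3 ⊕ M.J → ℤ) k) /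
        ((Units.mk0 (M.i M.a) ((map_ne_zero M.i).2 M.peP_a_ne))⁻¹ : M.F'ˣ)) := by
    intro O' hO'
    have h1 := hexpD O' hO'
    have h2 : (∏ k, (S k O' : M.F') ^
        (Sum.elim ![0, 0, (M.l : ℤ)] fun j => -α j : Fin 3 ⊕ M.J → ℤ) k) /
        ((Units.mk0 (M.i M.a) ((map_ne_zero M.i).2 M.peP_a_ne))⁻¹ : M.F'ˣ) =
        (M.peP_D O' : M.F') / ∏ j, (M.B j O' : M.F') ^ α j := by
      rw [Fintype.prod_sum_type, Fin.prod_univ_three, peP_D, Pi.mul_apply, Pi.pow_apply,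
        Units.val_mul, Units.val_pow_eq_pow_val, Units.val_inv_eq_inv_val, div_inv_eq_mul,
        Units.val_mk0]
      have h3 : ∏ j, (S (Sum.inr j) O' : M.F') ^
          (Sum.elim ![0, 0, (M.l : ℤ)] fun j => -α j : Fin 3 ⊕ M.J → ℤ) (Sum.inr j) =
          (∏ j, (M.B j O' : M.F') ^ α j)⁻¹ := by
        rw [← Finset.prod_inv_distrib]
        refine Finset.prod_congr rfl fun j _ => ?_
        rw [Sum.elim_inr, zpow_neg]
        rfl
      rw [h3, Sum.elim_inl, Sum.elim_inl, Sum.elim_inl]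
      simp only [Matrix.cons_val, zpow_zero, one_mul, zpow_natCast]
      rw [div_eq_mul_inv, mul_right_comm]
      rfl
    rw [h2]
    exact h1
  have q5 := (q3.prin hY' hr 1).smul hY' (t := 1 / (1 + M.l)) (by positivity)
  obtain ⟨ε, hε, hopen⟩ := q5.open hY' hS
  refine ⟨fun j => ((α j : ℚ) - ε₀ * h j) / (1 + M.l), fun j => div_pos (hε₀' j) hl,
    fun γ' hγ j j' hj => by
      beta_reduce
      rw [hih γ' hγ j j' hj, hiα γ' hγ j j' hj], ε, hε,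
    fun A hA2 q hq t ht0 ht1 => ?_⟩
  have q7 := hopen (Sum.elim (fun _ => 0) fun j =>
      ((α j : ℚ) - ε₀ * h j) / (1 + M.l) - q j) (by
    rintro (k | j)
    · rw [Sum.elim_inl, abs_zero]
      exact hε.le
    · rw [Sum.elim_inr, abs_sub_comm]
      exact hq j)
  have q8 := (q7.smul hY' ht0).add_nef hY' hS (n1.smul (t := 1 - t) (by linarith))
  have hv : (fun k => t * (1 / (1 + (M.l : ℚ)) * (ε₀ * (Sum.elim (fun _ => 0) fun j => (h j : ℚ)) k +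
      (Pi.single (Sum.inl 2) 1 : Fin 3 ⊕ M.J → ℚ) k +
      1 * ((Sum.elim ![0, 0, (M.l : ℤ)] fun j => -α j : Fin 3 ⊕ M.J → ℤ) k : ℚ)) +
      (Sum.elim (fun _ => 0) fun j => ((α j : ℚ) - ε₀ * h j) / (1 + M.l) - q j) k) +
      (1 - t) * (Pi.single (Sum.inl 2) 1 : Fin 3 ⊕ M.J → ℚ) k) =
      (Sum.elim ![0, 0, 1] fun j => -(t * q j)) := by
    funext k
    rcases k with k | j
    · fin_cases k
      · simp
      · simp
      · simp
        field_simp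
        ring
    · simp
      field_simp
      ring
  rw [hv] at q8
  obtain ⟨N, hN, e, he, ha⟩ := q8
  refine ⟨N, hN, e, he, ?_⟩
  have h0 : e (Sum.inl 0) = 0 := by
    have := he (Sum.inl 0)
    simpa using this
  have h1 : e (Sum.inl 1) = 0 := by
    have := he (Sum.inl 1)
    simpa using this
  have h2 : ∏ k, fam A M.B k ^ e k = ∏ k, S k ^ e k := by
    rw [peP_prod, peP_prod, h0, h1, hA2, zpow_zero, zpow_zero, zpow_zero]
  rw [h2]
  exact ha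

variable {m : ℕ} {ν : Subalgebra ℂ F → Fˣ}

end GMod

end Pool.Agent.KM
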