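import Pool.Agent.Lib.MP_732f67_ag.N.AmpA

/-!
Part N: general sections; the spaces of sections are finite dimensional.
-/

namespace Pool.Agent.KM

variable {F : Type} [Field F] [Algebra ℂ F] {Y : Set (Subalgebra ℂ F)}
  {D E : Subalgebra ℂ F → Fˣ}

/-- the elements which do not generate at `O` form a proper subspace -/
private theorem ampV_prop (hY : IsProj Y) {V : Submodule ℂ F} (h : BF Y D V)
    {O : Subalgebra ℂ F} (hO : O ∈ Y) : ∃ N : Subspace ℂ V, N ≠ ⊤ ∧
      ∀ v : V, v ∉ N → Un O (v * D O) := by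
  have hl : IsLocalRing O := hY.isLocalRing hO
  let φ : V →ₗ[ℂ] O :=
    { toFun := fun v => ⟨v * D O, h.sec v.2 O hO⟩
      map_add' := fun v w => Subtype.ext (add_mul (v : F) (w : F) _)
      map_smul' := fun c v => Subtype.ext (smul_mul_assoc c (v : F) _) }
  refine ⟨((IsLocalRing.maximalIdeal O).restrictScalars ℂ).comap φ, fun htop => ?_,
    fun v hv => ?_⟩
  · obtain ⟨f, hf, hu⟩ := h.gen O hO
    have h1 : (⟨f, hf⟩ : V) ∈ ((IsLocalRing.maximalIdeal O).restrictScalars ℂ).comap φ := by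
      rw [htop]
      exact Submodule.mem_top
    have h2 : φ ⟨f, hf⟩ ∈ IsLocalRing.maximalIdeal O := h1
    refine (IsLocalRing.mem_maximalIdeal _).1 h2 ?_
    refine IsUnit.of_mul_eq_one (⟨(f * D O)⁻¹, hu.2.2⟩ : O) (Subtype.ext ?_)
    exact mul_inv_cancel₀ hu.1
  · have h1 : φ v ∉ IsLocalRing.maximalIdeal O := hv
    have h2 : IsUnit (φ v) := by
      by_contra h3
      exact h1 ((IsLocalRing.mem_maximalIdeal _).2 h3)
    obtain ⟨w, hw⟩ := h2.exists_right_inv
    have h3 : (v : F) * D O * w = 1 := congrArg (fun x : O => (x : F)) hw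
    refine ⟨fun h4 => ?_, h.sec v.2 O hO, ?_⟩
    · rw [h4, zero_mul] at h3
      exact zero_ne_one h3
    · rw [inv_eq_of_mul_eq_one_right h3]
      exact w.2

/-- PROOF. A vector space over an infinite field is not a finite union of proper subspaces; the
elements of `V` which do not generate at `O` form a proper subspace (`O` is a local ring). -/
theorem avoid (hY : IsProj Y) {V : Submodule ℂ F} (h : BF Y D V) (T : Finset (Subalgebra ℂ F))
    (hT : ∀ O ∈ T, O ∈ Y) : ∃ f ∈ V, ∀ O ∈ T, Un O (f * D O) := by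
  classical
  have h1 : ∀ O : Subalgebra ℂ F, ∃ N : Subspace ℂ V, O ∈ Y → N ≠ ⊤ ∧
      ∀ v : V, v ∉ N → Un O (v * D O) := by
    intro O
    by_cases hO : O ∈ Y
    · obtain ⟨N, hN⟩ := ampV_prop hY h hO
      exact ⟨N, fun _ => hN⟩
    · exact ⟨⊥, fun h2 => absurd h2 hO⟩
  choose N hN using h1
  have h2 : (⊤ : Subspace ℂ V) ∉ T.image N := by
    intro h3
    obtain ⟨O, hO, hO'⟩ := Finset.mem_image.1 h3
    exact (hN O (hT O hO)).1 hO'
  have h3 := Subspace.biUnion_ne_univ_of_top_notMem h2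
  obtain ⟨v, hv⟩ := (Set.ne_univ_iff_exists_notMem _).1 h3
  refine ⟨v, v.2, fun O hO => (hN O (hT O hO)).2 v fun h4 => hv ?_⟩
  exact Set.mem_biUnion (Finset.mem_image_of_mem N hO) h4

/-- a section without zeros trivializes the divisor -/
theorem un_of_sec_inv {f : F} (hf0 : f ≠ 0) (hf : f ∈ Sec Y D) (hf' : f⁻¹ ∈ Sec Y D⁻¹)
    {O : Subalgebra ℂ F} (hO : O ∈ Y) : Un O (f * D O) := by
  refine ⟨mul_ne_zero hf0 (D O).ne_zero, hf O hO, ?_⟩
  have h1 := hf' O hO
  rwa [Pi.inv_apply, Units.val_inv_eq_inv_val, ← mul_inv] at h1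

end Pool.Agent.KM
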