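import Pool.Agent.Lib.MP_732f67_ag.N.AmpA
import Pool.Agent.Lib.MP_732f67_ag.N.AmpV
import Pool.Agent.Lib.MP_732f67_ag.G.AtEx
import Pool.Agent.Lib.MP_732f67_ag.KM.AtGen

/-!
Part N: general sections; the spaces of sections are finite dimensional.
-/

namespace Pool.Agent.KM

variable {F : Type} [Field F] [Algebra ℂ F] {Y : Set (Subalgebra ℂ F)}
  {D E : Subalgebra ℂ F → Fˣ}

/-- the function field is finitely generated -/
theorem ampF_FG (hY : IsProj Y) : _root_.KM.FG (algebraMap ℂ F).fieldRange := by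
  obtain ⟨O, hO⟩ := hY.nonempty
  obtain ⟨A, hA, hfr, -, -⟩ := hY.exists_chart hO
  obtain ⟨s, rfl⟩ := hA
  refine ⟨s, eq_top_iff.2 fun x _ => ?_⟩
  obtain ⟨T, hT⟩ : ∃ T : Subfield F, T = Subfield.closure
    (((algebraMap ℂ F).fieldRange : Set F) ∪ s) := ⟨_, rfl⟩
  rw [← hT]
  have h1 : ∀ y ∈ Algebra.adjoin ℂ (s : Set F), y ∈ T := by
    intro y hy
    induction hy using Algebra.adjoin_induction with
    | mem y hy =>
      rw [hT]
      exact Subfield.subset_closure (Or.inr hy)
    | algebraMap c =>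
      rw [hT]
      exact Subfield.subset_closure (Or.inl ⟨c, rfl⟩)
    | add y z _ _ hy hz => exact T.add_mem hy hz
    | mul y z _ _ hy hz => exact T.mul_mem hy hz
  obtain ⟨a, b, -, rfl⟩ := hfr x
  exact T.div_mem (h1 _ a.2) (h1 _ b.2)

/-- a linear system without base points contains a generator from a spanning set -/
theorem ampF_gen {O : Subalgebra ℂ F} (hO : IsLocalRing O) {S : Set F} {h f : F}
    (hS : ∀ s ∈ S, s * h ∈ O) (hf : f ∈ Submodule.span ℂ S) (hu : Un O (f * h)) :
    ∃ s ∈ S, Un O (s * h) := by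
  by_contra hcon
  push Not at hcon
  have key : ∃ y ∈ IsLocalRing.maximalIdeal O, (y : F) = f * h := by
    clear hu
    induction hf using Submodule.span_induction with
    | mem s hs =>
      refine ⟨⟨s * h, hS s hs⟩, ?_, rfl⟩
      rw [IsLocalRing.mem_maximalIdeal, mem_nonunits_iff]
      intro hu
      obtain ⟨z, hz⟩ := hu.exists_right_inv
      have hz' : s * h * (z : F) = 1 := congrArg Subtype.val hz
      refine hcon s hs ⟨left_ne_zero_of_mul (hz'.trans_ne one_ne_zero), hS s hs, ?_⟩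
      rw [inv_eq_of_mul_eq_one_right hz']
      exact z.2
    | zero => exact ⟨0, Ideal.zero_mem _, by simp⟩
    | add x y _ _ hx hy =>
      obtain ⟨a, ha, ha'⟩ := hx
      obtain ⟨b, hb, hb'⟩ := hy
      exact ⟨a + b, Ideal.add_mem _ ha hb, by rw [add_mul, ← ha', ← hb']; rfl⟩
    | smul c x _ hx =>
      obtain ⟨a, ha, ha'⟩ := hx
      refine ⟨c • a, ?_, ?_⟩
      · rw [Algebra.smul_def]
        exact Ideal.mul_mem_left _ _ ha
      · rw [smul_mul_assoc, ← ha']
        rfl
  obtain ⟨y, hy, hy'⟩ := key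
  rw [IsLocalRing.mem_maximalIdeal, mem_nonunits_iff] at hy
  apply hy
  refine IsUnit.of_mul_eq_one ⟨(f * h)⁻¹, hu.2.2⟩ (Subtype.ext ?_)
  change (y : F) * (f * h)⁻¹ = 1
  rw [hy', mul_inv_cancel₀ hu.1]

/-- the sections of the multiples of a divisor with a multiple without base points -/
theorem ampF_fin (hY : IsProj Y) {m : ℕ} (hm : 1 ≤ m) {V : Submodule ℂ F}
    (hV : BF Y (D ^ m) V) (n : ℕ) : Module.Finite ℂ (Sec Y (D ^ n)) := by
  classical
  have : CharZero F := charZero_of_injective_algebraMap (algebraMap ℂ F).injective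
  have hcen : ∀ R : {R : ValuationSubring F // ∀ c : ℂ, algebraMap ℂ F c ∈ R},
      ∃ O ∈ Y, ∀ x ∈ O, x ∈ R.1 := fun R => by
    obtain ⟨O, hO, h, -⟩ := hY.exists_center R.1 R.2
    exact ⟨O, hO, h⟩
  choose cen hc1 hc2 using hcen
  let K : Subfield F := (algebraMap ℂ F).fieldRange
  let X : _root_.KM.Atl K {R : ValuationSubring F // ∀ c : ℂ, algebraMap ℂ F c ∈ R} Unit :=
    { A := fun R => R.1.toSubring
      le := fun R x hx => by
        obtain ⟨c, rfl⟩ := hx
        exact R.2 c
      d := fun R _ => (D (cen R) : F)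
      ne := fun R _ => (D (cen R)).ne_zero }
  obtain ⟨S, hS⟩ : V.FG := Module.Finite.iff_fg.1 hV.fin
  have hSV : ∀ s ∈ S, s ∈ V := fun s hs => by
    rw [← hS]
    exact Submodule.subset_span hs
  have heq : ∀ (R : {R : ValuationSubring F // ∀ c : ℂ, algebraMap ℂ F c ∈ R}) (l : ℕ),
      X.eq R (fun _ => (l : ℤ)) = (D (cen R) : F) ^ l := fun R l => by
    simp [_root_.KM.Atl.eq, X]
  have he : ∀ l : ℕ, _root_.KM.e () (l : ℤ) = fun _ : Unit => (l : ℤ) := fun l => by
    funext j
    exact _root_.KM.e_same () (l : ℤ)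
  have hpow : ∀ (O : Subalgebra ℂ F) (l : ℕ), (((D ^ l) O : Fˣ) : F) = (D O : F) ^ l :=
    fun O l => by rw [Pi.pow_apply, Units.val_pow_eq_pow_val]
  have hW : X.Gen m fun _ => S := by
    refine ⟨fun j s hs R => ?_, fun R j => ?_⟩
    · change s * X.eq R (_root_.KM.e () (m : ℤ)) ∈ R.1
      rw [he, heq, ← hpow]
      exact hc2 R _ (hV.sec (hSV s hs) _ (hc1 R))
    · obtain ⟨f, hf, hu⟩ := hV.gen _ (hc1 R)
      rw [← hS] at hf
      obtain ⟨s, hs, hu'⟩ := ampF_gen (hY.isLocalRing (hc1 R))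
        (fun s hs => hV.sec (hSV s hs) _ (hc1 R)) hf hu
      refine ⟨s, hs, ?_⟩
      rw [hpow] at hu'
      exact ⟨hu'.1, hc2 R _ hu'.2.1, hc2 R _ hu'.2.2⟩
  obtain ⟨s, -, hs⟩ := _root_.KM.Atl.gen_sections (X := X) (ampF_FG hY)
    (fun R x hx => by
      have h1 : IsIntegral R.1 x := hx
      obtain ⟨y, hy⟩ := IsIntegrallyClosed.isIntegral_iff.1 h1
      rw [← hy]
      exact y.2)
    (fun O hO => ⟨⟨O, fun c => hO _ ⟨c, rfl⟩⟩, fun x hx => hx⟩) hm hW
  set N : F × (Unit → ℤ) → Submodule K F := fun g =>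
    (∏ j : Unit, Submodule.span K (S : Set F) ^ (((n : ℤ) - g.2 j) / m).toNat) *
      Submodule.span K {g.1} with hN
  have hfg : (⨆ g ∈ s, N g).FG := by
    refine Submodule.fg_biSup s N fun g _ => ?_
    refine Submodule.FG.mul ?_ (Submodule.fg_span_singleton _)
    rw [Fintype.prod_unique]
    exact Submodule.FG.pow (Submodule.fg_span (Finset.finite_toSet _)) _
  obtain ⟨T, hT⟩ := hfg
  have hle : Sec Y (D ^ n) ≤ Submodule.span ℂ (T : Set F) := by
    intro f hf
    have h1 : f ∈ X.V fun _ => (n : ℤ) := fun R => by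
      change f * X.eq R (fun _ => (n : ℤ)) ∈ R.1
      rw [heq, ← hpow]
      exact hc2 R _ (hf _ (hc1 R))
    have h2 : f ∈ Submodule.span K (T : Set F) := by
      rw [hT]
      refine (Submodule.span_le.2 ?_) (hs _ (fun _ => Int.natCast_nonneg n) f h1)
      rintro y ⟨g, hg, k, hk, w, hw, rfl⟩
      have hkk : ∀ j, (((n : ℤ) - g.2 j) / m).toNat = k j := by
        intro j
        have h3 : (n : ℤ) - g.2 j = (m : ℤ) * k j := by rw [hk j]; ring
        have hm0 : (m : ℤ) ≠ 0 := by omega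
        rw [h3, Int.mul_ediv_cancel_left _ hm0]
        simp
      refine (le_iSup₂_of_le (f := fun g (_ : g ∈ s) => N g) g hg le_rfl) ?_
      refine Submodule.mul_mem_mul ?_ (Submodule.mem_span_singleton_self _)
      simp only [hkk]
      exact hw
    clear h1 hf
    induction h2 using Submodule.span_induction with
    | mem x hx => exact Submodule.subset_span hx
    | zero => exact Submodule.zero_mem _
    | add x y _ _ hx hy => exact Submodule.add_mem _ hx hy
    | smul c x _ hx =>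
      obtain ⟨a, ha⟩ := c.2
      have h3 : c • x = a • x := by
        rw [Subfield.smul_def, smul_eq_mul, ← ha, Algebra.smul_def]
      rw [h3]
      exact Submodule.smul_mem _ a hx
  have hfd : FiniteDimensional ℂ (Submodule.span ℂ (T : Set F)) :=
    FiniteDimensional.span_finset ℂ T
  exact Submodule.finiteDimensional_of_le hle

/-- PROOF. `Y = Pts V`, `O(1)` as in `exists_amp`; multiplication by a section of `n O(1) - D` (`serre`)
embeds `Sec Y D` into `Sec Y (n O(1))`. Every `f ∈ Sec Y (n O(1))` satisfies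
`f V ^ N ≤ V ^ (N + n)` for large `N`, so it is integral over the graded ring `⊕ V ^ j` (in `F[T]`), and
the integral closure of this finitely generated domain in its field of fractions `F(T)` is a
finite module. (`KM/AtSys.lean` contains a similar statement.) -/
theorem fin_sec (hY : IsProj Y) (h : IsCar Y D) : Module.Finite ℂ (Sec Y D) := by
  obtain ⟨H, hH, m, hm, V, hV⟩ := exists_amp hY
  obtain ⟨n, hn⟩ := serre hY hH ⟨m, hm, V, hV⟩ (car_inv h)
  obtain ⟨V', hV'⟩ := hn n le_rfl
  obtain ⟨O, hO⟩ := hY.nonempty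
  obtain ⟨f, hf, hu⟩ := hV'.gen O hO
  have hf0 : f ≠ 0 := left_ne_zero_of_mul hu.1
  have hfs := hV'.sec hf
  have hfin := ampF_fin hY hm hV.toBF n
  have hmap : ∀ g ∈ Sec Y D, LinearMap.mulLeft ℂ f g ∈ Sec Y (H ^ n) := by
    intro g hg O hO
    have h1 : LinearMap.mulLeft ℂ f g * (((H ^ n) O : Fˣ) : F) =
        g * (D O : F) * (f * (((H ^ n * D⁻¹) O : Fˣ) : F)) := by
      have h2 := (D O).ne_zero
      rw [LinearMap.mulLeft_apply, Pi.mul_apply, Pi.inv_apply, Units.val_mul, Units.val_inv_eq_inv_val]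
      field_simp
    rw [h1]
    exact O.mul_mem (hg O hO) (hfs O hO)
  refine Module.Finite.of_injective ((LinearMap.mulLeft ℂ f).restrict hmap) ?_
  intro x y hxy
  have h1 : f * (x : F) = f * y := congrArg Subtype.val hxy
  exact Subtype.ext (mul_left_cancel₀ hf0 h1)

/-- the functions regular everywhere are the constants -/
theorem sec_one (hY : IsProj Y) {f : F} (hf : f ∈ Sec Y (1 : Subalgebra ℂ F → Fˣ)) :
    ∃ c : ℂ, f = algebraMap ℂ F c := by
  have h1 : IsIntegral (⊥ : Subalgebra ℂ F).toSubring f := by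
    refine _root_.KM.AtGen.integral_of_val fun R hR => ?_
    obtain ⟨O, hO, h2, -⟩ := hY.exists_center R fun c => hR _ (Subalgebra.algebraMap_mem _ c)
    have h3 := hf O hO
    rw [Pi.one_apply, Units.val_one, mul_one] at h3
    exact h2 _ h3
  have h2 : IsIntegral (⊥ : Subalgebra ℂ F) f := h1
  have h3 : IsIntegral ℂ f := isIntegral_trans f h2
  have h4 : (minpoly ℂ f).degree = 1 :=
    IsAlgClosed.degree_eq_one_of_irreducible ℂ (minpoly.irreducible h3)
  obtain ⟨c, hc⟩ := minpoly.mem_range_of_degree_eq_one ℂ f h4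
  exact ⟨c, hc.symm⟩

end Pool.Agent.KM
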