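import Pool.Agent.Lib.MP_732f67_ag.N.CarA

/-!
Part N: ample and semiample divisors.
-/

namespace Pool.Agent.KM

variable {F : Type} [Field F] [Algebra ℂ F] {Y : Set (Subalgebra ℂ F)}
  {D E : Subalgebra ℂ F → Fˣ}

theorem amp_pow (hY : IsProj Y) (h : Amp Y D) {m : ℕ} (hm : 1 ≤ m) : Amp Y (D ^ m) := by
  obtain ⟨a, ha, V, hV⟩ := h
  refine ⟨a, ha, V ^ m, ?_⟩
  rw [← pow_mul, mul_comm, pow_mul]
  exact hV.pow hY hm

theorem amp_of_pow {m : ℕ} (hm : 1 ≤ m) (h : Amp Y (D ^ m)) : Amp Y D := by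
  obtain ⟨a, ha, V, hV⟩ := h
  refine ⟨m * a, Nat.mul_pos hm ha, V, ?_⟩
  rw [pow_mul]
  exact hV

theorem sf_pow (h : SF Y D) (m : ℕ) : SF Y (D ^ m) := by
  obtain ⟨a, ha, V, hV⟩ := h
  refine ⟨a, ha, V ^ m, ?_⟩
  rw [← pow_mul, mul_comm, pow_mul]
  exact hV.pow m

theorem sf_of_pow {m : ℕ} (hm : 1 ≤ m) (h : SF Y (D ^ m)) : SF Y D := by
  obtain ⟨a, ha, V, hV⟩ := h
  refine ⟨m * a, Nat.mul_pos hm ha, V, ?_⟩
  rw [pow_mul]
  exact hV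

theorem sf_one : SF Y (1 : Subalgebra ℂ F → Fˣ) := by
  refine ⟨1, le_rfl, 1, ?_⟩
  rw [one_pow]
  refine ⟨?_, fun f hf O hO => ?_, fun O hO => ⟨1, Submodule.one_le.1 le_rfl, ?_⟩⟩
  · refine Module.Finite.iff_fg.2 ?_
    rw [Submodule.one_eq_span]
    exact Submodule.fg_span_singleton 1
  · obtain ⟨c, rfl⟩ := Submodule.mem_one.1 hf
    rw [Pi.one_apply, Units.val_one, mul_one]
    exact O.algebraMap_mem c
  · rw [Pi.one_apply, Units.val_one, mul_one]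
    exact Un.one O

theorem sf_mul (h : SF Y D) (h' : SF Y E) : SF Y (D * E) := by
  obtain ⟨a, ha, V, hV⟩ := h
  obtain ⟨b, hb, W, hW⟩ := h'
  refine ⟨a * b, Nat.mul_pos ha hb, V ^ b * W ^ a, ?_⟩
  have h1 := (hV.pow b).mul (hW.pow a)
  rw [← pow_mul, ← pow_mul, mul_comm b a] at h1
  rw [mul_pow]
  exact h1

theorem amp_sf (h : Amp Y D) : SF Y D := by
  obtain ⟨a, ha, V, hV⟩ := h
  exact ⟨a, ha, V, hV.toBF⟩

theorem amp_mul_sf (hY : IsProj Y) (h : Amp Y D) (h' : SF Y E) : Amp Y (D * E) := by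
  obtain ⟨a, ha, V, hV⟩ := h
  obtain ⟨b, hb, W, hW⟩ := h'
  refine ⟨a * b, Nat.mul_pos ha hb, V ^ b * W ^ a, ?_⟩
  have h1 := (hV.pow hY hb).mul hY (hW.pow a)
  rw [← pow_mul, ← pow_mul, mul_comm b a] at h1
  rw [mul_pow]
  exact h1

theorem amp_mul (hY : IsProj Y) (h : Amp Y D) (h' : Amp Y E) : Amp Y (D * E) :=
  amp_mul_sf hY h (amp_sf h')

end Pool.Agent.KM
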