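import Pool.Agent.Lib.MP_732f67_ag.N.CarA
import Pool.Agent.Lib.MP_732f67_ag.N.AmpE

/-!
Part N: ample and semiample divisors.
-/

namespace Pool.Agent.KM

variable {F : Type} [Field F] [Algebra ℂ F] {Y : Set (Subalgebra ℂ F)}
  {D E : Subalgebra ℂ F → Fˣ}

/-- PROOF. `Y = Pts V`, and `H O = v⁻¹` for an element `v ∈ V` with `cht V v ≤ O`. -/
theorem exists_amp (hY : IsProj Y) : ∃ H : Subalgebra ℂ F → Fˣ, IsCar Y H ∧ Amp Y H := by
  classical
  obtain ⟨V, hV, -, -, hYV⟩ := hY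
  have hv : ∀ O : Subalgebra ℂ F, ∃ v : Fˣ, O ∈ Y → (v : F) ∈ V ∧ LocAt (cht V v) O := by
    intro O
    by_cases hO : O ∈ Y
    · have hO1 := hO
      rw [hYV] at hO1
      obtain ⟨v, hv, hv0, hl⟩ := hO1
      exact ⟨Units.mk0 v hv0, fun _ => ⟨hv, hl⟩⟩
    · exact ⟨1, fun h => absurd h hO⟩
  choose v hv using hv
  have hdiv : ∀ O ∈ Y, ∀ w ∈ V, w / (v O : F) ∈ O := fun O hO w hw =>
    (hv O hO).2.le (Algebra.subset_adjoin ⟨w, hw, rfl⟩)
  obtain ⟨T, hT⟩ : V.FG := Module.Finite.iff_fg.1 hV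
  refine ⟨fun O => (v O)⁻¹, fun O hO => ?_, 1, le_rfl, V, ⟨hV, fun f hf O hO => ?_,
    fun O hO => ?_⟩, hYV⟩
  · refine ⟨T.image fun w => w / (v O : F), fun s hs => ?_, fun O' hO' hs => ?_⟩
    · obtain ⟨w, hw, rfl⟩ := Finset.mem_image.1 hs
      refine hdiv O hO w ?_
      rw [← hT]
      exact Submodule.subset_span hw
    · have h1 : ∀ w ∈ V, w / (v O : F) ∈ O' := by
        intro w hw
        rw [← hT] at hw
        induction hw using Submodule.span_induction with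
        | mem x hx => exact hs _ (Finset.mem_image_of_mem _ hx)
        | zero => rw [zero_div]; exact O'.zero_mem
        | add x y _ _ hx hy => rw [add_div]; exact O'.add_mem hx hy
        | smul c x _ hx => rw [smul_div_assoc]; exact O'.smul_mem hx c
      have h2 := h1 _ (hv O' hO').1
      have h3 := hdiv O' hO' _ (hv O hO).1
      have h4 : (((v O)⁻¹ / (v O')⁻¹ : Fˣ) : F) = (v O' : F) / v O := by
        rw [Units.val_div_eq_div_val, Units.val_inv_eq_inv_val, Units.val_inv_eq_inv_val,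
          inv_div_inv]
      show Un O' (((v O)⁻¹ / (v O')⁻¹ : Fˣ) : F)
      rw [h4]
      exact ⟨div_ne_zero (v O').ne_zero (v O).ne_zero, h2, by rw [inv_div]; exact h3⟩
  · rw [pow_one]
    show f * (((v O)⁻¹ : Fˣ) : F) ∈ O
    rw [Units.val_inv_eq_inv_val, ← div_eq_mul_inv]
    exact hdiv O hO f hf
  · refine ⟨v O, (hv O hO).1, ?_⟩
    rw [pow_one]
    show Un O ((v O : F) * (((v O)⁻¹ : Fˣ) : F))
    rw [Units.mul_inv]
    exact Un.one O

/-- Serre's theorem.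

PROOF. `VA Y (D ^ m₁) V`. `exists_bf_sub` for `D ^ m₁` and `A = (E * D ^ s)⁻¹`, `s < m₁ d`: all
`D ^ m * E`, `m ≥ m₀`, are base point free. Add `D ^ m₁`. -/
theorem serre (hY : IsProj Y) (hD : IsCar Y D) (h : Amp Y D) (hE : IsCar Y E) :
    ∃ m₀ : ℕ, ∀ m, m₀ ≤ m → ∃ V : Submodule ℂ F, VA Y (D ^ m * E) V := by
  obtain ⟨m₁, hm₁, V, hV⟩ := h
  have h1 : ∀ s : ℕ, ∃ R : ℕ, ∀ r, R ≤ r → ∃ V' : Submodule ℂ F,
      BF Y ((D ^ m₁) ^ r * (E * D ^ s)) V' := by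
    intro s
    obtain ⟨d, r₀, hd, hr⟩ := exists_bf_sub hY hV (car_inv (car_mul hE (car_pow hD s)))
    refine ⟨d * r₀, fun r hr' => ?_⟩
    obtain ⟨V', hV'⟩ := hr r₀ le_rfl
    have h2 := hV'.mul (hV.toBF.pow (r - d * r₀))
    have e : (D ^ m₁) ^ (d * r₀) / (E * D ^ s)⁻¹ * (D ^ m₁) ^ (r - d * r₀) =
        (D ^ m₁) ^ r * (E * D ^ s) := by
      have e1 : r = d * r₀ + (r - d * r₀) := by omega
      conv_rhs => rw [e1, pow_add]
      rw [div_inv_eq_mul]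
      exact mul_right_comm _ _ _
    rw [e] at h2
    exact ⟨_, h2⟩
  choose R hR using h1
  refine ⟨m₁ * (∑ s ∈ Finset.range m₁, R s + 2), fun m hm => ?_⟩
  obtain ⟨q, s, hs, hq⟩ : ∃ q s, s < m₁ ∧ m = m₁ * q + s :=
    ⟨m / m₁, m % m₁, Nat.mod_lt _ hm₁, (Nat.div_add_mod m m₁).symm⟩
  have h2 : ∑ s ∈ Finset.range m₁, R s + 2 ≤ q := by
    by_contra hcon
    have h3 : q + 1 ≤ ∑ s ∈ Finset.range m₁, R s + 2 := by omega
    have h4 := Nat.mul_le_mul_left m₁ h3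
    rw [mul_add, mul_one] at h4
    omega
  have h3 : R s ≤ ∑ s ∈ Finset.range m₁, R s :=
    Finset.single_le_sum (f := R) (fun _ _ => Nat.zero_le _) (Finset.mem_range.2 hs)
  obtain ⟨V', hV'⟩ := hR s (q - 1) (by omega)
  have h4 := hV.mul hY hV'
  have e : D ^ m₁ * ((D ^ m₁) ^ (q - 1) * (E * D ^ s)) = D ^ m * E := by
    obtain ⟨p, rfl⟩ : ∃ p, q = p + 1 := ⟨q - 1, by omega⟩
    rw [hq, Nat.add_sub_cancel, pow_add, pow_mul, pow_succ' (D ^ m₁) p]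
    rw [mul_assoc, mul_assoc, mul_comm E]
  rw [e] at h4
  exact ⟨_, h4⟩

end Pool.Agent.KM
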