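import Pool.Agent.Lib.MP_732f67_ag.N.CarA
import Pool.Agent.Lib.MP_732f67_ag.N.AmpE
import Pool.Agent.Lib.MP_732f67_ag.N.AmpS

/-!
Part N: ample and semiample divisors.
-/

namespace Pool.Agent.KM

variable {F : Type} [Field F] [Algebra ℂ F] {Y : Set (Subalgebra ℂ F)}
  {D E : Subalgebra ℂ F → Fˣ}

/-- the definition of ampleness in `G/Stmt.lean` (`exists_va`; conversely `IsProj.eq_pts`); the
condition `IsCar` is needed: on the projective line the sum of all closed points is `Ample`, with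
infinite dimensional linear system, but not `Amp` -/
theorem amp_iff (hY : IsProj Y) (hD : IsCar Y D) : Ample Y D ↔ Amp Y D := by
  constructor
  · rintro ⟨m, hm, hF, hP⟩
    exact ⟨m, hm, exists_va hY (car_pow hD m) hF hP⟩
  · rintro ⟨m, hm, V, hV⟩
    refine ⟨m, hm, fun O hO => ?_, hY.eq_pts fun O hO => ?_⟩
    · obtain ⟨f, hf, hu⟩ := hV.gen O hO
      exact ⟨f, hV.sec hf, hu⟩
    · have hO1 := hO
      rw [hV.eq] at hO1
      obtain ⟨v, hv, hv0, hl⟩ := hO1
      have hu := hV.toBF.un_of_cht_le hO hv hv0 hl.le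
      refine ⟨v, hV.sec hv, hv0, hl.of_le ?_ ?_⟩
      · refine Algebra.adjoin_le ?_
        rintro _ ⟨w, hw, rfl⟩
        exact Algebra.subset_adjoin ⟨w, hV.sec hw, rfl⟩
      · refine Algebra.adjoin_le ?_
        rintro _ ⟨w, hw, rfl⟩
        have h1 : w / v = w * ((D ^ m) O : F) * (v * ((D ^ m) O : F))⁻¹ := by
          rw [← div_eq_mul_inv, mul_div_mul_right _ _ ((D ^ m) O).ne_zero]
        show w / v ∈ O
        rw [h1]
        exact O.mul_mem (hw O hO) hu.2.2

end Pool.Agent.KM
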