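import Pool.Agent.Lib.MP_732f67_ag.N.Grp
import Pool.Agent.Lib.MP_732f67_ag.N.Dmn

/-!
Part N: pull back of divisors with group actions.
-/

namespace Pool.Agent.KM

variable {F F' : Type} [Field F] [Algebra ℂ F] [Field F'] [Algebra ℂ F'] {i : F →ₐ[ℂ] F'}
  {Y : Set (Subalgebra ℂ F)} {Y' : Set (Subalgebra ℂ F')} {D : Subalgebra ℂ F → Fˣ}
  {G : Subgroup (F ≃ₐ[ℂ] F)} {G' : Subgroup (F' ≃ₐ[ℂ] F')}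

/-- conjugates of domination -/
theorem GrpB_dm {O : Subalgebra ℂ F} {O' : Subalgebra ℂ F'} (h : Dm i O O') {γ : F ≃ₐ[ℂ] F}
    {γ' : F' ≃ₐ[ℂ] F'} (hγ' : ∀ x, γ' (i x) = i (γ x)) : Dm i (gm γ O) (gm γ' O') := by
  refine ⟨?_, ?_⟩
  · rintro _ ⟨y, hy, rfl⟩
    exact ⟨i y, h.1 y hy, hγ' y⟩
  · rintro _ ⟨y, hy, rfl⟩ hx
    obtain ⟨z, hz, hzx⟩ := hx
    have h1 : γ' z = (i (γ y))⁻¹ := hzx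
    have h2 : γ' z = γ' (i y)⁻¹ := by rw [h1, map_inv₀, hγ']
    have h3 : z = (i y)⁻¹ := γ'.injective h2
    have h4 : (i y)⁻¹ ∈ O' := by
      rw [← h3]
      exact hz
    refine ⟨y⁻¹, h.2 y hy h4, ?_⟩
    exact map_inv₀ (γ : F →ₐ[ℂ] F) y

/-- the center of `gm γ' O'` is `gm γ O` -/
theorem cen_gm (h : Mor i Y Y') (hG : ∀ γ ∈ G, ∀ O ∈ Y, gm γ O ∈ Y) {γ : F ≃ₐ[ℂ] F}
    {γ' : F' ≃ₐ[ℂ] F'} (hγ : γ ∈ G) (hγ' : ∀ x, γ' (i x) = i (γ x)) {O' : Subalgebra ℂ F'}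
    (hO' : O' ∈ Y') : cen i Y (gm γ' O') = gm γ (cen i Y O') := by
  obtain ⟨h1, h2⟩ := cen_spec (h.dom O' hO')
  exact cen_eq_of h.proj (hG γ hγ _ h1) (GrpB_dm h2 hγ')

theorem gc_pb (h : Mor i Y Y') (hG : ∀ γ ∈ G, ∀ O ∈ Y, gm γ O ∈ Y)
    (hg : ∀ γ' ∈ G', ∃ γ ∈ G, ∀ x, γ' (i x) = i (γ x)) (hD : GC Y G D) :
    GC Y' G' (pb i Y D) := by
  refine ⟨car_pb h hD.1, fun O' hO' => ?_⟩
  obtain ⟨h1, h2⟩ := cen_spec (h.dom O' hO')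
  obtain ⟨δ, hδ0, hδ, hu⟩ := hD.2 _ h1
  refine ⟨i δ, (map_ne_zero i).2 hδ0, fun γ' hγ' => ?_, fun γ' hγ' => ?_⟩
  · obtain ⟨γ, hγ, h3⟩ := hg γ' hγ'
    rw [h3, hδ γ hγ]
  · obtain ⟨γ, hγ, h3⟩ := hg γ' hγ'
    rw [pb_val, cen_gm h hG hγ h3 hO', ← map_div₀]
    exact (GrpB_dm h2 h3).un (hu γ hγ)

theorem gi_pb (h : Mor i Y Y') (hG : ∀ γ ∈ G, ∀ O ∈ Y, gm γ O ∈ Y)
    (hg : ∀ γ' ∈ G', ∃ γ ∈ G, ∀ x, γ' (i x) = i (γ x)) (hD : GI Y G D) :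
    GI Y' G' (pb i Y D) := by
  intro γ' hγ' O' hO'
  obtain ⟨h1, h2⟩ := cen_spec (h.dom O' hO')
  obtain ⟨γ, hγ, h3⟩ := hg γ' hγ'
  rw [pb_val, pb_val, cen_gm h hG hγ h3 hO', h3, ← map_div₀]
  exact (GrpB_dm h2 h3).un (hD γ hγ _ h1)

end Pool.Agent.KM
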