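import Pool.Agent.Lib.MP_732f67_ag.N.Frm
import Pool.Agent.Lib.MP_732f67_ag.G.Can

/-!
Part N: log discrepancies in a finite extension.
-/

namespace Pool.Agent.KM

variable {F F' : Type} [Field F] [Algebra ℂ F] [Field F'] [Algebra ℂ F'] {i : F →ₐ[ℂ] F'}
  {O : Subalgebra ℂ F} {O' : Subalgebra ℂ F'} {d : ℕ}

/-- the transcendence degree of a finite extension -/
theorem LogA_trdeg (hfin : (i : F →+* F').Finite) (hd : Algebra.trdeg ℂ F = d) :
    Algebra.trdeg ℂ F' = d := by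
  let _ : Algebra F F' := (i : F →+* F').toAlgebra
  have hsc : IsScalarTower ℂ F F' := IsScalarTower.of_algebraMap_eq fun c => (i.commutes c).symm
  have hmf : Module.Finite F F' := hfin
  have halg : Algebra.IsAlgebraic F F' := Algebra.IsAlgebraic.of_finite F F'
  have h1 := trdeg_add_eq ℂ F (A := F')
  rw [trdeg_eq_zero (R := F) (A := F'), add_zero, hd] at h1
  exact h1.symm

/-- the Jacobian of the images of functions -/
theorem LogA_nj {Δ : Fin d → Derivation ℂ F F} {Δ' : Fin d → Derivation ℂ F' F'}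
    (hΔ' : ∀ l x, Δ' l (i x) = i (Δ l x)) (w : Fin d → F) :
    nj Δ' (fun l => i (w l)) = i (nj Δ w) := by
  rw [nj, nj]
  have h1 := RingHom.map_det (i : F →+* F') (Matrix.of fun k l => Δ k (w l))
  rw [RingHom.coe_coe] at h1
  rw [h1]
  congr 1
  ext k l
  simp [hΔ']

/-- the extension of a frame is a frame -/
theorem LogA_li {Δ : Fin d → Derivation ℂ F F} (hΔ : LinearIndependent F Δ) {w : Fin d → F}
    (hw : IsTranscendenceBasis ℂ w) {Δ' : Fin d → Derivation ℂ F' F'}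
    (hΔ' : ∀ l x, Δ' l (i x) = i (Δ l x)) : LinearIndependent F' Δ' := by
  rw [Fintype.linearIndependent_iff]
  intro c hc
  have h1 : nj Δ' (fun l => i (w l)) ≠ 0 := by
    rw [LogA_nj hΔ']
    exact (map_ne_zero i).2 (nj_ne hw hΔ)
  by_contra hcon
  push Not at hcon
  obtain ⟨k, hk⟩ := hcon
  apply h1
  rw [nj]
  refine Matrix.exists_vecMul_eq_zero_iff.1 ⟨c, fun h => hk (congrFun h k), ?_⟩
  funext l
  have h2 := DFunLike.congr_fun hc (i (w l))
  rw [der_sum_apply] at h2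
  simp only [Matrix.vecMul, dotProduct, Matrix.of_apply, Pi.zero_apply]
  rw [Derivation.coe_zero, Pi.zero_apply] at h2
  exact h2

/-- a unit plus a non unit -/
theorem LogA_un {π' a b : F'} (hπ : Unif O' π') (ha : Un O' a) (hb : b ∈ O') :
    Un O' (a + π' * b) := by
  have h0 := hπ.ne_zero
  have h1 : (a + π' * b) / π' ∉ O' := by
    intro h
    apply hπ.2.1
    have h2 : π'⁻¹ = ((a + π' * b) / π' - b) * a⁻¹ := by
      have := ha.1
      field_simp
      ring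
    rw [h2]
    exact O'.mul_mem (O'.sub_mem h hb) ha.2.2
  have h2 := O'.add_mem ha.2.1 (O'.mul_mem hπ.1 hb)
  refine ⟨fun h => h1 ?_, h2, (hπ.2.2 _ h2).resolve_right h1⟩
  rw [h, zero_div]
  exact O'.zero_mem

/-- PROOF. `O = O'.comap i`, `π`, `t` for `O` (`exists_ri`); the images of the `t l` have
algebraically independent residues; `π'` a uniformizer of `O'`, `i π = u π' ^ r`. In terms of the frame `δ'`
dual to `(π', i t)` (`dual_frame`): `nj Δ' (i π, i t) = nj Δ' (π', i t) * nj δ' (i π, i t)` and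
`nj δ' (i π, i t) = δ' 0 (i π) = π' ^ (r - 1) (r u + π' δ' 0 u)`, of order `r - 1`. And
`nj Δ' (i π, i t) = i (nj Δ (π, t))`. `ordF_of_ri` twice. -/
theorem oF_ram (hfin : (i : F →+* F').Finite) (hd : Algebra.trdeg ℂ F = d)
    {Δ : Fin d → Derivation ℂ F F} (hΔ : LinearIndependent F Δ)
    {Δ' : Fin d → Derivation ℂ F' F'} (hΔ' : ∀ l x, Δ' l (i x) = i (Δ l x)) (h' : PrimDiv O')
    (h : PrimDiv (O'.comap i)) {r : ℕ}
    (hr : ∀ x : F, x ≠ 0 → oD O' (i x) = r * oD (O'.comap i) x) :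
    oF Δ' O' + 1 = r * (oF Δ (O'.comap i) + 1) := by
  obtain ⟨π, hπ⟩ := h.exists_unif
  obtain ⟨π', hπ'⟩ := h'.exists_unif
  rcases d with _ | n
  · exfalso
    have h1 : Algebra.IsAlgebraic ℂ F := by
      refine trdeg_eq_zero_iff.1 ?_
      rw [hd, Nat.cast_zero]
    obtain ⟨c, hc⟩ := IsAlgClosed.algebraMap_bijective_of_isIntegral (k := ℂ) (K := F) |>.2 π⁻¹
    apply hπ.2.1
    rw [← hc]
    exact Subalgebra.algebraMap_mem _ c
  have hd' : Algebra.trdeg ℂ F' = (n + 1 : ℕ) := LogA_trdeg hfin hd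
  obtain ⟨t, ht⟩ := exists_ri hd h
  have ht' : RI O' (fun l => i (t l)) := by
    intro P hP
    have h1 := ht P hP
    have h2 : MvPolynomial.aeval (fun l => i (t l)) P = i (MvPolynomial.aeval t P) := by
      exact (MvPolynomial.comp_aeval_apply t i P).symm
    rw [h2]
    refine ⟨(map_ne_zero i).2 h1.1, h1.2.1, ?_⟩
    rw [← map_inv₀]
    exact h1.2.2
  have htb := tb_of_ri hd hπ ht
  have htb' := tb_of_ri hd' hπ' ht'
  have hli := LogA_li hΔ htb hΔ'
  obtain ⟨δ, hδ, hδ'⟩ := dual_frame hd' h' hπ' ht'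
  have e1 : oF Δ (O'.comap i) = -oD (O'.comap i) (nj Δ (Fin.cons π t)) :=
    IsOrdF.unique h (oF_spec hd h hΔ) (ordF_of_ri hd h hπ ht hΔ)
  have e2 : oF Δ' O' = -oD O' (nj Δ' (Fin.cons π' fun l => i (t l))) :=
    IsOrdF.unique h' (oF_spec hd' h' hli) (ordF_of_ri hd' h' hπ' ht' hli)
  have h0 := nj_ne htb hΔ
  have h0' := nj_ne htb' hli
  have hπ0 := hπ.ne_zero
  have hπ0' := hπ'.ne_zero
  have hiπ : i π ≠ 0 := (map_ne_zero i).2 hπ0
  -- the chain rule
  have e3 := nj_chain htb' hδ' Δ' (fun l => i ((Fin.cons π t : Fin (n + 1) → F) l))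
  rw [LogA_nj hΔ'] at e3
  have e4 : nj δ (fun l => i ((Fin.cons π t : Fin (n + 1) → F) l)) = δ 0 (i π) := by
    have hcol : ∀ k l : Fin (n + 1), l ≠ 0 →
        δ k (i ((Fin.cons π t : Fin (n + 1) → F) l)) = if k = l then 1 else 0 := by
      intro k l hl
      obtain ⟨l', rfl⟩ := Fin.exists_succ_eq.2 hl
      have h1 := hδ' k l'.succ
      rw [Fin.cons_succ] at h1
      rw [Fin.cons_succ]
      exact h1
    rw [nj, Matrix.det_of_lowerTriangular]
    · rw [Fin.prod_univ_succ, Matrix.of_apply, Fin.cons_zero]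
      rw [Finset.prod_eq_one, mul_one]
      intro l _
      rw [Matrix.of_apply, hcol _ _ (Fin.succ_ne_zero l), if_pos rfl]
    · intro a b hab
      have hab' : a < b := by simpa using hab
      rw [Matrix.of_apply, hcol a b (by
        rintro rfl
        exact absurd hab' (Fin.not_lt_zero a)), if_neg hab'.ne]
  -- the order of the derivative
  have hr1 := hr π hπ0
  rw [oD_unif h hπ, mul_one] at hr1
  have hr0 : 1 ≤ r := by
    rcases Nat.eq_zero_or_pos r with h1 | h1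
    · exfalso
      rw [h1, Nat.cast_zero] at hr1
      have h2 := ((oD_zero h' hiπ).1 hr1).2.2
      apply hπ.2.1
      show i π⁻¹ ∈ O'
      rwa [map_inv₀]
    · exact h1
  obtain ⟨s, rfl⟩ : ∃ s, r = s + 1 := ⟨r - 1, by omega⟩
  have hu : Un O' (i π / π' ^ (s + 1)) := by
    rw [← oD_zero h' (div_ne_zero hiπ (pow_ne_zero _ hπ0')),
      oD_div h' hiπ (pow_ne_zero _ hπ0'), oD_pow h' hπ0', oD_unif h' hπ', hr1]
    ring
  obtain ⟨u, hu'⟩ : ∃ u, u = i π / π' ^ (s + 1) := ⟨_, rfl⟩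
  rw [← hu'] at hu
  have e5 : i π = u * π' ^ (s + 1) := by
    rw [hu', div_mul_cancel₀ _ (pow_ne_zero _ hπ0')]
  have hδπ : δ 0 π' = 1 := by
    have h1 := hδ' 0 0
    rwa [Fin.cons_zero, if_pos rfl] at h1
  have e6 : δ 0 (i π) = π' ^ s * (((s + 1 : ℕ) : F') * u + π' * δ 0 u) := by
    rw [e5, Derivation.leibniz, Derivation.leibniz_pow, hδπ]
    simp only [smul_eq_mul, nsmul_eq_mul, Nat.add_sub_cancel, mul_one]
    ring
  have hcs : ((s + 1 : ℕ) : ℂ) ≠ 0 := Nat.cast_ne_zero.2 (Nat.succ_ne_zero s)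
  have hcu : Un O' ((s + 1 : ℕ) : F') := by
    have h1 : ((s + 1 : ℕ) : F') = algebraMap ℂ F' ((s + 1 : ℕ) : ℂ) := (map_natCast _ _).symm
    rw [h1]
    refine ⟨(map_ne_zero _).2 hcs, O'.algebraMap_mem _, ?_⟩
    rw [← map_inv₀]
    exact O'.algebraMap_mem _
  have hv := LogA_un hπ' (hcu.mul hu) (hδ 0 u hu.2.1)
  have e7 : oD O' (δ 0 (i π)) = s := by
    rw [e6, oD_mul h' (pow_ne_zero _ hπ0') hv.1, (oD_zero h' hv.1).2 hv, oD_pow h' hπ0',
      oD_unif h' hπ']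
    ring
  have h8 : δ 0 (i π) ≠ 0 := by
    rw [e6]
    exact mul_ne_zero (pow_ne_zero _ hπ0') hv.1
  have e9 := hr _ h0
  rw [e3, e4, oD_mul h' h0' h8, e7] at e9
  rw [e1, e2]
  push_cast at e9 ⊢
  linear_combination -e9

theorem LD_ram (hfin : (i : F →+* F').Finite) (hd : Algebra.trdeg ℂ F = d)
    {Δ : Fin d → Derivation ℂ F F} (hΔ : LinearIndependent F Δ)
    {Δ' : Fin d → Derivation ℂ F' F'} (hΔ' : ∀ l x, Δ' l (i x) = i (Δ l x)) (h' : PrimDiv O')
    (h : PrimDiv (O'.comap i)) {r : ℕ}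
    (hr : ∀ x : F, x ≠ 0 → oD O' (i x) = r * oD (O'.comap i) x) (m : ℕ) {ν : F} (hν : ν ≠ 0) :
    LD Δ' m O' (i ν) = r * LD Δ m (O'.comap i) ν := by
  have h1 := oF_ram hfin hd hΔ hΔ' h' h hr
  have h2 : ((oF Δ' O' : ℚ)) + 1 = r * ((oF Δ (O'.comap i) : ℚ) + 1) := by exact_mod_cast h1
  rw [LD, LD, hr ν hν, h2]
  push_cast
  ring

end Pool.Agent.KM
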