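import Pool.Agent.Lib.MP_732f67_ag.N.Frm
import Pool.Agent.Lib.MP_732f67_ag.G.EtA
import Pool.Agent.Lib.MP_732f67_ag.G.EtB
import Pool.Agent.Lib.MP_732f67_ag.G.EtD
import Pool.Agent.Lib.MP_732f67_ag.G.Nbh2

/-!
Part N: log forms on a smooth variety with normal crossings, at prime divisors over it.
-/

namespace Pool.Agent.KM

variable {F : Type} [Field F] [Algebra ℂ F] {Y : Set (Subalgebra ℂ F)} {d : ℕ} {J : Type}
  [Fintype J] {B : J → Subalgebra ℂ F → Fˣ} {Δ : Fin d → Derivation ℂ F F}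
  {κ : Subalgebra ℂ F → Fˣ} {O O₀ : Subalgebra ℂ F}

/-- smooth varieties are normal (`exists_isCh`, `IsCh.closed`; the same proof as for
`LogRes.normal` in `G/Nbh.lean`) -/
theorem Snc.normal (h : Snc d Y B Δ κ) : Normal Y := by
  intro O hO w hw
  obtain ⟨A, hA, hfr, hl, -⟩ := h.proj.exists_chart hO
  obtain ⟨x, -, ⟨b, hb⟩, -⟩ := h.snc O hO
  obtain ⟨g, -, -, hgO, y, u, hch⟩ := exists_isCh hA hfr hl (h.smooth O hO) x b hb
  refine nbh2_closed hl (fun a ha => Algebra.subset_adjoin (Or.inl ha)) ?_ hch.closed hw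
  refine Algebra.adjoin_le ?_
  rintro a (ha | ha)
  · exact hl.le ha
  · rw [Set.mem_singleton_iff] at ha
    rw [ha]
    exact hgO

end Pool.Agent.KM
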