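import Pool.Agent.Lib.MP_732f67_ag.N.Frm
import Pool.Agent.Lib.MP_732f67_ag.G.EtA
import Pool.Agent.Lib.MP_732f67_ag.G.EtB
import Pool.Agent.Lib.MP_732f67_ag.G.EtD
import Pool.Agent.Lib.MP_732f67_ag.N.LbN

/-!
Part N: log forms on a smooth variety with normal crossings, at prime divisors over it.
-/

namespace Pool.Agent.KM

variable {F : Type} [Field F] [Algebra ℂ F] {Y : Set (Subalgebra ℂ F)} {d : ℕ} {J : Type}
  [Fintype J] {B : J → Subalgebra ℂ F → Fˣ} {Δ : Fin d → Derivation ℂ F F}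
  {κ : Subalgebra ℂ F → Fˣ} {O O₀ : Subalgebra ℂ F}

/-- the differentials of elements of `O` in terms of a basis -/
theorem lbE_mat {O : Subalgebra ℂ F} {x : Fin d → O}
    (hx : ∃ b : Module.Basis (Fin d) O (Ω[O⁄ℂ]), ∀ l, b l = KaehlerDifferential.D ℂ O (x l))
    (y : Fin d → O) :
    ∃ c : Matrix (Fin d) (Fin d) O,
      (∀ j, KaehlerDifferential.D ℂ O (y j) =
        ∑ l, c l j • KaehlerDifferential.D ℂ O (x l)) ∧
      ∀ Δ : Fin d → Derivation ℂ F F, (nj Δ fun l => (y l : F)) =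
        (nj Δ fun l => (x l : F)) * (c.det : F) := by
  obtain ⟨b, hb⟩ := hx
  have h0 : ∀ j, KaehlerDifferential.D ℂ O (y j) =
      ∑ l, b.repr (KaehlerDifferential.D ℂ O (y j)) l • KaehlerDifferential.D ℂ O (x l) := by
    intro j
    conv_lhs => rw [← b.sum_repr (KaehlerDifferential.D ℂ O (y j))]
    exact Finset.sum_congr rfl fun l _ => by rw [hb]
  refine ⟨Matrix.of fun l j => b.repr (KaehlerDifferential.D ℂ O (y j)) l, h0, fun Δ => ?_⟩
  have h1 : ∀ i j, Δ i (y j : F) =
      ∑ l, Δ i (x l : F) * ((b.repr (KaehlerDifferential.D ℂ O (y j)) l : O) : F) := by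
    intro i j
    have h2 := congrArg ((Δ i).compAlgebraMap O).liftKaehlerDifferential (h0 j)
    rw [map_sum, Derivation.liftKaehlerDifferential_comp_D] at h2
    simp only [map_smul, Derivation.liftKaehlerDifferential_comp_D] at h2
    refine h2.trans (Finset.sum_congr rfl fun l _ => ?_)
    exact mul_comm _ _
  have h3 : (Matrix.of fun i l => Δ i ((y l : O) : F)) = (Matrix.of fun i l => Δ i ((x l : O) : F)) *
      (Matrix.of fun l j => b.repr (KaehlerDifferential.D ℂ O (y j)) l).map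
        (algebraMap O F) := by
    ext i j
    rw [Matrix.mul_apply]
    exact h1 i j
  unfold nj
  rw [h3, Matrix.det_mul]
  congr 1
  exact (RingHom.map_det (algebraMap O F) _).symm

/-- two systems of coordinates: the Jacobians differ by a unit -/
theorem nj_un {O : Subalgebra ℂ F} {x x' : Fin d → O}
    (hx : ∃ b : Module.Basis (Fin d) O (Ω[O⁄ℂ]), ∀ l, b l = KaehlerDifferential.D ℂ O (x l))
    (hx' : ∃ b : Module.Basis (Fin d) O (Ω[O⁄ℂ]), ∀ l, b l = KaehlerDifferential.D ℂ O (x' l)) :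
    ∃ u : F, Un O u ∧ (nj Δ fun l => (x l : F)) = u * nj Δ fun l => (x' l : F) := by
  obtain ⟨c, hc, hc'⟩ := lbE_mat hx x'
  obtain ⟨e, he, he'⟩ := lbE_mat hx' x
  have h1 : c * e = 1 := by
    obtain ⟨b, hb⟩ := hx
    ext l j
    have h2 : KaehlerDifferential.D ℂ O (x j) =
        ∑ l, (c * e) l j • KaehlerDifferential.D ℂ O (x l) := by
      conv_lhs => rw [he j]
      simp only [hc, Finset.smul_sum, smul_smul, Matrix.mul_apply, Finset.sum_smul]
      rw [Finset.sum_comm]
      exact Finset.sum_congr rfl fun l _ => Finset.sum_congr rfl fun k _ => by rw [mul_comm]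
    have h3 := congrArg (fun z => b.repr z l) h2
    simp only [← hb, map_sum, map_smul, Module.Basis.repr_self] at h3
    simp only [Finsupp.smul_single, smul_eq_mul, mul_one, Finsupp.coe_finsetSum,
      Finset.sum_apply, Finsupp.single_apply, Finset.sum_ite_eq', Finset.mem_univ,
      if_true] at h3
    rw [← h3, Matrix.one_apply]
    simp only [eq_comm]
  have h4 : (c.det : F) * (e.det : F) = 1 := by
    have := congrArg Matrix.det h1
    rw [Matrix.det_mul, Matrix.det_one] at this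
    exact congrArg (Subtype.val) this
  refine ⟨e.det, ⟨right_ne_zero_of_mul_eq_one h4, e.det.2, ?_⟩, ?_⟩
  · rw [← eq_inv_of_mul_eq_one_left h4]
    exact c.det.2
  · rw [he' Δ, mul_comm]

/-- at a point the form is `κ O` times `dx 1 ∧ ... ∧ dx d` up to units -/
theorem Snc.lat (h : Snc d Y B Δ κ) (hO : O ∈ Y) (f : F) : f ∈ lat Δ O ↔ f * κ O ∈ O := by
  obtain ⟨x, -, hx, -, -, hu⟩ := h.snc O hO
  have hκ : (κ O : F) ≠ 0 := (κ O).ne_zero
  constructor
  · intro hf
    have h1 : ∃ c ∈ O, f = c * nj Δ fun i => (x i : F) := by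
      unfold Pool.Agent.KM.lat at hf
      induction hf using Submodule.span_induction with
      | mem z hz =>
        obtain ⟨w, rfl⟩ := hz
        obtain ⟨c, -, hc⟩ := lbE_mat hx w
        refine ⟨c.det, c.det.2, ?_⟩
        rw [mul_comm]
        exact hc Δ
      | zero => exact ⟨0, O.zero_mem, (zero_mul _).symm⟩
      | add a b _ _ ha hb =>
        obtain ⟨c, hc, rfl⟩ := ha
        obtain ⟨e, he, rfl⟩ := hb
        exact ⟨c + e, O.add_mem hc he, (add_mul _ _ _).symm⟩
      | smul r a _ ha =>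
        obtain ⟨c, hc, rfl⟩ := ha
        exact ⟨r * c, O.mul_mem r.2 hc, (mul_assoc _ _ _).symm⟩
    obtain ⟨c, hc, rfl⟩ := h1
    have h2 : c * (nj Δ fun i => (x i : F)) * κ O = c * (κ O * nj Δ fun i => (x i : F)) := by ring
    rw [h2]
    exact O.mul_mem hc hu.2.1
  · intro hf
    have h1 : f = (f * κ O * ((κ O : F) * nj Δ fun i => (x i : F))⁻¹) *
        nj Δ fun i => (x i : F) := by
      have h2 := right_ne_zero_of_mul hu.1
      field_simp
    rw [h1]
    exact Submodule.smul_mem (Pool.Agent.KM.lat Δ O)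
      (⟨f * κ O * ((κ O : F) * nj Δ fun i => (x i : F))⁻¹, O.mul_mem hf hu.2.2⟩ : O)
      (Submodule.subset_span ⟨x, rfl⟩)

theorem Snc.oF_eq (h : Snc d Y B Δ κ) (hO : O ∈ Y) (hp : PrimDiv O) : oF Δ O = oD O (κ O) := by
  refine Pool.Agent.KM.oF_eq hp ?_
  obtain ⟨π, hπ, hu⟩ := oD_spec hp (κ O).ne_zero
  refine ⟨π, hπ, fun f => ?_⟩
  rw [h.lat hO]
  have hπe : π ^ oD O (κ O) ≠ 0 := zpow_ne_zero _ hπ.ne_zero
  have hκ : (κ O : F) ≠ 0 := (κ O).ne_zero
  constructor
  · intro hf
    have h1 : f * π ^ oD O (κ O) = f * κ O * ((κ O : F) / π ^ oD O (κ O))⁻¹ := by field_simp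
    rw [h1]
    exact O.mul_mem hf hu.2.2
  · intro hf
    have h1 : f * κ O = f * π ^ oD O (κ O) * ((κ O : F) / π ^ oD O (κ O)) := by field_simp
    rw [h1]
    exact O.mul_mem hf hu.2.1

end Pool.Agent.KM
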