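import Pool.Agent.Lib.MP_732f67_ag.N.Frm
import Pool.Agent.Lib.MP_732f67_ag.G.EtA
import Pool.Agent.Lib.MP_732f67_ag.G.EtB
import Pool.Agent.Lib.MP_732f67_ag.G.EtD
import Pool.Agent.Lib.MP_732f67_ag.N.LbN
import Pool.Agent.Lib.MP_732f67_ag.N.LbE

/-!
Part N: log forms on a smooth variety with normal crossings, at prime divisors over it.
-/

namespace Pool.Agent.KM

variable {F : Type} [Field F] [Algebra ℂ F] {Y : Set (Subalgebra ℂ F)} {d : ℕ} {J : Type}
  [Fintype J] {B : J → Subalgebra ℂ F → Fˣ} {Δ : Fin d → Derivation ℂ F F}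
  {κ : Subalgebra ℂ F → Fˣ} {O O₀ : Subalgebra ℂ F}

/-- there are no prime divisors in dimension `0` -/
theorem lbL_dim (hd : Algebra.trdeg ℂ F = d) (hp : PrimDiv O) : ∃ n, d = n + 1 := by
  obtain ⟨π, hπ⟩ := hp.exists_unif
  have hri : RI O (Fin.elim0 : Fin 0 → F) := by
    intro P hP
    rw [MvPolynomial.eq_C_of_isEmpty P, MvPolynomial.algHom_C]
    have h0 : P.coeff 0 ≠ 0 := by
      intro h
      apply hP
      rw [MvPolynomial.eq_C_of_isEmpty P, h, MvPolynomial.C_0]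
    refine ⟨?_, O.algebraMap_mem _, ?_⟩
    · rwa [ne_eq, map_eq_zero]
    · rw [← map_inv₀]
      exact O.algebraMap_mem _
  have h1 := (frC_ai hπ hri).lift_cardinalMk_le_trdeg
  rw [hd] at h1
  rcases d with - | n
  · simp at h1
  · exact ⟨n, rfl⟩

/-- the sum over the divisors is the sum over the coordinates -/
theorem lbL_sum {co : J → Option (Fin d)} (hco : ∀ j j' l, co j = some l → co j' = some l → j = j')
    (g : Fin d → ℤ) (g' : J → ℤ) (h0 : ∀ j, co j = none → g' j = 0)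
    (h1 : ∀ j l, co j = some l → g' j = g l) (S : Finset (Fin d))
    (hS : ∀ l, l ∈ S ↔ ∃ j, co j = some l) : ∑ j, g' j = ∑ l ∈ S, g l := by
  classical
  have h2 : ∀ j, g' j = ∑ l, if co j = some l then g l else 0 := by
    intro j
    rcases hc : co j with - | l
    · rw [h0 j hc]
      simp
    · rw [h1 j l hc]
      simp
  rw [Finset.sum_congr rfl fun j _ => h2 j, Finset.sum_comm, ← Finset.sum_subset
    (Finset.subset_univ S)]
  · refine Finset.sum_congr rfl fun l hl => ?_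
    obtain ⟨j, hj⟩ := (hS l).1 hl
    rw [Finset.sum_eq_single j, if_pos hj]
    · intro j' _ hj'
      rw [if_neg]
      exact fun h => hj' (hco _ _ _ h hj)
    · intro h
      exact absurd (Finset.mem_univ _) h
  · intro l _ hl
    refine Finset.sum_eq_zero fun j _ => ?_
    rw [if_neg]
    exact fun h => hl ((hS l).2 ⟨j, h⟩)

/-- PROOF. `x`, `co` for `O₀` (`snc`), `π`, `t` for `O` (`exists_ri`), `δ` (`dual_frame`); the `x l` are in
`O₀ ≤ O`, and not zero. `κ O₀` is a unit of `O₀` times `1 / nj Δ x`, and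
`nj Δ x = nj Δ (π, t) * nj δ x`, `oF Δ O = -oD O (nj Δ (π, t))`. So
`oF Δ O - oD O (κ O₀) = oD O (nj δ x) ≥ 0`. By `log_det` with `S = {l | ∃ j, co j = some l}` it is at
least `∑ oD O (x l) - 1 = ∑ oD O (B j O₀) - 1`. -/
theorem Snc.log (h : Snc d Y B Δ κ) (hO₀ : O₀ ∈ Y) (hp : PrimDiv O) (hd : Dom O₀ O) :
    0 ≤ oF Δ O - oD O (κ O₀) ∧ ∑ j, oD O (B j O₀) ≤ oF Δ O - oD O (κ O₀) + 1 := by
  classical
  obtain ⟨n, rfl⟩ := lbL_dim h.dim hp
  obtain ⟨x, co, hx, hco, hB, hu⟩ := h.snc O₀ hO₀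
  obtain ⟨π, hπ⟩ := hp.exists_unif
  obtain ⟨t, ht⟩ := exists_ri h.dim hp
  obtain ⟨δ, hδ, hδ'⟩ := dual_frame h.dim hp hπ ht
  have htb := tb_of_ri h.dim hπ ht
  have hxtb : IsTranscendenceBasis ℂ fun i => (x i : F) := by
    obtain ⟨b, hb⟩ := hx
    exact tb_of_basis (h.proj.fracEq hO₀) x b hb
  have hx0 : ∀ l, (x l : F) ≠ 0 := fun l => hxtb.1.ne_zero l
  have hxO : ∀ l, (x l : F) ∈ O := fun l => hd.1 (x l).2
  have hchain := nj_chain htb hδ' Δ fun l => (x l : F)
  have hne := nj_ne htb h.frame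
  have hne' := nj_ne hxtb h.frame
  have hne'' : (nj δ fun l => (x l : F)) ≠ 0 := by
    intro h0
    rw [h0, mul_zero] at hchain
    exact hne' hchain
  have hF : oF Δ O = -oD O (nj Δ (Fin.cons π t)) :=
    Pool.Agent.KM.oF_eq hp (ordF_of_ri h.dim hp hπ ht h.frame)
  have hκ : oD O (κ O₀) + (oD O (nj Δ (Fin.cons π t)) + oD O (nj δ fun l => (x l : F))) = 0 := by
    rw [← oD_mul hp hne hne'', ← hchain, ← oD_mul hp (κ O₀).ne_zero hne']
    exact (oD_zero hp hu.1).2 (hu.mono hd.1)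
  have hδx : (nj δ fun l => (x l : F)) ∈ O := by
    unfold nj
    rw [Matrix.det_apply']
    exact O.sum_mem fun σ _ => O.mul_mem (intCast_mem O _) (O.prod_mem fun i _ => hδ _ _ (hxO _))
  have h1 := (oD_nonneg hp hne'').2 hδx
  set S : Finset (Fin (n + 1)) := Finset.univ.filter fun l => ∃ j, co j = some l with hS
  have h2 := log_det h.dim hp hπ ht hδ hδ' (fun l => ⟨hxO l, hx0 l⟩) S
  have hprod : (∏ l ∈ S, (x l : F)) ≠ 0 := Finset.prod_ne_zero_iff.2 fun l _ => hx0 l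
  rw [← oD_nonneg hp (div_ne_zero (mul_ne_zero hne'' hπ.ne_zero) hprod),
    oD_div hp (mul_ne_zero hne'' hπ.ne_zero) hprod, oD_mul hp hne'' hπ.ne_zero,
    oD_unif hp hπ, oD_prod hp S fun l _ => hx0 l] at h2
  have h3 : ∑ j, oD O (B j O₀) = ∑ l ∈ S, oD O (x l : F) := by
    refine lbL_sum hco (fun l => oD O (x l : F)) _ (fun j hj => ?_) (fun j l hj => ?_) S
      (fun l => by rw [hS, Finset.mem_filter]; simp)
    · have h4 := hB j
      rw [hj] at h4
      have h5 : (B j O₀ : F) / eps (fun i => (x i : F)) none = B j O₀ := div_one _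
      rw [h5] at h4
      exact (oD_zero hp h4.1).2 (h4.mono hd.1)
    · have h4 := hB j
      rw [hj] at h4
      exact oD_of_un hp (B j O₀).ne_zero (hx0 l) (h4.mono hd.1)
  rw [h3, hF]
  constructor
  · linarith
  · linarith

end Pool.Agent.KM
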