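import Pool.Agent.Lib.MP_732f67_ag.N.Frm
import Pool.Agent.Lib.MP_732f67_ag.G.EtA
import Pool.Agent.Lib.MP_732f67_ag.G.EtB
import Pool.Agent.Lib.MP_732f67_ag.G.EtD
import Pool.Agent.Lib.MP_732f67_ag.N.LbN
import Pool.Agent.Lib.MP_732f67_ag.N.LbE
import Pool.Agent.Lib.MP_732f67_ag.N.LbL

/-!
Part N: log forms on a smooth variety with normal crossings, at prime divisors over it.
-/

namespace Pool.Agent.KM

variable {F : Type} [Field F] [Algebra ℂ F] {Y : Set (Subalgebra ℂ F)} {d : ℕ} {J : Type}
  [Fintype J] {B : J → Subalgebra ℂ F → Fˣ} {Δ : Fin d → Derivation ℂ F F}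
  {κ : Subalgebra ℂ F → Fˣ} {O O₀ : Subalgebra ℂ F}

/-- two different divisors do not have the same local equation; the local equations are not
squares: at a prime divisor of `Y` at most one `B j` is not a unit, and it is a uniformizer -/
theorem Snc.prim (h : Snc d Y B Δ κ) (hO : O ∈ Y) (hp : PrimDiv O) :
    (∀ j, ¬ Un O (B j O) → Unif O (B j O)) ∧
      ∀ j j', ¬ Un O (B j O) → ¬ Un O (B j' O) → j = j' := by
  classical
  have h1 := (h.log hO hp (Dom.refl O)).2
  rw [h.oF_eq hO hp, sub_self, zero_add] at h1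
  obtain ⟨x, co, -, -, hB, -⟩ := h.snc O hO
  have hmem : ∀ j, (B j O : F) ∈ O := by
    intro j
    have h2 := (hB j).2.1
    rcases hc : co j with - | l
    · rw [hc] at h2
      have h5 : (B j O : F) / eps (fun i => (x i : F)) none = B j O := div_one _
      rwa [h5] at h2
    · rw [hc] at h2
      by_cases hx0 : (x l : F) = 0
      · have h5 := (hB j).1
        rw [hc] at h5
        have h6 : (B j O : F) / eps (fun i => (x i : F)) (some l) = B j O / (x l : F) := rfl
        rw [h6, hx0, div_zero] at h5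
        exact absurd rfl h5
      · have h6 : (B j O : F) = B j O / (x l : F) * x l := (div_mul_cancel₀ _ hx0).symm
        rw [h6]
        exact O.mul_mem h2 (x l).2
  have h0 : ∀ j, 0 ≤ oD O (B j O) := fun j => (oD_nonneg hp (B j O).ne_zero).2 (hmem j)
  have h1' : ∀ j, ¬ Un O (B j O) → 1 ≤ oD O (B j O) := by
    intro j hj
    have h2 : oD O (B j O) ≠ 0 := fun h3 => hj ((oD_zero hp (B j O).ne_zero).1 h3)
    have := h0 j
    omega
  constructor
  · intro j hj
    have h2 : oD O (B j O) ≤ ∑ j, oD O (B j O) :=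
      Finset.single_le_sum (fun i _ => h0 i) (Finset.mem_univ j)
    have h3 : oD O (B j O) = 1 := le_antisymm (h2.trans h1) (h1' j hj)
    obtain ⟨π, hπ, hu⟩ := oD_spec hp (B j O).ne_zero
    rw [h3, zpow_one] at hu
    have hπ0 := hπ.ne_zero
    have hb0 : (B j O : F) ≠ 0 := (B j O).ne_zero
    refine ⟨hmem j, fun hi => hj ⟨hb0, hmem j, hi⟩, fun y hy => ?_⟩
    rcases hπ.2.2 y hy with h4 | h4
    · exact Or.inl h4
    · right
      have h5 : y / (B j O : F) = y / π * ((B j O : F) / π)⁻¹ := by field_simp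
      rw [h5]
      exact O.mul_mem h4 hu.2.2
  · intro j j' hj hj'
    by_contra hne
    have h2 : oD O (B j O) + oD O (B j' O) ≤ ∑ j, oD O (B j O) := by
      rw [← Finset.sum_pair (f := fun j => oD O (B j O : F)) hne]
      exact Finset.sum_le_sum_of_subset_of_nonneg (Finset.subset_univ _) fun i _ _ => h0 i
    have := h1' j hj
    have := h1' j' hj'
    omega

end Pool.Agent.KM
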