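import Pool.Agent.Lib.MP_732f67_ag.N.GrpB
import Pool.Agent.Lib.MP_732f67_ag.N.LogA
import Pool.Agent.Lib.MP_732f67_ag.N.LogB

/-!
Part N: Galois models, the log discrepancies of the boundary divisors, descent of sections.
-/

namespace Pool.Agent.KM

namespace GMod

variable {F : Type} [Field F] [Algebra ℂ F] {d : ℕ} {Y : Set (Subalgebra ℂ F)}
  {G : Subgroup (F ≃ₐ[ℂ] F)} {Δ : Fin d → Derivation ℂ F F} {Φ : Finset F}
  {H : Subalgebra ℂ F → Fˣ} (M : GMod d Y G Δ Φ H)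

theorem mor (hY : IsProj Y) : Mor M.i Y M.Y' := ⟨hY, M.base.proj, M.fin, M.dom⟩

/-- an element `O'` of `Y'` which is a prime divisor is one of the `P j`, or it is outside the
boundary -/
theorem prim_cases {O' : Subalgebra ℂ M.F'} (hO' : O' ∈ M.Y') (hp : PrimDiv O') :
    (∃ j, O' = M.P j) ∨ ∀ j, Un O' (M.B j O') := by
  by_cases h : ∃ j, O' = M.P j
  · exact Or.inl h
  · refine Or.inr fun j => (M.bd.eqn j O' hO' hp).2 ?_
    rintro rfl
    exact h ⟨j, rfl⟩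

/-- divisors supported by the boundary -/
theorem exp {E : Subalgebra ℂ M.F' → M.F'ˣ} (hE : IsCar M.Y' E)
    (hu : ∀ O' ∈ M.Y', (∀ j, Un O' (M.B j O')) → Un O' (E O')) {O' : Subalgebra ℂ M.F'}
    (hO' : O' ∈ M.Y') :
    Un O' ((E O' : M.F') / ∏ j, (M.B j O' : M.F') ^ oD (M.P j) (E (M.P j))) := by
  classical
  have hB0 : ∀ j, (M.B j O' : M.F') ^ oD (M.P j) (E (M.P j)) ≠ 0 := fun j =>
    zpow_ne_zero _ (M.B j O').ne_zero
  have hprod : (∏ j, (M.B j O' : M.F') ^ oD (M.P j) (E (M.P j))) ≠ 0 :=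
    Finset.prod_ne_zero_iff.2 fun j _ => hB0 j
  refine M.base.proj.un_of_primDiv M.base.normal hO' (div_ne_zero (E O').ne_zero hprod) ?_
  intro P₀ hP₀ hp hle
  rw [← oD_zero hp (div_ne_zero (E O').ne_zero hprod), oD_div hp (E O').ne_zero hprod,
    oD_prod hp _ fun j _ => hB0 j]
  have hE0 : oD P₀ (E O' : M.F') = oD P₀ (E P₀ : M.F') := by
    refine oD_of_un hp (E O').ne_zero (E P₀).ne_zero ?_
    rw [← Units.val_div_eq_div_val]
    exact hE.un_of_le hO' hP₀ hle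
  have hB : ∀ j, oD P₀ ((M.B j O' : M.F') ^ oD (M.P j) (E (M.P j))) =
      oD (M.P j) (E (M.P j)) * oD P₀ (M.B j P₀ : M.F') := by
    intro j
    rw [oD_zpow hp (M.B j O').ne_zero]
    congr 1
    refine oD_of_un hp (M.B j O').ne_zero (M.B j P₀).ne_zero ?_
    rw [← Units.val_div_eq_div_val]
    exact (M.snc.car j).un_of_le hO' hP₀ hle
  rw [hE0, Finset.sum_congr rfl fun j _ => hB j]
  rcases M.prim_cases hP₀ hp with ⟨j₀, rfl⟩ | h
  · rw [Finset.sum_eq_single j₀]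
    · rw [oD_unif hp ((M.bd.eqn j₀ _ hP₀ hp).1 rfl), mul_one, sub_self]
    · intro j _ hj
      have h1 : Un (M.P j₀) (M.B j (M.P j₀)) := (M.bd.eqn j _ hP₀ hp).2 fun h =>
        hj (M.bd.inj h.symm)
      rw [(oD_zero hp (M.B j _).ne_zero).2 h1, mul_zero]
    · intro h
      exact absurd (Finset.mem_univ _) h
  · rw [Finset.sum_eq_zero, sub_zero, oD_zero hp (E P₀).ne_zero]
    · exact hu P₀ hP₀ h
    · intro j _
      rw [(oD_zero hp (M.B j P₀).ne_zero).2 (h j), mul_zero]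

/-- a divisor on `Y` whose local equations are in `Φ` is supported by the boundary -/
theorem pb_un (hY : IsProj Y) {D : Subalgebra ℂ F → Fˣ}
    (hD : ∀ O ∈ Y, ∃ t ∈ Φ, Un O ((D O : F) / t)) {O' : Subalgebra ℂ M.F'} (hO' : O' ∈ M.Y')
    (h : ∀ j, Un O' (M.B j O')) : Un O' (pb M.i Y D O') := by
  obtain ⟨h1, h2⟩ := cen_spec (M.dom O' hO')
  obtain ⟨t, ht, hu⟩ := hD _ h1
  have h3 := M.un t ht O' hO' h
  have ht0 : t ≠ 0 := by
    rintro rfl
    exact h3.1 (map_zero _)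
  have h4 := (h2.un hu).mul h3
  rwa [← map_mul, div_mul_cancel₀ _ ht0] at h4

/-- the log discrepancy of the boundary divisor `j` -/
noncomputable def ad (m : ℕ) (ν : Subalgebra ℂ F → Fˣ) (j : M.J) : ℚ :=
  LD M.Δ' m (M.P j) (pb M.i Y ν (M.P j))

variable {m : ℕ} {ν : Subalgebra ℂ F → Fˣ}

/-- the sections of the model which are invariant come from `Y` -/
theorem exists_inv {f : M.F'} (hf : ∀ γ' ∈ M.G', γ' f = f) :
    ∃ g : F, (∀ γ ∈ G, γ g = g) ∧ M.i g = f :=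
  M.fix f hf

end GMod

end Pool.Agent.KM
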