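import Pool.Agent.Lib.MP_732f67_ag.N.GrpB
import Pool.Agent.Lib.MP_732f67_ag.N.LogA
import Pool.Agent.Lib.MP_732f67_ag.N.LogB
import Pool.Agent.Lib.MP_732f67_ag.N.MdE

/-!
Part N: Galois models, the log discrepancies of the boundary divisors, descent of sections.
-/

namespace Pool.Agent.KM

namespace GMod

variable {F : Type} [Field F] [Algebra ℂ F] {d : ℕ} {Y : Set (Subalgebra ℂ F)}
  {G : Subgroup (F ≃ₐ[ℂ] F)} {Δ : Fin d → Derivation ℂ F F} {Φ : Finset F}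
  {H : Subalgebra ℂ F → Fˣ} (M : GMod d Y G Δ Φ H)

/-- the group permutes the boundary divisors (`a_un`, `a_inv`) -/
theorem perm (hY : Base d Y G Δ) (hH : GC Y G H) {γ' : M.F' ≃ₐ[ℂ] M.F'} (hγ : γ' ∈ M.G')
    (j : M.J) : ∃ j', gm γ' (M.P j) = M.P j' := by
  obtain ⟨hP, hp⟩ := M.bd.mem j
  have hO₁ : gm γ' (M.P j) ∈ M.Y' := M.base.st γ' hγ _ hP
  rcases M.prim_cases hO₁ (prim_gm hp) with ⟨j', h⟩ | h
  · exact ⟨j', h⟩
  · exfalso
    obtain ⟨γ, hγG, hγi⟩ := M.grp γ' hγ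
    have hgi := gc_gi (gc_pb (M.mor hY.proj) hY.st M.grp hH) γ' hγ (M.P j) hP
    have h1 := (M.a_un _ hO₁).1 h
    have e1 : M.i (M.a * (H (cen M.i Y (gm γ' (M.P j))) : F) ^ M.l) =
        M.i M.a * (pb M.i Y H (gm γ' (M.P j)) : M.F') ^ M.l := by
      rw [map_mul, map_pow]
      rfl
    have e2 : γ' (M.i (M.a * (H (cen M.i Y (M.P j)) : F) ^ M.l)) =
        M.i M.a * (γ' (pb M.i Y H (M.P j) : M.F')) ^ M.l := by
      rw [map_mul, map_pow, map_mul, map_pow, hγi M.a, M.a_inv γ hγG]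
      rfl
    rw [e1] at h1
    have h2 : Un (gm γ' (M.P j)) (γ' (M.i (M.a * (H (cen M.i Y (M.P j)) : F) ^ M.l))) := by
      rw [e2]
      have h3 := h1.div (hgi.pow M.l)
      have hne : (pb M.i Y H (gm γ' (M.P j)) : M.F') ≠ 0 := (pb M.i Y H _).ne_zero
      have hne' : γ' (pb M.i Y H (M.P j) : M.F') ≠ 0 := by
        intro h0
        exact (pb M.i Y H (M.P j)).ne_zero ((map_eq_zero_iff γ' γ'.injective).1 h0)
      have e3 : M.i M.a * (pb M.i Y H (gm γ' (M.P j)) : M.F') ^ M.l /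
          ((pb M.i Y H (gm γ' (M.P j)) : M.F') / γ' (pb M.i Y H (M.P j) : M.F')) ^ M.l =
          M.i M.a * (γ' (pb M.i Y H (M.P j) : M.F')) ^ M.l := by
        rw [div_pow]
        field_simp
      rwa [e3] at h3
    have h4 := (M.a_un _ hP).2 (un_gm.1 h2) j
    exact ((M.bd.eqn j _ hP hp).1 rfl).2.1 h4.2.2

variable {m : ℕ} {ν : Subalgebra ℂ F → Fˣ}

end GMod

end Pool.Agent.KM
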