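import Pool.Agent.Lib.MP_732f67_ag.N.GrpB
import Pool.Agent.Lib.MP_732f67_ag.N.LogA
import Pool.Agent.Lib.MP_732f67_ag.N.LogB
import Pool.Agent.Lib.MP_732f67_ag.N.MdE
import Pool.Agent.Lib.MP_732f67_ag.N.MdP

/-!
Part N: Galois models, the log discrepancies of the boundary divisors, descent of sections.
-/

namespace Pool.Agent.KM

namespace GMod

variable {F : Type} [Field F] [Algebra ℂ F] {d : ℕ} {Y : Set (Subalgebra ℂ F)}
  {G : Subgroup (F ≃ₐ[ℂ] F)} {Δ : Fin d → Derivation ℂ F F} {Φ : Finset F}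
  {H : Subalgebra ℂ F → Fˣ} (M : GMod d Y G Δ Φ H)

variable {m : ℕ} {ν : Subalgebra ℂ F → Fˣ}

/-- `LD_ram`, `prim_comap`, `exists_ram` -/
theorem ad_pos (hY : Base d Y G Δ) (h : Pos Y Δ m ν) (j : M.J) : 0 < M.ad m ν j := by
  have hP := M.bd.mem j
  obtain ⟨O₀, hO₀, hD₀⟩ := M.dom _ hP.1
  obtain ⟨hc, hcD⟩ := cen_spec ⟨O₀, hO₀, hD₀⟩
  have hF : ∃ A : Subalgebra ℂ F, A.FG ∧ FracEq A := by
    obtain ⟨A, hA, hfr, -⟩ := hY.proj.exists_chart hO₀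
    exact ⟨A, hA, hfr⟩
  have hp := prim_comap M.fin hF hP.2
  obtain ⟨r, hr1, hr⟩ := exists_ram hP.2 hp
  have h1 := LD_ram M.fin hY.dim hY.frame M.der hP.2 hp hr m (ν (cen M.i Y (M.P j))).ne_zero
  rw [ad, pb_val, h1]
  have h2 := h _ hp _ hc hcD.le_comap
  have h3 : (0 : ℚ) < r := by
    exact_mod_cast hr1
  exact mul_pos h3 h2

/-- `oF_gm`, `oD_gm`, `gi_pb` -/
theorem ad_inv (hY : Base d Y G Δ) (hν : GI Y G ν) {γ' : M.F' ≃ₐ[ℂ] M.F'} (hγ : γ' ∈ M.G')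
    {j j' : M.J} (h : gm γ' (M.P j) = M.P j') : M.ad m ν j' = M.ad m ν j := by
  have hP := M.bd.mem j
  have hP' := M.bd.mem j'
  have h1 := oF_gm (M.base.comm γ' hγ) hP.2
  have h2 := gi_pb (M.mor hY.proj) hY.st M.grp hν γ' hγ _ hP.1
  rw [h] at h1 h2
  have h3 := oD_of_un hP'.2 (Units.ne_zero _) ((map_ne_zero γ').2 (Units.ne_zero _)) h2
  have h4 : oD (M.P j') (γ' (pb M.i Y ν (M.P j))) = oD (M.P j) (pb M.i Y ν (M.P j)) := by
    rw [← h]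
    exact oD_gm hP.2 _
  rw [ad, ad, LD, LD, h1, h3, h4]

end GMod

end Pool.Agent.KM
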