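import Pool.Agent.Lib.MP_732f67_ag.N.GrpB
import Pool.Agent.Lib.MP_732f67_ag.N.LogA
import Pool.Agent.Lib.MP_732f67_ag.N.LogB
import Pool.Agent.Lib.MP_732f67_ag.N.MdE
import Pool.Agent.Lib.MP_732f67_ag.N.MdP
import Pool.Agent.Lib.MP_732f67_ag.N.MdA

/-!
Part N: Galois models, the log discrepancies of the boundary divisors, descent of sections.
-/

namespace Pool.Agent.KM

namespace GMod

variable {F : Type} [Field F] [Algebra ℂ F] {d : ℕ} {Y : Set (Subalgebra ℂ F)}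
  {G : Subgroup (F ≃ₐ[ℂ] F)} {Δ : Fin d → Derivation ℂ F F} {Φ : Finset F}
  {H : Subalgebra ℂ F → Fˣ} (M : GMod d Y G Δ Φ H)

variable {m : ℕ} {ν : Subalgebra ℂ F → Fˣ}

/-- `f^* ν + m K = ∑ m (ad j - 1) B j` -/
theorem ad_exp (hY : Base d Y G Δ) (hm : 1 ≤ m) (hν : IsCar Y ν)
    (hΦ : ∀ O ∈ Y, ∃ t ∈ Φ, Un O ((ν O : F) / t)) :
    ∃ e : M.J → ℤ, (∀ j, (e j : ℚ) = m * (M.ad m ν j - 1)) ∧ ∀ O' ∈ M.Y',
      Un O' ((pb M.i Y ν O' : M.F') * M.κ O' ^ m / ∏ j, (M.B j O' : M.F') ^ e j) := by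
  have hm0 : (m : ℚ) ≠ 0 := by
    have : m ≠ 0 := by omega
    exact_mod_cast this
  refine ⟨fun j => oD (M.P j) ((pb M.i Y ν * M.κ ^ m) (M.P j) : M.F'ˣ), fun j => ?_,
    fun O' hO' => ?_⟩
  · obtain ⟨hPY, hPD⟩ := M.bd.mem j
    have h1 : (((pb M.i Y ν * M.κ ^ m) (M.P j) : M.F'ˣ) : M.F') =
        (pb M.i Y ν (M.P j) : M.F') * (M.κ (M.P j) : M.F') ^ m := by
      simp
    have h2 : oD (M.P j) (((pb M.i Y ν * M.κ ^ m) (M.P j) : M.F'ˣ) : M.F') =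
        oD (M.P j) (pb M.i Y ν (M.P j) : M.F') + m * oF M.Δ' (M.P j) := by
      rw [h1, oD_mul hPD (Units.ne_zero _) (pow_ne_zero _ (Units.ne_zero _)),
        oD_pow hPD (Units.ne_zero _), M.snc.oF_eq hPY hPD]
    change ((oD (M.P j) (((pb M.i Y ν * M.κ ^ m) (M.P j) : M.F'ˣ) : M.F') : ℤ) : ℚ) = _
    rw [h2]
    unfold ad LD
    push_cast
    field_simp
    ring
  · have hu : ∀ O' ∈ M.Y', (∀ j, Un O' (M.B j O')) →
        Un O' (((pb M.i Y ν * M.κ ^ m) O' : M.F'ˣ) : M.F') := by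
      intro O' hO' h
      have h1 : (((pb M.i Y ν * M.κ ^ m) O' : M.F'ˣ) : M.F') =
          (pb M.i Y ν O' : M.F') * (M.κ O' : M.F') ^ m := by
        simp
      rw [h1]
      exact (M.pb_un hY.proj hΦ hO' h).mul ((M.can O' hO' h).pow m)
    have h3 := M.exp (car_mul (car_pb (M.mor hY.proj) hν) (car_pow M.snc.kcar m)) hu hO'
    have h1 : (((pb M.i Y ν * M.κ ^ m) O' : M.F'ˣ) : M.F') =
        (pb M.i Y ν O' : M.F') * (M.κ O' : M.F') ^ m := by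
      simp
    rw [h1] at h3
    exact h3

/-- the log discrepancies of the prime divisors over the model (`Snc.log`, `ad_exp`) -/
theorem ad_log (hY : Base d Y G Δ) (hm : 1 ≤ m) (hν : IsCar Y ν)
    (hΦ : ∀ O ∈ Y, ∃ t ∈ Φ, Un O ((ν O : F) / t)) {w O' : Subalgebra ℂ M.F'} (hw : PrimDiv w)
    (hO' : O' ∈ M.Y') (hd : Dom O' w) :
    ∑ j, M.ad m ν j * oD w (M.B j O') ≤ LD M.Δ' m w (pb M.i Y ν O') := by
  have hm0 : (m : ℚ) ≠ 0 := by
    have : m ≠ 0 := by omega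
    exact_mod_cast this
  obtain ⟨e, he, hu⟩ := M.ad_exp hY hm hν hΦ
  obtain ⟨-, h1⟩ := M.snc.log hO' hw hd
  have h2 := (hu O' hO').mono hd.1
  have hpr : ∏ j, (M.B j O' : M.F') ^ e j ≠ 0 :=
    Finset.prod_ne_zero_iff.2 fun j _ => zpow_ne_zero _ (Units.ne_zero _)
  have h3 : oD w (pb M.i Y ν O' : M.F') + m * oD w (M.κ O' : M.F') =
      ∑ j, e j * oD w (M.B j O' : M.F') := by
    have h4 := oD_of_un hw (mul_ne_zero (Units.ne_zero _) (pow_ne_zero _ (Units.ne_zero _))) hpr h2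
    rw [oD_mul hw (Units.ne_zero _) (pow_ne_zero _ (Units.ne_zero _)),
      oD_pow hw (Units.ne_zero _), oD_prod hw _ fun j _ => zpow_ne_zero _ (Units.ne_zero _)] at h4
    rw [h4]
    exact Finset.sum_congr rfl fun j _ => oD_zpow hw (Units.ne_zero _) _
  have h5 : (oD w (pb M.i Y ν O' : M.F') : ℚ) + m * (oD w (M.κ O' : M.F') : ℚ) =
      m * ∑ j, (M.ad m ν j - 1) * (oD w (M.B j O' : M.F') : ℚ) := by
    have h6 : ((oD w (pb M.i Y ν O' : M.F') + m * oD w (M.κ O' : M.F') : ℤ) : ℚ) =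
        ((∑ j, e j * oD w (M.B j O' : M.F') : ℤ) : ℚ) := by rw [h3]
    push_cast at h6
    rw [h6, Finset.mul_sum]
    exact Finset.sum_congr rfl fun j _ => by rw [he j]; ring
  have h7 : (oD w (pb M.i Y ν O' : M.F') : ℚ) / m =
      ∑ j, (M.ad m ν j - 1) * (oD w (M.B j O' : M.F') : ℚ) - (oD w (M.κ O' : M.F') : ℚ) := by
    rw [div_eq_iff hm0]
    linear_combination h5
  have h8 : (∑ j, (oD w (M.B j O' : M.F') : ℚ)) ≤
      (oF M.Δ' w : ℚ) - (oD w (M.κ O' : M.F') : ℚ) + 1 := by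
    exact_mod_cast h1
  unfold LD
  rw [h7]
  have h9 : ∑ j, M.ad m ν j * (oD w (M.B j O' : M.F') : ℚ) =
      ∑ j, (M.ad m ν j - 1) * (oD w (M.B j O' : M.F') : ℚ) +
        ∑ j, (oD w (M.B j O' : M.F') : ℚ) := by
    rw [← Finset.sum_add_distrib]
    exact Finset.sum_congr rfl fun j _ => by ring
  rw [h9]
  linarith

end GMod

end Pool.Agent.KM
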