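import Pool.Agent.Lib.MP_732f67_ag.N.FrO
import Pool.Agent.Lib.MP_732f67_ag.N.AmpI
import Pool.Agent.Lib.MP_732f67_ag.N.GrpB
import Pool.Agent.Lib.MP_732f67_ag.N.MdX

/-!
Part N: klt Fano varieties.
-/

namespace Pool.Agent.KM

variable {F : Type} [Field F] [Algebra ℂ F] {X : Set (Subalgebra ℂ F)} {n : ℕ}
  {Δ : Fin n → Derivation ℂ F F} {m : ℕ} {κ D E : Subalgebra ℂ F → Fˣ}

theorem gc_bot (h : IsCar X D) : GC X ⊥ D := by
  refine ⟨h, fun O _ => ⟨D O, (D O).ne_zero, fun γ hγ => ?_, fun γ hγ => ?_⟩⟩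
  · rw [Subgroup.mem_bot.1 hγ]
    rfl
  · rw [Subgroup.mem_bot.1 hγ, gm_one, div_self (D O).ne_zero]
    exact Un.one O

theorem KltFano.base (h : KltFano X Δ m κ) : Base n X ⊥ Δ := by
  refine ⟨h.proj, h.normal, h.dim, inferInstance, fun γ hγ O hO => ?_, h.frame,
    fun γ hγ l x => ?_⟩
  · rw [Subgroup.mem_bot.1 hγ, gm_one]
    exact hO
  · rw [Subgroup.mem_bot.1 hγ]
    rfl

theorem KltFano.amp (h : KltFano X Δ m κ) : Amp X κ⁻¹ :=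
  (amp_iff h.proj (car_inv h.can.1)).1 h.fano

theorem baF_LD (m : ℕ) (hm : 1 ≤ m) {O O₀ : Subalgebra ℂ F} (hO : PrimDiv O) :
    (m : ℚ) * LD Δ m O ((κ⁻¹ O₀ : Fˣ) : F) = m * (oF Δ O : ℚ) + m - (oD O (κ O₀ : F) : ℚ) := by
  have hm0 : (m : ℚ) ≠ 0 := by
    have h1 : m ≠ 0 := by omega
    exact_mod_cast h1
  rw [LD, Pi.inv_apply, Units.val_inv_eq_inv_val, oD_inv hO (κ O₀).ne_zero]
  push_cast
  field_simp
  ring

/-- the log discrepancies are positive (`klt`) -/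
theorem KltFano.p (h : KltFano X Δ m κ) : Pos X Δ m κ⁻¹ := by
  intro O hO O₀ hO₀ hd
  have h1 := h.klt O hO O₀ hO₀ hd _ _ (oF_spec h.dim hO h.frame) (oD_spec hO (κ O₀).ne_zero)
  have h2 := baF_LD (Δ := Δ) (κ := κ) (O₀ := O₀) m h.pos hO
  have hm0 : (0 : ℚ) < m := by exact_mod_cast h.pos
  have h3 : (0 : ℚ) < (m : ℚ) * LD Δ m O ((κ⁻¹ O₀ : Fˣ) : F) := by
    rw [h2]
    have h4 : (0 : ℤ) < m * oF Δ O + m - oD O (κ O₀ : F) := by linarith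
    exact_mod_cast h4
  exact (pos_iff_pos_of_mul_pos h3).1 hm0

end Pool.Agent.KM
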