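import Pool.Agent.Lib.MP_732f67_ag.N.CarA

/-!
Part N: closed points.
-/

namespace Pool.Agent.KM

variable {F : Type} [Field F] [Algebra ℂ F] {Y : Set (Subalgebra ℂ F)} {O : Subalgebra ℂ F}

/-- the residue field of the local ring `O` is `ℂ` -/
def Clo (O : Subalgebra ℂ F) : Prop := ∀ x ∈ O, ∃ c : ℂ, ¬ Un O (x - algebraMap ℂ F c)

theorem ClA_nst (A : Subalgebra ℂ F) (hA : A.FG) (m : Ideal A) [m.IsMaximal] (a : A) :
    ∃ c : ℂ, a - algebraMap ℂ A c ∈ m := by
  have hft : Algebra.FiniteType ℂ A := A.fg_iff_finiteType.1 hA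
  let _ : Field (A ⧸ m) := Ideal.Quotient.field m
  have hft' : Algebra.FiniteType ℂ (A ⧸ m) :=
    Algebra.FiniteType.of_surjective (Ideal.Quotient.mkₐ ℂ m) (Ideal.Quotient.mkₐ_surjective ℂ m)
  have hfin : Module.Finite ℂ (A ⧸ m) := finite_of_finite_type_of_isJacobsonRing ℂ (A ⧸ m)
  have hbij := IsAlgClosed.algebraMap_bijective_of_isIntegral (k := ℂ) (K := A ⧸ m)
  obtain ⟨c, hc⟩ := hbij.2 (Ideal.Quotient.mk m a)
  refine ⟨c, ?_⟩
  rw [← Ideal.Quotient.eq, ← hc]
  rfl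

/-- every point contains a closed point

PROOF. `O` is the local ring of a finitely generated `A` at `q`, whose local rings are in `Y`
(`IsProj.exists_chart`, `IsProj.loc_mem`); a maximal ideal over `q`, with residue field `ℂ`. -/
theorem exists_clo (hY : IsProj Y) (hO : O ∈ Y) : ∃ O₁ ∈ Y, O₁ ≤ O ∧ Clo O₁ := by
  obtain ⟨A, hA, -, ⟨q, hq, hqO⟩, hmem⟩ := hY.exists_chart hO
  obtain ⟨m, hm, hle⟩ := Ideal.exists_le_maximal q hq.ne_top
  have hne : ∀ b : A, b ∉ m → (b : F) ≠ 0 := fun b hb h0 => hb (by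
    have h1 : b = 0 := Subtype.ext h0
    rw [h1]
    exact m.zero_mem)
  have hO₁ := covLoc_locAt A m
  refine ⟨covLoc A m, hmem _ hO₁, ?_, ?_⟩
  · rintro x ⟨a, b, hb, rfl⟩
    exact (hqO _).2 ⟨a, b, fun h => hb (hle h), rfl⟩
  · rintro x ⟨a, b, hb, rfl⟩
    obtain ⟨c, hc⟩ := ClA_nst A hA m a
    obtain ⟨c', hc'⟩ := ClA_nst A hA m b
    have hc0 : c' ≠ 0 := by
      rintro rfl
      rw [map_zero, sub_zero] at hc'
      exact hb hc'
    refine ⟨c / c', fun hu => ?_⟩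
    have hd : a - algebraMap ℂ A (c / c') * b ∈ m := by
      have h1 : a - algebraMap ℂ A (c / c') * b =
          (a - algebraMap ℂ A c) - algebraMap ℂ A (c / c') * (b - algebraMap ℂ A c') := by
        have h2 : algebraMap ℂ A c = algebraMap ℂ A (c / c') * algebraMap ℂ A c' := by
          rw [← map_mul, div_mul_cancel₀ _ hc0]
        rw [h2]
        ring
      rw [h1]
      exact m.sub_mem hc (m.mul_mem_left _ hc')
    obtain ⟨h1, -, a', b', hb', h3⟩ := hu
    have hb0 := hne b hb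
    have hb0' := hne b' hb'
    have e : (a : F) / b - algebraMap ℂ F (c / c') =
        ((a - algebraMap ℂ A (c / c') * b : A) : F) / b := by
      push_cast
      rw [sub_div, mul_div_cancel_right₀ _ hb0]
    rw [e] at h1 h3
    have h4 : ((a - algebraMap ℂ A (c / c') * b : A) : F) ≠ 0 := fun h => h1 (by rw [h, zero_div])
    rw [inv_div, div_eq_div_iff h4 hb0'] at h3
    have h5 : b * b' = a' * (a - algebraMap ℂ A (c / c') * b) := Subtype.ext h3
    rcases hm.isPrime.mem_or_mem (show b * b' ∈ m by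
      rw [h5]
      exact m.mul_mem_left _ hd) with h6 | h6
    · exact hb h6
    · exact hb' h6

/-- different closed points do not contain each other -/
theorem clo_eq (hY : IsProj Y) {O₁ : Subalgebra ℂ F} (hO : O ∈ Y) (hO₁ : O₁ ∈ Y)
    (hc : Clo O) (h : O ≤ O₁) (hc₁ : Clo O₁) : O = O₁ := by
  have hloc := hY.isLocalRing hO
  have hl := hY.locAt_of_le hO hO₁ h
  refine le_antisymm h ?_
  obtain ⟨P, hP, hl⟩ := hl
  intro x hx
  obtain ⟨a, b, hb, rfl⟩ := (hl x).1 hx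
  have hb0 : (b : F) ≠ 0 := fun h0 => hb (by
    have h1 : b = 0 := Subtype.ext h0
    rw [h1]
    exact P.zero_mem)
  rw [div_eq_mul_inv]
  refine O.mul_mem a.2 ?_
  by_contra hinv
  have h1 : (b : F)⁻¹ ∈ O₁ := (hl _).2 ⟨1, b, hb, by
    change (b : F)⁻¹ = (1 : F) / b
    rw [one_div]⟩
  obtain ⟨c, hc'⟩ := hc₁ b (h b.2)
  have hc0 : c ≠ 0 := by
    rintro rfl
    rw [map_zero, sub_zero] at hc'
    exact hc' ⟨hb0, h b.2, h1⟩
  have hu : IsUnit (algebraMap ℂ O c) := (IsUnit.mk0 c hc0).map _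
  have hnb : ¬ IsUnit b := fun hub => hinv ((pt_isUnit_iff b).1 hub).2
  have hs : IsUnit (b + (algebraMap ℂ O c - b)) := by
    rw [add_sub_cancel]
    exact hu
  rcases IsLocalRing.isUnit_or_isUnit_of_isUnit_add hs with h2 | h2
  · exact hnb h2
  · have h3 : IsUnit (b - algebraMap ℂ O c) := by
      rw [← neg_sub]
      exact h2.neg
    obtain ⟨h4, h5⟩ := (pt_isUnit_iff _).1 h3
    exact hc' ⟨h4, O₁.sub_mem (h b.2) (O₁.algebraMap_mem c), h h5⟩

end Pool.Agent.KM
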