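import Pool.Agent.Lib.MP_732f67_ag.N.CarA
import Pool.Agent.Lib.MP_732f67_ag.N.ClA

/-!
Part N: closed points.
-/

namespace Pool.Agent.KM

variable {F : Type} [Field F] [Algebra ℂ F] {Y : Set (Subalgebra ℂ F)} {O : Subalgebra ℂ F}

/-- a point of a finitely generated algebra -/
theorem clU_hom {B : Subalgebra ℂ F} (h : B.FG) : Nonempty (B →ₐ[ℂ] ℂ) := by
  have hft : Algebra.FiniteType ℂ B := (Subalgebra.fg_iff_finiteType B).1 h
  obtain ⟨m, hm⟩ := Ideal.exists_maximal B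
  let _ := Ideal.Quotient.field m
  have hft2 : Algebra.FiniteType ℂ (B ⧸ m) :=
    Algebra.FiniteType.of_surjective (Ideal.Quotient.mkₐ ℂ m) (Ideal.Quotient.mkₐ_surjective ℂ m)
  have hfin : Module.Finite ℂ (B ⧸ m) := finite_of_finite_type_of_isJacobsonRing ℂ (B ⧸ m)
  have hbij := IsAlgClosed.algebraMap_bijective_of_isIntegral (k := ℂ) (K := B ⧸ m)
  let e : ℂ ≃ₐ[ℂ] (B ⧸ m) := AlgEquiv.ofBijective (Algebra.ofId ℂ (B ⧸ m)) hbij
  exact ⟨(e.symm : (B ⧸ m) →ₐ[ℂ] ℂ).comp (Ideal.Quotient.mkₐ ℂ m)⟩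

/-- the local ring of a point is closed -/
theorem clU_clo {B : Subalgebra ℂ F} (h : B.FG) : ∃ O, LocAt B O ∧ Clo O := by
  obtain ⟨φ⟩ := clU_hom h
  have hP : (RingHom.ker φ).IsPrime := RingHom.ker_isPrime φ
  refine ⟨ordLoc B (RingHom.ker φ), locAt_ordLoc B _, ?_⟩
  rintro x ⟨a, b, hb, rfl⟩
  rw [RingHom.mem_ker] at hb
  refine ⟨φ a / φ b, ?_⟩
  rintro ⟨h1, -, a', b', hb', h2⟩
  rw [RingHom.mem_ker] at hb'
  have hb0 : (b : F) ≠ 0 := fun h0 => hb (by rw [show b = 0 from Subtype.ext h0, map_zero])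
  have hb0' : (b' : F) ≠ 0 := fun h0 => hb' (by rw [show b' = 0 from Subtype.ext h0, map_zero])
  have h3 : ((a : F) / b - algebraMap ℂ F (φ a / φ b)) * (a' / b') = 1 := by
    rw [← h2, mul_inv_cancel₀ h1]
  have h4 : ((a : F) - algebraMap ℂ F (φ a / φ b) * b) * a' = b * b' := by
    field_simp at h3
    linear_combination h3
  have h5 : (a - algebraMap ℂ B (φ a / φ b) * b) * a' = b * b' := Subtype.ext h4
  have h6 := congrArg φ h5
  rw [map_mul, map_sub, map_mul, map_mul, AlgHom.commutes] at h6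
  have h7 : φ b * φ b' ≠ 0 := mul_ne_zero hb hb'
  apply h7
  rw [← h6]
  have h8 : algebraMap ℂ ℂ (φ a / φ b) = φ a / φ b := rfl
  rw [h8, div_mul_cancel₀ _ hb, sub_self, zero_mul]

/-- the elements of a basic open subset -/
theorem clU_frac {A : Subalgebra ℂ F} {S : Set F} (hS : S ⊆ A) {h x : F} (hA : h ∈ A)
    (h0 : h ≠ 0) (hx : x ∈ Algebra.adjoin ℂ (S ∪ {h⁻¹})) : ∃ n : ℕ, x * h ^ n ∈ A := by
  induction hx using Algebra.adjoin_induction with
  | mem x hx =>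
    rcases hx with hx | hx
    · exact ⟨0, by rw [pow_zero, mul_one]; exact hS hx⟩
    · rw [Set.mem_singleton_iff] at hx
      exact ⟨1, by rw [hx, pow_one, inv_mul_cancel₀ h0]; exact A.one_mem⟩
  | algebraMap c => exact ⟨0, by rw [pow_zero, mul_one]; exact A.algebraMap_mem c⟩
  | add x y _ _ hx hy =>
    obtain ⟨n, hn⟩ := hx
    obtain ⟨m, hm⟩ := hy
    refine ⟨n + m, ?_⟩
    have e : (x + y) * h ^ (n + m) = x * h ^ n * h ^ m + y * h ^ m * h ^ n := by ring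
    rw [e]
    exact A.add_mem (A.mul_mem hn (A.pow_mem hA m)) (A.mul_mem hm (A.pow_mem hA n))
  | mul x y _ _ hx hy =>
    obtain ⟨n, hn⟩ := hx
    obtain ⟨m, hm⟩ := hy
    refine ⟨n + m, ?_⟩
    have e : x * y * h ^ (n + m) = x * h ^ n * (y * h ^ m) := by ring
    rw [e]
    exact A.mul_mem hn hm

/-- PROOF. `Y = Pts V`, `V` finite dimensional; some product `g` of elements of a power `V ^ e`, `e ≥ 1`,
has the property that all the elements of `T` are units of the chart `cht (V ^ e) g` (`F` is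
the fraction field of a chart: write the elements of `T` as fractions); its local rings are in `Y`. -/
theorem exists_clo_un (hY : IsProj Y) (T : Finset F) (hT : ∀ t ∈ T, t ≠ 0) :
    ∃ O ∈ Y, Clo O ∧ ∀ t ∈ T, Un O t := by
  obtain ⟨V, hV, hV0, hfr, rfl⟩ := hY
  obtain ⟨v, hv, hv0⟩ := Submodule.exists_mem_ne_zero_of_ne_bot hV0
  have hA := cht_fg hV v
  have hfr := hfr v hv hv0
  obtain ⟨A, hAdef⟩ : ∃ A, A = cht V v := ⟨_, rfl⟩
  rw [← hAdef] at hA hfr
  choose a b hb hab using hfr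
  obtain ⟨S, hS⟩ := hA
  obtain ⟨h, hh⟩ : ∃ h : A, h = ∏ t ∈ T, a t * b t := ⟨_, rfl⟩
  have ha : ∀ t ∈ T, (a t : F) ≠ 0 := fun t ht h0 => hT t ht (by rw [hab t, h0, zero_div])
  have h0 : (h : F) ≠ 0 := by
    intro h1
    have h2 : ∏ t ∈ T, a t * b t = 0 := by
      rw [← hh]
      exact Subtype.ext h1
    obtain ⟨t, ht, h3⟩ := Finset.prod_eq_zero_iff.1 h2
    rcases mul_eq_zero.1 h3 with h4 | h4
    · exact ha t ht (by rw [h4]; rfl)
    · exact hb t (by rw [h4]; rfl)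
  obtain ⟨B, hB⟩ : ∃ B, B = Algebra.adjoin ℂ ((S : Set F) ∪ {(h : F)⁻¹}) := ⟨_, rfl⟩
  have hBfg : B.FG := by
    classical
    refine ⟨insert (h : F)⁻¹ S, ?_⟩
    rw [hB, Finset.coe_insert, Set.union_singleton]
  have hAB : A ≤ B := by
    rw [← hS, hB]
    exact Algebra.adjoin_mono Set.subset_union_left
  have hSA : (S : Set F) ⊆ A := by
    rw [← hS]
    exact Algebra.subset_adjoin
  have hhB : (h : F)⁻¹ ∈ B := by
    rw [hB]
    exact Algebra.subset_adjoin (Or.inr rfl)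
  obtain ⟨O, hO, hc⟩ := clU_clo hBfg
  have hAO : LocAt A O := by
    refine LocAt.of_frac hAB (fun x hx => ?_) hO
    rw [hB] at hx
    obtain ⟨n, hn⟩ := clU_frac hSA h.2 h0 hx
    refine ⟨x * (h : F) ^ n, hn, (h : F) ^ n, A.pow_mem h.2 n, pow_ne_zero n h0, ?_, ?_⟩
    · rw [← inv_pow]
      exact B.pow_mem hhB n
    · rw [mul_div_cancel_right₀ _ (pow_ne_zero n h0)]
  rw [hAdef] at hAO
  refine ⟨O, ⟨v, hv, hv0, hAO⟩, hc, fun t ht => ?_⟩
  have hd : a t * b t ∣ h := by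
    rw [hh]
    exact Finset.dvd_prod_of_mem _ ht
  obtain ⟨c, hc'⟩ := hd
  have e1 : (h : F) = a t * b t * c := by
    rw [hc']
    rfl
  have hc0 : (c : F) ≠ 0 := fun h1 => h0 (by rw [e1, h1, mul_zero])
  have ha0 := ha t ht
  have hb0 := hb t
  refine ⟨hT t ht, ?_, ?_⟩
  · have e2 : t = a t * (a t * c) * (h : F)⁻¹ := by
      rw [e1]
      nth_rewrite 1 [hab t]
      field_simp
    rw [e2]
    exact hO.le (B.mul_mem (B.mul_mem (hAB (a t).2) (B.mul_mem (hAB (a t).2) (hAB c.2))) hhB)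
  · have e2 : t⁻¹ = b t * (b t * c) * (h : F)⁻¹ := by
      rw [e1]
      nth_rewrite 1 [hab t]
      field_simp
    rw [e2]
    exact hO.le (B.mul_mem (B.mul_mem (hAB (b t).2) (B.mul_mem (hAB (b t).2) (hAB c.2))) hhB)

end Pool.Agent.KM
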