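import Pool.Agent.Lib.MP_732f67_ag.N.AmpA

/-!
Part N: nef divisors; ample and nef classes with rational coefficients.
-/

namespace Pool.Agent.KM

variable {F : Type} [Field F] [Algebra ℂ F] {Y : Set (Subalgebra ℂ F)}
  {D E H : Subalgebra ℂ F → Fˣ}

theorem nf_congr (h : Nf Y D) (hD : ∀ O ∈ Y, Un O ((D O : F) / E O)) : Nf Y E := by
  intro H hH hA m
  refine amp_congr (h H hH hA m) fun O hO => ?_
  have h1 : (((D ^ m * H) O : Fˣ) : F) / ((E ^ m * H) O : Fˣ) = ((D O : F) / E O) ^ m := by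
    rw [Pi.mul_apply, Pi.mul_apply, Pi.pow_apply, Pi.pow_apply, Units.val_mul, Units.val_mul,
      Units.val_pow_eq_pow_val, Units.val_pow_eq_pow_val, div_pow, mul_div_mul_right _ _ (H O).ne_zero]
  rw [h1]
  exact (hD O hO).pow m

theorem nf_const (h : Nf Y D) (u : Fˣ) : Nf Y (D * fun _ => u) := by
  intro H hH hA m
  have h1 : (D * fun _ => u) ^ m * H = D ^ m * H * fun _ => u ^ m := by
    funext O
    simp only [Pi.mul_apply, Pi.pow_apply, mul_pow]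
    rw [mul_right_comm]
  rw [h1]
  exact amp_const (h H hH hA m) (u ^ m)

theorem nf_of_sf (hY : IsProj Y) (h : SF Y D) : Nf Y D := by
  intro H hH hA m
  rw [mul_comm]
  exact amp_mul_sf hY hA (sf_pow h m)

theorem nf_pow (h : Nf Y D) (m : ℕ) : Nf Y (D ^ m) := by
  intro H hH hA n
  rw [← pow_mul]
  exact h H hH hA (m * n)

theorem nf_mul (hD : IsCar Y D) (h : Nf Y D) (h' : Nf Y E) : Nf Y (D * E) := by
  intro H hH hA m
  have h1 : (D * E) ^ m * H = E ^ m * (D ^ m * H) := by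
    rw [mul_pow, mul_comm (D ^ m), mul_assoc]
  rw [h1]
  exact h' _ (car_mul (car_pow hD m) hH) (h H hH hA m) m

theorem nf_amp (h : Nf Y D) (hE : IsCar Y E) (h' : Amp Y E) : Amp Y (D * E) := by
  have h1 := h E hE h' 1
  rwa [pow_one] at h1

/-- PROOF. Let `H₁` be ample, `m ≥ 1`. For large `N` the divisor `H₁ ^ N / H` is ample (`serre`). Choose
`n ≥ m N` with `D ^ n * H` ample. Then `D ^ n * H₁ ^ N` is ample, and
`(D ^ m * H₁) ^ n = (D ^ n * H₁ ^ N) ^ m * H₁ ^ (n - m N)`. -/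
theorem nf_of (hY : IsProj Y) (hH : IsCar Y H)
    (h : ∀ m : ℕ, ∃ n, m ≤ n ∧ 1 ≤ n ∧ Amp Y (D ^ n * H)) : Nf Y D := by
  intro H₁ hH₁ hA m
  rcases Nat.eq_zero_or_pos m with rfl | hm
  · rwa [pow_zero, one_mul]
  obtain ⟨N, hN⟩ := serre hY hH₁ hA (car_inv hH)
  obtain ⟨V, hV⟩ := hN N le_rfl
  have h1 : Amp Y (H₁ ^ N * H⁻¹) := ⟨1, le_rfl, V, by rwa [pow_one]⟩
  obtain ⟨n, hn, hn1, hnA⟩ := h (m * N + 1)
  have h2 : Amp Y (D ^ n * H₁ ^ N) := by
    have h3 := amp_mul hY hnA h1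
    have h4 : D ^ n * H * (H₁ ^ N * H⁻¹) = D ^ n * H₁ ^ N := by
      rw [mul_comm (H₁ ^ N), ← mul_assoc, mul_inv_cancel_right]
    rwa [h4] at h3
  refine amp_of_pow hn1 ?_
  have h5 : (D ^ m * H₁) ^ n = (D ^ n * H₁ ^ N) ^ m * H₁ ^ (n - m * N) := by
    rw [mul_pow, mul_pow, ← pow_mul, ← pow_mul, ← pow_mul, mul_assoc, ← pow_add, mul_comm n m,
      mul_comm N m, Nat.add_sub_cancel' (by omega)]
  rw [h5]
  exact amp_mul hY (amp_pow hY h2 hm) (amp_pow hY hA (by omega))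

theorem nf_of_pow (hY : IsProj Y) {m : ℕ} (hm : 1 ≤ m) (h : Nf Y (D ^ m)) : Nf Y D := by
  obtain ⟨H, hH, hA⟩ := exists_amp hY
  refine nf_of hY hH fun k => ⟨m * (k + 1), ?_, ?_, ?_⟩
  · nlinarith
  · nlinarith
  · rw [pow_mul]
    exact h H hH hA (k + 1)

section

variable {K : Type} [Fintype K] {S : K → Subalgebra ℂ F → Fˣ}

end

end Pool.Agent.KM
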