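import Pool.Agent.Lib.MP_732f67_ag.N.AmpA
import Pool.Agent.Lib.MP_732f67_ag.N.NefN

/-!
Part N: nef divisors; ample and nef classes with rational coefficients.
-/

namespace Pool.Agent.KM

variable {F : Type} [Field F] [Algebra ℂ F] {Y : Set (Subalgebra ℂ F)}
  {D E H : Subalgebra ℂ F → Fˣ}

section

variable {K : Type} [Fintype K] {S : K → Subalgebra ℂ F → Fˣ}

/-- `∑ x k S k` is ample -/
def QK (Y : Set (Subalgebra ℂ F)) (S : K → Subalgebra ℂ F → Fˣ) (x : K → ℚ) : Prop :=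
  ∃ N : ℕ, 1 ≤ N ∧ ∃ e : K → ℤ, (∀ k, (e k : ℚ) = N * x k) ∧ Amp Y (∏ k, S k ^ e k)

/-- `∑ x k S k` is nef -/
def QN (Y : Set (Subalgebra ℂ F)) (S : K → Subalgebra ℂ F → Fˣ) (x : K → ℚ) : Prop :=
  ∃ N : ℕ, 1 ≤ N ∧ ∃ e : K → ℤ, (∀ k, (e k : ℚ) = N * x k) ∧ Nf Y (∏ k, S k ^ e k)

theorem nefK_pow (S : K → Subalgebra ℂ F → Fˣ) (e : K → ℤ) (m : ℕ) :
    (∏ k, S k ^ e k) ^ m = ∏ k, S k ^ ((m : ℤ) * e k) := by
  rw [← Finset.prod_pow]
  refine Finset.prod_congr rfl fun k _ => ?_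
  rw [← zpow_natCast, ← zpow_mul, mul_comm]

theorem nefK_mul (S : K → Subalgebra ℂ F → Fˣ) (e e' : K → ℤ) :
    (∏ k, S k ^ e k) * (∏ k, S k ^ e' k) = ∏ k, S k ^ (e k + e' k) := by
  rw [← Finset.prod_mul_distrib]
  refine Finset.prod_congr rfl fun k _ => ?_
  rw [zpow_add]

theorem nefK_car (hS : ∀ k, IsCar Y (S k)) (e : K → ℤ) : IsCar Y (∏ k, S k ^ e k) :=
  car_prod _ fun k _ => car_zpow (hS k) _

theorem nefK_single [DecidableEq K] (S : K → Subalgebra ℂ F → Fˣ) (k : K) :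
    ∏ j, S j ^ (Pi.single k (1 : ℤ) : K → ℤ) j = S k := by
  rw [Finset.prod_eq_single k]
  · rw [Pi.single_eq_same, zpow_one]
  · intro j _ hj
    rw [Pi.single_eq_of_ne hj, zpow_zero]
  · intro h
    exact absurd (Finset.mem_univ k) h

/-- all integral multiples are ample -/
theorem QK.all (hY : IsProj Y) {x : K → ℚ} (h : QK Y S x) {N : ℕ} (hN : 1 ≤ N) {e : K → ℤ}
    (he : ∀ k, (e k : ℚ) = N * x k) : Amp Y (∏ k, S k ^ e k) := by
  obtain ⟨N₀, hN₀, e₀, he₀, ha⟩ := h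
  refine amp_of_pow hN₀ ?_
  have h1 : (∏ k, S k ^ e k) ^ N₀ = (∏ k, S k ^ e₀ k) ^ N := by
    rw [nefK_pow, nefK_pow]
    refine Finset.prod_congr rfl fun k _ => ?_
    have h2 : (N₀ : ℤ) * e k = N * e₀ k := by
      have h3 : ((N₀ : ℤ) * e k : ℚ) = (N : ℤ) * e₀ k := by
        rw [he, he₀]
        push_cast
        ring
      exact_mod_cast h3
    rw [h2]
  rw [h1]
  exact amp_pow hY ha hN

/-- a positive rational number as a quotient -/
theorem nefK_rat {t : ℚ} (ht : 0 ≤ t) : ∃ a b : ℕ, 1 ≤ b ∧ t * b = a ∧ (0 < t → 1 ≤ a) := by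
  refine ⟨t.num.toNat, t.den, t.den_pos, ?_, fun h => ?_⟩
  · have h1 : ((t.num.toNat : ℤ) : ℚ) = t.num := by
      rw [Int.toNat_of_nonneg (Rat.num_nonneg.2 ht)]
    rw [Int.cast_natCast] at h1
    rw [h1]
    exact Rat.mul_den_eq_num t
  · have := Rat.num_pos.2 h
    omega

theorem QK.smul (hY : IsProj Y) {x : K → ℚ} (h : QK Y S x) {t : ℚ} (ht : 0 < t) :
    QK Y S (fun k => t * x k) := by
  obtain ⟨N, hN, e, he, ha⟩ := h
  obtain ⟨a, b, hb, hab, ha1⟩ := nefK_rat ht.le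
  refine ⟨N * b, Nat.mul_pos hN hb, fun k => a * e k, fun k => ?_, ?_⟩
  · push_cast
    rw [he, ← hab]
    ring
  · rw [← nefK_pow]
    exact amp_pow hY ha (ha1 ht)

theorem QK.add (hY : IsProj Y) {x y : K → ℚ} (h : QK Y S x) (h' : QK Y S y) :
    QK Y S (fun k => x k + y k) := by
  obtain ⟨N, hN, e, he, ha⟩ := h
  obtain ⟨N', hN', e', he', ha'⟩ := h'
  refine ⟨N * N', Nat.mul_pos hN hN', fun k => N' * e k + N * e' k, fun k => ?_, ?_⟩
  · push_cast
    rw [he, he']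
    ring
  · rw [← nefK_mul, ← nefK_pow, ← nefK_pow]
    exact amp_mul hY (amp_pow hY ha hN') (amp_pow hY ha' hN)

theorem QK.add_nef (hY : IsProj Y) (hS : ∀ k, IsCar Y (S k)) {x y : K → ℚ} (h : QK Y S x)
    (h' : QN Y S y) : QK Y S (fun k => x k + y k) := by
  obtain ⟨N, hN, e, he, ha⟩ := h
  obtain ⟨N', hN', e', he', ha'⟩ := h'
  refine ⟨N * N', Nat.mul_pos hN hN', fun k => N * e' k + N' * e k, fun k => ?_, ?_⟩
  · push_cast
    rw [he, he']
    ring
  · rw [← nefK_mul, ← nefK_pow, ← nefK_pow]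
    exact nf_amp (nf_pow ha' N) (car_pow (nefK_car hS e) N') (amp_pow hY ha hN')

theorem QN.smul {x : K → ℚ} (h : QN Y S x) {t : ℚ} (ht : 0 ≤ t) : QN Y S (fun k => t * x k) := by
  obtain ⟨N, hN, e, he, ha⟩ := h
  obtain ⟨a, b, hb, hab, -⟩ := nefK_rat ht
  refine ⟨N * b, Nat.mul_pos hN hb, fun k => a * e k, fun k => ?_, ?_⟩
  · push_cast
    rw [he, ← hab]
    ring
  · rw [← nefK_pow]
    exact nf_pow ha a

theorem QN.add (hS : ∀ k, IsCar Y (S k)) {x y : K → ℚ} (h : QN Y S x) (h' : QN Y S y) :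
    QN Y S (fun k => x k + y k) := by
  obtain ⟨N, hN, e, he, ha⟩ := h
  obtain ⟨N', hN', e', he', ha'⟩ := h'
  refine ⟨N * N', Nat.mul_pos hN hN', fun k => N' * e k + N * e' k, fun k => ?_, ?_⟩
  · push_cast
    rw [he, he']
    ring
  · rw [← nefK_mul, ← nefK_pow, ← nefK_pow]
    exact nf_mul (car_pow (nefK_car hS e) N') (nf_pow ha N') (nf_pow ha' N)

theorem qn_single [DecidableEq K] (k : K) (h : Nf Y (S k)) : QN Y S (Pi.single k 1) := by
  refine ⟨1, le_rfl, Pi.single k 1, fun j => ?_, ?_⟩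
  · rw [Nat.cast_one, one_mul]
    by_cases hj : j = k
    · subst hj
      rw [Pi.single_eq_same, Pi.single_eq_same, Int.cast_one]
    · rw [Pi.single_eq_of_ne hj, Pi.single_eq_of_ne hj, Int.cast_zero]
  · rw [nefK_single]
    exact h

/-- openness in one direction -/
theorem nefK_one [DecidableEq K] (hY : IsProj Y) (hS : ∀ k, IsCar Y (S k)) {x : K → ℚ}
    (h : QK Y S x) (a : K) : ∃ η : ℚ, 0 < η ∧ ∀ t : ℚ, |t| ≤ η →
      QK Y S (fun k => x k + (Pi.single a t : K → ℚ) k) := by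
  obtain ⟨N, hN, e, he, ha⟩ := h
  have hH := nefK_car hS e
  obtain ⟨m₁, h1⟩ := serre hY hH ha (hS a)
  obtain ⟨m₂, h2⟩ := serre hY hH ha (car_inv (hS a))
  obtain ⟨m, hm, hm₁, hm₂⟩ : ∃ m, 1 ≤ m ∧ m₁ ≤ m ∧ m₂ ≤ m := ⟨m₁ + m₂ + 1, by omega, by omega,
    by omega⟩
  obtain ⟨V₁, hV₁⟩ := h1 m hm₁
  obtain ⟨V₂, hV₂⟩ := h2 m hm₂
  have hM : (0 : ℚ) < m * N := by
    have h3 : (0 : ℚ) < m := by exact_mod_cast hm
    have h4 : (0 : ℚ) < N := by exact_mod_cast hN
    exact mul_pos h3 h4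
  have hcast : ∀ (c : ℤ) (k : K), (((Pi.single a c : K → ℤ) k : ℤ) : ℚ) =
      (Pi.single a (c : ℚ) : K → ℚ) k := by
    intro c k
    by_cases hk : k = a
    · subst hk
      rw [Pi.single_eq_same, Pi.single_eq_same]
    · rw [Pi.single_eq_of_ne hk, Pi.single_eq_of_ne hk, Int.cast_zero]
  have q1 : QK Y S (fun k => m * N * x k + (Pi.single a 1 : K → ℚ) k) := by
    refine ⟨1, le_rfl, fun k => m * e k + (Pi.single a 1 : K → ℤ) k, fun k => ?_, 1, le_rfl, V₁, ?_⟩
    · push_cast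
      rw [hcast, he, Int.cast_one]
      ring
    · rw [← nefK_mul, ← nefK_pow, nefK_single, pow_one]
      exact hV₁
  have q2 : QK Y S (fun k => m * N * x k + (Pi.single a (-1) : K → ℚ) k) := by
    refine ⟨1, le_rfl, fun k => m * e k + (Pi.single a (-1) : K → ℤ) k, fun k => ?_, 1, le_rfl,
      V₂, ?_⟩
    · push_cast
      rw [hcast, he]
      push_cast
      ring
    · have h3 : ∏ j, S j ^ (Pi.single a (-1 : ℤ) : K → ℤ) j = (S a)⁻¹ := by
        rw [Finset.prod_eq_single a]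
        · rw [Pi.single_eq_same, zpow_neg, zpow_one]
        · intro j _ hj
          rw [Pi.single_eq_of_ne hj, zpow_zero]
        · intro h
          exact absurd (Finset.mem_univ a) h
      rw [← nefK_mul, ← nefK_pow, h3, pow_one]
      exact hV₂
  refine ⟨1 / (2 * (m * N)), by positivity, fun t ht => ?_⟩
  obtain ⟨ht1, ht2⟩ := abs_le.1 ht
  have hinv : 1 / (2 * ((m : ℚ) * N)) < 1 / (m * N) := by
    rw [one_div_lt_one_div (by positivity) hM]
    linarith
  have hα : 0 < (1 / (m * N) + t) / 2 := by linarith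
  have hβ : 0 < (1 / (m * N) - t) / 2 := by linarith
  have h3 := QK.add hY (q1.smul hY hα) (q2.smul hY hβ)
  have h4 : (fun k => (1 / (m * N) + t) / 2 * (m * N * x k + (Pi.single a 1 : K → ℚ) k) +
      (1 / (m * N) - t) / 2 * (m * N * x k + (Pi.single a (-1) : K → ℚ) k)) =
      fun k => x k + (Pi.single a t : K → ℚ) k := by
    funext k
    have h5 : (m : ℚ) * N ≠ 0 := hM.ne'
    have h6 : (m : ℚ) ≠ 0 := left_ne_zero_of_mul h5
    have h7 : (N : ℚ) ≠ 0 := right_ne_zero_of_mul h5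
    by_cases hk : k = a
    · subst hk
      rw [Pi.single_eq_same, Pi.single_eq_same, Pi.single_eq_same]
      field_simp
      ring
    · rw [Pi.single_eq_of_ne hk, Pi.single_eq_of_ne hk, Pi.single_eq_of_ne hk]
      field_simp
      ring
  rwa [h4] at h3

/-- openness for vectors with support in `s` -/
theorem nefK_supp [DecidableEq K] (hY : IsProj Y) (hS : ∀ k, IsCar Y (S k)) {x : K → ℚ}
    (h : QK Y S x) (s : Finset K) : ∃ ε : ℚ, 0 < ε ∧ ∀ y : K → ℚ, (∀ k, k ∉ s → y k = 0) →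
      (∀ k, |y k| ≤ ε) → QK Y S (fun k => x k + y k) := by
  induction s using Finset.induction_on with
  | empty =>
    refine ⟨1, one_pos, fun y hy _ => ?_⟩
    have h1 : (fun k => x k + y k) = x := by
      funext k
      rw [hy k (Finset.notMem_empty k), add_zero]
    rw [h1]
    exact h
  | insert a s has ih =>
    obtain ⟨ε, hε, hs⟩ := ih
    obtain ⟨η, hη, ha⟩ := nefK_one hY hS h a
    refine ⟨min ε η / 2, by positivity, fun y hy hb => ?_⟩
    have h1 := ha (2 * y a) (by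
      rw [abs_mul, abs_two]
      have := hb a
      have := min_le_right ε η
      linarith)
    have h2 := hs (fun k => 2 * (if k = a then 0 else y k)) (fun k hk => by
      by_cases hka : k = a
      · rw [if_pos hka, mul_zero]
      · rw [if_neg hka, hy k fun h3 => (Finset.mem_insert.1 h3).elim hka hk, mul_zero])
      (fun k => by
        rw [abs_mul, abs_two]
        have h3 := hb k
        have h4 := min_le_left ε η
        have h5 := abs_nonneg (y k)
        split_ifs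
        · rw [abs_zero, mul_zero]
          exact hε.le
        · linarith)
    have h3 := QK.add hY (h1.smul hY (t := 1 / 2) (by norm_num))
      (h2.smul hY (t := 1 / 2) (by norm_num))
    have h4 : (fun k => 1 / 2 * (x k + (Pi.single a (2 * y a) : K → ℚ) k) +
        1 / 2 * (x k + 2 * (if k = a then 0 else y k))) = fun k => x k + y k := by
      funext k
      by_cases hk : k = a
      · subst hk
        rw [Pi.single_eq_same, if_pos rfl]
        ring
      · rw [Pi.single_eq_of_ne hk, if_neg hk]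
        ring
    rwa [h4] at h3

/-- ampleness is open -/
theorem QK.open (hY : IsProj Y) (hS : ∀ k, IsCar Y (S k)) {x : K → ℚ} (h : QK Y S x) :
    ∃ ε : ℚ, 0 < ε ∧ ∀ y : K → ℚ, (∀ k, |y k| ≤ ε) → QK Y S (fun k => x k + y k) := by
  classical
  obtain ⟨ε, hε, h1⟩ := nefK_supp hY hS h Finset.univ
  exact ⟨ε, hε, fun y hy => h1 y (fun k hk => absurd (Finset.mem_univ k) hk) hy⟩

end

end Pool.Agent.KM
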