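import Pool.Agent.Lib.MP_732f67_ag.N.Defs

/-!
Part N: the order function of a prime divisor.
-/

namespace Pool.Agent.KM

variable {F : Type} [Field F] [Algebra ℂ F] {O : Subalgebra ℂ F}

theorem oD_spec (h : PrimDiv O) {x : F} (hx : x ≠ 0) : IsOrd O x (oD O x) := by
  classical
  have h1 : ∃ e, IsOrd O x e := h.exists_ord hx
  rw [oD, dif_pos h1]
  exact h1.choose_spec

theorem oD_eq (h : PrimDiv O) {x : F} {e : ℤ} (hx : IsOrd O x e) : oD O x = e := by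
  classical
  have h1 : ∃ e, IsOrd O x e := ⟨e, hx⟩
  rw [oD, dif_pos h1]
  exact IsOrd.unique h h1.choose_spec hx

theorem oD_mul (h : PrimDiv O) {x y : F} (hx : x ≠ 0) (hy : y ≠ 0) :
    oD O (x * y) = oD O x + oD O y :=
  oD_eq h (IsOrd.mul h (oD_spec h hx) (oD_spec h hy))

theorem oD_inv (h : PrimDiv O) {x : F} (hx : x ≠ 0) : oD O x⁻¹ = -oD O x :=
  oD_eq h (IsOrd.inv h (oD_spec h hx))

theorem oD_div (h : PrimDiv O) {x y : F} (hx : x ≠ 0) (hy : y ≠ 0) :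
    oD O (x / y) = oD O x - oD O y := by
  rw [div_eq_mul_inv, oD_mul h hx (inv_ne_zero hy), oD_inv h hy, sub_eq_add_neg]

theorem oD_zpow (h : PrimDiv O) {x : F} (hx : x ≠ 0) (m : ℤ) : oD O (x ^ m) = m * oD O x :=
  oD_eq h (IsOrd.zpow h (oD_spec h hx) m)

theorem oD_pow (h : PrimDiv O) {x : F} (hx : x ≠ 0) (m : ℕ) : oD O (x ^ m) = m * oD O x := by
  rw [← zpow_natCast, oD_zpow h hx]

theorem oD_prod (h : PrimDiv O) {J : Type*} (s : Finset J) {x : J → F} (hx : ∀ j ∈ s, x j ≠ 0) :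
    oD O (∏ j ∈ s, x j) = ∑ j ∈ s, oD O (x j) :=
  oD_eq h (IsOrd.prod h s fun j hj => oD_spec h (hx j hj))

theorem oD_nonneg (h : PrimDiv O) {x : F} (hx : x ≠ 0) : 0 ≤ oD O x ↔ x ∈ O :=
  (IsOrd.mem_iff h (oD_spec h hx)).symm

theorem oD_zero (h : PrimDiv O) {x : F} (hx : x ≠ 0) : oD O x = 0 ↔ Un O x := by
  constructor
  · intro h1
    have h2 := oD_spec h hx
    rw [h1] at h2
    exact (isOrd_zero_iff h).1 h2
  · intro h1
    exact oD_eq h ((isOrd_zero_iff h).2 h1)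

theorem oD_unif (h : PrimDiv O) {x : F} (hx : Unif O x) : oD O x = 1 := by
  refine oD_eq h ⟨x, hx, ?_⟩
  rw [zpow_one, div_self hx.ne_zero]
  exact Un.one O

theorem oD_of_un (h : PrimDiv O) {x y : F} (hx : x ≠ 0) (hy : y ≠ 0) (h' : Un O (x / y)) :
    oD O x = oD O y := by
  have h1 := (oD_zero h (div_ne_zero hx hy)).2 h'
  rw [oD_div h hx hy] at h1
  omega

theorem oF_eq {d : ℕ} {Δ : Fin d → Derivation ℂ F F} (h : PrimDiv O) {e : ℤ}
    (he : IsOrdF Δ O e) : oF Δ O = e := by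
  classical
  have key : ∀ a b : ℤ, IsOrdF Δ O a → IsOrdF Δ O b → a ≤ b := by
    rintro a b ⟨π, hπ, ha⟩ ⟨π', hπ', hb⟩
    have h1 : π ^ (-a) ∈ lat Δ O := by
      rw [ha, ← zpow_add₀ hπ.ne_zero, neg_add_cancel, zpow_zero]
      exact O.one_mem
    rw [hb] at h1
    have h2 : π ^ (-a) ≠ 0 := zpow_ne_zero _ hπ.ne_zero
    have h3 : π' ^ b ≠ 0 := zpow_ne_zero _ hπ'.ne_zero
    have h4 := (oD_nonneg h (mul_ne_zero h2 h3)).2 h1
    rw [oD_mul h h2 h3, oD_zpow h hπ.ne_zero, oD_zpow h hπ'.ne_zero, oD_unif h hπ,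
      oD_unif h hπ'] at h4
    omega
  have h1 : ∃ e, IsOrdF Δ O e := ⟨e, he⟩
  rw [oF, dif_pos h1]
  exact le_antisymm (key _ _ h1.choose_spec he) (key _ _ he h1.choose_spec)

theorem exists_oD (h : PrimDiv O) (e : ℤ) : ∃ x : F, x ≠ 0 ∧ oD O x = e := by
  obtain ⟨π, hπ⟩ := h.exists_unif
  refine ⟨π ^ e, zpow_ne_zero _ hπ.ne_zero, ?_⟩
  rw [oD_zpow h hπ.ne_zero, oD_unif h hπ, mul_one]

end Pool.Agent.KM
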