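import Pool.Agent.Lib.MP_732f67_ag.N.AmpB
import Pool.Agent.Lib.MP_732f67_ag.N.NefA
import Pool.Agent.Lib.MP_732f67_ag.N.OrdA
import Pool.Agent.Lib.MP_732f67_ag.N.Clo

/-!
Part N: the action of the finite group `G`; divisors which come from the quotient.
-/

namespace Pool.Agent.KM

variable {F : Type} [Field F] [Algebra ℂ F] {Y : Set (Subalgebra ℂ F)}
  {G : Subgroup (F ≃ₐ[ℂ] F)} {D E H : Subalgebra ℂ F → Fˣ} {d : ℕ}
  {Δ : Fin d → Derivation ℂ F F} {O : Subalgebra ℂ F} {γ : F ≃ₐ[ℂ] F}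

private theorem gre_mem {x : F} : γ x ∈ gm γ O ↔ x ∈ O := by
  constructor
  · rintro ⟨y, hy, hyx⟩
    have h1 : γ y = γ x := hyx
    rw [← γ.injective h1]
    exact hy
  · intro hx
    exact ⟨x, hx, rfl⟩

private theorem gre_mem' {x : F} : x ∈ gm γ O ↔ γ.symm x ∈ O := by
  have h1 := gre_mem (γ := γ) (O := O) (x := γ.symm x)
  rwa [AlgEquiv.apply_symm_apply] at h1

theorem un_gm {x : F} : Un (gm γ O) (γ x) ↔ Un O x := by
  unfold Un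
  rw [← map_inv₀, gre_mem, gre_mem]
  exact and_congr (map_ne_zero_iff γ γ.injective) Iff.rfl

theorem gm_one : gm (1 : F ≃ₐ[ℂ] F) O = O := by
  ext x
  exact gre_mem (γ := 1)

theorem gm_mul {γ₁ γ₂ : F ≃ₐ[ℂ] F} : gm (γ₁ * γ₂) O = gm γ₁ (gm γ₂ O) := by
  ext x
  obtain ⟨y, rfl⟩ := (γ₁ * γ₂).surjective x
  rw [gre_mem]
  have h1 : (γ₁ * γ₂) y = γ₁ (γ₂ y) := rfl
  rw [h1, gre_mem, gre_mem]

theorem gm_mono {O₁ : Subalgebra ℂ F} (h : O ≤ O₁) : gm γ O ≤ gm γ O₁ :=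
  Subalgebra.map_mono h

private theorem gre_symm : gm γ.symm (gm γ O) = O := by
  ext x
  rw [gre_mem', AlgEquiv.symm_symm, gre_mem]

private theorem gre_symm' : gm γ (gm γ.symm O) = O := by
  ext x
  rw [gre_mem', gre_mem]

theorem prim_gm (h : PrimDiv O) : PrimDiv (gm γ O) := by
  obtain ⟨h1, h2, A, hA, hl⟩ := h
  let e : O ≃ₐ[ℂ] gm γ O := O.equivMapOfInjective (γ : F →ₐ[ℂ] F) γ.injective
  refine ⟨IsDiscreteValuationRing.RingEquivClass.isDiscreteValuationRing e, fun x => ?_, A.map (γ : F →ₐ[ℂ] F),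
    hA.map _, ?_⟩
  · obtain ⟨y, rfl⟩ := γ.surjective x
    obtain ⟨a, b, hb, hab⟩ := h2 y
    refine ⟨⟨γ a, gre_mem.2 a.2⟩, ⟨γ b, gre_mem.2 b.2⟩, (map_ne_zero_iff γ γ.injective).2 hb, ?_⟩
    rw [hab, map_div₀]
  · rw [pt_locAt_iff] at hl ⊢
    obtain ⟨h3, h4, h5⟩ := hl
    refine ⟨Subalgebra.map_mono h3, e.toRingEquiv.isLocalRing, ?_⟩
    intro x hx
    obtain ⟨y, rfl⟩ := γ.surjective x
    obtain ⟨a, ha, b, hb, hb0, hbO, hab⟩ := h5 y (gre_mem.1 hx)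
    refine ⟨γ a, ⟨a, ha, rfl⟩, γ b, ⟨b, hb, rfl⟩, (map_ne_zero_iff γ γ.injective).2 hb0, ?_, ?_⟩
    · rw [← map_inv₀]
      exact gre_mem.2 hbO
    · rw [hab, map_div₀]

private theorem gre_unif {π : F} : Unif (gm γ O) (γ π) ↔ Unif O π := by
  unfold Unif
  rw [← map_inv₀, gre_mem, gre_mem]
  refine and_congr Iff.rfl (and_congr Iff.rfl ⟨fun h x hx => ?_, fun h x hx => ?_⟩)
  · have h1 := h (γ x) (gre_mem.2 hx)
    rwa [← map_inv₀, ← map_div₀, gre_mem, gre_mem] at h1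
  · obtain ⟨y, rfl⟩ := γ.surjective x
    have h1 := h y (gre_mem.1 hx)
    rwa [← map_inv₀, ← map_div₀, gre_mem, gre_mem]

private theorem gre_ord {x : F} {e : ℤ} : IsOrd (gm γ O) (γ x) e ↔ IsOrd O x e := by
  constructor
  · rintro ⟨π, h1, h2⟩
    obtain ⟨ϖ, rfl⟩ := γ.surjective π
    refine ⟨ϖ, gre_unif.1 h1, ?_⟩
    rwa [← map_zpow₀, ← map_div₀, un_gm] at h2
  · rintro ⟨π, h1, h2⟩
    refine ⟨γ π, gre_unif.2 h1, ?_⟩
    rwa [← map_zpow₀, ← map_div₀, un_gm]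

theorem oD_gm (h : PrimDiv O) (x : F) : oD (gm γ O) (γ x) = oD O x := by
  classical
  by_cases hx : x = 0
  · have h0 : ∀ O : Subalgebra ℂ F, ¬ ∃ e, IsOrd O 0 e := by
      rintro O ⟨e, π, -, h2⟩
      exact h2.1 (zero_div _)
    rw [hx, map_zero, oD, oD, dif_neg (h0 _), dif_neg (h0 _)]
  · exact oD_eq (prim_gm h) (gre_ord.2 (oD_spec h hx))

private theorem gre_lat (hΔ : ∀ l x, Δ l (γ x) = γ (Δ l x)) {f : F} (hf : f ∈ lat Δ O) :
    γ f ∈ lat Δ (gm γ O) := by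
  induction hf using Submodule.span_induction with
  | mem f hf =>
    obtain ⟨y, rfl⟩ := hf
    refine Submodule.subset_span ⟨fun j => ⟨γ (y j), gre_mem.2 (y j).2⟩, ?_⟩
    have h1 : γ (Matrix.of fun i j => Δ i ((y j : O) : F)).det =
        ((γ : F →ₐ[ℂ] F) : F →+* F) (Matrix.of fun i j => Δ i ((y j : O) : F)).det := rfl
    rw [h1, RingHom.map_det]
    congr 1
    ext i j
    exact (hΔ i _).symm
  | zero => rw [map_zero]; exact Submodule.zero_mem _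
  | add f g _ _ hf hg => rw [map_add]; exact Submodule.add_mem _ hf hg
  | smul o f _ hf =>
    have h1 : γ (o • f) = (⟨γ o, gre_mem.2 o.2⟩ : gm γ O) • γ f := by
      show γ ((o : F) * f) = γ o * γ f
      exact map_mul γ _ _
    rw [h1]
    exact Submodule.smul_mem _ _ hf

private theorem gre_lat' (hΔ : ∀ l x, Δ l (γ x) = γ (Δ l x)) {f : F} :
    γ f ∈ lat Δ (gm γ O) ↔ f ∈ lat Δ O := by
  constructor
  · intro hf
    have hΔ' : ∀ l x, Δ l (γ.symm x) = γ.symm (Δ l x) := by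
      intro l x
      have h1 := hΔ l (γ.symm x)
      rw [AlgEquiv.apply_symm_apply] at h1
      rw [h1, AlgEquiv.symm_apply_apply]
    have h2 := gre_lat (γ := γ.symm) hΔ' hf
    rwa [AlgEquiv.symm_apply_apply, gre_symm] at h2
  · exact gre_lat hΔ

/-- `Δ` commutes with `γ`, so `lat Δ (gm γ O) = γ (lat Δ O)` -/
theorem oF_gm (hΔ : ∀ l x, Δ l (γ x) = γ (Δ l x)) (h : PrimDiv O) :
    oF Δ (gm γ O) = oF Δ O := by
  classical
  have h1 : ∀ e, IsOrdF Δ (gm γ O) e ↔ IsOrdF Δ O e := by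
    intro e
    constructor
    · rintro ⟨π, hπ, hl⟩
      obtain ⟨ϖ, rfl⟩ := γ.surjective π
      refine ⟨ϖ, gre_unif.1 hπ, fun f => ?_⟩
      rw [← gre_lat' hΔ, hl, ← map_zpow₀, ← map_mul, gre_mem]
    · rintro ⟨π, hπ, hl⟩
      refine ⟨γ π, gre_unif.2 hπ, fun f => ?_⟩
      obtain ⟨g, rfl⟩ := γ.surjective f
      rw [gre_lat' hΔ, hl, ← map_zpow₀, ← map_mul, gre_mem]
  by_cases hex : ∃ e, IsOrdF Δ O e
  · obtain ⟨e, he⟩ := hex
    rw [oF_eq h he, oF_eq (prim_gm h) ((h1 e).2 he)]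
  · have hex' : ¬ ∃ e, IsOrdF Δ (gm γ O) e := by
      rintro ⟨e, he⟩
      exact hex ⟨e, (h1 e).1 he⟩
    rw [oF, oF, dif_neg hex, dif_neg hex']

theorem gc_gi (h : GC Y G D) : GI Y G D := by
  intro γ hγ O hO
  obtain ⟨δ, hδ0, hδ, hu⟩ := h.2 O hO
  have h1 := hu γ hγ
  have h2 := hu 1 G.one_mem
  rw [gm_one] at h2
  have h3 := (un_gm (γ := γ)).2 h2
  rw [map_div₀, hδ γ hγ] at h3
  have h4 := h1.div h3
  rwa [div_div_div_cancel_right₀ hδ0] at h4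

theorem gc_mul (h : GC Y G D) (h' : GC Y G E) : GC Y G (D * E) := by
  refine ⟨car_mul h.1 h'.1, fun O hO => ?_⟩
  obtain ⟨δ, hδ0, hδ, hu⟩ := h.2 O hO
  obtain ⟨δ', hδ0', hδ', hu'⟩ := h'.2 O hO
  refine ⟨δ * δ', mul_ne_zero hδ0 hδ0', fun γ hγ => ?_, fun γ hγ => ?_⟩
  · rw [map_mul, hδ γ hγ, hδ' γ hγ]
  · have h1 := (hu γ hγ).mul (hu' γ hγ)
    rwa [div_mul_div_comm] at h1

theorem gc_inv (h : GC Y G D) : GC Y G D⁻¹ := by
  refine ⟨car_inv h.1, fun O hO => ?_⟩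
  obtain ⟨δ, hδ0, hδ, hu⟩ := h.2 O hO
  refine ⟨δ⁻¹, inv_ne_zero hδ0, fun γ hγ => ?_, fun γ hγ => ?_⟩
  · rw [map_inv₀, hδ γ hγ]
  · have h1 := (hu γ hγ).inv
    rw [inv_div] at h1
    have h2 : (((D⁻¹) (gm γ O) : Fˣ) : F) / δ⁻¹ = δ / (D (gm γ O) : F) := by
      rw [Pi.inv_apply, Units.val_inv_eq_inv_val, inv_div_inv]
    rwa [h2]

theorem gc_pow (h : GC Y G D) (m : ℕ) : GC Y G (D ^ m) := by
  refine ⟨car_pow h.1 m, fun O hO => ?_⟩
  obtain ⟨δ, hδ0, hδ, hu⟩ := h.2 O hO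
  refine ⟨δ ^ m, pow_ne_zero m hδ0, fun γ hγ => ?_, fun γ hγ => ?_⟩
  · rw [map_pow, hδ γ hγ]
  · have h1 := (hu γ hγ).pow m
    rwa [div_pow] at h1

theorem gc_zpow (h : GC Y G D) (m : ℤ) : GC Y G (D ^ m) := by
  rcases m with m | m
  · rw [Int.ofNat_eq_natCast, zpow_natCast]
    exact gc_pow h m
  · rw [zpow_negSucc]
    exact gc_inv (gc_pow h _)

theorem gi_mul (h : GI Y G D) (h' : GI Y G E) : GI Y G (D * E) := by
  intro γ hγ O hO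
  have h1 := (h γ hγ O hO).mul (h' γ hγ O hO)
  rw [div_mul_div_comm, ← map_mul] at h1
  exact h1

theorem gi_inv (h : GI Y G D) : GI Y G D⁻¹ := by
  intro γ hγ O hO
  have h1 := (h γ hγ O hO).inv
  rw [inv_div] at h1
  have h2 : (((D⁻¹) (gm γ O) : Fˣ) : F) / γ (((D⁻¹) O : Fˣ) : F) =
      γ (D O : F) / (D (gm γ O) : F) := by
    rw [Pi.inv_apply, Pi.inv_apply, Units.val_inv_eq_inv_val, Units.val_inv_eq_inv_val, map_inv₀,
      inv_div_inv]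
  rwa [h2]

theorem gi_pow (h : GI Y G D) (m : ℕ) : GI Y G (D ^ m) := by
  intro γ hγ O hO
  have h1 := (h γ hγ O hO).pow m
  rw [div_pow, ← map_pow] at h1
  exact h1

theorem gi_zpow (h : GI Y G D) (m : ℤ) : GI Y G (D ^ m) := by
  rcases m with m | m
  · rw [Int.ofNat_eq_natCast, zpow_natCast]
    exact gi_pow h m
  · rw [zpow_negSucc]
    exact gi_inv (gi_pow h _)

/-- conjugates of sections of an invariant divisor -/
theorem sec_gm (hG : ∀ γ ∈ G, ∀ O ∈ Y, gm γ O ∈ Y) (h : GI Y G D) (hγ : γ ∈ G) {f : F}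
    (hf : f ∈ Sec Y D) : γ f ∈ Sec Y D := by
  intro O hO
  have h1 : gm γ⁻¹ O ∈ Y := hG _ (G.inv_mem hγ) O hO
  have h2 : gm γ (gm γ⁻¹ O) = O := by rw [← gm_mul, mul_inv_cancel, gm_one]
  have h3 := h γ hγ _ h1
  rw [h2] at h3
  have h4 : γ f * γ (D (gm γ⁻¹ O) : F) ∈ O := by
    rw [← map_mul]
    have h5 := (gre_mem (γ := γ)).2 (hf _ h1)
    rwa [h2] at h5
  have h5 : γ (D (gm γ⁻¹ O) : F) ≠ 0 := (map_ne_zero_iff γ γ.injective).2 (D _).ne_zero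
  have h6 : γ f * (D O : F) = γ f * γ (D (gm γ⁻¹ O) : F) * ((D O : F) / γ (D (gm γ⁻¹ O) : F)) := by
    field_simp
  rw [h6]
  exact O.mul_mem h4 h3.2.1

end Pool.Agent.KM
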