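import Pool.Agent.Lib.MP_732f67_ag.N.AmpB
import Pool.Agent.Lib.MP_732f67_ag.N.NefA
import Pool.Agent.Lib.MP_732f67_ag.N.OrdA
import Pool.Agent.Lib.MP_732f67_ag.N.Clo
import Pool.Agent.Lib.MP_732f67_ag.N.GrE

/-!
Part N: the action of the finite group `G`; divisors which come from the quotient.
-/

namespace Pool.Agent.KM

variable {F : Type} [Field F] [Algebra ℂ F] {Y : Set (Subalgebra ℂ F)}
  {G : Subgroup (F ≃ₐ[ℂ] F)} {D E H : Subalgebra ℂ F → Fˣ} {d : ℕ}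
  {Δ : Fin d → Derivation ℂ F F} {O : Subalgebra ℂ F} {γ : F ≃ₐ[ℂ] F}

/-- the conjugate divisor -/
abbrev GrA_conj (γ : F ≃ₐ[ℂ] F) (D : Subalgebra ℂ F → Fˣ) : Subalgebra ℂ F → Fˣ :=
  fun O => Units.map (γ : F →* F) (D (gm γ⁻¹ O))

theorem GrA_val (γ : F ≃ₐ[ℂ] F) (D : Subalgebra ℂ F → Fˣ) (O : Subalgebra ℂ F) :
    (GrA_conj γ D O : F) = γ (D (gm γ⁻¹ O)) := rfl

theorem GrA_gm (γ : F ≃ₐ[ℂ] F) (O : Subalgebra ℂ F) : gm γ (gm γ⁻¹ O) = O := by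
  rw [← gm_mul, mul_inv_cancel, gm_one]

theorem GrA_gm' (γ : F ≃ₐ[ℂ] F) (O : Subalgebra ℂ F) : gm γ⁻¹ (gm γ O) = O := by
  rw [← gm_mul, inv_mul_cancel, gm_one]

theorem GrA_mem {x : F} : γ x ∈ gm γ O ↔ x ∈ O := by
  constructor
  · rintro ⟨y, hy, hxy⟩
    have h1 : y = x := γ.injective hxy
    rw [← h1]
    exact hy
  · intro hx
    exact ⟨x, hx, rfl⟩

theorem GrA_mem' {x : F} : γ x ∈ O ↔ x ∈ gm γ⁻¹ O := by
  conv_lhs => rw [← GrA_gm γ O]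
  exact GrA_mem

theorem GrA_un {x : F} : Un O (γ x) ↔ Un (gm γ⁻¹ O) x := by
  conv_lhs => rw [← GrA_gm γ O]
  exact un_gm

theorem GrA_locAt {A : Subalgebra ℂ F} (γ : F ≃ₐ[ℂ] F) (h : LocAt A O) :
    LocAt (gm γ A) (gm γ O) := by
  rw [pt_locAt_iff] at h ⊢
  obtain ⟨h1, h2, h3⟩ := h
  refine ⟨gm_mono h1, ?_, ?_⟩
  · let e : O ≃+* (gm γ O) := (O.equivMapOfInjective (γ : F →ₐ[ℂ] F) γ.injective).toRingEquiv
    exact e.isLocalRing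
  · rintro _ ⟨x, hx, rfl⟩
    obtain ⟨a, ha, b, hb, hb0, hbi, hab⟩ := h3 x hx
    refine ⟨γ a, GrA_mem.2 ha, γ b, GrA_mem.2 hb, (map_ne_zero γ).2 hb0, ?_, ?_⟩
    · rw [← map_inv₀]
      exact GrA_mem.2 hbi
    · rw [← map_div₀, ← hab]
      rfl

/-- the image of a linear system -/
abbrev GrA_map (γ : F ≃ₐ[ℂ] F) (V : Submodule ℂ F) : Submodule ℂ F := V.map γ.toLinearMap

theorem GrA_cht (γ : F ≃ₐ[ℂ] F) (V : Submodule ℂ F) (v : F) :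
    cht (GrA_map γ V) (γ v) = gm γ (cht V v) := by
  rw [cht, cht, gm, AlgHom.map_adjoin]
  congr 1
  ext x
  constructor
  · rintro ⟨_, ⟨w, hw, rfl⟩, rfl⟩
    exact ⟨w / v, ⟨w, hw, rfl⟩, map_div₀ γ w v⟩
  · rintro ⟨_, ⟨w, hw, rfl⟩, rfl⟩
    exact ⟨γ w, ⟨w, hw, rfl⟩, map_div₀ γ w v⟩

theorem GrA_pts (γ : F ≃ₐ[ℂ] F) {V : Submodule ℂ F} (h : O ∈ Pts V) :
    gm γ O ∈ Pts (GrA_map γ V) := by
  obtain ⟨v, hv, hv0, hl⟩ := h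
  refine ⟨γ v, ⟨v, hv, rfl⟩, (map_ne_zero γ).2 hv0, ?_⟩
  rw [GrA_cht]
  exact GrA_locAt γ hl

theorem GrA_pts' (γ : F ≃ₐ[ℂ] F) {V : Submodule ℂ F} (h : O ∈ Pts (GrA_map γ V)) :
    gm γ⁻¹ O ∈ Pts V := by
  have h1 := GrA_pts γ⁻¹ h
  have h2 : GrA_map γ⁻¹ (GrA_map γ V) = V := by
    ext x
    constructor
    · rintro ⟨_, ⟨w, hw, rfl⟩, rfl⟩
      have h3 : γ⁻¹ (γ w) = w := γ.symm_apply_apply w
      change γ⁻¹ (γ w) ∈ V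
      rw [h3]
      exact hw
    · intro hx
      exact ⟨γ x, ⟨x, hx, rfl⟩, γ.symm_apply_apply x⟩
  rwa [h2] at h1

theorem GrA_pow (γ : F ≃ₐ[ℂ] F) (D : Subalgebra ℂ F → Fˣ) (m : ℕ) :
    GrA_conj γ D ^ m = GrA_conj γ (D ^ m) := by
  funext O
  rw [Pi.pow_apply, ← map_pow]
  rfl

/-- `gm γ D` -/
theorem amp_gm (hY : Base d Y G Δ) (h : Amp Y D) (hγ : γ ∈ G) :
    Amp Y (fun O => Units.map (γ : F →* F) (D (gm γ⁻¹ O))) := by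
  obtain ⟨m, hm, V, hV⟩ := h
  have hfin := hV.fin
  have hst : ∀ O ∈ Y, gm γ⁻¹ O ∈ Y := hY.st γ⁻¹ (G.inv_mem hγ)
  refine ⟨m, hm, GrA_map γ V, ⟨⟨inferInstance, ?_, fun O hO => ?_⟩, ?_⟩⟩
  · rintro _ ⟨f, hf, rfl⟩ O hO
    rw [GrA_pow]
    change γ f * γ ((D ^ m) (gm γ⁻¹ O) : F) ∈ O
    rw [← map_mul, GrA_mem']
    exact hV.sec hf _ (hst O hO)
  · obtain ⟨f, hf, hun⟩ := hV.gen _ (hst O hO)
    refine ⟨γ f, ⟨f, hf, rfl⟩, ?_⟩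
    rw [GrA_pow]
    change Un O (γ f * γ ((D ^ m) (gm γ⁻¹ O) : F))
    rw [← map_mul, GrA_un]
    exact hun
  · ext O
    constructor
    · intro hO
      have h1 := hst O hO
      rw [hV.eq] at h1
      have h2 := GrA_pts γ h1
      rwa [GrA_gm] at h2
    · intro hO
      have h1 := GrA_pts' γ hO
      rw [← hV.eq] at h1
      have h2 := hY.st γ hγ _ h1
      rwa [GrA_gm] at h2

theorem GrA_car (hY : Base d Y G Δ) (h : IsCar Y D) (hγ : γ ∈ G) : IsCar Y (GrA_conj γ D) := by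
  classical
  have hst : ∀ O ∈ Y, gm γ⁻¹ O ∈ Y := hY.st γ⁻¹ (G.inv_mem hγ)
  intro O hO
  obtain ⟨S, hS, hS'⟩ := h _ (hst O hO)
  refine ⟨S.image γ, fun s hs => ?_, fun O' hO' hs => ?_⟩
  · obtain ⟨s', hs', rfl⟩ := Finset.mem_image.1 hs
    exact GrA_mem'.2 (hS s' hs')
  · have h1 := hS' _ (hst O' hO') fun s hs' => GrA_mem'.1 (hs _ (Finset.mem_image_of_mem γ hs'))
    rw [Units.val_div_eq_div_val] at h1 ⊢
    rw [GrA_val, GrA_val, ← map_div₀, GrA_un]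
    exact h1

/-- the product of all the conjugates of an ample divisor is invariant and ample -/
theorem exists_gi_amp (hY : Base d Y G Δ) (hD : IsCar Y D) (h : Amp Y D)
    (P : Subalgebra ℂ F → Prop) (hP : ∀ γ ∈ G, ∀ O ∈ Y, P (gm γ O) ↔ P O)
    (hu : ∀ O ∈ Y, P O → Un O (D O)) :
    ∃ E, IsCar Y E ∧ Amp Y E ∧ GI Y G E ∧ ∀ O ∈ Y, P O → Un O (E O) := by
  classical
  have hfin := hY.fin
  have hft : Fintype G := Fintype.ofFinite G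
  have hval : ∀ O : Subalgebra ℂ F, ((∏ γ : G, GrA_conj (γ : F ≃ₐ[ℂ] F) D) O : F) =
      ∏ γ : G, (γ : F ≃ₐ[ℂ] F) (D (gm (γ : F ≃ₐ[ℂ] F)⁻¹ O)) := by
    intro O
    rw [Finset.prod_apply, Units.coe_prod]
    rfl
  refine ⟨∏ γ : G, GrA_conj (γ : F ≃ₐ[ℂ] F) D, car_prod _ fun γ _ => GrA_car hY hD γ.2, ?_,
    fun δ hδ O hO => ?_, fun O hO hPO => ?_⟩
  · exact Finset.prod_induction_nonempty _ (Amp Y) (fun _ _ h1 h2 => amp_mul hY.proj h1 h2)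
      Finset.univ_nonempty fun γ _ => amp_gm hY h γ.2
  · have h1 : ((∏ γ : G, GrA_conj (γ : F ≃ₐ[ℂ] F) D) (gm δ O) : F) =
        δ ((∏ γ : G, GrA_conj (γ : F ≃ₐ[ℂ] F) D) O : F) := by
      rw [hval, hval, map_prod]
      refine (Fintype.prod_equiv (Equiv.mulLeft (⟨δ, hδ⟩ : G)) _ _ fun γ => ?_).symm
      have h2 : (((Equiv.mulLeft (⟨δ, hδ⟩ : G)) γ : G) : F ≃ₐ[ℂ] F) = δ * γ := rfl
      rw [h2, ← gm_mul, mul_inv_rev, inv_mul_cancel_right]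
      rfl
    rw [h1, div_self ((map_ne_zero δ).2 (Units.ne_zero _))]
    exact Un.one _
  · rw [hval]
    refine Un.prod _ fun γ _ => GrA_un.2 ?_
    have h2 := G.inv_mem γ.2
    exact hu _ (hY.st _ h2 O hO) ((hP _ h2 O hO).2 hPO)

end Pool.Agent.KM
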