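import Pool.Agent.Lib.MP_732f67_ag.N.AmpB
import Pool.Agent.Lib.MP_732f67_ag.N.NefA
import Pool.Agent.Lib.MP_732f67_ag.N.OrdA
import Pool.Agent.Lib.MP_732f67_ag.N.Clo
import Pool.Agent.Lib.MP_732f67_ag.N.GrE
import Pool.Agent.Lib.MP_732f67_ag.N.GrA

/-!
Part N: the action of the finite group `G`; divisors which come from the quotient.
-/

namespace Pool.Agent.KM

variable {F : Type} [Field F] [Algebra ℂ F] {Y : Set (Subalgebra ℂ F)}
  {G : Subgroup (F ≃ₐ[ℂ] F)} {D E H : Subalgebra ℂ F → Fˣ} {d : ℕ}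
  {Δ : Fin d → Derivation ℂ F F} {O : Subalgebra ℂ F} {γ : F ≃ₐ[ℂ] F}

/-- an invariant divisor has the equation `f` at all points of an orbit -/
private theorem grC_eqn (hY : Base d Y G Δ) (hD : IsCar Y D) {O : Subalgebra ℂ F} (hO : O ∈ Y) :
    ∃ f : F, f ≠ 0 ∧ ∀ γ ∈ G, Un (gm γ O) ((D (gm γ O) : F) / f) := by
  classical
  have hfin : Finite G := hY.fin
  let _ : Fintype G := Fintype.ofFinite G
  obtain ⟨H, hH, hHa⟩ := exists_amp hY.proj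
  obtain ⟨m₁, hm₁⟩ := serre hY.proj hH hHa hD
  obtain ⟨m₂, hm₂⟩ := serre hY.proj hH hHa (pol_car_one Y)
  let T : Finset (Subalgebra ℂ F) := Finset.univ.image fun γ : G => gm γ.1 O
  have hT : ∀ O' ∈ T, O' ∈ Y := by
    intro O' hO'
    obtain ⟨γ, _, rfl⟩ := Finset.mem_image.1 hO'
    exact hY.st γ.1 γ.2 O hO
  obtain ⟨V, hV⟩ := hm₁ (max m₁ m₂) (le_max_left _ _)
  obtain ⟨W, hW⟩ := hm₂ (max m₁ m₂) (le_max_right _ _)
  obtain ⟨s, _, hs⟩ := avoid hY.proj hV.toBF T hT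
  obtain ⟨u, _, hu⟩ := avoid hY.proj hW.toBF T hT
  have hOT : ∀ γ ∈ G, gm γ O ∈ T := fun γ hγ =>
    Finset.mem_image.2 ⟨⟨γ, hγ⟩, Finset.mem_univ _, rfl⟩
  have hs0 : s ≠ 0 := left_ne_zero_of_mul (hs _ (hOT 1 G.one_mem)).1
  have hu0 : u ≠ 0 := left_ne_zero_of_mul (hu _ (hOT 1 G.one_mem)).1
  refine ⟨u / s, div_ne_zero hu0 hs0, fun γ hγ => ?_⟩
  have h1 := (hs _ (hOT γ hγ)).div (hu _ (hOT γ hγ))
  have hH0 : ((H (gm γ O) : F)) ^ max m₁ m₂ ≠ 0 := pow_ne_zero _ (Units.ne_zero _)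
  have h2 : s * ((H ^ max m₁ m₂ * D) (gm γ O) : Fˣ) /
      (u * ((H ^ max m₁ m₂ * 1) (gm γ O) : Fˣ)) = (D (gm γ O) : F) / (u / s) := by
    simp only [Pi.mul_apply, Pi.pow_apply, Pi.one_apply, Units.val_mul, Units.val_pow_eq_pow_val,
      mul_one]
    field_simp
  rwa [h2] at h1

/-- PROOF. Let `O ∈ Y`. `H` ample and invariant (`exists_gi_amp`), `x` large: `avoid` for the orbit of
`O` gives sections `s` of `H ^ x * D` and `u` of `H ^ x` which generate at all points of the orbit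
(`serre`). `f = u / s`: `D O' / f` is a unit for all `O'` in the orbit. `δ = ∏ γ ∈ G, γ f`. -/
theorem gi_pow_gc (hY : Base d Y G Δ) (hD : IsCar Y D) (h : GI Y G D) :
    GC Y G (D ^ Nat.card G) := by
  classical
  have hfin : Finite G := hY.fin
  let _ : Fintype G := Fintype.ofFinite G
  refine ⟨car_pow hD _, fun O hO => ?_⟩
  obtain ⟨f, hf0, hf⟩ := grC_eqn hY hD hO
  refine ⟨∏ γ : G, γ.1 f, Finset.prod_ne_zero_iff.2 fun γ _ => ?_, ?_, ?_⟩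
  · rw [Ne, map_eq_zero_iff _ γ.1.injective]
    exact hf0
  · intro γ hγ
    rw [map_prod]
    exact Fintype.prod_equiv (Equiv.mulLeft (⟨γ, hγ⟩ : G)) _ _ fun x => rfl
  · intro γ₀ hγ₀
    have h0 : ((D ^ Nat.card G) (gm γ₀ O) : F) / ∏ γ : G, γ.1 f =
        ∏ γ : G, (D (gm γ₀ O) : F) / γ.1 f := by
      rw [Finset.prod_div_distrib, Finset.prod_const, Finset.card_univ, Pi.pow_apply,
        Units.val_pow_eq_pow_val, Nat.card_eq_fintype_card]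
    rw [h0]
    refine Un.prod _ fun γ _ => ?_
    have h1 : γ.1⁻¹ * γ₀ ∈ G := G.mul_mem (G.inv_mem γ.2) hγ₀
    have h2 := un_gm (γ := γ.1) |>.2 (hf _ h1)
    have h3 := h γ.1 γ.2 (gm (γ.1⁻¹ * γ₀) O) (hY.st _ h1 O hO)
    rw [← gm_mul, mul_inv_cancel_left] at h2 h3
    have h4 := h3.mul h2
    rw [map_div₀] at h4
    have h5 : γ.1 (D (gm (γ.1⁻¹ * γ₀) O) : F) ≠ 0 := by
      rw [Ne, map_eq_zero_iff _ γ.1.injective]
      exact Units.ne_zero _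
    rwa [div_mul_div_cancel₀ h5] at h4

theorem exists_gc_amp (hY : Base d Y G Δ) : ∃ H, GC Y G H ∧ Amp Y H := by
  have hfin : Finite G := hY.fin
  obtain ⟨H, hH, hHa⟩ := exists_amp hY.proj
  obtain ⟨E, hE, hEa, hEG, _⟩ := exists_gi_amp hY hH hHa (fun _ => False)
    (fun _ _ _ _ => Iff.rfl) (fun _ _ h => h.elim)
  exact ⟨E ^ Nat.card G, gi_pow_gc hY hE hEG, amp_pow hY.proj hEa Nat.card_pos⟩

end Pool.Agent.KM
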