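import Pool.Agent.Lib.MP_732f67_ag.N.AmpB
import Pool.Agent.Lib.MP_732f67_ag.N.NefA
import Pool.Agent.Lib.MP_732f67_ag.N.OrdA
import Pool.Agent.Lib.MP_732f67_ag.N.Clo
import Pool.Agent.Lib.MP_732f67_ag.N.GrE
import Pool.Agent.Lib.MP_732f67_ag.N.GrA
import Pool.Agent.Lib.MP_732f67_ag.N.GrC

/-!
Part N: the action of the finite group `G`; divisors which come from the quotient.
-/

namespace Pool.Agent.KM

variable {F : Type} [Field F] [Algebra ℂ F] {Y : Set (Subalgebra ℂ F)}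
  {G : Subgroup (F ≃ₐ[ℂ] F)} {D E H : Subalgebra ℂ F → Fˣ} {d : ℕ}
  {Δ : Fin d → Derivation ℂ F F} {O : Subalgebra ℂ F} {γ : F ≃ₐ[ℂ] F}

/-- the maximal ideal, as a space -/
private theorem GrS_max {O : Subalgebra ℂ F} (hO : IsLocalRing O) : ∃ I : Submodule ℂ F,
    (∀ x, x ∈ I ↔ x ∈ O ∧ ¬ Un O x) ∧ ∀ x ∈ I, ∀ y ∈ O, x * y ∈ I := by
  have key : ∀ x : F, (x ∈ O ∧ ¬ Un O x) ↔
      ∃ h : x ∈ O, (⟨x, h⟩ : O) ∈ IsLocalRing.maximalIdeal O := by
    intro x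
    constructor
    · rintro ⟨h, hu⟩
      refine ⟨h, ?_⟩
      rw [IsLocalRing.mem_maximalIdeal, mem_nonunits_iff, pt_isUnit_iff]
      rintro ⟨h0, h1⟩
      exact hu ⟨h0, h, h1⟩
    · rintro ⟨h, hm⟩
      rw [IsLocalRing.mem_maximalIdeal, mem_nonunits_iff, pt_isUnit_iff] at hm
      exact ⟨h, fun hu => hm ⟨hu.1, hu.2.2⟩⟩
  refine ⟨{ carrier := {x | x ∈ O ∧ ¬ Un O x}
            zero_mem' := ⟨O.zero_mem, fun h => h.1 rfl⟩
            add_mem' := ?_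
            smul_mem' := ?_ }, fun x => Iff.rfl, ?_⟩
  · intro x y hx hy
    obtain ⟨h1, h1'⟩ := (key x).1 hx
    obtain ⟨h2, h2'⟩ := (key y).1 hy
    exact (key _).2 ⟨O.add_mem h1 h2, Ideal.add_mem _ h1' h2'⟩
  · intro c x hx
    obtain ⟨h1, h1'⟩ := (key x).1 hx
    refine (key _).2 ⟨O.smul_mem h1 c, ?_⟩
    have h3 := Ideal.mul_mem_left (IsLocalRing.maximalIdeal O) (algebraMap ℂ O c) h1'
    have h4 : (⟨c • x, O.smul_mem h1 c⟩ : O) = algebraMap ℂ O c * ⟨x, h1⟩ := by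
      apply Subtype.ext
      exact Algebra.smul_def c x
    rw [h4]
    exact h3
  · intro x hx y hy
    obtain ⟨h1, h1'⟩ := (key x).1 hx
    exact (key _).2 ⟨O.mul_mem h1 hy, Ideal.mul_mem_right ⟨y, hy⟩ _ h1'⟩

/-- constants are units -/
private theorem GrS_const (O : Subalgebra ℂ F) {c : ℂ} (hc : c ≠ 0) :
    Un O (algebraMap ℂ F c) :=
  ⟨(map_ne_zero _).2 hc, O.algebraMap_mem c, by
    rw [← map_inv₀]
    exact O.algebraMap_mem _⟩

/-- a factor of a unit -/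
private theorem GrS_left {x y : F} (hx : x ∈ O) (hy : y ∈ O) (h : Un O (x * y)) : Un O x := by
  refine ⟨left_ne_zero_of_mul h.1, hx, ?_⟩
  have e : x⁻¹ = y * (x * y)⁻¹ := by
    rw [mul_inv, mul_comm, mul_assoc, inv_mul_cancel₀ (right_ne_zero_of_mul h.1), mul_one]
  rw [e]
  exact O.mul_mem hy h.2.2

/-- a very ample linear system separates closed points -/
theorem GrS_sep (hY : IsProj Y) {V : Submodule ℂ F} (h : VA Y E V) {O O₁ : Subalgebra ℂ F}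
    (hO : O ∈ Y) (hO₁ : O₁ ∈ Y) (hc : Clo O) (hc₁ : Clo O₁) (hne : O ≠ O₁) :
    ∃ v ∈ V, Un O (v * E O) ∧ ¬ Un O₁ (v * E O₁) := by
  by_contra hcon
  push Not at hcon
  obtain ⟨v, hv, hu⟩ := h.gen O hO
  have hu₁ := hcon v hv hu
  have hle := h.toBF.cht_le hO hv hu
  have hle₁ := h.toBF.cht_le hO₁ hv hu₁
  have hv0 : v ≠ 0 := left_ne_zero_of_mul hu.1
  obtain ⟨I, hI, hIm⟩ := GrS_max (hY.isLocalRing hO)
  obtain ⟨I₁, hI₁, hIm₁⟩ := GrS_max (hY.isLocalRing hO₁)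
  have key : ∀ a ∈ cht V v, ∃ c : ℂ, a - algebraMap ℂ F c ∈ I ∧
      a - algebraMap ℂ F c ∈ I₁ := by
    intro a ha
    unfold cht at ha
    induction ha using Algebra.adjoin_induction with
    | mem x hx =>
      obtain ⟨w, hw, rfl⟩ := hx
      obtain ⟨c, hc'⟩ := hc₁ (w / v) (hle₁ (ptc_div_mem hw))
      refine ⟨c, (hI _).2 ⟨O.sub_mem (hle (ptc_div_mem hw)) (O.algebraMap_mem c),
        fun hu2 => hc' ?_⟩, (hI₁ _).2 ⟨O₁.sub_mem (hle₁ (ptc_div_mem hw))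
          (O₁.algebraMap_mem c), hc'⟩⟩
      have e : ∀ Q : Subalgebra ℂ F, (w - c • v) * E Q =
          (w / v - algebraMap ℂ F c) * (v * E Q) := by
        intro Q
        rw [Algebra.smul_def, ← mul_assoc, sub_mul (w / v), div_mul_cancel₀ _ hv0]
      have h3 : Un O ((w - c • v) * E O) := by
        rw [e]
        exact hu2.mul hu
      have h4 := hcon _ (V.sub_mem hw (V.smul_mem c hv)) h3
      rw [e] at h4
      have h5 := h4.div hu₁
      rwa [mul_div_cancel_right₀ _ hu₁.1] at h5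
    | algebraMap c =>
      refine ⟨c, ?_, ?_⟩
      · rw [sub_self]
        exact I.zero_mem
      · rw [sub_self]
        exact I₁.zero_mem
    | add x y _ _ hx hy =>
      obtain ⟨c, h1, h2⟩ := hx
      obtain ⟨c', h1', h2'⟩ := hy
      have e : x + y - algebraMap ℂ F (c + c') =
          (x - algebraMap ℂ F c) + (y - algebraMap ℂ F c') := by
        rw [map_add]
        ring
      refine ⟨c + c', ?_, ?_⟩
      · rw [e]
        exact I.add_mem h1 h1'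
      · rw [e]
        exact I₁.add_mem h2 h2'
    | mul x y hx' hy' hx hy =>
      obtain ⟨c, h1, h2⟩ := hx
      obtain ⟨c', h1', h2'⟩ := hy
      have e : x * y - algebraMap ℂ F (c * c') =
          (x - algebraMap ℂ F c) * y + (y - algebraMap ℂ F c') * algebraMap ℂ F c := by
        rw [map_mul]
        ring
      refine ⟨c * c', ?_, ?_⟩
      · rw [e]
        exact I.add_mem (hIm _ h1 _ (hle hy')) (hIm _ h1' _ (O.algebraMap_mem c))
      · rw [e]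
        exact I₁.add_mem (hIm₁ _ h2 _ (hle₁ hy')) (hIm₁ _ h2' _ (O₁.algebraMap_mem c))
  have le : O ≤ O₁ := by
    intro x hx
    have hOP : O ∈ Pts V := by
      rw [← h.eq]
      exact hO
    have hl : LocAt (cht V v) O := Pts.locAt hOP hv hv0 hle
    obtain ⟨-, -, hfrac⟩ := pt_locAt_iff.1 hl
    obtain ⟨a, ha, b, hb, hb0, hbi, rfl⟩ := hfrac x hx
    obtain ⟨c, hc1, hc2⟩ := key b hb
    have hc0 : c ≠ 0 := by
      rintro rfl
      rw [map_zero, sub_zero] at hc1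
      exact ((hI _).1 hc1).2 ⟨hb0, hle hb, hbi⟩
    have hbu : Un O₁ b := by
      by_contra h5
      have h6 : b ∈ I₁ := (hI₁ _).2 ⟨hle₁ hb, h5⟩
      have h7 := I₁.sub_mem h6 hc2
      rw [sub_sub_cancel] at h7
      exact ((hI₁ _).1 h7).2 (GrS_const O₁ hc0)
    rw [div_eq_mul_inv]
    exact O₁.mul_mem (hle₁ ha) hbu.2.2
  exact hne (clo_eq hY hO hO₁ hc le hc₁)

private theorem GrS_mem {x : F} : γ x ∈ gm γ O ↔ x ∈ O := by
  constructor
  · rintro ⟨y, hy, hyx⟩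
    have e : y = x := γ.injective hyx
    rw [← e]
    exact hy
  · intro hx
    exact ⟨x, hx, rfl⟩

private theorem GrS_clo_gm (h : Clo O) : Clo (gm γ O) := by
  rintro _ ⟨y, hy, rfl⟩
  obtain ⟨c, hc⟩ := h y hy
  refine ⟨c, fun hu => hc ?_⟩
  rw [← un_gm (γ := γ), map_sub, AlgEquiv.commutes]
  exact hu

/-- the case of closed points -/
theorem GrS_inv (hY : Base d Y G Δ) (hH : GC Y G H) (hA : Amp Y H) (hD : GC Y G D) :
    ∃ x₀ : ℕ, ∀ x, x₀ ≤ x → ∀ O ∈ Y, Clo O → ∃ s : F, s ∈ Sec Y (H ^ x * D) ∧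
      (∀ γ ∈ G, γ s = s) ∧ Un O (s * (H ^ x * D) O) := by
  classical
  obtain ⟨m₀, hm₀⟩ := serre hY.proj hH.1 hA hD.1
  obtain ⟨n, hn, V, hV⟩ := hA
  have := hY.fin
  let _ : Fintype G := Fintype.ofFinite G
  refine ⟨n * Fintype.card G + m₀, fun x hx O hO hc => ?_⟩
  have hv : ∀ γ : G, ∃ v ∈ V, Un O (v * (H ^ n) O) ∧ (gm (γ : F ≃ₐ[ℂ] F) O ≠ O →
      ¬ Un (gm (γ : F ≃ₐ[ℂ] F) O) (v * (H ^ n) (gm (γ : F ≃ₐ[ℂ] F) O))) := by
    intro γ
    by_cases h : gm (γ : F ≃ₐ[ℂ] F) O = O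
    · obtain ⟨v, hv, hu⟩ := hV.gen O hO
      exact ⟨v, hv, hu, fun h' => absurd h h'⟩
    · obtain ⟨v, hv, h1, h2⟩ := GrS_sep hY.proj hV hO (hY.st γ γ.2 O hO) hc (GrS_clo_gm hc)
        (Ne.symm h)
      exact ⟨v, hv, h1, fun _ => h2⟩
  choose v hvV hvu hvn using hv
  obtain ⟨U, hU⟩ := hm₀ (x - n * Fintype.card G) (by omega)
  obtain ⟨u, huU, huu⟩ := hU.gen O hO
  obtain ⟨A, hAe⟩ : ∃ A, A = H ^ x * D := ⟨_, rfl⟩
  obtain ⟨B, hBe⟩ : ∃ B, B = H ^ (x - n * Fintype.card G) * D := ⟨_, rfl⟩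
  obtain ⟨s, hse⟩ : ∃ s, s = (∏ γ : G, v γ) * u := ⟨_, rfl⟩
  have hAB : A = (∏ _γ : G, H ^ n) * B := by
    rw [hAe, hBe, Finset.prod_const, Finset.card_univ, ← pow_mul, ← mul_assoc, ← pow_add]
    congr 2
    omega
  rw [← hBe] at huu hU
  have hform : ∀ Q : Subalgebra ℂ F, s * (A Q : F) =
      (∏ γ : G, v γ * ((H ^ n) Q : Fˣ)) * (u * B Q) := by
    intro Q
    rw [hAB, hse, Pi.mul_apply, Finset.prod_apply, Units.val_mul, Units.coe_prod,
      Finset.prod_mul_distrib]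
    ring
  have hs : s ∈ Sec Y A := by
    intro Q hQ
    rw [hform]
    exact Q.mul_mem (Subalgebra.prod_mem _ fun γ _ => hV.sec (hvV γ) Q hQ) (hU.sec huU Q hQ)
  have hsu : Un O (s * A O) := by
    rw [hform]
    exact (Un.prod _ fun γ _ => hvu γ).mul huu
  have hsn : ∀ γ : G, gm (γ : F ≃ₐ[ℂ] F) O ≠ O →
      ¬ Un (gm (γ : F ≃ₐ[ℂ] F) O) (s * A (gm (γ : F ≃ₐ[ℂ] F) O)) := by
    intro γ hne hu
    have hQ := hY.st γ γ.2 O hO
    rw [hform, ← Finset.mul_prod_erase _ _ (Finset.mem_univ γ), mul_assoc] at hu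
    refine hvn γ hne (GrS_left (hV.sec (hvV γ) _ hQ) ?_ hu)
    exact Subalgebra.mul_mem _ (Subalgebra.prod_mem _ fun γ' _ => hV.sec (hvV γ') _ hQ)
      (hU.sec huU _ hQ)
  have hGC : GC Y G A := by
    rw [hAe]
    exact gc_mul (gc_pow hH x) hD
  rw [← hAe]
  obtain ⟨δ, hδ0, hδ, hδu⟩ := hGC.2 O hO
  have hδO : Un O ((A O : F) / δ) := by
    have h1 := hδu 1 G.one_mem
    rwa [gm_one] at h1
  have hfδ : ∀ γ ∈ G, s * δ = s * A (gm γ O) * ((A (gm γ O) : F) / δ)⁻¹ := by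
    intro γ _
    rw [inv_div, mul_assoc, mul_div_cancel₀ _ (A (gm γ O)).ne_zero]
  have hf1 : ∀ γ ∈ G, s * δ ∈ gm γ O := by
    intro γ hγ
    rw [hfδ γ hγ]
    exact Subalgebra.mul_mem _ (hs _ (hY.st γ hγ O hO)) (hδu γ hγ).2.2
  have hf2 : ∀ γ ∈ G, gm γ O ≠ O → ¬ Un (gm γ O) (s * δ) := by
    intro γ hγ hne hu
    refine hsn ⟨γ, hγ⟩ hne ?_
    have h1 := hu.mul (hδu γ hγ)
    rwa [hfδ γ hγ, inv_mul_cancel_right₀ (hδu γ hγ).1] at h1
  have hfO : Un O (s * δ) := by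
    have h1 := hsu.mul hδO.inv
    rwa [inv_div, mul_assoc, mul_div_cancel₀ _ (A O).ne_zero] at h1
  obtain ⟨I, hI, hIm⟩ := GrS_max (hY.proj.isLocalRing hO)
  obtain ⟨c, hcf⟩ := hc _ hfO.2.1
  have hcI : s * δ - algebraMap ℂ F c ∈ I :=
    (hI _).2 ⟨O.sub_mem hfO.2.1 (O.algebraMap_mem c), hcf⟩
  have hc0 : c ≠ 0 := by
    rintro rfl
    rw [map_zero, sub_zero] at hcI
    exact ((hI _).1 hcI).2 hfO
  have hterm : ∀ γ : G, (γ : F ≃ₐ[ℂ] F) (s * δ) -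
      algebraMap ℂ F (if gm (γ : F ≃ₐ[ℂ] F) O = O then c else 0) ∈ I := by
    intro γ
    by_cases hγ : gm (γ : F ≃ₐ[ℂ] F) O = O
    · rw [if_pos hγ]
      have e : (γ : F ≃ₐ[ℂ] F) (s * δ) - algebraMap ℂ F c =
          (γ : F ≃ₐ[ℂ] F) (s * δ - algebraMap ℂ F c) := by
        rw [map_sub, AlgEquiv.commutes]
      obtain ⟨h1, h2⟩ := (hI _).1 hcI
      rw [e, hI]
      refine ⟨?_, fun hu => h2 ?_⟩
      · have h3 := GrS_mem (γ := (γ : F ≃ₐ[ℂ] F)).2 h1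
        rwa [hγ] at h3
      · rw [← un_gm (γ := (γ : F ≃ₐ[ℂ] F)), hγ]
        exact hu
    · rw [if_neg hγ, map_zero, sub_zero, hI]
      have hinv : (γ : F ≃ₐ[ℂ] F)⁻¹ ∈ G := G.inv_mem γ.2
      have e : gm (γ : F ≃ₐ[ℂ] F) (gm (γ : F ≃ₐ[ℂ] F)⁻¹ O) = O := by
        rw [← gm_mul, mul_inv_cancel, gm_one]
      have hne : gm (γ : F ≃ₐ[ℂ] F)⁻¹ O ≠ O := by
        intro h1
        rw [h1] at e
        exact hγ e
      refine ⟨?_, fun hu => hf2 _ hinv hne ?_⟩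
      · have h3 := GrS_mem (γ := (γ : F ≃ₐ[ℂ] F)).2 (hf1 _ hinv)
        rwa [e] at h3
      · rw [← un_gm (γ := (γ : F ≃ₐ[ℂ] F)), e]
        exact hu
  have hsum : ∑ γ : G, (γ : F ≃ₐ[ℂ] F) (s * δ) -
      algebraMap ℂ F (∑ γ : G, if gm (γ : F ≃ₐ[ℂ] F) O = O then c else 0) ∈ I := by
    rw [map_sum, ← Finset.sum_sub_distrib]
    exact Submodule.sum_mem _ fun γ _ => hterm γ
  have hcc : (∑ γ : G, if gm (γ : F ≃ₐ[ℂ] F) O = O then c else 0) ≠ 0 := by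
    rw [← Finset.sum_filter, Finset.sum_const, nsmul_eq_mul]
    refine mul_ne_zero (Nat.cast_ne_zero.2 ?_) hc0
    refine Finset.card_ne_zero_of_mem (a := (1 : G)) ?_
    rw [Finset.mem_filter]
    refine ⟨Finset.mem_univ _, ?_⟩
    change gm (1 : F ≃ₐ[ℂ] F) O = O
    exact gm_one
  have hsumO : ∑ γ : G, (γ : F ≃ₐ[ℂ] F) (s * δ) ∈ O := by
    have h1 := O.add_mem ((hI _).1 hsum).1
      (O.algebraMap_mem (∑ γ : G, if gm (γ : F ≃ₐ[ℂ] F) O = O then c else 0))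
    rwa [sub_add_cancel] at h1
  have hsumU : Un O (∑ γ : G, (γ : F ≃ₐ[ℂ] F) (s * δ)) := by
    by_contra hcon
    have h1 := I.sub_mem ((hI _).2 ⟨hsumO, hcon⟩) hsum
    rw [sub_sub_cancel] at h1
    exact ((hI _).1 h1).2 (GrS_const O hcc)
  refine ⟨∑ γ : G, (γ : F ≃ₐ[ℂ] F) s, ?_, fun γ' hγ' => ?_, ?_⟩
  · exact Submodule.sum_mem _ fun γ _ => sec_gm hY.st (gc_gi hGC) γ.2 hs
  · rw [map_sum]
    exact Fintype.sum_equiv (Equiv.mulLeft (⟨γ', hγ'⟩ : G)) _ _ fun γ => rfl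
  · have h1 : ∑ γ : G, (γ : F ≃ₐ[ℂ] F) (s * δ) = (∑ γ : G, (γ : F ≃ₐ[ℂ] F) s) * δ := by
      rw [Finset.sum_mul]
      refine Finset.sum_congr rfl fun γ _ => ?_
      rw [map_mul, hδ γ γ.2]
    rw [h1] at hsumU
    have h2 := hsumU.mul hδO
    rwa [mul_assoc, mul_div_cancel₀ _ hδ0] at h2

/-- Invariant sections.

PROOF. It is enough to treat closed points `O` (every point contains one, and units stay units).
`n₀` with `VA Y (H ^ n₀) V`; `δ`, `δ'` invariant local equations of `H ^ x * D` and of `H` at all points of the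
orbit. Let `T` be the orbit without `O`, `r = card T`. For `O' ∈ T` there is a section of
`H ^ n₀` which generates at `O` and vanishes at `O'` (`V` separates points: `cht V v ≤ O` etc.;
closed points do not contain each other). The product of these `r` sections and of a section of
`H ^ (x - n₀ r) * D` (`serre`, `x` large, `r ≤ card G`) which generates at `O` is a section `s` of
`H ^ x * D` which generates at `O` and vanishes on `T`. Multiply by a constant: `s δ` has the value `1` at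
`O`. The sum of the conjugates of `s` over `G` is invariant, and times `δ` it has the value
`card (stabilizer of O)` at `O`. -/
theorem inv_sec (hY : Base d Y G Δ) (hH : GC Y G H) (hA : Amp Y H) (hD : GC Y G D) :
    ∃ x₀ : ℕ, ∀ x, x₀ ≤ x → ∀ O ∈ Y, ∃ s : F, s ∈ Sec Y (H ^ x * D) ∧ (∀ γ ∈ G, γ s = s) ∧
      Un O (s * (H ^ x * D) O) := by
  obtain ⟨x₀, hx₀⟩ := GrS_inv hY hH hA hD
  refine ⟨x₀, fun x hx O hO => ?_⟩
  obtain ⟨O₁, hO₁, hle, hc⟩ := exists_clo hY.proj hO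
  obtain ⟨s, h1, h2, h3⟩ := hx₀ x hx O₁ hO₁ hc
  refine ⟨s, h1, h2, ?_⟩
  have hcar : IsCar Y (H ^ x * D) := car_mul (car_pow hH.1 x) hD.1
  have h4 := hcar.un_of_le hO₁ hO hle
  have h5 := (h3.mono hle).mul h4.inv
  rwa [Units.val_div_eq_div_val, inv_div, mul_assoc,
    mul_div_cancel₀ _ ((H ^ x * D) O₁).ne_zero] at h5

end Pool.Agent.KM
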