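import Pool.Agent.Lib.MP_732f67_ag.N.AmpB
import Pool.Agent.Lib.MP_732f67_ag.N.NefA
import Pool.Agent.Lib.MP_732f67_ag.N.OrdA
import Pool.Agent.Lib.MP_732f67_ag.N.Clo
import Pool.Agent.Lib.MP_732f67_ag.N.GrE
import Pool.Agent.Lib.MP_732f67_ag.N.GrA
import Pool.Agent.Lib.MP_732f67_ag.N.GrC
import Pool.Agent.Lib.MP_732f67_ag.N.GrS

/-!
Part N: the action of the finite group `G`; divisors which come from the quotient.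
-/

namespace Pool.Agent.KM

variable {F : Type} [Field F] [Algebra ℂ F] {Y : Set (Subalgebra ℂ F)}
  {G : Subgroup (F ≃ₐ[ℂ] F)} {D E H : Subalgebra ℂ F → Fˣ} {d : ℕ}
  {Δ : Fin d → Derivation ℂ F F} {O : Subalgebra ℂ F} {γ : F ≃ₐ[ℂ] F}

/-- finitely many of them are enough -/
theorem inv_sec_fin (hY : Base d Y G Δ) (hH : GC Y G H) (hA : Amp Y H) (hD : GC Y G D) :
    ∃ x₀ : ℕ, ∀ x, x₀ ≤ x → ∃ (R : ℕ) (s : Fin R → F),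
      (∀ l, s l ∈ Sec Y (H ^ x * D) ∧ s l ≠ 0 ∧ ∀ γ ∈ G, γ (s l) = s l) ∧
      ∀ O ∈ Y, ∃ l, Un O (s l * (H ^ x * D) O) := by
  classical
  obtain ⟨x₀, hx₀⟩ := inv_sec hY hH hA hD
  refine ⟨x₀, fun x hx => ?_⟩
  have hcar : IsCar Y (H ^ x * D) := (gc_mul (gc_pow hH x) hD).1
  have h1 : ∀ O : Subalgebra ℂ F, ∃ (f : F) (N : Set F), O ∈ Y →
      ((f ∈ Sec Y (H ^ x * D) ∧ f ≠ 0 ∧ ∀ γ ∈ G, γ f = f) ∧ N.Finite ∧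
      (∀ s ∈ N, s ∈ O) ∧ ∀ Q ∈ Y, (∀ s ∈ N, s ∈ Q) → Un Q (f * (H ^ x * D) Q)) := by
    intro O
    by_cases hO : O ∈ Y
    · obtain ⟨f, hf, hg, hu⟩ := hx₀ x hx O hO
      obtain ⟨N, h2, h3, h4⟩ := va2_gen hcar hO hu
      exact ⟨f, N, fun _ => ⟨⟨hf, left_ne_zero_of_mul hu.1, hg⟩, h2, h3, h4⟩⟩
    · exact ⟨0, ∅, fun h2 => absurd h2 hO⟩
  choose f N h2 using h1
  obtain ⟨T, hTf, hTY, hT⟩ := va2_compact hY.proj N fun O hO => ⟨(h2 O hO).2.1, (h2 O hO).2.2.1⟩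
  have hTf' : Finite T := hTf
  obtain ⟨R, ⟨e⟩⟩ := Finite.exists_equiv_fin T
  refine ⟨R, fun l => f (e.symm l).1, fun l => (h2 _ (hTY (e.symm l).2)).1, fun O hO => ?_⟩
  obtain ⟨O₁, hO₁, hs⟩ := hT O hO
  refine ⟨e ⟨O₁, hO₁⟩, ?_⟩
  beta_reduce
  rw [Equiv.symm_apply_apply]
  exact (h2 O₁ (hTY hO₁)).2.2.2 O hO hs

end Pool.Agent.KM
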