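import Pool.Agent.Lib.MP_732f67_ag.N.LogB
import Pool.Agent.Lib.MP_732f67_ag.N.Grp

/-!
Part N: log discrepancies on smooth varieties with normal crossings, and group actions.
-/

namespace Pool.Agent.KM

variable {F : Type} [Field F] [Algebra ℂ F] {Y : Set (Subalgebra ℂ F)} {d : ℕ} {J : Type}
  [Fintype J] {B : J → Subalgebra ℂ F → Fˣ} {Δ : Fin d → Derivation ℂ F F}
  {κ : Subalgebra ℂ F → Fˣ} {G : Subgroup (F ≃ₐ[ℂ] F)} {m : ℕ} {b : J → ℚ} {e : J → ℤ}

/-- a point on the boundary divisor `P j` -/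
theorem bd_le {P : J → Subalgebra ℂ F} (h : Bd Y P B) (hs : Snc d Y B Δ κ)
    {O : Subalgebra ℂ F} (hO : O ∈ Y) (j : J) : (¬ Un O (B j O) ↔ O ≤ P j) ∧ (B j O : F) ∈ O := by
  refine ⟨⟨fun hu => ?_, fun hle hu => ?_⟩, ?_⟩
  · by_contra hle
    refine hu (hs.proj.un_of_primDiv hs.normal hO (B j O).ne_zero fun Q hQ hp hQO => ?_)
    have h1 : Q ≠ P j := fun h2 => hle (h2 ▸ hQO)
    have h2 := ((h.eqn j Q hQ hp).2 h1)
    have h3 := (hs.car j).un_of_le hO hQ hQO
    have h4 := h3.mul h2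
    rwa [← Units.val_mul, div_mul_cancel] at h4
  · obtain ⟨hP, hp⟩ := h.mem j
    have h2 := (h.eqn j (P j) hP hp).1 rfl
    have h3 := (hs.car j).un_of_le hO hP hle
    have h4 := h3.inv.mul (hu.mono hle)
    rw [← Units.val_inv_eq_inv_val, inv_div, ← Units.val_mul, div_mul_cancel] at h4
    exact h2.2.1 h4.2.2
  · obtain ⟨x, co, -, -, hB, -⟩ := hs.snc O hO
    have h2 := (hB j).2.1
    rcases hc : co j with - | l
    · rw [hc] at h2
      have h5 : (B j O : F) / eps (fun i => (x i : F)) none = B j O := div_one _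
      rwa [h5] at h2
    · rw [hc] at h2
      by_cases hx0 : (x l : F) = 0
      · have h5 := (hB j).1
        rw [hc] at h5
        have h6 : (B j O : F) / eps (fun i => (x i : F)) (some l) = B j O / (x l : F) := rfl
        rw [h6, hx0, div_zero] at h5
        exact absurd rfl h5
      · have h6 : (B j O : F) = B j O / (x l : F) * x l := (div_mul_cancel₀ _ hx0).symm
        rw [h6]
        exact O.mul_mem h2 (x l).2

/-- `B j O` generates the prime ideal of `P j` in `O` -/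
theorem bd_div {P : J → Subalgebra ℂ F} (h : Bd Y P B) (hs : Snc d Y B Δ κ)
    {O : Subalgebra ℂ F} (hO : O ∈ Y) {j : J} (hj : O ≤ P j) {x : F} (hx : x ∈ O)
    (hx' : ¬ Un (P j) x) : x / B j O ∈ O := by
  have hb0 : (B j O : F) ≠ 0 := (B j O).ne_zero
  refine hs.proj.mem_of_primDiv hs.normal hO fun Q hQ hp hQO => ?_
  have h3 := (hs.car j).un_of_le hO hQ hQO
  rw [Units.val_div_eq_div_val] at h3
  have hb1 : (B j Q : F) ≠ 0 := (B j Q).ne_zero
  have h4 : x / (B j O : F) = x / B j Q * ((B j O : F) / B j Q)⁻¹ := by field_simp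
  rw [h4]
  refine Q.mul_mem ?_ h3.2.2
  by_cases hQP : Q = P j
  · have h5 := (h.eqn j Q hQ hp).1 hQP
    rcases h5.2.2 x (hQO hx) with h6 | h6
    · have h7 : x = 0 := by
        by_contra h0
        exact hx' (hQP ▸ ⟨h0, hQO hx, h6⟩)
      rw [h7, zero_div]
      exact Q.zero_mem
    · exact h6
  · have h5 := (h.eqn j Q hQ hp).2 hQP
    rw [div_eq_mul_inv]
    exact Q.mul_mem (hQO hx) h5.2.2

end Pool.Agent.KM
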