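import Pool.Agent.Lib.MP_732f67_ag.N.Prm
import Pool.Agent.Lib.MP_732f67_ag.G.EtE

/-!
Part N: differential forms at a prime divisor.
-/

namespace Pool.Agent.KM

variable {F : Type} [Field F] [Algebra ℂ F] {O : Subalgebra ℂ F} {n : ℕ}

/-- chain rule: `w` a transcendence basis with the dual frame `∂` -/
theorem nj_chain {d : ℕ} {w : Fin d → F} (hw : IsTranscendenceBasis ℂ w)
    {δ : Fin d → Derivation ℂ F F} (hδ : ∀ k l, δ k (w l) = if k = l then 1 else 0)
    (Δ : Fin d → Derivation ℂ F F) (y : Fin d → F) : nj Δ y = nj Δ w * nj δ y :=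
  det_frame hw hδ y

theorem nj_ne {d : ℕ} {w : Fin d → F} (hw : IsTranscendenceBasis ℂ w)
    {Δ : Fin d → Derivation ℂ F F} (hΔ : LinearIndependent F Δ) : nj Δ w ≠ 0 := by
  intro h0
  obtain ⟨v, hv, hv0⟩ := Matrix.exists_vecMul_eq_zero_iff.2 h0
  have h1 : ∑ i, v i • Δ i = 0 := by
    refine der_eq_zero hw fun l => ?_
    have := congrFun hv0 l
    simp only [Matrix.vecMul, dotProduct, Matrix.of_apply, Pi.zero_apply] at this
    rw [← this, der_sum_apply]
    rfl
  exact hv (funext fun i => Fintype.linearIndependent_iff.1 hΔ v h1 i)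

theorem frC_mem {m : ℕ} {t : Fin m → F} (ht : RI O t) (c : MvPolynomial (Fin m) ℂ) :
    MvPolynomial.aeval t c ∈ O := by
  by_cases hc : c = 0
  · rw [hc, map_zero]
    exact O.zero_mem
  · exact (ht c hc).2.1

theorem frC_eval_mem {m : ℕ} {π : F} (hπ : π ∈ O) {t : Fin m → F} (ht : RI O t)
    (f : Polynomial (MvPolynomial (Fin m) ℂ)) :
    f.eval₂ (MvPolynomial.aeval t : MvPolynomial (Fin m) ℂ →ₐ[ℂ] F).toRingHom π ∈ O := by
  rw [Polynomial.eval₂_eq_sum_range]
  exact O.sum_mem fun i _ => O.mul_mem (frC_mem ht _) (O.pow_mem hπ _)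

theorem frC_ne {m : ℕ} {π : F} (hπ : Unif O π) {t : Fin m → F} (ht : RI O t) (N : ℕ) :
    ∀ f : Polynomial (MvPolynomial (Fin m) ℂ), f.natDegree ≤ N → f ≠ 0 →
      f.eval₂ (MvPolynomial.aeval t : MvPolynomial (Fin m) ℂ →ₐ[ℂ] F).toRingHom π ≠ 0 := by
  have key : ∀ f : Polynomial (MvPolynomial (Fin m) ℂ), f.coeff 0 ≠ 0 →
      f.eval₂ (MvPolynomial.aeval t : MvPolynomial (Fin m) ℂ →ₐ[ℂ] F).toRingHom π ≠ 0 := by
    intro f hf h0
    have h1 := Polynomial.divX_mul_X_add f
    rw [← h1, Polynomial.eval₂_add, Polynomial.eval₂_mul, Polynomial.eval₂_X,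
      Polynomial.eval₂_C] at h0
    have h2 : Un O (MvPolynomial.aeval t (f.coeff 0)) := ht _ hf
    have h3 := frC_eval_mem hπ.1 ht f.divX
    set a := Polynomial.eval₂ (MvPolynomial.aeval t : MvPolynomial (Fin m) ℂ →ₐ[ℂ] F).toRingHom π
      f.divX
    have h4 : (MvPolynomial.aeval t (f.coeff 0) : F) = -(a * π) := by
      have : (MvPolynomial.aeval t : MvPolynomial (Fin m) ℂ →ₐ[ℂ] F).toRingHom (f.coeff 0) =
        MvPolynomial.aeval t (f.coeff 0) := rfl
      rw [this] at h0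
      linear_combination h0
    refine hπ.2.1 ?_
    have h5 : π⁻¹ = -(a * (MvPolynomial.aeval t (f.coeff 0) : F)⁻¹) := by
      have hπ0 := hπ.ne_zero
      have h6 := h2.1
      rw [h4] at h6 ⊢
      have ha : a ≠ 0 := fun h => h6 (by rw [h]; ring)
      field_simp
    rw [h5]
    exact O.neg_mem (O.mul_mem h3 h2.2.2)
  induction N with
  | zero =>
    intro f hf hf0
    refine key f fun h => hf0 ?_
    rw [Polynomial.eq_C_of_natDegree_le_zero hf, h, Polynomial.C_0]
  | succ N ih =>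
    intro f hf hf0
    by_cases h : f.coeff 0 = 0
    · have h1 := Polynomial.divX_mul_X_add f
      rw [h, Polynomial.C_0, add_zero] at h1
      have h2 : f.divX ≠ 0 := fun h => hf0 (by rw [← h1, h, zero_mul])
      rw [← h1, Polynomial.eval₂_mul, Polynomial.eval₂_X]
      refine mul_ne_zero (ih _ ?_ h2) hπ.ne_zero
      rw [Polynomial.natDegree_divX_eq_natDegree_tsub_one]
      omega
    · exact key f h

theorem frC_aeval {m : ℕ} (π : F) (t : Fin m → F) (p : MvPolynomial (Fin (m + 1)) ℂ) :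
    MvPolynomial.aeval (Fin.cons π t : Fin (m + 1) → F) p =
      (MvPolynomial.finSuccEquiv ℂ m p).eval₂
        (MvPolynomial.aeval t : MvPolynomial (Fin m) ℂ →ₐ[ℂ] F).toRingHom π := by
  induction p using MvPolynomial.induction_on with
  | C a =>
    rw [MvPolynomial.algHom_C, ← MvPolynomial.algebraMap_eq, AlgEquiv.commutes]
    have : (algebraMap ℂ (Polynomial (MvPolynomial (Fin m) ℂ))) a =
      Polynomial.C (MvPolynomial.C a) := rfl
    rw [this, Polynomial.eval₂_C]
    exact (MvPolynomial.algHom_C _ _).symm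
  | add p q hp hq => rw [map_add, map_add, Polynomial.eval₂_add, hp, hq]
  | mul_X p i hp =>
    rw [map_mul, map_mul, Polynomial.eval₂_mul, hp, MvPolynomial.aeval_X]
    congr 1
    refine Fin.cases ?_ (fun j => ?_) i
    · rw [MvPolynomial.finSuccEquiv_X_zero, Polynomial.eval₂_X, Fin.cons_zero]
    · rw [MvPolynomial.finSuccEquiv_X_succ, Polynomial.eval₂_C, Fin.cons_succ]
      exact (MvPolynomial.aeval_X _ _).symm

theorem frC_ai {m : ℕ} {π : F} (hπ : Unif O π) {t : Fin m → F} (ht : RI O t) :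
    AlgebraicIndependent ℂ (Fin.cons π t : Fin (m + 1) → F) := by
  rw [algebraicIndependent_iff]
  intro p hp
  by_contra h0
  rw [frC_aeval] at hp
  refine frC_ne hπ ht _ _ le_rfl ?_ hp
  rwa [ne_eq, EmbeddingLike.map_eq_zero_iff]

theorem tb_of_ri (hd : Algebra.trdeg ℂ F = (n + 1 : ℕ)) {π : F} (hπ : Unif O π) {t : Fin n → F}
    (ht : RI O t) : IsTranscendenceBasis ℂ (Fin.cons π t : Fin (n + 1) → F) := by
  refine (frC_ai hπ ht).isTranscendenceBasis_of_trdeg_le_of_finite ?_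
  rw [hd]
  simp

end Pool.Agent.KM
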