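import Pool.Agent.Lib.MP_732f67_ag.N.Prm
import Pool.Agent.Lib.MP_732f67_ag.G.EtE
import Pool.Agent.Lib.MP_732f67_ag.N.FrC

/-!
Part N: differential forms at a prime divisor.
-/

namespace Pool.Agent.KM

variable {F : Type} [Field F] [Algebra ℂ F] {O : Subalgebra ℂ F} {n : ℕ}

/-- every element has an algebraic residue over the residues of `t` -/
theorem frD_alg (hd : Algebra.trdeg ℂ F = (n + 1 : ℕ)) {π : F} (hπ : Unif O π) {t : Fin n → F}
    (x : F) : ∃ f : Polynomial (MvPolynomial (Fin n) ℂ), f ≠ 0 ∧ ¬ Un O (ev t x f) := by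
  by_contra hcon
  push Not at hcon
  have hri : RI O (Fin.cons x t : Fin (n + 1) → F) := by
    intro P hP
    have h1 := hcon (MvPolynomial.finSuccEquiv ℂ n P)
      (by rwa [ne_eq, EmbeddingLike.map_eq_zero_iff])
    rw [frC_aeval]
    exact h1
  have h2 := (frC_ai hπ hri).lift_cardinalMk_le_trdeg
  rw [hd] at h2
  simp at h2

/-- derivations which are zero modulo `π` on `π` and `t` are zero modulo `π` -/
theorem frD_div (hd : Algebra.trdeg ℂ F = (n + 1 : ℕ)) {π : F} (hπ : Unif O π) {t : Fin n → F}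
    (ht : RI O t) (D : Derivation ℂ F F) (hD : ∀ x ∈ O, D x ∈ O) (h0 : D π / π ∈ O)
    (h1 : ∀ l, D (t l) / π ∈ O) : ∀ x ∈ O, D x / π ∈ O := by
  classical
  have hπ0 := hπ.ne_zero
  -- non-units
  have hm : ∀ x ∈ O, ¬ Un O x → x / π ∈ O := by
    intro x hx hu
    by_cases hx0 : x = 0
    · rw [hx0, zero_div]
      exact O.zero_mem
    · exact (hπ.2.2 x hx).resolve_left fun h => hu ⟨hx0, hx, h⟩
  have hm' : ∀ x : F, x / π ∈ O → x ∈ O ∧ ¬ Un O x := by
    intro x hx
    have h2 : x = x / π * π := (div_mul_cancel₀ _ hπ0).symm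
    refine ⟨by rw [h2]; exact O.mul_mem hx hπ.1, fun hu => hπ.2.1 ?_⟩
    have h3 : π⁻¹ = x / π * x⁻¹ := by
      have := hu.1
      field_simp
    rw [h3]
    exact O.mul_mem hx hu.2.2
  have hDm : ∀ x ∈ O, ¬ Un O x → D x / π ∈ O := by
    intro x hx hu
    have h2 := hm x hx hu
    have h3 : x = x / π * π := (div_mul_cancel₀ _ hπ0).symm
    have h4 : D x / π = D (x / π) + x / π * (D π / π) := by
      conv_lhs => rw [h3]
      rw [Derivation.leibniz, smul_eq_mul, smul_eq_mul]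
      field_simp
      ring
    rw [h4]
    exact O.add_mem (hD _ h2) (O.mul_mem h2 h0)
  intro x hx
  have hev : ∀ f : Polynomial (MvPolynomial (Fin n) ℂ), ev t x f ∈ O := fun f =>
    frC_eval_mem hx ht f
  -- minimal degree
  have hex : ∃ N : ℕ, ∃ f : Polynomial (MvPolynomial (Fin n) ℂ), f ≠ 0 ∧ ¬ Un O (ev t x f) ∧
      f.natDegree = N := by
    obtain ⟨f, hf0, hf⟩ := frD_alg hd hπ (t := t) x
    exact ⟨_, f, hf0, hf, rfl⟩
  obtain ⟨f, hf0, hf, hfN⟩ := Nat.find_spec hex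
  have hmin : ∀ g : Polynomial (MvPolynomial (Fin n) ℂ), g ≠ 0 →
      g.natDegree < f.natDegree → Un O (ev t x g) := by
    intro g hg hlt
    by_contra hu
    exact Nat.find_min hex (hfN ▸ hlt) ⟨g, hg, hu, rfl⟩
  have hdeg : f.natDegree ≠ 0 := by
    intro h
    have h2 := Polynomial.eq_C_of_natDegree_eq_zero h
    apply hf
    rw [h2]
    have h3 : ev t x (Polynomial.C (f.coeff 0)) = MvPolynomial.aeval t (f.coeff 0) :=
      Polynomial.eval₂_C _ _
    rw [h3]
    refine ht _ fun h4 => hf0 ?_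
    rw [h2, h4, Polynomial.C_0]
  have hder : f.derivative ≠ 0 := by
    intro h
    exact hdeg (Polynomial.derivative_eq_zero.1 h)
  have hder' := hmin _ hder (Polynomial.natDegree_derivative_lt hdeg)
  obtain ⟨c, hc, hc'⟩ := der_ev t x f
  have h2 := hc' D
  have h3 : ∀ l, c l ∈ O := by
    intro l
    have h4 : Algebra.adjoin ℂ (Set.range t ∪ {x}) ≤ O := by
      rw [Algebra.adjoin_le_iff]
      rintro z (⟨i, rfl⟩ | rfl)
      · exact ht.mem i
      · exact hx
    exact h4 (hc l)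
  have h5 := hDm _ (hev f) hf
  have h6 : D x / π = (ev t x f.derivative)⁻¹ *
      (D (ev t x f) / π - ∑ l, c l * (D (t l) / π)) := by
    have h7 : ∑ l, c l * (D (t l) / π) = (∑ l, c l * D (t l)) / π := by
      rw [Finset.sum_div]
      exact Finset.sum_congr rfl fun l _ => by ring
    have h8 := hder'.1
    rw [h7, h2]
    field_simp
    ring
  rw [h6]
  exact O.mul_mem hder'.2.2 (O.sub_mem h5 (O.sum_mem fun l _ => O.mul_mem (h3 l) (h1 l)))

/-- bounded denominators -/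
theorem frD_bdd (hO : PrimDiv O) {π : F} (hπ : Unif O π) (D : Derivation ℂ F F) :
    ∃ N : ℕ, ∀ x ∈ O, π ^ N * D x ∈ O := by
  classical
  obtain ⟨A, ⟨S, rfl⟩, hl⟩ := hO.2.2
  have hπ0 := hπ.ne_zero
  have h1 : ∀ z : F, ∃ N : ℕ, π ^ N * z ∈ O := by
    intro z
    by_cases hz : z = 0
    · exact ⟨0, by rw [hz, mul_zero]; exact O.zero_mem⟩
    obtain ⟨e, he⟩ := hπ.exists_ord hO hz
    refine ⟨e.natAbs, ?_⟩
    have h2 : π ^ e.natAbs * z = π ^ ((e.natAbs : ℤ) + e).toNat * (z / π ^ e) := by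
      have h3 : (0 : ℤ) ≤ (e.natAbs : ℤ) + e := by omega
      have h4 : π ^ ((e.natAbs : ℤ) + e).toNat = π ^ ((e.natAbs : ℤ) + e) := by
        rw [← zpow_natCast, Int.toNat_of_nonneg h3]
      rw [h4, zpow_add₀ hπ0, zpow_natCast]
      have := zpow_ne_zero e hπ0
      field_simp
    rw [h2]
    exact O.mul_mem (O.pow_mem hπ.1 _) he.2.1
  have h2 : ∃ N : ℕ, ∀ s ∈ S, π ^ N * D s ∈ O := by
    choose N hN using fun s => h1 (D s)
    refine ⟨∑ s ∈ S, N s, fun s hs => ?_⟩
    rw [← Finset.add_sum_erase S N hs, pow_add]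
    have h3 : π ^ N s * π ^ (∑ x ∈ S.erase s, N x) * D s =
      π ^ (∑ x ∈ S.erase s, N x) * (π ^ N s * D s) := by ring
    rw [h3]
    exact O.mul_mem (O.pow_mem hπ.1 _) (hN s)
  obtain ⟨N, hN⟩ := h2
  have hle : Algebra.adjoin ℂ (S : Set F) ≤ O := hl.le
  let G : Subalgebra ℂ F :=
    { carrier := {w | w ∈ O ∧ π ^ N * D w ∈ O}
      mul_mem' := by
        rintro a b ⟨ha, ha'⟩ ⟨hb, hb'⟩
        refine ⟨O.mul_mem ha hb, ?_⟩
        rw [Derivation.leibniz, smul_eq_mul, smul_eq_mul]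
        have : π ^ N * (a * D b + b * D a) = a * (π ^ N * D b) + b * (π ^ N * D a) := by ring
        rw [this]
        exact O.add_mem (O.mul_mem ha hb') (O.mul_mem hb ha')
      add_mem' := by
        rintro a b ⟨ha, ha'⟩ ⟨hb, hb'⟩
        refine ⟨O.add_mem ha hb, ?_⟩
        rw [map_add, mul_add]
        exact O.add_mem ha' hb'
      algebraMap_mem' := fun c => ⟨O.algebraMap_mem c, by
        rw [Derivation.map_algebraMap, mul_zero]; exact O.zero_mem⟩ }
  have hG : Algebra.adjoin ℂ (S : Set F) ≤ G := by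
    rw [Algebra.adjoin_le_iff]
    intro s hs
    exact ⟨hle (Algebra.subset_adjoin hs), hN s hs⟩
  refine ⟨N, fun x hx => ?_⟩
  obtain ⟨P, hP, hO'⟩ := hl
  obtain ⟨a, b, hb, rfl⟩ := (hO' x).1 hx
  have hb0 : (b : F) ≠ 0 := fun h0 => hb (by
    have : b = 0 := Subtype.ext h0
    rw [this]; exact P.zero_mem)
  have hbi : (b : F)⁻¹ ∈ O := (hO' _).2 ⟨1, b, hb, by simp⟩
  have h3 : π ^ N * D ((a : F) / b) = (b : F)⁻¹ * (b : F)⁻¹ *
      ((b : F) * (π ^ N * D a) - a * (π ^ N * D b)) := by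
    rw [Derivation.leibniz_div]
    simp only [smul_eq_mul]
    field_simp
  rw [h3]
  exact O.mul_mem (O.mul_mem hbi hbi) (O.sub_mem (O.mul_mem (hle b.2) (hG a.2).2)
    (O.mul_mem (hle a.2) (hG b.2).2))

/-- The derivations dual to `π, t` preserve `O`.

PROOF. `Ω[O/ℂ]` is a finitely generated `O`-module (`O` is a localization of a finitely generated
algebra). It is generated by `dπ` and the `dt l`, by Nakayama: `Ω[O/ℂ] / m Ω` is generated by `dπ` and
by elements which map to generators of `Ω[κ/ℂ]`, `κ = O/m`, `m = (π)`, and the `dt l` generate `Ω[κ/ℂ]`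
(the residues of the `t l` are a transcendence basis of `κ`, characteristic zero; `exists_kbasis`
in `G/EtE.lean`). Let `δ` be the derivations of `F` with `δ k (w l) = δ_kl`, `w = (π, t)`
(`exists_der`). For `x ∈ O`: `dx = ∑ c l d(w l)` with `c l ∈ O`, so `δ k x = c k`. -/
theorem dual_frame (hd : Algebra.trdeg ℂ F = (n + 1 : ℕ)) (hO : PrimDiv O) {π : F}
    (hπ : Unif O π) {t : Fin n → F} (ht : RI O t) :
    ∃ δ : Fin (n + 1) → Derivation ℂ F F, (∀ k, ∀ x ∈ O, δ k x ∈ O) ∧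
      ∀ k l, δ k ((Fin.cons π t : Fin (n + 1) → F) l) = if k = l then 1 else 0 := by
  obtain ⟨δ, hδ⟩ := exists_der (tb_of_ri hd hπ ht)
  have hπ0 := hπ.ne_zero
  refine ⟨δ, fun k => ?_, hδ⟩
  obtain ⟨N, hN⟩ := frD_bdd hO hπ (δ k)
  induction N with
  | zero => simpa using hN
  | succ N ih =>
    refine ih fun x hx => ?_
    have hw : ∀ l, (π ^ (N + 1) • δ k) ((Fin.cons π t : Fin (n + 1) → F) l) / π ∈ O := by
      intro l
      rw [Derivation.smul_apply, smul_eq_mul, hδ]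
      split_ifs
      · rw [mul_one, pow_succ, mul_div_cancel_right₀ _ hπ0]
        exact O.pow_mem hπ.1 _
      · rw [mul_zero, zero_div]
        exact O.zero_mem
    have h1 := frD_div hd hπ ht (π ^ (N + 1) • δ k) (fun x hx => hN x hx) (hw 0)
      (fun l => hw l.succ) x hx
    rw [Derivation.smul_apply, smul_eq_mul, pow_succ] at h1
    have h2 : π ^ N * π * δ k x / π = π ^ N * δ k x := by field_simp
    rwa [h2] at h1

end Pool.Agent.KM
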