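import Pool.Agent.Lib.MP_732f67_ag.N.Prm
import Pool.Agent.Lib.MP_732f67_ag.G.EtE
import Pool.Agent.Lib.MP_732f67_ag.N.FrC
import Pool.Agent.Lib.MP_732f67_ag.N.FrD

/-!
Part N: differential forms at a prime divisor.
-/

namespace Pool.Agent.KM

variable {F : Type} [Field F] [Algebra ℂ F] {O : Subalgebra ℂ F} {n : ℕ}

/-- the order of a form at a prime divisor -/
theorem ordF_of_ri (hd : Algebra.trdeg ℂ F = (n + 1 : ℕ)) (hO : PrimDiv O) {π : F}
    (hπ : Unif O π) {t : Fin n → F} (ht : RI O t) {Δ : Fin (n + 1) → Derivation ℂ F F}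
    (hΔ : LinearIndependent F Δ) :
    IsOrdF Δ O (-oD O (nj Δ (Fin.cons π t))) := by
  obtain ⟨δ, hδ, hδ'⟩ := dual_frame hd hO hπ ht
  have htb := tb_of_ri hd hπ ht
  set w : Fin (n + 1) → F := Fin.cons π t with hw
  have hwO : ∀ l, w l ∈ O := by
    intro l
    refine Fin.cases ?_ (fun l => ?_) l
    · rw [hw, Fin.cons_zero]
      exact hπ.1
    · rw [hw, Fin.cons_succ]
      exact ht.mem l
  have hx0 : nj Δ w ≠ 0 := nj_ne htb hΔ
  have hπ0 : π ≠ 0 := by
    rintro rfl
    apply hπ.2.1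
    rw [inv_zero]
    exact O.zero_mem
  -- the lattice is generated by the Jacobian of `w`
  have hdet : ∀ y : Fin (n + 1) → F, (∀ j, y j ∈ O) → nj δ y ∈ O := by
    intro y hy
    rw [nj, Matrix.det_apply]
    refine O.sum_mem fun σ _ => ?_
    have h1 : ∏ i, (Matrix.of fun i l => δ i (y l)) (σ i) i ∈ O :=
      O.prod_mem fun i _ => hδ (σ i) _ (hy i)
    rcases Int.units_eq_one_or (Equiv.Perm.sign σ) with h2 | h2
    · rw [h2, one_smul]
      exact h1
    · rw [h2, Units.neg_smul, one_smul]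
      exact O.neg_mem h1
  have hlat : ∀ f : F, f ∈ lat Δ O ↔ f / nj Δ w ∈ O := by
    intro f
    constructor
    · intro hf
      rw [lat] at hf
      induction hf using Submodule.span_induction with
      | mem x hx =>
        obtain ⟨y, rfl⟩ := hx
        have h1 := nj_chain htb hδ' Δ fun j => (y j : F)
        rw [nj] at h1
        rw [h1, mul_div_cancel_left₀ _ hx0]
        exact hdet _ fun j => (y j).2
      | zero =>
        rw [zero_div]
        exact O.zero_mem
      | add x y _ _ hx hy =>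
        rw [add_div]
        exact O.add_mem hx hy
      | smul a x _ hx =>
        rw [Subalgebra.smul_def, smul_eq_mul, mul_div_assoc]
        exact O.mul_mem a.2 hx
    · intro hf
      have h1 : nj Δ w ∈ lat Δ O := Submodule.subset_span ⟨fun j => ⟨w j, hwO j⟩, rfl⟩
      have h2 := Submodule.smul_mem (lat Δ O) (⟨_, hf⟩ : O) h1
      rwa [Subalgebra.smul_def, smul_eq_mul, div_mul_cancel₀ _ hx0] at h2
  refine ⟨π, hπ, fun f => ?_⟩
  rw [hlat]
  have hu : Un O (nj Δ w / π ^ oD O (nj Δ w)) := by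
    rw [← oD_zero hO (div_ne_zero hx0 (zpow_ne_zero _ hπ0)),
      oD_div hO hx0 (zpow_ne_zero _ hπ0), oD_zpow hO hπ0, oD_unif hO hπ]
    ring
  have h3 : f * π ^ (-oD O (nj Δ w)) = f / nj Δ w * (nj Δ w / π ^ oD O (nj Δ w)) := by
    rw [zpow_neg, ← div_eq_mul_inv, div_mul_div_cancel₀ hx0]
  rw [h3]
  constructor
  · intro h
    exact O.mul_mem h hu.2.1
  · intro h
    have h4 := O.mul_mem h hu.2.2
    rwa [mul_inv_cancel_right₀ hu.1] at h4

theorem oF_spec {d : ℕ} (hd : Algebra.trdeg ℂ F = d) (hO : PrimDiv O)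
    {Δ : Fin d → Derivation ℂ F F} (hΔ : LinearIndependent F Δ) : IsOrdF Δ O (oF Δ O) := by
  have hex : ∃ e, IsOrdF Δ O e := by
    obtain ⟨π, hπ⟩ := hO.exists_unif
    rcases d with _ | n
    · exfalso
      have h1 : Algebra.IsAlgebraic ℂ F := by
        refine trdeg_eq_zero_iff.1 ?_
        rw [hd, Nat.cast_zero]
      obtain ⟨c, hc⟩ := IsAlgClosed.algebraMap_bijective_of_isIntegral (k := ℂ) (K := F) |>.2 π⁻¹
      apply hπ.2.1
      rw [← hc]
      exact O.algebraMap_mem c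
    · obtain ⟨t, ht⟩ := exists_ri hd hO
      exact ⟨_, ordF_of_ri hd hO hπ ht hΔ⟩
  rw [oF, dif_pos hex]
  exact hex.choose_spec

end Pool.Agent.KM
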