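import Pool.Agent.Lib.MP_732f67_ag.N.OrdA
import Pool.Agent.Lib.MP_732f67_ag.N.Dmn
import Pool.Agent.Lib.MP_732f67_ag.KM.AtH3
import Pool.Agent.Lib.MP_732f67_ag.G.Nbh

/-!
Part N: prime divisors in a finite extension of function fields.
-/

namespace Pool.Agent.KM

variable {F F' : Type} [Field F] [Algebra ℂ F] [Field F'] [Algebra ℂ F'] {i : F →ₐ[ℂ] F'}
  {O : Subalgebra ℂ F} {O' : Subalgebra ℂ F'}

/-- the residues of the elements `t l` are algebraically independent -/
def RI (O : Subalgebra ℂ F) {n : ℕ} (t : Fin n → F) : Prop :=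
  ∀ P : MvPolynomial (Fin n) ℂ, P ≠ 0 → Un O (MvPolynomial.aeval t P)

theorem RI.mem {n : ℕ} {t : Fin n → F} (h : RI O t) (l : Fin n) : t l ∈ O := by
  have h1 := h (MvPolynomial.X l) (MvPolynomial.X_ne_zero l)
  rw [MvPolynomial.aeval_X] at h1
  exact h1.2.1

private theorem prR_ne {A : Subalgebra ℂ F} {P : Ideal A} {b : A} (hb : b ∉ P) : (b : F) ≠ 0 := by
  intro h0
  apply hb
  have : b = 0 := Subtype.ext h0
  rw [this]
  exact P.zero_mem

/-- the local ring of a prime ideal as a localization -/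
theorem prR_isLocalization {A O : Subalgebra ℂ F} (hle : A ≤ O) (P : Ideal A) [hP : P.IsPrime]
    (hO : ∀ x : F, x ∈ O ↔ ∃ a b : A, b ∉ P ∧ x = a / b) :
    letI : Algebra A O := (Subalgebra.inclusion hle).toRingHom.toAlgebra
    IsLocalization.AtPrime O P := by
  let _ : Algebra A O := (Subalgebra.inclusion hle).toRingHom.toAlgebra
  refine ⟨?_, ?_, ?_⟩
  · rintro ⟨b, hb⟩
    have hb' : b ∉ P := hb
    have h0 := prR_ne hb'
    have hinv : (b : F)⁻¹ ∈ O := (hO _).2 ⟨1, b, hb', by simp⟩
    refine IsUnit.of_mul_eq_one ⟨(b : F)⁻¹, hinv⟩ ?_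
    apply Subtype.ext
    exact mul_inv_cancel₀ h0
  · rintro ⟨x, hx⟩
    obtain ⟨a, b, hb, rfl⟩ := (hO x).1 hx
    refine ⟨(a, ⟨b, hb⟩), ?_⟩
    apply Subtype.ext
    exact div_mul_cancel₀ _ (prR_ne hb)
  · intro x y hxy
    refine ⟨1, ?_⟩
    have h1 : (x : F) = y := congrArg (fun z : O => (z : F)) hxy
    rw [Subtype.ext h1]

/-- the prime ideal of a prime divisor has height one -/
theorem prR_height {A O : Subalgebra ℂ F} (hdvr : IsDiscreteValuationRing O) (hle : A ≤ O)
    (P : Ideal A) [hP : P.IsPrime] (hO : ∀ x : F, x ∈ O ↔ ∃ a b : A, b ∉ P ∧ x = a / b) :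
    P.height = 1 := by
  let _ : Algebra A O := (Subalgebra.inclusion hle).toRingHom.toAlgebra
  have hl : IsLocalization.AtPrime O P := prR_isLocalization hle P hO
  have h1 := IsLocalization.AtPrime.ringKrullDim_eq_height P O
  rw [IsDiscreteValuationRing.ringKrullDim_eq_one] at h1
  exact_mod_cast h1.symm

/-- PROOF. `O` is a local ring of the finitely generated `A` with field of fractions `F`, at a prime
ideal of height one; the quotient has transcendence degree `n` (dimension theory of finitely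
generated algebras, or: if the residue field had smaller transcendence degree, ... see Mathlib,
`ringKrullDim` of finitely generated domains; a version is in `KM/AtDiv.lean`). -/
theorem exists_ri {n : ℕ} (hd : Algebra.trdeg ℂ F = (n + 1 : ℕ)) (hO : PrimDiv O) :
    ∃ t : Fin n → F, RI O t := by
  obtain ⟨hdvr, hfr, A, hA, hloc⟩ := hO
  have hle := hloc.le
  have hfrA : FracEq A := nb_frac hloc hfr
  obtain ⟨P, hP, hPO⟩ := hloc
  have hft : Algebra.FiniteType ℂ A := (Subalgebra.fg_iff_finiteType A).1 hA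
  have hh : P.height = 1 := prR_height hdvr hle P hPO
  have := isFractionRing_of_fracEq hfrA
  have htr : ((n + 1 : ℕ) : Cardinal) ≤ Algebra.trdeg ℂ A := by
    have h1 := trdeg_add_eq ℂ A (A := F)
    have h2 : Algebra.IsAlgebraic A F := IsLocalization.isAlgebraic F (nonZeroDivisors A)
    have h3 : Algebra.trdeg A F = 0 := _root_.trdeg_eq_zero
    rw [h3, add_zero] at h1
    rw [h1, hd]
  obtain ⟨y, hy⟩ : ∃ y : Fin n → A, AlgebraicIndependent ℂ fun i => Ideal.Quotient.mk P (y i) :=
    _root_.KM.h3 htr P hh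
  refine ⟨fun i => (y i : F), fun Q hQ => ?_⟩
  have h4 : MvPolynomial.aeval (fun i => (y i : F)) Q = algebraMap A F (MvPolynomial.aeval y Q) :=
    MvPolynomial.aeval_algebraMap_apply F y Q
  have h5 : MvPolynomial.aeval y Q ∉ P := by
    intro h
    apply hQ
    apply (algebraicIndependent_iff.1 hy) Q
    rw [← Ideal.Quotient.eq_zero_iff_mem] at h
    rw [← h]
    have h7 : (Ideal.Quotient.mkₐ ℂ P).comp (MvPolynomial.aeval y) =
        MvPolynomial.aeval (fun i => Ideal.Quotient.mk P (y i)) := by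
      refine MvPolynomial.algHom_ext fun i => ?_
      rw [MvPolynomial.aeval_X]
      simp
    rw [← h7]
    rfl
  rw [h4]
  refine ⟨prR_ne h5, hle (MvPolynomial.aeval y Q).2, (hPO _).2 ⟨1, MvPolynomial.aeval y Q, h5, ?_⟩⟩
  rw [Subalgebra.coe_one, one_div]
  rfl

end Pool.Agent.KM
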