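import Pool.Agent.Lib.MP_732f67_ag.N.OrdA
import Pool.Agent.Lib.MP_732f67_ag.N.Dmn
import Pool.Agent.Lib.MP_732f67_ag.N.PrR
import Pool.Agent.Lib.MP_732f67_ag.KM.AtN2

/-!
Part N: prime divisors in a finite extension of function fields.
-/

namespace Pool.Agent.KM

variable {F F' : Type} [Field F] [Algebra ℂ F] [Field F'] [Algebra ℂ F'] {i : F →ₐ[ℂ] F'}
  {O : Subalgebra ℂ F} {O' : Subalgebra ℂ F'}

/-- the ring generated by `π` and `t` -/
theorem prD_mem {n : ℕ} {π : F} {t : Fin n → F} (hπ : π ∈ O) (ht : ∀ l, t l ∈ O)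
    (Q : MvPolynomial (Fin (n + 1)) ℂ) :
    MvPolynomial.aeval (Fin.cons π t : Fin (n + 1) → F) Q ∈ O := by
  have h1 : ∀ j, (Fin.cons π t : Fin (n + 1) → F) j ∈ O := by
    intro j
    refine Fin.cases ?_ (fun l => ?_) j
    · rw [Fin.cons_zero]
      exact hπ
    · rw [Fin.cons_succ]
      exact ht l
  have h2 : Algebra.adjoin ℂ (Set.range (Fin.cons π t : Fin (n + 1) → F)) ≤ O := by
    refine Algebra.adjoin_le ?_
    rintro _ ⟨j, rfl⟩
    exact h1 j
  refine h2 ?_
  rw [Algebra.adjoin_range_eq_range_aeval]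
  exact ⟨Q, rfl⟩

/-- a polynomial which is not divisible by the first variable is a unit -/
theorem prD_un {n : ℕ} {π : F} (hπ : Unif O π) {t : Fin n → F} (ht : RI O t)
    {Q : MvPolynomial (Fin (n + 1)) ℂ} (hQ : ¬ MvPolynomial.X 0 ∣ Q) :
    Un O (MvPolynomial.aeval (Fin.cons π t : Fin (n + 1) → F) Q) := by
  let e := MvPolynomial.finSuccEquiv ℂ n
  let φ : Polynomial (MvPolynomial (Fin n) ℂ) →ₐ[ℂ] F :=
    Polynomial.eval₂AlgHom (MvPolynomial.aeval t) π fun _ => Commute.all _ _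
  have hφ : φ.comp (e : MvPolynomial (Fin (n + 1)) ℂ →ₐ[ℂ] Polynomial (MvPolynomial (Fin n) ℂ)) =
      MvPolynomial.aeval (Fin.cons π t : Fin (n + 1) → F) := by
    refine MvPolynomial.algHom_ext fun j => ?_
    refine Fin.cases ?_ (fun l => ?_) j
    · rw [MvPolynomial.aeval_X, Fin.cons_zero, AlgHom.comp_apply]
      have h1 : (e : MvPolynomial (Fin (n + 1)) ℂ →ₐ[ℂ] Polynomial (MvPolynomial (Fin n) ℂ))
          (MvPolynomial.X 0) = Polynomial.X := MvPolynomial.finSuccEquiv_X_zero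
      rw [h1]
      exact Polynomial.eval₂_X _ _
    · rw [MvPolynomial.aeval_X, Fin.cons_succ, AlgHom.comp_apply]
      have h1 : (e : MvPolynomial (Fin (n + 1)) ℂ →ₐ[ℂ] Polynomial (MvPolynomial (Fin n) ℂ))
          (MvPolynomial.X l.succ) = Polynomial.C (MvPolynomial.X l) :=
        MvPolynomial.finSuccEquiv_X_succ
      rw [h1]
      refine (Polynomial.eval₂_C _ _).trans ?_
      exact MvPolynomial.aeval_X t l
  have hφ' : ∀ R, φ (e R) = MvPolynomial.aeval (Fin.cons π t : Fin (n + 1) → F) R :=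
    fun R => congrArg (fun ψ => ψ R) hφ
  have hdec := Polynomial.divX_mul_X_add (e Q)
  have hc0 : (e Q).coeff 0 ≠ 0 := by
    intro h
    apply hQ
    rw [h, Polynomial.C_0, add_zero] at hdec
    refine ⟨e.symm (e Q).divX, e.injective ?_⟩
    rw [map_mul, AlgEquiv.apply_symm_apply]
    have h1 : e (MvPolynomial.X 0) = Polynomial.X := MvPolynomial.finSuccEquiv_X_zero
    rw [h1, mul_comm]
    exact hdec.symm
  have hu := ht _ hc0
  have hv : φ (e Q).divX ∈ O := by
    have h1 := prD_mem hπ.1 ht.mem (e.symm (e Q).divX)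
    rw [← hφ', AlgEquiv.apply_symm_apply] at h1
    exact h1
  have hval : MvPolynomial.aeval (Fin.cons π t : Fin (n + 1) → F) Q =
      φ (e Q).divX * π + MvPolynomial.aeval t ((e Q).coeff 0) := by
    rw [← hφ', ← hdec, map_add, map_mul]
    have h1 : φ Polynomial.X = π := Polynomial.eval₂_X _ _
    have h2 : ∀ c, φ (Polynomial.C c) = MvPolynomial.aeval t c := fun c => Polynomial.eval₂_C _ _
    rw [h1, h2, hdec]
  rw [hval]
  generalize φ (e Q).divX = v at hv
  generalize MvPolynomial.aeval t ((e Q).coeff 0) = u at hu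
  have hmem : v * π + u ∈ O := O.add_mem (O.mul_mem hv hπ.1) hu.2.1
  have hπ0 := hπ.ne_zero
  have hnot : (v * π + u) / π ∉ O := by
    intro h
    apply hπ.2.1
    have e1 : π⁻¹ = ((v * π + u) / π - v) * u⁻¹ := by
      have := hu.1
      field_simp
      ring
    rw [e1]
    exact O.mul_mem (O.sub_mem h hv) hu.2.2
  refine ⟨fun h0 => hnot ?_, hmem, (hπ.2.2 _ hmem).resolve_right hnot⟩
  rw [h0, zero_div]
  exact O.zero_mem

/-- non-zero polynomials in `π`, `t` -/
theorem prD_pow {n : ℕ} {π : F} (hπ : Unif O π) {t : Fin n → F} (ht : RI O t)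
    {P : MvPolynomial (Fin (n + 1)) ℂ} (hP : P ≠ 0) :
    ∃ (k : ℕ) (Q : MvPolynomial (Fin (n + 1)) ℂ),
      Un O (MvPolynomial.aeval (Fin.cons π t : Fin (n + 1) → F) Q) ∧
      MvPolynomial.aeval (Fin.cons π t : Fin (n + 1) → F) P =
        π ^ k * MvPolynomial.aeval (Fin.cons π t : Fin (n + 1) → F) Q := by
  have hX : ¬ IsUnit (MvPolynomial.X 0 : MvPolynomial (Fin (n + 1)) ℂ) :=
    (MvPolynomial.X_prime (i := (0 : Fin (n + 1)))).not_isUnit
  obtain ⟨Q, hQ, hQ'⟩ := (FiniteMultiplicity.of_not_isUnit hX hP).exists_eq_pow_mul_and_not_dvd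
  generalize multiplicity (MvPolynomial.X 0) P = k at hQ
  refine ⟨k, Q, prD_un hπ ht hQ', ?_⟩
  rw [hQ, map_mul, map_pow, MvPolynomial.aeval_X, Fin.cons_zero]

theorem prD_tb {n : ℕ} (hd : Algebra.trdeg ℂ F = (n + 1 : ℕ)) {π : F} (hπ : Unif O π)
    {t : Fin n → F} (ht : RI O t) :
    IsTranscendenceBasis ℂ (Fin.cons π t : Fin (n + 1) → F) := by
  have h1 : AlgebraicIndependent ℂ (Fin.cons π t : Fin (n + 1) → F) := by
    rw [algebraicIndependent_iff]
    intro P hP
    by_contra h0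
    obtain ⟨k, Q, hQ, hPQ⟩ := prD_pow hπ ht h0
    rw [hP] at hPQ
    exact mul_ne_zero (pow_ne_zero k hπ.ne_zero) hQ.1 hPQ.symm
  refine h1.isTranscendenceBasis_of_trdeg_le_of_finite ?_
  rw [hd, Cardinal.mk_fin]

/-- the integral closure of a polynomial ring -/
theorem prD_icl {m : ℕ} {x : Fin m → F} (hx : IsTranscendenceBasis ℂ x)
    (hF : ∃ A : Subalgebra ℂ F, A.FG ∧ FracEq A) :
    ∃ C : Subalgebra ℂ F, C.FG ∧ FracEq C ∧
      ∀ y, y ∈ C ↔ IsIntegral (Algebra.adjoin ℂ (Set.range x)).toSubring y := by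
  classical
  set P : Subring F := (Algebra.adjoin ℂ (Set.range x)).toSubring with hPdef
  set K : Subfield F := (algebraMap ℂ F).fieldRange with hK
  have hchar : CharZero F := charZero_of_injective_algebraMap (algebraMap ℂ F).injective
  have hFG : _root_.KM.FG K := by
    obtain ⟨A, ⟨s, hs⟩, hfr⟩ := hF
    refine ⟨s, ?_⟩
    rw [eq_top_iff]
    intro y _
    obtain ⟨a, b, -, rfl⟩ := hfr y
    have hA : ∀ a ∈ A, a ∈ Subfield.closure ((K : Set F) ∪ s) := by
      intro a ha
      rw [← hs] at ha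
      induction ha using Algebra.adjoin_induction with
      | mem y hy => exact Subfield.subset_closure (Or.inr hy)
      | algebraMap c => exact Subfield.subset_closure (Or.inl ⟨c, rfl⟩)
      | add y z _ _ h1 h2 => exact add_mem h1 h2
      | mul y z _ _ h1 h2 => exact mul_mem h1 h2
    exact div_mem (hA a a.2) (hA b b.2)
  have hP : ∃ s : Finset F, P = Subring.closure ((K : Set F) ∪ s) := by
    refine ⟨Finset.univ.image x, ?_⟩
    rw [hPdef, Algebra.adjoin_eq_ring_closure]
    congr 1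
    rw [Finset.coe_image, Finset.coe_univ, Set.image_univ]
    rfl
  have hPint : ∀ x ∈ P, IsIntegral P x := fun x hx => by
    have : x = algebraMap P F ⟨x, hx⟩ := rfl
    rw [this]
    exact isIntegral_algebraMap
  obtain ⟨s, hs1, hs2⟩ := _root_.KM.n2 hFG P (integralClosure P F).toSubring hP
    (fun x hx => hPint x hx) (fun x hx => hx)
  obtain ⟨C, hCdef⟩ : ∃ C : Subalgebra ℂ F,
      C = Algebra.adjoin ℂ ((Finset.univ.image x ∪ s : Finset F) : Set F) := ⟨_, rfl⟩
  have hPC : ∀ y ∈ P, y ∈ C := by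
    intro y hy
    have h1 : Algebra.adjoin ℂ (Set.range x) ≤ C := by
      rw [hCdef]
      refine Algebra.adjoin_mono ?_
      rw [Finset.coe_union, Finset.coe_image, Finset.coe_univ, Set.image_univ]
      exact Set.subset_union_left
    exact h1 hy
  have hxP : ∀ j, x j ∈ P := fun j => Algebra.subset_adjoin ⟨j, rfl⟩
  have hcP : ∀ c : ℂ, algebraMap ℂ F c ∈ P := fun c => Subalgebra.algebraMap_mem _ c
  have hC : ∀ y, y ∈ C ↔ IsIntegral P y := by
    intro y
    constructor
    · intro hy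
      rw [hCdef] at hy
      induction hy using Algebra.adjoin_induction with
      | mem y hy =>
        rw [Finset.coe_union] at hy
        rcases hy with hy | hy
        · rw [Finset.coe_image] at hy
          obtain ⟨j, -, rfl⟩ := hy
          exact hPint _ (hxP j)
        · exact hs1 hy
      | algebraMap c => exact hPint _ (hcP c)
      | add y z _ _ h1 h2 => exact h1.add h2
      | mul y z _ _ h1 h2 => exact h1.mul h2
    · intro hy
      have h1 : ∀ y ∈ Submodule.span P (s : Set F), y ∈ C := by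
        intro y hy
        induction hy using Submodule.span_induction with
        | mem y hy =>
          rw [hCdef]
          exact Algebra.subset_adjoin (by rw [Finset.coe_union]; exact Or.inr hy)
        | zero => exact C.zero_mem
        | add y z _ _ h1 h2 => exact C.add_mem h1 h2
        | smul c y _ h1 => exact C.mul_mem (hPC c c.2) h1
      exact h1 y (hs2 y hy)
  refine ⟨C, ⟨_, hCdef.symm⟩, ?_, hC⟩
  intro z
  have halg : IsAlgebraic P z := by
    have h1 := hx.isAlgebraic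
    have h2 : IsAlgebraic (Algebra.adjoin ℂ (Set.range x)) z := h1.isAlgebraic z
    exact h2
  obtain ⟨y, hy0, hy⟩ := halg.exists_integral_multiple
  have h1 : (y : F) ≠ 0 := fun h => hy0 (Subtype.ext h)
  refine ⟨⟨y • z, (hC _).2 hy⟩, ⟨y, hPC y y.2⟩, h1, ?_⟩
  change z = ((y : F) * z) / y
  rw [mul_div_cancel_left₀ _ h1]

/-- localizations of integrally closed rings -/
theorem prD_closed {C O₁ : Subalgebra ℂ F} (h : LocAt C O₁)
    (hC : ∀ y : F, IsIntegral C y → y ∈ C) {y : F} (hy : IsIntegral O₁ y) : y ∈ O₁ := by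
  have hle := h.le
  obtain ⟨Q, hQ, hO⟩ := h
  let _ : Algebra C O₁ := (Subalgebra.inclusion hle).toRingHom.toAlgebra
  have : IsScalarTower C O₁ F := IsScalarTower.of_algebraMap_eq fun _ => rfl
  have hl : IsLocalization.AtPrime O₁ Q := prR_isLocalization hle Q hO
  obtain ⟨b, hb⟩ := hy.exists_multiple_integral_of_isLocalization Q.primeCompl
  have h1 : ((b : C) : F) * y ∈ C := hC _ hb
  have h0 : ((b : C) : F) ≠ 0 := by
    intro h0
    apply b.2
    have : (b : C) = 0 := Subtype.ext h0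
    rw [this]
    exact Q.zero_mem
  rw [hO]
  refine ⟨⟨_, h1⟩, b, b.2, ?_⟩
  change y = ((b : C) : F) * y / ((b : C) : F)
  rw [mul_div_cancel_left₀ _ h0]

/-- a discrete valuation ring with a residue field of transcendence degree `n` is a prime divisor

PROOF. `F` is a finite extension of `ℂ(π, t)`; the integral closure `C` of `ℂ[π, t]` in `F` is
finitely generated and contained in `O`; the center `q` of `O` on `C` lies over `(π)`, the localization
`C_q` is a discrete valuation ring (`C` is normal, `q` is of height one) contained in `O ≠ F`, so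
`O = C_q`. -/
theorem prim_of_ri {n : ℕ} (hd : Algebra.trdeg ℂ F = (n + 1 : ℕ))
    (hF : ∃ A : Subalgebra ℂ F, A.FG ∧ FracEq A) {π : F} (hπ : Unif O π)
    (hfr : FracEq O) (hdvr : IsDiscreteValuationRing O) {t : Fin n → F} (ht : RI O t) :
    PrimDiv O := by
  have hb := prD_tb hd hπ ht
  obtain ⟨C, hCfg, hCfr, hC⟩ := prD_icl hb hF
  set P : Subring F :=
    (Algebra.adjoin ℂ (Set.range (Fin.cons π t : Fin (n + 1) → F))).toSubring with hPdef
  have hPev : ∀ y ∈ P, ∃ Q : MvPolynomial (Fin (n + 1)) ℂ,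
      MvPolynomial.aeval (Fin.cons π t : Fin (n + 1) → F) Q = y := by
    intro y hy
    have hy' : y ∈ Algebra.adjoin ℂ (Set.range (Fin.cons π t : Fin (n + 1) → F)) := hy
    rw [Algebra.adjoin_range_eq_range_aeval] at hy'
    exact hy'
  have hevP : ∀ Q : MvPolynomial (Fin (n + 1)) ℂ,
      MvPolynomial.aeval (Fin.cons π t : Fin (n + 1) → F) Q ∈ P := by
    intro Q
    show _ ∈ Algebra.adjoin ℂ (Set.range (Fin.cons π t : Fin (n + 1) → F))
    rw [Algebra.adjoin_range_eq_range_aeval]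
    exact ⟨Q, rfl⟩
  have hPu : ∀ β ∈ P, β ≠ 0 → ∃ (k : ℕ) (u : F), u ∈ P ∧ Un O u ∧ β = π ^ k * u := by
    intro β hβ hβ0
    obtain ⟨Q, rfl⟩ := hPev β hβ
    have hQ0 : Q ≠ 0 := by
      rintro rfl
      exact hβ0 (map_zero _)
    obtain ⟨k, R, hR, hQR⟩ := prD_pow hπ ht hQ0
    exact ⟨k, _, hevP R, hR, hQR⟩
  have hPO : ∀ y ∈ P, y ∈ O := by
    intro y hy
    obtain ⟨Q, rfl⟩ := hPev y hy
    exact prD_mem hπ.1 ht.mem Q
  have hPC : ∀ y ∈ P, y ∈ C := by
    intro y hy
    rw [hC]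
    have : y = algebraMap P F ⟨y, hy⟩ := rfl
    rw [this]
    exact isIntegral_algebraMap
  have := isFractionRing_of_fracEq hfr
  have hn : ∀ y : F, IsIntegral O y → y ∈ O := by
    intro y hy
    obtain ⟨z, hz⟩ := (IsIntegrallyClosed.isIntegral_iff (R := O) (K := F)).1 hy
    rw [← hz]
    exact z.2
  have hCO : C ≤ O := by
    intro y hy
    refine hn y ?_
    have h1 : IsIntegral P y := (hC y).1 hy
    let ι : P →+* O :=
      { toFun := fun a => ⟨a, hPO a a.2⟩
        map_one' := rfl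
        map_mul' := fun _ _ => rfl
        map_zero' := rfl
        map_add' := fun _ _ => rfl }
    let _ : Algebra P O := ι.toAlgebra
    have : IsScalarTower P O F := IsScalarTower.of_algebraMap_eq fun _ => rfl
    exact h1.tower_top
  have hCC : ∀ y : F, IsIntegral C y → y ∈ C := by
    intro y hy
    rw [hC]
    let ι : P →+* C :=
      { toFun := fun a => ⟨a, hPC a a.2⟩
        map_one' := rfl
        map_mul' := fun _ _ => rfl
        map_zero' := rfl
        map_add' := fun _ _ => rfl }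
    let _ : Algebra P C := ι.toAlgebra
    have : IsScalarTower P C F := IsScalarTower.of_algebraMap_eq fun _ => rfl
    have : Algebra.IsIntegral P C := ⟨fun x => by
      rw [← isIntegral_algebraMap_iff (B := F) (Subtype.val_injective)]
      exact (hC x).1 x.2⟩
    exact isIntegral_trans y hy
  have hlr : IsLocalRing O := inferInstance
  have hloc : LocAt C (locOf C O hCO) := locAt_locOf hCO hlr
  have hdom : Dom (locOf C O hCO) O := dom_locOf hCO
  suffices hO : O = locOf C O hCO by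
    refine ⟨hdvr, hfr, C, hCfg, ?_⟩
    rw [hO]
    exact hloc
  refine le_antisymm (fun x hx => ?_) hdom.1
  by_contra hx1
  generalize locOf C O hCO = O₁ at hloc hdom hx1
  have hCO₁ := hloc.le
  have hfr1 : FracEq O₁ := by
    intro y
    obtain ⟨a, b, hb, hab⟩ := hCfr y
    exact ⟨⟨a, hCO₁ a.2⟩, ⟨b, hCO₁ b.2⟩, hb, hab⟩
  have hfrac1 := isFractionRing_of_fracEq hfr1
  have hic1 : IsIntegrallyClosed O₁ :=
    isIntegrallyClosed_of_normal hfr1 fun y hy => prD_closed hloc hCC hy
  have hnr1 := hloc.isNoetherianRing hCfg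
  have hlr1 := hloc.isLocalRing
  obtain ⟨p, hp, hh, hxp, hv⟩ := _root_.KM.h1 (C := O₁) (L := F) (F := x) fun c hc => hx1 (by
    rw [← hc]
    exact c.2)
  have hPO₁ : ∀ y ∈ P, y ∈ O₁ := fun y hy => hCO₁ (hPC y hy)
  let ι : P →+* O₁ :=
    { toFun := fun a => ⟨a, hPO₁ a a.2⟩
      map_one' := rfl
      map_mul' := fun _ _ => rfl
      map_zero' := rfl
      map_add' := fun _ _ => rfl }
  let _ : Algebra P O₁ := ι.toAlgebra
  have htow : IsScalarTower P O₁ F := IsScalarTower.of_algebraMap_eq fun _ => rfl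
  have hint : ∀ a : O₁, (a : F) ∈ C → IsIntegral P a := by
    intro a ha
    rw [← isIntegral_algebraMap_iff (B := F) (Subtype.val_injective)]
    exact (hC a).1 ha
  -- elements of `P` which are units of `O` are units of `O₁`
  have hunit : ∀ u ∈ P, ∀ hu : Un O u, ∀ hu1 : u ∈ O₁, IsUnit (⟨u, hu1⟩ : O₁) := by
    intro u huP hu hu1
    rw [pt_isUnit_iff]
    exact ⟨hu.1, hdom.2 u hu1 hu.2.2⟩
  have hnum : ∀ c : O₁, ∃ a b : O₁, (a : F) ∈ C ∧ IsUnit b ∧ a = c * b := by
    intro c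
    obtain ⟨-, -, h3⟩ := pt_locAt_iff.1 hloc
    obtain ⟨a, ha, b, hb, hb0, hbO, hab⟩ := h3 c c.2
    refine ⟨⟨a, hCO₁ ha⟩, ⟨b, hCO₁ hb⟩, ha, ?_, Subtype.ext ?_⟩
    · rw [pt_isUnit_iff]
      exact ⟨hb0, hbO⟩
    · change a = (c : F) * b
      rw [hab, div_mul_cancel₀ _ hb0]
  have hπO₁ : π ∈ O₁ := hPO₁ π (Algebra.subset_adjoin ⟨0, rfl⟩)
  have hπp : (⟨π, hπO₁⟩ : O₁) ∈ p := by
    have hp0 : p ≠ ⊥ := Ideal.ne_bot_of_height_eq_one hh
    obtain ⟨c, hc, hc0⟩ := Submodule.exists_mem_ne_zero_of_ne_bot hp0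
    obtain ⟨a, b, haC, hbu, hab⟩ := hnum c
    have hap : a ∈ p := by
      rw [hab]
      exact p.mul_mem_right _ hc
    have ha0 : a ≠ 0 := by
      rw [hab]
      exact mul_ne_zero hc0 hbu.ne_zero
    have h1 := Ideal.comap_ne_bot_of_integral_mem ha0 hap (hint a haC)
    obtain ⟨β, hβ, hβ0⟩ := Submodule.exists_mem_ne_zero_of_ne_bot h1
    have hβF : (β : F) ≠ 0 := fun h => hβ0 (Subtype.ext h)
    obtain ⟨k, u, huP, hu, hβu⟩ := hPu β β.2 hβF
    have h2 : (⟨π, hπO₁⟩ : O₁) ^ k * ⟨u, hPO₁ u huP⟩ ∈ p := by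
      have e1 : (⟨π, hπO₁⟩ : O₁) ^ k * ⟨u, hPO₁ u huP⟩ = algebraMap P O₁ β :=
        Subtype.ext hβu.symm
      rw [e1]
      exact hβ
    rcases hp.mem_or_mem h2 with h3 | h3
    · exact hp.mem_of_pow_mem _ h3
    · exact absurd (Ideal.eq_top_of_isUnit_mem _ h3 (hunit u huP hu _)) hp.ne_top
  -- the prime ideal is the maximal ideal
  have hmax : ∀ z : O₁, ¬ IsUnit z → z ∈ p := by
    intro z hz
    obtain ⟨a, b, haC, hbu, hab⟩ := hnum z
    have ha : a ∈ p := by
      by_contra ha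
      have haM : a ∈ IsLocalRing.maximalIdeal O₁ := by
        rw [hab]
        exact Ideal.mul_mem_right _ _ ((IsLocalRing.mem_maximalIdeal z).2 hz)
      have hlt := Ideal.comap_lt_comap_of_integral_mem_sdiff
        (IsLocalRing.le_maximalIdeal hp.ne_top) ⟨haM, ha⟩ (hint a haC)
      obtain ⟨β, hβM, hβp⟩ := Set.exists_of_ssubset hlt
      have hβF : (β : F) ≠ 0 := by
        intro h
        apply hβp
        have : β = 0 := Subtype.ext h
        rw [this]
        exact Submodule.zero_mem _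
      obtain ⟨k, u, huP, hu, hβu⟩ := hPu β β.2 hβF
      have e1 : (⟨π, hπO₁⟩ : O₁) ^ k * ⟨u, hPO₁ u huP⟩ = algebraMap P O₁ β :=
        Subtype.ext hβu.symm
      rcases Nat.eq_zero_or_pos k with hk | hk
      · rw [hk, pow_zero, one_mul] at e1
        have h4 : algebraMap P O₁ β ∈ IsLocalRing.maximalIdeal O₁ := hβM
        rw [← e1, IsLocalRing.mem_maximalIdeal] at h4
        exact h4 (hunit u huP hu _)
      · apply hβp
        change algebraMap P O₁ β ∈ p
        rw [← e1]
        exact p.mul_mem_right _ (Ideal.pow_mem_of_mem p hπp k hk)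
    rw [hab] at ha
    rcases hp.mem_or_mem ha with h | h
    · exact h
    · exact absurd (Ideal.eq_top_of_isUnit_mem _ h hbu) hp.ne_top
  rcases hv x with ⟨a, b, hb, hab⟩ | ⟨a, b, hb, hab⟩
  · exact hxp a b hb hab
  · have hbu : IsUnit b := by
      by_contra h
      exact hb (hmax b h)
    rw [pt_isUnit_iff] at hbu
    have h1 : x⁻¹ ∈ O₁ := by
      rw [hab, div_eq_mul_inv]
      exact O₁.mul_mem a.2 hbu.2
    have h2 := hdom.2 x⁻¹ h1 (by rw [inv_inv]; exact hx)
    rw [inv_inv] at h2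
    exact hx1 h2

end Pool.Agent.KM
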