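import Pool.Agent.Lib.MP_732f67_ag.N.OrdA
import Pool.Agent.Lib.MP_732f67_ag.N.Dmn
import Pool.Agent.Lib.MP_732f67_ag.N.PrR
import Pool.Agent.Lib.MP_732f67_ag.N.PrD

/-!
Part N: prime divisors in a finite extension of function fields.
-/

namespace Pool.Agent.KM

variable {F F' : Type} [Field F] [Algebra ℂ F] [Field F'] [Algebra ℂ F'] {i : F →ₐ[ℂ] F'}
  {O : Subalgebra ℂ F} {O' : Subalgebra ℂ F'}

theorem PrC_ne {x : F} (hx : x ≠ 0) : i x ≠ 0 := (map_ne_zero i).2 hx

theorem PrC_mem {x : F} : x ∈ O'.comap i ↔ i x ∈ O' := Iff.rfl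

/-- units of the restriction -/
theorem PrC_un {x : F} : Un (O'.comap i) x ↔ Un O' (i x) := by
  constructor
  · rintro ⟨h0, h1, h2⟩
    refine ⟨PrC_ne h0, h1, ?_⟩
    rw [← map_inv₀]
    exact h2
  · rintro ⟨h0, h1, h2⟩
    refine ⟨fun h => h0 (by rw [h, map_zero]), h1, ?_⟩
    rw [← map_inv₀] at h2
    exact h2

/-- elements integral over a prime divisor belong to it -/
theorem PrC_int (h : PrimDiv O') {y : F'} (hy : IsIntegral O' y) : y ∈ O' := by
  have := h.1
  have := isFractionRing_of_fracEq h.2.1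
  have hic : IsIntegrallyClosed O' := inferInstance
  obtain ⟨z, rfl⟩ := (isIntegrallyClosed_iff F').1 hic hy
  exact z.2

/-- the restriction is not the whole field -/
theorem PrC_exists (hfin : (i : F →+* F').Finite) (h : PrimDiv O') :
    ∃ x : F, x ≠ 0 ∧ 0 < oD O' (i x) := by
  by_contra hcon
  push Not at hcon
  have hall : ∀ x : F, i x ∈ O' := by
    intro x
    by_cases hx : x = 0
    · rw [hx, map_zero]
      exact O'.zero_mem
    · have h1 := hcon x⁻¹ (inv_ne_zero hx)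
      rw [map_inv₀, oD_inv h (PrC_ne hx)] at h1
      exact (oD_nonneg h (PrC_ne hx)).1 (by omega)
  obtain ⟨π, hπ⟩ := h.exists_unif
  refine hπ.2.1 (PrC_int h ?_)
  obtain ⟨p, hp, hp0⟩ := hfin.to_isIntegral π⁻¹
  let g : F →+* O' :=
    { toFun := fun x => ⟨i x, hall x⟩
      map_one' := Subtype.ext (map_one i)
      map_mul' := fun x y => Subtype.ext (map_mul i _ _)
      map_zero' := Subtype.ext (map_zero i)
      map_add' := fun x y => Subtype.ext (map_add i _ _) }
  refine ⟨p.map g, hp.map g, ?_⟩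
  rw [Polynomial.eval₂_map]
  exact hp0

/-- a uniformizer of the restriction -/
theorem PrC_unif (hfin : (i : F →+* F').Finite) (h : PrimDiv O') :
    ∃ π : F, π ≠ 0 ∧ 0 < oD O' (i π) ∧
      ∀ x : F, x ≠ 0 → 0 < oD O' (i x) → oD O' (i π) ≤ oD O' (i x) := by
  classical
  have hex : ∃ n : ℕ, ∃ x : F, x ≠ 0 ∧ 0 < oD O' (i x) ∧ oD O' (i x) = n := by
    obtain ⟨x, hx, hx0⟩ := PrC_exists hfin h
    exact ⟨(oD O' (i x)).toNat, x, hx, hx0, by omega⟩
  obtain ⟨π, hπ0, hπ, hπn⟩ := Nat.find_spec hex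
  refine ⟨π, hπ0, hπ, fun x hx hx0 => ?_⟩
  by_contra hlt
  push Not at hlt
  have h1 := Nat.find_min' hex ⟨x, hx, hx0, (Int.toNat_of_nonneg hx0.le).symm⟩
  omega

theorem PrC_frac (h : PrimDiv O') : FracEq (O'.comap i) := by
  intro x
  by_cases hx : x = 0
  · exact ⟨0, 1, one_ne_zero, by rw [hx]; simp⟩
  rcases le_total 0 (oD O' (i x)) with h1 | h1
  · exact ⟨⟨x, (oD_nonneg h (PrC_ne hx)).1 h1⟩, 1, one_ne_zero, by simp⟩
  · have h2 : x⁻¹ ∈ O'.comap i := by
      rw [PrC_mem, map_inv₀]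
      refine (oD_nonneg h (inv_ne_zero (PrC_ne hx))).1 ?_
      rw [oD_inv h (PrC_ne hx)]
      omega
    exact ⟨1, ⟨x⁻¹, h2⟩, inv_ne_zero hx, by simp⟩

/-- the restriction is a discrete valuation ring -/
theorem PrC_dvr (hfin : (i : F →+* F').Finite) (h : PrimDiv O') :
    ∃ π : F, Unif (O'.comap i) π ∧ IsDiscreteValuationRing (O'.comap i) := by
  obtain ⟨π, hπ0, hπ, hmin⟩ := PrC_unif hfin h
  have hi0 := PrC_ne (i := i) hπ0
  have hu : Unif (O'.comap i) π := by
    refine ⟨(oD_nonneg h hi0).1 hπ.le, fun h1 => ?_, fun x hx => ?_⟩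
    · rw [PrC_mem, map_inv₀, ← oD_nonneg h (inv_ne_zero hi0), oD_inv h hi0] at h1
      omega
    · by_cases hx0 : x = 0
      · left
        rw [hx0, inv_zero]
        exact Subalgebra.zero_mem _
      have h1 := (oD_nonneg h (PrC_ne hx0)).2 hx
      rcases h1.eq_or_lt with h2 | h2
      · left
        exact (PrC_un.2 ((oD_zero h (PrC_ne hx0)).1 h2.symm)).2.2
      · right
        rw [PrC_mem, map_div₀, ← oD_nonneg h (div_ne_zero (PrC_ne hx0) hi0),
          oD_div h (PrC_ne hx0) hi0]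
        have := hmin x hx0 h2
        omega
  refine ⟨π, hu, IsDiscreteValuationRing.ofHasUnitMulPowIrreducibleFactorization ?_⟩
  refine ⟨⟨π, hu.1⟩, hu.irreducible, ?_⟩
  rintro ⟨x, hx⟩ hx0
  have hx0' : x ≠ 0 := fun h1 => hx0 (Subtype.ext h1)
  have h1 := (oD_nonneg h (PrC_ne hx0')).2 hx
  obtain ⟨n, hn⟩ : ∃ n : ℕ, oD O' (i x) = n * oD O' (i π) := by
    refine ⟨(oD O' (i x) / oD O' (i π)).toNat, ?_⟩
    rw [Int.toNat_of_nonneg (Int.ediv_nonneg h1 hπ.le)]
    by_contra h2
    have h3 : oD O' (i (x / π ^ (oD O' (i x) / oD O' (i π)))) = oD O' (i x) % oD O' (i π) := by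
      rw [map_div₀, map_zpow₀, oD_div h (PrC_ne hx0') (zpow_ne_zero _ hi0), oD_zpow h hi0,
        Int.emod_def]
      ring
    have h4 := Int.emod_nonneg (oD O' (i x)) hπ.ne'
    have h5 := Int.emod_lt_of_pos (oD O' (i x)) hπ
    have h6 := Int.emod_add_mul_ediv (oD O' (i x)) (oD O' (i π))
    have h7 : 0 < oD O' (i x) % oD O' (i π) := by
      refine lt_of_le_of_ne h4 fun h8 => h2 ?_
      rw [← h8, zero_add] at h6
      rw [mul_comm]
      exact h6.symm
    have h8 := hmin _ (div_ne_zero hx0' (zpow_ne_zero _ hπ0)) (by rw [h3]; exact h7)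
    rw [h3] at h8
    omega
  refine ⟨n, ?_⟩
  have h2 : Un (O'.comap i) (x / π ^ n) := by
    rw [PrC_un, ← oD_zero h (PrC_ne (div_ne_zero hx0' (pow_ne_zero n hπ0))), map_div₀, map_pow,
      oD_div h (PrC_ne hx0') (pow_ne_zero n hi0), oD_pow h hi0, hn, sub_self]
  have h3 : IsUnit (⟨x / π ^ n, h2.2.1⟩ : O'.comap i) := (pt_isUnit_iff _).2 ⟨h2.1, h2.2.2⟩
  obtain ⟨u, hu'⟩ := h3
  refine ⟨u, Subtype.ext ?_⟩
  change π ^ n * ((u : O'.comap i) : F) = x
  rw [hu']
  exact mul_div_cancel₀ _ (pow_ne_zero n hπ0)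

/-- algebraically independent residues -/
theorem PrC_ri {K : Type} [Field K] [Algebra ℂ K] {R : Subalgebra ℂ K} [IsLocalRing R] {n : ℕ}
    (t : Fin n → R) : RI R (fun l => (t l : K)) ↔
      AlgebraicIndependent ℂ (fun l => IsLocalRing.residue R (t l)) := by
  have h1 : ∀ P : MvPolynomial (Fin n) ℂ, MvPolynomial.aeval (fun l => (t l : K)) P =
      ((MvPolynomial.aeval t P : R) : K) := fun P =>
    (MvPolynomial.comp_aeval_apply t R.val P).symm
  have h2 : ∀ P : MvPolynomial (Fin n) ℂ,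
      MvPolynomial.aeval (fun l => IsLocalRing.residue R (t l)) P =
      IsLocalRing.residue R (MvPolynomial.aeval t P) := fun P =>
    (MvPolynomial.comp_aeval_apply t
      (IsScalarTower.toAlgHom ℂ R (IsLocalRing.ResidueField R)) P).symm
  have h3 : ∀ x : R, Un R (x : K) ↔ IsLocalRing.residue R x ≠ 0 := by
    intro x
    rw [Ne, IsLocalRing.residue_eq_zero_iff, IsLocalRing.mem_maximalIdeal, mem_nonunits_iff,
      not_not, pt_isUnit_iff]
    exact ⟨fun h => ⟨h.1, h.2.2⟩, fun h => ⟨h.1, x.2, h.2⟩⟩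
  rw [algebraicIndependent_iff]
  constructor
  · intro h P hP
    by_contra hP0
    have h4 := h P hP0
    rw [h1, h3] at h4
    rw [h2] at hP
    exact h4 hP
  · intro h P hP0
    rw [h1, h3]
    intro h4
    rw [← h2] at h4
    exact hP0 (h P h4)

/-- the residue field of `O'` is algebraic over the residue field of the restriction -/
theorem PrC_res (hfin : (i : F →+* F').Finite) (h : PrimDiv O') [IsLocalRing O']
    [IsLocalRing (O'.comap i)] {n : ℕ} {t' : Fin n → F'} (ht : RI O' t') :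
    ∃ t : Fin n → F, RI (O'.comap i) t := by
  classical
  obtain ⟨f, hf⟩ : ∃ f : O'.comap i →ₐ[ℂ] O', ∀ x, (f x : F') = i x :=
    ⟨{ toFun := fun x => ⟨i x, x.2⟩
       map_one' := Subtype.ext (map_one i)
       map_mul' := fun x y => Subtype.ext (map_mul i _ _)
       map_zero' := Subtype.ext (map_zero i)
       map_add' := fun x y => Subtype.ext (map_add i _ _)
       commutes' := fun c => Subtype.ext (i.commutes c) }, fun x => rfl⟩
  have hloc : IsLocalHom (f : O'.comap i →+* O') := ⟨fun x hx => by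
    rw [pt_isUnit_iff] at hx ⊢
    have hx' : i (x : F) ≠ 0 ∧ (i (x : F))⁻¹ ∈ O' := by
      rw [← hf]
      exact hx
    refine ⟨fun h0 => hx'.1 (by rw [h0, map_zero]), ?_⟩
    rw [PrC_mem, map_inv₀]
    exact hx'.2⟩
  let g : IsLocalRing.ResidueField (O'.comap i) →+* IsLocalRing.ResidueField O' :=
    IsLocalRing.ResidueField.map (f : O'.comap i →+* O')
  have hg : ∀ x, g (IsLocalRing.residue _ x) = IsLocalRing.residue _ (f x) := fun x => rfl
  let _ : Algebra (IsLocalRing.ResidueField (O'.comap i)) (IsLocalRing.ResidueField O') :=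
    g.toAlgebra
  have hgm : ∀ x, algebraMap (IsLocalRing.ResidueField (O'.comap i))
    (IsLocalRing.ResidueField O') x = g x := fun x => rfl
  have htow : IsScalarTower ℂ (IsLocalRing.ResidueField (O'.comap i))
      (IsLocalRing.ResidueField O') := by
    refine IsScalarTower.of_algebraMap_eq fun c => ?_
    rw [hgm]
    have h1 : algebraMap ℂ (IsLocalRing.ResidueField (O'.comap i)) c =
        IsLocalRing.residue _ (algebraMap ℂ (O'.comap i) c) := rfl
    have h2 : algebraMap ℂ (IsLocalRing.ResidueField O') c =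
        IsLocalRing.residue _ (algebraMap ℂ O' c) := rfl
    rw [h1, h2, hg, f.commutes]
  have halg : Algebra.IsAlgebraic (IsLocalRing.ResidueField (O'.comap i))
      (IsLocalRing.ResidueField O') := by
    refine ⟨fun z => ?_⟩
    obtain ⟨y, rfl⟩ := IsLocalRing.residue_surjective z
    obtain ⟨p, hp, hp0⟩ := hfin.to_isIntegral (y : F')
    obtain ⟨j, hj, hjmin⟩ := Finset.exists_min_image p.support
      (fun j => oD O' (i (p.coeff j))) (Polynomial.support_nonempty.2 hp.ne_zero)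
    have hc0 : p.coeff j ≠ 0 := Polynomial.mem_support_iff.1 hj
    have hlift : ∃ q : Polynomial (O'.comap i), q.map (algebraMap (O'.comap i) F) =
        Polynomial.C (p.coeff j)⁻¹ * p := by
      rw [← Polynomial.mem_lifts, Polynomial.lifts_iff_coeff_lifts]
      intro m
      rw [Polynomial.coeff_C_mul]
      refine ⟨⟨(p.coeff j)⁻¹ * p.coeff m, ?_⟩, rfl⟩
      by_cases hm : p.coeff m = 0
      · rw [hm, mul_zero]
        exact Subalgebra.zero_mem _
      · have h1 := hjmin m (Polynomial.mem_support_iff.2 hm)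
        rw [PrC_mem, ← oD_nonneg h (PrC_ne (mul_ne_zero (inv_ne_zero hc0) hm)), map_mul, map_inv₀,
          oD_mul h (inv_ne_zero (PrC_ne hc0)) (PrC_ne hm), oD_inv h (PrC_ne hc0)]
        omega
    obtain ⟨q, hq⟩ := hlift
    refine ⟨q.map (IsLocalRing.residue _), fun hq0 => ?_, ?_⟩
    · have h1 : q.coeff j = 1 := by
        have h2 := congrArg (fun r => Polynomial.coeff r j) hq
        rw [Polynomial.coeff_map, Polynomial.coeff_C_mul, inv_mul_cancel₀ hc0] at h2
        exact Subtype.ext h2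
      have h2 := congrArg (fun r => Polynomial.coeff r j) hq0
      rw [Polynomial.coeff_map, h1, map_one, Polynomial.coeff_zero] at h2
      exact one_ne_zero h2
    · have h1 : q.eval₂ (f : O'.comap i →+* O') y = 0 := by
        apply Subtype.ext
        have h2 : ((q.eval₂ (f : O'.comap i →+* O') y : O') : F') =
            q.eval₂ ((algebraMap O' F').comp (f : O'.comap i →+* O')) (y : F') :=
          Polynomial.hom_eval₂ q _ (algebraMap O' F') y
        rw [h2]
        have h3 : (algebraMap O' F').comp (f : O'.comap i →+* O') =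
            (i : F →+* F').comp (algebraMap (O'.comap i) F) := RingHom.ext fun x => hf x
        rw [h3, ← Polynomial.eval₂_map, hq, Polynomial.eval₂_mul, hp0, mul_zero]
        rfl
      rw [Polynomial.aeval_def, Polynomial.eval₂_map]
      have h2 : (algebraMap (IsLocalRing.ResidueField (O'.comap i))
          (IsLocalRing.ResidueField O')).comp (IsLocalRing.residue (O'.comap i)) =
          (IsLocalRing.residue O').comp (f : O'.comap i →+* O') := RingHom.ext fun x => rfl
      rw [h2, ← Polynomial.hom_eval₂, h1, map_zero]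
  -- transcendence degrees
  have htm : ∀ l, t' l ∈ O' := ht.mem
  have hai := (PrC_ri (R := O') (fun l => (⟨t' l, htm l⟩ : O'))).1 ht
  have hle := hai.cardinalMk_le_trdeg
  rw [Cardinal.mk_fin, ← trdeg_add_eq ℂ (IsLocalRing.ResidueField (O'.comap i))
    (A := IsLocalRing.ResidueField O'),
    trdeg_eq_zero (R := IsLocalRing.ResidueField (O'.comap i)), add_zero] at hle
  obtain ⟨ι, x, hx⟩ := exists_isTranscendenceBasis' ℂ
    (IsLocalRing.ResidueField (O'.comap i))
  rw [← hx.cardinalMk_eq_trdeg, ← Cardinal.mk_fin] at hle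
  obtain ⟨e⟩ := hle
  have hx' := hx.1.comp e e.injective
  choose s hs using fun l => IsLocalRing.residue_surjective ((x ∘ e) l)
  refine ⟨fun l => (s l : F), (PrC_ri s).2 ?_⟩
  have h4 : (fun l => IsLocalRing.residue (O'.comap i) (s l)) = x ∘ e := funext hs
  rw [h4]
  exact hx'

/-- the transcendence degree -/
theorem PrC_trdeg (hfin : (i : F →+* F').Finite)
    (hF : ∃ A : Subalgebra ℂ F, A.FG ∧ FracEq A) (h : PrimDiv O') :
    ∃ n : ℕ, Algebra.trdeg ℂ F = (n + 1 : ℕ) ∧ Algebra.trdeg ℂ F' = (n + 1 : ℕ) := by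
  obtain ⟨A, hA, hfr⟩ := hF
  have hft : Algebra.FiniteType ℂ A := (Subalgebra.fg_iff_finiteType A).1 hA
  have hfrac := isFractionRing_of_fracEq hfr
  have h1 : Algebra.trdeg ℂ A < Cardinal.aleph0 := trdeg_lt_aleph0_of_finiteType
  have halgA : Algebra.IsAlgebraic A F := IsLocalization.isAlgebraic F (nonZeroDivisors A)
  have h2 : Algebra.trdeg ℂ F = Algebra.trdeg ℂ A := by
    rw [← trdeg_add_eq ℂ A (A := F), trdeg_eq_zero (R := A), add_zero]
  let _ : Algebra F F' := (i : F →+* F').toAlgebra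
  have htow : IsScalarTower ℂ F F' := IsScalarTower.of_algebraMap_eq fun c => (i.commutes c).symm
  have halg : Algebra.IsAlgebraic F F' := by
    refine ⟨fun y => ?_⟩
    obtain ⟨p, hp, hp0⟩ := hfin.to_isIntegral y
    exact ⟨p, hp.ne_zero, hp0⟩
  have h3 : Algebra.trdeg ℂ F' = Algebra.trdeg ℂ F := by
    rw [← trdeg_add_eq ℂ F (A := F'), trdeg_eq_zero (R := F), add_zero]
  rw [← h2] at h1
  obtain ⟨N, hN⟩ := Cardinal.lt_aleph0.1 h1
  have hN0 : N ≠ 0 := by
    rintro rfl
    rw [hN, Nat.cast_zero, trdeg_eq_zero_iff] at h3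
    obtain ⟨π, hπ⟩ := h.exists_unif
    refine hπ.2.1 (PrC_int h ?_)
    exact ((h3.isAlgebraic π⁻¹).isIntegral).tower_top
  obtain ⟨n, rfl⟩ := Nat.exists_eq_succ_of_ne_zero hN0
  exact ⟨n, hN, h3.trans hN⟩

/-- the restriction of a prime divisor -/
theorem prim_comap (hfin : (i : F →+* F').Finite)
    (hF : ∃ A : Subalgebra ℂ F, A.FG ∧ FracEq A) (h : PrimDiv O') : PrimDiv (O'.comap i) := by
  obtain ⟨n, hn, hn'⟩ := PrC_trdeg hfin hF h
  obtain ⟨π, hπ, hdvr⟩ := PrC_dvr hfin h
  obtain ⟨t', ht'⟩ := exists_ri hn' h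
  have := h.1
  obtain ⟨t, ht⟩ := PrC_res hfin h ht'
  exact prim_of_ri hn hF hπ (PrC_frac h) hdvr ht

/-- the ramification index -/
theorem exists_ram (h : PrimDiv O') (hO : PrimDiv (O'.comap i)) :
    ∃ r : ℕ, 1 ≤ r ∧ ∀ x : F, x ≠ 0 → oD O' (i x) = r * oD (O'.comap i) x := by
  obtain ⟨π, hπ⟩ := hO.exists_unif
  have hπ0 : i π ≠ 0 := PrC_ne hπ.ne_zero
  have h1 : 0 ≤ oD O' (i π) := (oD_nonneg h hπ0).2 hπ.1
  have h2 : oD O' (i π) ≠ 0 := fun h3 => hπ.2.1 (PrC_un.2 ((oD_zero h hπ0).1 h3)).2.2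
  refine ⟨(oD O' (i π)).toNat, by omega, fun x hx => ?_⟩
  have h3 := (isOrd_iff hπ).1 (oD_spec hO hx)
  have h4 := (oD_zero h (PrC_ne h3.1)).2 (PrC_un.1 h3)
  rw [map_div₀, map_zpow₀, oD_div h (PrC_ne hx) (zpow_ne_zero _ hπ0), oD_zpow h hπ0] at h4
  rw [Int.toNat_of_nonneg h1]
  linarith

/-- the center of a prime divisor of `F'` on `Y'` and of its restriction on `Y` -/
theorem exists_centers {Y : Set (Subalgebra ℂ F)} {Y' : Set (Subalgebra ℂ F')} (hm : Mor i Y Y')
    (h : PrimDiv O') : ∃ O₁ ∈ Y', Dom O₁ O' ∧ cen i Y O₁ ∈ Y ∧ Dom (cen i Y O₁) (O'.comap i) := by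
  let R : ValuationSubring F' :=
    { O'.toSubring with
      mem_or_inv_mem' := fun x => by
        by_cases hx : x = 0
        · left
          rw [hx]
          exact O'.zero_mem
        rcases le_total 0 (oD O' x) with h1 | h1
        · left
          exact (oD_nonneg h hx).1 h1
        · right
          refine (oD_nonneg h (inv_ne_zero hx)).1 ?_
          rw [oD_inv h hx]
          omega }
  obtain ⟨O₁, hO₁, h1, h2⟩ := hm.proj'.exists_center R (fun c => O'.algebraMap_mem c)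
  have hd : Dom O₁ O' := ⟨fun x hx => h1 x hx, fun x hx hx' => h2 x hx hx'⟩
  obtain ⟨h3, h4⟩ := cen_spec (hm.dom O₁ hO₁)
  refine ⟨O₁, hO₁, hd, h3, h4.le_comap.trans ⟨fun x hx => hd.1 hx, fun x hx hx' => ?_⟩⟩
  rw [PrC_mem, map_inv₀] at hx' ⊢
  exact hd.2 (i x) hx hx'

end Pool.Agent.KM
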