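import Pool.Agent.Lib.MP_732f67_ag.N.Defs
import Pool.Agent.Lib.MP_732f67_ag.G.Pol

/-!
Part N: Cartier divisors and their sections, elementary facts.
-/

namespace Pool.Agent.KM

variable {F : Type} [Field F] [Algebra ℂ F] {Y : Set (Subalgebra ℂ F)}
  {D E : Subalgebra ℂ F → Fˣ}

theorem car_mul (h : IsCar Y D) (h' : IsCar Y E) : IsCar Y (D * E) := pol_car_mul h h'

theorem car_inv (h : IsCar Y D) : IsCar Y D⁻¹ := pol_car_inv h

theorem car_div (h : IsCar Y D) (h' : IsCar Y E) : IsCar Y (D / E) := by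
  rw [div_eq_mul_inv]
  exact car_mul h (car_inv h')

theorem car_pow (h : IsCar Y D) (m : ℕ) : IsCar Y (D ^ m) := pol_car_pow h m

theorem car_zpow (h : IsCar Y D) (m : ℤ) : IsCar Y (D ^ m) := by
  rcases Int.eq_nat_or_neg m with ⟨n, rfl | rfl⟩
  · rw [zpow_natCast]
    exact car_pow h n
  · rw [zpow_neg, zpow_natCast]
    exact car_inv (car_pow h n)

theorem car_prod {J : Type*} (s : Finset J) {B : J → Subalgebra ℂ F → Fˣ}
    (h : ∀ j ∈ s, IsCar Y (B j)) : IsCar Y (∏ j ∈ s, B j) :=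
  Finset.prod_induction B (IsCar Y) (fun _ _ h1 h2 => car_mul h1 h2) (pol_car_one Y) h

theorem car_const (u : Fˣ) : IsCar Y (fun _ => u) := by
  intro O _
  refine ⟨∅, fun s hs => absurd hs (Finset.notMem_empty s), fun O' _ _ => ?_⟩
  rw [div_self', Units.val_one]
  exact Un.one O'

theorem car_congr (h : IsCar Y D) (hE : ∀ O ∈ Y, Un O ((E O : F) / D O)) : IsCar Y E := by
  refine pol_car_congr h fun O hO => ?_
  rw [Units.val_div_eq_div_val]
  exact hE O hO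

theorem sec_mul {f g : F} (hf : f ∈ Sec Y D) (hg : g ∈ Sec Y E) : f * g ∈ Sec Y (D * E) := by
  intro O hO
  have h1 : f * g * (((D * E) O : Fˣ) : F) = f * (D O : F) * (g * (E O : F)) := by
    rw [Pi.mul_apply, Units.val_mul]
    ring
  rw [h1]
  exact O.mul_mem (hf O hO) (hg O hO)

theorem sec_pow {f : F} (hf : f ∈ Sec Y D) (m : ℕ) : f ^ m ∈ Sec Y (D ^ m) := by
  induction m with
  | zero =>
    intro O _
    rw [pow_zero, pow_zero, Pi.one_apply, Units.val_one, mul_one]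
    exact O.one_mem
  | succ m ih =>
    rw [pow_succ, pow_succ]
    exact sec_mul ih hf

theorem sec_congr (h : ∀ O ∈ Y, Un O ((D O : F) / E O)) : Sec Y D = Sec Y E := by
  ext f
  constructor
  · intro hf O hO
    have h1 : f * (E O : F) = f * (D O : F) * ((D O : F) / E O)⁻¹ := by
      rw [inv_div, mul_assoc, mul_div_cancel₀ _ (D O).ne_zero]
    rw [h1]
    exact O.mul_mem (hf O hO) (h O hO).2.2
  · intro hf O hO
    have h1 : f * (D O : F) = f * (E O : F) * ((D O : F) / E O) := by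
      rw [mul_assoc, mul_div_cancel₀ _ (E O).ne_zero]
    rw [h1]
    exact O.mul_mem (hf O hO) (h O hO).2.1

theorem sec_const (u : Fˣ) (f : F) : f ∈ Sec Y (D * fun _ => u) ↔ f * u ∈ Sec Y D := by
  have h1 : ∀ O : Subalgebra ℂ F, f * ((D * fun _ => u : Subalgebra ℂ F → Fˣ) O : F) = f * u * (D O : F) := by
    intro O
    rw [Pi.mul_apply, Units.val_mul]
    ring
  constructor
  · intro h O hO
    rw [← h1]
    exact h O hO
  · intro h O hO
    rw [h1]
    exact h O hO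

/-- sections can be tested at the prime divisors (`IsProj.mem_of_primDiv`, `IsCar.un_of_le`) -/
theorem sec_of_prim (hY : IsProj Y) (hn : Normal Y) (h : IsCar Y D) {f : F}
    (hf : ∀ O ∈ Y, PrimDiv O → f * D O ∈ O) : f ∈ Sec Y D := by
  intro O hO
  refine hY.mem_of_primDiv hn hO fun P hP hP' hle => ?_
  have h1 := (h.un_of_le hO hP hle).2.1
  rw [Units.val_div_eq_div_val] at h1
  have h2 : f * (D O : F) = f * (D P : F) * ((D O : F) / D P) := by
    rw [mul_assoc, mul_div_cancel₀ _ (D P).ne_zero]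
  rw [h2]
  exact P.mul_mem (hf P hP hP') h1

theorem bf_congr {V : Submodule ℂ F} (h : BF Y D V) (hD : ∀ O ∈ Y, Un O ((D O : F) / E O)) :
    BF Y E V := by
  refine h.congr fun O hO => ?_
  rw [Units.val_div_eq_div_val]
  exact hD O hO

theorem CarE_pow (hD : ∀ O ∈ Y, Un O ((D O : F) / E O)) (m : ℕ) :
    ∀ O ∈ Y, Un O (((D ^ m) O : F) / (E ^ m) O) := by
  intro O hO
  rw [Pi.pow_apply, Pi.pow_apply, Units.val_pow_eq_pow_val, Units.val_pow_eq_pow_val, ← div_pow]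
  exact (hD O hO).pow m

theorem CarE_const (u : Fˣ) (m : ℕ) :
    (D * fun _ => u) ^ m = D ^ m * fun _ => u ^ m := by
  funext O
  rw [Pi.pow_apply, Pi.mul_apply, Pi.mul_apply, Pi.pow_apply, mul_pow]

theorem CarE_cht (V : Submodule ℂ F) (u : Fˣ) (v : F) :
    cht (V.map (LinearMap.mulLeft ℂ (u : F))) (u * v) = cht V v := by
  have hu := u.ne_zero
  have h1 : {x : F | ∃ w ∈ V.map (LinearMap.mulLeft ℂ (u : F)), x = w / (u * v)} =
      {x : F | ∃ w ∈ V, x = w / v} := by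
    ext x
    constructor
    · rintro ⟨_, ⟨w, hw, rfl⟩, rfl⟩
      exact ⟨w, hw, mul_div_mul_left _ _ hu⟩
    · rintro ⟨w, hw, rfl⟩
      exact ⟨_, ⟨w, hw, rfl⟩, (mul_div_mul_left _ _ hu).symm⟩
  rw [cht, cht, h1]

theorem CarE_pts (V : Submodule ℂ F) (u : Fˣ) :
    Pts (V.map (LinearMap.mulLeft ℂ (u : F))) = Pts V := by
  have hu := u.ne_zero
  ext O
  constructor
  · rintro ⟨_, ⟨v, hv, rfl⟩, hv0, hl⟩
    refine ⟨v, hv, fun h0 => hv0 ?_, ?_⟩
    · rw [h0, map_zero]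
    · rw [LinearMap.mulLeft_apply, CarE_cht] at hl
      exact hl
  · rintro ⟨v, hv, hv0, hl⟩
    refine ⟨(u : F) * v, ⟨v, hv, rfl⟩, mul_ne_zero hu hv0, ?_⟩
    rw [CarE_cht]
    exact hl

theorem amp_congr (h : Amp Y D) (hD : ∀ O ∈ Y, Un O ((D O : F) / E O)) : Amp Y E := by
  obtain ⟨m, hm, V, hV⟩ := h
  exact ⟨m, hm, V, bf_congr hV.toBF (CarE_pow hD m), hV.eq⟩

theorem sf_congr (h : SF Y D) (hD : ∀ O ∈ Y, Un O ((D O : F) / E O)) : SF Y E := by
  obtain ⟨m, hm, V, hV⟩ := h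
  exact ⟨m, hm, V, bf_congr hV (CarE_pow hD m)⟩

/-- linearly equivalent divisors: `V` is replaced by `u⁻¹ V` -/
theorem bf_const {V : Submodule ℂ F} (h : BF Y D V) (u : Fˣ) :
    BF Y (D * fun _ => u) (V.map (LinearMap.mulLeft ℂ (u⁻¹ : Fˣ).val)) := by
  have key : ∀ (O : Subalgebra ℂ F) (f : F),
      (u⁻¹ : Fˣ).val * f * ((D * fun _ => u : Subalgebra ℂ F → Fˣ) O : F) = f * (D O : F) := by
    intro O f
    have hu := u.ne_zero
    rw [Pi.mul_apply, Units.val_mul, Units.val_inv_eq_inv_val]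
    field_simp
  have hf := h.fin
  refine ⟨inferInstance, ?_, fun O hO => ?_⟩
  · rintro _ ⟨f, hf, rfl⟩ O hO
    rw [LinearMap.mulLeft_apply, key]
    exact h.sec hf O hO
  · obtain ⟨f, hf, hun⟩ := h.gen O hO
    refine ⟨_, ⟨f, hf, rfl⟩, ?_⟩
    rw [LinearMap.mulLeft_apply, key]
    exact hun

theorem amp_const (h : Amp Y D) (u : Fˣ) : Amp Y (D * fun _ => u) := by
  obtain ⟨m, hm, V, hV⟩ := h
  refine ⟨m, hm, V.map (LinearMap.mulLeft ℂ ((u ^ m)⁻¹ : Fˣ).val), ?_, ?_⟩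
  · rw [CarE_const]
    exact bf_const hV.toBF (u ^ m)
  · rw [CarE_pts]
    exact hV.eq

theorem sf_const (h : SF Y D) (u : Fˣ) : SF Y (D * fun _ => u) := by
  obtain ⟨m, hm, V, hV⟩ := h
  refine ⟨m, hm, V.map (LinearMap.mulLeft ℂ ((u ^ m)⁻¹ : Fˣ).val), ?_⟩
  rw [CarE_const]
  exact bf_const hV (u ^ m)

end Pool.Agent.KM
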