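import Pool.Agent.Lib.MP_732f67_ag.N.Defs
import Pool.Agent.Lib.MP_732f67_ag.G.Pol
import Pool.Agent.Lib.MP_732f67_ag.N.CarE

/-!
Part N: Cartier divisors and their sections, elementary facts.
-/

namespace Pool.Agent.KM

variable {F : Type} [Field F] [Algebra ℂ F] {Y : Set (Subalgebra ℂ F)}
  {D E : Subalgebra ℂ F → Fˣ}

/-- a Cartier divisor has, up to units, finitely many local equations

PROOF. Compactness (`va2_compact` or `exists_cover`). -/
theorem car_fin (hY : IsProj Y) (h : IsCar Y D) :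
    ∃ T : Finset F, (∀ t ∈ T, t ≠ 0) ∧ ∀ O ∈ Y, ∃ t ∈ T, Un O ((D O : F) / t) := by
  classical
  have h1 : ∀ O : Subalgebra ℂ F, ∃ S : Finset F, O ∈ Y → (∀ s ∈ S, s ∈ O) ∧
      ∀ O' ∈ Y, (∀ s ∈ S, s ∈ O') → Un O' (D O / D O' : Fˣ) := by
    intro O
    by_cases hO : O ∈ Y
    · obtain ⟨S, hS⟩ := h O hO
      exact ⟨S, fun _ => hS⟩
    · exact ⟨∅, fun h2 => absurd h2 hO⟩
  choose S hS using h1
  obtain ⟨T, hTf, hTY, hT⟩ := va2_compact hY (fun O => (S O : Set F)) fun O hO =>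
    ⟨(S O).finite_toSet, fun s hs => (hS O hO).1 s hs⟩
  refine ⟨hTf.toFinset.image fun O => (D O : F), ?_, fun Q hQ => ?_⟩
  · intro t ht
    obtain ⟨O, -, rfl⟩ := Finset.mem_image.1 ht
    exact (D O).ne_zero
  · obtain ⟨O, hO, hs⟩ := hT Q hQ
    refine ⟨D O, Finset.mem_image.2 ⟨O, hTf.mem_toFinset.2 hO, rfl⟩, ?_⟩
    have h2 := ((hS O (hTY hO)).2 Q hQ hs).inv
    rwa [Units.val_div_eq_div_val, inv_div] at h2

end Pool.Agent.KM
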