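import Pool.Agent.Lib.MP_732f67_ag.N.NV
import Pool.Agent.Lib.MP_732f67_ag.N.BaE

/-!
Part N: klt Fano varieties; base loci.
-/

namespace Pool.Agent.KM

variable {F : Type} [Field F] [Algebra ℂ F] {X : Set (Subalgebra ℂ F)} {n : ℕ}
  {Δ : Fin n → Derivation ℂ F F} {m : ℕ} {κ D E : Subalgebra ℂ F → Fˣ}

/-- the log discrepancies of the prime divisors of `X` are `1` (`can`, `sec_of_prim`) -/
theorem KltFano.ls (h : KltFano X Δ m κ) (hE : IsCar X E) {f : F} (hf0 : f ≠ 0)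
    (hf : LS X Δ m κ⁻¹ E f) : f ∈ Sec X E := by
  refine sec_of_prim h.proj h.normal hE fun O hO hOp => ?_
  refine (oD_nonneg hOp (mul_ne_zero hf0 (E O).ne_zero)).1 ?_
  have h1 := h.can.2 O hO hOp _ (oF_spec h.dim hOp h.frame)
  have h2 := baF_LD (Δ := Δ) (κ := κ) (O₀ := O) m h.pos hOp
  rw [oD_eq hOp h1] at h2
  have hm0 : (0 : ℚ) < m := by exact_mod_cast h.pos
  have h3 : LD Δ m O ((κ⁻¹ O : Fˣ) : F) = 1 := by
    push_cast at h2
    have h4 : (m : ℚ) * LD Δ m O ((κ⁻¹ O : Fˣ) : F) = m * 1 := by linarith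
    exact mul_left_cancel₀ hm0.ne' h4
  have h4 := hf O hO hOp
  rw [h3] at h4
  have h5 : (0 : ℤ) < oD O (f * (E O : F)) + 1 := by exact_mod_cast h4
  omega

end Pool.Agent.KM
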