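import Pool.Agent.Lib.MP_732f67_ag.N.Defs
import Pool.Agent.Lib.MP_732f67_ag.N.CarE
import Pool.Agent.Lib.MP_732f67_ag.G.VA2

/-!
Part N: klt Fano varieties; base loci.
-/

namespace Pool.Agent.KM

variable {F : Type} [Field F] [Algebra ℂ F] {X : Set (Subalgebra ℂ F)} {n : ℕ}
  {Δ : Fin n → Derivation ℂ F F} {m : ℕ} {κ D E : Subalgebra ℂ F → Fˣ}

/-- the points over which an open set `U` of local rings lies form an open set of the spectrum -/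
private theorem ban_open {U : Set (Subalgebra ℂ F)} {A : Subalgebra ℂ F}
    (hA : ∀ O, LocAt A O → O ∈ X)
    (hopen : ∀ O ∈ U, O ∈ X → ∃ S : Finset F, (∀ s ∈ S, s ∈ O) ∧
      ∀ O' ∈ X, (∀ s ∈ S, s ∈ O') → O' ∈ U) :
    IsOpen {p : PrimeSpectrum A | covLoc A p.asIdeal ∈ U} := by
  classical
  rw [isOpen_iff_forall_mem_open]
  intro p hp
  obtain ⟨S, hS, hS'⟩ := hopen _ hp (hA _ (covLoc_locAt A p.asIdeal))
  have h1 : ∀ s : S, ∃ a b : A, b ∉ p.asIdeal ∧ (s : F) = a / b := fun s => hS s s.2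
  choose a b hb hab using h1
  refine ⟨PrimeSpectrum.basicOpen (∏ s, b s), ?_, (PrimeSpectrum.basicOpen _).2, ?_⟩
  · intro q hq
    have hq' : ∏ s, b s ∉ q.asIdeal := hq
    refine hS' _ (hA _ (covLoc_locAt A q.asIdeal)) fun s hs => ?_
    refine ⟨a ⟨s, hs⟩, b ⟨s, hs⟩, fun h2 => hq' ?_, hab ⟨s, hs⟩⟩
    exact (Ideal.IsPrime.prod_mem_iff (hp := q.isPrime)).2 ⟨⟨s, hs⟩, Finset.mem_univ _, h2⟩
  · intro h2
    have h3 : ∏ s, b s ∈ p.asIdeal := h2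
    obtain ⟨s, -, hs⟩ := (Ideal.IsPrime.prod_mem_iff (hp := p.isPrime)).1 h3
    exact hb s hs

/-- Increasing sequences of open sets are stationary.

PROOF. `X = Pts V`; it is enough to treat the points with `cht V v ≤ O`, for finitely many `v`: the spectrum
of the noetherian ring `cht V v` is a noetherian space. -/
theorem noeth (hX : IsProj X) {U : ℕ → Set (Subalgebra ℂ F)} (hmono : ∀ u, U u ⊆ U (u + 1))
    (hopen : ∀ u, ∀ O ∈ U u, O ∈ X → ∃ S : Finset F, (∀ s ∈ S, s ∈ O) ∧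
      ∀ O' ∈ X, (∀ s ∈ S, s ∈ O') → O' ∈ U u) :
    ∃ u₀, ∀ u, u₀ ≤ u → ∀ O ∈ X, O ∈ U u → O ∈ U u₀ := by
  classical
  have hm : Monotone U := monotone_nat_of_le_succ hmono
  have h1 : ∀ O : Subalgebra ℂ F, ∃ A : Subalgebra ℂ F, O ∈ X → A.FG ∧ A ≤ O ∧
      ∀ O', LocAt A O' → O' ∈ X := by
    intro O
    by_cases hO : O ∈ X
    · obtain ⟨A, hA, -, hl, hmem⟩ := hX.exists_chart hO
      exact ⟨A, fun _ => ⟨hA, hl.le, hmem⟩⟩
    · exact ⟨⊥, fun h2 => (hO h2).elim⟩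
  choose A hA using h1
  have h2 : ∀ O : Subalgebra ℂ F, ∃ S : Finset F, O ∈ X → Algebra.adjoin ℂ (S : Set F) = A O := by
    intro O
    by_cases hO : O ∈ X
    · obtain ⟨S, hS⟩ := (hA O hO).1
      exact ⟨S, fun _ => hS⟩
    · exact ⟨∅, fun h2 => (hO h2).elim⟩
  choose S hS using h2
  obtain ⟨T, hTf, hTX, hT⟩ := va2_compact hX (fun O => (S O : Set F)) fun O hO =>
    ⟨(S O).finite_toSet, fun s hs => (hA O hO).2.1 (by
      rw [← hS O hO]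
      exact Algebra.subset_adjoin hs)⟩
  have h3 : ∀ O : Subalgebra ℂ F, ∃ u₀ : ℕ, O ∈ X → ∀ u, u₀ ≤ u → ∀ Q ∈ X, A O ≤ Q → Q ∈ U u →
      Q ∈ U u₀ := by
    intro O
    by_cases hO : O ∈ X
    · obtain ⟨hfg, -, hmem⟩ := hA O hO
      have hft : Algebra.FiniteType ℂ (A O) := (Subalgebra.fg_iff_finiteType _).1 hfg
      have hno : IsNoetherianRing (A O) := Algebra.FiniteType.isNoetherianRing ℂ (A O)
      let f : ℕ →o TopologicalSpace.Opens (PrimeSpectrum (A O)) :=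
        ⟨fun u => ⟨{p | covLoc (A O) p.asIdeal ∈ U u}, ban_open hmem (hopen u)⟩,
          fun u u' hu p hp => hm hu hp⟩
      obtain ⟨u₀, hu₀⟩ := WellFoundedGT.monotone_chain_condition f
      refine ⟨u₀, fun _ u hu Q hQ hle hQu => ?_⟩
      have hQl := hX.isLocalRing hQ
      have h4 := locAt_locOf hle hQl
      have h5 : locOf (A O) Q hle = Q :=
        hX.eq_of_dom (hmem _ h4) hQ (dom_locOf hle) (Dom.refl Q)
      rw [h5] at h4
      obtain ⟨P, hP, hPQ⟩ := h4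
      have h6 : covLoc (A O) P = Q := by
        ext x
        exact (hPQ x).symm
      have h7 : (⟨P, hP⟩ : PrimeSpectrum (A O)) ∈ f u := by
        change covLoc (A O) P ∈ U u
        rwa [h6]
      rw [← hu₀ u hu] at h7
      have h8 : covLoc (A O) P ∈ U u₀ := h7
      rwa [h6] at h8
    · exact ⟨0, fun h2 => (hO h2).elim⟩
  choose v hv using h3
  refine ⟨hTf.toFinset.sup v, fun u hu Q hQ hQu => ?_⟩
  obtain ⟨O, hO, hs⟩ := hT Q hQ
  have hOX := hTX hO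
  have hle : A O ≤ Q := by
    rw [← hS O hOX]
    exact Algebra.adjoin_le hs
  have h4 : v O ≤ hTf.toFinset.sup v := Finset.le_sup (hTf.mem_toFinset.2 hO)
  exact hm h4 (hv O hOX u (h4.trans hu) Q hQ hle hQu)

/-- the base locus -/
def Bs (X : Set (Subalgebra ℂ F)) (E : Subalgebra ℂ F → Fˣ) : Set (Subalgebra ℂ F) :=
  {O | O ∈ X ∧ ∀ f ∈ Sec X E, ¬ Un O (f * E O)}

/-- PROOF. `noeth` for `U u` = the complement of `Bs X (D ^ (s ^ u))`; `f ^ s`. -/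
theorem exists_bs (hX : IsProj X) (hD : IsCar X D) {s : ℕ} (hs : 1 ≤ s) :
    ∃ u₀, ∀ u, u₀ ≤ u → Bs X (D ^ s ^ u) = Bs X (D ^ s ^ u₀) := by
  classical
  have hm : ∀ u, {O | ∃ f ∈ Sec X (D ^ s ^ u), Un O (f * (D ^ s ^ u) O)} ⊆
      {O | ∃ f ∈ Sec X (D ^ s ^ (u + 1)), Un O (f * (D ^ s ^ (u + 1)) O)} := by
    rintro u O ⟨f, hf, hu⟩
    refine ⟨f ^ s, ?_, ?_⟩
    · rw [pow_succ, pow_mul]
      exact sec_pow hf s
    · have h1 : f ^ s * ((D ^ s ^ (u + 1)) O : F) = (f * (D ^ s ^ u) O) ^ s := by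
        rw [pow_succ, pow_mul, Pi.pow_apply, Units.val_pow_eq_pow_val, mul_pow]
      rw [h1]
      exact hu.pow s
  obtain ⟨u₀, hu₀⟩ := noeth hX
    (U := fun u => {O | ∃ f ∈ Sec X (D ^ s ^ u), Un O (f * (D ^ s ^ u) O)}) hm (by
    rintro u O ⟨f, hf, hu⟩ hO
    obtain ⟨N, hN, hNO, hN'⟩ := va2_gen (car_pow hD (s ^ u)) hO hu
    refine ⟨hN.toFinset, fun x hx => hNO x (hN.mem_toFinset.1 hx), fun O' hO' h => ?_⟩
    exact ⟨f, hf, hN' O' hO' fun x hx => h x (hN.mem_toFinset.2 hx)⟩)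
  have hm' : Monotone fun u => {O | ∃ f ∈ Sec X (D ^ s ^ u), Un O (f * (D ^ s ^ u) O)} :=
    monotone_nat_of_le_succ hm
  refine ⟨u₀, fun u hu => ?_⟩
  ext O
  constructor
  · rintro ⟨hO, h1⟩
    refine ⟨hO, fun f hf hf' => ?_⟩
    obtain ⟨g, hg, hg'⟩ := hm' hu (show O ∈ _ from ⟨f, hf, hf'⟩)
    exact h1 g hg hg'
  · rintro ⟨hO, h1⟩
    refine ⟨hO, fun f hf hf' => ?_⟩
    obtain ⟨g, hg, hg'⟩ := hu₀ u hu O hO ⟨f, hf, hf'⟩
    exact h1 g hg hg'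

end Pool.Agent.KM
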