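import Pool.Agent.Lib.MP_732f67_ag.N.NV
import Pool.Agent.Lib.MP_732f67_ag.N.BaF
import Pool.Agent.Lib.MP_732f67_ag.N.BaN

/-!
Part N: klt Fano varieties; base loci.
-/

namespace Pool.Agent.KM

variable {F : Type} [Field F] [Algebra ℂ F] {X : Set (Subalgebra ℂ F)} {n : ℕ}
  {Δ : Fin n → Derivation ℂ F F} {m : ℕ} {κ D E : Subalgebra ℂ F → Fˣ}

private theorem baS_mul (h : Free X D) (h' : Free X E) : Free X (D * E) := by
  intro O hO
  obtain ⟨f, hf, hu⟩ := h O hO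
  obtain ⟨g, hg, hu'⟩ := h' O hO
  refine ⟨f * g, sec_mul hf hg, ?_⟩
  have e : f * g * (((D * E) O : Fˣ) : F) = f * (D O : F) * (g * (E O : F)) := by
    rw [Pi.mul_apply, Units.val_mul]
    ring
  rw [e]
  exact hu.mul hu'

private theorem baS_pow (h : Free X D) (a : ℕ) : Free X (D ^ a) := by
  induction a with
  | zero =>
    intro O _
    refine ⟨1, fun O' _ => ?_, ?_⟩
    · rw [pow_zero, Pi.one_apply, Units.val_one, mul_one]
      exact O'.one_mem
    · rw [pow_zero, Pi.one_apply, Units.val_one, mul_one]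
      exact Un.one O
  | succ a ih =>
    rw [pow_succ]
    exact baS_mul ih h

/-- two coprime powers without base points -/
theorem semi_of {p q : ℕ} (hpq : Nat.Coprime p q) (hp : 1 ≤ p) (hq : 1 ≤ q)
    (h : Free X (D ^ p)) (h' : Free X (D ^ q)) : Semi X D := by
  refine ⟨p * q, fun m hm => ?_⟩
  obtain ⟨x, hx1, hx2⟩ := Nat.chineseRemainder hpq m 0
  have hlt : (Nat.chineseRemainder hpq m 0 : ℕ) < p * q :=
    Nat.chineseRemainder_lt_mul hpq m 0 (by omega) (by omega)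
  obtain ⟨x, hx, hx1, hx2⟩ : ∃ x : ℕ, x < p * q ∧ x ≡ m [MOD p] ∧ x ≡ 0 [MOD q] :=
    ⟨_, hlt, (Nat.chineseRemainder hpq m 0).2.1, (Nat.chineseRemainder hpq m 0).2.2⟩
  obtain ⟨b, hb⟩ := (Nat.modEq_zero_iff_dvd.1 hx2)
  obtain ⟨a, ha⟩ := (Nat.modEq_iff_dvd' (by omega : x ≤ m)).1 hx1
  have e : m = p * a + q * b := by omega
  rw [e, pow_add, pow_mul, pow_mul]
  exact baS_mul (baS_pow h a) (baS_pow h' b)

end Pool.Agent.KM
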