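import Pool.Agent.Lib.MP_732f67_ag.N.BpfA

/-!
Part N: the free part of a linear system on a model.
-/

namespace Pool.Agent.KM

private theorem bbF_top {N : ℕ} (hN : 0 < N) (R : Fin N → Fin N → Prop)
    (ht : ∀ k l, R k l ∨ R l k) (htr : ∀ a b c, R a b → R b c → R a c) :
    ∃ k₀, ∀ k, R k k₀ := by
  classical
  have key : ∀ s : Finset (Fin N), s.Nonempty → ∃ k₀ ∈ s, ∀ k ∈ s, R k k₀ := by
    intro s
    induction s using Finset.induction_on with
    | empty =>
      intro h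
      exact absurd h Finset.not_nonempty_empty
    | insert a s ha ih =>
      intro _
      have haa : R a a := (ht a a).elim id id
      rcases s.eq_empty_or_nonempty with rfl | hs
      · refine ⟨a, Finset.mem_insert_self _ _, fun k hk => ?_⟩
        rcases Finset.mem_insert.1 hk with rfl | hk
        · exact haa
        · exact absurd hk (Finset.notMem_empty _)
      · obtain ⟨k₀, hk₀, hk⟩ := ih hs
        rcases ht a k₀ with h | h
        · refine ⟨k₀, Finset.mem_insert_of_mem hk₀, fun k hk' => ?_⟩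
          rcases Finset.mem_insert.1 hk' with rfl | hk'
          · exact h
          · exact hk k hk'
        · refine ⟨a, Finset.mem_insert_self _ _, fun k hk' => ?_⟩
          rcases Finset.mem_insert.1 hk' with rfl | hk'
          · exact haa
          · exact htr _ _ _ (hk k hk') h
  obtain ⟨k₀, -, h⟩ := key Finset.univ ⟨⟨0, hN⟩, Finset.mem_univ _⟩
  exact ⟨k₀, fun k => h k (Finset.mem_univ _)⟩

namespace GMod

variable {F : Type} [Field F] [Algebra ℂ F] {Y : Set (Subalgebra ℂ F)} {d : ℕ}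
  {G : Subgroup (F ≃ₐ[ℂ] F)} {Δ : Fin d → Derivation ℂ F F} {Φ : Finset F}
  {D ν H E : Subalgebra ℂ F → Fˣ} {m : ℕ} (M : GMod d Y G Δ Φ H)

/-- PROOF. `r j` = the minimum over `k` of `oD (P j) (i (f k) * pb E (P j))`, `≥ 0` (`sec_pb`). Let `O' ∈ Y'`. By
`cmp` there is `k₀` with `i (f k / f k₀) ∈ O'` for all `k` (the relation `i (f k / f l) ∈ O'` is total and
transitive on a finite set). If `O' ≤ P j` then the minimum at `P j` is attained for `k₀`; by `sec_exp`
and `bd_le` (`B j O'` is a unit for the other `j`) `i (f k₀) * pb E O' / ∏ B j ^ r j` is a unit. -/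
theorem free_part (hY : Base d Y G Δ) (hE : IsCar Y E) {N : ℕ} (hN : 0 < N)
    {f : Fin N → F} (hf : ∀ k, f k ≠ 0 ∧ f k ∈ Sec Y E) (h1 : ∀ k l, f k / f l ∈ Φ)
    (hG : ∀ k l, ∀ γ ∈ G, γ (f k / f l) = f k / f l)
    (h2 : ∀ k, ∀ O ∈ Y, ∃ t ∈ Φ, Un O (f k * E O / t)) :
    ∃ r : M.J → ℕ,
      (∀ j k, (r j : ℤ) ≤ oD (M.P j) (M.i (f k) * pb M.i Y E (M.P j))) ∧
      BF M.Y' (pb M.i Y E / ∏ j, M.B j ^ r j)
        (Submodule.span ℂ (Set.range fun k => M.i (f k))) := by
  classical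
  have hne : (Finset.univ : Finset (Fin N)).Nonempty := ⟨⟨0, hN⟩, Finset.mem_univ _⟩
  set v : M.J → Fin N → ℤ := fun j k => oD (M.P j) (M.i (f k) * pb M.i Y E (M.P j)) with hv
  have hexp := fun k => M.sec_exp hY hE (hf k).1 (hf k).2 (h2 k)
  have hv0 : ∀ j k, 0 ≤ v j k := fun j k => (hexp k).1 j
  set r : M.J → ℕ := fun j => (Finset.univ.inf' hne (v j)).toNat with hr
  have hrv : ∀ j, (r j : ℤ) = Finset.univ.inf' hne (v j) := by
    intro j
    rw [hr]
    exact Int.toNat_of_nonneg ((Finset.le_inf'_iff hne _).2 fun k _ => hv0 j k)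
  have hrle : ∀ j k, (r j : ℤ) ≤ v j k := by
    intro j k
    rw [hrv j]
    exact Finset.inf'_le _ (Finset.mem_univ k)
  have hval : ∀ O', (((pb M.i Y E / ∏ j, M.B j ^ r j) O' : M.F'ˣ) : M.F') =
      (pb M.i Y E O' : M.F') / ∏ j, (M.B j O' : M.F') ^ (r j : ℤ) := by
    intro O'
    rw [Pi.div_apply, Finset.prod_apply, Units.val_div_eq_div_val, Units.coe_prod]
    congr 1
    refine Finset.prod_congr rfl fun j _ => ?_
    rw [Pi.pow_apply, Units.val_pow_eq_pow_val, zpow_natCast]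
  have hsplit : ∀ O' k, M.i (f k) * (((pb M.i Y E / ∏ j, M.B j ^ r j) O' : M.F'ˣ) : M.F') =
      (M.i (f k) * pb M.i Y E O' / ∏ j, (M.B j O' : M.F') ^ v j k) *
        ∏ j, (M.B j O' : M.F') ^ (v j k - r j) := by
    intro O' k
    rw [hval]
    have hB : ∀ j, (M.B j O' : M.F') ≠ 0 := fun j => (M.B j O').ne_zero
    have hp : (∏ j, (M.B j O' : M.F') ^ (v j k - r j)) =
        (∏ j, (M.B j O' : M.F') ^ v j k) / ∏ j, (M.B j O' : M.F') ^ (r j : ℤ) := by
      rw [← Finset.prod_div_distrib]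
      exact Finset.prod_congr rfl fun j _ => zpow_sub₀ (hB j) _ _
    have hn1 : (∏ j, (M.B j O' : M.F') ^ v j k) ≠ 0 :=
      Finset.prod_ne_zero_iff.2 fun j _ => zpow_ne_zero _ (hB j)
    rw [hp]
    field_simp
  refine ⟨r, hrle, ?_, ?_, ?_⟩
  · exact Module.Finite.span_of_finite ℂ (Set.finite_range _)
  · rw [Submodule.span_le]
    rintro _ ⟨k, rfl⟩ O' hO'
    show M.i (f k) * _ ∈ O'
    rw [hsplit]
    refine O'.mul_mem ((hexp k).2 O' hO').2.1 (O'.prod_mem fun j _ => ?_)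
    obtain ⟨e, he⟩ := Int.eq_ofNat_of_zero_le (sub_nonneg.2 (hrle j k))
    rw [he, zpow_natCast]
    exact O'.pow_mem (bd_le M.bd M.snc hO' j).2 e
  · intro O' hO'
    have hfi : ∀ k, M.i (f k) ≠ 0 := fun k => (map_ne_zero M.i).2 (hf k).1
    obtain ⟨k₀, hk₀⟩ := bbF_top hN (fun k l => M.i (f k / f l) ∈ O')
      (by
        intro k l
        rcases M.cmp _ (h1 k l) (hG k l) O' hO' with h | h
        · exact Or.inl h
        · refine Or.inr ?_
          rwa [← map_inv₀, inv_div] at h)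
      (by
        intro a b c hab hbc
        have h3 := O'.mul_mem hab hbc
        rwa [← map_mul, div_mul_div_cancel₀ (hf b).1] at h3)
    refine ⟨M.i (f k₀), Submodule.subset_span ⟨k₀, rfl⟩, ?_⟩
    rw [hsplit]
    refine ((hexp k₀).2 O' hO').mul ?_
    refine Un.prod _ fun j _ => ?_
    by_cases hj : Un O' (M.B j O')
    · exact hj.zpow _
    · have hle : O' ≤ M.P j := (bd_le M.bd M.snc hO' j).1.1 hj
      have hp : PrimDiv (M.P j) := (M.bd.mem j).2
      have hmin : v j k₀ ≤ r j := by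
        rw [hrv j, Finset.le_inf'_iff]
        intro k _
        have h3 : 0 ≤ oD (M.P j) (M.i (f k / f k₀)) :=
          (oD_nonneg hp ((map_ne_zero M.i).2 (div_ne_zero (hf k).1 (hf k₀).1))).2 (hle (hk₀ k))
        rw [map_div₀, oD_div hp (hfi k) (hfi k₀)] at h3
        simp only [hv]
        rw [oD_mul hp (hfi k) (pb M.i Y E (M.P j)).ne_zero,
          oD_mul hp (hfi k₀) (pb M.i Y E (M.P j)).ne_zero]
        linarith
      have h0 : v j k₀ - r j = 0 := le_antisymm (sub_nonpos.2 hmin) (sub_nonneg.2 (hrle j k₀))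
      rw [h0, zpow_zero]
      exact ⟨one_ne_zero, O'.one_mem, by rw [inv_one]; exact O'.one_mem⟩

end GMod

end Pool.Agent.KM
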