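import Pool.Agent.Lib.MP_732f67_ag.N.BpfA
import Pool.Agent.Lib.MP_732f67_ag.N.BbF

/-!
Part N: the free part of a linear system on a model.
-/

namespace Pool.Agent.KM

namespace GMod

variable {F : Type} [Field F] [Algebra ℂ F] {Y : Set (Subalgebra ℂ F)} {d : ℕ}
  {G : Subgroup (F ≃ₐ[ℂ] F)} {Δ : Fin d → Derivation ℂ F F} {Φ : Finset F}
  {D ν H E : Subalgebra ℂ F → Fˣ} {m : ℕ} (M : GMod d Y G Δ Φ H)

/-- PROOF. `A = ![pb D, pb ν, pb ν]`. `pert` for `m τ` and `QK.smul` by `1 / m`: `![0, 0, 1 / m]`, `-τ q j`;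
`QK.prin` for the relation `A 1 = A 2`, with the factor `1 / m`: `![0, 1 / m, 0]`, `-τ q j`. Add the nef
classes `c (![e, 0, 0], -r j)` (`nf_of_sf`) and `![l - c e, 0, 0]`. `qa_of`. -/
theorem free_qa (M : GMod d Y G Δ Φ ν) (hY : Base d Y G Δ) (hD : GC Y G D) (hN : Nf Y D)
    (hν : GC Y G ν) (hm : 1 ≤ m) (hA : Amp Y ν)
    (hΦν : ∀ O ∈ Y, ∃ t ∈ Φ, Un O ((ν O : F) / t)) {e : ℕ} {r : M.J → ℕ}
    {W : Submodule ℂ M.F'} (hW : BF M.Y' (pb M.i Y (D ^ e) / ∏ j, M.B j ^ r j) W) {c τ : ℚ}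
    {q : M.J → ℚ} (hc : 0 ≤ c) (hτ : 0 < τ) (hτ1 : m * τ ≤ 1)
    (hq : ∀ A : Fin 3 → Subalgebra ℂ M.F' → M.F'ˣ, A 2 = pb M.i Y ν → ∀ t : ℚ, 0 < t →
      t ≤ 1 → QK M.Y' (fam A M.B) (Sum.elim ![0, 0, 1] fun j => -(t * q j))) {l : ℕ}
    (hl : c * e ≤ (l : ℚ)) :
    QA M.Y' M.B M.κ (pb M.i Y D ^ l) (fun j => M.ad m ν j - (c * r j + τ * q j)) := by
  classical
  have hmor := M.mor hY.proj
  have hY' := M.base.proj
  obtain ⟨A, hA0, hA1, hA2⟩ : ∃ A : Fin 3 → Subalgebra ℂ M.F' → M.F'ˣ,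
      A 0 = pb M.i Y D ∧ A 1 = pb M.i Y ν ∧ A 2 = pb M.i Y ν :=
    ⟨![pb M.i Y D, pb M.i Y ν, pb M.i Y ν], rfl, rfl, rfl⟩
  have hS : ∀ k, IsCar M.Y' (fam A M.B k) := by
    rintro (k | j)
    · fin_cases k
      · change IsCar M.Y' (A 0)
        rw [hA0]
        exact car_pb hmor hD.1
      · change IsCar M.Y' (A 1)
        rw [hA1]
        exact car_pb hmor hν.1
      · change IsCar M.Y' (A 2)
        rw [hA2]
        exact car_pb hmor hν.1
    · exact M.snc.car j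
  have hm0 : (0 : ℚ) < m := by exact_mod_cast hm
  have h1 := (hq A hA2 (m * τ) (mul_pos hm0 hτ) hτ1).smul hY' (t := 1 / m) (by positivity)
  have h2 := h1.prin hY' (r := Sum.elim ![0, 1, -1] fun _ => 0) (u := 1) (fun O _ => by
    rw [Fintype.prod_sum_type, Fin.prod_univ_three]
    have e1 : (∏ j, ((fam A M.B (Sum.inr j)) O : M.F') ^
        (Sum.elim (![0, 1, -1] : Fin 3 → ℤ) (fun _ : M.J => 0) (Sum.inr j))) = 1 :=
      Finset.prod_eq_one fun j _ => zpow_zero _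
    have e2 : ((fam A M.B (Sum.inl 0)) O : M.F') ^
        (Sum.elim (![0, 1, -1] : Fin 3 → ℤ) (fun _ : M.J => 0) (Sum.inl 0)) = 1 := zpow_zero _
    have e3 : ((fam A M.B (Sum.inl 1)) O : M.F') ^
        (Sum.elim (![0, 1, -1] : Fin 3 → ℤ) (fun _ : M.J => 0) (Sum.inl 1)) =
        (pb M.i Y ν O : M.F') := by
      change (A 1 O : M.F') ^ (1 : ℤ) = _
      rw [hA1, zpow_one]
    have e4 : ((fam A M.B (Sum.inl 2)) O : M.F') ^
        (Sum.elim (![0, 1, -1] : Fin 3 → ℤ) (fun _ : M.J => 0) (Sum.inl 2)) =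
        (pb M.i Y ν O : M.F')⁻¹ := by
      change (A 2 O : M.F') ^ (-1 : ℤ) = _
      rw [hA2, zpow_neg_one]
    rw [e1, e2, e3, e4, mul_one, one_mul, mul_inv_cancel₀ (Units.ne_zero _), Units.val_one,
      div_one]
    exact Un.one O) (1 / m)
  have h3 : QN M.Y' (fam A M.B) (Sum.elim ![(e : ℚ), 0, 0] fun j => -(r j : ℚ)) := by
    refine ⟨1, le_rfl, Sum.elim ![(e : ℤ), 0, 0] fun j => -(r j : ℤ), ?_, ?_⟩
    · rintro (k | j)
      · fin_cases k <;> simp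
      · simp
    · have e1 : (∏ k, fam A M.B k ^ (Sum.elim (![(e : ℤ), 0, 0] : Fin 3 → ℤ)
          (fun j => -(r j : ℤ)) k)) = pb M.i Y (D ^ e) / ∏ j, M.B j ^ r j := by
        rw [Fintype.prod_sum_type, Fin.prod_univ_three]
        have e2 : fam A M.B (Sum.inl 0) ^ (Sum.elim (![(e : ℤ), 0, 0] : Fin 3 → ℤ)
            (fun j => -(r j : ℤ)) (Sum.inl 0)) = pb M.i Y (D ^ e) := by
          change A 0 ^ (e : ℤ) = _
          rw [hA0, zpow_natCast, pb_pow]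
        have e3 : fam A M.B (Sum.inl 1) ^ (Sum.elim (![(e : ℤ), 0, 0] : Fin 3 → ℤ)
            (fun j => -(r j : ℤ)) (Sum.inl 1)) = 1 := zpow_zero _
        have e4 : fam A M.B (Sum.inl 2) ^ (Sum.elim (![(e : ℤ), 0, 0] : Fin 3 → ℤ)
            (fun j => -(r j : ℤ)) (Sum.inl 2)) = 1 := zpow_zero _
        rw [e2, e3, e4, mul_one, mul_one, div_eq_mul_inv, ← Finset.prod_inv_distrib]
        congr 1
        refine Finset.prod_congr rfl fun j _ => ?_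
        change M.B j ^ (-(r j : ℤ)) = _
        rw [zpow_neg, zpow_natCast]
      rw [e1]
      exact nf_of_sf hY' ⟨1, le_rfl, W, by rwa [pow_one]⟩
  have h4 : QN M.Y' (fam A M.B) (Pi.single (Sum.inl 0) 1) := by
    refine qn_single _ ?_
    change Nf M.Y' (A 0)
    rw [hA0]
    exact nf_pb hmor hN
  have h5 := (h2.add_nef hY' hS (h3.smul hc)).add_nef hY' hS
    (h4.smul (t := l - c * e) (sub_nonneg.2 hl))
  refine M.qa_of hY hm hν.1 hΦν hA1 (x := fun j => c * r j + τ * q j) (b := (l : ℤ)) (b' := l)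
    (by rw [hA0, zpow_natCast]) (by rw [Int.cast_natCast]) ?_
  have e1 : (Sum.elim ![(l : ℚ), 1 / m, 0] fun j : M.J => -(c * r j + τ * q j)) =
      fun k => 1 / (m : ℚ) * (Sum.elim ![0, 0, 1] fun j => -(m * τ * q j)) k +
        1 / (m : ℚ) * ((Sum.elim ![0, 1, -1] fun _ => 0 : Fin 3 ⊕ M.J → ℤ) k : ℤ) +
        c * (Sum.elim ![(e : ℚ), 0, 0] fun j => -(r j : ℚ)) k +
        (l - c * e) * (Pi.single (Sum.inl 0) 1 : Fin 3 ⊕ M.J → ℚ) k := by
    funext k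
    rcases k with k | j
    · fin_cases k
      · simp
      · simp
      · simp
    · simp
      field_simp
  rw [e1]
  exact h5

end GMod

end Pool.Agent.KM
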