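import Pool.Agent.Lib.MP_732f67_ag.N.BpfB

/-!
Part N: the base point free theorem for klt Fano varieties.
-/

namespace Pool.Agent.KM

variable {F : Type} [Field F] [Algebra ℂ F] {X : Set (Subalgebra ℂ F)} {n : ℕ}
  {Δ : Fin n → Derivation ℂ F F} {m : ℕ} {κ D : Subalgebra ℂ F → Fˣ}

/-- non-zero sections -/
theorem exists_sec (hR : ∀ d, RX d) (hV : VX) (h : KltFano X Δ m κ) (hD : IsCar X D)
    (hN : Nf X D) : ∃ b₀ : ℕ, ∀ b, b₀ ≤ b → ∃ f : F, f ≠ 0 ∧ f ∈ Sec X (D ^ b) := by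
  obtain ⟨b₀, hb⟩ := nv_all hR hV n F X ⊥ Δ D κ⁻¹ m 0 h.base (gc_bot hD) hN
    (car_inv h.can.1) (gc_gi (gc_bot (car_inv h.can.1))) h.pos
    (by rw [zero_mul, pow_zero, one_mul]; exact h.amp) h.p
  refine ⟨b₀, fun b hb' => ?_⟩
  obtain ⟨f, h0, _, h1⟩ := hb b hb'
  exact ⟨f, h0, h.ls (car_pow hD b) h0 h1⟩

/-- THE BASE POINT FREE THEOREM for klt Fano varieties: nef Cartier divisors are semiample.
PROOF. `nf_of` for `H = κ⁻¹`. -/
theorem nf_of_fano (h : KltFano X Δ m κ) (hD : IsCar X D)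
    (hN : ∀ a : ℕ, Ample X (κ⁻¹ * D ^ a)) : Nf X D := by
  refine nf_of h.proj (car_inv h.can.1) fun a => ⟨a + 1, by omega, by omega, ?_⟩
  rw [mul_comm]
  exact (amp_iff h.proj (car_mul (car_inv h.can.1) (car_pow hD _))).1 (hN _)

end Pool.Agent.KM
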