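import Pool.Agent.Lib.MP_732f67_ag.N.BpfB
import Pool.Agent.Lib.MP_732f67_ag.N.BfE

/-!
Part N: the base point free theorem for klt Fano varieties.
-/

namespace Pool.Agent.KM

variable {F : Type} [Field F] [Algebra ℂ F] {X : Set (Subalgebra ℂ F)} {n : ℕ}
  {Δ : Fin n → Derivation ℂ F F} {m : ℕ} {κ D : Subalgebra ℂ F → Fˣ}

/-- the order of a boundary divisor along a boundary divisor -/
theorem BfB_oD {Y : Set (Subalgebra ℂ F)} {J : Type} [Fintype J] {P : J → Subalgebra ℂ F}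
    {B : J → Subalgebra ℂ F → Fˣ} (hB : Bd Y P B) (r : J → ℕ) (j : J) :
    oD (P j) (∏ j', (B j' (P j) : F) ^ r j') = r j := by
  classical
  have hp := (hB.mem j).2
  rw [oD_prod hp _ fun j' _ => pow_ne_zero _ (Units.ne_zero _), Finset.sum_eq_single j]
  · rw [oD_pow hp (Units.ne_zero _), oD_unif hp ((hB.eqn j _ (hB.mem j).1 hp).1 rfl), mul_one]
  · intro j' _ hj'
    have h1 := (hB.eqn j' _ (hB.mem j).1 hp).2 fun h => hj' (hB.inj h).symm
    rw [oD_pow hp (Units.ne_zero _), (oD_zero hp (Units.ne_zero _)).2 h1, mul_zero]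
  · intro h
    exact absurd (Finset.mem_univ j) h

theorem BfB_val {Y : Type} {J : Type} [Fintype J] (A : Y → Fˣ) (B : J → Y → Fˣ) (r : J → ℕ)
    (O : Y) : (((A / ∏ j, B j ^ r j) O : Fˣ) : F) = (A O : F) / ∏ j, (B j O : F) ^ r j := by
  rw [Pi.div_apply, Units.val_div_eq_div_val, Finset.prod_apply, Units.coe_prod]
  rfl

/-- The base locus of `|s ^ u D|` is empty for large `u`.

PROOF. `u₀` as in `exists_bs`, such that `s ^ u₀ ≥ b₀` (`exists_sec`); `E = D ^ (s ^ u₀)`, `Z = Bs X E`. Suppose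
`Z` is not empty. `n ≥ 1`: if `n = 0` then ... `Sec X E ≠ 0` and there are no non-units; or do not
distinguish cases, `n = n' + 1` follows from the existence of a non-zero non-unit. `f k` = a basis of
`Sec X E` (`fin_sec`), `0 < N`. A model `M` for `H = κ⁻¹` and `Φ` = the `f k / f l`, the `f k t` for the local
equations `t` of `E`, and local equations of `κ⁻¹`. `r` as in `free_part`. There is `j` with `r j > 0`:
let `O ∈ Z`, `O'` over `O` (`exists_over`); all `f k * E O` are non-units of `O`, and some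
`i (f k) * pb E O' / ∏ B j ^ r j` is a unit of `O'`. `threshold` with the trivial equivalence relation (or `M.cj`),
`A = ad m κ⁻¹`, the numbers `r j`, `p` and `ε` as in `pert`, `τ₀ = 1 / m`; `free_qa`, `step`: for large `l`
an invariant `f'` with `f' * pb D ^ l` a unit at `P j₀`, `r j₀ > 0`. Choose `l = s ^ u`, `u ≥ u₀`.
`exists_inv`: `f' = i g`; `ls_of`, `KltFano.ls`: `g ∈ Sec X (D ^ l)`. The center `O₀` of `P j₀` on `X`: `g * D ^ l` is a
unit of `O₀` (`Dm.un_iff`), so `O₀` is not in `Bs X (D ^ l) = Z`. But all `f k * E O₀` are non-units because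
`r j₀ > 0`, so `O₀ ∈ Z`. -/
theorem bs_empty (hR : ∀ d, RX d) (hV : VX) (h : KltFano X Δ m κ) (hD : IsCar X D)
    (hN : Nf X D) {s : ℕ} (hs : 2 ≤ s) : ∃ u : ℕ, Free X (D ^ s ^ u) := by
  classical
  obtain ⟨b₀, hb₀⟩ := exists_sec hR hV h hD hN
  obtain ⟨u₁, hu₁⟩ := exists_bs h.proj hD (s := s) (by omega)
  obtain ⟨u₀, hu₀, hu₀'⟩ : ∃ u₀, u₁ ≤ u₀ ∧ b₀ ≤ s ^ u₀ :=
    ⟨max u₁ b₀, le_max_left _ _, (le_max_right _ _).trans (Nat.lt_pow_self (by omega)).le⟩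
  have hbs : ∀ u, u₀ ≤ u → Bs X (D ^ s ^ u) = Bs X (D ^ s ^ u₀) := fun u hu =>
    (hu₁ u (hu₀.trans hu)).trans (hu₁ u₀ hu₀).symm
  refine ⟨u₀, ?_⟩
  by_contra hcon
  -- a point of the base locus
  obtain ⟨E, hEdef⟩ : ∃ E, E = D ^ s ^ u₀ := ⟨_, rfl⟩
  rw [← hEdef] at hcon hbs
  have hE : IsCar X E := by
    rw [hEdef]
    exact car_pow hD _
  obtain ⟨O₁, hO₁, hO₁'⟩ : ∃ O ∈ X, ∀ f ∈ Sec X E, ¬ Un O (f * E O) := by
    by_contra hcon'
    apply hcon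
    intro O hO
    by_contra h1
    exact hcon' ⟨O, hO, fun f hf hu => h1 ⟨f, hf, hu⟩⟩
  obtain ⟨f₀, hf₀, hf₀'⟩ := hb₀ _ hu₀'
  rw [← hEdef] at hf₀'
  -- positive dimension
  obtain ⟨n', rfl⟩ : ∃ n', n = n' + 1 := by
    rcases n with _ | n'
    · exfalso
      have halg : Algebra.IsAlgebraic ℂ F := by
        refine trdeg_eq_zero_iff.1 ?_
        rw [h.dim, Nat.cast_zero]
      have hmem : ∀ x : F, x ∈ O₁ := by
        intro x
        obtain ⟨c, rfl⟩ :=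
          IsAlgClosed.algebraMap_bijective_of_isIntegral (k := ℂ) (K := F) |>.2 x
        exact O₁.algebraMap_mem c
      exact hO₁' f₀ hf₀' ⟨mul_ne_zero hf₀ (Units.ne_zero _), hmem _, hmem _⟩
    · exact ⟨n', rfl⟩
  -- a basis
  have hfin := fin_sec h.proj hE
  obtain ⟨N, f, hf, hspan, hN0⟩ : ∃ (N : ℕ) (f : Fin N → F), (∀ k, f k ≠ 0 ∧ f k ∈ Sec X E) ∧
      Submodule.span ℂ (Set.range f) = Sec X E ∧ 0 < N := by
    refine ⟨Module.finrank ℂ (Sec X E), fun k => (Module.finBasis ℂ (Sec X E) k : Sec X E),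
      fun k => ⟨fun h0 => (Module.finBasis ℂ (Sec X E)).ne_zero k (Subtype.ext h0),
        Subtype.property _⟩, ?_, ?_⟩
    · have h1 := congrArg (Submodule.map (Sec X E).subtype)
        (Module.finBasis ℂ (Sec X E)).span_eq
      rw [Submodule.map_span, ← Set.range_comp, Submodule.map_subtype_top] at h1
      exact h1
    · refine Module.finrank_pos_iff_exists_ne_zero.2 ⟨⟨f₀, hf₀'⟩, fun h0 => hf₀ ?_⟩
      exact congrArg Subtype.val h0
  -- the model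
  obtain ⟨T₁, hT₁, hT₁'⟩ := car_fin h.proj hE
  obtain ⟨T₂, hT₂, hT₂'⟩ := car_fin h.proj (car_inv h.can.1)
  have hν : GC X ⊥ κ⁻¹ := gc_bot (car_inv h.can.1)
  obtain ⟨Φ, hΦdef⟩ : ∃ Φ : Finset F, Φ = (Finset.univ.image fun p : Fin N × Fin N =>
      f p.1 / f p.2) ∪ ((Finset.univ ×ˢ T₁).image fun p : Fin N × F => f p.1 * p.2) ∪ T₂ :=
    ⟨_, rfl⟩
  have hΦ0 : ∀ φ ∈ Φ, φ ≠ 0 := by
    intro φ hφ
    rw [hΦdef, Finset.mem_union, Finset.mem_union] at hφ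
    rcases hφ with (h1 | h1) | h1
    · obtain ⟨p, -, rfl⟩ := Finset.mem_image.1 h1
      exact div_ne_zero (hf _).1 (hf _).1
    · obtain ⟨p, hp, rfl⟩ := Finset.mem_image.1 h1
      exact mul_ne_zero (hf _).1 (hT₁ _ (Finset.mem_product.1 hp).2)
    · exact hT₂ _ h1
  obtain ⟨M⟩ := hR (n' + 1) F X ⊥ Δ Φ κ⁻¹ h.base hΦ0 hν h.amp
  have hmor : Mor M.i X M.Y' := M.mor h.proj
  have hΦν : ∀ O ∈ X, ∃ t ∈ Φ, Un O ((κ⁻¹ O : F) / t) := by
    intro O hO
    obtain ⟨t, ht, hu⟩ := hT₂' O hO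
    refine ⟨t, ?_, hu⟩
    rw [hΦdef]
    exact Finset.mem_union_right _ ht
  have h1 : ∀ k l, f k / f l ∈ Φ := by
    intro k l
    rw [hΦdef]
    exact Finset.mem_union_left _ (Finset.mem_union_left _
      (Finset.mem_image.2 ⟨(k, l), Finset.mem_univ _, rfl⟩))
  have h2 : ∀ k, ∀ O ∈ X, ∃ t ∈ Φ, Un O (f k * E O / t) := by
    intro k O hO
    obtain ⟨t, ht, hu⟩ := hT₁' O hO
    refine ⟨f k * t, ?_, ?_⟩
    · rw [hΦdef]
      exact Finset.mem_union_left _ (Finset.mem_union_right _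
        (Finset.mem_image.2 ⟨(k, t), Finset.mem_product.2 ⟨Finset.mem_univ _, ht⟩, rfl⟩))
    · rwa [mul_div_mul_left _ _ (hf k).1]
  obtain ⟨r, -, hW⟩ := M.free_part h.base hE hN0 hf h1
    (fun _ _ γ hγ => by rw [Subgroup.mem_bot.1 hγ]; rfl) h2
  -- the linear system of the model
  obtain ⟨W, hWdef⟩ : ∃ W, W = Submodule.span ℂ (Set.range fun k => M.i (f k)) := ⟨_, rfl⟩
  rw [← hWdef] at hW
  have hWmap : W = (Sec X E).map M.i.toLinearMap := by
    rw [hWdef, ← hspan, Submodule.map_span, ← Set.range_comp]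
    rfl
  have hWi : ∀ g ∈ Sec X E, M.i g ∈ W := by
    intro g hg
    rw [hWmap]
    exact ⟨g, hg, rfl⟩
  have hBP : ∀ j, M.P j ∈ M.Y' ∧ PrimDiv (M.P j) := M.bd.mem
  have hprod0 : ∀ j, (∏ j', (M.B j' (M.P j) : M.F') ^ r j') ≠ 0 := fun j =>
    Finset.prod_ne_zero_iff.2 fun j' _ => pow_ne_zero _ (Units.ne_zero _)
  have F1 : ∀ g ∈ Sec X E, g ≠ 0 → ∀ j, (r j : ℤ) ≤ oD (M.P j) (M.i g * pb M.i X E (M.P j)) := by
    intro g hg hg0 j
    have h3 := hW.sec (hWi g hg) (M.P j) (hBP j).1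
    rw [BfB_val, ← mul_div_assoc] at h3
    have hg1 : M.i g * (pb M.i X E (M.P j) : M.F') ≠ 0 :=
      mul_ne_zero ((map_ne_zero M.i).2 hg0) (Units.ne_zero _)
    rw [← oD_nonneg (hBP j).2 (div_ne_zero hg1 (hprod0 j)), oD_div (hBP j).2 hg1 (hprod0 j),
      BfB_oD M.bd] at h3
    omega
  have F2 : ∀ j, ∃ g ∈ Sec X E, g ≠ 0 ∧ oD (M.P j) (M.i g * pb M.i X E (M.P j)) = r j := by
    intro j
    obtain ⟨w, hw, hu⟩ := hW.gen (M.P j) (hBP j).1
    rw [hWmap] at hw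
    obtain ⟨g, hg, rfl⟩ := hw
    change Un (M.P j) (M.i g * _) at hu
    have hg0 : g ≠ 0 := by
      rintro rfl
      apply hu.1
      rw [map_zero, zero_mul]
    refine ⟨g, hg, hg0, ?_⟩
    have hg1 : M.i g * (pb M.i X E (M.P j) : M.F') ≠ 0 :=
      mul_ne_zero ((map_ne_zero M.i).2 hg0) (Units.ne_zero _)
    rw [BfB_val, ← mul_div_assoc] at hu
    rw [← oD_zero (hBP j).2 (div_ne_zero hg1 (hprod0 j)), oD_div (hBP j).2 hg1 (hprod0 j),
      BfB_oD M.bd] at hu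
    omega
  -- some coefficient is positive
  have hr0 : ∃ j, 0 < (r j : ℚ) := by
    by_contra hcon'
    push Not at hcon'
    have hr00 : ∀ j, r j = 0 := by
      intro j
      have h3 := hcon' j
      have h4 : (r j : ℚ) = 0 := le_antisymm h3 (Nat.cast_nonneg _)
      exact_mod_cast h4
    obtain ⟨O', hO', hdm⟩ := exists_over hmor hO₁
    obtain ⟨w, hw, hu⟩ := hW.gen O' hO'
    rw [hWmap] at hw
    obtain ⟨g, hg, rfl⟩ := hw
    change Un O' (M.i g * _) at hu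
    rw [BfB_val, Finset.prod_eq_one fun j _ => by rw [hr00 j, pow_zero], div_one, pb_val,
      cen_eq_of h.proj hO₁ hdm, ← map_mul] at hu
    exact hO₁' g hg ((hdm.un_iff (hg O₁ hO₁)).1 hu)
  -- invariance of the coefficients
  have hfix : ∀ γ ∈ M.G', ∀ x : F, γ (M.i x) = M.i x := by
    intro γ hγ x
    obtain ⟨γ₀, hγ₀, h3⟩ := M.grp γ hγ
    rw [h3, Subgroup.mem_bot.1 hγ₀]
    rfl
  have hgiE : GI M.Y' M.G' (pb M.i X E) := gi_pb hmor h.base.st M.grp (gc_gi (gc_bot hE))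
  have hrle : ∀ j j', M.cj.r j j' → r j' ≤ r j := by
    rintro j j' ⟨γ, hγ, hjj⟩
    obtain ⟨g, hg, hg0, h3⟩ := F2 j
    have h4 := F1 g hg hg0 j'
    have h5 := hgiE γ hγ (M.P j) (hBP j).1
    have hi0 : M.i g ≠ 0 := (map_ne_zero M.i).2 hg0
    have h6 : oD (M.P j') (M.i g * pb M.i X E (M.P j')) = r j := by
      rw [← h3, ← oD_gm (γ := γ) (hBP j).2, hjj]
      rw [hjj] at h5
      refine oD_of_un (hBP j').2 (mul_ne_zero hi0 (Units.ne_zero _)) ?_ ?_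
      · exact (map_ne_zero γ).2 (mul_ne_zero hi0 (Units.ne_zero _))
      · rw [map_mul, hfix γ hγ, mul_div_mul_left _ _ hi0]
        exact h5
    rw [h6] at h4
    exact_mod_cast h4
  have hreq : ∀ j j', M.cj.r j j' → r j = r j' := fun j j' hjj =>
    le_antisymm (hrle j' j (M.cj.symm hjj)) (hrle j j' hjj)
  -- the threshold
  obtain ⟨p, hp0, hpi, ε, hε, hpert⟩ := M.pert h.base hν h.amp
  have hadpos := M.ad_pos h.base h.p
  have hmpos : (0 : ℚ) < m := by exact_mod_cast h.pos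
  have hne : Nonempty M.J := ⟨hr0.choose⟩
  obtain ⟨j₁, hj₁⟩ := Finite.exists_min p
  obtain ⟨c, τ, q, j₀, hc, hτ, hτ₀, hq, hqi, hj₀, hb, hb0, -⟩ :=
    threshold M.cj (M.ad m κ⁻¹) (fun j => (r j : ℚ)) p hadpos (fun j => Nat.cast_nonneg _) hr0
      hp0 (fun j j' hjj => by
        refine ⟨?_, ?_, ?_⟩
        · obtain ⟨γ, hγ, h3⟩ := hjj
          exact (M.ad_inv h.base (gc_gi hν) hγ h3).symm
        · show (r j : ℚ) = r j'
          rw [hreq j j' hjj]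
        · obtain ⟨γ, hγ, h3⟩ := hjj
          exact (hpi γ hγ j j' h3).symm)
      (lt_min hε (hp0 j₁)) (τ₀ := 1 / m) (by positivity)
  have hqε : ∀ j, |q j - p j| ≤ ε := fun j => (hq j).trans (min_le_left _ _)
  have hq0 : ∀ j, 0 ≤ q j := by
    intro j
    have h3 := ((hq j).trans (min_le_right _ _)).trans (hj₁ j)
    have h4 := (abs_le.1 h3).1
    linarith
  have hmτ : m * τ ≤ 1 := by
    have h3 := mul_le_mul_of_nonneg_left hτ₀ hmpos.le
    rwa [mul_one_div_cancel hmpos.ne'] at h3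
  obtain ⟨b, hbdef⟩ : ∃ b : M.J → ℚ, b = fun j => M.ad m κ⁻¹ j - (c * r j + τ * q j) := ⟨_, rfl⟩
  have hbj : ∀ j, b j = M.ad m κ⁻¹ j - (c * r j + τ * q j) := fun j => by rw [hbdef]
  have hQ : ∀ l : ℕ, ⌈c * ((s ^ u₀ : ℕ) : ℚ)⌉₊ ≤ l →
      QA M.Y' M.B M.κ (pb M.i X D ^ l) b := by
    intro l hl
    rw [hbdef]
    rw [hEdef] at hW
    exact M.free_qa h.base (gc_bot hD) hN hν h.pos h.amp hΦν hW hc.le hτ hmτ
      (fun A hA t ht ht1 => hpert A hA q hqε t ht ht1) (Nat.ceil_le.1 hl)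
  -- the induction step
  obtain ⟨b₂, hb₂⟩ := step (nv_all hR hV n') hV M.snc M.base M.bd M.strict
    (fun γ hγ j => M.perm h.base hν hγ j) (gc_pb hmor h.base.st M.grp (gc_bot hD))
    (nf_pb hmor hN) (b := b) (fun j => by rw [hbj]; exact hb j) (j₀ := j₀)
    (fun j => by
      rw [hbj, hb0]
      exact ⟨fun h3 => M.cj.symm h3, fun h3 => M.cj.symm h3⟩)
    (fun γ hγ j j' hjj => by
      rw [hbj, hbj, M.ad_inv h.base (gc_gi hν) hγ hjj, hqi j j' ⟨γ, hγ, hjj⟩,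
        hreq j j' ⟨γ, hγ, hjj⟩]) hQ
  obtain ⟨u, hu, hu'⟩ : ∃ u, u₀ ≤ u ∧ b₂ ≤ s ^ u :=
    ⟨max u₀ b₂, le_max_left _ _, (le_max_right _ _).trans (Nat.lt_pow_self (by omega)).le⟩
  obtain ⟨f', hf', hinv, hun⟩ := hb₂ (s ^ u) hu'
  obtain ⟨g, -, rfl⟩ := M.exists_inv hinv
  have hg0 : g ≠ 0 := by
    rintro rfl
    apply hun.1
    rw [map_zero, zero_mul]
  rw [← pb_pow] at hf'
  have hls := M.ls_of h.base h.pos (car_inv h.can.1) hΦν (car_pow hD (s ^ u)) hg0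
    (g := fun j => max (⌈b j⌉ - 1) 0) (fun j => by
      have h3 : (b j : ℚ) ≤ M.ad m κ⁻¹ j := by
        rw [hbj]
        have h4 : 0 ≤ c * (r j : ℚ) := mul_nonneg hc.le (Nat.cast_nonneg _)
        have h5 : 0 ≤ τ * q j := mul_nonneg hτ.le (hq0 j)
        linarith
      have h4 := hadpos j
      have h5 := Int.ceil_lt_add_one (b j)
      push_cast
      rw [max_lt_iff]
      exact ⟨by linarith, h4⟩) hf'
  have hgs := h.ls (car_pow hD _) hg0 hls
  -- the center of the minimal divisor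
  obtain ⟨hc1, hc2⟩ := cen_spec (hmor.dom (M.P j₀) (hBP j₀).1)
  have hun' : Un (cen M.i X (M.P j₀)) (g * ((D ^ s ^ u) (cen M.i X (M.P j₀)) : Fˣ)) := by
    refine (hc2.un_iff (hgs _ hc1)).1 ?_
    rw [map_mul, Pi.pow_apply, Units.val_pow_eq_pow_val, map_pow]
    exact hun
  have hnot : cen M.i X (M.P j₀) ∉ Bs X E := by
    rw [← hbs u hu]
    rintro ⟨-, h3⟩
    exact h3 g hgs hun'
  apply hnot
  refine ⟨hc1, fun g' hg' hu3 => ?_⟩
  have hg0' : g' ≠ 0 := by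
    rintro rfl
    apply hu3.1
    rw [zero_mul]
  have h3 := F1 g' hg' hg0' j₀
  have h4 : Un (M.P j₀) (M.i g' * pb M.i X E (M.P j₀)) := by
    rw [pb_val, ← map_mul]
    exact hc2.un hu3
  rw [(oD_zero (hBP j₀).2 h4.1).2 h4] at h3
  have h5 : 0 < (r j₀ : ℚ) := hj₀
  have h6 : 0 < r j₀ := by exact_mod_cast h5
  omega

end Pool.Agent.KM
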