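import Pool.Agent.Lib.MP_732f67_ag.N.BpfB
import Pool.Agent.Lib.MP_732f67_ag.N.BfE
import Pool.Agent.Lib.MP_732f67_ag.N.BfB

/-!
Part N: the base point free theorem for klt Fano varieties.
-/

namespace Pool.Agent.KM

variable {F : Type} [Field F] [Algebra ℂ F] {X : Set (Subalgebra ℂ F)} {n : ℕ}
  {Δ : Fin n → Derivation ℂ F F} {m : ℕ} {κ D : Subalgebra ℂ F → Fˣ}

theorem bpf (hR : ∀ d, RX d) (hV : VX) (h : KltFano X Δ m κ) (hD : IsCar X D)
    (hN : ∀ a : ℕ, Ample X (κ⁻¹ * D ^ a)) : Semi X D := by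
  have hN' := nf_of_fano h hD hN
  obtain ⟨u, h2⟩ := bs_empty hR hV h hD hN' (s := 2) le_rfl
  obtain ⟨v, h3⟩ := bs_empty hR hV h hD hN' (s := 3) (by norm_num)
  exact semi_of (Nat.Coprime.pow _ _ (by norm_num)) (Nat.one_le_pow _ _ (by norm_num))
    (Nat.one_le_pow _ _ (by norm_num)) h2 h3

end Pool.Agent.KM
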