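import Pool.Agent.Lib.MP_732f67_ag.KC.DI

/-!
Part N: comparison of covers, the algebra of cochains.
-/

namespace Pool.Agent.KM

open Pool.Agent.Lib.MP_732f67_ag.KC (cd KVan)

variable {Λ Λ' : Type*} [LinearOrder Λ] [LinearOrder Λ'] {E : Type*} [AddCommGroup E]

/-- the vanishing of the Cech cohomology of the lattices `K J`, `J ⊆ T`, in the degrees `b ≥ 1` -/
def KV (K : Finset Λ → AddSubgroup E) (T : Finset Λ) : Prop :=
  ∀ b, 1 ≤ b → ∀ z : Finset Λ → E, (∀ J ⊆ T, J.card = b + 1 → z J ∈ K J) →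
    (∀ J ⊆ T, J.card = b + 2 → cd z J = 0) →
    ∃ w : Finset Λ → E, (∀ J ⊆ T, J.card = b → w J ∈ K J) ∧
      ∀ J ⊆ T, J.card = b + 1 → cd w J = z J

private theorem cau_cd_congr {z z' : Finset Λ → E} {J : Finset Λ}
    (h : ∀ L ⊆ J, z L = z' L) : cd z J = cd z' J := by
  unfold Pool.Agent.Lib.MP_732f67_ag.KC.cd
  exact Finset.sum_congr rfl fun a _ => by rw [h _ (Finset.erase_subset a J)]

private theorem cau_sgn (i : Λ ↪o Λ') (a : Λ) (J : Finset Λ) :
    Pool.Agent.Lib.MP_0b721b_ag.sgn (i a) (J.map i.toEmbedding) =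
      Pool.Agent.Lib.MP_0b721b_ag.sgn a J := by
  unfold Pool.Agent.Lib.MP_0b721b_ag.sgn
  congr 1
  rw [Finset.filter_map, Finset.card_map]
  congr 1
  refine Finset.filter_congr fun x _ => ?_
  exact i.lt_iff_lt

private theorem cau_cd_map (i : Λ ↪o Λ') (z : Finset Λ' → E) (J : Finset Λ) :
    cd z (J.map i.toEmbedding) = cd (fun J => z (J.map i.toEmbedding)) J := by
  unfold Pool.Agent.Lib.MP_732f67_ag.KC.cd
  rw [Finset.sum_map]
  refine Finset.sum_congr rfl fun a _ => ?_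
  dsimp only
  rw [Finset.map_erase]
  congr 1
  exact cau_sgn i a J

private theorem cau_filter (i : Λ ↪o Λ') {T J : Finset Λ} (h : J ⊆ T) :
    T.filter (fun a => i a ∈ J.map i.toEmbedding) = J := by
  ext a
  rw [Finset.mem_filter]
  constructor
  · rintro ⟨-, ha⟩
    obtain ⟨b, hb, hab⟩ := Finset.mem_map.1 ha
    rwa [← i.toEmbedding.injective hab]
  · intro ha
    exact ⟨h ha, Finset.mem_map_of_mem i.toEmbedding ha⟩

theorem kv_univ [Fintype Λ] {K : Finset Λ → AddSubgroup E} : KV K Finset.univ ↔ KVan K := by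
  constructor
  · intro h b hb z hz hc
    obtain ⟨w, hw, hw'⟩ := h b hb z (fun J _ hJ => hz J hJ) (fun J _ hJ => hc J hJ)
    exact ⟨w, fun J hJ => hw J (Finset.subset_univ J) hJ,
      fun J hJ => hw' J (Finset.subset_univ J) hJ⟩
  · intro h b hb z hz hc
    obtain ⟨w, hw, hw'⟩ := h b hb z (fun J hJ => hz J (Finset.subset_univ J) hJ)
      (fun J hJ => hc J (Finset.subset_univ J) hJ)
    exact ⟨w, fun J _ hJ => hw J hJ, fun J _ hJ => hw' J hJ⟩

theorem kv_congr {K K' : Finset Λ → AddSubgroup E} {T : Finset Λ}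
    (h : ∀ J ⊆ T, J.Nonempty → K J = K' J) : KV K T ↔ KV K' T := by
  have key : ∀ K K' : Finset Λ → AddSubgroup E, (∀ J ⊆ T, J.Nonempty → K J = K' J) →
      KV K T → KV K' T := by
    intro K K' h hK b hb z hz hc
    obtain ⟨w, hw, hw'⟩ := hK b hb z (fun J hJ hJ' => by
      rw [h J hJ (Finset.card_pos.1 (by omega))]
      exact hz J hJ hJ') hc
    refine ⟨w, fun J hJ hJ' => ?_, hw'⟩
    rw [← h J hJ (Finset.card_pos.1 (by omega))]
    exact hw J hJ hJ'
  exact ⟨key K K' h, key K' K fun J hJ hJ' => (h J hJ hJ').symm⟩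

/-- PROOF. `sgn (i a) (J.map i) = sgn a J` for an order embedding `i`. -/
theorem kv_map {K : Finset Λ' → AddSubgroup E} (i : Λ ↪o Λ') (T : Finset Λ) :
    KV K (T.map i.toEmbedding) ↔ KV (fun J => K (J.map i.toEmbedding)) T := by
  constructor
  · intro h b hb z hz hc
    set z' : Finset Λ' → E := fun J' => z (T.filter fun a => i a ∈ J') with hz'
    have h1 : ∀ J ⊆ T, z' (J.map i.toEmbedding) = z J := fun J hJ => by
      rw [hz']
      dsimp only
      rw [cau_filter i hJ]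
    obtain ⟨w, hw, hw'⟩ := h b hb z' (fun J' hJ' hc' => by
      obtain ⟨J, hJ, rfl⟩ := Finset.subset_map_iff.1 hJ'
      rw [Finset.card_map] at hc'
      rw [h1 J hJ]
      exact hz J hJ hc') (fun J' hJ' hc' => by
      obtain ⟨J, hJ, rfl⟩ := Finset.subset_map_iff.1 hJ'
      rw [Finset.card_map] at hc'
      rw [cau_cd_map, cau_cd_congr (z' := z) fun L hL => h1 L (hL.trans hJ)]
      exact hc J hJ hc')
    refine ⟨fun J => w (J.map i.toEmbedding), fun J hJ hJ' => ?_, fun J hJ hJ' => ?_⟩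
    · exact hw _ (Finset.map_subset_map.2 hJ) (by rw [Finset.card_map]; exact hJ')
    · rw [← cau_cd_map, hw' _ (Finset.map_subset_map.2 hJ) (by rw [Finset.card_map]; exact hJ'),
        h1 J hJ]
  · intro h b hb z hz hc
    obtain ⟨w, hw, hw'⟩ := h b hb (fun J => z (J.map i.toEmbedding))
      (fun J hJ hJ' => hz _ (Finset.map_subset_map.2 hJ) (by rw [Finset.card_map]; exact hJ'))
      (fun J hJ hJ' => by
        rw [← cau_cd_map]
        exact hc _ (Finset.map_subset_map.2 hJ) (by rw [Finset.card_map]; exact hJ'))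
    set w' : Finset Λ' → E := fun J' => w (T.filter fun a => i a ∈ J') with hwdef
    have h1 : ∀ J ⊆ T, w' (J.map i.toEmbedding) = w J := fun J hJ => by
      rw [hwdef]
      dsimp only
      rw [cau_filter i hJ]
    refine ⟨w', fun J' hJ' hc' => ?_, fun J' hJ' hc' => ?_⟩
    · obtain ⟨J, hJ, rfl⟩ := Finset.subset_map_iff.1 hJ'
      rw [Finset.card_map] at hc'
      rw [h1 J hJ]
      exact hw J hJ hc'
    · obtain ⟨J, hJ, rfl⟩ := Finset.subset_map_iff.1 hJ'
      rw [Finset.card_map] at hc'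
      rw [cau_cd_map, cau_cd_congr (z' := w) fun L hL => h1 L (hL.trans hJ)]
      exact hw' J hJ hc'

end Pool.Agent.KM
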