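import Pool.Agent.Lib.MP_732f67_ag.KC.DI
import Pool.Agent.Lib.MP_732f67_ag.N.CaU

/-!
Part N: comparison of covers, the algebra of cochains.
-/

namespace Pool.Agent.KM

open Pool.Agent.Lib.MP_732f67_ag.KC (cd KVan)
open Pool.Agent.Lib.MP_0b721b_ag (sgn sgn_mul sgn_sq)

variable {Λ Λ' : Type*} [LinearOrder Λ] [LinearOrder Λ'] {E : Type*} [AddCommGroup E]

private theorem caa_congr {z z' : Finset Λ → E} {J : Finset Λ}
    (h : ∀ L ⊆ J, z L = z' L) : cd z J = cd z' J := by
  unfold Pool.Agent.Lib.MP_732f67_ag.KC.cd
  exact Finset.sum_congr rfl fun a _ => by rw [h _ (Finset.erase_subset a J)]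

private theorem caa_one (c : Λ) : sgn c ({c} : Finset Λ) = 1 := by
  unfold Pool.Agent.Lib.MP_0b721b_ag.sgn
  rw [Finset.filter_eq_empty_iff.2, Finset.card_empty, pow_zero]
  intro x hx
  rw [Finset.mem_singleton.1 hx]
  exact lt_irrefl c

private theorem caa_single (z : Finset Λ → E) (c : Λ) : cd z {c} = z ∅ := by
  unfold Pool.Agent.Lib.MP_732f67_ag.KC.cd
  rw [Finset.sum_singleton, caa_one, one_smul, Finset.erase_singleton]

/-- the differential on the sets which contain `a` -/
private theorem caa_insert (z : Finset Λ → E) {a : Λ} {J : Finset Λ} (ha : a ∉ J) :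
    cd z (insert a J) =
      sgn a (insert a J) • (z J - cd (fun L => sgn a (insert a L) • z (insert a L)) J) := by
  unfold Pool.Agent.Lib.MP_732f67_ag.KC.cd
  rw [Finset.sum_insert ha, Finset.erase_insert ha, smul_sub, sub_eq_add_neg]
  congr 1
  rw [Finset.smul_sum, ← Finset.sum_neg_distrib]
  refine Finset.sum_congr rfl fun c hc => ?_
  have hac : a ≠ c := fun h => ha (h ▸ hc)
  have h1 := sgn_mul (Finset.mem_insert_self a J) (Finset.mem_insert_of_mem hc) hac
  have h2 := sgn_sq a (insert a (J.erase c))
  rw [Finset.erase_insert ha, Finset.erase_insert_of_ne hac] at h1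
  rw [Finset.erase_insert_of_ne hac, smul_smul, smul_smul, ← neg_smul]
  congr 1
  linear_combination (sgn a (insert a (J.erase c))) * h1 + (-sgn c (insert a J)) * h2

/-- One more open set `a`.

PROOF. `K' J = K (insert a J)`. `→`: let `z` be a cocycle on `insert a T`. On `T` it is `cd w`; subtract `cd` of
`w` (extended by `0` to the `J ∋ a`): `z J = 0` for `a ∉ J`. Then `y J = sgn a (insert a J) • z (insert a J)`,
`J ⊆ T`, `card J = b`, is a cocycle of `K'` of degree `b - 1` up to sign: a coboundary if `b ≥ 2`, and if
`b = 1` an element of all the `K' {c}`, equal for all `c`, so it is in `K {a}` by `hglo`.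
`←`: let `z` be a cocycle on `T`. It is one of `K'` by `hmono`, so `z = cd y`, `y J ∈ K' J`; extend
`z` by `z (insert a J) = ± y J` to a cocycle on `insert a T`: it is a coboundary, restrict to
`T`. -/
theorem kv_add {K : Finset Λ → AddSubgroup E} {a : Λ} {T : Finset Λ} (ha : a ∉ T)
    (hT : T.Nonempty) (hmono : ∀ J J' : Finset Λ, J.Nonempty → J ⊆ J' → K J ≤ K J')
    (hv : KV (fun J => K (insert a J)) T)
    (hglo : ∀ x, (∀ c ∈ T, x ∈ K {a, c}) → x ∈ K {a}) : KV K T ↔ KV K (insert a T) := by
  have hTT : T ⊆ insert a T := Finset.subset_insert a T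
  have hnot : ∀ {J : Finset Λ}, J ⊆ T → a ∉ J := fun hJ h => ha (hJ h)
  have hsub : ∀ {J : Finset Λ}, J ⊆ insert a T → a ∉ J → J ⊆ T := fun hJ h =>
    (Finset.subset_insert_iff_of_notMem h).1 hJ
  have hera : ∀ {J : Finset Λ}, J ⊆ insert a T → J.erase a ⊆ T := fun hJ x hx => by
    rw [Finset.mem_erase] at hx
    exact (Finset.mem_insert.1 (hJ hx.2)).resolve_left hx.1
  constructor
  · intro h b hb z hz hc
    obtain ⟨w₀, hw₀, hw₀'⟩ := h b hb z (fun J hJ => hz J (hJ.trans hTT))
      (fun J hJ => hc J (hJ.trans hTT))
    set y : Finset Λ → E := fun L => sgn a (insert a L) • z (insert a L) with hy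
    have hyK : ∀ L ⊆ T, L.card = b → y L ∈ K (insert a L) := fun L hL hL' => by
      refine (K _).zsmul_mem (hz _ (Finset.insert_subset_insert a hL) ?_) _
      rw [Finset.card_insert_of_notMem (hnot hL), hL']
    have hyc : ∀ J ⊆ T, J.card = b + 1 → cd y J = z J := fun J hJ hJ' => by
      have h1 := hc (insert a J) (Finset.insert_subset_insert a hJ)
        (by rw [Finset.card_insert_of_notMem (hnot hJ), hJ'])
      rw [caa_insert z (hnot hJ)] at h1
      have h2 : sgn a (insert a J) • sgn a (insert a J) • (z J - cd y J) = 0 := by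
        rw [h1, smul_zero]
      rw [smul_smul, sgn_sq, one_smul, sub_eq_zero] at h2
      exact h2.symm
    have hvK : ∀ L ⊆ T, L.card = b → y L - w₀ L ∈ K (insert a L) := fun L hL hL' =>
      (K _).sub_mem (hyK L hL hL') (hmono L _ (Finset.card_pos.1 (by omega))
        (Finset.subset_insert a L) (hw₀ L hL hL'))
    have hvc : ∀ J ⊆ T, J.card = b + 1 → cd (fun L => y L - w₀ L) J = 0 := fun J hJ hJ' => by
      have h1 : cd (fun L => y L - w₀ L) J = cd y J - cd w₀ J := by
        unfold Pool.Agent.Lib.MP_732f67_ag.KC.cd
        rw [← Finset.sum_sub_distrib]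
        exact Finset.sum_congr rfl fun c _ => smul_sub _ _ _
      rw [h1, hyc J hJ hJ', hw₀' J hJ hJ', sub_self]
    have key : ∃ u : Finset Λ → E, (∀ J ⊆ T, J.card + 1 = b → u J ∈ K (insert a J)) ∧
        ∀ L ⊆ T, L.card = b → cd u L = y L - w₀ L := by
      rcases Nat.lt_or_ge 1 b with hb2 | hb2
      · obtain ⟨u, hu, hu'⟩ := hv (b - 1) (by omega) (fun L => y L - w₀ L)
          (fun L hL hL' => hvK L hL (by omega)) (fun J hJ hJ' => hvc J hJ (by omega))
        exact ⟨u, fun J hJ hJ' => hu J hJ (by omega), fun L hL hL' => hu' L hL (by omega)⟩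
      · have hb1 : b = 1 := by omega
        subst hb1
        obtain ⟨c₀, hc₀⟩ := hT
        have heq : ∀ c ∈ T, y {c} - w₀ {c} = y {c₀} - w₀ {c₀} := by
          intro c hcT
          by_cases hcc : c = c₀
          · rw [hcc]
          · have hcn : c ∉ ({c₀} : Finset Λ) := by rwa [Finset.mem_singleton]
            have h1 := hvc (insert c {c₀}) (by
              intro x hx
              rcases Finset.mem_insert.1 hx with rfl | hx
              · exact hcT
              · rw [Finset.mem_singleton.1 hx]
                exact hc₀) (by rw [Finset.card_insert_of_notMem hcn, Finset.card_singleton])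
            rw [caa_insert _ hcn, caa_single] at h1
            have h2 : sgn c (insert c {c₀}) • sgn c (insert c {c₀}) •
                ((y {c₀} - w₀ {c₀}) - sgn c (insert c ∅) • (y (insert c ∅) - w₀ (insert c ∅))) =
                0 := by
              rw [h1, smul_zero]
            rw [smul_smul, sgn_sq, one_smul, sub_eq_zero, insert_empty_eq, caa_one, one_smul] at h2
            exact h2.symm
        refine ⟨fun _ => y {c₀} - w₀ {c₀}, fun J hJ hJ' => ?_, fun L hL hL' => ?_⟩
        · have hJ0 : J = ∅ := Finset.card_eq_zero.1 (by omega)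
          rw [hJ0, insert_empty_eq]
          refine hglo _ fun c hcT => ?_
          rw [← heq c hcT]
          exact hvK {c} (by
            intro x hx
            rw [Finset.mem_singleton.1 hx]
            exact hcT) (Finset.card_singleton c)
        · obtain ⟨c, rfl⟩ := Finset.card_eq_one.1 hL'
          rw [caa_single]
          exact (heq c (hL (Finset.mem_singleton_self c))).symm
    obtain ⟨u, hu, hu'⟩ := key
    set w : Finset Λ → E := fun J => if a ∈ J then -(sgn a J • u (J.erase a)) else w₀ J with hw
    refine ⟨w, fun J hJ hJ' => ?_, fun J hJ hJ' => ?_⟩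
    · by_cases haJ : a ∈ J
      · have h1 : w J = -(sgn a J • u (J.erase a)) := by rw [hw]; exact if_pos haJ
        rw [h1]
        refine (K _).neg_mem ((K _).zsmul_mem ?_ _)
        have h2 := hu (J.erase a) (hera hJ) (by rw [Finset.card_erase_add_one haJ, hJ'])
        rwa [Finset.insert_erase haJ] at h2
      · have h1 : w J = w₀ J := by rw [hw]; exact if_neg haJ
        rw [h1]
        exact hw₀ J (hsub hJ haJ) hJ'
    · have hwT : ∀ L : Finset Λ, L ⊆ T → w L = w₀ L := fun L hL => by
        rw [hw]; exact if_neg (hnot hL)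
      by_cases haJ : a ∈ J
      · obtain ⟨L, hLa, rfl⟩ : ∃ L, a ∉ L ∧ insert a L = J :=
          ⟨J.erase a, Finset.notMem_erase a J, Finset.insert_erase haJ⟩
        have hLT : L ⊆ T := by
          have := hera hJ
          rwa [Finset.erase_insert hLa] at this
        have hLc : L.card = b := by
          rw [Finset.card_insert_of_notMem hLa] at hJ'
          omega
        rw [caa_insert w hLa, hwT L hLT]
        have h1 : cd (fun M => sgn a (insert a M) • w (insert a M)) L = -cd u L := by
          have h2 : cd (fun M => sgn a (insert a M) • w (insert a M)) L = cd (fun M => -u M) L := by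
            refine caa_congr fun M hM => ?_
            have h3 : w (insert a M) = -(sgn a (insert a M) • u ((insert a M).erase a)) := by
              rw [hw]; exact if_pos (Finset.mem_insert_self a M)
            have h4 : a ∉ M := fun h => hLa (hM h)
            rw [h3, Finset.erase_insert h4, smul_neg, smul_smul, sgn_sq, one_smul]
          rw [h2]
          unfold Pool.Agent.Lib.MP_732f67_ag.KC.cd
          rw [← Finset.sum_neg_distrib]
          exact Finset.sum_congr rfl fun c _ => smul_neg _ _
        rw [h1, hu' L hLT hLc]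
        have h5 : w₀ L - -(y L - w₀ L) = y L := by abel
        rw [h5, hy]
        dsimp only
        rw [smul_smul, sgn_sq, one_smul]
      · have hJT := hsub hJ haJ
        rw [caa_congr (z' := w₀) fun L hL => hwT L (hL.trans hJT)]
        exact hw₀' J hJT hJ'
  · intro h b hb z hz hc
    obtain ⟨y, hy, hy'⟩ := hv b hb z (fun J hJ hJ' =>
      hmono J _ (Finset.card_pos.1 (by omega)) (Finset.subset_insert a J) (hz J hJ hJ')) hc
    set z' : Finset Λ → E := fun J => if a ∈ J then sgn a J • y (J.erase a) else z J with hz'
    have hzT : ∀ L : Finset Λ, L ⊆ T → z' L = z L := fun L hL => by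
      rw [hz']; exact if_neg (hnot hL)
    obtain ⟨w, hw, hw'⟩ := h b hb z' (fun J hJ hJ' => by
      by_cases haJ : a ∈ J
      · have h1 : z' J = sgn a J • y (J.erase a) := by rw [hz']; exact if_pos haJ
        rw [h1]
        refine (K _).zsmul_mem ?_ _
        have h2 := hy (J.erase a) (hera hJ) (by rw [Finset.card_erase_of_mem haJ, hJ']; rfl)
        dsimp only at h2
        rwa [Finset.insert_erase haJ] at h2
      · have h1 : z' J = z J := by rw [hz']; exact if_neg haJ
        rw [h1]
        exact hz J (hsub hJ haJ) hJ') (fun J hJ hJ' => by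
      by_cases haJ : a ∈ J
      · obtain ⟨L, hLa, rfl⟩ : ∃ L, a ∉ L ∧ insert a L = J :=
          ⟨J.erase a, Finset.notMem_erase a J, Finset.insert_erase haJ⟩
        have hLT : L ⊆ T := by
          have := hera hJ
          rwa [Finset.erase_insert hLa] at this
        have hLc : L.card = b + 1 := by
          rw [Finset.card_insert_of_notMem hLa] at hJ'
          omega
        rw [caa_insert z' hLa, hzT L hLT]
        have h1 : cd (fun M => sgn a (insert a M) • z' (insert a M)) L = cd y L := by
          refine caa_congr fun M hM => ?_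
          have h3 : z' (insert a M) = sgn a (insert a M) • y ((insert a M).erase a) := by
            rw [hz']; exact if_pos (Finset.mem_insert_self a M)
          have h4 : a ∉ M := fun h => hLa (hM h)
          rw [h3, Finset.erase_insert h4, smul_smul, sgn_sq, one_smul]
        rw [h1, hy' L hLT hLc, sub_self, smul_zero]
      · have hJT := hsub hJ haJ
        rw [caa_congr (z' := z) fun L hL => hzT L (hL.trans hJT)]
        exact hc J hJT hJ')
    refine ⟨w, fun J hJ hJ' => hw J (hJ.trans hTT) hJ', fun J hJ hJ' => ?_⟩
    rw [hw' J (hJ.trans hTT) hJ', hzT J hJ]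

end Pool.Agent.KM
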