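import Pool.Agent.Lib.MP_732f67_ag.KC.DI
import Pool.Agent.Lib.MP_732f67_ag.N.CaU
import Pool.Agent.Lib.MP_732f67_ag.N.CaA

/-!
Part N: comparison of covers, the algebra of cochains.
-/

namespace Pool.Agent.KM

open Pool.Agent.Lib.MP_732f67_ag.KC (cd KVan)
open Pool.Agent.Lib.MP_0b721b_ag (sgn sgn_mul sgn_sq)

variable {Λ Λ' : Type*} [LinearOrder Λ] [LinearOrder Λ'] {E : Type*} [AddCommGroup E]

/-- powers of generators of the unit ideal generate the unit ideal -/
private theorem cal_pow {L : Type*} [Field L] {A : Subring L} {T : Finset Λ} {f : Λ → L}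
    (hf : ∀ c ∈ T, f c ∈ A) (h1 : ∃ g : Λ → L, (∀ c ∈ T, g c ∈ A) ∧ ∑ c ∈ T, g c * f c = 1) (k : ℕ) :
    ∃ g : Λ → L, (∀ c ∈ T, g c ∈ A) ∧ ∑ c ∈ T, g c * f c ^ k = 1 := by
  obtain ⟨g, hg, hs⟩ := h1
  let φ : T → A := fun c => ⟨f c, hf c c.2⟩
  have h2 : Ideal.span (Set.range φ) = ⊤ := by
    rw [Ideal.eq_top_iff_one, Ideal.mem_span_range_iff_exists_fun]
    refine ⟨fun c => ⟨g c, hg c c.2⟩, Subtype.ext ?_⟩
    push_cast
    rw [← hs, ← Finset.sum_coe_sort T (fun c => g c * f c)]
  have h3 := Ideal.span_pow_eq_top _ h2 k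
  have h4 : (fun x : A => x ^ k) '' Set.range φ = Set.range (fun c => φ c ^ k) := by
    rw [← Set.range_comp]
    rfl
  rw [h4, Ideal.eq_top_iff_one, Ideal.mem_span_range_iff_exists_fun] at h3
  obtain ⟨c, hc⟩ := h3
  refine ⟨fun a => if h : a ∈ T then (c ⟨a, h⟩ : L) else 0, fun a ha => ?_, ?_⟩
  · dsimp only
    rw [dif_pos ha]
    exact (c ⟨a, ha⟩).2
  · have h5 := congrArg (fun x : A => (x : L)) hc
    push_cast at h5
    rw [← Finset.sum_coe_sort T, ← h5]
    refine Finset.sum_congr rfl fun a _ => ?_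
    dsimp only
    rw [dif_pos a.2]

private theorem cal_up {L : Type*} [Field L] {A : Subring L} {M : AddSubgroup L}
    (hM : ∀ a ∈ A, ∀ x ∈ M, a * x ∈ M) {u x : L} (hu : u ∈ A) {k k' : ℕ} (hk : k ≤ k')
    (h : u ^ k * x ∈ M) : u ^ k' * x ∈ M := by
  obtain ⟨m, rfl⟩ := Nat.exists_eq_add_of_le hk
  rw [pow_add, mul_comm (u ^ k), mul_assoc]
  exact hM _ (A.pow_mem hu m) _ h

/-- Localizations: the open sets `f c ≠ 0` of an affine scheme.

PROOF. Let `z` be a cocycle of degree `b`; there is `k` with `(∏ c ∈ J, f c) ^ k * z J ∈ M` for all `J ⊆ T` (finitely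
many; multiply by elements of `A`). The `f c ^ k`, `c ∈ T`, generate the unit ideal of `A`:
`∑ g c * f c ^ k = 1`, `g c ∈ A`. `w K = ∑ c ∈ T \ K, g c * f c ^ k * sgn c (insert c K) • z (insert c K)` is in
`K K`, and `cd w = z` by the cocycle condition (`sgn_mul`). The second statement in the same way. -/
theorem kv_loc {L : Type*} [Field L] {A : Subring L} {M : AddSubgroup L}
    (hM : ∀ a ∈ A, ∀ x ∈ M, a * x ∈ M) {T : Finset Λ} {f : Λ → L} (hf : ∀ c ∈ T, f c ∈ A)
    (h1 : ∃ g : Λ → L, (∀ c ∈ T, g c ∈ A) ∧ ∑ c ∈ T, g c * f c = 1)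
    {K : Finset Λ → AddSubgroup L}
    (hK : ∀ J ⊆ T, ∀ x, x ∈ K J ↔ ∃ k : ℕ, (∏ c ∈ J, f c) ^ k * x ∈ M) :
    KV K T ∧ ∀ x, (∀ c ∈ T, x ∈ K {c}) → x ∈ M := by
  classical
  constructor
  · intro b hb z hz hc
    -- a common exponent
    have hex : ∀ J : Finset Λ, ∃ k : ℕ, J ⊆ T → J.card = b + 1 → (∏ c ∈ J, f c) ^ k * z J ∈ M := by
      intro J
      by_cases h : J ⊆ T ∧ J.card = b + 1
      · obtain ⟨k, hk⟩ := (hK J h.1 _).1 (hz J h.1 h.2)
        exact ⟨k, fun _ _ => hk⟩
      · exact ⟨0, fun h2 h3 => absurd ⟨h2, h3⟩ h⟩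
    choose e he using hex
    set k := T.powerset.sup e with hkdef
    have hk : ∀ J ⊆ T, J.card = b + 1 → (∏ c ∈ J, f c) ^ k * z J ∈ M := by
      intro J hJ hJc
      exact cal_up hM (A.prod_mem fun c hc => hf c (hJ hc))
        (Finset.le_sup (f := e) (Finset.mem_powerset.2 hJ)) (he J hJ hJc)
    obtain ⟨g, hg, hs⟩ := cal_pow hf h1 k
    refine ⟨fun J => ∑ c ∈ T \ J, (g c * f c ^ k) * (sgn c (insert c J) • z (insert c J)), ?_, ?_⟩
    · intro J hJ hJc
      rw [hK J hJ]
      refine ⟨k, ?_⟩
      rw [Finset.mul_sum]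
      refine M.sum_mem fun c hc => ?_
      rw [Finset.mem_sdiff] at hc
      have h2 : (∏ c ∈ J, f c) ^ k * (g c * f c ^ k * (sgn c (insert c J) • z (insert c J)))
          = g c * (sgn c (insert c J) • ((∏ c ∈ insert c J, f c) ^ k * z (insert c J))) := by
        rw [Finset.prod_insert hc.2, mul_pow]
        simp only [zsmul_eq_mul]
        ring
      rw [h2]
      refine hM _ (hg c hc.1) _ (M.zsmul_mem (hk _ (Finset.insert_subset hc.1 hJ) ?_) _)
      rw [Finset.card_insert_of_notMem hc.2, hJc]
    · intro J hJ hJc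
      unfold Pool.Agent.Lib.MP_732f67_ag.KC.cd
      -- the terms with `c = a` and the terms with `c ∉ J`
      have hsplit : ∀ a ∈ J, T \ J.erase a = insert a (T \ J) := by
        intro a ha
        ext c
        simp only [Finset.mem_sdiff, Finset.mem_erase, Finset.mem_insert]
        by_cases hca : c = a
        · subst hca
          simp [hJ ha]
        · simp [hca]
      have hterm : ∀ a ∈ J, sgn a J • ∑ c ∈ T \ J.erase a,
          (g c * f c ^ k) * (sgn c (insert c (J.erase a)) • z (insert c (J.erase a)))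
          = (g a * f a ^ k) * z J + ∑ c ∈ T \ J, (g c * f c ^ k) *
            ((-(sgn c (insert c J) * sgn a (insert c J))) • z ((insert c J).erase a)) := by
        intro a ha
        have hna : a ∉ T \ J := fun h => (Finset.mem_sdiff.1 h).2 ha
        rw [hsplit a ha, Finset.sum_insert hna, Finset.insert_erase ha, smul_add]
        congr 1
        · rw [mul_smul_comm, smul_smul, sgn_sq, one_smul]
        · rw [Finset.smul_sum]
          refine Finset.sum_congr rfl fun c hc => ?_
          have hcJ : c ∉ J := (Finset.mem_sdiff.1 hc).2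
          have hca : c ≠ a := fun h => hcJ (h ▸ ha)
          have hins : insert c (J.erase a) = (insert c J).erase a := by
            rw [Finset.erase_insert_of_ne hca]
          rw [hins, mul_smul_comm, mul_smul_comm, smul_smul]
          congr 1
          have h3 := sgn_mul (J := insert c J) (Finset.mem_insert_of_mem ha)
            (Finset.mem_insert_self c J) (Ne.symm hca)
          rw [Finset.erase_insert hcJ] at h3
          have h4 := sgn_sq a (insert c J)
          have h5 := sgn_sq a J
          have h6 : sgn a J * sgn c ((insert c J).erase a)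
              = (sgn a (insert c J) * sgn a (insert c J)) * (sgn a J * sgn c ((insert c J).erase a)) := by
            rw [h4, one_mul]
          rw [h6]
          calc (sgn a (insert c J) * sgn a (insert c J)) * (sgn a J * sgn c ((insert c J).erase a))
              = sgn a (insert c J) * sgn a J * (sgn a (insert c J) * sgn c ((insert c J).erase a)) := by ring
            _ = -(sgn a (insert c J) * sgn c (insert c J)) * (sgn a J * sgn a J) := by rw [h3]; ring
            _ = -(sgn c (insert c J) * sgn a (insert c J)) := by rw [h5]; ring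
      rw [Finset.sum_congr rfl hterm, Finset.sum_add_distrib, Finset.sum_comm]
      have hcoc : ∀ c ∈ T \ J, ∑ a ∈ J, (g c * f c ^ k) *
            ((-(sgn c (insert c J) * sgn a (insert c J))) • z ((insert c J).erase a))
          = (g c * f c ^ k) * z J := by
        intro c hc'
        rw [Finset.mem_sdiff] at hc'
        have h2 := hc (insert c J) (Finset.insert_subset hc'.1 hJ)
          (by rw [Finset.card_insert_of_notMem hc'.2, hJc])
        unfold Pool.Agent.Lib.MP_732f67_ag.KC.cd at h2
        rw [Finset.sum_insert hc'.2, Finset.erase_insert hc'.2] at h2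
        have h3 : ∑ a ∈ J, sgn a (insert c J) • z ((insert c J).erase a) = -(sgn c (insert c J) • z J) :=
          eq_neg_of_add_eq_zero_right h2
        rw [← Finset.mul_sum]
        congr 1
        have h4 : ∀ a ∈ J, (-(sgn c (insert c J) * sgn a (insert c J))) • z ((insert c J).erase a)
            = -(sgn c (insert c J)) • (sgn a (insert c J) • z ((insert c J).erase a)) := by
          intro a _
          rw [smul_smul, neg_mul]
        rw [Finset.sum_congr rfl h4, ← Finset.smul_sum, h3, smul_neg, neg_smul, neg_neg, smul_smul,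
          sgn_sq, one_smul]
      rw [Finset.sum_congr rfl hcoc, ← Finset.sum_mul, ← Finset.sum_mul, ← add_mul,
        add_comm, Finset.sum_sdiff hJ, hs, one_mul]
  · intro x hx
    have hex : ∀ c : Λ, ∃ k : ℕ, c ∈ T → f c ^ k * x ∈ M := by
      intro c
      by_cases h : c ∈ T
      · obtain ⟨k, hk⟩ := (hK {c} (Finset.singleton_subset_iff.2 h) x).1 (hx c h)
        rw [Finset.prod_singleton] at hk
        exact ⟨k, fun _ => hk⟩
      · exact ⟨0, fun h2 => absurd h2 h⟩
    choose e he using hex
    set k := T.sup e with hkdef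
    obtain ⟨g, hg, hs⟩ := cal_pow hf h1 k
    have h2 : x = ∑ c ∈ T, g c * (f c ^ k * x) := by
      calc x = 1 * x := (one_mul x).symm
        _ = (∑ c ∈ T, g c * f c ^ k) * x := by rw [hs]
        _ = ∑ c ∈ T, g c * (f c ^ k * x) := by
            rw [Finset.sum_mul]
            exact Finset.sum_congr rfl fun c _ => mul_assoc _ _ _
    rw [h2]
    exact M.sum_mem fun c hc => hM _ (hg c hc) _ (cal_up hM (hf c hc) (Finset.le_sup (f := e) hc) (he c hc))

end Pool.Agent.KM
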