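import Pool.Agent.Lib.MP_732f67_ag.N.AmpA

/-!
Part N: fine affine covers.
-/

namespace Pool.Agent.KM

variable {F : Type} [Field F] [Algebra ℂ F] {Y : Set (Subalgebra ℂ F)}
  {H E : Subalgebra ℂ F → Fˣ}

/-- Existence of fine covers.

PROOF. `VA Y (H ^ m) V`, `Y = Pts V`. For every `O ∈ Y` there are `k ≥ 1` and `g ∈ V ^ k` with `g` a generator of
`H ^ (m k)` at `O` and `N O ⊆ cht (V ^ k) g` (`va3_nb`), so `N O ⊆ O'` if `g` is a generator at `O'`
(`BF.cht_le`). By compactness (`va2_compact`) finitely many of them are enough; `e` = the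
product of the numbers `m k`, powers of the `g`. -/
theorem exists_cov (hY : IsProj Y) (hH : IsCar Y H) (hA : Amp Y H)
    {N : Subalgebra ℂ F → Finset F} (hN : Nbd Y N) :
    ∃ (e n : ℕ) (w : Fin n → F), 1 ≤ e ∧ Cov Y (H ^ e) w N := by
  classical
  have _ := hH
  obtain ⟨m, hm, V, hV⟩ := hA
  have hVf := hV.fin
  have hspan : Submodule.span ℂ (Set.range fun i => ((Module.finBasis ℂ V i : V) : F)) = V := by
    have h1 := congrArg (Submodule.map V.subtype) (Module.finBasis ℂ V).span_eq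
    rw [Submodule.map_span, ← Set.range_comp, Submodule.map_subtype_top] at h1
    exact h1
  have hz : ∀ i, ((Module.finBasis ℂ V i : V) : F) ≠ 0 := fun i h0 =>
    (Module.finBasis ℂ V).ne_zero i (Subtype.ext h0)
  rcases Nat.eq_zero_or_pos (Module.finrank ℂ V) with hN0 | hN0
  · have hY0 : ∀ O ∈ Y, False := by
      intro O hO
      have hV0 : V = ⊥ := Submodule.finrank_eq_zero.1 hN0
      rw [hV.eq] at hO
      obtain ⟨v, hv, hv0, -⟩ := hO
      rw [hV0, Submodule.mem_bot] at hv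
      exact hv0 hv
    exact ⟨1, 0, Fin.elim0, le_rfl, fun c => c.elim0, fun O hO => (hY0 O hO).elim,
      fun c => c.elim0⟩
  obtain ⟨d, N', K, z, σ, hd, hz0, hs, hM, hP⟩ := exists_cover (k := ℂ) hN0
    (fun i => ((Module.finBasis ℂ V i : V) : F)) hz
    (fun e g => ∃ O ∈ Y, ∀ s ∈ N O, s ∈ cht (V ^ e) g) (by
      rw [hspan]
      intro O hO
      have hO' : O ∈ Y := by
        rw [hV.eq]
        exact hO
      obtain ⟨e, g, he, hg, hg0, hle, hmem⟩ := va3_nb hO (N O) (hN O hO')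
      exact ⟨e, g, he, hg, hg0, hle, O, hO', hmem⟩)
  rw [hspan] at hs hP
  have hVd := hV.pow hY hd
  have hXd : Y = Pts (V ^ d) := hVd.eq
  have hzV : ∀ a, z (σ a) ∈ V ^ d := fun a => by
    rw [← hs]
    exact Submodule.subset_span ⟨_, rfl⟩
  have hBF := hVd.toBF
  rw [hs] at hM
  refine ⟨m * d, K, fun c => z (σ c), Nat.mul_pos hm hd, ?_⟩
  rw [pow_mul]
  refine ⟨fun c => ⟨hz0 _, hBF.sec (hzV c)⟩, fun O hO => ?_, fun c => ?_⟩
  · have hO' := hO
    rw [hXd] at hO'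
    obtain ⟨i, -, hi⟩ := va3_cover hs hM hO'
    exact ⟨i, hBF.un_of_cht_le hO (hzV i) (hz0 _) hi⟩
  · obtain ⟨e, q, g, hq, he, hder, hzg, hg, O, hO, hρ⟩ := hP c
    have hg0 : g ≠ 0 := by
      rintro rfl
      rw [zero_pow (by omega)] at hzg
      exact hz0 _ hzg
    refine ⟨O, hO, fun O' hO' hu s hs => ?_⟩
    have h1 := hBF.cht_le hO' (hzV c) hu
    rw [hder, hzg, cht_pow hq hg hg0] at h1
    exact h1 (hρ s hs)

theorem Cov.mono {n : ℕ} {w : Fin n → F} {N N' : Subalgebra ℂ F → Finset F}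
    (h : Cov Y H w N) (hN : ∀ O ∈ Y, N' O ⊆ N O) : Cov Y H w N' :=
  ⟨h.sec, h.cov, fun c => by
    obtain ⟨O, hO, h1⟩ := h.fine c
    exact ⟨O, hO, fun O' hO' hu s hs => h1 O' hO' hu s (hN O hO hs)⟩⟩

/-- a cover has at least one chart -/
theorem Cov.ne_zero (hY : IsProj Y) {n : ℕ} {w : Fin n → F} {N : Subalgebra ℂ F → Finset F}
    (h : Cov Y H w N) : n ≠ 0 := by
  rintro rfl
  obtain ⟨O, hO, -⟩ := hY.exists_center ⊤ fun _ => ValuationSubring.mem_top _
  obtain ⟨c, -⟩ := h.cov O hO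
  exact c.elim0

/-- the divisor `E` is principal on the neighbourhoods given by a suitable `N`

PROOF. The definition of `IsCar`. -/
theorem exists_nbd_car (hE : IsCar Y E) :
    ∃ N : Subalgebra ℂ F → Finset F, Nbd Y N ∧ ∀ O ∈ Y, ∀ O' ∈ Y, (∀ s ∈ N O, s ∈ O') →
      Un O' ((E O' : F) / E O) := by
  have h1 : ∀ O : Subalgebra ℂ F, ∃ S : Finset F, O ∈ Y → (∀ s ∈ S, s ∈ O) ∧
      ∀ O' ∈ Y, (∀ s ∈ S, s ∈ O') → Un O' (E O / E O' : Fˣ) := by
    intro O
    by_cases hO : O ∈ Y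
    · obtain ⟨S, hS⟩ := hE O hO
      exact ⟨S, fun _ => hS⟩
    · exact ⟨∅, fun h2 => absurd h2 hO⟩
  choose S hS using h1
  refine ⟨S, fun O hO => (hS O hO).1, fun O hO O' hO' hs => ?_⟩
  have h2 := ((hS O hO).2 O' hO' hs).inv
  rwa [Units.val_div_eq_div_val, inv_div] at h2

end Pool.Agent.KM
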