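import Pool.Agent.Lib.MP_732f67_ag.N.CvA
import Pool.Agent.Lib.MP_732f67_ag.N.CvE
import Pool.Agent.Lib.MP_732f67_ag.N.AmpB

/-!
Part N: comparison of covers, geometry of the affine charts.
-/

namespace Pool.Agent.KM

open Pool.Agent.Lib.MP_732f67_ag.KC (cd KVan)

variable {F : Type} [Field F] [Algebra ℂ F] {Y : Set (Subalgebra ℂ F)}
  {H H₁ D E : Subalgebra ℂ F → Fˣ}

/-- `U` is the affine open set `v ≠ 0`, `v` a section of the ample divisor `D` -/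
structure Cht (Y : Set (Subalgebra ℂ F)) (D : Subalgebra ℂ F → Fˣ) (v : F)
    (U : Set (Subalgebra ℂ F)) : Prop where
  car : IsCar Y D
  amp : Amp Y D
  ne : v ≠ 0
  sec : v ∈ Sec Y D
  eq : ∀ O, O ∈ U ↔ O ∈ Y ∧ Un O (v * D O)

/-- Affine charts.

PROOF. `VA Y (D ^ m) V`; we may assume `v ^ m ∈ V` (add it to `V`: `Y ⊆ Pts (V + ℂ v ^ m)`, `IsProj.eq_pts`).
`A = cht V (v ^ m)`. -/
theorem Cht.exists_ring (hY : IsProj Y) {v : F} {U : Set (Subalgebra ℂ F)} (h : Cht Y D v U) :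
    ∃ A : Subalgebra ℂ F, A.FG ∧ ∀ O, LocAt A O ↔ O ∈ U := by
  obtain ⟨m, hm, V, hV⟩ := h.amp
  have hv0 : v ^ m ≠ 0 := pow_ne_zero m h.ne
  have hvs : v ^ m ∈ Sec Y (D ^ m) := by
    intro O hO
    rw [Pi.pow_apply, Units.val_pow_eq_pow_val, ← mul_pow]
    exact pow_mem (h.sec O hO) m
  obtain ⟨V', hV'⟩ : ∃ V' : Submodule ℂ F, V' = V ⊔ Submodule.span ℂ {v ^ m} := ⟨_, rfl⟩
  have hle : V ≤ V' := hV' ▸ le_sup_left
  have hmem : v ^ m ∈ V' := by
    rw [hV']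
    exact (le_sup_right : Submodule.span ℂ {v ^ m} ≤ _) (Submodule.mem_span_singleton_self _)
  have hBF : BF Y (D ^ m) V' := by
    refine ⟨?_, ?_, fun O hO => ?_⟩
    · have := hV.fin
      rw [hV']
      infer_instance
    · rw [hV']
      refine sup_le hV.sec ?_
      rw [Submodule.span_singleton_le_iff_mem]
      exact hvs
    · obtain ⟨f, hf, hu⟩ := hV.gen O hO
      exact ⟨f, hle hf, hu⟩
  have hYV : Y = Pts V' := by
    refine hY.eq_pts fun O hO => ?_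
    have hO' := hO
    rw [hV.eq] at hO'
    obtain ⟨w, hw, hw0, hl⟩ := hO'
    have hu := hV.toBF.un_of_cht_le hO hw hw0 hl.le
    refine ⟨w, hle hw, hw0, hl.of_le ?_ (hBF.cht_le hO (hle hw) hu)⟩
    refine Algebra.adjoin_le ?_
    rintro _ ⟨z, hz, rfl⟩
    exact Algebra.subset_adjoin ⟨z, hle hz, rfl⟩
  refine ⟨cht V' (v ^ m), cht_fg hBF.fin _, fun O => ⟨fun hO => ?_, fun hO => ?_⟩⟩
  · have hOY : O ∈ Y := by
      rw [hYV]
      exact ⟨v ^ m, hmem, hv0, hO⟩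
    have hu := hBF.un_of_cht_le hOY hmem hv0 hO.le
    rw [Pi.pow_apply, Units.val_pow_eq_pow_val, ← mul_pow] at hu
    rw [h.eq]
    refine ⟨hOY, mul_ne_zero h.ne (D O).ne_zero, h.sec O hOY, ?_⟩
    have hne : v * (D O : F) ≠ 0 := mul_ne_zero h.ne (D O).ne_zero
    have e : (v * (D O : F))⁻¹ = (v * (D O : F)) ^ (m - 1) * ((v * (D O : F)) ^ m)⁻¹ := by
      obtain ⟨r, rfl⟩ : ∃ r, m = r + 1 := ⟨m - 1, by omega⟩
      rw [Nat.add_sub_cancel, pow_succ]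
      field_simp
    rw [e]
    exact O.mul_mem (pow_mem (h.sec O hOY) _) hu.2.2
  · obtain ⟨hOY, hu⟩ := (h.eq O).1 hO
    have hu' := hu.pow m
    rw [mul_pow, ← Units.val_pow_eq_pow_val, ← Pi.pow_apply] at hu'
    refine Pts.locAt (V := V') ?_ hmem ?_ ?_
    · rw [← hYV]
      exact hOY
    · exact hv0
    · exact hBF.cht_le hOY hmem hu'

/-- the sections of `E` over the intersection of the open sets `U c`, `c ∈ J` -/
def KU {Λ : Type} (Y : Set (Subalgebra ℂ F)) (U : Λ → Set (Subalgebra ℂ F))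
    (E : Subalgebra ℂ F → Fˣ) (J : Finset Λ) : AddSubgroup F where
  carrier := {f | ∀ O ∈ Y, (∀ c ∈ J, O ∈ U c) → f * E O ∈ O}
  zero_mem' O _ _ := by
    rw [zero_mul]
    exact O.zero_mem
  add_mem' hf hg O hO h := by
    rw [add_mul]
    exact O.add_mem (hf O hO h) (hg O hO h)
  neg_mem' hf O hO h := by
    rw [neg_mul]
    exact O.neg_mem (hf O hO h)

end Pool.Agent.KM
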