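import Pool.Agent.Lib.MP_732f67_ag.N.CvA
import Pool.Agent.Lib.MP_732f67_ag.N.CvE
import Pool.Agent.Lib.MP_732f67_ag.N.AmpB
import Pool.Agent.Lib.MP_732f67_ag.N.CdR

/-!
Part N: comparison of covers, geometry of the affine charts.
-/

namespace Pool.Agent.KM

open Pool.Agent.Lib.MP_732f67_ag.KC (cd KVan)

variable {F : Type} [Field F] [Algebra ℂ F] {Y : Set (Subalgebra ℂ F)}
  {H H₁ D E : Subalgebra ℂ F → Fˣ}

/-- an element of all the local rings at which `f` is a unit -/
theorem CdC_mem {A : Subalgebra ℂ F} {f y : F} (hf : f ∈ A)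
    (h : ∀ O, LocAt A O → f⁻¹ ∈ O → y ∈ O) : ∃ k : ℕ, f ^ k * y ∈ A := by
  let I : Ideal A :=
    { carrier := {a | (a : F) * y ∈ A}
      add_mem' := by
        intro a b ha hb
        show ((a + b : A) : F) * y ∈ A
        rw [AddMemClass.coe_add, add_mul]
        exact A.add_mem ha hb
      zero_mem' := by
        show ((0 : A) : F) * y ∈ A
        rw [ZeroMemClass.coe_zero, zero_mul]
        exact A.zero_mem
      smul_mem' := by
        intro a b hb
        show ((a * b : A) : F) * y ∈ A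
        rw [MulMemClass.coe_mul, mul_assoc]
        exact A.mul_mem a.2 hb }
  have h1 : (⟨f, hf⟩ : A) ∈ I.radical := by
    rw [Ideal.radical_eq_sInf, Ideal.mem_sInf]
    rintro P ⟨hIP, hP⟩
    by_contra hfP
    have := hP
    have h2 : y ∈ ordLoc A P := h _ (locAt_ordLoc A P) ((mem_ordLoc P _).2
      ⟨1, ⟨f, hf⟩, hfP, by rw [OneMemClass.coe_one, one_div]⟩)
    obtain ⟨a, b, hb, hab⟩ := (mem_ordLoc P _).1 h2
    refine hb (hIP ?_)
    show (b : F) * y ∈ A
    have hb0 : (b : F) ≠ 0 := fun h0 => hb (by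
      rw [show b = 0 from Subtype.ext h0]
      exact P.zero_mem)
    rw [hab, mul_div_cancel₀ _ hb0]
    exact a.2
  obtain ⟨k, hk⟩ := h1
  exact ⟨k, hk⟩

/-- elements without common zeros generate the unit ideal -/
theorem CdC_one {Λ : Type} {A : Subalgebra ℂ F} {T : Finset Λ} {f : Λ → F}
    (hf : ∀ c ∈ T, f c ∈ A) (h : ∀ O, LocAt A O → ∃ c ∈ T, Un O (f c)) :
    ∃ g : Λ → F, (∀ c ∈ T, g c ∈ A) ∧ ∑ c ∈ T, g c * f c = 1 := by
  classical
  let f' : T → A := fun c => ⟨f c, hf c c.2⟩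
  have h1 : (1 : A) ∈ Ideal.span (Set.range f') := by
    by_contra hne
    have hne' : Ideal.span (Set.range f') ≠ ⊤ := fun h0 => hne (by rw [h0]; trivial)
    obtain ⟨P, hP, hIP⟩ := Ideal.exists_le_maximal _ hne'
    have := hP.isPrime
    obtain ⟨c, hc, hu⟩ := h _ (locAt_ordLoc A P)
    obtain ⟨a, b, hb, hab⟩ := (mem_ordLoc P _).1 hu.2.2
    have hb0 : (b : F) ≠ 0 := fun h0 => hb (by
      rw [show b = 0 from Subtype.ext h0]
      exact P.zero_mem)
    apply hb
    have h2 : b = a * f' ⟨c, hc⟩ := by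
      refine Subtype.ext ?_
      show (b : F) = a * f c
      have h3 : (a : F) = (f c)⁻¹ * b := by rw [hab, div_mul_cancel₀ _ hb0]
      rw [h3, mul_right_comm, inv_mul_cancel₀ hu.1, one_mul]
    rw [h2]
    exact P.mul_mem_left a (hIP (Ideal.subset_span ⟨⟨c, hc⟩, rfl⟩))
  obtain ⟨g, hg⟩ := Ideal.mem_span_range_iff_exists_fun.1 h1
  refine ⟨fun c => if hc : c ∈ T then (g ⟨c, hc⟩ : F) else 0, fun c hc => ?_, ?_⟩
  · show (if hc : c ∈ T then (g ⟨c, hc⟩ : F) else 0) ∈ A
    rw [dif_pos hc]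
    exact (g ⟨c, hc⟩).2
  · rw [← Finset.sum_coe_sort T (fun c => (if hc : c ∈ T then (g ⟨c, hc⟩ : F) else 0) * f c)]
    have h2 := congrArg (Subtype.val : A → F) hg
    rw [AddSubmonoidClass.coe_finsetSum] at h2
    rw [← OneMemClass.coe_one A, ← h2]
    refine Finset.sum_congr rfl fun c _ => ?_
    rw [dif_pos c.2]
    rfl

/-- Vanishing on the affine chart `V`, on which `E` and the divisors `D c` are principal.

PROOF. `A` the ring of `V` (`Cht.exists_ring`), so `A` is the intersection of the elements of `V`. `δ c`, `ε` the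
equations of `D c`, `E` on `V`. `f c = w c * δ c ∈ A`, and `O ∈ V` belongs to `U c` iff `f c` is a unit of
`O`; by `hcov` the `f c` generate the unit ideal of `A`. An element `x` of `KU Y U' E (insert a J)` is one
with `x * ε ∈ A_f`, `f = ∏ f c`: the intersection of the local rings of the localization `A_f`.
`kv_loc` for `M = ε⁻¹ A`. -/
theorem kv_chart (hY : IsProj Y) {Λ : Type} [LinearOrder Λ] {T : Finset Λ} {a : Λ}
    (ha : a ∉ T) {U : Λ → Set (Subalgebra ℂ F)} {Dc : Λ → Subalgebra ℂ F → Fˣ} {w : Λ → F}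
    (hU : ∀ c ∈ insert a T, Cht Y (Dc c) (w c) (U c))
    (hp : ∀ c ∈ T, ∃ δ : F, δ ≠ 0 ∧ ∀ O ∈ U a, Un O ((Dc c O : F) / δ))
    (hE : ∃ ε : F, ε ≠ 0 ∧ ∀ O ∈ U a, Un O ((E O : F) / ε))
    (hcov : ∀ O ∈ Y, ∃ c ∈ T, O ∈ U c) :
    KV (fun J => KU Y U E (insert a J)) T ∧
      ∀ x, (∀ c ∈ T, x ∈ KU Y U E {a, c}) → x ∈ KU Y U E {a} := by
  have _ := ha
  obtain ⟨A, -, hA⟩ := (hU a (Finset.mem_insert_self a T)).exists_ring hY
  have hUY : ∀ O ∈ U a, O ∈ Y := fun O hO =>
    (((hU a (Finset.mem_insert_self a T)).eq O).1 hO).1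
  choose! δ hδ0 hδ using hp
  obtain ⟨ε, hε0, hε⟩ := hE
  have hfO : ∀ c ∈ T, ∀ O ∈ U a, w c * δ c ∈ O ∧ (O ∈ U c ↔ Un O (w c * δ c)) := by
    intro c hc O hO
    have h1 := hU c (Finset.mem_insert_of_mem hc)
    have h2 := hδ c hc O hO
    have h3 : w c * δ c = w c * (Dc c O : F) * ((Dc c O : F) / δ c)⁻¹ := by
      rw [inv_div, mul_assoc, mul_div_cancel₀ _ (Dc c O).ne_zero]
    have h4 : w c * (Dc c O : F) = w c * δ c * ((Dc c O : F) / δ c) := by
      rw [mul_assoc, mul_div_cancel₀ _ (hδ0 c hc)]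
    refine ⟨?_, ?_⟩
    · rw [h3]
      exact O.mul_mem (h1.sec O (hUY O hO)) h2.2.2
    · rw [h1.eq]
      constructor
      · rintro ⟨-, hu⟩
        rw [h3]
        exact hu.mul h2.inv
      · intro hu
        refine ⟨hUY O hO, ?_⟩
        rw [h4]
        exact hu.mul h2
  have hfA : ∀ c ∈ T, w c * δ c ∈ A := fun c hc =>
    mem_of_locAt fun O hO => (hfO c hc O ((hA O).1 hO)).1
  have h1 := CdC_one (f := fun c => w c * δ c) hfA (fun O hO => by
    obtain ⟨c, hc, hOc⟩ := hcov O (hUY O ((hA O).1 hO))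
    exact ⟨c, hc, (hfO c hc O ((hA O).1 hO)).2.1 hOc⟩)
  let M : AddSubgroup F :=
    { carrier := {x | x * ε ∈ A}
      add_mem' := by
        intro x y hx hy
        show (x + y) * ε ∈ A
        rw [add_mul]
        exact A.add_mem hx hy
      zero_mem' := by
        show 0 * ε ∈ A
        rw [zero_mul]
        exact A.zero_mem
      neg_mem' := by
        intro x hx
        show -x * ε ∈ A
        rw [neg_mul]
        exact A.neg_mem hx }
  have hMU : ∀ x, x ∈ M ↔ x * ε ∈ A := fun x => Iff.rfl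
  have hεO : ∀ O ∈ U a, ∀ x : F, x * E O ∈ O ↔ x * ε ∈ O := by
    intro O hO x
    have h2 := hε O hO
    constructor
    · intro h3
      have h4 : x * ε = x * (E O : F) * ((E O : F) / ε)⁻¹ := by
        rw [inv_div, mul_assoc, mul_div_cancel₀ _ (E O).ne_zero]
      rw [h4]
      exact O.mul_mem h3 h2.2.2
    · intro h3
      have h4 : x * (E O : F) = x * ε * ((E O : F) / ε) := by
        rw [mul_assoc, mul_div_cancel₀ _ hε0]
      rw [h4]
      exact O.mul_mem h3 h2.2.1
  obtain ⟨h2, h3⟩ := kv_loc (A := A.toSubring) (M := M) (fun b hb x hx => by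
      show b * x * ε ∈ A
      rw [mul_assoc]
      exact A.mul_mem hb hx) (T := T) (f := fun c => w c * δ c) hfA h1
    (K := fun J => KU Y U E (insert a J)) (fun J hJ x => by
      constructor
      · intro hx
        obtain ⟨k, hk⟩ := CdC_mem (A := A) (f := ∏ c ∈ J, w c * δ c) (y := x * ε)
          (Subalgebra.prod_mem _ fun c hc => hfA c (hJ hc)) (fun O hO hinv => by
            have hOa := (hA O).1 hO
            rw [← hεO O hOa]
            refine hx O (hUY O hOa) fun c hc => ?_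
            rcases Finset.mem_insert.1 hc with rfl | hc
            · exact hOa
            · rw [(hfO c (hJ hc) O hOa).2]
              have hne : w c * δ c ≠ 0 :=
                mul_ne_zero (hU c (Finset.mem_insert_of_mem (hJ hc))).ne (hδ0 c (hJ hc))
              refine ⟨hne, (hfO c (hJ hc) O hOa).1, ?_⟩
              have h4 : (w c * δ c)⁻¹ =
                  (∏ c ∈ J.erase c, w c * δ c) * (∏ c ∈ J, w c * δ c)⁻¹ := by
                have hgen : ∀ p Q : F, Q ≠ 0 → p⁻¹ = Q * (p * Q)⁻¹ := fun p Q hQ => by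
                  rw [mul_inv, mul_left_comm, mul_inv_cancel₀ hQ, mul_one]
                rw [← Finset.mul_prod_erase J (fun c => w c * δ c) hc]
                exact hgen _ _ (Finset.prod_ne_zero_iff.2 fun c' hc' => mul_ne_zero
                  (hU c' (Finset.mem_insert_of_mem (hJ (Finset.mem_of_mem_erase hc')))).ne
                  (hδ0 c' (hJ (Finset.mem_of_mem_erase hc'))))
              rw [h4]
              exact O.mul_mem (Subalgebra.prod_mem _ fun c' hc' =>
                (hfO c' (hJ (Finset.mem_of_mem_erase hc')) O hOa).1) hinv)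
        refine ⟨k, ?_⟩
        rw [hMU, mul_assoc]
        exact hk
      · rintro ⟨k, hk⟩ O hO hOc
        have hOa := hOc a (Finset.mem_insert_self a J)
        rw [hεO O hOa]
        rw [hMU, mul_assoc] at hk
        have hu : Un O (∏ c ∈ J, w c * δ c) := Un.prod _ fun c hc =>
          (hfO c (hJ hc) O hOa).2.1 (hOc c (Finset.mem_insert_of_mem hc))
        have h4 := O.mul_mem (hu.pow k).2.2 (((hA O).2 hOa).le hk)
        rwa [inv_mul_cancel_left₀ (hu.pow k).1] at h4)
  refine ⟨h2, fun x hx => ?_⟩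
  have h4 := h3 x hx
  rw [hMU] at h4
  intro O hO hOc
  have hOa := hOc a (Finset.mem_singleton_self a)
  rw [hεO O hOa]
  exact ((hA O).2 hOa).le h4

end Pool.Agent.KM
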