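import Pool.Agent.Lib.MP_732f67_ag.N.CvA
import Pool.Agent.Lib.MP_732f67_ag.N.CvE
import Pool.Agent.Lib.MP_732f67_ag.N.AmpB
import Pool.Agent.Lib.MP_732f67_ag.N.CdR
import Pool.Agent.Lib.MP_732f67_ag.N.CdC

/-!
Part N: comparison of covers, geometry of the affine charts.
-/

namespace Pool.Agent.KM

open Pool.Agent.Lib.MP_732f67_ag.KC (cd KVan)

variable {F : Type} [Field F] [Algebra ℂ F] {Y : Set (Subalgebra ℂ F)}
  {H H₁ D E : Subalgebra ℂ F → Fˣ}

private theorem CdU_nonempty {X : Set (Subalgebra ℂ F)} (hX : IsProj X) : X.Nonempty := by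
  obtain ⟨V, -, hV0, hfr, rfl⟩ := hX
  obtain ⟨v, hv, hv0⟩ := Submodule.exists_mem_ne_zero_of_ne_bot hV0
  refine ⟨⊤, v, hv, hv0, ⊥, Ideal.isPrime_bot, fun x => ⟨fun _ => ?_, fun _ => Algebra.mem_top⟩⟩
  obtain ⟨a, b, hb, hx⟩ := hfr v hv hv0 x
  exact ⟨a, b, fun h => hb (by rw [Ideal.mem_bot.1 h]; rfl), hx⟩

/-- PROOF. `kv_add` and `kv_chart`, induction on the number of elements of `S`. -/
theorem kv_union (hY : IsProj Y) {Λ : Type} [LinearOrder Λ] {T S : Finset Λ}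
    {U : Λ → Set (Subalgebra ℂ F)} {Dc : Λ → Subalgebra ℂ F → Fˣ} {w : Λ → F}
    (hU : ∀ c ∈ T ∪ S, Cht Y (Dc c) (w c) (U c))
    (hp : ∀ a ∈ S, ∀ c ∈ T ∪ S, ∃ δ : F, δ ≠ 0 ∧ ∀ O ∈ U a, Un O ((Dc c O : F) / δ))
    (hE : ∀ a ∈ S, ∃ ε : F, ε ≠ 0 ∧ ∀ O ∈ U a, Un O ((E O : F) / ε))
    (hcov : ∀ O ∈ Y, ∃ c ∈ T, O ∈ U c) : KV (KU Y U E) T ↔ KV (KU Y U E) (T ∪ S) := by
  classical
  induction S using Finset.induction_on with
  | empty => rw [Finset.union_empty]
  | insert a S haS ih =>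
    have hsub : T ∪ S ⊆ T ∪ insert a S :=
      Finset.union_subset_union_right (Finset.subset_insert a S)
    have ih' := ih (fun c hc => hU c (hsub hc))
      (fun b hb c hc => hp b (Finset.mem_insert_of_mem hb) c (hsub hc))
      (fun b hb => hE b (Finset.mem_insert_of_mem hb))
    rw [ih', Finset.union_insert]
    by_cases ha : a ∈ T ∪ S
    · rw [Finset.insert_eq_of_mem ha]
    · have hne : (T ∪ S).Nonempty := by
        obtain ⟨O, hO⟩ := CdU_nonempty hY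
        obtain ⟨c, hc, -⟩ := hcov O hO
        exact ⟨c, Finset.mem_union_left S hc⟩
      obtain ⟨h1, h2⟩ := kv_chart (E := E) hY ha (fun c hc => hU c (by
          rwa [Finset.union_insert]))
        (fun c hc => hp a (Finset.mem_insert_self a S) c (hsub hc))
        (hE a (Finset.mem_insert_self a S)) fun O hO => by
          obtain ⟨c, hc, hOc⟩ := hcov O hO
          exact ⟨c, Finset.mem_union_left S hc, hOc⟩
      exact kv_add ha hne (fun J J' _ hJ x hx O hO h => hx O hO fun c hc => h c (hJ hc)) h1 h2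

end Pool.Agent.KM
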