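import Pool.Agent.Lib.MP_732f67_ag.N.CvA
import Pool.Agent.Lib.MP_732f67_ag.N.CvE
import Pool.Agent.Lib.MP_732f67_ag.N.AmpB
import Pool.Agent.Lib.MP_732f67_ag.N.CdR
import Pool.Agent.Lib.MP_732f67_ag.N.CdC
import Pool.Agent.Lib.MP_732f67_ag.N.CdU

/-!
Part N: comparison of covers, geometry of the affine charts.
-/

namespace Pool.Agent.KM

open Pool.Agent.Lib.MP_732f67_ag.KC (cd KVan)

variable {F : Type} [Field F] [Algebra ℂ F] {Y : Set (Subalgebra ℂ F)}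
  {H H₁ D E : Subalgebra ℂ F → Fˣ}

/-- one half of the comparison: a cover as a part of a larger family of open sets -/
private theorem cdH_half {n : ℕ} {Λ : Type} [LinearOrder Λ] {w : Fin n → F} (i : Fin n ↪o Λ)
    {U : Λ → Set (Subalgebra ℂ F)}
    (hU : ∀ c O, O ∈ U (i c) ↔ O ∈ Y ∧ Un O (w c * H O)) :
    KVan (latC Y H w E) ↔ KV (KU Y U E) (Finset.univ.map i.toEmbedding) := by
  rw [kv_map, ← kv_univ]
  refine kv_congr fun J _ _ => ?_
  ext f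
  constructor
  · intro hf O hO hc
    refine hf O hO fun c hcJ => ?_
    exact ((hU c O).1 (hc (i c) (Finset.mem_map_of_mem _ hcJ))).2
  · intro hf O hO hc
    refine hf O hO fun c hcJ => ?_
    obtain ⟨c', hc', rfl⟩ := Finset.mem_map.1 hcJ
    exact (hU c' O).2 ⟨hO, hc c' hc'⟩

/-- local equations of powers -/
private theorem cdH_pow {N : Subalgebra ℂ F → Finset F}
    (h : ∀ O ∈ Y, ∀ O' ∈ Y, (∀ s ∈ N O, s ∈ O') → Un O' ((H O' : F) / H O)) (e : ℕ)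
    {O : Subalgebra ℂ F} (hO : O ∈ Y) : ∃ δ : F, δ ≠ 0 ∧ ∀ O' ∈ Y, (∀ s ∈ N O, s ∈ O') →
      Un O' (((H ^ e) O' : F) / δ) := by
  refine ⟨((H ^ e) O : F), ((H ^ e) O).ne_zero, fun O' hO' hs => ?_⟩
  have h1 := (h O hO O' hO' hs).pow e
  rw [Pi.pow_apply, Pi.pow_apply, Units.val_pow_eq_pow_val, Units.val_pow_eq_pow_val, ← div_pow]
  exact h1

/-- Comparison of covers.

PROOF. `N` = the union of those of `exists_nbd_car` for `E`, `H`, `H₁`: the charts of both covers are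
contained in neighbourhoods where `E`, `H`, `H₁` (so also `H ^ e`, `H₁ ^ e₁`) are principal.
`Λ = Fin (n + n₁)`, `Fin.append w w₁`; `kv_union` for the images of `Fin.castAddEmb` and `Fin.natAddEmb` in
both orders, `kv_map`, `kv_univ`, `kv_congr`. -/
theorem hv_cmp (hY : IsProj Y) (hE : IsCar Y E) (hH : IsCar Y H) (hA : Amp Y H)
    (hH₁ : IsCar Y H₁) (hA₁ : Amp Y H₁) :
    ∃ N : Subalgebra ℂ F → Finset F, Nbd Y N ∧ ∀ (e n : ℕ) (w : Fin n → F) (e₁ n₁ : ℕ)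
      (w₁ : Fin n₁ → F), 1 ≤ e → 1 ≤ e₁ → Cov Y (H ^ e) w N → Cov Y (H₁ ^ e₁) w₁ N →
        KVan (latC Y (H ^ e) w E) → KVan (latC Y (H₁ ^ e₁) w₁ E) := by
  classical
  obtain ⟨NE, hNE, hE1⟩ := exists_nbd_car hE
  obtain ⟨NH, hNH, hH1⟩ := exists_nbd_car hH
  obtain ⟨NK, hNK, hK1⟩ := exists_nbd_car hH₁
  refine ⟨fun O => NE O ∪ NH O ∪ NK O, fun O hO s hs => ?_, ?_⟩
  · rcases Finset.mem_union.1 hs with hs | hs
    · rcases Finset.mem_union.1 hs with hs | hs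
      · exact hNE O hO s hs
      · exact hNH O hO s hs
    · exact hNK O hO s hs
  intro e n w e₁ n₁ w₁ he he₁ hc hc₁
  -- the union of the two covers
  let Dc : Fin (n + n₁) → Subalgebra ℂ F → Fˣ := Fin.append (fun _ => H ^ e) fun _ => H₁ ^ e₁
  let w' : Fin (n + n₁) → F := Fin.append w w₁
  let U : Fin (n + n₁) → Set (Subalgebra ℂ F) := fun c => {O | O ∈ Y ∧ Un O (w' c * Dc c O)}
  have hDl : ∀ c, Dc (Fin.castAdd n₁ c) = H ^ e := fun c => Fin.append_left _ _ c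
  have hDr : ∀ c, Dc (Fin.natAdd n c) = H₁ ^ e₁ := fun c => Fin.append_right _ _ c
  have hwl : ∀ c, w' (Fin.castAdd n₁ c) = w c := fun c => Fin.append_left _ _ c
  have hwr : ∀ c, w' (Fin.natAdd n c) = w₁ c := fun c => Fin.append_right _ _ c
  have hUl : ∀ c O, O ∈ U (Fin.castAdd n₁ c) ↔ O ∈ Y ∧ Un O (w c * (H ^ e) O) := by
    intro c O
    show (O ∈ Y ∧ Un O (w' (Fin.castAdd n₁ c) * Dc (Fin.castAdd n₁ c) O)) ↔ _
    rw [hDl, hwl]
  have hUr : ∀ c O, O ∈ U (Fin.natAdd n c) ↔ O ∈ Y ∧ Un O (w₁ c * (H₁ ^ e₁) O) := by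
    intro c O
    show (O ∈ Y ∧ Un O (w' (Fin.natAdd n c) * Dc (Fin.natAdd n c) O)) ↔ _
    rw [hDr, hwr]
  have hCht : ∀ c, Cht Y (Dc c) (w' c) (U c) := by
    intro c
    induction c using Fin.addCases with
    | left c =>
      refine ⟨?_, ?_, ?_, ?_, fun O => Iff.rfl⟩
      · rw [hDl]
        exact car_pow hH e
      · rw [hDl]
        exact amp_pow hY hA he
      · rw [hwl]
        exact (hc.sec c).1
      · rw [hDl, hwl]
        exact (hc.sec c).2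
    | right c =>
      refine ⟨?_, ?_, ?_, ?_, fun O => Iff.rfl⟩
      · rw [hDr]
        exact car_pow hH₁ e₁
      · rw [hDr]
        exact amp_pow hY hA₁ he₁
      · rw [hwr]
        exact (hc₁.sec c).1
      · rw [hDr, hwr]
        exact (hc₁.sec c).2
  have hfine : ∀ a, ∃ O ∈ Y, ∀ O' ∈ U a, ∀ s ∈ NE O ∪ NH O ∪ NK O, s ∈ O' := by
    intro a
    induction a using Fin.addCases with
    | left c =>
      obtain ⟨O, hO, h1⟩ := hc.fine c
      exact ⟨O, hO, fun O' hO' => h1 O' ((hUl c O').1 hO').1 ((hUl c O').1 hO').2⟩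
    | right c =>
      obtain ⟨O, hO, h1⟩ := hc₁.fine c
      exact ⟨O, hO, fun O' hO' => h1 O' ((hUr c O').1 hO').1 ((hUr c O').1 hO').2⟩
  have hp : ∀ a c, ∃ δ : F, δ ≠ 0 ∧ ∀ O ∈ U a, Un O ((Dc c O : F) / δ) := by
    intro a c
    obtain ⟨O, hO, h1⟩ := hfine a
    induction c using Fin.addCases with
    | left c =>
      obtain ⟨δ, hδ, h2⟩ := cdH_pow hH1 e hO
      refine ⟨δ, hδ, fun O' hO' => ?_⟩
      rw [hDl]
      exact h2 O' hO'.1 fun s hs => h1 O' hO' s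
        (Finset.mem_union_left _ (Finset.mem_union_right _ hs))
    | right c =>
      obtain ⟨δ, hδ, h2⟩ := cdH_pow hK1 e₁ hO
      refine ⟨δ, hδ, fun O' hO' => ?_⟩
      rw [hDr]
      exact h2 O' hO'.1 fun s hs => h1 O' hO' s (Finset.mem_union_right _ hs)
  have hEp : ∀ a, ∃ ε : F, ε ≠ 0 ∧ ∀ O ∈ U a, Un O ((E O : F) / ε) := by
    intro a
    obtain ⟨O, hO, h1⟩ := hfine a
    exact ⟨E O, (E O).ne_zero, fun O' hO' => hE1 O hO O' hO'.1 fun s hs => h1 O' hO' s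
      (Finset.mem_union_left _ (Finset.mem_union_left _ hs))⟩
  let T : Finset (Fin (n + n₁)) := Finset.univ.map (Fin.castAddOrderEmb n₁).toEmbedding
  let S : Finset (Fin (n + n₁)) := Finset.univ.map (Fin.natAddOrderEmb n).toEmbedding
  have hcT : ∀ O ∈ Y, ∃ c ∈ T, O ∈ U c := by
    intro O hO
    obtain ⟨c, hu⟩ := hc.cov O hO
    exact ⟨Fin.castAdd n₁ c, Finset.mem_map.2 ⟨c, Finset.mem_univ c, rfl⟩,
      (hUl c O).2 ⟨hO, hu⟩⟩
  have hcS : ∀ O ∈ Y, ∃ c ∈ S, O ∈ U c := by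
    intro O hO
    obtain ⟨c, hu⟩ := hc₁.cov O hO
    exact ⟨Fin.natAdd n c, Finset.mem_map.2 ⟨c, Finset.mem_univ c, rfl⟩,
      (hUr c O).2 ⟨hO, hu⟩⟩
  have h1 : KVan (latC Y (H ^ e) w E) ↔ KV (KU Y U E) T :=
    cdH_half (Fin.castAddOrderEmb n₁) hUl
  have h2 : KVan (latC Y (H₁ ^ e₁) w₁ E) ↔ KV (KU Y U E) S :=
    cdH_half (Fin.natAddOrderEmb n) hUr
  have h3 : KV (KU Y U E) T ↔ KV (KU Y U E) (T ∪ S) :=
    kv_union hY (fun c _ => hCht c) (fun a _ c _ => hp a c) (fun a _ => hEp a) hcT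
  have h4 : KV (KU Y U E) S ↔ KV (KU Y U E) (S ∪ T) :=
    kv_union hY (fun c _ => hCht c) (fun a _ c _ => hp a c) (fun a _ => hEp a) hcS
  rw [h1, h2, h3, h4, Finset.union_comm T S]
  exact id

/-- PROOF. `hv_cmp`; `IsCar` of the divisor by `Snc.car`. -/
theorem vx_of (h : VX1) : VX := by
  intro d F _ _ J _ Y B Δ κ hS D b hD hQ H' hH' hA'
  obtain ⟨H, hH, hA, hN⟩ := h d F J Y B Δ κ hS D b hD hQ
  have hE : IsCar Y (D * ∏ j, B j ^ (⌈b j⌉ - 1)) :=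
    car_mul hD (car_prod _ fun j _ => car_zpow (hS.car j) _)
  obtain ⟨N, hNb, hcmp⟩ := hv_cmp hS.proj hE hH hA hH' hA'
  refine ⟨N, hNb, fun e n w he hc => ?_⟩
  obtain ⟨e₀, n₀, w₀, he₀, hc₀, hv⟩ := hN N hNb
  exact hcmp e₀ n₀ w₀ e n w he₀ he hc₀ hc hv

end Pool.Agent.KM
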