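import Pool.Agent.Lib.MP_732f67_ag.G.VA
import Pool.Agent.Lib.MP_732f67_ag.G.Atlas
import Pool.Agent.Lib.MP_732f67_ag.KC.DI

/-!
Part N (non-vanishing and the base point free theorem): definitions, and the two theorems of the
other parts which are used, existence of Galois models with normal crossings (`RX`) and
Kawamata-Viehweg vanishing (`VX`), as propositions.
-/

namespace Pool.Agent.KM

open scoped KaehlerDifferential

section

variable {F : Type} [Field F] [Algebra ℂ F]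

/-- the Jacobian of the functions `x` with respect to the frame `Δ` -/
noncomputable def nj {d : ℕ} (Δ : Fin d → Derivation ℂ F F) (x : Fin d → F) : F :=
  (Matrix.of fun i l => Δ i (x l)).det

/-- some multiple of `D` has a finite dimensional very ample linear system -/
def Amp (Y : Set (Subalgebra ℂ F)) (D : Subalgebra ℂ F → Fˣ) : Prop :=
  ∃ m : ℕ, 1 ≤ m ∧ ∃ V : Submodule ℂ F, VA Y (D ^ m) V

/-- some multiple of `D` has a finite dimensional linear system without base points -/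
def SF (Y : Set (Subalgebra ℂ F)) (D : Subalgebra ℂ F → Fˣ) : Prop :=
  ∃ m : ℕ, 1 ≤ m ∧ ∃ V : Submodule ℂ F, BF Y (D ^ m) V

/-- nef divisors: `m D + H` is ample for all ample Cartier divisors `H` and all `m ≥ 0` -/
def Nf (Y : Set (Subalgebra ℂ F)) (D : Subalgebra ℂ F → Fˣ) : Prop :=
  ∀ H, IsCar Y H → Amp Y H → ∀ m : ℕ, Amp Y (D ^ m * H)

/-- the image of a local ring under an automorphism -/
abbrev gm (γ : F ≃ₐ[ℂ] F) (O : Subalgebra ℂ F) : Subalgebra ℂ F := O.map (γ : F →ₐ[ℂ] F)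

/-- the divisor `D` is invariant under `G` -/
def GI (Y : Set (Subalgebra ℂ F)) (G : Subgroup (F ≃ₐ[ℂ] F)) (D : Subalgebra ℂ F → Fˣ) : Prop :=
  ∀ γ ∈ G, ∀ O ∈ Y, Un (gm γ O) ((D (gm γ O) : F) / γ (D O))

/-- `D` is the pull back of a Cartier divisor of the quotient `Y / G` -/
def GC (Y : Set (Subalgebra ℂ F)) (G : Subgroup (F ≃ₐ[ℂ] F)) (D : Subalgebra ℂ F → Fˣ) : Prop :=
  IsCar Y D ∧ ∀ O ∈ Y, ∃ δ : F, δ ≠ 0 ∧ (∀ γ ∈ G, γ δ = δ) ∧
    ∀ γ ∈ G, Un (gm γ O) ((D (gm γ O) : F) / δ)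

/-- `Y` is a normal projective variety of dimension `d` with function field `F`, stable under the
finite group `G`, and the frame `Δ` commutes with `G` -/
structure Base (d : ℕ) (Y : Set (Subalgebra ℂ F)) (G : Subgroup (F ≃ₐ[ℂ] F))
    (Δ : Fin d → Derivation ℂ F F) : Prop where
  proj : IsProj Y
  normal : Normal Y
  dim : Algebra.trdeg ℂ F = d
  fin : Finite G
  st : ∀ γ ∈ G, ∀ O ∈ Y, gm γ O ∈ Y
  frame : LinearIndependent F Δ
  comm : ∀ γ ∈ G, ∀ l x, Δ l (γ x) = γ (Δ l x)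

/-- `Y` is a smooth projective variety of dimension `d`, the `B j` are smooth divisors (not
necessarily connected, or non-empty) with normal crossings, `κ` is the divisor of the form of
degree `d` with the value `1` on the frame `Δ` -/
structure Snc (d : ℕ) {J : Type} (Y : Set (Subalgebra ℂ F)) (B : J → Subalgebra ℂ F → Fˣ)
    (Δ : Fin d → Derivation ℂ F F) (κ : Subalgebra ℂ F → Fˣ) : Prop where
  proj : IsProj Y
  dim : Algebra.trdeg ℂ F = d
  frame : LinearIndependent F Δ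
  smooth : ∀ O ∈ Y, Algebra.FormallySmooth ℂ O
  car : ∀ j, IsCar Y (B j)
  kcar : IsCar Y κ
  snc : ∀ O ∈ Y, ∃ (x : Fin d → O) (co : J → Option (Fin d)),
    (∃ b : Module.Basis (Fin d) O Ω[O⁄ℂ], ∀ i, b i = KaehlerDifferential.D ℂ O (x i)) ∧
    (∀ j j' l, co j = some l → co j' = some l → j = j') ∧
    (∀ j, Un O ((B j O : F) / eps (fun i => (x i : F)) (co j))) ∧
    Un O ((κ O : F) * nj Δ fun i => (x i : F))

/-- the `B j` are the local equations of different prime divisors `P j` -/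
structure Bd {J : Type} (Y : Set (Subalgebra ℂ F)) (P : J → Subalgebra ℂ F)
    (B : J → Subalgebra ℂ F → Fˣ) : Prop where
  mem : ∀ j, P j ∈ Y ∧ PrimDiv (P j)
  inj : Function.Injective P
  eqn : ∀ j, ∀ O ∈ Y, PrimDiv O → (O = P j → Unif O (B j O)) ∧ (O ≠ P j → Un O (B j O))

/-- the order of an element along a prime divisor -/
noncomputable def oD (O : Subalgebra ℂ F) (x : F) : ℤ := by
  classical exact if h : ∃ e, IsOrd O x e then h.choose else 0

/-- the order along a prime divisor of the form with the value `1` on the frame `Δ` -/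
noncomputable def oF {d : ℕ} (Δ : Fin d → Derivation ℂ F F) (O : Subalgebra ℂ F) : ℤ := by
  classical exact if h : ∃ e, IsOrdF Δ O e then h.choose else 0

/-- the log discrepancy along the prime divisor `O`; `ν` is a local equation of `m N` -/
noncomputable def LD {d : ℕ} (Δ : Fin d → Derivation ℂ F F) (m : ℕ) (O : Subalgebra ℂ F) (ν : F) :
    ℚ := oF Δ O + 1 + (oD O ν : ℚ) / m

/-- the log discrepancies of all prime divisors over `Y` are positive; `ν` is `m N` -/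
def Pos {d : ℕ} (Y : Set (Subalgebra ℂ F)) (Δ : Fin d → Derivation ℂ F F) (m : ℕ)
    (ν : Subalgebra ℂ F → Fˣ) : Prop :=
  ∀ O, PrimDiv O → ∀ O₀ ∈ Y, Dom O₀ O → 0 < LD Δ m O (ν O₀)

/-- `f` is a section of `E + ⌈A⌉` over `Y`, where `A` is the divisor of the discrepancies -/
def LS {d : ℕ} (Y : Set (Subalgebra ℂ F)) (Δ : Fin d → Derivation ℂ F F) (m : ℕ)
    (ν E : Subalgebra ℂ F → Fˣ) (f : F) : Prop :=
  ∀ O ∈ Y, PrimDiv O → 0 < (oD O (f * E O) : ℚ) + LD Δ m O (ν O)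

/-- `D + ∑ (b j - 1) B j - K` is ample, with rational `b j` -/
def QA {J : Type} [Fintype J] (Y : Set (Subalgebra ℂ F)) (B : J → Subalgebra ℂ F → Fˣ)
    (κ D : Subalgebra ℂ F → Fˣ) (b : J → ℚ) : Prop :=
  ∃ m : ℕ, 1 ≤ m ∧ ∃ e : J → ℤ, (∀ j, (e j : ℚ) = m * (b j - 1)) ∧
    Amp Y (D ^ m * (∏ j, B j ^ e j) / κ ^ m)

/-- the sections of `E` over the intersections of the sets `w c ≠ 0`, where the `w c` are sections
of `H` -/
def latC (Y : Set (Subalgebra ℂ F)) (H : Subalgebra ℂ F → Fˣ) {n : ℕ} (w : Fin n → F)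
    (E : Subalgebra ℂ F → Fˣ) (I : Finset (Fin n)) : AddSubgroup F where
  carrier := {f | ∀ O ∈ Y, (∀ c ∈ I, Un O (w c * H O)) → f * E O ∈ O}
  zero_mem' O _ _ := by
    rw [zero_mul]
    exact O.zero_mem
  add_mem' hf hg O hO h := by
    rw [add_mul]
    exact O.add_mem (hf O hO h) (hg O hO h)
  neg_mem' hf O hO h := by
    rw [neg_mul]
    exact O.neg_mem (hf O hO h)

/-- the elements of `N O` are regular at `O`: `N` defines neighbourhoods of the points -/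
def Nbd (Y : Set (Subalgebra ℂ F)) (N : Subalgebra ℂ F → Finset F) : Prop :=
  ∀ O ∈ Y, ∀ s ∈ N O, s ∈ O

/-- the sets `w c ≠ 0`, for the sections `w c` of `H`, are a cover of `Y`, finer than the
neighbourhoods given by `N` -/
structure Cov (Y : Set (Subalgebra ℂ F)) (H : Subalgebra ℂ F → Fˣ) {n : ℕ} (w : Fin n → F)
    (N : Subalgebra ℂ F → Finset F) : Prop where
  sec : ∀ c, w c ≠ 0 ∧ w c ∈ Sec Y H
  cov : ∀ O ∈ Y, ∃ c, Un O (w c * H O)
  fine : ∀ c, ∃ O ∈ Y, ∀ O' ∈ Y, Un O' (w c * H O') → ∀ s ∈ N O, s ∈ O'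

/-- all `H^i (Y, O(E))`, `i ≥ 1`, vanish (Cech cohomology with respect to all sufficiently fine
affine covers of the form `w c ≠ 0`) -/
def Hv (Y : Set (Subalgebra ℂ F)) (E : Subalgebra ℂ F → Fˣ) : Prop :=
  ∀ H : Subalgebra ℂ F → Fˣ, IsCar Y H → Amp Y H → ∃ N : Subalgebra ℂ F → Finset F, Nbd Y N ∧
    ∀ (e n : ℕ) (w : Fin n → F), 1 ≤ e → Cov Y (H ^ e) w N →
      Pool.Agent.Lib.MP_732f67_ag.KC.KVan (latC Y (H ^ e) w E)

/-- `H^1 (Y, O(E)) = 0`: the map from `F` to the sections of `F / O(E)` is surjective -/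
def H1 (Y : Set (Subalgebra ℂ F)) (E : Subalgebra ℂ F → Fˣ) : Prop :=
  ∀ r : Subalgebra ℂ F → F, (∀ O ∈ Y, ∃ S : Finset F, (∀ s ∈ S, s ∈ O) ∧
    ∀ O' ∈ Y, (∀ s ∈ S, s ∈ O') → (r O - r O') * E O' ∈ O') →
    ∃ f : F, ∀ O ∈ Y, (r O - f) * E O ∈ O

end

section

variable {F F' : Type} [Field F] [Algebra ℂ F] [Field F'] [Algebra ℂ F']

/-- `O'` dominates `O`, for an extension `i` of fields -/
def Dm (i : F →ₐ[ℂ] F') (O : Subalgebra ℂ F) (O' : Subalgebra ℂ F') : Prop :=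
  (∀ x ∈ O, i x ∈ O') ∧ ∀ x ∈ O, (i x)⁻¹ ∈ O' → x⁻¹ ∈ O

/-- the center on `Y` -/
noncomputable def cen (i : F →ₐ[ℂ] F') (Y : Set (Subalgebra ℂ F)) (O' : Subalgebra ℂ F') :
    Subalgebra ℂ F := by
  classical exact if h : ∃ O ∈ Y, Dm i O O' then h.choose else ⊥

/-- the pull back of a divisor -/
noncomputable def pb (i : F →ₐ[ℂ] F') (Y : Set (Subalgebra ℂ F)) (D : Subalgebra ℂ F → Fˣ) :
    Subalgebra ℂ F' → F'ˣ :=
  fun O' => Units.map (i : F →* F') (D (cen i Y O'))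

end

/-- a smooth Galois model over `Y`, with a boundary `∑ P j` with normal crossings, adapted to the
finite set `Φ` of functions and to the ample divisor `H` -/
structure GMod {F : Type} [Field F] [Algebra ℂ F] (d : ℕ) (Y : Set (Subalgebra ℂ F))
    (G : Subgroup (F ≃ₐ[ℂ] F)) (Δ : Fin d → Derivation ℂ F F) (Φ : Finset F)
    (H : Subalgebra ℂ F → Fˣ) where
  F' : Type
  [fld : Field F']
  [alg : Algebra ℂ F']
  i : F →ₐ[ℂ] F'
  fin : (i : F →+* F').Finite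
  Y' : Set (Subalgebra ℂ F')
  G' : Subgroup (F' ≃ₐ[ℂ] F')
  Δ' : Fin d → Derivation ℂ F' F'
  J : Type
  [ft : Fintype J]
  P : J → Subalgebra ℂ F'
  B : J → Subalgebra ℂ F' → F'ˣ
  κ : Subalgebra ℂ F' → F'ˣ
  base : Base d Y' G' Δ'
  snc : Snc d Y' B Δ' κ
  bd : Bd Y' P B
  /-- there is a morphism to `Y` -/
  dom : ∀ O' ∈ Y', ∃ O ∈ Y, Dm i O O'
  grp : ∀ γ' ∈ G', ∃ γ ∈ G, ∀ x, γ' (i x) = i (γ x)
  fix : ∀ x : F', (∀ γ' ∈ G', γ' x = x) → ∃ y : F, (∀ γ ∈ G, γ y = y) ∧ i y = x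
  der : ∀ l x, Δ' l (i x) = i (Δ l x)
  /-- different conjugate boundary divisors do not meet -/
  strict : ∀ γ' ∈ G', ∀ j, ∀ O' ∈ Y', O' ≤ P j → O' ≤ gm γ' (P j) → gm γ' (P j) = P j
  /-- the elements of `Φ` are units outside the boundary, the invariant ones are comparable
  with `1` -/
  un : ∀ φ ∈ Φ, ∀ O' ∈ Y', (∀ j, Un O' (B j O')) → Un O' (i φ)
  cmp : ∀ φ ∈ Φ, (∀ γ ∈ G, γ φ = φ) → ∀ O' ∈ Y', i φ ∈ O' ∨ (i φ)⁻¹ ∈ O'
  can : ∀ O' ∈ Y', (∀ j, Un O' (B j O')) → Un O' (κ O')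
  /-- an ample divisor supported by the boundary -/
  H' : Subalgebra ℂ F' → F'ˣ
  hcar : IsCar Y' H'
  hamp : Amp Y' H'
  hun : ∀ O' ∈ Y', (∀ j, Un O' (B j O')) → Un O' (H' O')
  /-- a section of a multiple of `H` with the boundary as set of zeros -/
  l : ℕ
  l_pos : 1 ≤ l
  a : F
  a_inv : ∀ γ ∈ G, γ a = a
  a_sec : a ∈ Sec Y (H ^ l)
  a_un : ∀ O' ∈ Y', (∀ j, Un O' (B j O')) ↔ Un O' (i (a * H (cen i Y O') ^ l))

attribute [instance] GMod.fld GMod.alg GMod.ft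

/-- existence of Galois models -/
def RX (d : ℕ) : Prop :=
  ∀ (F : Type) [Field F] [Algebra ℂ F] (Y : Set (Subalgebra ℂ F)) (G : Subgroup (F ≃ₐ[ℂ] F))
    (Δ : Fin d → Derivation ℂ F F) (Φ : Finset F) (H : Subalgebra ℂ F → Fˣ), Base d Y G Δ →
    (∀ φ ∈ Φ, φ ≠ 0) → GC Y G H → Amp Y H → Nonempty (GMod d Y G Δ Φ H)

/-- Kawamata-Viehweg vanishing on a smooth projective variety, for an ample `ℚ`-divisor whose
fractional part has normal crossings -/
def VX : Prop :=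
  ∀ (d : ℕ) (F : Type) [Field F] [Algebra ℂ F] (J : Type) [Fintype J]
    (Y : Set (Subalgebra ℂ F)) (B : J → Subalgebra ℂ F → Fˣ) (Δ : Fin d → Derivation ℂ F F)
    (κ : Subalgebra ℂ F → Fˣ), Snc d Y B Δ κ →
    ∀ (D : Subalgebra ℂ F → Fˣ) (b : J → ℚ), IsCar Y D → QA Y B κ D b →
      Hv Y (D * ∏ j, B j ^ (⌈b j⌉ - 1))

/-- Kawamata-Viehweg vanishing for one ample divisor `H` and arbitrarily fine covers of `Y` by sections
of its powers (`VX` follows by comparison of covers) -/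
def VX1 : Prop :=
  ∀ (d : ℕ) (F : Type) [Field F] [Algebra ℂ F] (J : Type) [Fintype J]
    (Y : Set (Subalgebra ℂ F)) (B : J → Subalgebra ℂ F → Fˣ) (Δ : Fin d → Derivation ℂ F F)
    (κ : Subalgebra ℂ F → Fˣ), Snc d Y B Δ κ →
    ∀ (D : Subalgebra ℂ F → Fˣ) (b : J → ℚ), IsCar Y D → QA Y B κ D b →
      ∃ H : Subalgebra ℂ F → Fˣ, IsCar Y H ∧ Amp Y H ∧ ∀ N, Nbd Y N →
        ∃ (e n : ℕ) (w : Fin n → F), 1 ≤ e ∧ Cov Y (H ^ e) w N ∧
          Pool.Agent.Lib.MP_732f67_ag.KC.KVan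
            (latC Y (H ^ e) w (D * ∏ j, B j ^ (⌈b j⌉ - 1)))

/-- Shokurov's non-vanishing theorem in dimension `d`, with a group -/
def NV (d : ℕ) : Prop :=
  ∀ (F : Type) [Field F] [Algebra ℂ F] (Y : Set (Subalgebra ℂ F)) (G : Subgroup (F ≃ₐ[ℂ] F))
    (Δ : Fin d → Derivation ℂ F F) (D ν : Subalgebra ℂ F → Fˣ) (m a : ℕ), Base d Y G Δ →
    GC Y G D → Nf Y D → IsCar Y ν → GI Y G ν → 1 ≤ m → Amp Y (D ^ (a * m) * ν) → Pos Y Δ m ν →
    ∃ b₀ : ℕ, ∀ b, b₀ ≤ b → ∃ f : F, f ≠ 0 ∧ (∀ γ ∈ G, γ f = f) ∧ LS Y Δ m ν (D ^ b) f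

end Pool.Agent.KM
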