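import Pool.Agent.Lib.MP_732f67_ag.N.Prm
import Pool.Agent.Lib.MP_732f67_ag.G.EtE
import Pool.Agent.Lib.MP_732f67_ag.N.FrC
import Pool.Agent.Lib.MP_732f67_ag.N.FrD
import Pool.Agent.Lib.MP_732f67_ag.N.FrO

/-!
Part N: differential forms at a prime divisor.
-/

namespace Pool.Agent.KM

variable {F : Type} [Field F] [Algebra ℂ F] {O : Subalgebra ℂ F} {n : ℕ}

/-- a determinant whose rows and columns have common factors -/
theorem frL_det {m : ℕ} (O : Subalgebra ℂ F) (a b : Fin m → F) (M : Matrix (Fin m) (Fin m) F)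
    (h : ∀ k l, a k * M k l / b l ∈ O) :
    (∏ k, a k) * M.det / ∏ l, b l ∈ O := by
  have h1 : (∏ k, a k) * M.det / ∏ l, b l = (Matrix.of fun k l => a k * M k l / b l).det := by
    have h2 : (Matrix.of fun k l => a k * M k l / b l) =
        Matrix.of fun k l => (b⁻¹) l * (Matrix.of fun k l => a k * M k l) k l := by
      ext k l
      simp only [Matrix.of_apply, Pi.inv_apply]
      rw [div_eq_inv_mul]
    rw [h2, Matrix.det_mul_row, Matrix.det_mul_column]
    simp only [Pi.inv_apply, Finset.prod_inv_distrib]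
    rw [div_eq_inv_mul]
  rw [h1, Matrix.det_apply']
  exact O.sum_mem fun σ _ => O.mul_mem (intCast_mem O _) (O.prod_mem fun i _ => h _ _)

/-- Logarithmic derivatives: the Jacobian of functions `y l ∈ O`, divided by the product of some
of them, has a pole of order at most one.

PROOF. `δ` as in `dual_frame`; `π δ 0` and the `δ k`, `k ≥ 1`, map `y ≠ 0` in `O` to `y O`
(`y = π ^ m u`). -/
theorem log_det (hd : Algebra.trdeg ℂ F = (n + 1 : ℕ)) (hO : PrimDiv O) {π : F}
    (hπ : Unif O π) {t : Fin n → F} (ht : RI O t) {δ : Fin (n + 1) → Derivation ℂ F F}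
    (hδ : ∀ k, ∀ x ∈ O, δ k x ∈ O)
    (hδ' : ∀ k l, δ k ((Fin.cons π t : Fin (n + 1) → F) l) = if k = l then 1 else 0)
    {y : Fin (n + 1) → F} (hy : ∀ l, y l ∈ O ∧ y l ≠ 0) (S : Finset (Fin (n + 1))) :
    nj δ y * π / ∏ l ∈ S, y l ∈ O := by
  classical
  have hπ0 := hπ.ne_zero
  -- the logarithmic derivatives
  have key : ∀ k, ∀ z ∈ O, z ≠ 0 →
      (Fin.cons π (fun _ => 1) : Fin (n + 1) → F) k * δ k z / z ∈ O := by
    intro k z hz hz0
    obtain ⟨e, he⟩ := hπ.exists_ord hO hz0
    have hpe := zpow_ne_zero e hπ0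
    set u := z / π ^ e with hu
    have hzu : z = u * π ^ e := by rw [hu, div_mul_cancel₀ _ hpe]
    have hu0 := he.1
    have h1 : δ k z / z = δ k u * u⁻¹ + e * (δ k π / π) := by
      have h2 : δ k z = π ^ e * δ k u + u * (e * π ^ (e - 1) * δ k π) := by
        conv_lhs => rw [hzu]
        rw [Derivation.leibniz, Derivation.leibniz_zpow]
        simp only [smul_eq_mul, zsmul_eq_mul]
        ring
      rw [h2]
      conv_lhs => rw [hzu]
      rw [zpow_sub_one₀ hπ0]
      field_simp
    have h3 : δ k u * u⁻¹ ∈ O := O.mul_mem (hδ k u he.2.1) he.2.2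
    have hδπ : δ k π = if k = 0 then 1 else 0 := by
      have := hδ' k 0
      rwa [Fin.cons_zero] at this
    rw [mul_div_assoc, h1, hδπ]
    refine Fin.cases ?_ (fun k' => ?_) k
    · rw [Fin.cons_zero, if_pos rfl]
      have h4 : π * (δ 0 u * u⁻¹ + e * (1 / π)) = π * (δ 0 u * u⁻¹) + e := by
        field_simp
      rw [h4]
      exact O.add_mem (O.mul_mem hπ.1 (O.mul_mem (hδ 0 u he.2.1) he.2.2)) (intCast_mem O e)
    · rw [Fin.cons_succ, one_mul, if_neg (Fin.succ_ne_zero k'), zero_div, mul_zero, add_zero]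
      exact O.mul_mem (hδ _ u he.2.1) he.2.2
  have hmem : ∀ k l, (Fin.cons π (fun _ => 1) : Fin (n + 1) → F) k * δ k (y l) ∈ O := by
    intro k l
    refine O.mul_mem ?_ (hδ k _ (hy l).1)
    refine Fin.cases ?_ (fun k' => ?_) k
    · exact hπ.1
    · exact O.one_mem
  have h1 := frL_det O (Fin.cons π (fun _ => 1) : Fin (n + 1) → F)
    (fun l => if l ∈ S then y l else 1) (Matrix.of fun i l => δ i (y l))
    (fun k l => by
      rw [Matrix.of_apply]
      split_ifs
      · exact key k _ (hy l).1 (hy l).2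
      · rw [div_one]
        exact hmem k l)
  rw [Fin.prod_univ_succ, Fin.cons_zero] at h1
  simp only [Fin.cons_succ, Finset.prod_const_one, mul_one, Finset.prod_ite_mem,
    Finset.univ_inter] at h1
  rwa [mul_comm] at h1

end Pool.Agent.KM
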