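import Pool.Agent.Lib.MP_732f67_ag.N.FrC
import Pool.Agent.Lib.MP_732f67_ag.N.FrD
import Pool.Agent.Lib.MP_732f67_ag.N.FrO
import Pool.Agent.Lib.MP_732f67_ag.N.FrL
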