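import Pool.Agent.Lib.MP_732f67_ag.N.AmpB
import Pool.Agent.Lib.MP_732f67_ag.G.Nbh
import Pool.Agent.Lib.MP_ed661f_ag.H.Noether

/-!
Part N: finite projections to the projective space, forms.
-/

namespace Pool.Agent.KM

variable {F : Type} [Field F] [Algebra ℂ F] {Y : Set (Subalgebra ℂ F)}
  {D E H : Subalgebra ℂ F → Fˣ} {d : ℕ}

/-- the ring of the polynomials in the `y i / y l` -/
def rat {d : ℕ} (y : Fin (d + 1) → F) (l : Fin (d + 1)) : Subalgebra ℂ F :=
  Algebra.adjoin ℂ (Set.range fun i => y i / y l)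

/-- the sections `y` of `E` define a finite morphism from `Y` to the projective space -/
structure Noe {d : ℕ} (Y : Set (Subalgebra ℂ F)) (E : Subalgebra ℂ F → Fˣ)
    (V : Submodule ℂ F) (y : Fin (d + 1) → F) : Prop where
  va : VA Y E V
  mem : ∀ l, y l ∈ V ∧ y l ≠ 0
  gen : ∀ O ∈ Y, ∃ l, Un O (y l * E O)
  ind : ∀ (N : ℕ) (P : MvPolynomial (Fin (d + 1)) ℂ), P.IsHomogeneous N →
    MvPolynomial.aeval y P = 0 → P = 0
  int : ∀ l, ∀ x ∈ cht V (y l), IsIntegral (rat y l) x

open Pool.Agent.Lib.MP_ed661f_ag.H (Poly proj Homog proj_apply homogeneousComponent_aeval_linear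
  exists_noether_aux)

section aux

open MvPolynomial

variable {N : ℕ}

private noncomputable def nbn_psi (z : Fin (N + 1) → F) : Poly N →ₐ[ℂ] Polynomial F :=
  aeval fun i => Polynomial.C (z i) * Polynomial.X

private theorem nbn_psi_monomial (z : Fin (N + 1) → F) (s : Fin (N + 1) →₀ ℕ) (c : ℂ) :
    nbn_psi z (monomial s c) = Polynomial.monomial s.degree (aeval z (monomial s c)) := by
  unfold nbn_psi
  rw [aeval_monomial, aeval_monomial, Finsupp.prod, Finsupp.prod]
  simp only [mul_pow]
  rw [Finset.prod_mul_distrib, Finset.prod_pow_eq_pow_sum, ← Finsupp.degree_apply]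
  have h1 : (algebraMap ℂ (Polynomial F)) c = Polynomial.C (algebraMap ℂ F c) := rfl
  rw [h1, ← Polynomial.C_mul_X_pow_eq_monomial, map_mul, map_prod]
  simp only [map_pow]
  ring

private theorem nbn_psi_coeff (z : Fin (N + 1) → F) (P : Poly N) (k : ℕ) :
    (nbn_psi z P).coeff k = aeval z (homogeneousComponent k P) := by
  conv_lhs => rw [P.as_sum]
  rw [map_sum, Polynomial.finsetSum_coeff, homogeneousComponent_apply, map_sum,
    Finset.sum_filter]
  refine Finset.sum_congr rfl fun s _ => ?_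
  rw [nbn_psi_monomial, Polynomial.coeff_monomial]

private theorem nbn_homog (z : Fin (N + 1) → F) : Homog (RingHom.ker (nbn_psi z)) := by
  intro P hP k
  rw [RingHom.mem_ker] at hP ⊢
  ext j
  rw [nbn_psi_coeff, Polynomial.coeff_zero,
    homogeneousComponent_of_mem (homogeneousComponent_isHomogeneous k P)]
  split_ifs
  · rw [← nbn_psi_coeff, hP, Polynomial.coeff_zero]
  · rw [map_zero]

private theorem nbn_aeval_comp {r : ℕ} (z : Fin (N + 1) → F) (y : Fin r → Poly N)
    (Q : MvPolynomial (Fin r) ℂ) : aeval z (aeval y Q) = aeval (fun i => aeval z (y i)) Q :=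
  (comp_aeval_apply y (aeval z) Q)

/-- equations of integral dependence -/
private theorem nbn_int {r : ℕ} (z : Fin (N + 1) → F) (y : Fin r → Poly N)
    (hy : ∀ i, (y i).IsHomogeneous 1)
    (hfin : (proj (RingHom.ker (nbn_psi z)) y).toRingHom.Finite) (j : Fin (N + 1)) :
    ∃ (n : ℕ) (Q : ℕ → MvPolynomial (Fin r) ℂ), (∀ k < n, (Q k).IsHomogeneous (n - k)) ∧
      z j ^ n + ∑ k ∈ Finset.range n, aeval (fun i => aeval z (y i)) (Q k) * z j ^ k = 0 := by
  set J := RingHom.ker (nbn_psi z) with hJ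
  obtain ⟨p, hp, hp0⟩ := hfin.to_isIntegral (Ideal.Quotient.mk J (X j))
  let Ψ : Poly N ⧸ J →ₐ[ℂ] Polynomial F := Ideal.Quotient.liftₐ J (nbn_psi z) (fun a ha => ha)
  have hΨ : ∀ a, Ψ (Ideal.Quotient.mk J a) = nbn_psi z a := fun a => rfl
  have h1 := congrArg Ψ hp0
  rw [map_zero, Polynomial.eval₂_eq_sum_range, map_sum] at h1
  have h2 := congrArg (fun q : Polynomial F => q.coeff p.natDegree) h1
  simp only [Polynomial.finsetSum_coeff, Polynomial.coeff_zero] at h2
  have h3 : ∀ k ∈ Finset.range (p.natDegree + 1),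
      (Ψ ((proj J y).toRingHom (p.coeff k) * (Ideal.Quotient.mk J (X j)) ^ k)).coeff p.natDegree
      = aeval (fun i => aeval z (y i)) (homogeneousComponent (p.natDegree - k) (p.coeff k))
        * z j ^ k := by
    intro k hk
    have hk' : k ≤ p.natDegree := by
      have := Finset.mem_range.1 hk
      omega
    have e1 : (proj J y).toRingHom (p.coeff k) = Ideal.Quotient.mk J (aeval y (p.coeff k)) :=
      proj_apply J y (p.coeff k)
    have e2 : nbn_psi z (X j) = Polynomial.C (z j) * Polynomial.X := by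
      unfold nbn_psi
      rw [aeval_X]
    rw [e1, map_mul, map_pow, hΨ, hΨ, e2, mul_pow, ← Polynomial.C_pow, ← mul_assoc,
      Polynomial.coeff_mul_X_pow', if_pos hk', Polynomial.coeff_mul_C, nbn_psi_coeff,
      homogeneousComponent_aeval_linear hy, nbn_aeval_comp]
  rw [Finset.sum_congr rfl h3, Finset.sum_range_succ, Nat.sub_self, hp.coeff_natDegree] at h2
  refine ⟨p.natDegree, fun k => homogeneousComponent (p.natDegree - k) (p.coeff k),
    fun k _ => homogeneousComponent_isHomogeneous _ _, ?_⟩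
  have h4 : homogeneousComponent 0 (1 : MvPolynomial (Fin r) ℂ) = 1 := by
    rw [homogeneousComponent_zero, coeff_zero_one, C_1]
  rw [h4, map_one, one_mul, add_comm] at h2
  exact h2

private theorem nbn_span (z : Fin (N + 1) → F) {P : Poly N} (hP : P.IsHomogeneous 1) :
    aeval z P ∈ Submodule.span ℂ (Set.range z) := by
  have h1 : P ∈ homogeneousSubmodule (Fin (N + 1)) ℂ 1 := hP
  rw [homogeneousSubmodule_one_eq_span_X] at h1
  clear hP
  induction h1 using Submodule.span_induction with
  | mem x hx =>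
    obtain ⟨i, rfl⟩ := hx
    rw [aeval_X]
    exact Submodule.subset_span ⟨i, rfl⟩
  | zero => rw [map_zero]; exact Submodule.zero_mem _
  | add x y _ _ hx hy =>
    rw [map_add]
    exact Submodule.add_mem _ hx hy
  | smul c x _ hx =>
    rw [map_smul]
    exact Submodule.smul_mem _ _ hx

private theorem nbn_hom {ι : Type*} [Fintype ι] {P : MvPolynomial ι ℂ} {M : ℕ}
    (hP : P.IsHomogeneous M) (c : F) (x : ι → F) :
    aeval (fun i => c * x i) P = c ^ M * aeval x P := by
  rw [aeval_def, aeval_def, eval₂_eq', eval₂_eq', Finset.mul_sum]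
  refine Finset.sum_congr rfl fun m hm => ?_
  have h1 : ∑ i, m i = M := by
    by_contra h
    exact mem_support_iff.1 hm (hP.coeff_eq_zero (by rwa [Finsupp.degree_eq_sum]))
  simp_rw [mul_pow]
  rw [Finset.prod_mul_distrib, Finset.prod_pow_eq_pow_sum, h1]
  ring

private theorem nbn_aeval_mem {ι : Type*} {A : Subalgebra ℂ F} {x : ι → F} (hx : ∀ i, x i ∈ A)
    (P : MvPolynomial ι ℂ) : aeval x P ∈ A := by
  have h1 : Algebra.adjoin ℂ (Set.range x) ≤ A := by
    refine Algebra.adjoin_le ?_
    rintro _ ⟨i, rfl⟩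
    exact hx i
  refine h1 ?_
  rw [Algebra.adjoin_range_eq_range_aeval]
  exact ⟨P, rfl⟩

private theorem nbn_max {O : Subalgebra ℂ F} (hO : IsLocalRing O) {r : ℕ} {w : Fin r → F} {e : F}
    (hw : ∀ i, w i * e ∈ O) (hn : ∀ i, ¬ Un O (w i * e)) {m : ℕ} (hm : 1 ≤ m)
    {Q : MvPolynomial (Fin r) ℂ} (hQ : Q.IsHomogeneous m) :
    ∃ y ∈ IsLocalRing.maximalIdeal O, (y : F) = aeval w Q * e ^ m := by
  let x : Fin r → O := fun i => ⟨w i * e, hw i⟩
  have hx : ∀ i, x i ∈ IsLocalRing.maximalIdeal O := by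
    intro i
    rw [IsLocalRing.mem_maximalIdeal, mem_nonunits_iff, pt_isUnit_iff]
    rintro ⟨h1, h2⟩
    exact hn i ⟨h1, hw i, h2⟩
  refine ⟨aeval x Q, ?_, ?_⟩
  · rw [← Ideal.Quotient.eq_zero_iff_mem]
    have h1 : Ideal.Quotient.mkₐ ℂ (IsLocalRing.maximalIdeal O) (aeval x Q)
        = aeval (fun i => Ideal.Quotient.mkₐ ℂ (IsLocalRing.maximalIdeal O) (x i)) Q :=
      comp_aeval_apply x _ Q
    have h2 : (fun i => Ideal.Quotient.mkₐ ℂ (IsLocalRing.maximalIdeal O) (x i)) = fun _ => 0 := by
      funext i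
      exact Ideal.Quotient.eq_zero_iff_mem.2 (hx i)
    have h3 : constantCoeff Q = 0 := by
      rw [constantCoeff_eq]
      exact hQ.coeff_eq_zero (by rw [map_zero]; omega)
    rw [h2, aeval_zero', h3, map_zero] at h1
    exact h1
  · have h1 : ((aeval x Q : O) : F) = aeval (fun i => (x i : F)) Q := comp_aeval_apply x O.val Q
    rw [h1]
    have h2 : (fun i => (x i : F)) = fun i => e * w i := funext fun i => mul_comm _ _
    rw [h2, nbn_hom hQ, mul_comm]

private theorem nbn_indep {y : Fin (d + 1) → F} (hy : ∀ l, y l ≠ 0)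
    (hi : ∀ (N : ℕ) (P : MvPolynomial (Fin (d + 1)) ℂ), P.IsHomogeneous N →
      aeval y P = 0 → P = 0) (l : Fin (d + 1)) :
    AlgebraicIndependent ℂ (fun i : Fin d => y (l.succAbove i) / y l) ∧
      rat y l = Algebra.adjoin ℂ (Set.range fun i : Fin d => y (l.succAbove i) / y l) := by
  classical
  constructor
  · rw [algebraicIndependent_iff]
    intro p hp
    set P : MvPolynomial (Fin (d + 1)) ℂ := ∑ j ∈ Finset.range (p.totalDegree + 1),
      rename l.succAbove (homogeneousComponent j p) * X l ^ (p.totalDegree - j) with hPdef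
    have h1 : P.IsHomogeneous p.totalDegree := by
      refine IsHomogeneous.sum _ _ _ fun j hj => ?_
      have h2 := ((homogeneousComponent_isHomogeneous j p).rename_isHomogeneous
        (f := l.succAbove)).mul (isHomogeneous_X_pow (R := ℂ) l (p.totalDegree - j))
      have h3 : j + (p.totalDegree - j) = p.totalDegree := by
        have := Finset.mem_range.1 hj
        omega
      rwa [h3] at h2
    have h2 : aeval y P = 0 := by
      have h3 : ∀ j ∈ Finset.range (p.totalDegree + 1), aeval y
          (rename l.succAbove (homogeneousComponent j p) * X l ^ (p.totalDegree - j)) =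
          y l ^ p.totalDegree * aeval (fun i : Fin d => y (l.succAbove i) / y l)
            (homogeneousComponent j p) := by
        intro j hj
        have h4 : y l ^ p.totalDegree = y l ^ j * y l ^ (p.totalDegree - j) := by
          rw [← pow_add]
          congr 1
          have := Finset.mem_range.1 hj
          omega
        have h5 : (fun i : Fin d => y (l.succAbove i)) =
            fun i : Fin d => y l * (y (l.succAbove i) / y l) := by
          funext i
          rw [mul_div_cancel₀ _ (hy l)]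
        rw [map_mul, map_pow, aeval_X, aeval_rename, h4]
        change aeval (fun i : Fin d => y (l.succAbove i)) _ * _ = _
        rw [h5, nbn_hom (homogeneousComponent_isHomogeneous j p)]
        ring
      rw [hPdef, map_sum, Finset.sum_congr rfl h3, ← Finset.mul_sum, ← map_sum,
        sum_homogeneousComponent, hp, mul_zero]
    have h3 := hi _ P h1 h2
    have h4 : aeval (l.insertNth (1 : MvPolynomial (Fin d) ℂ) X :
        Fin (d + 1) → MvPolynomial (Fin d) ℂ) P = p := by
      have h5 : ∀ j ∈ Finset.range (p.totalDegree + 1), aeval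
          (l.insertNth (1 : MvPolynomial (Fin d) ℂ) X :
            Fin (d + 1) → MvPolynomial (Fin d) ℂ)
          (rename l.succAbove (homogeneousComponent j p) * X l ^ (p.totalDegree - j)) =
          homogeneousComponent j p := by
        intro j _
        have h6 : (l.insertNth (1 : MvPolynomial (Fin d) ℂ) X :
            Fin (d + 1) → MvPolynomial (Fin d) ℂ) ∘ l.succAbove = X := by
          funext i
          exact Fin.insertNth_apply_succAbove _ _ _ _
        rw [map_mul, map_pow, aeval_X, aeval_rename, h6,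
          Fin.insertNth_apply_same, one_pow, mul_one, aeval_X_left_apply]
      rw [hPdef, map_sum, Finset.sum_congr rfl h5, sum_homogeneousComponent]
    rw [← h4, h3, map_zero]
  · apply le_antisymm
    · refine Algebra.adjoin_le ?_
      rintro _ ⟨i, rfl⟩
      by_cases h : i = l
      · subst h
        change y i / y i ∈ _
        rw [div_self (hy i)]
        exact Subalgebra.one_mem _
      · obtain ⟨j, rfl⟩ := Fin.exists_succAbove_eq h
        exact Algebra.subset_adjoin ⟨j, rfl⟩
    · refine Algebra.adjoin_mono ?_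
      rintro _ ⟨i, rfl⟩
      exact ⟨l.succAbove i, rfl⟩

/-- the elements of the chart are integral -/
private theorem nbn_isInt {r : ℕ} {z : Fin (N + 1) → F} {w : Fin (r + 1) → F} (l : Fin (r + 1))
    (hl : w l ≠ 0) {j : Fin (N + 1)} {n : ℕ} {Q : ℕ → MvPolynomial (Fin (r + 1)) ℂ}
    (hQ : ∀ k < n, (Q k).IsHomogeneous (n - k))
    (he : z j ^ n + ∑ k ∈ Finset.range n, aeval w (Q k) * z j ^ k = 0) :
    IsIntegral (rat w l) (z j / w l) := by
  have hmem0 : ∀ i, w i / w l ∈ rat w l := fun i => Algebra.subset_adjoin ⟨i, rfl⟩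
  have hmem : ∀ k, aeval (fun i => w i / w l) (Q k) ∈ rat w l := fun k =>
    nbn_aeval_mem hmem0 (Q k)
  have hval : ∀ k < n, aeval (fun i => w i / w l) (Q k) = ((w l)⁻¹) ^ (n - k) * aeval w (Q k) := by
    intro k hk
    have h2 : (fun i => w i / w l) = fun i => (w l)⁻¹ * w i :=
      funext fun i => by rw [div_eq_mul_inv, mul_comm]
    rw [h2, nbn_hom (hQ k hk)]
  let q : Polynomial (rat w l) :=
    ∑ k ∈ Finset.range n, Polynomial.C (⟨_, hmem k⟩ : rat w l) * Polynomial.X ^ k
  have hq : q.degree < n := by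
    rw [← Polynomial.mem_degreeLT]
    refine Submodule.sum_mem _ fun k hk => ?_
    rw [Polynomial.mem_degreeLT]
    refine (Polynomial.degree_C_mul_X_pow_le _ _).trans_lt ?_
    exact_mod_cast Finset.mem_range.1 hk
  refine ⟨Polynomial.X ^ n + q, Polynomial.monic_X_pow_add hq, ?_⟩
  rw [Polynomial.eval₂_add, Polynomial.eval₂_X_pow, Polynomial.eval₂_finsetSum]
  have h3 : ∀ k ∈ Finset.range n, Polynomial.eval₂ (algebraMap (rat w l) F) (z j / w l)
      (Polynomial.C (⟨_, hmem k⟩ : rat w l) * Polynomial.X ^ k)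
      = ((w l)⁻¹) ^ n * (aeval w (Q k) * z j ^ k) := by
    intro k hk
    have hk' := Finset.mem_range.1 hk
    rw [Polynomial.eval₂_mul, Polynomial.eval₂_C, Polynomial.eval₂_X_pow]
    change aeval (fun i => w i / w l) (Q k) * (z j / w l) ^ k = _
    rw [hval k hk', div_eq_mul_inv, mul_pow]
    have e1 : ((w l)⁻¹) ^ n = ((w l)⁻¹) ^ (n - k) * ((w l)⁻¹) ^ k := by
      rw [← pow_add, Nat.sub_add_cancel hk'.le]
    rw [e1]
    ring
  rw [Finset.sum_congr rfl h3, ← Finset.mul_sum, div_eq_mul_inv, mul_pow, mul_comm (z j ^ n),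
    ← mul_add, he, mul_zero]

end aux

/-- PROOF. `VA Y (H ^ n) V`, `v` a basis of `V`, `J` the ideal generated by the homogeneous relations
between the `v b` (it is the kernel of `v b ↦ v b * T` with values in `F[T]`). Noether normalization of
`ℂ[X] / J` by linear forms: `exists_noether_aux` in `Pool/Agent/Lib/MP_ed661f_ag/H/Noether.lean`; the
number of the forms is `d + 1`, because the ratios are a transcendence basis of `F`. `y l` = the
value of the `l`-th form. An equation of integral dependence of `v b` over `ℂ[y]`, homogeneous, divided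
by a power of `y l`, is one of `v b / y l`. A point where all the `y l` vanish: all the `v b` vanish. -/
theorem exists_noe (hY : IsProj Y) (hd : Algebra.trdeg ℂ F = d) (hA : Amp Y H) :
    ∃ n : ℕ, 1 ≤ n ∧ ∃ (V : Submodule ℂ F) (y : Fin (d + 1) → F), Noe Y (H ^ n) V y := by
  classical
  obtain ⟨m, hm, V, hV⟩ := hA
  refine ⟨m, hm, V, ?_⟩
  have hVfin := hV.fin
  obtain ⟨O₀, hO₀⟩ := hY.nonempty
  obtain ⟨f₀, hf₀, hu₀⟩ := hV.gen O₀ hO₀
  have hf₀' : f₀ ≠ 0 := left_ne_zero_of_mul hu₀.1
  have hnt : Nontrivial V := ⟨⟨⟨f₀, hf₀⟩, 0, fun h => hf₀' (congrArg Subtype.val h)⟩⟩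
  have hpos : 0 < Module.finrank ℂ V := Module.finrank_pos
  obtain ⟨N, hN⟩ := Nat.exists_eq_succ_of_ne_zero hpos.ne'
  let b : Module.Basis (Fin (N + 1)) ℂ V := Module.finBasisOfFinrankEq ℂ V hN
  let z : Fin (N + 1) → F := fun i => (b i : F)
  have hz : Submodule.span ℂ (Set.range z) = V := by
    have h1 := b.span_eq
    have h2 := congrArg (Submodule.map V.subtype) h1
    rw [Submodule.map_span, Submodule.map_subtype_top, ← Set.range_comp] at h2
    exact h2
  have hzV : ∀ j, z j ∈ V := fun j => (b j).2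
  have hJ : RingHom.ker (nbn_psi z) ≠ ⊤ := RingHom.ker_ne_top _
  obtain ⟨r, y, hy, hinj, hfin⟩ := exists_noether_aux hJ (nbn_homog z)
  set w : Fin r → F := fun i => MvPolynomial.aeval z (y i) with hw
  have hwV : ∀ i, w i ∈ V := fun i => by
    rw [← hz]
    exact nbn_span z (hy i)
  have hind : ∀ (M : ℕ) (P : MvPolynomial (Fin r) ℂ), P.IsHomogeneous M →
      MvPolynomial.aeval w P = 0 → P = 0 := by
    intro M P hP hP0
    apply (injective_iff_map_eq_zero (proj (RingHom.ker (nbn_psi z)) y)).1 hinj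
    rw [proj_apply, Ideal.Quotient.eq_zero_iff_mem, RingHom.mem_ker]
    ext k
    rw [nbn_psi_coeff, homogeneousComponent_aeval_linear hy, nbn_aeval_comp, Polynomial.coeff_zero,
      MvPolynomial.homogeneousComponent_of_mem hP]
    split_ifs
    · exact hP0
    · rw [map_zero]
  have hint : ∀ j, ∃ (n : ℕ) (Q : ℕ → MvPolynomial (Fin r) ℂ),
      (∀ k < n, (Q k).IsHomogeneous (n - k)) ∧
      z j ^ n + ∑ k ∈ Finset.range n, MvPolynomial.aeval w (Q k) * z j ^ k = 0 :=
    fun j => nbn_int z y hy hfin j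
  clear_value w
  clear hinj hfin hy hw
  have hr : r ≠ 0 := by
    rintro rfl
    have h1 : ∀ j, z j = 0 := by
      intro j
      obtain ⟨n, Q, hQ, he⟩ := hint j
      have h2 : ∀ k ∈ Finset.range n, MvPolynomial.aeval w (Q k) * z j ^ k = 0 := by
        intro k hk
        have hk' := Finset.mem_range.1 hk
        have h3 : Q k = 0 := by
          by_contra h4
          have := (hQ k hk').inj_right (MvPolynomial.isHomogeneous_of_isEmpty _ _ (Q k)) h4
          omega
        rw [h3, map_zero, zero_mul]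
      rw [Finset.sum_eq_zero h2, add_zero] at he
      exact eq_zero_of_pow_eq_zero he
    have h2 : b 0 = 0 := Subtype.ext (h1 0)
    exact b.ne_zero 0 h2
  obtain ⟨r', rfl⟩ := Nat.exists_eq_succ_of_ne_zero hr
  have hw0 : ∀ l, w l ≠ 0 := by
    intro l h
    have := hind 1 (MvPolynomial.X l) (MvPolynomial.isHomogeneous_X _ _)
      (by rw [MvPolynomial.aeval_X]; exact h)
    exact MvPolynomial.X_ne_zero l this
  have hI : ∀ l, ∀ x ∈ cht V (w l), IsIntegral (rat w l) x := by
    intro l x hx
    have hzI : ∀ j, IsIntegral (rat w l) (z j / w l) := by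
      intro j
      obtain ⟨n, Q, hQ, he⟩ := hint j
      exact nbn_isInt l (hw0 l) hQ he
    have hvI : ∀ v ∈ V, IsIntegral (rat w l) (v / w l) := by
      intro v hv
      rw [← hz] at hv
      induction hv using Submodule.span_induction with
      | mem x hx =>
        obtain ⟨j, rfl⟩ := hx
        exact hzI j
      | zero => rw [zero_div]; exact isIntegral_zero
      | add x y _ _ hx hy => rw [add_div]; exact hx.add hy
      | smul c x _ hx =>
        rw [Algebra.smul_def, mul_div_assoc]
        refine IsIntegral.mul ?_ hx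
        exact isIntegral_algebraMap (R := rat w l) (A := F)
          (x := ⟨algebraMap ℂ F c, (rat w l).algebraMap_mem c⟩)
    unfold cht at hx
    induction hx using Algebra.adjoin_induction with
    | mem x hx =>
      obtain ⟨v, hv, rfl⟩ := hx
      exact hvI v hv
    | algebraMap c =>
      exact isIntegral_algebraMap (R := rat w l) (A := F)
        (x := ⟨algebraMap ℂ F c, (rat w l).algebraMap_mem c⟩)
    | add x x' _ _ h h' => exact h.add h'
    | mul x x' _ _ h h' => exact h.mul h'
  obtain ⟨hai, hrat⟩ := nbn_indep hw0 hind 0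
  have hfr : FracEq (cht V (w 0)) := by
    have hl : IsLocalRing (⊤ : Subalgebra ℂ F) :=
      IsLocalRing.of_surjective' (Subalgebra.topEquiv (R := ℂ) (A := F)).symm.toRingHom
        (Subalgebra.topEquiv (R := ℂ) (A := F)).symm.surjective
    have h1 := locAt_locOf (A := cht V (w 0)) le_top hl
    refine nb_frac h1 (hY.fracEq ?_)
    rw [hV.eq]
    exact ⟨w 0, hwV 0, hw0 0, h1⟩
  have htb : IsTranscendenceBasis ℂ (fun i : Fin r' => w (Fin.succAbove 0 i) / w 0) := by
    rw [hai.isTranscendenceBasis_iff_isAlgebraic, ← hrat]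
    constructor
    intro x
    obtain ⟨a, c, hc, hx⟩ := hfr x
    rw [hx, div_eq_mul_inv]
    exact (hI 0 a a.2).isAlgebraic.mul (hI 0 c c.2).isAlgebraic.inv
  have hrd : r' = d := by
    have h1 := htb.lift_cardinalMk_eq_trdeg
    rw [hd] at h1
    simpa using h1
  subst hrd
  refine ⟨w, hV, fun l => ⟨hwV l, hw0 l⟩, ?_, hind, hI⟩
  intro O hO
  have hl := hY.isLocalRing hO
  by_contra hcon
  push Not at hcon
  obtain ⟨f, hf, hu⟩ := hV.gen O hO
  rw [← hz] at hf
  obtain ⟨_, ⟨j, rfl⟩, hj⟩ := ampF_gen hl (S := Set.range z) (h := ((H ^ m) O : Fˣ))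
    (by rintro _ ⟨i, rfl⟩; exact hV.sec (hzV i) O hO) hf hu
  obtain ⟨n, Q, hQ, he⟩ := hint j
  set e : F := (((H ^ m) O : Fˣ) : F) with hedef
  have hwO : ∀ i, w i * e ∈ O := fun i => hV.sec (hwV i) O hO
  have hch : ∀ k : ℕ, ∃ y : O, k < n → y ∈ IsLocalRing.maximalIdeal O ∧
      (y : F) = MvPolynomial.aeval w (Q k) * e ^ (n - k) := by
    intro k
    by_cases hk : k < n
    · obtain ⟨y, h1, h2⟩ := nbn_max hl hwO hcon (m := n - k) (by omega) (hQ k hk)
      exact ⟨y, fun _ => ⟨h1, h2⟩⟩
    · exact ⟨0, fun h => absurd h hk⟩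
  choose ys hys using hch
  have hsum : (∑ k ∈ Finset.range n, ys k * (⟨z j * e, hj.2.1⟩ : O) ^ k) ∈
      IsLocalRing.maximalIdeal O :=
    Ideal.sum_mem _ fun k hk => Ideal.mul_mem_right _ _ (hys k (Finset.mem_range.1 hk)).1
  have hval : ((∑ k ∈ Finset.range n, ys k * (⟨z j * e, hj.2.1⟩ : O) ^ k : O) : F)
      = -(z j * e) ^ n := by
    have h1 : ((∑ k ∈ Finset.range n, ys k * (⟨z j * e, hj.2.1⟩ : O) ^ k : O) : F)
        = ∑ k ∈ Finset.range n, (ys k : F) * (z j * e) ^ k := by
      push_cast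
      rfl
    rw [h1, mul_pow, ← neg_mul, neg_eq_of_add_eq_zero_right he, Finset.sum_mul]
    refine Finset.sum_congr rfl fun k hk => ?_
    have hk' := Finset.mem_range.1 hk
    rw [(hys k hk').2, mul_pow]
    have e1 : e ^ n = e ^ (n - k) * e ^ k := by
      rw [← pow_add, Nat.sub_add_cancel hk'.le]
    rw [e1]
    ring
  have hun : Un O (-(z j * e) ^ n) := by
    have h1 := hj.pow n
    refine ⟨neg_ne_zero.2 h1.1, O.neg_mem h1.2.1, ?_⟩
    rw [inv_neg]
    exact O.neg_mem h1.2.2
  rw [IsLocalRing.mem_maximalIdeal, mem_nonunits_iff, pt_isUnit_iff, hval] at hsum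
  exact hsum ⟨hun.1, hun.2.2⟩

end Pool.Agent.KM
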