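import Pool.Agent.Lib.MP_732f67_ag.N.AmpB
import Pool.Agent.Lib.MP_732f67_ag.N.NbN

/-!
Part N: finite projections to the projective space, forms.
-/

namespace Pool.Agent.KM

variable {F : Type} [Field F] [Algebra ℂ F] {Y : Set (Subalgebra ℂ F)}
  {D E H : Subalgebra ℂ F → Fˣ} {d : ℕ}

/-- the localization of a subring of a field at a prime ideal -/
private def nbf_loc (A : Subalgebra ℂ F) (P : Ideal A) (hP : P.IsPrime) : Subalgebra ℂ F where
  carrier := {x | ∃ a b : A, b ∉ P ∧ x = a / b}
  mul_mem' := by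
    rintro x y ⟨a, b, hb, rfl⟩ ⟨a', b', hb', rfl⟩
    refine ⟨a * a', b * b', fun h => (hP.mem_or_mem h).elim hb hb', ?_⟩
    rw [div_mul_div_comm]
    rfl
  add_mem' := by
    rintro x y ⟨a, b, hb, rfl⟩ ⟨a', b', hb', rfl⟩
    have hb0 : (b : F) ≠ 0 := fun h => hb (by
      rw [show b = 0 from Subtype.ext h]
      exact P.zero_mem)
    have hb0' : (b' : F) ≠ 0 := fun h => hb' (by
      rw [show b' = 0 from Subtype.ext h]
      exact P.zero_mem)
    refine ⟨a * b' + b * a', b * b', fun h => (hP.mem_or_mem h).elim hb hb', ?_⟩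
    rw [div_add_div _ _ hb0 hb0']
    rfl
  algebraMap_mem' c := by
    refine ⟨⟨algebraMap ℂ F c, A.algebraMap_mem c⟩, 1, fun h => hP.ne_top
      ((Ideal.eq_top_iff_one _).2 h), ?_⟩
    change algebraMap ℂ F c = algebraMap ℂ F c / ((1 : A) : F)
    rw [OneMemClass.coe_one, div_one]

/-- the intersection of the local rings of a domain -/
private theorem nbf_mem {A : Subalgebra ℂ F} {x : F}
    (h : ∀ O : Subalgebra ℂ F, LocAt A O → x ∈ O) : x ∈ A := by
  let I : Ideal A :=
    { carrier := {b | (b : F) * x ∈ A}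
      add_mem' := by
        intro a b ha hb
        change ((a + b : A) : F) * x ∈ A
        rw [Subalgebra.coe_add, add_mul]
        exact A.add_mem ha hb
      zero_mem' := by
        change ((0 : A) : F) * x ∈ A
        rw [Subalgebra.coe_zero, zero_mul]
        exact A.zero_mem
      smul_mem' := by
        intro c b hb
        change ((c * b : A) : F) * x ∈ A
        rw [Subalgebra.coe_mul, mul_assoc]
        exact A.mul_mem c.2 hb }
  by_cases hI : I = ⊤
  · have h1 : (1 : A) ∈ I := (Ideal.eq_top_iff_one _).1 hI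
    have h2 : ((1 : A) : F) * x ∈ A := h1
    rwa [OneMemClass.coe_one, one_mul] at h2
  · obtain ⟨P, hP, hIP⟩ := Ideal.exists_le_maximal I hI
    have h1 : x ∈ nbf_loc A P hP.isPrime := h _ ⟨P, hP.isPrime, fun y => Iff.rfl⟩
    obtain ⟨a, b, hb, hab⟩ := h1
    have hb0 : (b : F) ≠ 0 := fun h => hb (by
      rw [show b = 0 from Subtype.ext h]
      exact P.zero_mem)
    have h2 : b ∈ I := by
      change (b : F) * x ∈ A
      rw [hab, mul_div_cancel₀ _ hb0]
      exact a.2
    exact (hb (hIP h2)).elim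

private theorem nbf_hom {ι : Type*} [Fintype ι] {P : MvPolynomial ι ℂ} {N : ℕ}
    (hP : P.IsHomogeneous N) (c : F) (x : ι → F) :
    MvPolynomial.aeval (fun i => c * x i) P = c ^ N * MvPolynomial.aeval x P := by
  rw [MvPolynomial.aeval_def, MvPolynomial.aeval_def, MvPolynomial.eval₂_eq',
    MvPolynomial.eval₂_eq', Finset.mul_sum]
  refine Finset.sum_congr rfl fun m hm => ?_
  have h1 : ∑ i, m i = N := by
    by_contra h
    exact MvPolynomial.mem_support_iff.1 hm (hP.coeff_eq_zero (by rwa [Finsupp.degree_eq_sum]))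
  simp_rw [mul_pow]
  rw [Finset.prod_mul_distrib, Finset.prod_pow_eq_pow_sum, h1]
  ring

/-- homogenization -/
private theorem nbf_form {y : Fin (d + 1) → F} (hy : ∀ l, y l ≠ 0) (l : Fin (d + 1)) {x : F}
    (hx : x ∈ rat y l) : ∃ n₀ : ℕ, ∀ n, n₀ ≤ n → ∃ P : MvPolynomial (Fin (d + 1)) ℂ,
      P.IsHomogeneous n ∧ MvPolynomial.aeval y P = x * y l ^ n := by
  unfold rat at hx
  induction hx using Algebra.adjoin_induction with
  | mem x hx =>
    obtain ⟨i, rfl⟩ := hx
    refine ⟨1, fun n hn => ⟨MvPolynomial.X i * MvPolynomial.X l ^ (n - 1), ?_, ?_⟩⟩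
    · have h1 := (MvPolynomial.isHomogeneous_X ℂ i).mul
        (MvPolynomial.isHomogeneous_X_pow (R := ℂ) l (n - 1))
      rwa [Nat.add_sub_cancel' hn] at h1
    · rw [map_mul, map_pow, MvPolynomial.aeval_X, MvPolynomial.aeval_X]
      change y i * y l ^ (n - 1) = y i / y l * y l ^ n
      have h1 : y l ^ n = y l * y l ^ (n - 1) := by
        rw [← pow_succ', Nat.sub_add_cancel hn]
      rw [h1, ← mul_assoc, div_mul_cancel₀ _ (hy l)]
  | algebraMap c =>
    refine ⟨0, fun n _ => ⟨MvPolynomial.C c * MvPolynomial.X l ^ n, ?_, ?_⟩⟩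
    · exact (MvPolynomial.isHomogeneous_X_pow (R := ℂ) l n).C_mul c
    · rw [map_mul, map_pow, MvPolynomial.aeval_X, MvPolynomial.aeval_C]
  | add x x' _ _ h h' =>
    obtain ⟨n₀, h⟩ := h
    obtain ⟨n₁, h'⟩ := h'
    refine ⟨max n₀ n₁, fun n hn => ?_⟩
    obtain ⟨P, hP, hP'⟩ := h n ((le_max_left _ _).trans hn)
    obtain ⟨Q, hQ, hQ'⟩ := h' n ((le_max_right _ _).trans hn)
    exact ⟨P + Q, hP.add hQ, by rw [map_add, hP', hQ', add_mul]⟩
  | mul x x' _ _ h h' =>
    obtain ⟨n₀, h⟩ := h
    obtain ⟨n₁, h'⟩ := h'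
    refine ⟨n₀ + n₁, fun n hn => ?_⟩
    obtain ⟨P, hP, hP'⟩ := h n₀ le_rfl
    obtain ⟨Q, hQ, hQ'⟩ := h' (n - n₀) (by omega)
    have h1 : n₀ + (n - n₀) = n := by omega
    refine ⟨P * Q, h1 ▸ hP.mul hQ, ?_⟩
    rw [map_mul, hP', hQ']
    conv_rhs => rw [← h1, pow_add]
    ring

private theorem nbf_aeval_mem {ι : Type*} {A : Subalgebra ℂ F} {x : ι → F} (hx : ∀ i, x i ∈ A)
    (P : MvPolynomial ι ℂ) : MvPolynomial.aeval x P ∈ A := by
  have h1 : Algebra.adjoin ℂ (Set.range x) ≤ A := by
    refine Algebra.adjoin_le ?_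
    rintro _ ⟨i, rfl⟩
    exact hx i
  refine h1 ?_
  rw [Algebra.adjoin_range_eq_range_aeval]
  exact ⟨P, rfl⟩

/-- a section of `E ^ k`, divided by `y l ^ k`, is in the ring of the chart

PROOF. The local rings of `cht V (y l)` are in `Y`, and `y l` is a generator of `E` there
(`BF.un_of_cht_le`); the intersection of the local rings of a domain. -/
theorem Noe.mem_cht {V : Submodule ℂ F} {y : Fin (d + 1) → F} (h : Noe Y E V y) {k : ℕ}
    {t : F} (ht : t ∈ Sec Y (E ^ k)) (l : Fin (d + 1)) : t / y l ^ k ∈ cht V (y l) := by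
  refine nbf_mem fun O hO => ?_
  have hOY : O ∈ Y := by
    rw [h.va.eq]
    exact ⟨y l, (h.mem l).1, (h.mem l).2, hO⟩
  have h1 := h.va.toBF.un_of_cht_le hOY (h.mem l).1 (h.mem l).2 hO.le
  have h2 := ht O hOY
  have h3 : t / y l ^ k = t * (((E ^ k) O : Fˣ) : F) * ((y l * (E O : F))⁻¹) ^ k := by
    rw [Pi.pow_apply, Units.val_pow_eq_pow_val, inv_pow, mul_pow, ← div_eq_mul_inv,
      mul_div_mul_right _ _ (pow_ne_zero k (E O).ne_zero)]
  rw [h3]
  exact O.mul_mem h2 (O.pow_mem h1.2.2 k)

/-- the `y i / y l`, `i ≠ l`, are algebraically independent, `rat y l` is a polynomial ring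

PROOF. Homogenize a relation (`Noe.ind`). -/
theorem rat_indep {y : Fin (d + 1) → F} (hy : ∀ l, y l ≠ 0)
    (hi : ∀ (N : ℕ) (P : MvPolynomial (Fin (d + 1)) ℂ), P.IsHomogeneous N →
      MvPolynomial.aeval y P = 0 → P = 0) (l : Fin (d + 1)) :
    AlgebraicIndependent ℂ (fun i : Fin d => y (l.succAbove i) / y l) ∧
      rat y l = Algebra.adjoin ℂ (Set.range fun i : Fin d => y (l.succAbove i) / y l) := by
  classical
  constructor
  · rw [algebraicIndependent_iff]
    intro p hp
    set P : MvPolynomial (Fin (d + 1)) ℂ := ∑ j ∈ Finset.range (p.totalDegree + 1),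
      MvPolynomial.rename l.succAbove (MvPolynomial.homogeneousComponent j p) *
        MvPolynomial.X l ^ (p.totalDegree - j) with hPdef
    have h1 : P.IsHomogeneous p.totalDegree := by
      refine MvPolynomial.IsHomogeneous.sum _ _ _ fun j hj => ?_
      have h2 := ((MvPolynomial.homogeneousComponent_isHomogeneous j p).rename_isHomogeneous
        (f := l.succAbove)).mul (MvPolynomial.isHomogeneous_X_pow (R := ℂ) l (p.totalDegree - j))
      have h3 : j + (p.totalDegree - j) = p.totalDegree := by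
        have := Finset.mem_range.1 hj
        omega
      rwa [h3] at h2
    have h2 : MvPolynomial.aeval y P = 0 := by
      have h3 : ∀ j ∈ Finset.range (p.totalDegree + 1), MvPolynomial.aeval y
          (MvPolynomial.rename l.succAbove (MvPolynomial.homogeneousComponent j p) *
            MvPolynomial.X l ^ (p.totalDegree - j)) = y l ^ p.totalDegree *
          MvPolynomial.aeval (fun i : Fin d => y (l.succAbove i) / y l)
            (MvPolynomial.homogeneousComponent j p) := by
        intro j hj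
        have h4 : y l ^ p.totalDegree = y l ^ j * y l ^ (p.totalDegree - j) := by
          rw [← pow_add]
          congr 1
          have := Finset.mem_range.1 hj
          omega
        have h5 : (fun i : Fin d => y (l.succAbove i)) =
            fun i : Fin d => y l * (y (l.succAbove i) / y l) := by
          funext i
          rw [mul_div_cancel₀ _ (hy l)]
        rw [map_mul, map_pow, MvPolynomial.aeval_X, MvPolynomial.aeval_rename, h4]
        change MvPolynomial.aeval (fun i : Fin d => y (l.succAbove i)) _ * _ = _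
        rw [h5, nbf_hom (MvPolynomial.homogeneousComponent_isHomogeneous j p)]
        ring
      rw [hPdef, map_sum, Finset.sum_congr rfl h3, ← Finset.mul_sum, ← map_sum,
        MvPolynomial.sum_homogeneousComponent, hp, mul_zero]
    have h3 := hi _ P h1 h2
    have h4 : MvPolynomial.aeval (l.insertNth (1 : MvPolynomial (Fin d) ℂ) MvPolynomial.X :
        Fin (d + 1) → MvPolynomial (Fin d) ℂ) P = p := by
      have h5 : ∀ j ∈ Finset.range (p.totalDegree + 1), MvPolynomial.aeval
          (l.insertNth (1 : MvPolynomial (Fin d) ℂ) MvPolynomial.X :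
            Fin (d + 1) → MvPolynomial (Fin d) ℂ)
          (MvPolynomial.rename l.succAbove (MvPolynomial.homogeneousComponent j p) *
            MvPolynomial.X l ^ (p.totalDegree - j)) =
          MvPolynomial.homogeneousComponent j p := by
        intro j _
        have h6 : (l.insertNth (1 : MvPolynomial (Fin d) ℂ) MvPolynomial.X :
            Fin (d + 1) → MvPolynomial (Fin d) ℂ) ∘ l.succAbove = MvPolynomial.X := by
          funext i
          exact Fin.insertNth_apply_succAbove _ _ _ _
        rw [map_mul, map_pow, MvPolynomial.aeval_X, MvPolynomial.aeval_rename, h6,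
          Fin.insertNth_apply_same, one_pow, mul_one, MvPolynomial.aeval_X_left_apply]
      rw [hPdef, map_sum, Finset.sum_congr rfl h5, MvPolynomial.sum_homogeneousComponent]
    rw [← h4, h3, map_zero]
  · apply le_antisymm
    · refine Algebra.adjoin_le ?_
      rintro _ ⟨i, rfl⟩
      by_cases h : i = l
      · subst h
        change y i / y i ∈ _
        rw [div_self (hy i)]
        exact Subalgebra.one_mem _
      · obtain ⟨j, rfl⟩ := Fin.exists_succAbove_eq h
        exact Algebra.subset_adjoin ⟨j, rfl⟩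
    · refine Algebra.adjoin_mono ?_
      rintro _ ⟨i, rfl⟩
      exact ⟨l.succAbove i, rfl⟩

/-- Functions which are polynomials of bounded degree.

PROOF. For large `M`: `x * y 0 ^ (N + M) = P(y)` and `x * y 0 ^ N * y l ^ M = Q(y)`, homogeneous of the
degree `N + M` (homogenization of the polynomials in the ratios). Then `P * X l ^ M = Q * X 0 ^ M` by
`hi`, so `X 0 ^ M` divides `P` (`X 0` is prime and does not divide `X l`), `P = X 0 ^ M * P'`. -/
theorem form_of {y : Fin (d + 1) → F} (hy : ∀ l, y l ≠ 0)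
    (hi : ∀ (N : ℕ) (P : MvPolynomial (Fin (d + 1)) ℂ), P.IsHomogeneous N →
      MvPolynomial.aeval y P = 0 → P = 0) {l : Fin (d + 1)} (hl : l ≠ 0) {N : ℕ} {x : F}
    (h0 : x ∈ rat y 0) (h1 : x * (y 0 / y l) ^ N ∈ rat y l) :
    ∃ P : MvPolynomial (Fin (d + 1)) ℂ, P.IsHomogeneous N ∧
      MvPolynomial.aeval y P = x * y 0 ^ N := by
  classical
  obtain ⟨a, ha⟩ := nbf_form hy 0 h0
  obtain ⟨b, hb⟩ := nbf_form hy l h1
  obtain ⟨P, hP, hP'⟩ := ha (N + (a + b)) (by omega)
  obtain ⟨Q, hQ, hQ'⟩ := hb (N + (a + b)) (by omega)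
  set M := a + b with hM
  have h2 : P * MvPolynomial.X l ^ M = Q * MvPolynomial.X 0 ^ M := by
    rw [← sub_eq_zero]
    refine hi (N + M + M) _ ?_ ?_
    · exact (hP.mul (MvPolynomial.isHomogeneous_X_pow (R := ℂ) l M)).sub
        (hQ.mul (MvPolynomial.isHomogeneous_X_pow (R := ℂ) 0 M))
    · rw [map_sub, map_mul, map_mul, map_pow, map_pow, MvPolynomial.aeval_X,
        MvPolynomial.aeval_X, hP', hQ', sub_eq_zero]
      have := hy l
      have := hy 0
      rw [div_pow, pow_add, pow_add]
      field_simp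
      ring
  have h3 : (MvPolynomial.X 0 : MvPolynomial (Fin (d + 1)) ℂ) ^ M ∣ P := by
    have hpr : Prime (MvPolynomial.X 0 : MvPolynomial (Fin (d + 1)) ℂ) := MvPolynomial.X_prime
    refine hpr.pow_dvd_of_dvd_mul_right M ?_ (h2 ▸ Dvd.intro_left Q rfl)
    intro h
    exact hl (MvPolynomial.X_dvd_X.1 (hpr.dvd_of_dvd_pow h)).symm
  obtain ⟨P', rfl⟩ := h3
  have h4 : P'.IsHomogeneous N := by
    intro m hm
    have h5 : MvPolynomial.coeff (Finsupp.single 0 M + m) (MvPolynomial.X 0 ^ M * P') ≠ 0 := by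
      rw [MvPolynomial.X_pow_eq_monomial, MvPolynomial.coeff_monomial_mul, one_mul]
      exact hm
    have h6 := hP h5
    rw [map_add] at h6
    have h7 : Finsupp.weight (1 : Fin (d + 1) → ℕ) (Finsupp.single (0 : Fin (d + 1)) M) = M := by
      have h8 := DFunLike.congr_fun (Finsupp.degree_eq_weight_one (σ := Fin (d + 1)) (R := ℕ))
        (Finsupp.single (0 : Fin (d + 1)) M)
      rw [Finsupp.degree_single] at h8
      exact h8.symm
    omega
  refine ⟨P', h4, ?_⟩
  have h5 : y 0 ^ M ≠ 0 := pow_ne_zero M (hy 0)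
  apply mul_left_cancel₀ h5
  rw [map_mul, map_pow, MvPolynomial.aeval_X] at hP'
  rw [hP', pow_add]
  ring

/-- the values of forms are sections -/
theorem Noe.sec {V : Submodule ℂ F} {y : Fin (d + 1) → F} (h : Noe Y E V y) {N : ℕ}
    {P : MvPolynomial (Fin (d + 1)) ℂ} (hP : P.IsHomogeneous N) :
    MvPolynomial.aeval y P ∈ Sec Y (E ^ N) := by
  intro O hO
  have h1 : MvPolynomial.aeval y P * (((E ^ N) O : Fˣ) : F) =
      MvPolynomial.aeval (fun i => (E O : F) * y i) P := by
    rw [nbf_hom hP, Pi.pow_apply, Units.val_pow_eq_pow_val, mul_comm]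
  rw [h1]
  refine nbf_aeval_mem (fun i => ?_) P
  rw [mul_comm]
  exact h.va.sec (h.mem i).1 O hO

end Pool.Agent.KM
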