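import Pool.Agent.Lib.MP_732f67_ag.N.AmpB
import Pool.Agent.Lib.MP_732f67_ag.N.NbN
import Pool.Agent.Lib.MP_732f67_ag.N.NbF

/-!
Part N: finite projections to the projective space, forms.
-/

namespace Pool.Agent.KM

variable {F : Type} [Field F] [Algebra ℂ F] {Y : Set (Subalgebra ℂ F)}
  {D E H : Subalgebra ℂ F → Fˣ} {d : ℕ}

open scoped IntermediateField.algebraAdjoinAdjoin in
private theorem nbM_coeff {S : Set F} (hc : IsIntegrallyClosed (Algebra.adjoin ℂ S)) {z : F}
    (hz : IsIntegral (Algebra.adjoin ℂ S) z) (j : ℕ) :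
    ((minpoly (IntermediateField.adjoin ℂ S) z).coeff j : F) ∈ Algebra.adjoin ℂ S := by
  rw [minpoly.isIntegrallyClosed_eq_field_fractions' (IntermediateField.adjoin ℂ S) hz,
    Polynomial.coeff_map]
  exact ((minpoly (Algebra.adjoin ℂ S) z).coeff j).2

/-- the field of the ratios -/
private noncomputable abbrev nbMF (y : Fin (d + 1) → F) (l : Fin (d + 1)) :
    IntermediateField ℂ F :=
  IntermediateField.adjoin ℂ (Set.range fun i => y i / y l)

private theorem nbM_eq {y : Fin (d + 1) → F} (hy : ∀ l, y l ≠ 0) (a b : Fin (d + 1)) :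
    nbMF y a = nbMF y b := by
  have key : ∀ a b, nbMF y a ≤ nbMF y b := by
    intro a b
    refine IntermediateField.adjoin_le_iff.2 ?_
    rintro _ ⟨i, rfl⟩
    have h1 : y i / y a = (y i / y b) / (y a / y b) :=
      (div_div_div_cancel_right₀ (hy b) _ _).symm
    show y i / y a ∈ nbMF y b
    rw [h1]
    exact div_mem (IntermediateField.subset_adjoin _ _ ⟨i, rfl⟩)
      (IntermediateField.subset_adjoin _ _ ⟨a, rfl⟩)
  exact le_antisymm (key _ _) (key _ _)

private theorem nbM_closed {y : Fin (d + 1) → F} (hy : ∀ l, y l ≠ 0)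
    (hi : ∀ (N : ℕ) (P : MvPolynomial (Fin (d + 1)) ℂ), P.IsHomogeneous N →
      MvPolynomial.aeval y P = 0 → P = 0) (l : Fin (d + 1)) :
    IsIntegrallyClosed (Algebra.adjoin ℂ (Set.range fun i => y i / y l)) := by
  obtain ⟨h1, h2⟩ := rat_indep hy hi l
  have h3 : IsIntegrallyClosed (MvPolynomial (Fin d) ℂ) := inferInstance
  have h4 := IsIntegrallyClosed.of_equiv h1.aevalEquiv.toRingEquiv
  rw [rat] at h2
  rw [h2]
  exact h4

private theorem nbM_mem {y : Fin (d + 1) → F} (hy : ∀ l, y l ≠ 0)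
    (hi : ∀ (N : ℕ) (P : MvPolynomial (Fin (d + 1)) ℂ), P.IsHomogeneous N →
      MvPolynomial.aeval y P = 0 → P = 0) (l : Fin (d + 1)) {z : F}
    (hz : IsIntegral (rat y l) z) (j : ℕ) :
    ((minpoly (nbMF y 0) z).coeff j : F) ∈ rat y l := by
  rw [nbM_eq hy 0 l]
  exact nbM_coeff (nbM_closed hy hi l) hz j

/-- PROOF. `K` = the subfield generated by `rat y 0`; `F / K` is finite, `c` its degree. Let `x = t / y 0 ^ k`
and `p` the minimal polynomial of `x` over `K`, of degree `e ≤ c`, with the coefficients `a j`. `x` is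
integral over `rat y 0`, which is integrally closed (`rat_indep`), so the `a j` are in `rat y 0`
(`minpoly.isIntegrallyClosed_eq_field_fractions`). For `l ≠ 0` the minimal polynomial of
`t / y l ^ k = x * (y 0 / y l) ^ k` over `K` (also the fraction field of `rat y l`) has the coefficients
`a j * (y 0 / y l) ^ (k (e - j))`. `form_of`: `a j * y 0 ^ (k (e - j)) = P j (y)`, homogeneous of degree
`k (e - j)`. `t ^ e + ∑ P j (y) t ^ j = 0`, so `P 0 (y) = -t (t ^ (e - 1) + ∑ P j (y) t ^ (j - 1))`; `a 0 ≠ 0`. -/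
theorem exists_norm {V : Submodule ℂ F} {y : Fin (d + 1) → F} (h : Noe Y E V y) (hd : 1 ≤ d) :
    ∃ c : ℕ, 1 ≤ c ∧ ∀ (k : ℕ) (t : F), t ≠ 0 → t ∈ Sec Y (E ^ k) →
      ∃ (e : ℕ) (P : MvPolynomial (Fin (d + 1)) ℂ), 1 ≤ e ∧ e ≤ c ∧ P.IsHomogeneous (k * e) ∧
        P ≠ 0 ∧ ∃ g ∈ Sec Y (E ^ (k * (e - 1))), MvPolynomial.aeval y P = t * g := by
  have hy : ∀ l, y l ≠ 0 := fun l => (h.mem l).2
  -- the field of fractions of the chart
  obtain ⟨K, hK⟩ : ∃ K : IntermediateField ℂ F, K = nbMF y 0 := ⟨_, rfl⟩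
  have hint0 : ∀ x ∈ cht V (y 0), IsIntegral K x := by
    intro x hx
    have h1 := h.int 0 x hx
    have hle : rat y 0 ≤ K.toSubalgebra := by
      rw [hK]
      exact IntermediateField.algebra_adjoin_le_adjoin ℂ _
    obtain ⟨p, hp, hp0⟩ := h1
    refine ⟨p.map (Subalgebra.inclusion hle).toRingHom, hp.map _, ?_⟩
    rw [Polynomial.eval₂_map]
    exact hp0
  obtain ⟨s, hs⟩ : V.FG := Module.Finite.iff_fg.1 h.va.fin
  obtain ⟨S, hS⟩ : ∃ S : Set F, S = (fun v => v / y 0) '' (s : Set F) := ⟨_, rfl⟩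
  have hSf : S.Finite := by
    rw [hS]
    exact s.finite_toSet.image _
  have hSc : ∀ x ∈ S, x ∈ cht V (y 0) := by
    rw [hS]
    rintro _ ⟨v, hv, rfl⟩
    exact Algebra.subset_adjoin ⟨v, hs ▸ Submodule.subset_span hv, rfl⟩
  obtain ⟨L, hL⟩ : ∃ L : IntermediateField K F, L = IntermediateField.adjoin K S := ⟨_, rfl⟩
  have hfin : FiniteDimensional K L := by
    rw [hL]
    have : Finite S := hSf.to_subtype
    exact IntermediateField.finiteDimensional_adjoin fun x hx => hint0 x (hSc x hx)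
  have hchtL : ∀ x ∈ cht V (y 0), x ∈ L := by
    intro x hx
    have h1 : cht V (y 0) ≤ (L.toSubalgebra.restrictScalars ℂ) := by
      refine Algebra.adjoin_le ?_
      rintro _ ⟨v, hv, rfl⟩
      have h2 : V ≤ (Subalgebra.toSubmodule (L.toSubalgebra.restrictScalars ℂ)).comap
          (LinearMap.mulRight ℂ (y 0)⁻¹) := by
        rw [← hs]
        refine Submodule.span_le.2 fun w hw => ?_
        show w * (y 0)⁻¹ ∈ L
        rw [← div_eq_mul_inv, hL]
        refine IntermediateField.subset_adjoin K S ?_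
        rw [hS]
        exact ⟨w, hw, rfl⟩
      have h3 : v * (y 0)⁻¹ ∈ L := h2 hv
      rw [← div_eq_mul_inv] at h3
      exact h3
    exact h1 hx
  refine ⟨Module.finrank K L, Module.finrank_pos, fun k t ht0 ht => ?_⟩
  have hxc : t / y 0 ^ k ∈ cht V (y 0) := h.mem_cht ht 0
  obtain ⟨x, hx⟩ : ∃ x : F, x = t / y 0 ^ k := ⟨_, rfl⟩
  rw [← hx] at hxc
  have hx0 : x ≠ 0 := by
    rw [hx]
    exact div_ne_zero ht0 (pow_ne_zero _ (hy 0))
  have hxi : IsIntegral K x := hint0 x hxc
  obtain ⟨p, hp⟩ : ∃ p : Polynomial K, p = minpoly K x := ⟨_, rfl⟩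
  have he1 : 1 ≤ p.natDegree := by
    rw [hp]
    exact minpoly.natDegree_pos hxi
  have hec : p.natDegree ≤ Module.finrank K L := by
    have h1 : minpoly K (algebraMap L F ⟨x, hchtL x hxc⟩) = minpoly K (⟨x, hchtL x hxc⟩ : L) :=
      minpoly.algebraMap_eq (algebraMap L F).injective _
    rw [hp]
    have h2 : (algebraMap L F ⟨x, hchtL x hxc⟩ : F) = x := rfl
    rw [← h2, h1]
    exact minpoly.natDegree_le _
  obtain ⟨e, he⟩ : ∃ e : ℕ, e = p.natDegree := ⟨_, rfl⟩
  rw [← he] at he1 hec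
  -- the coefficients are forms
  have hform : ∀ j ≤ e, ∃ P : MvPolynomial (Fin (d + 1)) ℂ, P.IsHomogeneous (k * (e - j)) ∧
      MvPolynomial.aeval y P = (p.coeff j : F) * y 0 ^ (k * (e - j)) := by
    intro j hj
    have hl : Fin.last d ≠ 0 := by
      intro h1
      have h2 := congrArg Fin.val h1
      rw [Fin.val_last, Fin.val_zero] at h2
      omega
    refine form_of hy h.ind hl ?_ ?_
    · rw [hp, hK]
      exact nbM_mem hy h.ind 0 (h.int 0 x hxc) j
    · have hyK : y 0 / y (Fin.last d) ∈ K := by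
        rw [hK, nbM_eq hy 0 (Fin.last d)]
        exact IntermediateField.subset_adjoin _ _ ⟨0, rfl⟩
      obtain ⟨u, hu⟩ : ∃ u : K, u = ⟨y 0 / y (Fin.last d), hyK⟩ ^ k := ⟨_, rfl⟩
      have hu' : (u : F) = (y 0 / y (Fin.last d)) ^ k := by
        rw [hu]
        rfl
      have hu0 : u ≠ 0 := by
        intro h1
        have h2 : (u : F) = 0 := by
          rw [h1]
          rfl
        rw [hu'] at h2
        exact pow_ne_zero _ (div_ne_zero (hy _) (hy _)) h2
      have h1 : u • x = t / y (Fin.last d) ^ k := by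
        rw [Algebra.smul_def, hx]
        show (u : F) * _ = _
        rw [hu', div_pow]
        have := pow_ne_zero k (hy 0)
        have := pow_ne_zero k (hy (Fin.last d))
        field_simp
      have h2 := IsIntegrallyClosed.minpoly_smul hu0 hxi
      have h3 : ((minpoly K (u • x)).coeff j : F) ∈ rat y (Fin.last d) := by
        rw [h1, hK]
        exact nbM_mem hy h.ind _ (h.int _ _ (h.mem_cht ht _)) j
      rw [h2, Polynomial.coeff_scaleRoots, ← hp, ← he] at h3
      have h4 : ((p.coeff j * u ^ (e - j) : K) : F) =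
          (p.coeff j : F) * (y 0 / y (Fin.last d)) ^ (k * (e - j)) := by
        rw [pow_mul, ← hu']
        rfl
      rw [← h4]
      exact h3
  choose P hPh hPe using hform
  have hsum : ∑ j ∈ Finset.range (e + 1), (p.coeff j : F) * x ^ j = 0 := by
    have h1 := minpoly.aeval K x
    rw [← hp, Polynomial.aeval_eq_sum_range, ← he] at h1
    exact h1
  have hxt : ∀ j ≤ e, (p.coeff j : F) * x ^ j * y 0 ^ (k * e) =
      (p.coeff j : F) * y 0 ^ (k * (e - j)) * t ^ j := by
    intro j hj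
    have h1 : t = x * y 0 ^ k := by
      rw [hx, div_mul_cancel₀ _ (pow_ne_zero _ (hy 0))]
    have h2 : k * e = k * (e - j) + k * j := by
      rw [← Nat.mul_add, Nat.sub_add_cancel hj]
    rw [h1, h2, pow_add, mul_pow, ← pow_mul]
    ring
  have hmain : MvPolynomial.aeval y (P 0 (Nat.zero_le e)) =
      t * -(∑ i ∈ (Finset.range e).attach, MvPolynomial.aeval y
        (P (i.1 + 1) (Finset.mem_range.1 i.2)) * t ^ i.1) := by
    have h1 : (∑ j ∈ Finset.range (e + 1), (p.coeff j : F) * x ^ j) * y 0 ^ (k * e) = 0 := by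
      rw [hsum, zero_mul]
    rw [Finset.sum_range_succ', add_mul, Finset.sum_mul, hxt 0 (Nat.zero_le e), pow_zero,
      mul_one, ← hPe 0 (Nat.zero_le e)] at h1
    rw [mul_neg, Finset.mul_sum, eq_neg_iff_add_eq_zero, add_comm]
    rw [← h1, ← Finset.sum_attach (Finset.range e)]
    congr 1
    refine Finset.sum_congr rfl fun i _ => ?_
    rw [hPe, hxt _ (Finset.mem_range.1 i.2), pow_succ]
    ring
  refine ⟨e, P 0 (Nat.zero_le e), he1, hec, hPh 0 (Nat.zero_le e), fun h1 => ?_, _, ?_, hmain⟩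
  · have h2 := hPe 0 (Nat.zero_le e)
    rw [h1, map_zero] at h2
    rcases mul_eq_zero.1 h2.symm with h3 | h3
    · refine minpoly.coeff_zero_ne_zero hxi hx0 ?_
      rw [← hp]
      exact Subtype.ext h3
    · exact pow_ne_zero _ (hy 0) h3
  · intro O hO
    rw [neg_mul, Finset.sum_mul]
    refine O.neg_mem (O.sum_mem fun i _ => ?_)
    have h1 := h.sec (hPh (i.1 + 1) (Finset.mem_range.1 i.2)) O hO
    have h2 : t ^ i.1 * (E O : F) ^ (k * i.1) ∈ O := by
      have h3 := ht O hO
      have h4 : t ^ i.1 * (E O : F) ^ (k * i.1) = (t * ((E ^ k) O : Fˣ)) ^ i.1 := by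
        rw [Pi.pow_apply, Units.val_pow_eq_pow_val, mul_pow, ← pow_mul]
      rw [h4]
      exact O.pow_mem h3 _
    have h5 : k * (e - 1) = k * (e - (i.1 + 1)) + k * i.1 := by
      rw [← Nat.mul_add]
      congr 1
      have := Finset.mem_range.1 i.2
      omega
    have h6 := O.mul_mem h1 h2
    have h7 : (MvPolynomial.aeval y (P (i.1 + 1) (Finset.mem_range.1 i.2)) * t ^ i.1) *
        (((E ^ (k * (e - 1))) O : Fˣ) : F) =
        MvPolynomial.aeval y (P (i.1 + 1) (Finset.mem_range.1 i.2)) *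
          (((E ^ (k * (e - (i.1 + 1)))) O : Fˣ) : F) * (t ^ i.1 * (E O : F) ^ (k * i.1)) := by
      rw [Pi.pow_apply, Pi.pow_apply, Units.val_pow_eq_pow_val, Units.val_pow_eq_pow_val, h5,
        pow_add]
      ring
    rw [h7]
    exact h6

end Pool.Agent.KM
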