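import Pool.Agent.Lib.MP_732f67_ag.N.AmpB
import Pool.Agent.Lib.MP_732f67_ag.N.NbN
import Pool.Agent.Lib.MP_732f67_ag.N.NbF
import Pool.Agent.Lib.MP_732f67_ag.N.NbM
import Pool.Agent.Lib.MP_ed661f_ag.S.KernAlg

/-!
Part N: finite projections to the projective space, forms.
-/

namespace Pool.Agent.KM

variable {F : Type} [Field F] [Algebra ℂ F] {Y : Set (Subalgebra ℂ F)}
  {D E H : Subalgebra ℂ F → Fˣ} {d : ℕ}

/-- a divisor of a homogeneous polynomial is homogeneous (lowest and highest components) -/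
theorem homog_of_mul {σ : Type*} {P Q : MvPolynomial σ ℂ} {N : ℕ} (h0 : P * Q ≠ 0)
    (h : (P * Q).IsHomogeneous N) : ∃ a b : ℕ, a + b = N ∧ P.IsHomogeneous a ∧ Q.IsHomogeneous b := by
  obtain ⟨a, b, h1, h2, h3⟩ := Pool.Agent.Lib.MP_ed661f_ag.S.homogeneous_of_mul h h0
  exact ⟨a, b, h3, h1, h2⟩

end Pool.Agent.KM
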