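import Pool.Agent.Lib.MP_732f67_ag.N.Grp
import Pool.Agent.Lib.MP_732f67_ag.N.NumB

/-!
Part N: finite projections to the projective space given by invariant sections.
-/

namespace Pool.Agent.KM

variable {F : Type} [Field F] [Algebra ℂ F] {Y : Set (Subalgebra ℂ F)}
  {G : Subgroup (F ≃ₐ[ℂ] F)} {H E : Subalgebra ℂ F → Fˣ} {d : ℕ}
  {Δ : Fin d → Derivation ℂ F F}

/-- products of sections -/
private theorem inQ_prod {ι : Type*} (S : Finset ι) (f : ι → F)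
    (hf : ∀ i ∈ S, f i ∈ Sec Y H) : ∏ i ∈ S, f i ∈ Sec Y (H ^ S.card) := by
  classical
  induction S using Finset.induction_on with
  | empty =>
    rw [Finset.prod_empty, Finset.card_empty, ← pow_zero (1 : F)]
    intro O _
    rw [pow_zero, pow_zero, Pi.one_apply, Units.val_one, mul_one]
    exact O.one_mem
  | insert i S hi ih =>
    rw [Finset.prod_insert hi, Finset.card_insert_of_notMem hi, pow_succ']
    exact sec_mul (hf i (Finset.mem_insert_self i S))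
      (ih fun j hj => hf j (Finset.mem_insert_of_mem hj))

/-- all functions are quotients of sections -/
private theorem inQ_quot (hY : IsProj Y) (hA : Amp Y H) (φ : F) :
    ∃ (N : ℕ) (s s' : F), 1 ≤ N ∧ s' ≠ 0 ∧ s ∈ Sec Y (H ^ N) ∧ s' ∈ Sec Y (H ^ N) ∧
      φ = s / s' := by
  obtain ⟨m, hm, V, hV⟩ := hA
  obtain ⟨O, hO⟩ := hY.nonempty
  have hO1 := hO
  rw [hV.eq] at hO1
  obtain ⟨v, hv, hv0, hl⟩ := hO1
  obtain ⟨⟨a, ha⟩, ⟨b, hb⟩, hb0, hab⟩ := nb_frac hl (hY.fracEq hO) φ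
  simp only at hb0 hab
  rw [mem_cht_iff hv hv0] at ha hb
  obtain ⟨e, p, hp, rfl⟩ := ha
  obtain ⟨e', p', hp', rfl⟩ := hb
  have hve : v ^ e ≠ 0 := pow_ne_zero _ hv0
  have hve' : v ^ e' ≠ 0 := pow_ne_zero _ hv0
  have hp0 : p' ≠ 0 := fun h0 => hb0 (by rw [h0, zero_div])
  have hsec : ∀ x ∈ V ^ (e + e' + 1), x ∈ Sec Y (H ^ (m * (e + e' + 1))) := by
    intro x hx
    rw [pow_mul]
    exact (hV.toBF.pow (e + e' + 1)).sec hx
  refine ⟨m * (e + e' + 1), p * v ^ e' * v, p' * v ^ e * v, ?_, ?_, hsec _ ?_, hsec _ ?_, ?_⟩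
  · exact Nat.mul_pos hm (Nat.succ_pos _)
  · exact mul_ne_zero (mul_ne_zero hp0 hve) hv0
  · rw [pow_succ, pow_add]
    exact Submodule.mul_mem_mul (Submodule.mul_mem_mul hp (Submodule.pow_mem_pow _ hv _)) hv
  · rw [pow_succ, add_comm e e', pow_add]
    exact Submodule.mul_mem_mul (Submodule.mul_mem_mul hp' (Submodule.pow_mem_pow _ hv _)) hv
  · rw [hab]
    field_simp

/-- Invariant functions are quotients of invariant sections.

PROOF. `φ = s / s'` with `s`, `s' ∈ Sec (H ^ N)` (`F` is the fraction field of a chart of a very ample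
system of sections of `H ^ N`), and `φ = (s * ∏ γ ≠ 1, γ s') / ∏ γ, γ s'` (`sec_gm`). -/
theorem exists_inv_quot (hY : Base d Y G Δ) (hH : GC Y G H) (hA : Amp Y H) {φ : F}
    (hφ : ∀ γ ∈ G, γ φ = φ) :
    ∃ (N : ℕ) (s s' : F), 1 ≤ N ∧ s' ≠ 0 ∧ s ∈ Sec Y (H ^ N) ∧ s' ∈ Sec Y (H ^ N) ∧
      (∀ γ ∈ G, γ s = s) ∧ (∀ γ ∈ G, γ s' = s') ∧ φ = s / s' := by
  classical
  have hfin : Finite G := hY.fin
  let _ : Fintype G := Fintype.ofFinite G
  obtain ⟨N, s, s', hN, hs0, hs, hs', hq⟩ := inQ_quot hY.proj hA φ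
  have hγ : ∀ γ : G, γ.1 s' ∈ Sec Y (H ^ N) := fun γ =>
    sec_gm hY.st (gi_pow (gc_gi hH) N) γ.2 hs'
  have hn0 : ∏ γ : G, γ.1 s' ≠ 0 := Finset.prod_ne_zero_iff.2 fun γ _ => by
    rw [Ne, map_eq_zero_iff _ γ.1.injective]
    exact hs0
  have hinv : ∀ γ ∈ G, γ (∏ δ : G, δ.1 s') = ∏ δ : G, δ.1 s' := by
    intro γ hγ
    rw [map_prod]
    exact Fintype.prod_equiv (Equiv.mulLeft (⟨γ, hγ⟩ : G)) _ _ fun δ => rfl
  have hcard : (Finset.univ : Finset G).card = (Finset.univ.erase (1 : G)).card + 1 :=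
    (Finset.card_erase_add_one (Finset.mem_univ _)).symm
  have hc1 : 1 ≤ (Finset.univ : Finset G).card := by
    rw [hcard]
    exact Nat.succ_pos _
  refine ⟨N * (Finset.univ : Finset G).card, φ * ∏ γ : G, γ.1 s', ∏ γ : G, γ.1 s',
    Nat.mul_pos hN hc1, hn0, ?_, ?_, ?_, hinv, ?_⟩
  · have h1 : φ * ∏ γ : G, γ.1 s' = s * ∏ γ ∈ Finset.univ.erase (1 : G), γ.1 s' := by
      rw [← Finset.mul_prod_erase Finset.univ _ (Finset.mem_univ (1 : G)), ← mul_assoc]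
      congr 1
      have h2 : ((1 : G) : F ≃ₐ[ℂ] F) s' = s' := rfl
      rw [h2, hq]
      exact div_mul_cancel₀ s hs0
    rw [h1, hcard, pow_mul, pow_succ']
    exact sec_mul hs (inQ_prod _ _ fun γ _ => hγ γ)
  · rw [pow_mul]
    exact inQ_prod _ _ fun γ _ => hγ γ
  · intro γ hγ'
    rw [map_mul, hφ γ hγ', hinv γ hγ']
  · exact (mul_div_cancel_right₀ φ hn0).symm

end Pool.Agent.KM
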