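import Pool.Agent.Lib.MP_732f67_ag.N.Grp
import Pool.Agent.Lib.MP_732f67_ag.N.NumB
import Pool.Agent.Lib.MP_732f67_ag.N.InQ
import Pool.Agent.Lib.MP_732f67_ag.N.NbF
import Pool.Agent.Lib.MP_732f67_ag.G.AtEx
import Pool.Agent.Lib.MP_ed661f_ag.H.Noether

/-!
Part N: finite projections to the projective space given by invariant sections.
-/

namespace Pool.Agent.KM

variable {F : Type} [Field F] [Algebra ℂ F] {Y : Set (Subalgebra ℂ F)}
  {G : Subgroup (F ≃ₐ[ℂ] F)} {H E : Subalgebra ℂ F → Fˣ} {d : ℕ}
  {Δ : Fin d → Derivation ℂ F F}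

open Pool.Agent.Lib.MP_ed661f_ag.H in
/-- the value of a form at `v b * T` -/
private theorem inb_form {σ : Type} [Fintype σ] {R : Type} [CommRing R] [Algebra ℂ R]
    {P : MvPolynomial σ ℂ} {n : ℕ} (hP : P.IsHomogeneous n) (c : R) (x : σ → R) :
    MvPolynomial.aeval (fun i => x i * c) P = MvPolynomial.aeval x P * c ^ n := by
  rw [MvPolynomial.aeval_def, MvPolynomial.aeval_def, MvPolynomial.eval₂_eq',
    MvPolynomial.eval₂_eq', Finset.sum_mul]
  refine Finset.sum_congr rfl fun m hm => ?_
  have h1 : ∑ i, m i = n := by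
    have h2 := hP.degree_eq_sum_deg_support hm
    rw [← Finsupp.degree_eq_sum]
    exact h2.symm
  simp only [mul_pow, Finset.prod_mul_distrib]
  rw [Finset.prod_pow_eq_pow_sum, h1]
  ring

/-- the value of a linear form -/
private theorem inb_lin {σ : Type} [Fintype σ] {P : MvPolynomial σ ℂ} (hP : P.IsHomogeneous 1)
    (x : σ → F) : MvPolynomial.aeval x P ∈ Submodule.span ℂ (Set.range x) := by
  classical
  rw [MvPolynomial.aeval_def, MvPolynomial.eval₂_eq']
  refine Submodule.sum_mem _ fun m hm => ?_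
  rw [← Algebra.smul_def]
  refine Submodule.smul_mem _ _ ?_
  have h1 : m.degree = 1 := (hP.degree_eq_sum_deg_support hm).symm
  obtain ⟨b, hb⟩ := (Finsupp.sum_eq_one_iff m).1 h1
  rw [hb, Finset.prod_eq_single b, Finsupp.single_eq_same, pow_one]
  · exact Submodule.subset_span ⟨b, rfl⟩
  · intro c _ hc
    rw [Finsupp.single_eq_of_ne hc, pow_zero]
  · exact fun h => absurd (Finset.mem_univ _) h

open Pool.Agent.Lib.MP_ed661f_ag.H in
/-- Noether normalization of the ring generated by the `v b * T` -/
private theorem inb_noether {N : ℕ} (v : Fin (N + 1) → F) : ∃ (r : ℕ) (y : Fin r → F),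
    (∀ l, y l ∈ Submodule.span ℂ (Set.range v)) ∧
    (∀ (n : ℕ) (P : MvPolynomial (Fin r) ℂ), P.IsHomogeneous n → MvPolynomial.aeval y P = 0 →
      P = 0) ∧
    ∀ (R : Type) [CommRing R] [Algebra ℂ R] [Algebra F R] [IsScalarTower ℂ F R] (t : R) (b),
      IsIntegral (Algebra.adjoin ℂ (Set.range fun l => algebraMap F R (y l) * t))
        (algebraMap F R (v b) * t) := by
  classical
  let θ : Poly N →ₐ[ℂ] Polynomial F :=
    MvPolynomial.aeval fun b => Polynomial.C (v b) * Polynomial.X
  have hθ : ∀ (n : ℕ) (P : Poly N), P.IsHomogeneous n →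
      θ P = Polynomial.C (MvPolynomial.aeval v P) * Polynomial.X ^ n := by
    intro n P hP
    have h1 := inb_form hP (Polynomial.X : Polynomial F) (fun b => Polynomial.C (v b))
    have h2 : MvPolynomial.aeval (fun b => (Polynomial.C (v b) : Polynomial F)) P =
        Polynomial.C (MvPolynomial.aeval v P) := by
      have h3 := MvPolynomial.comp_aeval_apply (φ := (Polynomial.CAlgHom (R := ℂ) (A := F)))
        (f := v) P
      exact h3.symm
    rw [h2] at h1
    exact h1
  have hJ : RingHom.ker θ.toRingHom ≠ ⊤ := RingHom.ker_ne_top _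
  have hh : Homog (RingHom.ker θ.toRingHom) := by
    intro P hP k
    have hP' : θ P = 0 := hP
    rw [← MvPolynomial.sum_homogeneousComponent P, map_sum] at hP'
    have h1 := congrArg (fun q => Polynomial.coeff q k) hP'
    simp only [Polynomial.finsetSum_coeff, Polynomial.coeff_zero] at h1
    rw [Finset.sum_congr rfl fun i _ => by
      rw [hθ i _ (MvPolynomial.homogeneousComponent_isHomogeneous i P),
        Polynomial.coeff_C_mul_X_pow]] at h1
    change θ (MvPolynomial.homogeneousComponent k P) = 0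
    rw [hθ k _ (MvPolynomial.homogeneousComponent_isHomogeneous k P)]
    by_cases hk : k < P.totalDegree + 1
    · rw [Finset.sum_ite_eq, if_pos (Finset.mem_range.2 hk)] at h1
      rw [h1, map_zero, zero_mul]
    · rw [MvPolynomial.homogeneousComponent_eq_zero k P (by omega), map_zero, map_zero, zero_mul]
  obtain ⟨r, Yl, hY1, hinj, hfin⟩ := exists_noether_aux hJ hh
  refine ⟨r, fun l => MvPolynomial.aeval v (Yl l), fun l => inb_lin (hY1 l) v, ?_, ?_⟩
  · intro n P hP h0
    have h1 : proj (RingHom.ker θ.toRingHom) Yl P = 0 := by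
      rw [proj_apply, Ideal.Quotient.eq_zero_iff_mem]
      change θ (MvPolynomial.aeval Yl P) = 0
      have h2 : (MvPolynomial.aeval Yl P).IsHomogeneous n := by
        have := hP.aeval Yl hY1
        simpa using this
      rw [hθ n _ h2]
      have h3 := MvPolynomial.comp_aeval_apply (φ := MvPolynomial.aeval (R := ℂ) v) (f := Yl) P
      rw [h3, h0, map_zero, zero_mul]
    rw [← map_zero (proj (RingHom.ker θ.toRingHom) Yl)] at h1
    exact hinj h1
  · intro R _ _ _ _ t b
    let ev : Polynomial F →ₐ[F] R := Polynomial.aeval t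
    let g0 : Poly N →ₐ[ℂ] R := (ev.restrictScalars ℂ).comp θ
    have hg0 : ∀ b, g0 (MvPolynomial.X b) = algebraMap F R (v b) * t := by
      intro b
      change ev (θ (MvPolynomial.X b)) = _
      rw [MvPolynomial.aeval_X, map_mul, Polynomial.aeval_C, Polynomial.aeval_X]
    have hg0' : ∀ l, g0 (Yl l) = algebraMap F R (MvPolynomial.aeval v (Yl l)) * t := by
      intro l
      change ev (θ (Yl l)) = _
      rw [hθ 1 _ (hY1 l), pow_one, map_mul, Polynomial.aeval_C, Polynomial.aeval_X]
    let g : Poly N ⧸ RingHom.ker θ.toRingHom →ₐ[ℂ] R :=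
      Ideal.Quotient.liftₐ _ g0 fun a ha => by
        have ha' : θ a = 0 := ha
        change ev (θ a) = 0
        rw [ha', map_zero]
    have hI := hfin.to_isIntegral (Ideal.Quotient.mk _ (MvPolynomial.X b))
    have h1 : (g.toRingHom.comp (proj (RingHom.ker θ.toRingHom) Yl).toRingHom).IsIntegralElem
        (algebraMap F R (v b) * t) := by
      have h2 := hI.map g.toRingHom
      have h3 : g.toRingHom (Ideal.Quotient.mk _ (MvPolynomial.X b)) =
          algebraMap F R (v b) * t := hg0 b
      rw [h3] at h2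
      exact h2
    have hmem : ∀ l, algebraMap F R (MvPolynomial.aeval v (Yl l)) * t ∈
        Algebra.adjoin ℂ (Set.range fun l => algebraMap F R (MvPolynomial.aeval v (Yl l)) * t) :=
      fun l => Algebra.subset_adjoin ⟨l, rfl⟩
    let h : MvPolynomial (Fin r) ℂ →ₐ[ℂ] Algebra.adjoin ℂ
        (Set.range fun l => algebraMap F R (MvPolynomial.aeval v (Yl l)) * t) :=
      MvPolynomial.aeval fun l => ⟨_, hmem l⟩
    have h4 : g.toRingHom.comp (proj (RingHom.ker θ.toRingHom) Yl).toRingHom =
        (algebraMap (Algebra.adjoin ℂ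
          (Set.range fun l => algebraMap F R (MvPolynomial.aeval v (Yl l)) * t)) R).comp
          h.toRingHom := by
      have h5 : g.comp (proj (RingHom.ker θ.toRingHom) Yl) = (Subalgebra.val _).comp h := by
        apply MvPolynomial.algHom_ext
        intro l
        rw [AlgHom.comp_apply, AlgHom.comp_apply, MvPolynomial.aeval_X, proj,
          MvPolynomial.aeval_X]
        exact hg0' l
      exact congrArg AlgHom.toRingHom h5
    rw [h4] at h1
    exact h1.of_comp

/-- transitivity -/
private theorem inb_alg {A B : Subalgebra ℂ F} (h : ∀ b ∈ B, IsAlgebraic A b) {x : F}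
    (hx : IsAlgebraic B x) : IsAlgebraic A x := by
  have h2 : B ≤ (Subalgebra.algebraicClosure A F).restrictScalars ℂ := fun b hb => h b hb
  have h3 : IsAlgebraic (Subalgebra.algebraicClosure A F) x := hx.tower_top_of_subalgebra_le h2
  exact IsAlgebraic.restrictScalars A h3

/-- `a T` is not integral over the constants -/
private theorem inb_T {a : F} (ha : a ≠ 0)
    (h : IsIntegral ℂ (Polynomial.C a * Polynomial.X : Polynomial F)) : False := by
  obtain ⟨p, hp, h0⟩ := h
  rw [← Polynomial.aeval_def] at h0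
  have h1 : Polynomial.aeval (Polynomial.C a * Polynomial.X : Polynomial F) p =
      (p.map (algebraMap ℂ F)).comp (Polynomial.C a * Polynomial.X) := by
    rw [Polynomial.comp, Polynomial.eval₂_map, Polynomial.aeval_def]
    rfl
  rw [h1, Polynomial.comp_eq_zero_iff] at h0
  rcases h0 with h0 | h0
  · exact (hp.map (algebraMap ℂ F)).ne_zero h0
  · have h2 := congrArg Polynomial.natDegree h0.2
    rw [Polynomial.natDegree_C_mul ha, Polynomial.natDegree_X, Polynomial.natDegree_C] at h2
    omega

/-- valuation rings are integrally closed -/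
private theorem inb_val {A : Subalgebra ℂ F} {R : ValuationSubring F} (hA : ∀ a ∈ A, a ∈ R) {x : F}
    (hx : IsIntegral A x) : x ∈ R := by
  obtain ⟨p, hp, h0⟩ := hx
  let j : A →+* R := (A.val.toRingHom : A →+* F).codRestrict R fun a => hA _ a.2
  have h1 : IsIntegral R x := by
    refine ⟨p.map j, hp.map j, ?_⟩
    rw [Polynomial.eval₂_map]
    exact h0
  obtain ⟨y, hy⟩ := IsIntegrallyClosed.algebraMap_eq_of_integral h1
  rw [← hy]
  exact y.2

/-- Noether normalization of the graded ring generated by a finite dimensional space of sections.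

PROOF. As in `exists_noe`: `w` a basis of `W`, `J` the homogeneous relations between the `w b`,
`exists_noether_aux` in `Pool/Agent/Lib/MP_ed661f_ag/H/Noether.lean`: linear combinations `y l`,
`l : Fin r`, which are algebraically independent (as homogeneous elements), and all the `w b` are integral
over `ℂ[y]`: so there is no point where all the `y l` vanish. `r = d + 1`, because the quotients of
elements of `W` generate a field of transcendence degree `d` (`hφ`), and `r - 1` is the transcendence
degree of this field. -/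
theorem exists_noe_bf (hY : IsProj Y) (hd : Algebra.trdeg ℂ F = d) {W : Submodule ℂ F}
    (hW : BF Y E W) {φ : Fin d → F} (hi : AlgebraicIndependent ℂ φ)
    (hφ : ∀ l, ∃ w ∈ W, ∃ w' ∈ W, φ l = w / w') :
    ∃ y : Fin (d + 1) → F, (∀ l, y l ≠ 0 ∧ y l ∈ W) ∧ (∀ O ∈ Y, ∃ l, Un O (y l * E O)) ∧
      AlgebraicIndependent ℂ (fun l : Fin d => y l.succ / y 0) := by
  classical
  -- generators of `W`
  obtain ⟨N, v, hv⟩ : ∃ (N : ℕ) (v : Fin (N + 1) → F), Submodule.span ℂ (Set.range v) = W := by
    obtain ⟨N, s, hs⟩ := Submodule.fg_iff_exists_fin_generating_family.1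
      (Module.Finite.iff_fg.1 hW.fin)
    refine ⟨N, Fin.cons 0 s, ?_⟩
    rw [Fin.range_cons, Submodule.span_insert_zero, hs]
  obtain ⟨r, y, hyW, hyh, hyi⟩ := inb_noether v
  rw [hv] at hyW
  have hy0 : ∀ l, y l ≠ 0 := by
    intro l h0
    have h1 := hyh 1 (MvPolynomial.X l) (MvPolynomial.isHomogeneous_X _ _)
      (by rw [MvPolynomial.aeval_X, h0])
    exact MvPolynomial.X_ne_zero l h1
  -- integrality of the elements of `W`
  have hint : ∀ (R : Type) [CommRing R] [Algebra ℂ R] [Algebra F R] [IsScalarTower ℂ F R] (t : R),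
      ∀ w ∈ W, IsIntegral (Algebra.adjoin ℂ (Set.range fun l => algebraMap F R (y l) * t))
        (algebraMap F R w * t) := by
    intro R _ _ _ _ t w hw
    rw [← hv] at hw
    refine Submodule.span_induction (p := fun w _ => IsIntegral
      (Algebra.adjoin ℂ (Set.range fun l => algebraMap F R (y l) * t))
        (algebraMap F R w * t)) ?_ ?_ ?_ ?_ hw
    · rintro _ ⟨b, rfl⟩
      exact hyi R t b
    · rw [map_zero, zero_mul]
      exact isIntegral_zero
    · intro a b _ _ ha hb
      rw [map_add, add_mul]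
      exact ha.add hb
    · intro c a _ ha
      have h1 : algebraMap F R (c • a) = c • algebraMap F R a := by
        rw [Algebra.smul_def, map_mul, ← IsScalarTower.algebraMap_apply, ← Algebra.smul_def]
      rw [h1, smul_mul_assoc]
      exact ha.smul c
  -- there is at least one `y l`
  obtain ⟨O₀, hO₀⟩ := hY.nonempty
  obtain ⟨w₀, hw₀, hu₀⟩ := hW.gen O₀ hO₀
  have hw₀0 : w₀ ≠ 0 := left_ne_zero_of_mul hu₀.1
  have hr : r ≠ 0 := by
    rintro rfl
    have h1 := hint (Polynomial F) Polynomial.X w₀ hw₀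
    rw [Set.range_eq_empty, Algebra.adjoin_empty] at h1
    have h2 : Algebra.IsIntegral ℂ (⊥ : Subalgebra ℂ (Polynomial F)) := by
      refine ⟨fun z => ?_⟩
      obtain ⟨c, hc⟩ := Algebra.mem_bot.1 z.2
      have h3 : z = algebraMap ℂ _ c := Subtype.ext hc.symm
      rw [h3]
      exact isIntegral_algebraMap
    exact inb_T hw₀0 (isIntegral_trans _ h1)
  obtain ⟨s, rfl⟩ := Nat.exists_eq_succ_of_ne_zero hr
  obtain ⟨hz, hz'⟩ := rat_indep (d := s) (y := y) hy0 hyh 0
  simp only [Fin.succAbove_zero] at hz hz'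
  -- the elements `w / y 0` are algebraic
  have halg : ∀ w ∈ W, IsAlgebraic (Algebra.adjoin ℂ (Set.range fun i : Fin s =>
      y i.succ / y 0)) (w / y 0) := by
    intro w hw
    have h1 := hint F (y 0)⁻¹ w hw
    have h2 : (fun l => algebraMap F F (y l) * (y 0)⁻¹) = fun l => y l / y 0 :=
      funext fun l => (div_eq_mul_inv _ _).symm
    rw [h2, Algebra.algebraMap_self, RingHom.id_apply, ← div_eq_mul_inv] at h1
    rw [← hz']
    exact h1.isAlgebraic
  have hφb : IsTranscendenceBasis ℂ φ := hi.isTranscendenceBasis_of_lift_trdeg_le_of_finite (by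
    rw [hd]
    simp)
  have hFalg : Algebra.IsAlgebraic (Algebra.adjoin ℂ (Set.range fun i : Fin s =>
      y i.succ / y 0)) F := by
    refine ⟨fun x => ?_⟩
    refine inb_alg (B := Algebra.adjoin ℂ (Set.range φ)) (fun b hb => ?_)
      (hφb.isAlgebraic.isAlgebraic x)
    refine (Algebra.adjoin_le_iff.2 ?_ : Algebra.adjoin ℂ (Set.range φ) ≤
      (Subalgebra.algebraicClosure (Algebra.adjoin ℂ (Set.range fun i : Fin s =>
        y i.succ / y 0)) F).restrictScalars ℂ) hb
    rintro _ ⟨l, rfl⟩
    obtain ⟨w, hw, w', hw', hl⟩ := hφ l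
    change IsAlgebraic _ (φ l)
    rw [hl, ← div_div_div_cancel_right₀ (hy0 0), div_eq_mul_inv (w / y 0)]
    exact (halg w hw).mul (halg w' hw').inv
  have hzb : IsTranscendenceBasis ℂ (fun i : Fin s => y i.succ / y 0) :=
    isTranscendenceBasis_iff_algebraicIndependent_isAlgebraic.2 ⟨hz, hFalg⟩
  have hsd : s = d := by
    have h1 := hzb.lift_cardinalMk_eq_trdeg
    rw [hd] at h1
    simpa using h1
  subst hsd
  refine ⟨y, fun l => ⟨hy0 l, hyW l⟩, fun O hO => ?_, hz⟩
  -- the sections have no base points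
  obtain ⟨w, hw, hu⟩ := hW.gen O hO
  obtain ⟨R, hR, hR'⟩ := exists_val (hY.isLocalRing hO)
  obtain ⟨l, hl⟩ := Finite.exists_max fun l => R.valuation (y l)
  refine ⟨l, mul_ne_zero (hy0 l) (E O).ne_zero, hW.sec (hyW l) O hO, ?_⟩
  refine hR' _ (hW.sec (hyW l) O hO) ?_
  have hRC : ∀ c : ℂ, algebraMap ℂ F c ∈ R := fun c => hR _ (O.algebraMap_mem c)
  have h1 := hint F (y l)⁻¹ w hw
  have h2 : w * (y l)⁻¹ ∈ R := by
    refine inb_val (fun a ha => ?_) h1
    induction ha using Algebra.adjoin_induction with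
    | mem x hx =>
      obtain ⟨l', rfl⟩ := hx
      change y l' * (y l)⁻¹ ∈ R
      rw [← R.valuation_le_one_iff, map_mul, map_inv₀]
      exact mul_inv_le_one_of_le₀ (hl l') zero_le
    | algebraMap c => exact hRC c
    | add x y _ _ hx hy => exact R.add_mem _ _ hx hy
    | mul x y _ _ hx hy => exact R.mul_mem _ _ hx hy
  have h3 : (y l * (E O : F))⁻¹ = w * (y l)⁻¹ * (w * (E O : F))⁻¹ := by
    have h4 := left_ne_zero_of_mul hu.1
    have h5 := (E O).ne_zero
    have h6 := hy0 l
    field_simp
  rw [h3]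
  exact R.mul_mem _ _ h2 (hR _ hu.2.2)

end Pool.Agent.KM
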