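import Pool.Agent.Lib.MP_732f67_ag.N.Grp
import Pool.Agent.Lib.MP_732f67_ag.N.NumB
import Pool.Agent.Lib.MP_732f67_ag.N.InQ
import Pool.Agent.Lib.MP_732f67_ag.N.InB

/-!
Part N: finite projections to the projective space given by invariant sections.
-/

namespace Pool.Agent.KM

variable {F : Type} [Field F] [Algebra ℂ F] {Y : Set (Subalgebra ℂ F)}
  {G : Subgroup (F ≃ₐ[ℂ] F)} {H E : Subalgebra ℂ F → Fˣ} {d : ℕ}
  {Δ : Fin d → Derivation ℂ F F}

/-- the field of invariants contains a transcendence basis -/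
private theorem ine_basis (hG : Finite G) (hd : Algebra.trdeg ℂ F = d) :
    ∃ φ : Fin d → F, AlgebraicIndependent ℂ φ ∧ ∀ l, ∀ γ ∈ G, γ (φ l) = φ l := by
  have halg : Algebra.IsAlgebraic (IntermediateField.fixedField G) F := by
    constructor
    intro x
    have h1 : IsIntegral (FixedPoints.subfield G F) x := FixedPoints.isIntegral G F x
    have h2 : IsAlgebraic (FixedPoints.subfield G F) x := h1.isAlgebraic
    exact h2
  have h1 := trdeg_add_eq ℂ (IntermediateField.fixedField G) (A := F)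
  rw [trdeg_eq_zero (R := IntermediateField.fixedField G) (A := F), add_zero, hd] at h1
  obtain ⟨s, hs⟩ := exists_isTranscendenceBasis ℂ (IntermediateField.fixedField G)
  have h2 := hs.cardinalMk_eq_trdeg
  rw [h1] at h2
  obtain ⟨e⟩ : Nonempty (s ≃ Fin d) := by
    rw [← Cardinal.eq, h2, Cardinal.mk_fin]
  refine ⟨fun l => ((e.symm l : s) : IntermediateField.fixedField G), ?_, ?_⟩
  · have h3 := hs.1.comp (e.symm : Fin d → s) e.symm.injective
    exact h3.map' (f := (IntermediateField.fixedField G).val) Subtype.val_injective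
  · intro l γ hγ
    exact (IntermediateField.mem_fixedField_iff G _).1
      ((e.symm l : s) : IntermediateField.fixedField G).2 γ hγ

private theorem ine_one : GC Y G (1 : Subalgebra ℂ F → Fˣ) := by
  refine ⟨pol_car_one Y, fun O _ => ⟨1, one_ne_zero, fun γ _ => map_one γ, fun γ _ => ?_⟩⟩
  simp only [Pi.one_apply, Units.val_one, div_one]
  exact ⟨one_ne_zero, Subalgebra.one_mem _, by
    rw [inv_one]
    exact Subalgebra.one_mem _⟩

/-- Invariant sections which define a finite morphism to the projective space.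

PROOF. `φ l`, `l < d`: a transcendence basis of the field of invariants of `G` (`F` is algebraic over it).
`exists_inv_quot`: `φ l = s l / s' l`, sections of `H ^ N l`. `inv_sec_fin`: finitely many invariant sections
of `H ^ x` without common zeros. Multiply the exponents: `n = N 0 * ... * x`; `W` = the span of
the powers of these sections, of `(s' l) ^ k` and `s l * (s' l) ^ (k - 1)`. `exists_noe_bf`. -/
theorem exists_inv_noe (hY : Base d Y G Δ) (hH : GC Y G H) (hA : Amp Y H) :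
    ∃ n : ℕ, 1 ≤ n ∧ ∃ y : Fin (d + 1) → F,
      (∀ l, y l ≠ 0 ∧ y l ∈ Sec Y (H ^ n) ∧ ∀ γ ∈ G, γ (y l) = y l) ∧
      (∀ O ∈ Y, ∃ l, Un O (y l * (H ^ n) O)) ∧
      AlgebraicIndependent ℂ (fun l : Fin d => y l.succ / y 0) := by
  classical
  obtain ⟨φ, hφi, hφG⟩ := ine_basis hY.fin hY.dim
  have h1 : ∀ l, ∃ (N : ℕ) (s s' : F), 1 ≤ N ∧ s' ≠ 0 ∧ s ∈ Sec Y (H ^ N) ∧
      s' ∈ Sec Y (H ^ N) ∧ (∀ γ ∈ G, γ s = s) ∧ (∀ γ ∈ G, γ s' = s') ∧ φ l = s / s' :=
    fun l => exists_inv_quot hY hH hA (hφG l)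
  choose N s s' hN hs0 hs hs' hsG hsG' hφ using h1
  obtain ⟨x₀, hx₀⟩ := inv_sec_fin hY hH hA (ine_one (Y := Y) (G := G))
  obtain ⟨R, t, ht, htg⟩ := hx₀ (max x₀ 1) (le_max_left _ _)
  set x := max x₀ 1 with hx
  have hx1 : 1 ≤ x := le_max_right _ _
  rw [mul_one] at ht htg
  set n := (∏ l, N l) * x with hn
  have hNpos : 0 < ∏ l, N l := Finset.prod_pos fun l _ => hN l
  have hn1 : 1 ≤ n := Nat.mul_pos hNpos hx1
  have hdvd : ∀ l, ∃ k, n = N l * (k + 1) := by
    intro l
    obtain ⟨k, hk⟩ : N l ∣ n := (Finset.dvd_prod_of_mem N (Finset.mem_univ l)).mul_right x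
    rcases k with _ | k
    · rw [mul_zero] at hk
      omega
    · exact ⟨k, hk⟩
  choose k hk using hdvd
  -- the space
  let I : Submodule ℂ F :=
    { carrier := {f | ∀ γ ∈ G, γ f = f}
      add_mem' := by
        intro a b ha hb γ hγ
        rw [map_add, ha γ hγ, hb γ hγ]
      zero_mem' := fun γ _ => map_zero γ
      smul_mem' := by
        intro c a ha γ hγ
        rw [map_smul, ha γ hγ] }
  let S : Set F := Set.range (fun l => s l * s' l ^ k l) ∪ Set.range (fun l => s' l ^ (k l + 1)) ∪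
    Set.range (fun j => t j ^ (∏ l, N l))
  have hSsec : S ⊆ (Sec Y (H ^ n) : Set F) := by
    rintro _ ((⟨l, rfl⟩ | ⟨l, rfl⟩) | ⟨j, rfl⟩)
    · have h2 := sec_mul (hs l) (sec_pow (hs' l) (k l))
      have h3 : H ^ N l * (H ^ N l) ^ k l = H ^ n := by
        rw [← pow_succ', ← pow_mul, ← hk l]
      rw [h3] at h2
      exact h2
    · have h2 := sec_pow (hs' l) (k l + 1)
      rw [← pow_mul, ← hk l] at h2
      exact h2
    · have h2 := sec_pow (ht j).1 (∏ l, N l)
      rw [← pow_mul, mul_comm x] at h2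
      exact h2
  have hSI : S ⊆ (I : Set F) := by
    rintro _ ((⟨l, rfl⟩ | ⟨l, rfl⟩) | ⟨j, rfl⟩) γ hγ
    · dsimp only
      rw [map_mul, map_pow, hsG l γ hγ, hsG' l γ hγ]
    · dsimp only
      rw [map_pow, hsG' l γ hγ]
    · dsimp only
      rw [map_pow, (ht j).2.2 γ hγ]
  have hSf : S.Finite := ((Set.finite_range _).union (Set.finite_range _)).union
    (Set.finite_range _)
  have hW : BF Y (H ^ n) (Submodule.span ℂ S) := by
    refine ⟨FiniteDimensional.span_of_finite ℂ hSf, Submodule.span_le.2 hSsec, fun O hO => ?_⟩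
    obtain ⟨j, hj⟩ := htg O hO
    refine ⟨t j ^ (∏ l, N l), Submodule.subset_span (Or.inr ⟨j, rfl⟩), ?_⟩
    have h2 : t j ^ (∏ l, N l) * ((H ^ n) O : Fˣ) = (t j * ((H ^ x) O : Fˣ)) ^ (∏ l, N l) := by
      rw [mul_pow, hn]
      simp only [Pi.pow_apply, Units.val_pow_eq_pow_val, ← pow_mul]
      rw [mul_comm x]
    rw [h2]
    exact hj.pow _
  obtain ⟨y, hy, hyg, hyi⟩ := exists_noe_bf (E := H ^ n) hY.proj hY.dim hW hφi (by
    intro l
    refine ⟨s l * s' l ^ k l, Submodule.subset_span (Or.inl (Or.inl ⟨l, rfl⟩)), s' l ^ (k l + 1),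
      Submodule.subset_span (Or.inl (Or.inr ⟨l, rfl⟩)), ?_⟩
    rw [hφ l, pow_succ', mul_div_mul_right _ _ (pow_ne_zero _ (hs0 l))])
  exact ⟨n, hn1, y, fun l => ⟨(hy l).1, Submodule.span_le.2 hSsec (hy l).2,
    (Submodule.span_le.2 hSI (hy l).2 : y l ∈ I)⟩, hyg, hyi⟩

end Pool.Agent.KM
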