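import Pool.Agent.Lib.MP_732f67_ag.KC.DI

/-!
Part N: short exact sequences of systems of lattices, and the vanishing of Cech cohomology.
-/

namespace Pool.Agent.KM

open Pool.Agent.Lib.MP_732f67_ag.KC (cd KVan)

variable {Λ : Type*} [LinearOrder Λ] {E E' E'' : Type*} [AddCommGroup E] [AddCommGroup E']
  [AddCommGroup E'']

/-- a short exact sequence of lattices, for the non-empty sets of indices -/
structure Exs (K : Finset Λ → AddSubgroup E) (K' : Finset Λ → AddSubgroup E')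
    (K'' : Finset Λ → AddSubgroup E'') (φ : E →+ E') (ψ : E' →+ E'') : Prop where
  mono : ∀ J J' : Finset Λ, J.Nonempty → J ⊆ J' → K' J ≤ K' J'
  map : ∀ J : Finset Λ, J.Nonempty → ∀ x ∈ K J, φ x ∈ K' J
  map' : ∀ J : Finset Λ, J.Nonempty → ∀ x ∈ K' J, ψ x ∈ K'' J
  inj : Function.Injective φ
  ex : ∀ J : Finset Λ, J.Nonempty → ∀ x ∈ K' J, ψ x = 0 → ∃ y ∈ K J, φ y = x
  sur : ∀ J : Finset Λ, J.Nonempty → ∀ x ∈ K'' J, ∃ y ∈ K' J, ψ y = x
  zero : ∀ J : Finset Λ, J.Nonempty → ∀ x ∈ K J, ψ (φ x) = 0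

variable {K : Finset Λ → AddSubgroup E} {K' : Finset Λ → AddSubgroup E'}
  {K'' : Finset Λ → AddSubgroup E''} {φ : E →+ E'} {ψ : E' →+ E''}

private theorem kae_cd_mem (h : Exs K K' K'' φ ψ) {y : Finset Λ → E'} {b : ℕ}
    (hy : ∀ J : Finset Λ, J.card = b + 1 → y J ∈ K' J) (J : Finset Λ) (hJ : J.card = b + 2) :
    cd y J ∈ K' J := by
  unfold Pool.Agent.Lib.MP_732f67_ag.KC.cd
  refine AddSubgroup.sum_mem _ fun a ha => AddSubgroup.zsmul_mem _ ?_ _
  have h1 : (J.erase a).card = b + 1 := by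
    rw [Finset.card_erase_of_mem ha, hJ]
    omega
  exact h.mono _ _ (Finset.card_pos.1 (by omega)) (Finset.erase_subset a J) (hy _ h1)

private theorem kae_ne {J : Finset Λ} {b : ℕ} (hJ : J.card = b + 1) : J.Nonempty :=
  Finset.card_pos.1 (by omega)

/-- a cocycle of `K''` lifts to a cocycle of `K'` -/
private theorem kae_lift (h : Exs K K' K'' φ ψ) (hK : KVan K) {b : ℕ} {z : Finset Λ → E''}
    (hz : ∀ J, J.card = b + 1 → z J ∈ K'' J) (hc : ∀ J, J.card = b + 2 → cd z J = 0) :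
    ∃ y : Finset Λ → E', (∀ J, J.card = b + 1 → y J ∈ K' J ∧ ψ (y J) = z J) ∧
      ∀ J, J.card = b + 2 → cd y J = 0 := by
  have h1 : ∀ J : Finset Λ, ∃ y : E', J.card = b + 1 → y ∈ K' J ∧ ψ y = z J := by
    intro J
    by_cases hJ : J.card = b + 1
    · obtain ⟨y, hy, hy'⟩ := h.sur J (kae_ne hJ) (z J) (hz J hJ)
      exact ⟨y, fun _ => ⟨hy, hy'⟩⟩
    · exact ⟨0, fun h2 => (hJ h2).elim⟩
  choose y hy using h1
  have h2 : ∀ J : Finset Λ, J.card = b + 2 → ψ (cd y J) = 0 := by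
    intro J hJ
    rw [← Pool.Agent.Lib.MP_732f67_ag.KC.cd_map, ← hc J hJ]
    exact Pool.Agent.Lib.MP_732f67_ag.KC.cd_congr fun L hL => (hy L (by omega)).2
  have h3 : ∀ J : Finset Λ, ∃ u : E, J.card = b + 2 → u ∈ K J ∧ φ u = cd y J := by
    intro J
    by_cases hJ : J.card = b + 2
    · obtain ⟨u, hu, hu'⟩ := h.ex J (kae_ne hJ) (cd y J)
        (kae_cd_mem h (fun L hL => (hy L hL).1) J hJ) (h2 J hJ)
      exact ⟨u, fun _ => ⟨hu, hu'⟩⟩
    · exact ⟨0, fun h2 => (hJ h2).elim⟩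
  choose u hu using h3
  have h4 : ∀ J : Finset Λ, J.card = b + 1 + 2 → cd u J = 0 := by
    intro J hJ
    apply h.inj
    rw [← Pool.Agent.Lib.MP_732f67_ag.KC.cd_map, map_zero,
      ← Pool.Agent.Lib.MP_732f67_ag.KC.cd_cd y J]
    exact Pool.Agent.Lib.MP_732f67_ag.KC.cd_congr fun L hL => (hu L (by omega)).2
  obtain ⟨w, hw, hw'⟩ := hK (b + 1) (by omega) u (fun J hJ => (hu J hJ).1) h4
  refine ⟨fun J => y J + -φ (w J), fun J hJ => ⟨?_, ?_⟩, fun J hJ => ?_⟩
  · exact (K' J).add_mem (hy J hJ).1 ((K' J).neg_mem (h.map J (kae_ne hJ) _ (hw J hJ)))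
  · rw [map_add, map_neg, h.zero J (kae_ne hJ) _ (hw J hJ), neg_zero, add_zero]
    exact (hy J hJ).2
  · have h5 : cd (fun J => -φ (w J)) J = -φ (cd w J) :=
      Pool.Agent.Lib.MP_732f67_ag.KC.cd_map (-φ) w J
    rw [Pool.Agent.Lib.MP_732f67_ag.KC.cd_add, h5, hw' J hJ, (hu J hJ).2, add_neg_cancel]

/-- PROOF. `z` a cocycle of `K''` of degree `b`. `z J = ψ (y J)`, `y J ∈ K' J`; `cd y J ∈ K' J` and
`ψ (cd y J) = 0`, so `cd y J = φ (u J)`, `card J = b + 2`, and `cd u = 0` (`cd_cd`, `inj`); `u = cd w`;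
`y - φ w` is a cocycle of `K'`, so it is `cd v`; `z = cd (ψ v)`. (Set all cochains to be `0` on the
sets of the wrong cardinality.) -/
theorem Exs.kvan (h : Exs K K' K'' φ ψ) (hK : KVan K) (hK' : KVan K') : KVan K'' := by
  intro b hb z hz hc
  obtain ⟨y, hy, hy'⟩ := kae_lift h hK hz hc
  obtain ⟨v, hv, hv'⟩ := hK' b hb y (fun J hJ => (hy J hJ).1) hy'
  refine ⟨fun J => ψ (v J), fun J hJ => ?_, fun J hJ => ?_⟩
  · exact h.map' J (Finset.card_pos.1 (by omega)) _ (hv J hJ)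
  · rw [Pool.Agent.Lib.MP_732f67_ag.KC.cd_map, hv' J hJ]
    exact (hy J hJ).2

/-- PROOF. The same in degree `0`: `x = ψ (y a)`, `y b - y a = φ (u {a, b})`, `u = cd w`; the element
`y a - φ (w {a})` does not depend on `a`. -/
theorem Exs.glo [Nonempty Λ] (h : Exs K K' K'' φ ψ) (hK : KVan K) {x : E''}
    (hx : ∀ a, x ∈ K'' {a}) : ∃ y : E', (∀ a, y ∈ K' {a}) ∧ ψ y = x := by
  have h0 : ∀ a : Λ, Pool.Agent.Lib.MP_0b721b_ag.sgn a {a} = 1 := by
    intro a
    unfold Pool.Agent.Lib.MP_0b721b_ag.sgn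
    rw [Finset.filter_eq_empty_iff.2, Finset.card_empty, pow_zero]
    intro x hx
    rw [Finset.mem_singleton.1 hx]
    exact lt_irrefl a
  have h1 : ∀ J : Finset Λ, J.card = 0 + 1 → cd (fun _ => x) J = x := by
    intro J hJ
    obtain ⟨a, rfl⟩ := Finset.card_eq_one.1 (by omega : J.card = 1)
    unfold Pool.Agent.Lib.MP_732f67_ag.KC.cd
    rw [Finset.sum_singleton, h0, one_smul]
  obtain ⟨y, hy, hy'⟩ := kae_lift h hK (b := 0) (z := fun _ => x) (fun J hJ => by
    obtain ⟨a, rfl⟩ := Finset.card_eq_one.1 (by omega : J.card = 1)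
    exact hx a) (fun J hJ => by
    rw [← Pool.Agent.Lib.MP_732f67_ag.KC.cd_cd (fun _ => x) J]
    exact Pool.Agent.Lib.MP_732f67_ag.KC.cd_congr fun L hL => (h1 L (by omega)).symm)
  have h2 : ∀ a b : Λ, a < b → y {a} = y {b} := by
    intro a b hab
    have h3 := hy' {a, b} (by rw [Finset.card_pair hab.ne])
    unfold Pool.Agent.Lib.MP_732f67_ag.KC.cd at h3
    have ha : Pool.Agent.Lib.MP_0b721b_ag.sgn a {a, b} = 1 := by
      unfold Pool.Agent.Lib.MP_0b721b_ag.sgn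
      rw [Finset.filter_eq_empty_iff.2, Finset.card_empty, pow_zero]
      intro x hx
      rcases Finset.mem_insert.1 hx with rfl | hx
      · exact lt_irrefl x
      · rw [Finset.mem_singleton.1 hx]
        exact not_lt.2 hab.le
    have hb : Pool.Agent.Lib.MP_0b721b_ag.sgn b {a, b} = -1 := by
      unfold Pool.Agent.Lib.MP_0b721b_ag.sgn
      have h4 : ({a, b} : Finset Λ).filter (· < b) = {a} := by
        ext x
        simp only [Finset.mem_filter, Finset.mem_insert, Finset.mem_singleton]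
        constructor
        · rintro ⟨rfl | rfl, h5⟩
          · rfl
          · exact (lt_irrefl _ h5).elim
        · rintro rfl
          exact ⟨Or.inl rfl, hab⟩
      rw [h4, Finset.card_singleton, pow_one]
    have hea : ({a, b} : Finset Λ).erase a = {b} :=
      Finset.erase_insert (by simp [hab.ne])
    have heb : ({a, b} : Finset Λ).erase b = {a} := by
      rw [Finset.pair_comm]
      exact Finset.erase_insert (by simp [hab.ne'])
    rw [Finset.sum_pair hab.ne, ha, hb, hea, heb, one_smul, neg_smul, one_smul] at h3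
    exact (add_neg_eq_zero.1 h3).symm
  obtain ⟨a⟩ := ‹Nonempty Λ›
  refine ⟨y {a}, fun b => ?_, (hy {a} (Finset.card_singleton a)).2⟩
  have h3 : y {a} = y {b} := by
    rcases lt_trichotomy a b with h4 | rfl | h4
    · exact h2 a b h4
    · rfl
    · exact (h2 b a h4).symm
  rw [h3]
  exact (hy {b} (Finset.card_singleton b)).1

end Pool.Agent.KM
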