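import Pool.Agent.Lib.MP_732f67_ag.KC.DI
import Pool.Agent.Lib.MP_732f67_ag.N.KaE

/-!
Part N: short exact sequences of systems of lattices, and the vanishing of Cech cohomology.
-/

namespace Pool.Agent.KM

open Pool.Agent.Lib.MP_732f67_ag.KC (cd KVan)

variable {Λ : Type*} [LinearOrder Λ] {E E' E'' : Type*} [AddCommGroup E] [AddCommGroup E']
  [AddCommGroup E'']

variable {K : Finset Λ → AddSubgroup E} {K' : Finset Λ → AddSubgroup E'}
  {K'' : Finset Λ → AddSubgroup E''} {φ : E →+ E'} {ψ : E' →+ E''}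

private theorem kap_cd_zero {J : Finset Λ} {z : Finset Λ → E}
    (hz : ∀ L : Finset Λ, L.card + 1 = J.card → z L = 0) : cd z J = 0 := by
  rw [Pool.Agent.Lib.MP_732f67_ag.KC.cd_congr (z' := fun _ => (0 : E)) hz]
  unfold Pool.Agent.Lib.MP_732f67_ag.KC.cd
  exact Finset.sum_eq_zero fun a _ => smul_zero _

/-- the trivial lattice -/
theorem kvan_bot : KVan (fun _ : Finset Λ => (⊥ : AddSubgroup E)) := by
  intro b _ z hz _
  refine ⟨fun _ => 0, fun J _ => AddSubgroup.mem_bot.2 rfl, fun J hJ => ?_⟩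
  rw [kap_cd_zero fun _ _ => rfl, AddSubgroup.mem_bot.1 (hz J hJ)]

/-- functions on a finite set with values in the lattices -/
theorem kvan_pi {S : Type*} (hK : KVan K) (K₁ : Finset Λ → AddSubgroup (S → E)) (T : Set S)
    (h : ∀ J x, x ∈ K₁ J ↔ ∀ s, (s ∉ T → x s = 0) ∧ (s ∈ T → x s ∈ K J)) : KVan K₁ := by
  intro b hb z hz hc
  have hev : ∀ (y : Finset Λ → S → E) (s : S) (J : Finset Λ),
      cd (fun L => y L s) J = cd y J s := fun y s J =>
    Pool.Agent.Lib.MP_732f67_ag.KC.cd_map (Pi.evalAddMonoidHom (fun _ : S => E) s) y J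
  have h1 : ∀ s : S, ∃ w : Finset Λ → E, (∀ J, J.card = b → (s ∉ T → w J = 0) ∧
      (s ∈ T → w J ∈ K J)) ∧ ∀ J, J.card = b + 1 → cd w J = z J s := by
    intro s
    by_cases hs : s ∈ T
    · obtain ⟨w, hw, hw'⟩ := hK b hb (fun J => z J s)
        (fun J hJ => ((h J (z J)).1 (hz J hJ) s).2 hs) (fun J hJ => by
          rw [hev, hc J hJ]
          rfl)
      exact ⟨w, fun J hJ => ⟨fun h2 => (h2 hs).elim, fun _ => hw J hJ⟩, hw'⟩
    · refine ⟨fun _ => 0, fun J _ => ⟨fun _ => rfl, fun h2 => (hs h2).elim⟩, fun J hJ => ?_⟩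
      rw [kap_cd_zero fun _ _ => rfl, ((h J (z J)).1 (hz J hJ) s).1 hs]
  choose w hw hw' using h1
  refine ⟨fun J s => w s J, fun J hJ => (h J _).2 fun s => hw s J hJ, fun J hJ => ?_⟩
  funext s
  rw [← hev, ← hw' s J hJ]

end Pool.Agent.KM
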