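import Pool.Agent.Lib.MP_732f67_ag.N.KosA
import Pool.Agent.Lib.MP_732f67_ag.N.AmpB

/-!
Part N: the Koszul complex of sections without common zeros, as a complex of lattices. A cochain `x`
of degree `j` is a function on the sets `S` of `j` indices, `x S * ∏ l ∈ S, y l` is a
section of `E * H₁ ^ j`. The differential is `cd`.
-/

namespace Pool.Agent.KM

open Pool.Agent.Lib.MP_732f67_ag.KC (cd KVan)
open Pool.Agent.Lib.MP_0b721b_ag (sgn sgn_mul sgn_sq)

variable {R : ℕ}

/-- PROOF. `u S = sgn l₀ (insert l₀ S) • x (insert l₀ S)` for `l₀ ∉ S`, and `0` otherwise. If `l₀ ∈ S` then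
only the term of `l₀` is there in `cd u S`; if not, use `cd x (insert l₀ S) = 0` and `sgn_mul`. -/
theorem cd_cone {E : Type*} [AddCommGroup E] (l₀ : Fin R) {x : Finset (Fin R) → E}
    (hx : ∀ S, cd x S = 0) :
    ∃ u : Finset (Fin R) → E, (∀ S, cd u S = x S) ∧ (∀ S, l₀ ∈ S → u S = 0) ∧
      ∀ S, l₀ ∉ S → (u S = x (insert l₀ S) ∨ u S = -x (insert l₀ S)) := by
  classical
  let u : Finset (Fin R) → E := fun S =>
    if l₀ ∈ S then 0 else sgn l₀ (insert l₀ S) • x (insert l₀ S)
  have hu1 : ∀ S, l₀ ∈ S → u S = 0 := fun S h => if_pos h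
  have hu2 : ∀ S, l₀ ∉ S → u S = sgn l₀ (insert l₀ S) • x (insert l₀ S) := fun S h => if_neg h
  have hs : ∀ (a : Fin R) (J : Finset (Fin R)), sgn a J = 1 ∨ sgn a J = -1 := by
    intro a J
    have h := sgn_sq a J
    rcases mul_self_eq_one_iff.1 h with h | h
    · exact Or.inl h
    · exact Or.inr h
  refine ⟨u, ?_, hu1, ?_⟩
  · intro S
    by_cases hS : l₀ ∈ S
    · unfold cd
      rw [Finset.sum_eq_single l₀]
      · rw [hu2 _ (Finset.notMem_erase l₀ S), Finset.insert_erase hS, smul_smul, sgn_sq, one_smul]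
      · intro a _ ha
        rw [hu1 _ (Finset.mem_erase.2 ⟨ha.symm, hS⟩), smul_zero]
      · intro h
        exact absurd hS h
    · have h1 := hx (insert l₀ S)
      unfold cd at h1
      rw [Finset.sum_insert hS, Finset.erase_insert hS] at h1
      have h2 : sgn l₀ (insert l₀ S) • (sgn l₀ (insert l₀ S) • x S
          + ∑ a ∈ S, sgn a (insert l₀ S) • x ((insert l₀ S).erase a)) = 0 := by
        rw [h1, smul_zero]
      rw [smul_add, smul_smul, sgn_sq, one_smul, Finset.smul_sum] at h2
      rw [eq_neg_of_add_eq_zero_left h2, ← Finset.sum_neg_distrib]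
      unfold cd
      refine Finset.sum_congr rfl fun a ha => ?_
      have hne : a ≠ l₀ := fun h => hS (h ▸ ha)
      have e1 : (insert l₀ S).erase a = insert l₀ (S.erase a) :=
        Finset.erase_insert_of_ne hne.symm
      have hnot : l₀ ∉ S.erase a := fun h => hS (Finset.mem_of_mem_erase h)
      rw [hu2 _ hnot, ← e1, smul_smul, smul_smul, ← neg_smul]
      congr 1
      have h3 := sgn_mul (Finset.mem_insert_of_mem ha) (Finset.mem_insert_self l₀ S) hne
      rw [Finset.erase_insert hS] at h3
      have hA := sgn_sq a (insert l₀ S)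
      have hD := sgn_sq a S
      generalize sgn a (insert l₀ S) = A at h3 hA ⊢
      generalize sgn l₀ ((insert l₀ S).erase a) = B at h3 ⊢
      generalize sgn l₀ (insert l₀ S) = C at h3 ⊢
      generalize sgn a S = D at h3 hD ⊢
      calc D * B = (A * A) * (D * B) := by rw [hA, one_mul]
        _ = (A * B) * (A * D) := by ring
        _ = -(C * D) * (A * D) := by rw [h3]
        _ = -(C * A) * (D * D) := by ring
        _ = -(C * A) := by rw [hD, mul_one]
  · intro S hS
    rw [hu2 S hS]
    rcases hs l₀ (insert l₀ S) with h | h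
    · left; rw [h, one_smul]
    · right; rw [h, neg_smul, one_smul]

/-- the differential as an additive map -/
def cdh (E : Type*) [AddCommGroup E] (R : ℕ) :
    (Finset (Fin R) → E) →+ (Finset (Fin R) → E) where
  toFun x S := cd x S
  map_zero' := by
    funext S
    simp [cd]
  map_add' x y := by
    funext S
    exact Pool.Agent.Lib.MP_732f67_ag.KC.cd_add x y S

variable {F : Type} [Field F] [Algebra ℂ F] {Y : Set (Subalgebra ℂ F)}

variable {H E H₁ : Subalgebra ℂ F → Fˣ} {n : ℕ} {w : Fin n → F} {y : Fin R → F}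

end Pool.Agent.KM
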