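import Pool.Agent.Lib.MP_732f67_ag.N.KosA
import Pool.Agent.Lib.MP_732f67_ag.N.AmpB
import Pool.Agent.Lib.MP_732f67_ag.N.KbC

/-!
Part N: the Koszul complex of sections without common zeros, as a complex of lattices. A cochain `x`
of degree `j` is a function on the sets `S` of `j` indices, `x S * ∏ l ∈ S, y l` is a
section of `E * H₁ ^ j`. The differential is `cd`.
-/

namespace Pool.Agent.KM

open Pool.Agent.Lib.MP_732f67_ag.KC (cd KVan)

variable {R : ℕ}

variable {F : Type} [Field F] [Algebra ℂ F] {Y : Set (Subalgebra ℂ F)}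

theorem latC_mono {H E : Subalgebra ℂ F → Fˣ} {n : ℕ} {w : Fin n → F} {I I' : Finset (Fin n)}
    (h : I ⊆ I') : latC Y H w E I ≤ latC Y H w E I' :=
  fun _ hf O hO hc => hf O hO fun c hcI => hc c (h hcI)

/-- `f` is a section of `E` on each of the charts, which cover `Y` -/
theorem latC_glo {H E : Subalgebra ℂ F → Fˣ} {n : ℕ} {w : Fin n → F}
    (hw : ∀ O ∈ Y, ∃ c, Un O (w c * H O)) {f : F} (hf : ∀ c, f ∈ latC Y H w E {c}) :
    f ∈ Sec Y E := by
  intro O hO
  obtain ⟨c, hc⟩ := hw O hO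
  refine hf c O hO fun c' hc' => ?_
  rw [Finset.mem_singleton.1 hc']
  exact hc

/-- the cochains of degree `j` -/
def kz (Y : Set (Subalgebra ℂ F)) (H : Subalgebra ℂ F → Fˣ) {n : ℕ} (w : Fin n → F)
    (y : Fin R → F) (E H₁ : Subalgebra ℂ F → Fˣ) (j : ℕ) (I : Finset (Fin n)) :
    AddSubgroup (Finset (Fin R) → F) where
  carrier := {x | ∀ S, (S.card ≠ j → x S = 0) ∧
    (S.card = j → x S * ∏ l ∈ S, y l ∈ latC Y H w (E * H₁ ^ j) I)}
  zero_mem' S := by
    refine ⟨fun _ => rfl, fun _ => ?_⟩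
    rw [Pi.zero_apply, zero_mul]
    exact AddSubgroup.zero_mem _
  add_mem' hx hx' S := by
    refine ⟨fun h => ?_, fun h => ?_⟩
    · rw [Pi.add_apply, (hx S).1 h, (hx' S).1 h, add_zero]
    · rw [Pi.add_apply, add_mul]
      exact AddSubgroup.add_mem _ ((hx S).2 h) ((hx' S).2 h)
  neg_mem' hx S := by
    refine ⟨fun h => ?_, fun h => ?_⟩
    · rw [Pi.neg_apply, (hx S).1 h, neg_zero]
    · rw [Pi.neg_apply, neg_mul]
      exact AddSubgroup.neg_mem _ ((hx S).2 h)

/-- the cocycles -/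
def kzZ (Y : Set (Subalgebra ℂ F)) (H : Subalgebra ℂ F → Fˣ) {n : ℕ} (w : Fin n → F)
    (y : Fin R → F) (E H₁ : Subalgebra ℂ F → Fˣ) (j : ℕ) (I : Finset (Fin n)) :
    AddSubgroup (Finset (Fin R) → F) :=
  kz Y H w y E H₁ j I ⊓ (cdh F R).ker

variable {H E H₁ : Subalgebra ℂ F → Fˣ} {n : ℕ} {w : Fin n → F} {y : Fin R → F}

/-- `kvan_pi`, multiplication by `∏ l ∈ S, y l` -/
theorem kz_kvan (hy0 : ∀ l, y l ≠ 0) {j : ℕ} (hv : KVan (latC Y H w (E * H₁ ^ j))) :
    KVan (kz Y H w y E H₁ j) := by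
  have hP : ∀ S : Finset (Fin R), ∏ l ∈ S, y l ≠ 0 :=
    fun S => Finset.prod_ne_zero_iff.2 fun l _ => hy0 l
  let m : (Finset (Fin R) → F) →+ (Finset (Fin R) → F) :=
    { toFun := fun x S => x S * ∏ l ∈ S, y l
      map_zero' := funext fun S => zero_mul _
      map_add' := fun x x' => funext fun S => add_mul _ _ _ }
  let m' : (Finset (Fin R) → F) →+ (Finset (Fin R) → F) :=
    { toFun := fun x S => x S / ∏ l ∈ S, y l
      map_zero' := funext fun S => zero_div _
      map_add' := fun x x' => funext fun S => add_div _ _ _ }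
  have hm : ∀ x, m' (m x) = x := fun x => funext fun S => mul_div_cancel_right₀ _ (hP S)
  have h1 : KVan fun I => (kz Y H w y E H₁ j I).comap m' := by
    refine kvan_pi hv _ {S | S.card = j} fun I x => ?_
    refine forall_congr' fun S => and_congr (imp_congr Iff.rfl ?_) (imp_congr Iff.rfl ?_)
    · exact div_eq_zero_iff.trans (or_iff_left (hP S))
    · change x S / (∏ l ∈ S, y l) * (∏ l ∈ S, y l) ∈ _ ↔ _
      rw [div_mul_cancel₀ _ (hP S)]
  intro b hb z hz hz'
  obtain ⟨u, hu, hu'⟩ := h1 b hb (fun J => m (z J)) (fun J hJ => by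
    rw [AddSubgroup.mem_comap, hm]
    exact hz J hJ) fun J hJ => by
    rw [Pool.Agent.Lib.MP_732f67_ag.KC.cd_map m z, hz' J hJ, map_zero]
  refine ⟨fun J => m' (u J), hu, fun J hJ => ?_⟩
  rw [Pool.Agent.Lib.MP_732f67_ag.KC.cd_map m' u, hu' J hJ, hm]

theorem kz_cd (hy : ∀ l, y l ∈ Sec Y H₁ ∧ y l ≠ 0) {j : ℕ} {I : Finset (Fin n)}
    {x : Finset (Fin R) → F} (hx : x ∈ kz Y H w y E H₁ j I) :
    cdh F R x ∈ kzZ Y H w y E H₁ (j + 1) I := by
  refine ⟨fun S => ⟨fun hS => ?_, fun hS => ?_⟩, ?_⟩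
  · refine Finset.sum_eq_zero fun a ha => ?_
    rw [(hx (S.erase a)).1 fun h => hS (by rw [← Finset.card_erase_add_one ha, h]), smul_zero]
  · change (∑ a ∈ S, _) * _ ∈ _
    rw [Finset.sum_mul]
    refine AddSubgroup.sum_mem _ fun a ha => ?_
    rw [smul_mul_assoc]
    refine AddSubgroup.zsmul_mem _ ?_ _
    have hc : (S.erase a).card = j := by
      have := Finset.card_erase_add_one ha
      omega
    intro O hO hO'
    have h1 := (hx (S.erase a)).2 hc O hO hO'
    have h2 := (hy a).1 O hO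
    have h3 := O.mul_mem h1 h2
    rw [← Finset.mul_prod_erase S y ha]
    convert h3 using 1
    simp only [Pi.mul_apply, Pi.pow_apply, Units.val_mul, Units.val_pow_eq_pow_val]
    ring
  · exact funext fun S => Pool.Agent.Lib.MP_732f67_ag.KC.cd_cd x S

end Pool.Agent.KM
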