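import Pool.Agent.Lib.MP_732f67_ag.N.KosA
import Pool.Agent.Lib.MP_732f67_ag.N.AmpB
import Pool.Agent.Lib.MP_732f67_ag.N.KbC
import Pool.Agent.Lib.MP_732f67_ag.N.KbK

/-!
Part N: the Koszul complex of sections without common zeros, as a complex of lattices. A cochain `x`
of degree `j` is a function on the sets `S` of `j` indices, `x S * ∏ l ∈ S, y l` is a
section of `E * H₁ ^ j`. The differential is `cd`.
-/

namespace Pool.Agent.KM

open Pool.Agent.Lib.MP_732f67_ag.KC (cd KVan)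

variable {R : ℕ}

variable {F : Type} [Field F] [Algebra ℂ F] {Y : Set (Subalgebra ℂ F)}

variable {H E H₁ : Subalgebra ℂ F → Fˣ} {n : ℕ} {w : Fin n → F} {y : Fin R → F}

/-- PROOF. `cd_cone` for `l₀ = l`, `c ∈ I`: division by `y l`, a generator of `H₁` on the chart of `c`. -/
theorem kz_ex (hy : ∀ l, y l ∈ Sec Y H₁ ∧ y l ≠ 0)
    (hw : ∀ c, ∃ l, ∀ O ∈ Y, Un O (w c * H O) → Un O (y l * H₁ O)) {j : ℕ}
    {I : Finset (Fin n)} (hI : I.Nonempty) {x : Finset (Fin R) → F}
    (hx : x ∈ kzZ Y H w y E H₁ (j + 1) I) : ∃ u ∈ kz Y H w y E H₁ j I, cdh F R u = x := by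
  obtain ⟨c, hc⟩ := hI
  obtain ⟨l, hl⟩ := hw c
  have hx1 : ∀ S, cd x S = 0 := fun S => congrFun hx.2 S
  obtain ⟨u, hu, hu0, hu1⟩ := cd_cone l hx1
  have hneg : ∀ S, l ∉ S → ∀ P : F → Prop, P (x (insert l S)) → P (-x (insert l S)) → P (u S) := by
    intro S hS P h1 h2
    rcases hu1 S hS with h | h
    · rw [h]
      exact h1
    · rw [h]
      exact h2
  refine ⟨u, fun S => ⟨fun hS => ?_, fun hS => ?_⟩, funext hu⟩
  · by_cases hlS : l ∈ S
    · exact hu0 S hlS
    · have h1 : x (insert l S) = 0 := (hx.1 (insert l S)).1 (by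
        rw [Finset.card_insert_of_notMem hlS]
        omega)
      refine hneg S hlS (fun z => z = 0) h1 ?_
      rw [h1, neg_zero]
  · by_cases hlS : l ∈ S
    · rw [hu0 S hlS, zero_mul]
      exact AddSubgroup.zero_mem _
    · have h1 := (hx.1 (insert l S)).2 (by rw [Finset.card_insert_of_notMem hlS, hS])
      rw [Finset.prod_insert hlS] at h1
      have h2 : x (insert l S) * ∏ l ∈ S, y l ∈ latC Y H w (E * H₁ ^ j) I := by
        intro O hO hcO
        have h3 := h1 O hO hcO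
        have h4 := hl O hO (hcO c hc)
        have h5 := O.mul_mem h3 h4.2.2
        have h6 := h4.1
        convert h5 using 1
        simp only [Pi.mul_apply, Pi.pow_apply, Units.val_mul, Units.val_pow_eq_pow_val]
        have h7 : x (insert l S) * (y l * ∏ l ∈ S, y l) * ((E O : F) * (H₁ O : F) ^ (j + 1)) *
            (y l * (H₁ O : F))⁻¹ = x (insert l S) * (∏ l ∈ S, y l) * ((E O : F) * (H₁ O : F) ^ j) *
              ((y l * (H₁ O : F)) * (y l * (H₁ O : F))⁻¹) := by ring
        rw [h7, mul_inv_cancel₀ h6, mul_one]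
      refine hneg S hlS (fun z => z * ∏ l ∈ S, y l ∈ latC Y H w (E * H₁ ^ j) I) h2 ?_
      rw [neg_mul]
      exact AddSubgroup.neg_mem _ h2

/-- the same for `j = 0` -/
theorem kz_ex0 (hw : ∀ c, ∃ l : Fin R, ∀ O ∈ Y, Un O (w c * H O) → Un O (y l * H₁ O))
    {I : Finset (Fin n)} (hI : I.Nonempty) {x : Finset (Fin R) → F}
    (hx : x ∈ kzZ Y H w y E H₁ 0 I) : x = 0 := by
  obtain ⟨c, -⟩ := hI
  obtain ⟨l, -⟩ := hw c
  funext S
  by_cases hS : S.card = 0
  · rw [Finset.card_eq_zero] at hS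
    subst hS
    have h1 : cd x {l} = 0 := congrFun hx.2 {l}
    unfold Pool.Agent.Lib.MP_732f67_ag.KC.cd at h1
    have h0 : Pool.Agent.Lib.MP_0b721b_ag.sgn l {l} = 1 := by
      unfold Pool.Agent.Lib.MP_0b721b_ag.sgn
      rw [Finset.filter_eq_empty_iff.2, Finset.card_empty, pow_zero]
      intro z hz
      rw [Finset.mem_singleton.1 hz]
      exact lt_irrefl l
    rw [Finset.sum_singleton, h0, one_smul, Finset.erase_singleton] at h1
    exact h1
  · exact (hx.1 S).1 hS

end Pool.Agent.KM
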