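import Pool.Agent.Lib.MP_732f67_ag.N.KosB
import Pool.Agent.Lib.MP_732f67_ag.N.Grp

/-!
Part N: the Koszul relation for the dimensions of the spaces of invariant sections.
-/

namespace Pool.Agent.KM

open Pool.Agent.Lib.MP_732f67_ag.KC (cd KVan)

variable {F : Type} [Field F] [Algebra ℂ F] {Y : Set (Subalgebra ℂ F)} {R : ℕ}
  {H E H₁ : Subalgebra ℂ F → Fˣ} {n : ℕ} {w : Fin n → F} {y : Fin R → F}
  {G : Subgroup (F ≃ₐ[ℂ] F)}

/-- the invariant sections -/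
def SecG (Y : Set (Subalgebra ℂ F)) (G : Subgroup (F ≃ₐ[ℂ] F)) (D : Subalgebra ℂ F → Fˣ) :
    Submodule ℂ F where
  carrier := {f | f ∈ Sec Y D ∧ ∀ γ ∈ G, γ f = f}
  zero_mem' := ⟨(Sec Y D).zero_mem, fun γ _ => map_zero γ⟩
  add_mem' hf hg := ⟨(Sec Y D).add_mem hf.1 hg.1, fun γ h => by
    rw [map_add, hf.2 γ h, hg.2 γ h]⟩
  smul_mem' c f hf := ⟨(Sec Y D).smul_mem c hf.1, fun γ h => by
    rw [map_smul, hf.2 γ h]⟩

/-- on small neighbourhoods some `y l` is a generator (`va2_gen`) -/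
theorem exists_nbd_y (hY : IsProj Y) (hH₁ : IsCar Y H₁) (hcov : ∀ O ∈ Y, ∃ l, Un O (y l * H₁ O)) :
    ∃ N : Subalgebra ℂ F → Finset F, Nbd Y N ∧ ∀ O ∈ Y, ∃ l, ∀ O' ∈ Y, (∀ s ∈ N O, s ∈ O') →
      Un O' (y l * H₁ O') := by
  classical
  have key : ∀ O : Subalgebra ℂ F, ∃ S : Finset F, O ∈ Y → (∀ s ∈ S, s ∈ O) ∧
      ∃ l, ∀ O' ∈ Y, (∀ s ∈ S, s ∈ O') → Un O' (y l * H₁ O') := by
    intro O
    by_cases hO : O ∈ Y
    · obtain ⟨l, hl⟩ := hcov O hO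
      obtain ⟨N, hN, h1, h2⟩ := va2_gen hH₁ hO hl
      refine ⟨hN.toFinset, fun _ => ⟨fun s hs => h1 s (hN.mem_toFinset.1 hs), l, fun O' hO' h => ?_⟩⟩
      exact h2 O' hO' fun s hs => h s (hN.mem_toFinset.2 hs)
    · exact ⟨∅, fun h => absurd h hO⟩
  choose N hN using key
  exact ⟨N, fun O hO => (hN O hO).1, fun O hO => (hN O hO).2⟩

end Pool.Agent.KM
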