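import Pool.Agent.Lib.MP_732f67_ag.N.KosB
import Pool.Agent.Lib.MP_732f67_ag.N.Grp
import Pool.Agent.Lib.MP_732f67_ag.N.KcW

/-!
Part N: the Koszul relation for the dimensions of the spaces of invariant sections.
-/

namespace Pool.Agent.KM

open Pool.Agent.Lib.MP_732f67_ag.KC (cd KVan)

variable {F : Type} [Field F] [Algebra ℂ F] {Y : Set (Subalgebra ℂ F)} {R : ℕ}
  {H E H₁ : Subalgebra ℂ F → Fˣ} {n : ℕ} {w : Fin n → F} {y : Fin R → F}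
  {G : Subgroup (F ≃ₐ[ℂ] F)}

private theorem kcz_mono {j : ℕ} {I I' : Finset (Fin n)} (h : I ⊆ I') :
    kz Y H w y E H₁ j I ≤ kz Y H w y E H₁ j I' :=
  fun _ hx S => ⟨(hx S).1, fun hS => latC_mono h ((hx S).2 hS)⟩

private theorem kcz_exs (hy : ∀ l, y l ∈ Sec Y H₁ ∧ y l ≠ 0)
    (hw : ∀ c, ∃ l, ∀ O ∈ Y, Un O (w c * H O) → Un O (y l * H₁ O)) (j : ℕ) :
    Exs (kzZ Y H w y E H₁ j) (kz Y H w y E H₁ j) (kzZ Y H w y E H₁ (j + 1))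
      (AddMonoidHom.id (Finset (Fin R) → F)) (cdh F R) where
  mono _ _ _ h := kcz_mono h
  map _ _ _ hx := hx.1
  map' _ _ _ hx := kz_cd hy hx
  inj := Function.injective_id
  ex _ _ x hx h := ⟨x, ⟨hx, h⟩, rfl⟩
  sur _ hJ _ hx := kz_ex hy hw hJ hx
  zero _ _ _ hx := hx.2

/-- Vanishing for the lattices of cocycles.

PROOF. Induction on `j`: `kzZ 0` is `⊥` on the non-empty sets (`kz_ex0`), and
`0 → kzZ j → kz j → kzZ (j + 1) → 0` is exact (`Exs`, `kz_ex`). -/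
theorem kzZ_kvan (hy : ∀ l, y l ∈ Sec Y H₁ ∧ y l ≠ 0)
    (hw : ∀ c, ∃ l, ∀ O ∈ Y, Un O (w c * H O) → Un O (y l * H₁ O)) {j : ℕ}
    (hv : ∀ i < j, KVan (latC Y H w (E * H₁ ^ i))) : KVan (kzZ Y H w y E H₁ j) := by
  induction j with
  | zero =>
    intro b hb z hz _
    refine ⟨fun _ => 0, fun J _ => AddSubgroup.zero_mem _, fun J hJ => ?_⟩
    rw [kz_ex0 hw (Finset.card_pos.1 (by omega)) (hz J hJ)]
    simp [Pool.Agent.Lib.MP_732f67_ag.KC.cd]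
  | succ j ih =>
    exact (kcz_exs hy hw j).kvan (ih fun i hi => hv i (by omega))
      (kz_kvan (fun l => (hy l).2) (hv j (by omega)))

/-- exactness for the global sections (`Exs.glo`, `latC_glo`) -/
theorem kz_glo (hn : n ≠ 0) (hcw : ∀ O ∈ Y, ∃ c, Un O (w c * H O))
    (hy : ∀ l, y l ∈ Sec Y H₁ ∧ y l ≠ 0)
    (hw : ∀ c, ∃ l, ∀ O ∈ Y, Un O (w c * H O) → Un O (y l * H₁ O)) {j : ℕ}
    (hv : ∀ i ≤ j, KVan (latC Y H w (E * H₁ ^ i))) {x : Finset (Fin R) → F}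
    (hx : x ∈ kzZ Y H w y E H₁ (j + 1) ∅) : ∃ u ∈ kz Y H w y E H₁ j ∅, cdh F R u = x := by
  have hne : Nonempty (Fin n) := ⟨⟨0, Nat.pos_of_ne_zero hn⟩⟩
  obtain ⟨u, hu, hu'⟩ := (kcz_exs (E := E) hy hw j).glo
    (kzZ_kvan hy hw fun i hi => hv i hi.le) (x := x)
    fun a => ⟨kcz_mono (Finset.empty_subset _) hx.1, hx.2⟩
  obtain ⟨a⟩ := hne
  refine ⟨u, fun S => ⟨(hu a S).1, fun hS => ?_⟩, hu'⟩
  have h1 := latC_glo hcw (f := u S * ∏ l ∈ S, y l) (E := E * H₁ ^ j) fun c => (hu c S).2 hS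
  exact fun O hO _ => h1 O hO

end Pool.Agent.KM
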