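import Pool.Agent.Lib.MP_732f67_ag.N.KosB
import Pool.Agent.Lib.MP_732f67_ag.N.Grp
import Pool.Agent.Lib.MP_732f67_ag.N.KcW
import Pool.Agent.Lib.MP_732f67_ag.N.KcZ

/-!
Part N: the Koszul relation for the dimensions of the spaces of invariant sections.
-/

namespace Pool.Agent.KM

open Pool.Agent.Lib.MP_732f67_ag.KC (cd KVan)

variable {F : Type} [Field F] [Algebra ℂ F] {Y : Set (Subalgebra ℂ F)} {R : ℕ}
  {H E H₁ : Subalgebra ℂ F → Fˣ} {n : ℕ} {w : Fin n → F} {y : Fin R → F}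
  {G : Subgroup (F ≃ₐ[ℂ] F)}

/-- the alternating sum of the dimensions of a complex of the form `Z j ⊆ K j → Z (j + 1)` -/
theorem alt_sum {V : Type*} [AddCommGroup V] [Module ℂ V] {K Z : ℕ → Submodule ℂ V} (R : ℕ)
    (hfin : ∀ j, Module.Finite ℂ (K j)) (δ : V →ₗ[ℂ] V) (hZ : ∀ j, Z j = K j ⊓ LinearMap.ker δ)
    (h0 : Z 0 = ⊥) (hR : Z (R + 1) = ⊥) (hs : ∀ j, (K j).map δ = Z (j + 1)) :
    ∑ j ∈ Finset.range (R + 1), (-1 : ℤ) ^ j * Module.finrank ℂ (K j) = 0 := by
  have h1 : ∀ j, (Module.finrank ℂ (K j) : ℤ) = Module.finrank ℂ (Z j) +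
      Module.finrank ℂ (Z (j + 1)) := by
    intro j
    have hj := hfin j
    have h2 := LinearMap.finrank_range_add_finrank_ker (δ.domRestrict (K j))
    rw [LinearMap.range_domRestrict, hs j, LinearMap.ker_domRestrict,
      ← Submodule.finrank_map_subtype_eq, Submodule.map_comap_subtype, ← hZ j] at h2
    rw [← h2]
    push_cast
    ring
  have h2 : ∀ n, ∑ j ∈ Finset.range n, (-1 : ℤ) ^ j * Module.finrank ℂ (K j) =
      Module.finrank ℂ (Z 0) - (-1 : ℤ) ^ n * Module.finrank ℂ (Z n) := by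
    intro n
    induction n with
    | zero => simp
    | succ n ih =>
      rw [Finset.sum_range_succ, ih, h1 n, pow_succ]
      ring
  rw [h2 (R + 1), h0, hR]
  simp

end Pool.Agent.KM
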