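import Pool.Agent.Lib.MP_732f67_ag.N.KosB
import Pool.Agent.Lib.MP_732f67_ag.N.Grp
import Pool.Agent.Lib.MP_732f67_ag.N.KcW
import Pool.Agent.Lib.MP_732f67_ag.N.KcZ
import Pool.Agent.Lib.MP_732f67_ag.N.KcA
import Pool.Agent.Lib.MP_732f67_ag.N.CvE
import Pool.Agent.Lib.MP_732f67_ag.N.AmpS

/-!
Part N: the Koszul relation for the dimensions of the spaces of invariant sections.
-/

namespace Pool.Agent.KM

open Pool.Agent.Lib.MP_732f67_ag.KC (cd KVan)

variable {F : Type} [Field F] [Algebra ℂ F] {Y : Set (Subalgebra ℂ F)} {R : ℕ}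
  {H E H₁ : Subalgebra ℂ F → Fˣ} {n : ℕ} {w : Fin n → F} {y : Fin R → F}
  {G : Subgroup (F ≃ₐ[ℂ] F)}

theorem KcK_lat {D : Subalgebra ℂ F → Fˣ} {f : F} : f ∈ latC Y H w D ∅ ↔ f ∈ Sec Y D := by
  constructor
  · intro h O hO
    exact h O hO (fun c hc => by simp at hc)
  · intro h O hO _
    exact h O hO

theorem KcK_kz {j : ℕ} {x : Finset (Fin R) → F} : x ∈ kz Y H w y E H₁ j ∅ ↔
    ∀ S, (S.card ≠ j → x S = 0) ∧ (S.card = j → x S * ∏ l ∈ S, y l ∈ Sec Y (E * H₁ ^ j)) := by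
  constructor
  · intro h S
    exact ⟨(h S).1, fun hS => KcK_lat.1 ((h S).2 hS)⟩
  · intro h S
    exact ⟨(h S).1, fun hS => KcK_lat.2 ((h S).2 hS)⟩

/-- the differential, as a linear map -/
noncomputable def KcK_d (F : Type) [Field F] [Algebra ℂ F] (R : ℕ) :
    (Finset (Fin R) → F) →ₗ[ℂ] (Finset (Fin R) → F) where
  toFun := cdh F R
  map_add' x x' := map_add _ x x'
  map_smul' c x := by
    funext S
    change ∑ a ∈ S, _ • (c • x (S.erase a)) = c • ∑ a ∈ S, _ • x (S.erase a)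
    rw [Finset.smul_sum]
    exact Finset.sum_congr rfl fun a _ => smul_comm _ _ _

theorem KcK_d_apply (x : Finset (Fin R) → F) : KcK_d F R x = cdh F R x := rfl

theorem KcK_map (γ : F ≃ₐ[ℂ] F) (x : Finset (Fin R) → F) (S : Finset (Fin R)) :
    cdh F R (fun S => γ (x S)) S = γ (cdh F R x S) :=
  Pool.Agent.Lib.MP_732f67_ag.KC.cd_map (γ : F →+ F) x S

/-- the invariant cochains -/
noncomputable def KcK_K (Y : Set (Subalgebra ℂ F)) (G : Subgroup (F ≃ₐ[ℂ] F)) (y : Fin R → F)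
    (E H₁ : Subalgebra ℂ F → Fˣ) (j : ℕ) : Submodule ℂ (Finset (Fin R) → F) where
  carrier := {x | (∀ S, (S.card ≠ j → x S = 0) ∧
    (S.card = j → x S * ∏ l ∈ S, y l ∈ Sec Y (E * H₁ ^ j))) ∧ ∀ γ ∈ G, ∀ S, γ (x S) = x S}
  zero_mem' := by
    refine ⟨fun S => ⟨fun _ => rfl, fun _ => ?_⟩, fun γ _ S => map_zero γ⟩
    rw [Pi.zero_apply, zero_mul]
    exact Submodule.zero_mem _
  add_mem' := by
    rintro x x' ⟨hx, hx'⟩ ⟨hz, hz'⟩
    refine ⟨fun S => ⟨fun h => ?_, fun h => ?_⟩, fun γ hγ S => ?_⟩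
    · rw [Pi.add_apply, (hx S).1 h, (hz S).1 h, add_zero]
    · rw [Pi.add_apply, add_mul]
      exact Submodule.add_mem _ ((hx S).2 h) ((hz S).2 h)
    · rw [Pi.add_apply, map_add, hx' γ hγ, hz' γ hγ]
  smul_mem' := by
    rintro c x ⟨hx, hx'⟩
    refine ⟨fun S => ⟨fun h => ?_, fun h => ?_⟩, fun γ hγ S => ?_⟩
    · rw [Pi.smul_apply, (hx S).1 h, smul_zero]
    · rw [Pi.smul_apply, smul_mul_assoc]
      exact Submodule.smul_mem _ _ ((hx S).2 h)
    · rw [Pi.smul_apply, map_smul, hx' γ hγ]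

theorem KcK_mem {j : ℕ} {x : Finset (Fin R) → F} : x ∈ KcK_K Y G y E H₁ j ↔
    x ∈ kz Y H w y E H₁ j ∅ ∧ ∀ γ ∈ G, ∀ S, γ (x S) = x S := by
  rw [KcK_kz]
  exact Iff.rfl

/-- the dimension of the space of the invariant cochains -/
noncomputable def KcK_e (hy : ∀ l, y l ≠ 0 ∧ ∀ γ ∈ G, γ (y l) = y l) (j : ℕ) :
    KcK_K Y G y E H₁ j ≃ₗ[ℂ] ({S : Finset (Fin R) // S.card = j} → SecG Y G (E * H₁ ^ j)) where
  toFun x S := ⟨(x : Finset (Fin R) → F) S * ∏ l ∈ (S : Finset (Fin R)), y l, (x.2.1 S).2 S.2,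
    fun γ hγ => by
      rw [map_mul, map_prod, x.2.2 γ hγ, Finset.prod_congr rfl fun l _ => (hy l).2 γ hγ]⟩
  map_add' x x' := by
    funext S
    exact Subtype.ext (add_mul _ _ _)
  map_smul' c x := by
    funext S
    exact Subtype.ext (smul_mul_assoc _ _ _)
  invFun f := ⟨fun S => if h : S.card = j then (f ⟨S, h⟩ : F) / ∏ l ∈ S, y l else 0, by
    refine ⟨fun S => ⟨fun h => dif_neg h, fun h => ?_⟩, fun γ hγ S => ?_⟩
    · dsimp only
      rw [dif_pos h, div_mul_cancel₀ _ (Finset.prod_ne_zero_iff.2 fun l _ => (hy l).1)]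
      exact (f ⟨S, h⟩).2.1
    · dsimp only
      split_ifs with h
      · rw [map_div₀, map_prod, (f ⟨S, h⟩).2.2 γ hγ,
          Finset.prod_congr rfl fun l _ => (hy l).2 γ hγ]
      · exact map_zero γ⟩
  left_inv x := by
    refine Subtype.ext (funext fun S => ?_)
    dsimp only
    split_ifs with h
    · exact mul_div_cancel_right₀ _ (Finset.prod_ne_zero_iff.2 fun l _ => (hy l).1)
    · exact ((x.2.1 S).1 h).symm
  right_inv f := by
    refine funext fun S => Subtype.ext ?_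
    dsimp only
    rw [dif_pos S.2, div_mul_cancel₀ _ (Finset.prod_ne_zero_iff.2 fun l _ => (hy l).1)]

/-- `fin_sec` for the invariant sections -/
theorem KcK_fin (hY : IsProj Y) (hE : IsCar Y E) : Module.Finite ℂ (SecG Y G E) := by
  have _ := fin_sec hY hE
  have hle : SecG Y G E ≤ Sec Y E := fun f hf => hf.1
  exact Submodule.finiteDimensional_of_le hle

/-- there are no cochains of degree `> R` -/
theorem KcK_bot {j : ℕ} (hj : R < j) {x : Finset (Fin R) → F} (hx : x ∈ KcK_K Y G y E H₁ j) :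
    x = 0 := by
  funext S
  refine (hx.1 S).1 fun h => ?_
  have h1 := Finset.card_le_univ S
  rw [Fintype.card_fin] at h1
  omega

/-- The average. -/
theorem KcK_avg {d : ℕ} {Δ : Fin d → Derivation ℂ F F} (hY : Base d Y G Δ)
    (hEi : GI Y G E) (hHi : GI Y G H₁) (hy : ∀ l, y l ≠ 0 ∧ ∀ γ ∈ G, γ (y l) = y l) {j : ℕ}
    {x u : Finset (Fin R) → F} (hx : ∀ γ ∈ G, ∀ S, γ (x S) = x S)
    (hu : ∀ S, (S.card ≠ j → u S = 0) ∧ (S.card = j → u S * ∏ l ∈ S, y l ∈ Sec Y (E * H₁ ^ j)))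
    (hux : cdh F R u = x) : ∃ v ∈ KcK_K Y G y E H₁ j, KcK_d F R v = x := by
  classical
  have _ := hY.fin
  have _ := Fintype.ofFinite G
  have hG0 : (Fintype.card G : ℂ) ≠ 0 := Nat.cast_ne_zero.2 Fintype.card_ne_zero
  let c : ℂ := (Fintype.card G : ℂ)⁻¹
  refine ⟨c • ∑ γ : G, fun S => (γ : F ≃ₐ[ℂ] F) (u S), ⟨fun S => ⟨fun h => ?_, fun h => ?_⟩,
    fun γ hγ S => ?_⟩, ?_⟩
  · rw [Pi.smul_apply, Finset.sum_apply, Finset.sum_eq_zero, smul_zero]
    intro γ _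
    rw [(hu S).1 h, map_zero]
  · rw [Pi.smul_apply, Finset.sum_apply, smul_mul_assoc, Finset.sum_mul]
    refine Submodule.smul_mem _ _ (Submodule.sum_mem _ fun γ _ => ?_)
    have h1 := sec_gm hY.st (gi_mul hEi (gi_pow hHi j)) γ.2 ((hu S).2 h)
    rw [map_mul, map_prod, Finset.prod_congr rfl fun l _ => (hy l).2 γ γ.2] at h1
    exact h1
  · rw [Pi.smul_apply, Finset.sum_apply, map_smul, map_sum]
    congr 1
    refine Fintype.sum_equiv (Equiv.mulLeft (⟨γ, hγ⟩ : G)) _ _ fun δ => ?_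
    rfl
  · rw [map_smul, map_sum]
    have h1 : ∀ γ : G, KcK_d F R (fun S => (γ : F ≃ₐ[ℂ] F) (u S)) = x := by
      intro γ
      funext S
      rw [KcK_d_apply, KcK_map, hux, hx γ γ.2]
    rw [Finset.sum_congr rfl fun γ _ => h1 γ, Finset.sum_const, Finset.card_univ,
      ← Nat.cast_smul_eq_nsmul ℂ, smul_smul, inv_mul_cancel₀ hG0, one_smul]

/-- a cover for which the cohomology vanishes, and on which some `y l` is a generator -/
theorem KcK_cov (hY : IsProj Y) (hH₁ : IsCar Y H₁) (hcov : ∀ O ∈ Y, ∃ l, Un O (y l * H₁ O))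
    (hv : ∀ j ≤ R, Hv Y (E * H₁ ^ j)) :
    ∃ (H : Subalgebra ℂ F → Fˣ) (n : ℕ) (w : Fin n → F), (∀ O ∈ Y, ∃ c, Un O (w c * H O)) ∧
      (∀ c, ∃ l, ∀ O ∈ Y, Un O (w c * H O) → Un O (y l * H₁ O)) ∧
      ∀ j ≤ R, KVan (latC Y H w (E * H₁ ^ j)) := by
  classical
  obtain ⟨H, hH, hA⟩ := exists_amp hY
  obtain ⟨N₀, hN₀, hN₀'⟩ := exists_nbd_y hY hH₁ hcov
  have h1 : ∀ j : Fin (R + 1), ∃ N : Subalgebra ℂ F → Finset F, Nbd Y N ∧
      ∀ (e n : ℕ) (w : Fin n → F), 1 ≤ e → Cov Y (H ^ e) w N →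
        KVan (latC Y (H ^ e) w (E * H₁ ^ (j : ℕ))) := fun j =>
    hv j (Nat.lt_succ_iff.1 j.2) H hH hA
  choose Nj hNj hNj' using h1
  have hN : Nbd Y fun O => N₀ O ∪ Finset.univ.biUnion fun j => Nj j O := by
    intro O hO s hs
    rcases Finset.mem_union.1 hs with hs | hs
    · exact hN₀ O hO s hs
    · obtain ⟨j, -, hj⟩ := Finset.mem_biUnion.1 hs
      exact hNj j O hO s hj
  obtain ⟨e, n, w, he, hw⟩ := exists_cov hY hH hA hN
  refine ⟨H ^ e, n, w, hw.cov, fun c => ?_, fun j hj => ?_⟩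
  · obtain ⟨O, hO, h2⟩ := hw.fine c
    obtain ⟨l, hl⟩ := hN₀' O hO
    exact ⟨l, fun O' hO' hu => hl O' hO' fun s hs =>
      h2 O' hO' hu s (Finset.mem_union_left _ hs)⟩
  · refine hNj' ⟨j, Nat.lt_succ_iff.2 hj⟩ e n w he ⟨hw.sec, hw.cov, fun c => ?_⟩
    obtain ⟨O, hO, h2⟩ := hw.fine c
    exact ⟨O, hO, fun O' hO' hu s hs => h2 O' hO' hu s (Finset.mem_union_right _
      (Finset.mem_biUnion.2 ⟨_, Finset.mem_univ _, hs⟩))⟩

/-- The Koszul relation.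

PROOF. Invariant cochains: `x` with `x S` invariant. If `x` is an invariant cocycle and `x = cd u`
(`kz_glo`) then `x = cd u'`, `u'` the average of the conjugates of `u` (`sec_gm`). `alt_sum` for the
invariant cochains; the dimension in degree `j` is `choose R j` times that of the invariant
sections of `E * H₁ ^ j`. `fin_sec`. If `R = 0` then `Y` is empty by `hcov`, which is impossible. -/
theorem koszul {d : ℕ} {Δ : Fin d → Derivation ℂ F F} (hY : Base d Y G Δ) (hE : IsCar Y E)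
    (hH₁ : IsCar Y H₁) (hEi : GI Y G E) (hHi : GI Y G H₁)
    (hy : ∀ l, y l ∈ Sec Y H₁ ∧ y l ≠ 0 ∧ ∀ γ ∈ G, γ (y l) = y l)
    (hcov : ∀ O ∈ Y, ∃ l, Un O (y l * H₁ O)) (hv : ∀ j ≤ R, Hv Y (E * H₁ ^ j)) :
    ∑ j ∈ Finset.range (R + 1),
      (-1 : ℤ) ^ j * (R.choose j * Module.finrank ℂ (SecG Y G (E * H₁ ^ j))) = 0 := by
  classical
  obtain ⟨H, n, w, hcw, hwl, hvK⟩ := KcK_cov hY.proj hH₁ hcov hv
  obtain ⟨O, hO⟩ := hY.proj.nonempty
  obtain ⟨c, -⟩ := hcw O hO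
  have hn : n ≠ 0 := by
    rintro rfl
    exact c.elim0
  have hy' : ∀ l, y l ≠ 0 ∧ ∀ γ ∈ G, γ (y l) = y l := fun l => (hy l).2
  have hys : ∀ l, y l ∈ Sec Y H₁ ∧ y l ≠ 0 := fun l => ⟨(hy l).1, (hy l).2.1⟩
  have hfinG : ∀ j, Module.Finite ℂ (SecG Y G (E * H₁ ^ j)) := fun j =>
    KcK_fin hY.proj (car_mul hE (car_pow hH₁ j))
  have hfin : ∀ j, Module.Finite ℂ (KcK_K Y G y E H₁ j) := fun j => by
    have _ := hfinG j
    exact Module.Finite.equiv (KcK_e hy' j).symm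
  have hdim : ∀ j, Module.finrank ℂ (KcK_K Y G y E H₁ j) =
      R.choose j * Module.finrank ℂ (SecG Y G (E * H₁ ^ j)) := by
    intro j
    have _ := hfinG j
    rw [(KcK_e hy' j).finrank_eq, Module.finrank_pi_fintype, Finset.sum_const, Finset.card_univ,
      Fintype.card_finset_len, Fintype.card_fin, smul_eq_mul]
  have hker : ∀ j (x : Finset (Fin R) → F), x ∈ KcK_K Y G y E H₁ j ⊓ LinearMap.ker (KcK_d F R) ↔
      x ∈ kzZ Y H w y E H₁ j ∅ ∧ ∀ γ ∈ G, ∀ S, γ (x S) = x S := by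
    intro j x
    rw [Submodule.mem_inf, KcK_mem (H := H) (w := w), LinearMap.mem_ker, KcK_d_apply]
    constructor
    · rintro ⟨⟨h1, h2⟩, h3⟩
      exact ⟨⟨h1, h3⟩, h2⟩
    · rintro ⟨⟨h1, h3⟩, h2⟩
      exact ⟨⟨h1, h2⟩, h3⟩
  have key := alt_sum (V := Finset (Fin R) → F) (K := KcK_K Y G y E H₁)
    (Z := fun j => KcK_K Y G y E H₁ j ⊓ LinearMap.ker (KcK_d F R)) R hfin (KcK_d F R)
    (fun j => rfl) ?_ ?_ ?_
  · rw [← key]
    refine Finset.sum_congr rfl fun j _ => ?_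
    rw [hdim j]
    push_cast
    ring
  · refine (Submodule.eq_bot_iff _).2 fun x hx => ?_
    have h1 := ((hker 0 x).1 hx).1
    have h2 : x ∈ kzZ Y H w y E H₁ 0 {c} := by
      refine ⟨fun S => ⟨(h1.1 S).1, fun hS => ?_⟩, h1.2⟩
      exact latC_mono (Finset.empty_subset _) ((h1.1 S).2 hS)
    exact kz_ex0 hwl ⟨c, Finset.mem_singleton_self c⟩ h2
  · refine (Submodule.eq_bot_iff _).2 fun x hx => ?_
    exact KcK_bot (Nat.lt_succ_self R) hx.1
  · intro j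
    apply le_antisymm
    · rintro _ ⟨x, hx, rfl⟩
      refine (hker (j + 1) _).2 ⟨?_, fun γ hγ S => ?_⟩
      · exact kz_cd hys ((KcK_mem (H := H) (w := w)).1 hx).1
      · have h1 : (fun T => γ (x T)) = x := funext fun T => hx.2 γ hγ T
        rw [KcK_d_apply, ← KcK_map, h1]
    · intro x hx
      by_cases hj : j ≤ R
      · have h1 := (hker (j + 1) x).1 hx
        obtain ⟨u, hu, hux⟩ := kz_glo hn hcw hys hwl (j := j)
          (fun i hi => hvK i (hi.trans hj)) h1.1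
        exact KcK_avg hY hEi hHi hy' h1.2 (KcK_kz.1 hu) hux
      · have h1 := KcK_bot (by omega : R < j + 1) hx.1
        rw [h1]
        exact Submodule.zero_mem _

end Pool.Agent.KM
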