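import Mathlib

/-!
Part N: the substitution `X 0 = τ`, `X l = t l τ` in power series.
-/

namespace Pool.Agent.KM

private lemma ps_prod {d : ℕ} {K : Type} [Field K] (t : Fin (d + 1) → K)
    (α : Fin (d + 1) →₀ ℕ) :
    (α.prod fun s e => (PowerSeries.C (t s) * PowerSeries.X : PowerSeries K) ^ e) =
      PowerSeries.C (∏ i, t i ^ α i) * PowerSeries.X ^ α.degree := by
  rw [Finsupp.prod_fintype _ _ (fun _ => pow_zero _)]
  simp only [mul_pow]
  rw [Finset.prod_mul_distrib, Finset.prod_pow_eq_pow_sum, map_prod, Finsupp.degree_eq_sum]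
  simp only [map_pow]

private lemma ps_coeff {d : ℕ} {K : Type} [Field K] [Algebra ℂ K] (t : Fin (d + 1) → K)
    (ha : MvPowerSeries.HasSubst
      (fun s : Fin (d + 1) => (PowerSeries.C (t s) * PowerSeries.X : PowerSeries K)))
    (f : MvPowerSeries (Fin (d + 1)) ℂ) (k : ℕ) :
    PowerSeries.coeff k (MvPowerSeries.subst
      (fun s : Fin (d + 1) => (PowerSeries.C (t s) * PowerSeries.X : PowerSeries K)) f) =
      ∑ α ∈ Finset.finsuppAntidiag (Finset.univ : Finset (Fin (d + 1))) k,
        algebraMap ℂ K (MvPowerSeries.coeff α f) * ∏ i, t i ^ α i := by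
  have h1 : ∀ α : Fin (d + 1) →₀ ℕ, MvPowerSeries.coeff (Finsupp.single () k)
      (α.prod fun s e => (PowerSeries.C (t s) * PowerSeries.X : PowerSeries K) ^ e) =
      if α.degree = k then ∏ i, t i ^ α i else 0 := by
    intro α
    rw [ps_prod t α]
    change PowerSeries.coeff k (PowerSeries.C (∏ i, t i ^ α i) * PowerSeries.X ^ α.degree) = _
    rw [PowerSeries.coeff_C_mul, PowerSeries.coeff_X_pow]
    by_cases h : k = α.degree
    · rw [if_pos h, if_pos h.symm, mul_one]
    · rw [if_neg h, if_neg (Ne.symm h), mul_zero]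
  change MvPowerSeries.coeff (Finsupp.single () k) _ = _
  rw [MvPowerSeries.coeff_subst ha]
  rw [finsum_eq_sum_of_support_subset (s := Finset.finsuppAntidiag
    (Finset.univ : Finset (Fin (d + 1))) k)]
  · refine Finset.sum_congr rfl fun α hα => ?_
    have hd : α.degree = k := by
      rw [Finsupp.degree_eq_sum]
      exact (Finset.mem_finsuppAntidiag.mp hα).1
    rw [h1 α, if_pos hd, Algebra.smul_def]
  · intro α hα
    rw [Function.mem_support] at hα
    rw [Finset.mem_coe, Finset.mem_finsuppAntidiag]
    refine ⟨?_, Finset.subset_univ _⟩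
    by_contra hd
    refine hα ?_
    rw [h1 α, if_neg, smul_zero]
    rw [Finsupp.degree_eq_sum]
    exact hd

/-- PROOF. `K` = the field of fractions of `ℂ[t 1, ..., t (d - 1)]`, `t 0 = 1`. The coefficient of `τ ^ k` in
`S f` is the sum of `coeff α f * t ^ α` over the exponents `α` of degree `k` (finitely many): it is
multiplicative, and it is zero iff all these `coeff α f` are zero, as the monomials `t ^ α`, `|α| = k`,
are linearly independent. -/
theorem exists_ps (d : ℕ) :
    ∃ (K : Type) (_ : Field K) (_ : Algebra ℂ K) (t : Fin d → K)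
      (S : MvPowerSeries (Fin (d + 1)) ℂ →ₐ[ℂ] PowerSeries K),
      AlgebraicIndependent ℂ t ∧ S (MvPowerSeries.X 0) = PowerSeries.X ∧
      (∀ l : Fin d, S (MvPowerSeries.X l.succ) = PowerSeries.C (t l) * PowerSeries.X) ∧
      ∀ (f : MvPowerSeries (Fin (d + 1)) ℂ) (r : ℕ),
        (∀ k < r, PowerSeries.coeff k (S f) = 0) ↔
          ∀ α : Fin (d + 1) →₀ ℕ, α.degree < r → MvPowerSeries.coeff α f = 0 := by
  let K := FractionRing (MvPolynomial (Fin d) ℂ)
  let t : Fin d → K := fun i => algebraMap (MvPolynomial (Fin d) ℂ) K (MvPolynomial.X i)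
  have ht : AlgebraicIndependent ℂ t :=
    (MvPolynomial.algebraicIndependent_X (Fin d) ℂ).map'
      (f := IsScalarTower.toAlgHom ℂ (MvPolynomial (Fin d) ℂ) K)
      (IsFractionRing.injective (MvPolynomial (Fin d) ℂ) K)
  let t' : Fin (d + 1) → K := Fin.cons 1 t
  let a : Fin (d + 1) → PowerSeries K := fun s => PowerSeries.C (t' s) * PowerSeries.X
  have ha : MvPowerSeries.HasSubst a := by
    refine MvPowerSeries.hasSubst_of_constantCoeff_zero fun s => ?_
    change PowerSeries.constantCoeff (PowerSeries.C (t' s) * PowerSeries.X) = 0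
    rw [map_mul, PowerSeries.constantCoeff_X, mul_zero]
  refine ⟨K, inferInstance, inferInstance, t, MvPowerSeries.substAlgHom ha, ht, ?_, ?_, ?_⟩
  · rw [MvPowerSeries.substAlgHom_X]
    change PowerSeries.C (t' 0) * PowerSeries.X = PowerSeries.X
    rw [show t' 0 = 1 from rfl, map_one, one_mul]
  · intro l
    rw [MvPowerSeries.substAlgHom_X]
    rfl
  · intro f r
    have hc : ∀ k : ℕ, PowerSeries.coeff k (MvPowerSeries.substAlgHom ha f) = 0 ↔
        ∀ α : Fin (d + 1) →₀ ℕ, α.degree = k → MvPowerSeries.coeff α f = 0 := by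
      intro k
      rw [MvPowerSeries.substAlgHom_apply, ps_coeff t' ha f k]
      have h2 : ∑ α ∈ Finset.finsuppAntidiag (Finset.univ : Finset (Fin (d + 1))) k,
          algebraMap ℂ K (MvPowerSeries.coeff α f) * ∏ i, t' i ^ α i =
          MvPolynomial.aeval t
            (∑ α ∈ Finset.finsuppAntidiag (Finset.univ : Finset (Fin (d + 1))) k,
              MvPolynomial.monomial (Finsupp.tail α) (MvPowerSeries.coeff α f)) := by
        rw [map_sum]
        refine Finset.sum_congr rfl fun α _ => ?_
        rw [MvPolynomial.aeval_monomial, Finsupp.prod_fintype _ _ (fun _ => pow_zero _),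
          Fin.prod_univ_succ]
        congr 1
        rw [show t' 0 = 1 from rfl, one_pow, one_mul]
        rfl
      rw [h2]
      constructor
      · intro h α₀ hα₀
        have h3 := ht (h.trans (map_zero _).symm)
        have h4 := congrArg (MvPolynomial.coeff (Finsupp.tail α₀)) h3
        rw [MvPolynomial.coeff_sum, MvPolynomial.coeff_zero] at h4
        rw [Finset.sum_eq_single α₀] at h4
        · rwa [MvPolynomial.coeff_monomial, if_pos rfl] at h4
        · intro β hβ hne
          rw [MvPolynomial.coeff_monomial, if_neg]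
          intro htl
          refine hne ?_
          have hb := (Finset.mem_finsuppAntidiag.mp hβ).1
          rw [Finsupp.degree_eq_sum, ← hb, Fin.sum_univ_succ, Fin.sum_univ_succ] at hα₀
          have h5 : ∀ i : Fin d, β i.succ = α₀ i.succ := fun i => by
            have := DFunLike.congr_fun htl i
            rwa [Finsupp.tail_apply, Finsupp.tail_apply] at this
          have h6 : β 0 = α₀ 0 := by
            have : ∑ i : Fin d, β i.succ = ∑ i : Fin d, α₀ i.succ :=
              Finset.sum_congr rfl fun i _ => h5 i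
            omega
          ext i
          refine Fin.cases h6 (fun j => h5 j) i
        · intro hn
          exact absurd (Finset.mem_finsuppAntidiag.mpr
            ⟨by rw [← hα₀, Finsupp.degree_eq_sum], Finset.subset_univ _⟩) hn
      · intro h
        rw [Finset.sum_eq_zero, map_zero]
        intro α hα
        rw [h α (by rw [Finsupp.degree_eq_sum]; exact (Finset.mem_finsuppAntidiag.mp hα).1),
          map_zero]
    constructor
    · intro h α hα
      exact (hc α.degree).mp (h _ hα) α rfl
    · intro h k hk
      exact (hc k).mpr fun α hα => h α (hα ▸ hk)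

end Pool.Agent.KM
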