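import Mathlib
import Pool.Agent.Lib.MP_732f67_ag.N.SbP

/-!
Part N: the substitution `X 0 = τ`, `X l = t l τ` in power series.
-/

namespace Pool.Agent.KM

/-- there are at most `r ^ d` exponents of degree less than `r` -/
theorem card_exp (d r : ℕ) :
    {α : Fin (d + 1) →₀ ℕ | α.degree < r}.Finite ∧
      Nat.card {α : Fin (d + 1) →₀ ℕ // α.degree < r} ≤ r ^ (d + 1) := by
  have hlt : ∀ (α : Fin (d + 1) →₀ ℕ), α.degree < r → ∀ i, α i < r := fun α hα i =>
    (Finsupp.le_degree i α).trans_lt hα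
  let f : {α : Fin (d + 1) →₀ ℕ // α.degree < r} → (Fin (d + 1) → Fin r) :=
    fun α i => ⟨α.1 i, hlt α.1 α.2 i⟩
  have hf : Function.Injective f := by
    intro α β h
    refine Subtype.ext (Finsupp.ext fun i => ?_)
    exact congrArg Fin.val (congrFun h i)
  have hfin : Finite {α : Fin (d + 1) →₀ ℕ // α.degree < r} := Finite.of_injective f hf
  refine ⟨Set.finite_coe_iff.1 hfin, ?_⟩
  refine (Nat.card_le_card_of_injective f hf).trans (le_of_eq ?_)
  rw [Nat.card_fun, Nat.card_eq_fintype_card, Nat.card_eq_fintype_card, Fintype.card_fin,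
    Fintype.card_fin]

end Pool.Agent.KM
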