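import Pool.Agent.Lib.MP_732f67_ag.N.SerA
import Pool.Agent.Lib.MP_732f67_ag.N.SerB

/-!
Part N: the blow up of a closed point.
-/

namespace Pool.Agent.KM

variable {F : Type} [Field F] [Algebra ℂ F] {Y : Set (Subalgebra ℂ F)} {d : ℕ} {J : Type}
  [Fintype J] {B : J → Subalgebra ℂ F → Fˣ} {Δ : Fin d → Derivation ℂ F F}
  {κ : Subalgebra ℂ F → Fˣ} {O : Subalgebra ℂ F}

/-- there is a closed point outside the boundary

PROOF. The finitely many local equations of the `B j` (`car_fin`), `exists_clo_un`. -/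
theorem exists_pt (h : Snc d Y B Δ κ) : ∃ O ∈ Y, (∀ j, Un O (B j O)) ∧ Clo O := by
  classical
  choose T hT0 hT using fun j => car_fin h.proj (h.car j)
  obtain ⟨O, hO, hc, hu⟩ := exists_clo_un h.proj (Finset.univ.biUnion T) (by
    intro t ht
    obtain ⟨j, -, htj⟩ := Finset.mem_biUnion.1 ht
    exact hT0 j t htj)
  refine ⟨O, hO, fun j => ?_, hc⟩
  obtain ⟨t, ht, htu⟩ := hT j O hO
  have h1 := htu.mul (hu t (Finset.mem_biUnion.2 ⟨j, Finset.mem_univ _, ht⟩))
  rwa [div_mul_cancel₀ _ (hT0 j t ht)] at h1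

end Pool.Agent.KM
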