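import Pool.Agent.Lib.MP_732f67_ag.N.SerA
import Pool.Agent.Lib.MP_732f67_ag.N.SerB
import Pool.Agent.Lib.MP_732f67_ag.N.LcP

/-!
Part N: the blow up of a closed point.
-/

namespace Pool.Agent.KM

variable {F : Type} [Field F] [Algebra ℂ F] {Y : Set (Subalgebra ℂ F)} {d : ℕ} {J : Type}
  [Fintype J] {B : J → Subalgebra ℂ F → Fˣ} {Δ : Fin d → Derivation ℂ F F}
  {κ : Subalgebra ℂ F → Fˣ} {O : Subalgebra ℂ F}

/-- A discrete valuation ring from an embedding into power series.

PROOF. `ρ` extends to the field of fractions, `F → K((τ))`; `v` is the preimage of `K[[τ]]`: a discrete valuation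
ring with the uniformizer `z 0`; `z l / z 0` has the residue `t l`. `prim_of_ri`. -/
theorem exists_val_ps {n : ℕ} (hd : Algebra.trdeg ℂ F = (n + 1 : ℕ))
    (hF : ∃ A : Subalgebra ℂ F, A.FG ∧ FracEq A) (hfr : FracEq O) {K : Type} [Field K]
    [Algebra ℂ K] {t : Fin n → K} (ht : AlgebraicIndependent ℂ t)
    (ρ : O →ₐ[ℂ] PowerSeries K) (hinj : Function.Injective ρ)
    (hloc : ∀ f : O, PowerSeries.constantCoeff (ρ f) ≠ 0 → Un O (f : F)) {z : Fin (n + 1) → O}
    (hz : ρ (z 0) = PowerSeries.X)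
    (hz' : ∀ l : Fin n, ρ (z l.succ) = PowerSeries.C (t l) * PowerSeries.X) :
    ∃ v : Subalgebra ℂ F, PrimDiv v ∧ Dom O v ∧ Unif v (z 0 : F) ∧
      RI v (fun l : Fin n => (z l.succ : F) / z 0) ∧
      ∀ (f : O) (r : ℕ), f ≠ 0 → ((r : ℤ) ≤ oD v f ↔ ∀ k < r, PowerSeries.coeff k (ρ f) = 0) := by
  classical
  have hfrac : IsFractionRing O F := isFractionRing_of_fracEq hfr
  let θ : PowerSeries K →+* LaurentSeries K := HahnSeries.ofPowerSeries ℤ K
  have hθ : Function.Injective θ := HahnSeries.ofPowerSeries_injective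
  let ρ' : O →+* LaurentSeries K := θ.comp (ρ : O →+* PowerSeries K)
  have hρ' : Function.Injective ρ' := hθ.comp hinj
  let σ : F →+* LaurentSeries K := IsFractionRing.lift hρ'
  have hσ : ∀ f : O, σ (f : F) = θ (ρ f) := fun f => IsFractionRing.lift_algebraMap hρ' f
  have hσi : Function.Injective σ := σ.injective
  let v : Subalgebra ℂ F :=
    { carrier := {x | ∃ p : PowerSeries K, σ x = θ p}
      mul_mem' := by
        rintro a b ⟨p, hp⟩ ⟨q, hq⟩
        exact ⟨p * q, by rw [map_mul, map_mul, hp, hq]⟩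
      add_mem' := by
        rintro a b ⟨p, hp⟩ ⟨q, hq⟩
        exact ⟨p + q, by rw [map_add, map_add, hp, hq]⟩
      algebraMap_mem' := fun c => ⟨ρ (algebraMap ℂ O c), hσ (algebraMap ℂ O c)⟩ }
  have hv : ∀ x, x ∈ v ↔ ∃ p : PowerSeries K, σ x = θ p := fun x => Iff.rfl
  have hOv : O ≤ v := fun x hx => ⟨ρ ⟨x, hx⟩, hσ ⟨x, hx⟩⟩
  have hz0 : (z 0 : F) ≠ 0 := by
    intro h
    have h1 : z 0 = 0 := Subtype.ext h
    rw [h1, map_zero] at hz
    exact PowerSeries.X_ne_zero hz.symm
  -- units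
  have hun : ∀ (x : F) (u : (PowerSeries K)ˣ), σ x = θ u → Un v x := by
    intro x u hx
    have h1 : σ x * θ ((u⁻¹ : (PowerSeries K)ˣ) : PowerSeries K) = 1 := by
      rw [hx, ← map_mul, Units.mul_inv, map_one]
    have hx0 : x ≠ 0 := by
      rintro rfl
      rw [map_zero, zero_mul] at h1
      exact zero_ne_one h1
    refine ⟨hx0, ⟨u, hx⟩, ⟨((u⁻¹ : (PowerSeries K)ˣ) : PowerSeries K), ?_⟩⟩
    rw [map_inv₀]
    exact inv_eq_of_mul_eq_one_right h1
  have hσz : σ (z 0 : F) = θ PowerSeries.X := by rw [hσ, hz]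
  have hσz0 : θ PowerSeries.X ≠ 0 := by
    rw [← hσz]
    exact fun h => hz0 ((map_eq_zero σ).1 h)
  have hfac : ∀ p : PowerSeries K, p ≠ 0 → ∃ (m : ℕ) (u : (PowerSeries K)ˣ),
      p = (u : PowerSeries K) * PowerSeries.X ^ m := by
    intro p hp
    exact IsDiscreteValuationRing.eq_unit_mul_pow_irreducible hp PowerSeries.X_irreducible
  have hquo : ∀ (x : F) (m : ℕ) (u : (PowerSeries K)ˣ), σ x = θ ((u : PowerSeries K) * PowerSeries.X ^ m) →
      Un v (x / (z 0 : F) ^ m) := by
    intro x m u hx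
    refine hun _ u ?_
    rw [map_div₀, map_pow, hσz, hx, map_mul, map_pow]
    exact mul_div_cancel_right₀ _ (pow_ne_zero m hσz0)
  have hunif : Unif v (z 0 : F) := by
    refine ⟨hOv (z 0).2, ?_, ?_⟩
    · rintro ⟨p, hp⟩
      have h1 : θ (PowerSeries.X * p) = θ 1 := by
        rw [map_mul, ← hp, ← hσz, ← map_mul, mul_inv_cancel₀ hz0, map_one, map_one]
      have h2 := congrArg PowerSeries.constantCoeff (hθ h1)
      rw [map_mul, PowerSeries.constantCoeff_X, zero_mul, map_one] at h2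
      exact zero_ne_one h2
    · intro x hx
      by_cases hx0 : x = 0
      · left
        rw [hx0, inv_zero]
        exact v.zero_mem
      obtain ⟨p, hp⟩ := hx
      have hp0 : p ≠ 0 := by
        rintro rfl
        rw [map_zero] at hp
        exact hx0 ((map_eq_zero σ).1 hp)
      obtain ⟨m, u, rfl⟩ := hfac p hp0
      have h1 := hquo x m u hp
      rcases m with _ | m
      · left
        rw [pow_zero, div_one] at h1
        exact h1.2.2
      · right
        have h2 := v.mul_mem h1.2.1 (v.pow_mem (hOv (z 0).2) m)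
        have h3 : x / (z 0 : F) ^ (m + 1) * (z 0 : F) ^ m = x / (z 0 : F) := by
          rw [pow_succ]
          field_simp
        rwa [h3] at h2
  have hdvr : IsDiscreteValuationRing v := by
    refine IsDiscreteValuationRing.ofHasUnitMulPowIrreducibleFactorization
      ⟨⟨(z 0 : F), hunif.1⟩, hunif.irreducible, ?_⟩
    intro x hx0
    obtain ⟨p, hp⟩ := x.2
    have hx1 : (x : F) ≠ 0 := fun h => hx0 (Subtype.ext h)
    have hp0 : p ≠ 0 := by
      rintro rfl
      rw [map_zero] at hp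
      exact hx1 ((map_eq_zero σ).1 hp)
    obtain ⟨m, u, rfl⟩ := hfac p hp0
    have h1 := hquo x m u hp
    refine ⟨m, Units.mk (⟨_, h1.2.1⟩ : v) (⟨_, h1.2.2⟩ : v)
      (Subtype.ext (mul_inv_cancel₀ h1.1)) (Subtype.ext (inv_mul_cancel₀ h1.1)), Subtype.ext ?_⟩
    change (z 0 : F) ^ m * ((x : F) / (z 0 : F) ^ m) = x
    exact mul_div_cancel₀ (x : F) (pow_ne_zero m hz0)
  have hri : RI v (fun l : Fin n => (z l.succ : F) / z 0) := by
    intro P hP
    have h1 : σ.comp (MvPolynomial.aeval (fun l : Fin n => (z l.succ : F) / z 0) :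
        MvPolynomial (Fin n) ℂ →ₐ[ℂ] F).toRingHom =
        (θ.comp (PowerSeries.C (R := K))).comp (MvPolynomial.aeval t).toRingHom := by
      refine MvPolynomial.ringHom_ext (fun c => ?_) fun l => ?_
      · change σ (MvPolynomial.aeval _ (MvPolynomial.C c)) =
          θ (PowerSeries.C (MvPolynomial.aeval t (MvPolynomial.C c)))
        rw [MvPolynomial.aeval_C, MvPolynomial.aeval_C]
        have h2 := hσ (algebraMap ℂ O c)
        rw [AlgHom.commutes, PowerSeries.algebraMap_apply] at h2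
        exact h2
      · change σ (MvPolynomial.aeval _ (MvPolynomial.X l)) =
          θ (PowerSeries.C (MvPolynomial.aeval t (MvPolynomial.X l)))
        rw [MvPolynomial.aeval_X, MvPolynomial.aeval_X, map_div₀, hσz, hσ, hz', map_mul]
        exact mul_div_cancel_right₀ _ hσz0
    have h2 : σ (MvPolynomial.aeval (fun l : Fin n => (z l.succ : F) / z 0) P) =
        θ (PowerSeries.C (MvPolynomial.aeval t P)) := DFunLike.congr_fun h1 P
    have h3 : MvPolynomial.aeval t P ≠ 0 := fun h => hP (ht (by rw [h, map_zero]))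
    exact hun _ (Units.map (PowerSeries.C (R := K) : K →* PowerSeries K) (Units.mk0 _ h3)) h2
  have hprim : PrimDiv v := by
    refine prim_of_ri hd hF hunif (fun x => ?_) hdvr hri
    obtain ⟨a, b, hb, hab⟩ := hfr x
    exact ⟨⟨a, hOv a.2⟩, ⟨b, hOv b.2⟩, hb, hab⟩
  refine ⟨v, hprim, ⟨hOv, ?_⟩, hunif, hri, ?_⟩
  · rintro x hx ⟨p, hp⟩
    by_cases hx0 : x = 0
    · rw [hx0, inv_zero]
      exact O.zero_mem
    refine (hloc ⟨x, hx⟩ ?_).2.2
    intro h
    have h1 : θ (ρ ⟨x, hx⟩ * p) = θ 1 := by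
      rw [map_mul, ← hp, ← hσ, ← map_mul, mul_inv_cancel₀ hx0, map_one, map_one]
    have h2 := congrArg PowerSeries.constantCoeff (hθ h1)
    rw [map_mul, h, zero_mul, map_one] at h2
    exact zero_ne_one h2
  · intro f r hf
    have hf0 : ρ f ≠ 0 := fun h => hf (hinj (by rw [h, map_zero]))
    obtain ⟨m, u, hu⟩ := hfac (ρ f) hf0
    have h1 : oD v (f : F) = m := by
      refine oD_eq hprim ⟨z 0, hunif, ?_⟩
      rw [zpow_natCast]
      exact hquo _ m u (by rw [hσ, hu])
    rw [h1, hu]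
    constructor
    · intro h k hk
      rw [PowerSeries.coeff_mul_X_pow', if_neg (by omega)]
    · intro h
      by_contra hlt
      have h2 := h m (by omega)
      rw [PowerSeries.coeff_mul_X_pow', if_pos le_rfl, Nat.sub_self,
        PowerSeries.coeff_zero_eq_constantCoeff_apply] at h2
      have h3 := (u.isUnit.map (PowerSeries.constantCoeff (R := K))).ne_zero
      exact h3 h2

end Pool.Agent.KM
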