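import Pool.Agent.Lib.MP_732f67_ag.N.SerA
import Pool.Agent.Lib.MP_732f67_ag.N.SerB
import Pool.Agent.Lib.MP_732f67_ag.N.LcP
import Pool.Agent.Lib.MP_732f67_ag.N.LcV

/-!
Part N: the blow up of a closed point.
-/

namespace Pool.Agent.KM

variable {F : Type} [Field F] [Algebra ℂ F] {Y : Set (Subalgebra ℂ F)} {d : ℕ} {J : Type}
  [Fintype J] {B : J → Subalgebra ℂ F → Fˣ} {Δ : Fin d → Derivation ℂ F F}
  {κ : Subalgebra ℂ F → Fˣ} {O : Subalgebra ℂ F}

theorem LcB_nj {n : ℕ} (Δ : Fin (n + 1) → Derivation ℂ F F) (z : Fin (n + 1) → F) (h0 : z 0 ≠ 0) :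
    nj Δ (Fin.cons (z 0) fun l : Fin n => z l.succ / z 0) = nj Δ z / z 0 ^ n := by
  classical
  have h1 : (Matrix.of fun i l => (Fin.cons 1 fun _ : Fin n => (z 0)⁻¹ : Fin (n + 1) → F) l *
      (Matrix.of fun i l => Δ i (z l)) i l).det = nj Δ z / z 0 ^ n := by
    rw [Matrix.det_mul_row, Fin.prod_univ_succ, nj]
    simp only [Fin.cons_zero, Fin.cons_succ, Finset.prod_const, Finset.card_univ, Fintype.card_fin]
    rw [one_mul, inv_pow, mul_comm, div_eq_mul_inv]
  rw [← h1, nj, ← Matrix.det_transpose, ← Matrix.det_transpose (Matrix.of fun i l => _ * _)]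
  refine Matrix.det_eq_of_forall_row_eq_smul_add_const
    (Fin.cons 0 fun l : Fin n => -(z l.succ / z 0 ^ 2) : Fin (n + 1) → F) 0 rfl ?_
  intro l i
  refine Fin.cases ?_ (fun l => ?_) l
  · simp
  · simp only [Matrix.transpose_apply, Matrix.of_apply, Fin.cons_succ, Fin.cons_zero, one_mul]
    have h2 : Δ i (z l.succ) = z 0 * Δ i (z l.succ / z 0) + z l.succ / z 0 * Δ i (z 0) := by
      have h3 := (Δ i).leibniz (z 0) (z l.succ / z 0)
      rw [mul_div_cancel₀ _ h0] at h3
      simpa [smul_eq_mul] using h3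
    rw [h2]
    field_simp
    ring

/-- The exceptional divisor `v` of the blow up of a closed point.

PROOF. `exists_series`, `exists_ps`, `exists_val_ps`. `nj Δ (z 0, z l / z 0) = nj Δ z / z 0 ^ (d - 1)`, so
`oF Δ v = -oD v (nj Δ z) + d - 1` (`ordF_of_ri`), and `κ O * nj Δ z` is a unit. The linear map from `W` to the
coefficients of degree `< r` of the Taylor series is not injective (`card_exp`). -/
theorem exists_blow (h : Snc d Y B Δ κ) (hd : 1 ≤ d) (hO : O ∈ Y) (hc : Clo O) :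
    ∃ v : Subalgebra ℂ F, PrimDiv v ∧ Dom O v ∧ oF Δ v + 1 - oD v (κ O) = d ∧
      ∀ (r : ℕ) (W : Submodule ℂ F), Module.Finite ℂ W → W ≤ Subalgebra.toSubmodule O →
        r ^ d < Module.finrank ℂ W → ∃ f ∈ W, f ≠ 0 ∧ (r : ℤ) ≤ oD v f := by
  classical
  obtain ⟨n, rfl⟩ : ∃ n, d = n + 1 := ⟨d - 1, by omega⟩
  obtain ⟨z, T, hTz, hTi, hun, hκ⟩ := exists_series h hO hc
  obtain ⟨K, hK, hA, t, S, ht, hS0, hS, hco⟩ := exists_ps n
  have hco' : ∀ f : O, (∀ r : ℕ, ∀ k < r, PowerSeries.coeff k (S (T f)) = 0) → f = 0 := by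
    intro f hf
    apply hTi
    rw [map_zero]
    ext α
    rw [map_zero]
    exact (hco (T f) (α.degree + 1)).1 (hf _) α (Nat.lt_succ_self _)
  obtain ⟨v, hv, hdom, hunif, hRI, hord⟩ := exists_val_ps h.dim
    (by
      obtain ⟨A, h1, h2, -⟩ := h.proj.exists_chart hO
      exact ⟨A, h1, h2⟩)
    (h.proj.fracEq hO) ht (S.comp T) (by
      rw [injective_iff_map_eq_zero]
      intro f hf
      refine hco' f fun r k _ => ?_
      have h1 : S (T f) = 0 := hf
      rw [h1, map_zero])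
    (by
      intro f hf
      rw [← hun]
      intro h0
      apply hf
      have h1 := (hco (T f) 1).2 (fun α hα => by
        have h2 : α = 0 := by
          rw [← Finsupp.degree_eq_zero_iff]
          omega
        rw [h2]
        exact h0) 0 one_pos
      rw [← PowerSeries.coeff_zero_eq_constantCoeff_apply]
      exact h1)
    (z := z) (by
      change S (T (z 0)) = _
      rw [hTz, hS0])
    (by
      intro l
      change S (T (z l.succ)) = _
      rw [hTz, hS])
  have hz0 : (z 0 : F) ≠ 0 := by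
    intro h0
    apply hunif.2.1
    rw [h0, inv_zero]
    exact v.zero_mem
  have hnj : nj Δ (fun l => (z l : F)) ≠ 0 := right_ne_zero_of_mul hκ.1
  refine ⟨v, hv, hdom, ?_, ?_⟩
  · have h1 := oF_eq hv (ordF_of_ri h.dim hv hunif hRI h.frame)
    rw [LcB_nj Δ (fun l => (z l : F)) hz0, oD_div hv hnj (pow_ne_zero _ hz0), oD_pow hv hz0,
      oD_unif hv hunif] at h1
    have h2 : oD v ((κ O : F) * nj Δ fun l => (z l : F)) = 0 := by
      rw [oD_zero hv hκ.1]
      exact ⟨hκ.1, hdom.1 hκ.2.1, hdom.1 hκ.2.2⟩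
    rw [oD_mul hv (κ O).ne_zero hnj] at h2
    rw [h1]
    push_cast
    linarith
  · intro r W hW hWO hr
    obtain ⟨hfin, hcard⟩ := card_exp n r
    have hfin' : Finite {α : Fin (n + 1) →₀ ℕ // α.degree < r} := hfin
    have : Fintype {α : Fin (n + 1) →₀ ℕ // α.degree < r} := Fintype.ofFinite _
    let ι : W →ₗ[ℂ] O := Submodule.inclusion hWO
    let Φ : W →ₗ[ℂ] ({α : Fin (n + 1) →₀ ℕ // α.degree < r} → ℂ) :=
      LinearMap.pi fun α => (MvPowerSeries.coeff α.1).comp (T.toLinearMap.comp ι)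
    have h1 : ¬ Function.Injective Φ := by
      intro h2
      have h3 := LinearMap.finrank_le_finrank_of_injective h2
      rw [Module.finrank_fintype_fun_eq_card, ← Nat.card_eq_fintype_card] at h3
      omega
    rw [injective_iff_map_eq_zero] at h1
    push Not at h1
    obtain ⟨f, hf, hf0⟩ := h1
    refine ⟨f, f.2, fun h0 => hf0 (Subtype.ext h0), ?_⟩
    have h2 : ι f ≠ 0 := by
      intro h0
      have h3 : ((ι f : O) : F) = 0 := by
        rw [h0]
        rfl
      exact hf0 (Subtype.ext h3)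
    refine (hord (ι f) r h2).2 ?_
    refine (hco (T (ι f)) r).2 fun α hα => ?_
    exact congrFun hf ⟨α, hα⟩

end Pool.Agent.KM
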