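import Pool.Agent.Lib.MP_732f67_ag.N.CvE

/-!
Part N: lifting of sections from a disjoint union of prime divisors.
-/

namespace Pool.Agent.KM

open Pool.Agent.Lib.MP_732f67_ag.KC (cd KVan cd_cd cd_congr)

variable {F : Type} [Field F] [Algebra ℂ F] {Y : Set (Subalgebra ℂ F)}
  {D E : Subalgebra ℂ F → Fˣ}

/-- a cochain of degree zero with vanishing differential is constant -/
private theorem LiH_const {K : ℕ} (x : Finset (Fin K) → F)
    (h : ∀ J : Finset (Fin K), J.card = 2 → cd x J = 0) (a b : Fin K) : x {a} = x {b} := by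
  classical
  have key : ∀ a b : Fin K, a < b → x {a} = x {b} := by
    intro a b hab
    have h1 := h {a, b} (Finset.card_pair hab.ne)
    unfold Pool.Agent.Lib.MP_732f67_ag.KC.cd at h1
    rw [Finset.sum_pair hab.ne] at h1
    have e1 : ({a, b} : Finset (Fin K)).erase a = {b} := by
      rw [Finset.erase_insert]
      simpa using hab.ne
    have e2 : ({a, b} : Finset (Fin K)).erase b = {a} := by
      rw [Finset.pair_comm, Finset.erase_insert]
      simpa using hab.ne'
    have s1 : Pool.Agent.Lib.MP_0b721b_ag.sgn a ({a, b} : Finset (Fin K)) = 1 := by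
      unfold Pool.Agent.Lib.MP_0b721b_ag.sgn
      rw [Finset.filter_eq_empty_iff.2, Finset.card_empty, pow_zero]
      intro c hc
      rcases Finset.mem_insert.1 hc with rfl | hc
      · exact lt_irrefl _
      · rw [Finset.mem_singleton.1 hc]
        exact not_lt.2 hab.le
    have s2 : Pool.Agent.Lib.MP_0b721b_ag.sgn b ({a, b} : Finset (Fin K)) = -1 := by
      unfold Pool.Agent.Lib.MP_0b721b_ag.sgn
      have e3 : ({a, b} : Finset (Fin K)).filter (· < b) = {a} := by
        ext c
        simp only [Finset.mem_filter, Finset.mem_insert, Finset.mem_singleton]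
        constructor
        · rintro ⟨rfl | rfl, hc⟩
          · rfl
          · exact absurd hc (lt_irrefl _)
        · rintro rfl
          exact ⟨Or.inl rfl, hab⟩
      rw [e3, Finset.card_singleton, pow_one]
    rw [e1, e2, s1, s2, one_smul, neg_smul, one_smul, add_neg_eq_zero] at h1
    exact h1.symm
  rcases lt_trichotomy a b with hab | rfl | hab
  · exact key a b hab
  · rfl
  · exact (key b a hab).symm

/-- Vanishing of `H^1` in terms of `F / O(E)`.

PROOF. `H` ample (`exists_amp`), `N` as in `Hv`; `N'` the union of `N` and of the sets `S` of the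
hypothesis on `r`. `exists_cov`: a cover `w` by sections of `H ^ e`, finer than `N'`, so `r` is constant
modulo `E` on its charts: `r c = r (O c)`, `(r O - r c) * E O ∈ O` for all `O` in the chart of `w c`.
`z {c, c'} = r c - r c'` (the difference of `r`, `cd`) is a cocycle of `latC Y (H ^ e) w E`; `KVan` in
degree `1` gives `w' c` with `w' c - w' c' = r c - r c'` up to sign, and `f = r c - w' c` does
not depend on `c`. -/
theorem h1_of_hv (hY : IsProj Y) (hE : IsCar Y E) (h : Hv Y E) : H1 Y E := by
  classical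
  intro r hr
  have _ := hE
  obtain ⟨H, hH, hA⟩ := exists_amp hY
  obtain ⟨N, hN, hv⟩ := h H hH hA
  have hr1 : ∀ O : Subalgebra ℂ F, ∃ S : Finset F, O ∈ Y → (∀ s ∈ S, s ∈ O) ∧
      ∀ O' ∈ Y, (∀ s ∈ S, s ∈ O') → (r O - r O') * E O' ∈ O' := by
    intro O
    by_cases hO : O ∈ Y
    · obtain ⟨S, hS⟩ := hr O hO
      exact ⟨S, fun _ => hS⟩
    · exact ⟨∅, fun h1 => absurd h1 hO⟩
  choose S hS using hr1
  have hN' : Nbd Y fun O => N O ∪ S O := by
    intro O hO s hs
    rcases Finset.mem_union.1 hs with h1 | h1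
    · exact hN O hO s h1
    · exact (hS O hO).1 s h1
  obtain ⟨e, K, z, he, hz⟩ := exists_cov hY hH hA hN'
  have hK : KVan (latC Y (H ^ e) z E) :=
    hv e K z he (hz.mono fun O _ => Finset.subset_union_left)
  have hloc : ∀ c, ∃ ρ : F, ∀ O ∈ Y, Un O (z c * ((H ^ e) O : Fˣ)) → (ρ - r O) * E O ∈ O := by
    intro c
    obtain ⟨O, hO, h1⟩ := hz.fine c
    exact ⟨r O, fun O' hO' hu => (hS O hO).2 O' hO' fun s hs =>
      h1 O' hO' hu s (Finset.mem_union_right _ hs)⟩
  choose ρ hρ using hloc
  let x : Finset (Fin K) → F := fun J => if hJ : J.Nonempty then ρ (J.min' hJ) else 0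
  have hx : ∀ c, x {c} = ρ c := by
    intro c
    have h1 : ({c} : Finset (Fin K)).Nonempty := Finset.singleton_nonempty c
    show (if hJ : ({c} : Finset (Fin K)).Nonempty then
      ρ (({c} : Finset (Fin K)).min' hJ) else 0) = ρ c
    rw [dif_pos h1, Finset.min'_singleton]
  obtain ⟨w, hw, hw'⟩ := hK 1 le_rfl (cd x) (by
    intro J hJ O hO hJO
    have h1 : ∀ c ∈ J, (x {c} - r O) * E O ∈ O := by
      intro c hc
      rw [hx]
      exact hρ c O hO (hJO c hc)
    obtain ⟨a, b, hab, rfl⟩ := Finset.card_eq_two.1 hJ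
    have ha := h1 a (Finset.mem_insert_self _ _)
    have hb := h1 b (Finset.mem_insert_of_mem (Finset.mem_singleton_self _))
    have e1 : ({a, b} : Finset (Fin K)).erase a = {b} := by
      rw [Finset.erase_insert]
      simpa using hab
    have e2 : ({a, b} : Finset (Fin K)).erase b = {a} := by
      rw [Finset.pair_comm, Finset.erase_insert]
      simpa using hab.symm
    have h2 : cd (fun _ : Finset (Fin K) => r O) {a, b} = 0 := by
      have h3 : cd (fun _ : Finset (Fin K) => r O) {a, b} =
          cd (cd fun _ : Finset (Fin K) => r O) {a, b} := by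
        refine cd_congr fun L hL => ?_
        rw [Finset.card_pair hab] at hL
        obtain ⟨c, rfl⟩ := Finset.card_eq_one.1 (show L.card = 1 by omega)
        unfold Pool.Agent.Lib.MP_732f67_ag.KC.cd
        rw [Finset.sum_singleton]
        unfold Pool.Agent.Lib.MP_0b721b_ag.sgn
        rw [Finset.filter_eq_empty_iff.2, Finset.card_empty, pow_zero, one_smul]
        intro y hy
        rw [Finset.mem_singleton.1 hy]
        exact lt_irrefl _
      rw [h3, cd_cd]
    have h4 : cd x {a, b} * (E O : F) =
        cd (fun L => (x L - r O) * (E O : F)) {a, b} := by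
      have h5 : cd (fun L => (x L - r O) * (E O : F)) {a, b} =
          cd x {a, b} * (E O : F) - cd (fun _ : Finset (Fin K) => r O) {a, b} * (E O : F) := by
        unfold Pool.Agent.Lib.MP_732f67_ag.KC.cd
        rw [Finset.sum_pair hab, Finset.sum_pair hab, Finset.sum_pair hab]
        simp only [zsmul_eq_mul]
        ring
      rw [h5, h2, zero_mul, sub_zero]
    show cd x {a, b} * (E O : F) ∈ O
    rw [h4]
    unfold Pool.Agent.Lib.MP_732f67_ag.KC.cd
    rw [Finset.sum_pair hab, e1, e2]
    exact O.add_mem (O.zsmul_mem hb _) (O.zsmul_mem ha _)) (fun J _ => cd_cd x J)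
  have hconst := LiH_const (fun J => x J - w J) (by
    intro J hJ
    have h1 : cd (fun J => x J - w J) J = cd x J - cd w J := by
      unfold Pool.Agent.Lib.MP_732f67_ag.KC.cd
      rw [← Finset.sum_sub_distrib]
      refine Finset.sum_congr rfl fun a _ => ?_
      rw [smul_sub]
    rw [h1, hw' J hJ, sub_self])
  by_cases hKe : Nonempty (Fin K)
  · obtain ⟨c₀⟩ := hKe
    refine ⟨x {c₀} - w {c₀}, fun O hO => ?_⟩
    obtain ⟨c, hc⟩ := hz.cov O hO
    have h1 : x {c₀} - w {c₀} = ρ c - w {c} := by
      rw [← hx]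
      exact hconst c₀ c
    have h2 : w {c} * (E O : F) ∈ O := by
      refine hw {c} (Finset.card_singleton c) O hO fun c' hc' => ?_
      rw [Finset.mem_singleton.1 hc']
      exact hc
    have h3 : (r O - (x {c₀} - w {c₀})) * (E O : F) =
        w {c} * (E O : F) - (ρ c - r O) * (E O : F) := by
      rw [h1]
      ring
    rw [h3]
    exact O.sub_mem h2 (hρ c O hO hc)
  · refine ⟨0, fun O hO => ?_⟩
    obtain ⟨c, -⟩ := hz.cov O hO
    exact absurd ⟨c⟩ hKe

end Pool.Agent.KM
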