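import Pool.Agent.Lib.MP_732f67_ag.N.CarA
import Pool.Agent.Lib.MP_732f67_ag.N.LiH
import Pool.Agent.Lib.MP_732f67_ag.G.VA3

/-!
Part N: lifting of sections from a disjoint union of prime divisors.
-/

namespace Pool.Agent.KM

variable {F : Type} [Field F] [Algebra ℂ F] {Y : Set (Subalgebra ℂ F)}
  {D E : Subalgebra ℂ F → Fˣ}

private theorem lil_mx {O : Subalgebra ℂ F} [IsLocalRing O] {x : F} :
    x ∈ va3_mx O ↔ x ∈ O ∧ ¬ Un O x := by
  constructor
  · rintro ⟨h, h'⟩
    rw [IsLocalRing.mem_maximalIdeal, mem_nonunits_iff, pt_isUnit_iff] at h'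
    exact ⟨h, fun hu => h' ⟨hu.1, hu.2.2⟩⟩
  · rintro ⟨h, h'⟩
    refine ⟨h, ?_⟩
    rw [IsLocalRing.mem_maximalIdeal, mem_nonunits_iff, pt_isUnit_iff]
    exact fun hu => h' ⟨hu.1, h, hu.2⟩

/-- The prime divisors `P c` are disjoint and `Bt` is the local equation of their sum. The residues of
the `g c` are sections of `E` over the `P c`.

PROOF. For `O ≤ P c` let `r O = h / E O` with `h ∈ O`, `g c * E O - h` not a unit of `P c`; otherwise
`r O = 0`. `r` is locally constant modulo `E / Bt`: let `O ∈ Y`, `O ≤ P c`, `O' ∈ Y` near `O`; `O'` is on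
no other `P c'` (an element of `O` not in `P c'` belongs to `O'`). If `O' ≤ P c`:
`h * (E O' / E O) - h' ∈ O'` is not a unit of `P c`, so it is divisible by `Bt O'`. If not: `Bt O'` is a
unit, `r O' = 0`, `h * (E O' / E O) ∈ O'`. `H1` gives `f`. -/
theorem lift {C : Type} [Finite C] {P : C → Subalgebra ℂ F} (hP : ∀ c, P c ∈ Y ∧ PrimDiv (P c))
    (hdis : ∀ c c', c ≠ c' → ∀ O ∈ Y, O ≤ P c → ¬ O ≤ P c') {Bt : Subalgebra ℂ F → Fˣ}
    (hBt : IsCar Y Bt) (hB1 : ∀ O ∈ Y, (∀ c, ¬ O ≤ P c) → Un O (Bt O))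
    (hB2 : ∀ O ∈ Y, ∀ c, O ≤ P c → (Bt O : F) ∈ O ∧ ∀ x ∈ O, ¬ Un (P c) x → x / Bt O ∈ O)
    (hB3 : ∀ c, ¬ Un (P c) (Bt (P c) : F))
    (hE : IsCar Y E) (hE' : ∀ c, Un (P c) (E (P c))) (h1 : H1 Y (E / Bt)) {g : C → F}
    (hg : ∀ c, ∀ O ∈ Y, O ≤ P c → ∃ h ∈ O, g c * E O - h ∈ P c ∧ ¬ Un (P c) (g c * E O - h)) :
    ∃ f ∈ Sec Y E, ∀ c, f - g c ∈ P c ∧ ¬ Un (P c) (f - g c) := by
  classical
  have hloc : ∀ c, IsLocalRing (P c) := by
    intro c
    obtain ⟨_, _, A, _, hA⟩ := (hP c).2
    exact hA.isLocalRing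
  -- the chosen functions
  have hsel : ∀ O : Subalgebra ℂ F, ∃ r : F,
      (∀ c, O ∈ Y → O ≤ P c → r * E O ∈ O ∧ g c * E O - r * E O ∈ va3_mx (P c)) ∧
      ((∀ c, ¬ O ≤ P c) → r = 0) := by
    intro O
    by_cases hO : O ∈ Y ∧ ∃ c, O ≤ P c
    · obtain ⟨hO, c, hc⟩ := hO
      obtain ⟨h, hh, hh1, hh2⟩ := hg c O hO hc
      have hE0 : (E O : F) ≠ 0 := (E O).ne_zero
      refine ⟨h / E O, fun c' _ hc' => ?_, fun hno => absurd hc (hno c)⟩
      have hcc : c = c' := by
        by_contra hne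
        exact hdis c c' hne O hO hc hc'
      subst hcc
      rw [div_mul_cancel₀ _ hE0]
      exact ⟨hh, lil_mx.2 ⟨hh1, hh2⟩⟩
    · push Not at hO
      exact ⟨0, fun c hOY hc => absurd hc (hO hOY c), fun _ => rfl⟩
  choose r hr1 hr2 using hsel
  have hEB : ∀ O, (((E / Bt) O : Fˣ) : F) = (E O : F) / Bt O := by
    intro O
    rw [Pi.div_apply, Units.val_div_eq_div_val]
  have key := h1 r (by
    intro O hO
    obtain ⟨S0, hS0, hS0'⟩ := hE O hO
    -- elements of `O` which are not in the `P c` not containing `O`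
    have hsep : ∀ c, ∃ s : F, s ∈ O ∧ (¬ O ≤ P c → s ∉ P c) := by
      intro c
      by_cases hc : O ≤ P c
      · exact ⟨0, O.zero_mem, fun h => absurd hc h⟩
      · obtain ⟨s, hs, hs'⟩ := SetLike.not_le_iff_exists.1 hc
        exact ⟨s, hs, fun _ => hs'⟩
    choose s hs hs' using hsep
    have hfin : (Set.range s).Finite := Set.finite_range s
    by_cases hOc : ∃ c, O ≤ P c
    · obtain ⟨c, hc⟩ := hOc
      refine ⟨insert (r O * E O) (S0 ∪ hfin.toFinset), ?_, ?_⟩
      · intro x hx
        rw [Finset.mem_insert, Finset.mem_union, Set.Finite.mem_toFinset] at hx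
        rcases hx with rfl | hx | ⟨c', rfl⟩
        · exact (hr1 O c hO hc).1
        · exact hS0 x hx
        · exact hs c'
      · intro O' hO' hsub
        have hh : r O * E O ∈ O' := hsub _ (Finset.mem_insert_self _ _)
        have hu : Un O' (E O / E O' : Fˣ) :=
          hS0' O' hO' fun x hx => hsub x (Finset.mem_insert_of_mem (Finset.mem_union_left _ hx))
        rw [Units.val_div_eq_div_val] at hu
        have hEO : (E O : F) ≠ 0 := (E O).ne_zero
        have hEO' : (E O' : F) ≠ 0 := (E O').ne_zero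
        have hu' : (E O' : F) / E O ∈ O' := by
          have := hu.2.2
          rwa [inv_div] at this
        have hB0 : (Bt O' : F) ≠ 0 := (Bt O').ne_zero
        have hother : ∀ c', c' ≠ c → ¬ O' ≤ P c' := by
          intro c' hc' hle
          have h2 : ¬ O ≤ P c' := hdis c c' (Ne.symm hc') O hO hc
          exact hs' c' h2 (hle (hsub _ (Finset.mem_insert_of_mem (Finset.mem_union_right _
            (by rw [Set.Finite.mem_toFinset]; exact ⟨c', rfl⟩)))))
        by_cases hc' : O' ≤ P c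
        · have := hloc c
          have h3 : (r O * E O) * ((E O' : F) / E O) - r O' * E O' ∈ O' :=
            O'.sub_mem (O'.mul_mem hh hu') (hr1 O' c hO' hc').1
          have h4 : (r O * E O) * ((E O' : F) / E O) - r O' * E O' ∈ va3_mx (P c) := by
            have h5 : (r O * E O) * ((E O' : F) / E O) - r O' * E O'
                = (g c * E O' - r O' * E O') - (g c * E O - r O * E O) * ((E O' : F) / E O) := by
              field_simp
              ring
            rw [h5]
            exact Submodule.sub_mem _ (hr1 O' c hO' hc').2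
              (va3_mx_mul (hr1 O c hO hc).2 (hc' hu'))
          have h6 := (hB2 O' hO' c hc').2 _ h3 (lil_mx.1 h4).2
          have h7 : (r O - r O') * (((E / Bt) O' : Fˣ) : F)
              = ((r O * E O) * ((E O' : F) / E O) - r O' * E O') / Bt O' := by
            rw [hEB]
            field_simp
          rw [h7]
          exact h6
        · have hnone : ∀ c', ¬ O' ≤ P c' := by
            intro c'
            by_cases hcc : c' = c
            · subst hcc; exact hc'
            · exact hother c' hcc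
          have hB := hB1 O' hO' hnone
          have h7 : (r O - r O') * (((E / Bt) O' : Fˣ) : F)
              = (r O * E O) * ((E O' : F) / E O) * (Bt O' : F)⁻¹ := by
            rw [hEB, hr2 O' hnone, sub_zero]
            field_simp
          rw [h7]
          exact O'.mul_mem (O'.mul_mem hh hu') hB.2.2
    · push Not at hOc
      refine ⟨hfin.toFinset, ?_, ?_⟩
      · intro x hx
        rw [Set.Finite.mem_toFinset] at hx
        obtain ⟨c', rfl⟩ := hx
        exact hs c'
      · intro O' hO' hsub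
        have hnone : ∀ c', ¬ O' ≤ P c' := by
          intro c' hle
          exact hs' c' (hOc c') (hle (hsub _ (by rw [Set.Finite.mem_toFinset]; exact ⟨c', rfl⟩)))
        rw [hr2 O hOc, hr2 O' hnone, sub_zero, zero_mul]
        exact O'.zero_mem)
  obtain ⟨f, hf⟩ := key
  have hf' : ∀ O ∈ Y, ∃ t ∈ O, (r O - f) * E O = t * Bt O := by
    intro O hO
    refine ⟨_, hf O hO, ?_⟩
    rw [hEB]
    have hB0 : (Bt O : F) ≠ 0 := (Bt O).ne_zero
    field_simp
  refine ⟨f, fun O hO => ?_, fun c => ?_⟩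
  · obtain ⟨t, ht, ht'⟩ := hf' O hO
    have h2 : f * E O = r O * E O - t * Bt O := by
      rw [← ht']
      ring
    rw [h2]
    by_cases hOc : ∃ c, O ≤ P c
    · obtain ⟨c, hc⟩ := hOc
      exact O.sub_mem (hr1 O c hO hc).1 (O.mul_mem ht (hB2 O hO c hc).1)
    · push Not at hOc
      rw [hr2 O hOc, zero_mul]
      exact O.sub_mem O.zero_mem (O.mul_mem ht (hB1 O hO hOc).2.1)
  · have := hloc c
    obtain ⟨t, ht, ht'⟩ := hf' (P c) (hP c).1
    have hB : (Bt (P c) : F) ∈ va3_mx (P c) := lil_mx.2 ⟨(hB2 _ (hP c).1 c le_rfl).1, hB3 c⟩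
    have hE0 : (E (P c) : F) ≠ 0 := (E (P c)).ne_zero
    have h2 : f - g c = -((g c * E (P c) - r (P c) * E (P c)) + (Bt (P c) : F) * t) * (E (P c) : F)⁻¹ := by
      have h3 : (Bt (P c) : F) * t = (r (P c) - f) * E (P c) := by rw [ht', mul_comm]
      rw [h3]
      field_simp
      ring
    rw [← lil_mx, h2]
    exact va3_mx_mul (Submodule.neg_mem _ (Submodule.add_mem _ (hr1 (P c) c (hP c).1 le_rfl).2
      (va3_mx_mul hB ht))) (hE' c).2.2

end Pool.Agent.KM
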