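import Pool.Agent.Lib.MP_732f67_ag.N.GrpB
import Pool.Agent.Lib.MP_732f67_ag.N.LogA
import Pool.Agent.Lib.MP_732f67_ag.N.LogB
import Pool.Agent.Lib.MP_732f67_ag.N.MdE
import Pool.Agent.Lib.MP_732f67_ag.N.MdP
import Pool.Agent.Lib.MP_732f67_ag.N.MdA
import Pool.Agent.Lib.MP_732f67_ag.N.MdX

/-!
Part N: Galois models, the log discrepancies of the boundary divisors, descent of sections.
-/

namespace Pool.Agent.KM

namespace GMod

variable {F : Type} [Field F] [Algebra ℂ F] {d : ℕ} {Y : Set (Subalgebra ℂ F)}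
  {G : Subgroup (F ≃ₐ[ℂ] F)} {Δ : Fin d → Derivation ℂ F F} {Φ : Finset F}
  {H : Subalgebra ℂ F → Fˣ} (M : GMod d Y G Δ Φ H)

variable {m : ℕ} {ν : Subalgebra ℂ F → Fˣ}

/-- Descent of sections.

PROOF. Let `O ∈ Y` be a prime divisor, `O' ∈ Y'` a prime divisor over it (`exists_over_prim`),
`O = O'.comap i`, `r` the ramification index. `LD M.Δ' m O' (i (ν O)) = r * LD Δ m O (ν O)` (`LD_ram`). If
`O' = P j` then `oD O' (i (f * E O)) + g j ≥ 0` and `g j < ad j`. If `O'` is outside the boundary then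
`oD O' (i (f * E O)) ≥ 0` and the log discrepancy is `1` (`ad_exp`, `Snc.oF_eq`). -/
theorem ls_of (hY : Base d Y G Δ) (hm : 1 ≤ m) (hν : IsCar Y ν)
    (hΦ : ∀ O ∈ Y, ∃ t ∈ Φ, Un O ((ν O : F) / t)) {E : Subalgebra ℂ F → Fˣ} (hE : IsCar Y E)
    {f : F} (hf0 : f ≠ 0) {g : M.J → ℤ} (hg : ∀ j, (g j : ℚ) < M.ad m ν j)
    (hf : M.i f ∈ Sec M.Y' (pb M.i Y E * ∏ j, M.B j ^ g j)) : LS Y Δ m ν E f := by
  classical
  intro O hO hp
  have hmor : Mor M.i Y M.Y' := M.mor hY.proj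
  obtain ⟨O', hO', hp', hd⟩ := exists_over_prim hmor M.base.normal hO hp
  have he : O = O'.comap M.i := by
    refine le_antisymm hd.le_comap.1 fun x hx => ?_
    by_cases hx0 : x = 0
    · rw [hx0]
      exact O.zero_mem
    by_contra hxO
    have h1 : x⁻¹ ∈ O := by
      rw [← oD_nonneg hp (inv_ne_zero hx0), oD_inv hp hx0]
      rw [← oD_nonneg hp hx0] at hxO
      omega
    have h2 := hd.2 x⁻¹ h1 (by
      rw [map_inv₀, inv_inv]
      exact hx)
    rw [inv_inv] at h2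
    exact hxO h2
  have hp2 : PrimDiv (O'.comap M.i) := by
    rw [← he]
    exact hp
  obtain ⟨r, hr1, hr⟩ := exists_ram hp' hp2
  have hLD := LD_ram M.fin hY.dim hY.frame M.der hp' hp2 hr m (ν O).ne_zero
  rw [← he] at hLD hr
  have hcen : cen M.i Y O' = O := cen_eq_of hY.proj hO hd
  have hpb : ∀ D : Subalgebra ℂ F → Fˣ, (pb M.i Y D O' : M.F') = M.i (D O) := fun D => by
    rw [pb_val, hcen]
  have hx0 : f * E O ≠ 0 := mul_ne_zero hf0 (E O).ne_zero
  have hx1 : M.i (f * E O) ≠ 0 := (map_ne_zero M.i).2 hx0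
  have hB0 : ∀ j, (M.B j O' : M.F') ^ g j ≠ 0 := fun j => zpow_ne_zero _ (M.B j O').ne_zero
  have hprod : (∏ j, (M.B j O' : M.F') ^ g j) ≠ 0 := Finset.prod_ne_zero_iff.2 fun j _ => hB0 j
  have h1 : M.i (f * E O) * ∏ j, (M.B j O' : M.F') ^ g j ∈ O' := by
    have h2 := hf O' hO'
    rw [Pi.mul_apply, Units.val_mul, hpb, ← mul_assoc, ← map_mul, Finset.prod_apply,
      Units.coe_prod] at h2
    have e : ∀ j, ((M.B j ^ g j) O' : M.F') = (M.B j O' : M.F') ^ g j := fun j => by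
      rw [Pi.pow_apply, Units.val_zpow_eq_zpow_val]
    rwa [Finset.prod_congr rfl fun j _ => e j] at h2
  rw [← oD_nonneg hp' (mul_ne_zero hx1 hprod), oD_mul hp' hx1 hprod,
    oD_prod hp' _ fun j _ => hB0 j] at h1
  have h2 : ∀ j, oD O' ((M.B j O' : M.F') ^ g j) = g j * oD O' (M.B j O') := fun j =>
    oD_zpow hp' (M.B j O').ne_zero _
  rw [Finset.sum_congr rfl fun j _ => h2 j] at h1
  have key : 0 < (oD O' (M.i (f * E O)) : ℚ) + LD M.Δ' m O' (M.i (ν O)) := by
    rcases M.prim_cases hO' hp' with ⟨j, hj⟩ | hu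
    · have h3 : ∑ j', g j' * oD O' (M.B j' O') = g j := by
        rw [Finset.sum_eq_single j]
        · rw [oD_unif hp' ((M.bd.eqn j O' hO' hp').1 hj), mul_one]
        · intro j' _ hj'
          have h4 : O' ≠ M.P j' := fun h5 => hj' (M.bd.inj (h5.symm.trans hj))
          rw [(oD_zero hp' (M.B j' O').ne_zero).2 ((M.bd.eqn j' O' hO' hp').2 h4), mul_zero]
        · intro h
          exact absurd (Finset.mem_univ j) h
      rw [h3] at h1
      have h4 := hg j
      have h5 : M.ad m ν j = LD M.Δ' m O' (M.i (ν O)) := by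
        rw [GMod.ad, ← hj, hpb]
      rw [h5] at h4
      have h6 : (0 : ℚ) ≤ (oD O' (M.i (f * E O)) : ℚ) + g j := by exact_mod_cast h1
      linarith
    · have h3 : ∑ j', g j' * oD O' (M.B j' O') = 0 := Finset.sum_eq_zero fun j' _ => by
        rw [(oD_zero hp' (M.B j' O').ne_zero).2 (hu j'), mul_zero]
      rw [h3, add_zero] at h1
      have h4 : LD M.Δ' m O' (M.i (ν O)) = 1 := by
        have h5 := M.pb_un hY.proj hΦ hO' hu
        rw [hpb] at h5
        rw [LD, M.snc.oF_eq hO' hp', (oD_zero hp' (M.κ O').ne_zero).2 (M.can O' hO' hu),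
          (oD_zero hp' h5.1).2 h5]
        simp
      rw [h4]
      have h6 : (0 : ℚ) ≤ (oD O' (M.i (f * E O)) : ℚ) := by exact_mod_cast h1
      linarith
  rw [hLD, hr _ hx0] at key
  push_cast at key
  rw [← mul_add] at key
  exact (mul_pos_iff_of_pos_left (by exact_mod_cast hr1)).1 key

end GMod

end Pool.Agent.KM
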