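import Pool.Agent.Lib.MP_732f67_ag.N.AmpB
import Pool.Agent.Lib.MP_732f67_ag.N.NefA
import Pool.Agent.Lib.MP_732f67_ag.N.OrdA
import Pool.Agent.Lib.MP_732f67_ag.N.NbN

/-!
Part N: growth of the number of sections, and the first half of the dichotomy for nef divisors.
-/

namespace Pool.Agent.KM

variable {F : Type} [Field F] [Algebra ℂ F] {Y : Set (Subalgebra ℂ F)}
  {D E H : Subalgebra ℂ F → Fˣ} {d : ℕ}

private theorem nug_hom {ι : Type*} [Fintype ι] {P : MvPolynomial ι ℂ} {M : ℕ}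
    (hP : P.IsHomogeneous M) (c : F) (x : ι → F) :
    MvPolynomial.aeval (fun i => c * x i) P = c ^ M * MvPolynomial.aeval x P := by
  rw [MvPolynomial.aeval_def, MvPolynomial.aeval_def, MvPolynomial.eval₂_eq',
    MvPolynomial.eval₂_eq', Finset.mul_sum]
  refine Finset.sum_congr rfl fun m hm => ?_
  have h1 : ∑ i, m i = M := by
    by_contra h
    exact MvPolynomial.mem_support_iff.1 hm (hP.coeff_eq_zero (by rwa [Finsupp.degree_eq_sum]))
  simp_rw [mul_pow]
  rw [Finset.prod_mul_distrib, Finset.prod_pow_eq_pow_sum, h1]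
  ring

private theorem nug_aeval_mem {ι : Type*} {A : Subalgebra ℂ F} {x : ι → F} (hx : ∀ i, x i ∈ A)
    (P : MvPolynomial ι ℂ) : MvPolynomial.aeval x P ∈ A := by
  have h1 : Algebra.adjoin ℂ (Set.range x) ≤ A := by
    refine Algebra.adjoin_le ?_
    rintro _ ⟨i, rfl⟩
    exact hx i
  refine h1 ?_
  rw [Algebra.adjoin_range_eq_range_aeval]
  exact ⟨P, rfl⟩

private theorem nug_sec {ι : Type*} [Fintype ι] {y : ι → F} (hy : ∀ l, y l ∈ Sec Y E) {M : ℕ}
    {P : MvPolynomial ι ℂ} (hP : P.IsHomogeneous M) :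
    MvPolynomial.aeval y P ∈ Sec Y (E ^ M) := by
  intro O hO
  have h1 : MvPolynomial.aeval (fun i => (E O : F) * y i) P ∈ O :=
    nug_aeval_mem (fun i => by rw [mul_comm]; exact hy i O hO) P
  rw [nug_hom hP] at h1
  rw [Pi.pow_apply, Units.val_pow_eq_pow_val, mul_comm]
  exact h1

/-- the exponents of the monomials of degree `d * k` -/
private noncomputable def nug_e (d k : ℕ) (a : Fin d → Fin (k + 1)) : Fin (d + 1) →₀ ℕ :=
  Finsupp.equivFunOnFinite.symm (Fin.cons (d * k - ∑ i, (a i : ℕ)) fun i => (a i : ℕ))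

private theorem nug_e_deg (d k : ℕ) (a : Fin d → Fin (k + 1)) :
    (nug_e d k a).degree = d * k := by
  rw [Finsupp.degree_eq_sum, Fin.sum_univ_succ]
  have h1 : nug_e d k a 0 = d * k - ∑ i, (a i : ℕ) := rfl
  have h2 : ∀ i : Fin d, nug_e d k a i.succ = (a i : ℕ) := fun i => rfl
  simp only [h1, h2]
  have h3 : ∑ i, (a i : ℕ) ≤ d * k := by
    calc ∑ i, (a i : ℕ) ≤ ∑ _i : Fin d, k := Finset.sum_le_sum fun i _ => by
          have := (a i).2
          omega
      _ = d * k := by simp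
  omega

private theorem nug_e_inj (d k : ℕ) : Function.Injective (nug_e d k) := by
  intro a b h
  funext i
  have h1 : nug_e d k a i.succ = nug_e d k b i.succ := by rw [h]
  exact Fin.ext h1

private theorem nug_ind {y : Fin (d + 1) → F}
    (hi : ∀ (N : ℕ) (P : MvPolynomial (Fin (d + 1)) ℂ), P.IsHomogeneous N →
      MvPolynomial.aeval y P = 0 → P = 0) (hy : ∀ l, y l ∈ Sec Y E) (k : ℕ) {g : F}
    (hg : g ∈ Sec Y D) (hg0 : g ≠ 0) [Module.Finite ℂ (Sec Y (D * E ^ (d * k)))] :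
    (k + 1) ^ d ≤ Module.finrank ℂ (Sec Y (D * E ^ (d * k))) := by
  classical
  have hhom : ∀ a : Fin d → Fin (k + 1),
      (MvPolynomial.monomial (nug_e d k a) (1 : ℂ)).IsHomogeneous (d * k) := fun a =>
    MvPolynomial.isHomogeneous_monomial _ (nug_e_deg d k a)
  let v : (Fin d → Fin (k + 1)) → Sec Y (D * E ^ (d * k)) := fun a =>
    ⟨g * MvPolynomial.aeval y (MvPolynomial.monomial (nug_e d k a) (1 : ℂ)),
      sec_mul hg (nug_sec hy (hhom a))⟩
  have hv : LinearIndependent ℂ v := by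
    rw [Fintype.linearIndependent_iff]
    intro c hc
    have h1 : g * MvPolynomial.aeval y
        (∑ a, c a • MvPolynomial.monomial (nug_e d k a) (1 : ℂ)) = 0 := by
      have h2 := congrArg (Submodule.subtype _) hc
      rw [map_sum, map_zero] at h2
      rw [map_sum, Finset.mul_sum, ← h2]
      refine Finset.sum_congr rfl fun a _ => ?_
      rw [map_smul, map_smul]
      change g * (c a • _) = c a • (g * _)
      rw [mul_smul_comm]
    have h2 : (∑ a, c a • MvPolynomial.monomial (nug_e d k a) (1 : ℂ)) = 0 := by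
      refine hi (d * k) _ ?_ ((mul_eq_zero.1 h1).resolve_left hg0)
      refine MvPolynomial.IsHomogeneous.sum _ _ _ fun a _ => ?_
      rw [MvPolynomial.smul_eq_C_mul]
      exact (hhom a).C_mul _
    intro a
    have h3 := congrArg (MvPolynomial.coeff (nug_e d k a)) h2
    rw [MvPolynomial.coeff_sum, MvPolynomial.coeff_zero, Finset.sum_eq_single a] at h3
    · rw [MvPolynomial.coeff_smul, MvPolynomial.coeff_monomial, if_pos rfl, smul_eq_mul,
        mul_one] at h3
      exact h3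
    · intro b _ hb
      rw [MvPolynomial.coeff_smul, MvPolynomial.coeff_monomial,
        if_neg (fun h => hb (nug_e_inj d k h)), smul_zero]
    · intro h
      exact absurd (Finset.mem_univ a) h
  have h1 := hv.fintype_card_le_finrank
  simpa using h1

/-- PROOF. `VA Y (H ^ n) V`, `v ∈ V` not zero; `F` is generated by the `w / v`, `w ∈ V`, so it has a
transcendence basis `v l / v`, `l < d`, `v l ∈ V`. The monomials of degree `q` in `v` and the `v l` are
linearly independent sections of `H ^ (n q)`, their number is at least `q ^ d / d!`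
(`choose (q + d) d`). For `M = n q + r` multiply by a non-zero section of `H ^ (n q₀ + r)` (`serre`; `q₀`
fixed): at least `choose (q - q₀ + d) d` sections. -/
theorem growth (hY : IsProj Y) (hd : Algebra.trdeg ℂ F = d) (hH : IsCar Y H) (hA : Amp Y H) :
    ∃ c : ℚ, 0 < c ∧ ∃ M₀ : ℕ, ∀ M : ℕ, M₀ ≤ M →
      c * (M : ℚ) ^ d ≤ Module.finrank ℂ (Sec Y (H ^ M)) := by
  obtain ⟨n, hn, V, y, hN⟩ := exists_noe hY hd hA
  obtain ⟨m₀, hm₀⟩ := serre hY hH hA hH
  obtain ⟨O₀, hO₀⟩ := hY.nonempty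
  have hyS : ∀ l, y l ∈ Sec Y (H ^ n) := fun l => hN.va.sec (hN.mem l).1
  have hne : ∀ m, m₀ + 1 ≤ m → ∃ g ∈ Sec Y (H ^ m), g ≠ 0 := by
    intro m hm
    obtain ⟨W, hW⟩ := hm₀ (m - 1) (by omega)
    obtain ⟨f, hf, hu⟩ := hW.gen O₀ hO₀
    refine ⟨f, ?_, left_ne_zero_of_mul hu.1⟩
    have h1 := hW.sec hf
    rwa [← pow_succ, Nat.sub_add_cancel (by omega)] at h1
  set s : ℕ := n * d + 1 with hs
  refine ⟨(1 / (2 * s : ℚ)) ^ d, by positivity, 2 * (m₀ + 1), fun M hM => ?_⟩
  set k : ℕ := (M - (m₀ + 1)) / s with hk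
  have hk1 : s * k ≤ M - (m₀ + 1) := Nat.mul_div_le _ _
  have hk2 : M - (m₀ + 1) < s * (k + 1) := by
    have := Nat.lt_mul_div_succ (M - (m₀ + 1)) (show 0 < s by omega)
    exact this
  have hk3 : n * (d * k) ≤ M - (m₀ + 1) := by
    have h1 : n * (d * k) ≤ s * k := by
      rw [hs]
      nlinarith
    omega
  obtain ⟨g, hg, hg0⟩ := hne (M - n * (d * k)) (by omega)
  have hfin : Module.Finite ℂ (Sec Y (H ^ (M - n * (d * k)) * (H ^ n) ^ (d * k))) :=
    fin_sec hY (car_mul (car_pow hH _) (car_pow (car_pow hH _) _))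
  have h1 := nug_ind (E := H ^ n) hN.ind hyS k hg hg0
  have h2 : H ^ (M - n * (d * k)) * (H ^ n) ^ (d * k) = H ^ M := by
    rw [← pow_mul, ← pow_add]
    congr 1
    omega
  rw [h2] at h1
  have h3 : (M : ℚ) / (2 * s) ≤ k + 1 := by
    rw [div_le_iff₀ (by positivity)]
    have h4 : M ≤ 2 * (s * (k + 1)) := by omega
    have h5 : (M : ℚ) ≤ ((2 * (s * (k + 1)) : ℕ) : ℚ) := by exact_mod_cast h4
    push_cast at h5 ⊢
    linarith
  calc (1 / (2 * s : ℚ)) ^ d * (M : ℚ) ^ d = ((M : ℚ) / (2 * s)) ^ d := by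
        rw [← mul_pow]
        congr 1
        ring
    _ ≤ ((k : ℚ) + 1) ^ d := by gcongr
    _ ≤ Module.finrank ℂ (Sec Y (H ^ M)) := by exact_mod_cast h1

end Pool.Agent.KM
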