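import Pool.Agent.Lib.MP_732f67_ag.N.AmpB
import Pool.Agent.Lib.MP_732f67_ag.N.NefA
import Pool.Agent.Lib.MP_732f67_ag.N.OrdA
import Pool.Agent.Lib.MP_732f67_ag.N.NuG

/-!
Part N: growth of the number of sections, and the first half of the dichotomy for nef divisors.
-/

namespace Pool.Agent.KM

variable {F : Type} [Field F] [Algebra ℂ F] {Y : Set (Subalgebra ℂ F)}
  {D E H : Subalgebra ℂ F → Fˣ} {d : ℕ}

/-- a nonzero element of the prime ideal of a prime divisor: the ideal is minimal over it -/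
private theorem nuS_min {A O : Subalgebra ℂ F} (hO : PrimDiv O) {P : Ideal A} (hP : P.IsPrime)
    (hl : ∀ x : F, x ∈ O ↔ ∃ a b : A, b ∉ P ∧ x = a / b) {a : A} (ha : a ∈ P)
    (ha0 : (a : F) ≠ 0) : P ∈ (Ideal.span {a}).minimalPrimes := by
  have hne : ∀ b : A, b ∉ P → (b : F) ≠ 0 := fun b hb h0 => hb (by
    have h1 : b = 0 := Subtype.ext h0
    rw [h1]
    exact P.zero_mem)
  have hAO : ∀ b : A, (b : F) ∈ O := fun b => (hl b).2 ⟨b, 1, fun h => hP.ne_top
    ((Ideal.eq_top_iff_one P).2 h), by simp⟩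
  refine ⟨⟨hP, (Ideal.span_singleton_le_iff_mem P).2 ha⟩, ?_⟩
  rintro Q ⟨hQ, hQa⟩ hQP p hp
  rw [Ideal.span_singleton_le_iff_mem] at hQa
  by_cases hp0 : (p : F) = 0
  · have h1 : p = 0 := Subtype.ext hp0
    rw [h1]
    exact Q.zero_mem
  -- `p` is not a unit of `O`
  have hpu : ¬ Un O (p : F) := by
    rintro ⟨-, -, h2⟩
    obtain ⟨x, y, hy, hxy⟩ := (hl _).1 h2
    apply hy
    have h3 : y = p * x := by
      apply Subtype.ext
      have hy0 := hne y hy
      show (y : F) = (p : F) * (x : F)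
      have h4 : (p : F) * (p : F)⁻¹ = 1 := mul_inv_cancel₀ hp0
      rw [hxy] at h4
      field_simp at h4
      exact h4.symm
    rw [h3]
    exact P.mul_mem_right _ hp
  have hp1 : 1 ≤ oD O (p : F) := by
    have h1 := (oD_nonneg hO hp0).2 (hAO p)
    have h2 : oD O (p : F) ≠ 0 := fun h => hpu ((oD_zero hO hp0).1 h)
    omega
  obtain ⟨n, hn⟩ : ∃ n : ℕ, (n : ℤ) = oD O (a : F) :=
    Int.eq_ofNat_of_zero_le ((oD_nonneg hO ha0).2 (hAO a)) |>.imp fun _ h => h.symm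
  have hmem : (p : F) ^ n / a ∈ O := by
    refine (oD_nonneg hO (div_ne_zero (pow_ne_zero n hp0) ha0)).1 ?_
    rw [oD_div hO (pow_ne_zero n hp0) ha0, oD_pow hO hp0, ← hn]
    nlinarith
  obtain ⟨x, y, hy, hxy⟩ := (hl _).1 hmem
  have hy0 := hne y hy
  have h3 : y * p ^ n = a * x := by
    apply Subtype.ext
    show (y : F) * (p : F) ^ n = (a : F) * (x : F)
    rw [div_eq_div_iff ha0 hy0] at hxy
    linear_combination hxy
  have h4 : y * p ^ n ∈ Q := by
    rw [h3]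
    exact Q.mul_mem_right _ hQa
  rcases hQ.mem_or_mem h4 with h5 | h5
  · exact absurd (hQP h5) hy
  · exact hQ.mem_of_pow_mem n h5

/-- the affine case -/
private theorem nuS_aff {A : Subalgebra ℂ F} (hA : A.FG) (hfr : FracEq A) {g : F} (hg : g ≠ 0) :
    {O | PrimDiv O ∧ LocAt A O ∧ ¬ Un O g}.Finite := by
  have hN : IsNoetherianRing A := isNoetherianRing_of_fg hA
  obtain ⟨a, b, hb, hab⟩ := hfr g
  have ha : (a : F) ≠ 0 := by
    intro h
    rw [h, zero_div] at hab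
    exact hg hab
  have hfin : ((Ideal.span {a}).minimalPrimes ∪ (Ideal.span {b}).minimalPrimes).Finite :=
    (Ideal.finite_minimalPrimes_of_isNoetherianRing A _).union
      (Ideal.finite_minimalPrimes_of_isNoetherianRing A _)
  refine (hfin.biUnion (t := fun P => {O : Subalgebra ℂ F | ∀ x : F, x ∈ O ↔
    ∃ a b : A, b ∉ P ∧ x = a / b}) fun P _ => ?_).subset ?_
  · refine Set.Subsingleton.finite fun O hO O' hO' => ?_
    ext x
    rw [hO x, hO' x]
  · rintro O ⟨hOp, ⟨P, hP, hl⟩, hu⟩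
    rw [Set.mem_iUnion₂]
    refine ⟨P, ?_, hl⟩
    by_contra hcon
    rw [Set.mem_union, not_or] at hcon
    have h1 : a ∉ P := fun h => hcon.1 (nuS_min hOp hP hl h ha)
    have h2 : b ∉ P := fun h => hcon.2 (nuS_min hOp hP hl h hb)
    apply hu
    rw [hab]
    refine ⟨div_ne_zero ha hb, (hl _).2 ⟨a, b, h2, rfl⟩, (hl _).2 ⟨b, a, h1, ?_⟩⟩
    rw [inv_div]

/-- A section has finitely many zeros which are prime divisors.

PROOF. Finitely many local equations `t` of `D` (`car_fin`) and finitely many charts `A = cht V v`,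
finitely generated. If `O` is the local ring of `A` at `q`, a prime ideal of height one, and
`f t = a / b`, `a`, `b ∈ A`, is not a unit of `O` then `q` is a minimal prime over `(a)` or over `(b)`. -/
theorem fin_supp (hY : IsProj Y) (hD : IsCar Y D) {f : F} (hf : f ≠ 0) :
    {O | O ∈ Y ∧ PrimDiv O ∧ ¬ Un O (f * D O)}.Finite := by
  classical
  obtain ⟨T, hT0, hT⟩ := car_fin hY hD
  -- finitely many charts
  obtain ⟨𝒜, h𝒜, h1, h2⟩ : ∃ 𝒜 : Set (Subalgebra ℂ F), 𝒜.Finite ∧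
      (∀ A ∈ 𝒜, A.FG ∧ FracEq A) ∧ ∀ Q ∈ Y, ∃ A ∈ 𝒜, LocAt A Q := by
    have hY' := hY
    obtain ⟨V, hV, -, hfr, hYV⟩ := hY'
    have hv : ∀ O : Subalgebra ℂ F, ∃ v : F, O ∈ Y → v ∈ V ∧ v ≠ 0 ∧ LocAt (cht V v) O := by
      intro O
      by_cases hO : O ∈ Y
      · have hO1 := hO
        rw [hYV] at hO1
        obtain ⟨v, hv, hv0, hl⟩ := hO1
        exact ⟨v, fun _ => ⟨hv, hv0, hl⟩⟩
      · exact ⟨0, fun h => absurd h hO⟩
    choose v hv using hv
    have hS : ∀ O : Subalgebra ℂ F, ∃ S : Finset F,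
        Algebra.adjoin ℂ (S : Set F) = cht V (v O) := fun O => cht_fg hV (v O)
    choose S hS using hS
    obtain ⟨T, hTf, hTY, hT⟩ := va2_compact hY (fun O => (S O : Set F)) fun O hO =>
      ⟨(S O).finite_toSet, fun s hs => (hv O hO).2.2.le (by
        rw [← hS O]
        exact Algebra.subset_adjoin hs)⟩
    refine ⟨(fun O => cht V (v O)) '' T, hTf.image _, ?_, fun Q hQ => ?_⟩
    · rintro _ ⟨O, hO, rfl⟩
      exact ⟨cht_fg hV _, hfr _ (hv O (hTY hO)).1 (hv O (hTY hO)).2.1⟩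
    · obtain ⟨O, hO, hs⟩ := hT Q hQ
      refine ⟨_, ⟨O, hO, rfl⟩, ?_⟩
      rw [hYV] at hQ
      refine Pts.locAt hQ (hv O (hTY hO)).1 (hv O (hTY hO)).2.1 ?_
      rw [← hS O]
      exact Algebra.adjoin_le hs
  have h3 : (⋃ A ∈ 𝒜, ⋃ t ∈ (T : Set F), {O | PrimDiv O ∧ LocAt A O ∧ ¬ Un O (f * t)}).Finite :=
    h𝒜.biUnion fun A hA => T.finite_toSet.biUnion fun t ht =>
      nuS_aff (h1 A hA).1 (h1 A hA).2 (mul_ne_zero hf (hT0 t ht))
  refine h3.subset ?_
  rintro O ⟨hO, hOp, hu⟩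
  obtain ⟨A, hA, hl⟩ := h2 O hO
  obtain ⟨t, ht, htu⟩ := hT O hO
  rw [Set.mem_iUnion₂]
  refine ⟨A, hA, ?_⟩
  rw [Set.mem_iUnion₂]
  refine ⟨t, ht, hOp, hl, fun h => hu ?_⟩
  have h4 : f * (D O : F) = f * t * ((D O : F) / t) := by
    have := hT0 t ht
    field_simp
  rw [h4]
  exact h.mul htu

end Pool.Agent.KM
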