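import Pool.Agent.Lib.MP_732f67_ag.N.AmpB
import Pool.Agent.Lib.MP_732f67_ag.N.NefA
import Pool.Agent.Lib.MP_732f67_ag.N.OrdA
import Pool.Agent.Lib.MP_732f67_ag.N.NuG
import Pool.Agent.Lib.MP_732f67_ag.N.NuS

/-!
Part N: growth of the number of sections, and the first half of the dichotomy for nef divisors.
-/

namespace Pool.Agent.KM

variable {F : Type} [Field F] [Algebra ℂ F] {Y : Set (Subalgebra ℂ F)}
  {D E H : Subalgebra ℂ F → Fˣ} {d : ℕ}

/-- an index where the dimension jumps by little -/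
private theorem nuP_jump {I : ℕ} (hI : 1 ≤ I) (a : ℕ → ℕ) {B : ℚ} (ha : (a I : ℚ) ≤ B) :
    ∃ i < I, (I : ℚ) * ((a (i + 1) : ℚ) - a i) ≤ B := by
  by_contra h
  push Not at h
  have h1 : ∑ i ∈ Finset.range I, ((a (i + 1) : ℚ) - a i) = (a I : ℚ) - a 0 :=
    Finset.sum_range_sub (fun i => (a i : ℚ)) I
  have hne : (Finset.range I).Nonempty := Finset.nonempty_range_iff.2 (by omega)
  have h2 : ∑ _i ∈ Finset.range I, B < ∑ i ∈ Finset.range I, (I : ℚ) * ((a (i + 1) : ℚ) - a i) :=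
    Finset.sum_lt_sum_of_nonempty hne fun i hi => h i (Finset.mem_range.1 hi)
  rw [Finset.sum_const, Finset.card_range, nsmul_eq_mul, ← Finset.mul_sum, h1] at h2
  have hI0 : (0 : ℚ) < I := by exact_mod_cast hI
  have h3 := lt_of_mul_lt_mul_left h2 hI0.le
  have h4 : (0 : ℚ) ≤ a 0 := Nat.cast_nonneg _
  linarith

/-- two subspaces of large dimension meet -/
private theorem nuP_meet {P Q S : Submodule ℂ F} [Module.Finite ℂ S] (hP : P ≤ S) (hQ : Q ≤ S)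
    (h : Module.finrank ℂ S < Module.finrank ℂ P + Module.finrank ℂ Q) :
    ∃ x ∈ P, x ∈ Q ∧ x ≠ 0 := by
  have h1 : Module.Finite ℂ P := Submodule.finiteDimensional_of_le hP
  have h2 : Module.Finite ℂ Q := Submodule.finiteDimensional_of_le hQ
  have h3 := Submodule.finrank_sup_add_finrank_inf_eq P Q
  have h4 : Module.finrank ℂ (P ⊔ Q : Submodule ℂ F) ≤ Module.finrank ℂ S :=
    Submodule.finrank_mono (sup_le hP hQ)
  have h5 : P ⊓ Q ≠ ⊥ := by
    intro h6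
    rw [h6, finrank_bot] at h3
    omega
  obtain ⟨x, hx, hx0⟩ := Submodule.exists_mem_ne_zero_of_ne_bot h5
  exact ⟨x, hx.1, hx.2, hx0⟩

/-- multiplication by a non-zero function does not change the dimension -/
private theorem nuP_map (S : Submodule ℂ F) {t : F} (ht : t ≠ 0) :
    Module.finrank ℂ (S.map (LinearMap.mulLeft ℂ t)) = Module.finrank ℂ S := by
  have hi : Function.Injective (LinearMap.mulLeft ℂ t) := fun x y hxy => mul_left_cancel₀ ht hxy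
  exact (Submodule.equivMapOfInjective _ hi S).finrank_eq.symm

/-- The pigeon hole principle.

PROOF. `c`, `M₀` as in `growth`, `I` an integer with `C < c I`, `I ≥ 1`. Let `A = D ^ (r I) * H`, ample
(`hN`). Let `k'` be so large that `A ^ (k' j)` is base point free for `1 ≤ j ≤ I` (`serre` gives all
powers `≥ m₀`), and `k = I k' ≥ M₀`. Put `E i = D ^ (i r k) * H ^ (k + i k')`, `i ≤ I`, so
`E (i + 1) = E i * A ^ k'`, `E I = (D ^ (I r) * H ^ 2) ^ k`. `s ∈ Sec (A ^ k')` not zero; multiplication by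
`s` embeds `Sec (E i)` into `Sec (E (i + 1))`. `finrank (Sec (E I)) ≤ C k ^ d`, so there is `i < I` with
`I (finrank (Sec (E (i + 1))) - finrank (Sec (E i))) ≤ C k ^ d`. Let `T` be the set of the prime divisors
in `Y` where `s` is not a generator of `A ^ k'` (`fin_supp`), `t` a section of `A ^ (k' (i + 1))` which is a
generator at the elements of `T` (`avoid`). `t * Sec (H ^ k)` and `s * Sec (E i)` are
subspaces of `Sec (E (i + 1))` (`E (i + 1) = A ^ (k' (i + 1)) * H ^ k`) with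
`finrank (Sec (H ^ k)) ≥ c k ^ d > C k ^ d / I`: their intersection contains `t u = s w ≠ 0`. By
`sec_of_prim` the function `u / s` is a section of `H ^ k / A ^ k'`: at the elements of `T` use
`t u = s w`, elsewhere `s` is a generator. `f = (u / s) * h`, `h` a non-zero section of `H ^ k'`:
`H ^ k / A ^ k' * H ^ k' = (H / D ^ r) ^ k`, as `r I k' = r k`. -/
theorem pigeon (hY : IsProj Y) (hn : Normal Y) (hd : Algebra.trdeg ℂ F = d) (hD : IsCar Y D)
    (hN : Nf Y D) (hH : IsCar Y H) (hA : Amp Y H) {C : ℕ}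
    (hC : ∀ q k : ℕ, 1 ≤ k → Module.finrank ℂ (Sec Y ((D ^ q * H ^ 2) ^ k)) ≤ C * k ^ d)
    (r : ℕ) : ∃ k : ℕ, 1 ≤ k ∧ ∃ f : F, f ≠ 0 ∧ f ∈ Sec Y ((H / D ^ r) ^ k) := by
  classical
  obtain ⟨c, hc, M₀, hM₀⟩ := growth hY hd hH hA
  obtain ⟨I, hI⟩ := exists_nat_gt ((C : ℚ) / c)
  have hI0 : (0 : ℚ) < I := lt_of_le_of_lt (div_nonneg (Nat.cast_nonneg _) hc.le) hI
  have hI1 : 1 ≤ I := by
    have h1 : 0 < I := by exact_mod_cast hI0
    omega
  have hCI : (C : ℚ) < c * I := by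
    rw [div_lt_iff₀ hc] at hI
    linarith
  obtain ⟨A, hAd⟩ : ∃ A : Subalgebra ℂ F → Fˣ, A = D ^ (r * I) * H := ⟨_, rfl⟩
  have hAc : IsCar Y A := by
    rw [hAd]
    exact car_mul (car_pow hD _) hH
  have hAa : Amp Y A := by
    rw [hAd]
    exact hN H hH hA _
  obtain ⟨m₀, hm₀⟩ := serre hY hAc hAa (pol_car_one Y)
  obtain ⟨m₁, hm₁⟩ := serre hY hH hA (pol_car_one Y)
  obtain ⟨k', hk'⟩ : ∃ k', k' = m₀ + m₁ + M₀ + 1 := ⟨_, rfl⟩
  obtain ⟨k, hk⟩ : ∃ k, k = I * k' := ⟨_, rfl⟩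
  have hk'k : k' ≤ k := by
    rw [hk]
    exact Nat.le_mul_of_pos_left k' hI1
  have hk1 : 1 ≤ k := by omega
  obtain ⟨O₀, hO₀⟩ := hY.nonempty
  -- a section of `A ^ k'` and one of `H ^ k'`
  obtain ⟨s, hs, hs0⟩ : ∃ s ∈ Sec Y (A ^ k'), s ≠ 0 := by
    obtain ⟨V, hV⟩ := hm₀ k' (by omega)
    rw [mul_one] at hV
    obtain ⟨f, hf, hu⟩ := hV.gen O₀ hO₀
    exact ⟨f, hV.sec hf, left_ne_zero_of_mul hu.1⟩
  obtain ⟨h, hh, hh0⟩ : ∃ h ∈ Sec Y (H ^ k'), h ≠ 0 := by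
    obtain ⟨V, hV⟩ := hm₁ k' (by omega)
    rw [mul_one] at hV
    obtain ⟨f, hf, hu⟩ := hV.gen O₀ hO₀
    exact ⟨f, hV.sec hf, left_ne_zero_of_mul hu.1⟩
  -- the jump
  have hE : (A ^ k') ^ I * H ^ k = (D ^ (r * I) * H ^ 2) ^ k := by
    rw [← pow_mul, mul_comm k' I, ← hk, hAd, ← mul_pow, mul_assoc, ← pow_two]
  have hlast : ((Module.finrank ℂ (Sec Y ((A ^ k') ^ I * H ^ k)) : ℕ) : ℚ) ≤
      (C : ℚ) * (k : ℚ) ^ d := by
    rw [hE]
    exact_mod_cast hC (r * I) k hk1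
  obtain ⟨i, -, hi⟩ := nuP_jump hI1
    (fun i => Module.finrank ℂ (Sec Y ((A ^ k') ^ i * H ^ k))) hlast
  -- a section of `A ^ (k' (i + 1))` which generates where `s` does not
  obtain ⟨T, hT⟩ : ∃ T : Finset (Subalgebra ℂ F), ∀ O, O ∈ T ↔ O ∈ Y ∧ PrimDiv O ∧
      ¬ Un O (s * (A ^ k') O) := by
    have h1 := fin_supp hY (car_pow hAc k') hs0
    exact ⟨h1.toFinset, fun O => h1.mem_toFinset⟩
  obtain ⟨t, ht, ht0, htT⟩ : ∃ t ∈ Sec Y ((A ^ k') ^ (i + 1)), t ≠ 0 ∧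
      ∀ O ∈ T, Un O (t * ((A ^ k') ^ (i + 1)) O) := by
    obtain ⟨V, hV⟩ := hm₀ (k' * (i + 1)) (by nlinarith)
    rw [mul_one, pow_mul] at hV
    obtain ⟨f, hf, hu⟩ := avoid hY hV.toBF (insert O₀ T) (by
      intro O hO
      rcases Finset.mem_insert.1 hO with rfl | hO
      · exact hO₀
      · exact ((hT O).1 hO).1)
    exact ⟨f, hV.sec hf, left_ne_zero_of_mul (hu O₀ (Finset.mem_insert_self _ _)).1,
      fun O hO => hu O (Finset.mem_insert_of_mem hO)⟩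
  -- the two subspaces
  have hEi : A ^ k' * ((A ^ k') ^ i * H ^ k) = (A ^ k') ^ (i + 1) * H ^ k := by
    rw [← mul_assoc, pow_succ']
  have hP : (Sec Y (H ^ k)).map (LinearMap.mulLeft ℂ t) ≤ Sec Y ((A ^ k') ^ (i + 1) * H ^ k) := by
    rintro _ ⟨u, hu, rfl⟩
    exact sec_mul ht hu
  have hQ : (Sec Y ((A ^ k') ^ i * H ^ k)).map (LinearMap.mulLeft ℂ s) ≤
      Sec Y ((A ^ k') ^ (i + 1) * H ^ k) := by
    rintro _ ⟨u, hu, rfl⟩
    rw [← hEi]
    exact sec_mul hs hu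
  have hfin : Module.Finite ℂ (Sec Y ((A ^ k') ^ (i + 1) * H ^ k)) :=
    fin_sec hY (car_mul (car_pow (car_pow hAc _) _) (car_pow hH _))
  have hdim : Module.finrank ℂ (Sec Y ((A ^ k') ^ (i + 1) * H ^ k)) <
      Module.finrank ℂ ((Sec Y (H ^ k)).map (LinearMap.mulLeft ℂ t)) +
      Module.finrank ℂ ((Sec Y ((A ^ k') ^ i * H ^ k)).map (LinearMap.mulLeft ℂ s)) := by
    rw [nuP_map _ ht0, nuP_map _ hs0]
    have h1 := hM₀ k (by omega)
    have h2 : (0 : ℚ) < (k : ℚ) ^ d := pow_pos (by exact_mod_cast hk1) d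
    have h3 : (C : ℚ) * (k : ℚ) ^ d < I * (c * (k : ℚ) ^ d) := by nlinarith
    have h4 : (I : ℚ) * (((Module.finrank ℂ (Sec Y ((A ^ k') ^ (i + 1) * H ^ k)) : ℕ) : ℚ) -
        ((Module.finrank ℂ (Sec Y ((A ^ k') ^ i * H ^ k)) : ℕ) : ℚ)) <
        I * ((Module.finrank ℂ (Sec Y (H ^ k)) : ℕ) : ℚ) :=
      lt_of_le_of_lt hi (lt_of_lt_of_le h3 (mul_le_mul_of_nonneg_left h1 hI0.le))
    have h5 := lt_of_mul_lt_mul_left h4 hI0.le
    have h6 : ((Module.finrank ℂ (Sec Y ((A ^ k') ^ (i + 1) * H ^ k)) : ℕ) : ℚ) <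
        ((Module.finrank ℂ (Sec Y (H ^ k)) : ℕ) : ℚ) +
        ((Module.finrank ℂ (Sec Y ((A ^ k') ^ i * H ^ k)) : ℕ) : ℚ) := by linarith
    exact_mod_cast h6
  obtain ⟨x, hx1, hx2, hx0⟩ := nuP_meet hP hQ hdim
  obtain ⟨u, hu, hu'⟩ := hx1
  obtain ⟨w, hw, hw'⟩ := hx2
  have hu'' : t * u = x := hu'
  have hw'' : s * w = x := hw'
  have hu0 : u ≠ 0 := by
    rintro rfl
    rw [mul_zero] at hu''
    exact hx0 hu''.symm
  have huw : u / s = w / t := by
    rw [div_eq_div_iff hs0 ht0, mul_comm u t, hu'', ← hw'', mul_comm]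
  -- the section `u / s`
  have hus : u / s ∈ Sec Y (H ^ k / A ^ k') := by
    refine sec_of_prim hY hn (car_div (car_pow hH _) (car_pow hAc _)) fun O hO hOp => ?_
    have hAO := (A O).ne_zero
    have hHO := (H O).ne_zero
    by_cases hg : Un O (s * (A ^ k') O)
    · have h1 : u / s * (((H ^ k / A ^ k') O : Fˣ) : F) =
          u * ((H ^ k) O : Fˣ) * (s * ((A ^ k') O : Fˣ))⁻¹ := by
        rw [Pi.div_apply, Units.val_div_eq_div_val]
        have h2 := ((A ^ k') O).ne_zero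
        field_simp
      rw [h1]
      exact O.mul_mem (hu O hO) hg.2.2
    · have hg' := htT O ((hT O).2 ⟨hO, hOp, hg⟩)
      have h1 : u / s * (((H ^ k / A ^ k') O : Fˣ) : F) =
          w * (((A ^ k') ^ i * H ^ k) O : Fˣ) * (t * (((A ^ k') ^ (i + 1)) O : Fˣ))⁻¹ := by
        rw [huw, Pi.div_apply, Units.val_div_eq_div_val, Pi.mul_apply, Units.val_mul,
          Pi.pow_apply (A ^ k') (i + 1), Pi.pow_apply (A ^ k') i, Units.val_pow_eq_pow_val,
          Units.val_pow_eq_pow_val, pow_succ]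
        have h2 := ((A ^ k') O).ne_zero
        field_simp
      rw [h1]
      exact O.mul_mem (hw O hO) hg'.2.2
  refine ⟨k, hk1, u / s * h, mul_ne_zero (div_ne_zero hu0 hs0) hh0, ?_⟩
  have hfin2 : H ^ k / A ^ k' * H ^ k' = (H / D ^ r) ^ k := by
    rw [hAd, mul_pow, ← pow_mul, div_pow, ← pow_mul]
    have h1 : r * I * k' = r * k := by rw [hk]; ring
    rw [h1, div_mul_eq_mul_div, mul_div_mul_right_eq_div]
  rw [← hfin2]
  exact sec_mul hus hh

end Pool.Agent.KM
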