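import Pool.Agent.Lib.MP_732f67_ag.N.Mdl
import Pool.Agent.Lib.MP_732f67_ag.N.LogC
import Pool.Agent.Lib.MP_732f67_ag.N.NumA

/-!
Part N: sections with a high multiplicity.
-/

namespace Pool.Agent.KM

variable {F : Type} [Field F] [Algebra ℂ F] {Y : Set (Subalgebra ℂ F)} {d : ℕ}
  {G : Subgroup (F ≃ₐ[ℂ] F)} {Δ : Fin d → Derivation ℂ F F} {D ν : Subalgebra ℂ F → Fˣ}
  {m a : ℕ}

/-- A prime divisor `v` over `Y` such that linear systems of dimension `> r ^ d` have elements with an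
order at least `r / d` times the log discrepancy.

PROOF. A model `M` (for `exists_gc_amp` and `Φ` = local equations of `ν`, `car_fin`), `O'` a closed
point of `M.Y'` outside the boundary (`exists_pt`), `v'` as in `exists_blow`, `v = v'.comap i`
(`prim_comap`), `O = cen i Y O'`, `ρ` the ramification index (`exists_ram`). By `ad_exp` the function
`pb ν O' * κ O' ^ m` is a unit of `O'`, so `LD M.Δ' m v' (pb ν O') = oF v' + 1 - oD v' (κ O') = d`, and it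
is `ρ * LD Δ m v (ν O)` (`LD_ram`). For `E`: `W = i (Sec Y E) * i (E O)`, contained in `O'`, `f = i (s * E O)`,
`r ≤ oD v' f = ρ * oD v (s * E O)`. -/
theorem exists_mult (hR : RX d) (hY : Base d Y G Δ) (hd : 1 ≤ d) (hm : 1 ≤ m)
    (hν : IsCar Y ν) :
    ∃ v O : Subalgebra ℂ F, PrimDiv v ∧ O ∈ Y ∧ Dom O v ∧
      ∀ (r : ℕ) (E : Subalgebra ℂ F → Fˣ), IsCar Y E → r ^ d < Module.finrank ℂ (Sec Y E) →
        ∃ s ∈ Sec Y E, s ≠ 0 ∧ r * LD Δ m v (ν O) ≤ d * oD v (s * E O) := by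
  have hmq : (m : ℚ) ≠ 0 := by
    have : (0 : ℚ) < m := by exact_mod_cast hm
    exact this.ne'
  obtain ⟨H, hH, hHa⟩ := exists_gc_amp hY
  obtain ⟨T, hT0, hT⟩ := car_fin hY.proj hν
  obtain ⟨M⟩ := hR F Y G Δ T H hY hT0 hH hHa
  have hmor := M.mor hY.proj
  obtain ⟨O', hO', hun, hclo⟩ := exists_pt M.snc
  obtain ⟨v', hv', hdom', hlog, hW⟩ := exists_blow M.snc hd hO' hclo
  obtain ⟨hO, hdm⟩ := cen_spec (hmor.dom O' hO')
  obtain ⟨O, hOdef⟩ : ∃ O, O = cen M.i Y O' := ⟨_, rfl⟩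
  rw [← hOdef] at hO hdm
  have hF : ∃ A : Subalgebra ℂ F, A.FG ∧ FracEq A := by
    obtain ⟨A, hA, hfr, -⟩ := hY.proj.exists_chart hO
    exact ⟨A, hA, hfr⟩
  have hv := prim_comap M.fin hF hv'
  obtain ⟨ρ, hρ1, hρ⟩ := exists_ram hv' hv
  have hρ0 : (0 : ℚ) < ρ := by exact_mod_cast hρ1
  -- the log discrepancy
  have hpb : (pb M.i Y ν O' : M.F') = M.i (ν O) := by rw [pb_val, hOdef]
  have hν0 : M.i (ν O : F) ≠ 0 := (map_ne_zero M.i).2 (ν O).ne_zero
  have hκ0 : (M.κ O' : M.F') ≠ 0 := (M.κ O').ne_zero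
  have hord : oD v' (M.i (ν O : F)) = -(m * oD v' (M.κ O' : M.F')) := by
    obtain ⟨e, -, he⟩ := M.ad_exp hY hm hν hT
    have h1 := he O' hO'
    have h2 : Un O' (∏ j, (M.B j O' : M.F') ^ e j) := Un.prod _ fun j _ => (hun j).zpow _
    have h3 := (h1.mul h2).mono hdom'.1
    rw [div_mul_cancel₀ _ h2.1, hpb] at h3
    have h4 := (oD_zero hv' h3.1).2 h3
    rw [oD_mul hv' hν0 (pow_ne_zero _ hκ0), oD_pow hv' hκ0] at h4
    linarith
  have hLD' : LD M.Δ' m v' (M.i (ν O : F)) = d := by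
    have h1 : (oF M.Δ' v' : ℚ) + 1 - oD v' (M.κ O' : M.F') = d := by exact_mod_cast hlog
    rw [LD, hord]
    push_cast
    rw [neg_div, mul_div_cancel_left₀ _ hmq]
    linarith
  have hram := LD_ram M.fin hY.dim hY.frame M.der hv' hv hρ m (ν O).ne_zero
  rw [hLD'] at hram
  have hLD0 : 0 ≤ LD Δ m (v'.comap M.i) (ν O) := by
    have h1 : (0 : ℚ) ≤ d := Nat.cast_nonneg _
    by_contra h2
    push Not at h2
    have h3 := mul_neg_of_pos_of_neg hρ0 h2
    linarith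
  refine ⟨v'.comap M.i, O, hv, hO, ⟨fun x hx => hdom'.1 (hdm.1 x hx), fun x hx hx' => ?_⟩,
    fun r E hE hr => ?_⟩
  · have h1 : (M.i x)⁻¹ ∈ v' := by
      rw [← map_inv₀]
      exact hx'
    exact hdm.2 x hx (hdom'.2 _ (hdm.1 x hx) h1)
  · have hfin := fin_sec hY.proj hE
    obtain ⟨φ, hφ⟩ : ∃ φ : F →ₗ[ℂ] M.F', ∀ f, φ f = M.i (f * E O) :=
      ⟨M.i.toLinearMap.comp (LinearMap.mulRight ℂ (E O : F)), fun f => rfl⟩
    have hφi : Function.Injective φ := by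
      intro a b hab
      rw [hφ, hφ] at hab
      exact mul_right_cancel₀ (E O).ne_zero (M.i.injective hab)
    obtain ⟨f', hf', hf0, hrf⟩ := hW r ((Sec Y E).map φ) (Module.Finite.map _ _) (by
      rintro _ ⟨f, hf, rfl⟩
      rw [hφ]
      exact hdm.1 _ (hf O hO)) (by
      rwa [(Submodule.equivMapOfInjective φ hφi (Sec Y E)).finrank_eq] at hr)
    obtain ⟨s, hs, rfl⟩ := hf'
    have hs0 : s ≠ 0 := by
      rintro rfl
      exact hf0 (map_zero φ)
    refine ⟨s, hs, hs0, ?_⟩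
    rw [hφ, hρ _ (mul_ne_zero hs0 (E O).ne_zero)] at hrf
    have h1 : (r : ℚ) ≤ ρ * oD (v'.comap M.i) (s * E O) := by exact_mod_cast hrf
    have h2 := mul_le_mul_of_nonneg_right h1 hLD0
    calc (r : ℚ) * LD Δ m (v'.comap M.i) (ν O)
        ≤ ρ * oD (v'.comap M.i) (s * E O) * LD Δ m (v'.comap M.i) (ν O) := h2
      _ = ρ * LD Δ m (v'.comap M.i) (ν O) * oD (v'.comap M.i) (s * E O) := by ring
      _ = d * oD (v'.comap M.i) (s * E O) := by rw [← hram]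

end Pool.Agent.KM
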