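import Pool.Agent.Lib.MP_732f67_ag.N.Mdl
import Pool.Agent.Lib.MP_732f67_ag.N.LogC
import Pool.Agent.Lib.MP_732f67_ag.N.NumA
import Pool.Agent.Lib.MP_732f67_ag.N.MuE

/-!
Part N: sections with a high multiplicity.
-/

namespace Pool.Agent.KM

variable {F : Type} [Field F] [Algebra ℂ F] {Y : Set (Subalgebra ℂ F)} {d : ℕ}
  {G : Subgroup (F ≃ₐ[ℂ] F)} {Δ : Fin d → Derivation ℂ F F} {D ν : Subalgebra ℂ F → Fˣ}
  {m a : ℕ}

/-- products of conjugates of a section -/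
private theorem mui_sec (hG : ∀ γ ∈ G, ∀ O ∈ Y, gm γ O ∈ Y) {E : Subalgebra ℂ F → Fˣ}
    (h : GI Y G E) {s : F} (hs : s ∈ Sec Y E) (S : Finset G) :
    (∏ γ ∈ S, (γ : F ≃ₐ[ℂ] F) s) ∈ Sec Y (E ^ S.card) := by
  classical
  induction S using Finset.induction_on with
  | empty =>
    rw [Finset.prod_empty, Finset.card_empty, pow_zero]
    intro O _
    rw [Pi.one_apply, Units.val_one, mul_one]
    exact O.one_mem
  | insert γ S hγ ih =>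
    rw [Finset.prod_insert hγ, Finset.card_insert_of_notMem hγ, pow_succ']
    exact sec_mul (sec_gm hG h γ.2 hs) ih

/-- Invariant sections of high multiplicity.

PROOF. `v`, `O` as in `exists_mult`. The first alternative of `num_dich` for `H = D ^ (a m) * ν` gives for
every `R : ℕ` numbers `q`, `k ≥ 1` with `(R k) ^ d < finrank (Sec ((D ^ q * H ^ 2) ^ k))` (`C = R ^ d`), so
there is a section `s` with `R k LD ≤ d oD v (s * ..)`. `s' = ∏ γ ∈ G, γ s` is an invariant section of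
`(D ^ q * H ^ 2) ^ (k g)`, `g = Nat.card G`, and `oD v (s' * ..) ≥ oD v (s * ..)`, because the other
factors (times the local equation at `O`) are in `O ≤ v` (`sec_gm`). With `R = C d g`. -/
theorem exists_mult_inv {C : ℕ} {H : Subalgebra ℂ F → Fˣ} (hY : Base d Y G Δ) (hd : 1 ≤ d)
    (hD : GC Y G D) (hH : GC Y G H)
    (hbig : ∀ C : ℕ, ∃ q k : ℕ, 1 ≤ k ∧
      C * k ^ d < Module.finrank ℂ (Sec Y ((D ^ q * H ^ 2) ^ k)))
    {v O : Subalgebra ℂ F} (hv : PrimDiv v) (hO : O ∈ Y) (hdom : Dom O v)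
    (hmul : ∀ (r : ℕ) (E : Subalgebra ℂ F → Fˣ), IsCar Y E →
      r ^ d < Module.finrank ℂ (Sec Y E) →
        ∃ s ∈ Sec Y E, s ≠ 0 ∧ r * LD Δ m v (ν O) ≤ d * oD v (s * E O)) :
    ∃ q k : ℕ, 1 ≤ k ∧ ∃ s : F, s ≠ 0 ∧ s ∈ Sec Y ((D ^ q * H ^ 2) ^ k) ∧
      (∀ γ ∈ G, γ s = s) ∧
      C * k * LD Δ m v (ν O) ≤ oD v (s * ((D ^ q * H ^ 2) ^ k : Subalgebra ℂ F → Fˣ) O) := by
  classical
  have hfin : Finite G := hY.fin
  have hft : Fintype G := Fintype.ofFinite G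
  obtain ⟨g, hg⟩ : ∃ g : ℕ, g = Fintype.card G := ⟨_, rfl⟩
  have hg1 : 1 ≤ g := by
    rw [hg]
    exact Fintype.card_pos
  obtain ⟨q, k, hk, hlt⟩ := hbig ((C * d * g) ^ d)
  obtain ⟨E, hE⟩ : ∃ E : Subalgebra ℂ F → Fˣ, E = (D ^ q * H ^ 2) ^ k := ⟨_, rfl⟩
  have hGC : GC Y G E := by
    rw [hE]
    exact gc_pow (gc_mul (gc_pow hD q) (gc_pow hH 2)) k
  have hGI : GI Y G E := gc_gi hGC
  rw [← mul_pow, ← hE] at hlt
  obtain ⟨s, hs, hs0, hle⟩ := hmul (C * d * g * k) E hGC.1 hlt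
  obtain ⟨t, ht⟩ : ∃ t : F, t = ∏ γ : G, (γ : F ≃ₐ[ℂ] F) s := ⟨_, rfl⟩
  have hfac : ∀ γ : G, (γ : F ≃ₐ[ℂ] F) s ≠ 0 := fun γ =>
    (map_ne_zero_iff (γ : F ≃ₐ[ℂ] F) (γ : F ≃ₐ[ℂ] F).injective).2 hs0
  have hts : t ∈ Sec Y (E ^ g) := by
    rw [ht, hg, ← Finset.card_univ]
    exact mui_sec hY.st hGI hs Finset.univ
  have hEO : ((E O : Fˣ) : F) ≠ 0 := (E O).ne_zero
  have hterm : ∀ γ : G, (γ : F ≃ₐ[ℂ] F) s * (E O : F) ≠ 0 := fun γ => mul_ne_zero (hfac γ) hEO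
  have hprod : t * ((E ^ g : Subalgebra ℂ F → Fˣ) O : F) =
      ∏ γ : G, ((γ : F ≃ₐ[ℂ] F) s * (E O : F)) := by
    rw [Finset.prod_mul_distrib, ← ht, Finset.prod_const, Finset.card_univ, ← hg, Pi.pow_apply,
      Units.val_pow_eq_pow_val]
  have hnn : ∀ γ : G, 0 ≤ oD v ((γ : F ≃ₐ[ℂ] F) s * (E O : F)) := by
    intro γ
    rw [oD_nonneg hv (hterm γ)]
    exact hdom.1 (sec_gm hY.st hGI γ.2 hs O hO)
  have hge : oD v (s * (E O : F)) ≤ oD v (t * ((E ^ g : Subalgebra ℂ F → Fˣ) O : F)) := by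
    rw [hprod, oD_prod hv _ fun γ _ => hterm γ]
    have h1 := Finset.single_le_sum (f := fun γ : G => oD v ((γ : F ≃ₐ[ℂ] F) s * (E O : F)))
      (fun γ _ => hnn γ) (Finset.mem_univ (1 : G))
    exact h1
  refine ⟨q, k * g, Nat.mul_pos hk hg1, t, ?_, ?_, ?_, ?_⟩
  · rw [ht]
    exact Finset.prod_ne_zero_iff.2 fun γ _ => hfac γ
  · rw [pow_mul, ← hE]
    exact hts
  · intro γ hγ
    rw [ht, map_prod]
    refine Fintype.prod_equiv (Equiv.mulLeft (⟨γ, hγ⟩ : G)) _ _ fun δ => ?_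
    rfl
  · rw [pow_mul, ← hE]
    have hd0 : (0 : ℚ) < d := by exact_mod_cast hd
    have h1 : (d : ℚ) * (C * (k * g : ℕ) * LD Δ m v (ν O)) ≤ d * (oD v (s * (E O : F)) : ℤ) := by
      refine le_trans (le_of_eq ?_) hle
      push_cast
      ring
    have h2 := le_of_mul_le_mul_left h1 hd0
    refine h2.trans ?_
    exact_mod_cast hge

end Pool.Agent.KM
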