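import Pool.Agent.Lib.MP_732f67_ag.N.LogB
import Pool.Agent.Lib.MP_732f67_ag.N.Grp
import Pool.Agent.Lib.MP_732f67_ag.N.SnL

/-!
Part N: log discrepancies on smooth varieties with normal crossings, and group actions.
-/

namespace Pool.Agent.KM

variable {F : Type} [Field F] [Algebra ℂ F] {Y : Set (Subalgebra ℂ F)} {d : ℕ} {J : Type}
  [Fintype J] {B : J → Subalgebra ℂ F → Fˣ} {Δ : Fin d → Derivation ℂ F F}
  {κ : Subalgebra ℂ F → Fˣ} {G : Subgroup (F ≃ₐ[ℂ] F)} {m : ℕ} {b : J → ℚ} {e : J → ℤ}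

private theorem sng_gm_inv (γ : F ≃ₐ[ℂ] F) (O : Subalgebra ℂ F) : gm γ⁻¹ (gm γ O) = O := by
  rw [← gm_mul, inv_mul_cancel, gm_one]

private theorem sng_gm_inv' (γ : F ≃ₐ[ℂ] F) (O : Subalgebra ℂ F) : gm γ (gm γ⁻¹ O) = O := by
  rw [← gm_mul, mul_inv_cancel, gm_one]

private theorem sng_lat {γ : F ≃ₐ[ℂ] F} (hΔ : ∀ l x, Δ l (γ x) = γ (Δ l x)) {O : Subalgebra ℂ F}
    {f : F} (hf : f ∈ lat Δ O) : γ f ∈ lat Δ (gm γ O) := by
  unfold lat at hf
  induction hf using Submodule.span_induction with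
  | mem f hf =>
    obtain ⟨y, rfl⟩ := hf
    have h1 : γ (Matrix.det (Matrix.of fun i j => Δ i (y j : F))) =
        Matrix.det (Matrix.of fun i j => Δ i (γ (y j : F))) := by
      have h2 := RingHom.map_det (γ : F →+* F) (Matrix.of fun i j => Δ i (y j : F))
      refine h2.trans (congrArg Matrix.det ?_)
      ext i j
      exact (hΔ i (y j)).symm
    rw [h1]
    exact Submodule.subset_span ⟨fun j => ⟨γ (y j : F), ⟨(y j : F), (y j).2, rfl⟩⟩, rfl⟩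
  | zero =>
    rw [map_zero]
    exact Submodule.zero_mem _
  | add a b _ _ ha hb =>
    rw [map_add]
    exact Submodule.add_mem _ ha hb
  | smul r a _ ha =>
    have h1 : γ (r • a) = (⟨γ (r : F), ⟨(r : F), r.2, rfl⟩⟩ : gm γ O) • γ a := map_mul γ (r : F) a
    rw [h1]
    exact Submodule.smul_mem _ _ ha

/-- the order of the product at a prime divisor -/
private theorem sng_ord [DecidableEq (Subalgebra ℂ F)] {P : J → Subalgebra ℂ F} (h : Bd Y P B)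
    {Q : Subalgebra ℂ F} (hQ : Q ∈ Y) (hQ' : PrimDiv Q) :
    oD Q ((∏ j, B j ^ e j) Q : Fˣ) = ∑ j, if Q = P j then e j else 0 := by
  rw [Finset.prod_apply, Units.coe_prod, oD_prod hQ' _ fun j _ => Units.ne_zero _]
  refine Finset.sum_congr rfl fun j _ => ?_
  rw [Pi.pow_apply, Units.val_zpow_eq_zpow_val, oD_zpow hQ' (Units.ne_zero _)]
  split_ifs with hj
  · rw [oD_unif hQ' ((h.eqn j Q hQ hQ').1 hj), mul_one]
  · rw [(oD_zero hQ' (Units.ne_zero _)).2 ((h.eqn j Q hQ hQ').2 hj), mul_zero]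

private theorem sng_sum [DecidableEq (Subalgebra ℂ F)] {P : J → Subalgebra ℂ F}
    (hP : Function.Injective P) {Q : Subalgebra ℂ F} {j : J} (hj : Q = P j) :
    (∑ j, if Q = P j then e j else 0) = e j := by
  rw [Finset.sum_eq_single j, if_pos hj]
  · intro j' _ hj'
    rw [if_neg]
    intro h
    exact hj' (hP (h.symm.trans hj))
  · intro h
    exact (h (Finset.mem_univ j)).elim

/-- `κ` is invariant, because `Δ` commutes with `G` (`nj_un`) -/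
theorem snc_gi (h : Snc d Y B Δ κ) (hG : Base d Y G Δ) : GI Y G κ := by
  intro γ hγ O hO
  have hO' := hG.st γ hγ O hO
  have h0 : ∀ x : F, γ (γ⁻¹ x) = x := fun x => γ.apply_symm_apply x
  refine ⟨div_ne_zero (Units.ne_zero _) ((map_ne_zero γ).2 (Units.ne_zero _)), ?_, ?_⟩
  · have h1 : ((κ O : F))⁻¹ ∈ lat Δ O := by
      rw [h.lat hO, inv_mul_cancel₀ (Units.ne_zero _)]
      exact O.one_mem
    have h2 := (h.lat hO' _).1 (sng_lat (hG.comm γ hγ) h1)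
    rwa [map_inv₀, mul_comm, ← div_eq_mul_inv] at h2
  · have h1 : ((κ (gm γ O) : F))⁻¹ ∈ lat Δ (gm γ O) := by
      rw [h.lat hO', inv_mul_cancel₀ (Units.ne_zero _)]
      exact (gm γ O).one_mem
    have h2 := sng_lat (hG.comm γ⁻¹ (G.inv_mem hγ)) h1
    rw [sng_gm_inv, h.lat hO] at h2
    refine ⟨_, h2, ?_⟩
    change γ (γ⁻¹ ((κ (gm γ O) : F))⁻¹ * (κ O : F)) = _
    rw [map_mul, h0, inv_div, mul_comm, ← div_eq_mul_inv]

/-- invariant combinations of the boundary divisors -/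
theorem bd_gi {P : J → Subalgebra ℂ F} (h : Bd Y P B) (hB : ∀ j, IsCar Y (B j))
    (hG : Base d Y G Δ) (hP : ∀ γ ∈ G, ∀ j, ∃ j', gm γ (P j) = P j')
    (he : ∀ γ ∈ G, ∀ j j', gm γ (P j) = P j' → e j' = e j) : GI Y G (∏ j, B j ^ e j) := by
  classical
  have hc : IsCar Y (∏ j, B j ^ e j) := car_prod _ fun j _ => car_zpow (hB j) (e j)
  -- prime divisors
  have key : ∀ γ ∈ G, ∀ Q ∈ Y, PrimDiv Q →
      Un (gm γ Q) (((∏ j, B j ^ e j) (gm γ Q) : Fˣ) / γ ((∏ j, B j ^ e j) Q : Fˣ)) := by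
    intro γ hγ Q hQ hQ'
    have h1 := prim_gm (γ := γ) hQ'
    have h2 := hG.st γ hγ Q hQ
    have h3 : γ (((∏ j, B j ^ e j) Q : Fˣ) : F) ≠ 0 := (map_ne_zero γ).2 (Units.ne_zero _)
    rw [← oD_zero h1 (div_ne_zero (Units.ne_zero _) h3), oD_div h1 (Units.ne_zero _) h3,
      oD_gm hQ', sng_ord h h2 h1, sng_ord h hQ hQ', sub_eq_zero]
    by_cases hj : ∃ j, Q = P j
    · obtain ⟨j, hj⟩ := hj
      obtain ⟨j', hj'⟩ := hP γ hγ j
      rw [sng_sum h.inj hj, sng_sum h.inj (j := j') (by rw [hj, hj'])]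
      exact he γ hγ j j' hj'
    · have h4 : ¬ ∃ j, gm γ Q = P j := by
        rintro ⟨j, hj'⟩
        obtain ⟨j', hj''⟩ := hP γ⁻¹ (G.inv_mem hγ) j
        rw [← hj', sng_gm_inv] at hj''
        exact hj ⟨j', hj''⟩
      rw [Finset.sum_eq_zero, Finset.sum_eq_zero]
      · intro j _
        exact if_neg fun h => hj ⟨j, h⟩
      · intro j _
        exact if_neg fun h => h4 ⟨j, h⟩
  intro γ hγ O hO
  have hO' := hG.st γ hγ O hO
  have key2 : ∀ Q ∈ Y, PrimDiv Q → gm γ O ≤ Q →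
      Un Q (((∏ j, B j ^ e j) (gm γ O) : Fˣ) / γ ((∏ j, B j ^ e j) O : Fˣ)) := by
    intro Q hQ hQ' hle
    have hQ₁ := hG.st γ⁻¹ (G.inv_mem hγ) Q hQ
    have hle₁ : O ≤ gm γ⁻¹ Q := by
      have h1 := gm_mono (γ := γ⁻¹) hle
      rwa [sng_gm_inv] at h1
    have h1 := hc.un_of_le hO' hQ hle
    have h2 := hc.un_of_le hO hQ₁ hle₁
    have h3 := (un_gm (γ := γ)).2 h2
    rw [sng_gm_inv', Units.val_div_eq_div_val, map_div₀] at h3
    have h4 := key γ hγ (gm γ⁻¹ Q) hQ₁ (prim_gm hQ')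
    rw [sng_gm_inv'] at h4
    have h5 := (h1.mul h4).div h3
    rw [Units.val_div_eq_div_val] at h5
    have h6 : γ (((∏ j, B j ^ e j) O : Fˣ) : F) ≠ 0 := (map_ne_zero γ).2 (Units.ne_zero _)
    have h7 : γ (((∏ j, B j ^ e j) (gm γ⁻¹ Q) : Fˣ) : F) ≠ 0 := (map_ne_zero γ).2 (Units.ne_zero _)
    have h8 : (((∏ j, B j ^ e j) Q : Fˣ) : F) ≠ 0 := Units.ne_zero _
    have h9 : (((∏ j, B j ^ e j) (gm γ O) : Fˣ) : F) / γ ((∏ j, B j ^ e j) O : Fˣ) =
        (((∏ j, B j ^ e j) (gm γ O) : Fˣ) : F) / ((∏ j, B j ^ e j) Q : Fˣ) *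
          ((((∏ j, B j ^ e j) Q : Fˣ) : F) / γ ((∏ j, B j ^ e j) (gm γ⁻¹ Q) : Fˣ)) /
          (γ (((∏ j, B j ^ e j) O : Fˣ) : F) / γ ((∏ j, B j ^ e j) (gm γ⁻¹ Q) : Fˣ)) := by
      field_simp
    rw [h9]
    exact h5
  refine ⟨div_ne_zero (Units.ne_zero _) ((map_ne_zero γ).2 (Units.ne_zero _)), ?_, ?_⟩
  · exact hG.proj.mem_of_primDiv hG.normal hO' fun Q hQ hQ' hle => (key2 Q hQ hQ' hle).2.1
  · exact hG.proj.mem_of_primDiv hG.normal hO' fun Q hQ hQ' hle => (key2 Q hQ hQ' hle).2.2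

end Pool.Agent.KM
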