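import Pool.Agent.Lib.MP_732f67_ag.N.LogB
import Pool.Agent.Lib.MP_732f67_ag.N.Grp
import Pool.Agent.Lib.MP_732f67_ag.N.SnL
import Pool.Agent.Lib.MP_732f67_ag.N.SnG

/-!
Part N: log discrepancies on smooth varieties with normal crossings, and group actions.
-/

namespace Pool.Agent.KM

variable {F : Type} [Field F] [Algebra ℂ F] {Y : Set (Subalgebra ℂ F)} {d : ℕ} {J : Type}
  [Fintype J] {B : J → Subalgebra ℂ F → Fˣ} {Δ : Fin d → Derivation ℂ F F}
  {κ : Subalgebra ℂ F → Fˣ} {G : Subgroup (F ≃ₐ[ℂ] F)} {m : ℕ} {b : J → ℚ} {e : J → ℤ}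

/-- the log discrepancy in terms of the orders of the boundary divisors -/
theorem snP_LD {O : Subalgebra ℂ F} (hp : PrimDiv O) (O₀ : Subalgebra ℂ F) (hm : 1 ≤ m)
    (he : ∀ j, (e j : ℚ) = m * (b j - 1)) :
    LD Δ m O (((∏ j, B j ^ e j) / κ ^ m : Subalgebra ℂ F → Fˣ) O₀) =
      (oF Δ O - oD O (κ O₀) + 1 : ℤ) + ∑ j, (b j - 1) * oD O (B j O₀) := by
  have hm0 : (m : ℚ) ≠ 0 := by
    have : m ≠ 0 := by omega
    exact_mod_cast this
  have h1 : ((((∏ j, B j ^ e j) / κ ^ m : Subalgebra ℂ F → Fˣ) O₀ : Fˣ) : F) =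
      (∏ j, (B j O₀ : F) ^ e j) / (κ O₀ : F) ^ m := by
    simp only [Pi.div_apply, Finset.prod_apply, Pi.pow_apply, Units.val_div_eq_div_val,
      Units.coe_prod, Units.val_pow_eq_pow_val, Units.val_zpow_eq_zpow_val]
  have h2 : ∀ j ∈ Finset.univ, (B j O₀ : F) ^ e j ≠ 0 := fun j _ =>
    zpow_ne_zero _ (B j O₀).ne_zero
  have h3 : oD O (((∏ j, B j ^ e j) / κ ^ m : Subalgebra ℂ F → Fˣ) O₀) =
      ∑ j, e j * oD O (B j O₀) - m * oD O (κ O₀) := by
    rw [h1, oD_div hp (Finset.prod_ne_zero_iff.2 h2) (pow_ne_zero _ (κ O₀).ne_zero),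
      oD_prod hp _ h2, oD_pow hp (κ O₀).ne_zero]
    congr 1
    exact Finset.sum_congr rfl fun j _ => oD_zpow hp (B j O₀).ne_zero _
  unfold LD
  rw [h3]
  push_cast
  have h4 : ∑ j, (e j : ℚ) * (oD O (B j O₀) : ℚ) = m * ∑ j, (b j - 1) * (oD O (B j O₀) : ℚ) := by
    rw [Finset.mul_sum]
    exact Finset.sum_congr rfl fun j _ => by rw [he]; ring
  rw [h4]
  field_simp
  ring

/-- the log discrepancies are positive (`Snc.log`) -/
theorem snc_pos (h : Snc d Y B Δ κ) (hm : 1 ≤ m) (hb : ∀ j, 0 < b j)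
    (he : ∀ j, (e j : ℚ) = m * (b j - 1)) : Pos Y Δ m ((∏ j, B j ^ e j) / κ ^ m) := by
  intro O hp O₀ hO₀ hd
  rw [snP_LD hp O₀ hm he]
  obtain ⟨h1, h2⟩ := h.log hO₀ hp hd
  have h0 : ∀ j, 0 ≤ oD O (B j O₀) := by
    intro j
    refine (oD_nonneg hp (B j O₀).ne_zero).2 (hd.1 ?_)
    obtain ⟨x, co, -, -, hB, -⟩ := h.snc O₀ hO₀
    have h2 := (hB j).2.1
    rcases hc : co j with - | l
    · rw [hc] at h2
      have h5 : (B j O₀ : F) / eps (fun i => (x i : F)) none = B j O₀ := div_one _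
      rwa [h5] at h2
    · rw [hc] at h2
      by_cases hx0 : (x l : F) = 0
      · have h5 := (hB j).1
        rw [hc] at h5
        have h6 : (B j O₀ : F) / eps (fun i => (x i : F)) (some l) = B j O₀ / (x l : F) := rfl
        rw [h6, hx0, div_zero] at h5
        exact absurd rfl h5
      · have h6 : (B j O₀ : F) = B j O₀ / (x l : F) * x l := (div_mul_cancel₀ _ hx0).symm
        rw [h6]
        exact O₀.mul_mem h2 (x l).2
  have h3 : ∑ j, (b j - 1) * (oD O (B j O₀) : ℚ) =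
      ∑ j, b j * (oD O (B j O₀) : ℚ) - ((∑ j, oD O (B j O₀) : ℤ) : ℚ) := by
    push_cast
    rw [← Finset.sum_sub_distrib]
    exact Finset.sum_congr rfl fun j _ => by ring
  have h4 : 0 ≤ ∑ j, b j * (oD O (B j O₀) : ℚ) := Finset.sum_nonneg fun j _ =>
    mul_nonneg (hb j).le (by exact_mod_cast h0 j)
  rw [h3]
  by_cases h5 : ∑ j, oD O (B j O₀) = 0
  · rw [h5, Int.cast_zero, sub_zero]
    have h6 : (0 : ℚ) < ((oF Δ O - oD O (κ O₀) + 1 : ℤ) : ℚ) := by exact_mod_cast (by omega)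
    linarith
  · have h6 : 0 < ∑ j, b j * (oD O (B j O₀) : ℚ) := by
      obtain ⟨j, -, hj⟩ := Finset.exists_ne_zero_of_sum_ne_zero h5
      have h7 : 0 < oD O (B j O₀) := lt_of_le_of_ne (h0 j) (Ne.symm hj)
      refine Finset.sum_pos' (fun i _ => mul_nonneg (hb i).le (by exact_mod_cast h0 i))
        ⟨j, Finset.mem_univ _, mul_pos (hb j) (by exact_mod_cast h7)⟩
    have h7 : ((∑ j, oD O (B j O₀) : ℤ) : ℚ) ≤ ((oF Δ O - oD O (κ O₀) + 1 : ℤ) : ℚ) := by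
      exact_mod_cast h2
    linarith

/-- `Snc.oF_eq`, `Snc.prim`, `sec_of_prim` -/
theorem snc_sec (h : Snc d Y B Δ κ) (hm : 1 ≤ m) (he : ∀ j, (e j : ℚ) = m * (b j - 1))
    {E : Subalgebra ℂ F → Fˣ} (hE : IsCar Y E) {f : F} (hf0 : f ≠ 0)
    (hf : LS Y Δ m ((∏ j, B j ^ e j) / κ ^ m) E f) : f ∈ Sec Y (E * ∏ j, B j ^ (⌈b j⌉ - 1)) := by
  classical
  refine sec_of_prim h.proj h.normal (car_mul hE (car_prod _ fun j _ => car_zpow (h.car j) _))
    fun O hO hp => ?_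
  have h1 := hf O hO hp
  rw [snP_LD hp O hm he, h.oF_eq hO hp, sub_self, zero_add, Int.cast_one] at h1
  obtain ⟨hP1, hP2⟩ := h.prim hO hp
  have h2 : f * (((E * ∏ j, B j ^ (⌈b j⌉ - 1) : Subalgebra ℂ F → Fˣ) O : Fˣ) : F) =
      f * E O * ∏ j, (B j O : F) ^ (⌈b j⌉ - 1) := by
    simp only [Pi.mul_apply, Finset.prod_apply, Pi.pow_apply, Units.val_mul,
      Units.coe_prod, Units.val_zpow_eq_zpow_val]
    ring
  have h3 : f * (E O : F) ≠ 0 := mul_ne_zero hf0 (E O).ne_zero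
  have h4 : ∀ j ∈ Finset.univ, (B j O : F) ^ (⌈b j⌉ - 1) ≠ 0 := fun j _ =>
    zpow_ne_zero _ (B j O).ne_zero
  have h5 : (∏ j, (B j O : F) ^ (⌈b j⌉ - 1)) ≠ 0 := Finset.prod_ne_zero_iff.2 h4
  rw [h2, ← oD_nonneg hp (mul_ne_zero h3 h5), oD_mul hp h3 h5, oD_prod hp _ h4]
  by_cases hex : ∃ j, ¬ Un O (B j O)
  · obtain ⟨j, hj⟩ := hex
    have h6 : oD O (B j O) = 1 := oD_unif hp (hP1 j hj)
    have h7 : ∀ i, i ≠ j → oD O (B i O) = 0 := by
      intro i hi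
      rw [oD_zero hp (B i O).ne_zero]
      by_contra h8
      exact hi (hP2 i j h8 hj)
    rw [Finset.sum_eq_single j (fun i _ hi => by rw [h7 i hi]; simp)
      (fun h => absurd (Finset.mem_univ _) h), h6] at h1
    rw [Finset.sum_eq_single j (fun i _ hi => by
      rw [oD_zpow hp (B i O).ne_zero, h7 i hi, mul_zero])
      (fun h => absurd (Finset.mem_univ _) h), oD_zpow hp (B j O).ne_zero, h6, mul_one]
    have h8 : (-(oD O (f * E O)) : ℤ) < ⌈b j⌉ := by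
      rw [Int.lt_ceil]
      push_cast at h1 ⊢
      linarith
    omega
  · push Not at hex
    have h7 : ∀ i, oD O (B i O) = 0 := fun i => (oD_zero hp (B i O).ne_zero).2 (hex i)
    rw [Finset.sum_eq_zero fun i _ => by rw [h7 i]; simp] at h1
    rw [Finset.sum_eq_zero fun i _ => by rw [oD_zpow hp (B i O).ne_zero, h7 i, mul_zero]]
    have h8 : (-1 : ℤ) < oD O (f * E O) := by
      have : ((-1 : ℤ) : ℚ) < (oD O (f * E O) : ℚ) := by push_cast; linarith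
      exact_mod_cast this
    omega

end Pool.Agent.KM
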