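import Pool.Agent.Lib.MP_732f67_ag.N.ResD
import Pool.Agent.Lib.MP_732f67_ag.N.Lift
import Pool.Agent.Lib.MP_732f67_ag.N.SncB

/-!
Part N: the induction step: sections which do not vanish on the minimal center.
-/

namespace Pool.Agent.KM

variable {F : Type} [Field F] [Algebra ℂ F] {Y : Set (Subalgebra ℂ F)} {n : ℕ} {J : Type}
  [Fintype J] {P : J → Subalgebra ℂ F} {B : J → Subalgebra ℂ F → Fˣ}
  {Δ : Fin (n + 1) → Derivation ℂ F F} {κ : Subalgebra ℂ F → Fˣ} {G : Subgroup (F ≃ₐ[ℂ] F)}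

theorem StR_one {K : Type} [Field K] [Algebra ℂ K] {P₀ : Subalgebra ℂ F} (ρ : P₀ →ₐ[ℂ] K) :
    RD ρ Y 1 1 := by
  refine ⟨?_, fun O _ _ x hx => ?_⟩
  · rw [Pi.one_apply, Units.val_one]
    exact Un.one _
  · rw [Pi.one_apply, Units.val_one] at hx
    have h1 : x = 1 := Subtype.ext hx
    rw [h1, map_one, Pi.one_apply, Units.val_one, div_one]
    exact Un.one _

/-- the restriction of a product -/
theorem StR_prod {K : Type} [Field K] [Algebra ℂ K] {P₀ : Subalgebra ℂ F} {ρ : P₀ →ₐ[ℂ] K}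
    (hP₀ : P₀ ∈ Y) {I : Type} (s : Finset I) {C : I → Subalgebra ℂ F → Fˣ}
    {C₀ : I → Subalgebra ℂ K → Kˣ} (hc : ∀ j ∈ s, IsCar Y (C j))
    (h : ∀ j ∈ s, RD ρ Y (C j) (C₀ j)) (e : I → ℤ) :
    RD ρ Y (∏ j ∈ s, C j ^ e j) (∏ j ∈ s, C₀ j ^ e j) := by
  classical
  induction s using Finset.induction_on with
  | empty =>
    rw [Finset.prod_empty, Finset.prod_empty]
    exact StR_one ρ
  | insert a s ha ih =>
    rw [Finset.prod_insert ha, Finset.prod_insert ha]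
    have h1 := hc a (Finset.mem_insert_self a s)
    exact rd_mul hP₀ (car_zpow h1 _)
      (car_prod _ fun j hj => car_zpow (hc j (Finset.mem_insert_of_mem hj)) _)
      (rd_zpow hP₀ h1 (h a (Finset.mem_insert_self a s)) _)
      (ih (fun j hj => hc j (Finset.mem_insert_of_mem hj))
        fun j hj => h j (Finset.mem_insert_of_mem hj))

theorem StR_const {L : Type} [Field L] [Algebra ℂ L] (u : Lˣ) (m : ℕ) :
    (fun _ => u : Subalgebra ℂ L → Lˣ) ^ m * (fun _ => (u⁻¹) ^ m) = 1 := by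
  funext O
  rw [Pi.mul_apply, Pi.pow_apply, Pi.one_apply, ← mul_pow, mul_inv_cancel, one_pow]

/-- splitting of the product over the boundary divisors -/
theorem StR_split {A : Type} [CommGroup A] (C : J → A) (b : J → ℚ) (j₀ : J) (hb₀ : b j₀ = 0)
    [DecidableEq J] : ∏ j, C j = (∏ j : {j // b j ≠ 0}, C j) *
      (∏ j ∈ Finset.univ.filter (fun j => b j = 0 ∧ j ≠ j₀), C j) * C j₀ := by
  classical
  have h1 : ∏ j : {j // b j ≠ 0}, C j = ∏ j ∈ Finset.univ.filter (fun j => b j ≠ 0), C j :=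
    (Finset.prod_subtype _ (fun j => by
      rw [Finset.mem_filter]
      exact ⟨fun h => h.2, fun h => ⟨Finset.mem_univ _, h⟩⟩) C).symm
  have h2 : (∏ j ∈ Finset.univ.filter (fun j => b j = 0 ∧ j ≠ j₀), C j) * C j₀ =
      ∏ j ∈ Finset.univ.filter (fun j => ¬ b j ≠ 0), C j := by
    rw [mul_comm, ← Finset.prod_insert]
    · refine Finset.prod_congr ?_ fun _ _ => rfl
      ext j
      rw [Finset.mem_insert, Finset.mem_filter, Finset.mem_filter, not_not]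
      constructor
      · rintro (rfl | ⟨-, h, -⟩)
        · exact ⟨Finset.mem_univ _, hb₀⟩
        · exact ⟨Finset.mem_univ _, h⟩
      · rintro ⟨-, h⟩
        by_cases hj : j = j₀
        · exact Or.inl hj
        · exact Or.inr ⟨Finset.mem_univ _, h, hj⟩
    · rw [Finset.mem_filter]
      rintro ⟨-, -, h⟩
      exact h rfl
  rw [mul_assoc, h1, h2]
  exact (Finset.prod_filter_mul_prod_filter_not _ _ _).symm

/-- non-vanishing on the smooth variety -/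
theorem StR_nv (hNV : NV n) {K : Type} [Field K] [Algebra ℂ K] {Y₀ : Set (Subalgebra ℂ K)}
    {G₀ : Subgroup (K ≃ₐ[ℂ] K)} {I : Type} [Fintype I] {B₀ : I → Subalgebra ℂ K → Kˣ}
    {Δ₀ : Fin n → Derivation ℂ K K} {κ₀ D₀ : Subalgebra ℂ K → Kˣ} (hs₀ : Snc n Y₀ B₀ Δ₀ κ₀)
    (hG₀ : Base n Y₀ G₀ Δ₀) (hD₀ : GC Y₀ G₀ D₀) (hN₀ : Nf Y₀ D₀) {b : I → ℚ}
    (hb : ∀ j, 0 < b j) {m : ℕ} (hm : 1 ≤ m) {e : I → ℤ} (he : ∀ j, (e j : ℚ) = m * (b j - 1))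
    {a : ℕ} (hGI : GI Y₀ G₀ (∏ j, B₀ j ^ e j))
    (hA : Amp Y₀ (D₀ ^ (a * m) * ((∏ j, B₀ j ^ e j) / κ₀ ^ m))) :
    ∃ b₂ : ℕ, ∀ l, b₂ ≤ l → ∃ φ : K, φ ≠ 0 ∧ (∀ γ ∈ G₀, γ φ = φ) ∧
      φ ∈ Sec Y₀ (D₀ ^ l * ∏ j, B₀ j ^ (⌈b j⌉ - 1)) := by
  have hGI' : GI Y₀ G₀ ((∏ j, B₀ j ^ e j) / κ₀ ^ m) := by
    rw [div_eq_mul_inv]
    exact gi_mul hGI (gi_inv (gi_pow (snc_gi hs₀ hG₀) m))
  obtain ⟨b₂, hb₂⟩ := hNV K Y₀ G₀ Δ₀ D₀ ((∏ j, B₀ j ^ e j) / κ₀ ^ m) m a hG₀ hD₀ hN₀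
    (car_div (car_prod _ fun j _ => car_zpow (hs₀.car j) _) (car_pow hs₀.kcar m)) hGI' hm hA
    (snc_pos hs₀ hm hb he)
  refine ⟨b₂, fun l hl => ?_⟩
  obtain ⟨φ, hφ0, hφ, hls⟩ := hb₂ l hl
  exact ⟨φ, hφ0, hφ, snc_sec hs₀ hm he (car_pow hD₀.1 l) hφ0 hls⟩

/-- The restriction to `P j₀`: non-vanishing in dimension `n` gives an invariant element of the
residue field.

PROOF. `ρ : P j₀ → K` the residue map (`K = IsLocalRing.ResidueField (P j₀)`). `J₀ = {j // b j ≠ 0}`; the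
`B j`, `j ∈ J₀`, are units at `P j₀`, with restrictions `B₀ j` (`exists_rd`); `D₀` the restriction of
`D`. `base_rs` (`Snc.normal` for the `Snc` of `adj`) gives `Δ₀`, `adj` gives `κ₀`, `u`, `c`. `m`, `e` as in
`QA` for `b₁`; `ν₀ = (∏ j : J₀, B₀ j ^ e j) / κ₀ ^ m`. The `B j` with `b j = 0`, `j ≠ j₀`, have no point in
common with `P j₀` (`strict`), so their restrictions are trivial, and `e j₀ = -m`: `D₀ ^ (b₁ m) * ν₀` is,
up to a constant, the restriction of `D ^ (b₁ m) * (∏ B j ^ e j) / κ ^ m`: ample (`amp_rs`). It is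
invariant (`bd_gi`, `gi_rs`, `snc_gi`), `snc_pos`, `gc_rs`, `nf_rs`. `hNV` and `snc_sec`. -/
theorem step_res (hNV : NV n) (hs : Snc (n + 1) Y B Δ κ) (hG : Base (n + 1) Y G Δ)
    (hB : Bd Y P B) (hst : ∀ γ ∈ G, ∀ j, ∀ O ∈ Y, O ≤ P j → O ≤ gm γ (P j) → gm γ (P j) = P j)
    (hP : ∀ γ ∈ G, ∀ j, ∃ j', gm γ (P j) = P j') {D : Subalgebra ℂ F → Fˣ} (hD : GC Y G D)
    (hN : Nf Y D) {b : J → ℚ} (hb : ∀ j, 0 ≤ b j) {j₀ : J}
    (hb0 : ∀ j, b j = 0 ↔ ∃ γ ∈ G, gm γ (P j₀) = P j)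
    (hbi : ∀ γ ∈ G, ∀ j j', gm γ (P j) = P j' → b j' = b j) {b₁ : ℕ}
    (hQ : ∀ l : ℕ, b₁ ≤ l → QA Y B κ (D ^ l) b) (hu : Un (P j₀) (D (P j₀)))
    {K : Type} [Field K] [Algebra ℂ K] (ρ : P j₀ →ₐ[ℂ] K) (hsur : Function.Surjective ρ)
    (hρ : ∀ x : P j₀, ρ x = 0 ↔ ¬ Un (P j₀) (x : F)) :
    ∃ b₂ : ℕ, ∀ l : ℕ, b₂ ≤ l → ∃ φ : K, φ ≠ 0 ∧ (∀ σ ∈ rsG ρ G, σ φ = φ) ∧
      ∀ O ∈ Y, O ≤ P j₀ → ∀ x : P j₀,
        (x : F) = (D ^ l * ∏ j, B j ^ max (⌈b j⌉ - 1) 0 : Subalgebra ℂ F → Fˣ) O →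
          φ * ρ x ∈ rs ρ O := by
  classical
  obtain ⟨hP₀, hp⟩ := hB.mem j₀
  have hY := hs.proj
  have hloc := hY.isLocalRing hP₀
  have hb₀ : b j₀ = 0 := (hb0 j₀).2 ⟨1, G.one_mem, gm_one⟩
  have hun : ∀ j, j ≠ j₀ → Un (P j₀) (B j (P j₀)) := fun j hj =>
    (hB.eqn j _ hP₀ hp).2 fun h => hj (hB.inj h).symm
  -- the restrictions
  have hex : ∀ j, ∃ C : Subalgebra ℂ K → Kˣ, j ≠ j₀ → RD ρ Y (B j) C := by
    intro j
    by_cases hj : j = j₀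
    · exact ⟨1, fun h => (h hj).elim⟩
    · obtain ⟨C, hC⟩ := exists_rd hY hP₀ hsur hρ (hs.car j) (hun j hj)
      exact ⟨C, fun _ => hC⟩
  choose B₀ hB₀ using hex
  obtain ⟨D₀, hD₀⟩ := exists_rd hY hP₀ hsur hρ hD.1 hu
  have hJ : ∀ j : {j // b j ≠ 0}, (j : J) ≠ j₀ := fun j hj => j.2 (by rw [hj, hb₀])
  -- the other divisors of the orbit do not meet `P j₀`
  have htriv : ∀ j, b j = 0 → j ≠ j₀ → ∀ Q ∈ rsY ρ Y, Un Q (B₀ j Q) := by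
    rintro j hbj hj _ ⟨O, hO, hle, rfl⟩
    obtain ⟨γ, hγ, hγj⟩ := (hb0 j).1 hbj
    have h1 : Un O (B j O : F) := by
      by_contra hcon
      have h2 := (bd_le hB hs hO j).1.1 hcon
      have h3 := hst γ hγ j₀ O hO hle (by rw [hγj]; exact h2)
      exact hj (hB.inj (hγj.symm.trans h3))
    have h2 := (hB₀ j hj).2 O hO hle ⟨B j O, hle h1.2.1⟩ rfl
    have h3 := (un_rs hY hloc hρ hO hle (x := ⟨B j O, hle h1.2.1⟩) h1.2.1).2 h1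
    have h4 := h2.mul h3
    rwa [div_mul_cancel₀ _ h3.1] at h4
  -- the smooth variety `P j₀`
  have hj₀ : ¬ Un (P j₀) (B j₀ (P j₀) : F) := fun h =>
    ((hB.eqn j₀ _ hP₀ hp).1 rfl).2.1 h.2.2
  have hproj := rs_proj hY hP₀ hsur hρ
  have hdim := rs_trdeg hs.dim hp hsur hρ
  obtain ⟨A, hA, hAfr, -, -⟩ := hproj.exists_chart (O := rs ρ (P j₀)) ⟨P j₀, hP₀, le_rfl, rfl⟩
  obtain ⟨Δ₁, hΔ₁, -⟩ := exists_comm_frame (G := (⊥ : Subgroup (K ≃ₐ[ℂ] K))) ⟨A, hA, hAfr⟩ hdim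
    inferInstance
  obtain ⟨κ₁, hs₁, -⟩ := adj (j₀ := j₀) hs hP₀ hp hj₀ hsur hρ hΔ₁
    (e := ((↑) : {j // b j ≠ 0} → J)) Subtype.val_injective (fun j => hun j (hJ j))
    (B₀ := fun j => B₀ j) (fun j => hB₀ j (hJ j))
  obtain ⟨Δ₀, hG₀⟩ := base_rs hG hP₀ hp hsur hρ hs₁.normal
  obtain ⟨κ₀, hs₀, u, c, hκ⟩ := adj (j₀ := j₀) hs hP₀ hp hj₀ hsur hρ hG₀.frame
    (e := ((↑) : {j // b j ≠ 0} → J)) Subtype.val_injective (fun j => hun j (hJ j))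
    (B₀ := fun j => B₀ j) (fun j => hB₀ j (hJ j))
  obtain ⟨m, hm, e, he, hamp⟩ := hQ b₁ le_rfl
  have he₀ : e j₀ = -m := by
    have h1 := he j₀
    rw [hb₀] at h1
    have h2 : (e j₀ : ℚ) = ((-m : ℤ) : ℚ) := by
      rw [h1]
      push_cast
      ring
    exact_mod_cast h2
  -- ampleness
  have hc : IsCar Y (κ * B j₀ * fun _ => u) := car_mul (car_mul hs.kcar (hs.car j₀)) (car_const u)
  have hcD : IsCar Y ((D ^ b₁) ^ m) := car_pow (car_pow hD.1 b₁) m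
  have hcJ : ∀ k : J → ℤ, IsCar Y (∏ j : {j // b j ≠ 0}, B j ^ k j) := fun k =>
    car_prod _ fun j _ => car_zpow (hs.car j) _
  have hcT : IsCar Y (∏ j ∈ Finset.univ.filter (fun j => b j = 0 ∧ j ≠ j₀), B j ^ e j) :=
    car_prod _ fun j _ => car_zpow (hs.car j) _
  have hrJ : ∀ k : J → ℤ, RD ρ Y (∏ j : {j // b j ≠ 0}, B j ^ k j)
      (∏ j : {j // b j ≠ 0}, B₀ j ^ k j) := fun k =>
    StR_prod hP₀ Finset.univ (C := fun j : {j // b j ≠ 0} => B j) (C₀ := fun j => B₀ j)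
      (fun j _ => hs.car j) (fun j _ => hB₀ j (hJ j)) fun j => k j
  have hrT : RD ρ Y (∏ j ∈ Finset.univ.filter (fun j => b j = 0 ∧ j ≠ j₀), B j ^ e j)
      (∏ j ∈ Finset.univ.filter (fun j => b j = 0 ∧ j ≠ j₀), B₀ j ^ e j) :=
    StR_prod hP₀ _ (fun j _ => hs.car j) (fun j hj => hB₀ j (Finset.mem_filter.1 hj).2.2) e
  have hM : Amp Y ((D ^ b₁) ^ m * ((∏ j : {j // b j ≠ 0}, B j ^ e j) *
      ∏ j ∈ Finset.univ.filter (fun j => b j = 0 ∧ j ≠ j₀), B j ^ e j) *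
      ((κ * B j₀ * fun _ => u) ^ m)⁻¹) := by
    have h1 := amp_const hamp (u⁻¹ ^ m)
    rw [StR_split (fun j => B j ^ e j) b j₀ hb₀, he₀, zpow_neg, zpow_natCast] at h1
    have h2 : (fun _ => u⁻¹ ^ m : Subalgebra ℂ F → Fˣ) = ((fun _ => u) ^ m)⁻¹ :=
      (inv_eq_of_mul_eq_one_right (StR_const u m)).symm
    rw [h2] at h1
    have h3 : (D ^ b₁) ^ m * ((∏ j : {j // b j ≠ 0}, B j ^ e j) *
        ∏ j ∈ Finset.univ.filter (fun j => b j = 0 ∧ j ≠ j₀), B j ^ e j) *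
        ((κ * B j₀ * fun _ => u) ^ m)⁻¹ =
        (D ^ b₁) ^ m * ((∏ j : {j // b j ≠ 0}, B j ^ e j) *
        (∏ j ∈ Finset.univ.filter (fun j => b j = 0 ∧ j ≠ j₀), B j ^ e j) * (B j₀ ^ m)⁻¹) /
        κ ^ m * ((fun _ => u) ^ m)⁻¹ := by
      rw [mul_pow, mul_pow, div_eq_mul_inv, mul_inv, mul_inv]
      ac_rfl
    rw [h3]
    exact h1
  have hM₀ := amp_rs hY hP₀ hsur hρ
    (car_mul (car_mul hcD (car_mul (hcJ e) hcT)) (car_inv (car_pow hc m)))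
    (rd_mul hP₀ (car_mul hcD (car_mul (hcJ e) hcT)) (car_inv (car_pow hc m))
      (rd_mul hP₀ hcD (car_mul (hcJ e) hcT) (rd_pow hP₀ (car_pow hD.1 b₁)
        (rd_pow hP₀ hD.1 hD₀ b₁) m) (rd_mul hP₀ (hcJ e) hcT (hrJ e) hrT))
      (rd_inv hP₀ (car_pow hc m) (rd_pow hP₀ hc hκ m))) hM
  have hA₀ : Amp (rsY ρ Y) (D₀ ^ (b₁ * m) *
      ((∏ j : {j // b j ≠ 0}, B₀ j ^ e j) / κ₀ ^ m)) := by
    refine amp_congr (amp_const hM₀ (c ^ m)) fun Q hQ => ?_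
    have h1 : Un Q (∏ j ∈ Finset.univ.filter (fun j => b j = 0 ∧ j ≠ j₀), (B₀ j Q : K) ^ e j) :=
      Un.prod _ fun j hj => (htriv j (Finset.mem_filter.1 hj).2.1
        (Finset.mem_filter.1 hj).2.2 Q hQ).zpow _
    have h2 : ((((D₀ ^ b₁) ^ m * ((∏ j : {j // b j ≠ 0}, B₀ j ^ e j) *
        ∏ j ∈ Finset.univ.filter (fun j => b j = 0 ∧ j ≠ j₀), B₀ j ^ e j) *
        ((κ₀ * fun _ => c) ^ m)⁻¹) * fun _ => c ^ m) : Subalgebra ℂ K → Kˣ) =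
        (D₀ ^ (b₁ * m) * ((∏ j : {j // b j ≠ 0}, B₀ j ^ e j) / κ₀ ^ m)) *
        ∏ j ∈ Finset.univ.filter (fun j => b j = 0 ∧ j ≠ j₀), B₀ j ^ e j := by
      have h3 : (fun _ => c ^ m : Subalgebra ℂ K → Kˣ) = (fun _ => c) ^ m := rfl
      rw [h3, mul_pow κ₀, mul_inv, ← pow_mul, div_eq_mul_inv]
      have h4 : ∀ a p t k q : Subalgebra ℂ K → Kˣ, a * (p * t) * (k⁻¹ * q⁻¹) * q =
          a * (p * k⁻¹) * t := by
        intro a p t k q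
        rw [← mul_assoc, inv_mul_cancel_right]
        ac_rfl
      exact h4 _ _ _ _ _
    rw [h2, Pi.mul_apply, Units.val_mul, mul_div_cancel_left₀ _ (Units.ne_zero _),
      Finset.prod_apply, Units.coe_prod]
    simp only [Pi.pow_apply, Units.val_zpow_eq_zpow_val]
    exact h1
  -- invariance
  have hGI : GI (rsY ρ Y) (rsG ρ G) (∏ j : {j // b j ≠ 0}, B₀ j ^ e j) := by
    have h1 : GI Y G (∏ j, B j ^ (if b j = 0 then 0 else e j)) := by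
      refine bd_gi hB hs.car hG hP fun γ hγ j j' hjj' => ?_
      have h2 := hbi γ hγ j j' hjj'
      rw [h2]
      split_ifs
      · rfl
      · have h3 : (e j' : ℚ) = e j := by rw [he, he, h2]
        exact_mod_cast h3
    have h2 : ∏ j, B j ^ (if b j = 0 then 0 else e j) = ∏ j : {j // b j ≠ 0}, B j ^ e j := by
      rw [StR_split (fun j => B j ^ (if b j = 0 then 0 else e j)) b j₀ hb₀, if_pos hb₀, zpow_zero,
        mul_one]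
      have h3 : ∏ j ∈ Finset.univ.filter (fun j => b j = 0 ∧ j ≠ j₀),
          B j ^ (if b j = 0 then 0 else e j) = 1 :=
        Finset.prod_eq_one fun j hj => by
          rw [if_pos (Finset.mem_filter.1 hj).2.1, zpow_zero]
      rw [h3, mul_one]
      exact Finset.prod_congr rfl fun j _ => by rw [if_neg j.2]
    rw [h2] at h1
    exact gi_rs hY hG.st hP₀ hsur hρ (hcJ e) h1 (hrJ e)
  -- non-vanishing in dimension `n`
  obtain ⟨b₂, hb₂⟩ := StR_nv hNV hs₀ hG₀ (gc_rs hY hG.st hP₀ hsur hρ hD hD₀)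
    (nf_rs hY hP₀ hsur hρ hD.1 hD₀ hN) (b := fun j : {j // b j ≠ 0} => b j)
    (fun j => lt_of_le_of_ne (hb j) (Ne.symm j.2)) hm (e := fun j => e j) (fun j => he j) hGI hA₀
  refine ⟨b₂, fun l hl => ?_⟩
  obtain ⟨φ, hφ0, hφ, hsec⟩ := hb₂ l hl
  refine ⟨φ, hφ0, hφ, fun O hO hle x hx => ?_⟩
  have h2 : ∏ j, B j ^ max (⌈b j⌉ - 1) 0 = ∏ j : {j // b j ≠ 0}, B j ^ (⌈b j⌉ - 1) := by
    rw [StR_split (fun j => B j ^ max (⌈b j⌉ - 1) 0) b j₀ hb₀]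
    have h4 : ∀ j, b j = 0 → max (⌈b j⌉ - 1) 0 = 0 := fun j hj => by
      rw [hj, Int.ceil_zero]
      rfl
    have h3 : ∏ j ∈ Finset.univ.filter (fun j => b j = 0 ∧ j ≠ j₀),
        B j ^ max (⌈b j⌉ - 1) 0 = 1 :=
      Finset.prod_eq_one fun j hj => by
        rw [h4 j (Finset.mem_filter.1 hj).2.1, zpow_zero]
    rw [h3, mul_one, h4 j₀ hb₀, zpow_zero, mul_one]
    refine Finset.prod_congr rfl fun j _ => ?_
    have h5 : 0 < ⌈b j⌉ := Int.ceil_pos.2 (lt_of_le_of_ne (hb j) (Ne.symm j.2))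
    rw [max_eq_left (by omega)]
  rw [h2] at hx
  have h3 := rd_mul hP₀ (car_pow hD.1 l) (hcJ fun j => ⌈b j⌉ - 1) (rd_pow hP₀ hD.1 hD₀ l)
    (hrJ fun j => ⌈b j⌉ - 1)
  have h4 := h3.2 O hO hle x hx
  have h5 := hsec (rs ρ O) ⟨O, hO, hle, rfl⟩
  have h6 := (rs ρ O).mul_mem h5 h4.2.2
  have h7 : ρ x ≠ 0 := by
    intro h0
    have := h4.1
    rw [h0, div_zero] at this
    exact this rfl
  have h8 : ∀ v : K, v ≠ 0 → φ * v * (v / ρ x)⁻¹ = φ * ρ x := by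
    intro v hv
    field_simp
  rwa [h8 _ (Units.ne_zero _)] at h6

end Pool.Agent.KM
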