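import Pool.Agent.Lib.MP_732f67_ag.N.ResD
import Pool.Agent.Lib.MP_732f67_ag.N.Lift
import Pool.Agent.Lib.MP_732f67_ag.N.SncB
import Pool.Agent.Lib.MP_732f67_ag.N.StR

/-!
Part N: the induction step: sections which do not vanish on the minimal center.
-/

namespace Pool.Agent.KM

variable {F : Type} [Field F] [Algebra ℂ F] {Y : Set (Subalgebra ℂ F)} {n : ℕ} {J : Type}
  [Fintype J] {P : J → Subalgebra ℂ F} {B : J → Subalgebra ℂ F → Fˣ}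
  {Δ : Fin (n + 1) → Derivation ℂ F F} {κ : Subalgebra ℂ F → Fˣ} {G : Subgroup (F ≃ₐ[ℂ] F)}

/-- conjugate elements of an invariant divisor -/
private theorem stL_conj {E : Subalgebra ℂ F → Fˣ} (hE : GI Y G E) {γ : F ≃ₐ[ℂ] F} (hγ : γ ∈ G)
    {O : Subalgebra ℂ F} (hO : gm γ⁻¹ O ∈ Y) :
    Un O ((E O : F) / γ (E (gm γ⁻¹ O))) := by
  have h1 := hE γ hγ _ hO
  rwa [← gm_mul, mul_inv_cancel, gm_one] at h1

private theorem stL_mem {γ : F ≃ₐ[ℂ] F} {O : Subalgebra ℂ F} {x : F} (hx : x ∈ gm γ⁻¹ O) :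
    γ x ∈ O := by
  obtain ⟨y, hy, rfl⟩ := hx
  have h1 : γ (γ⁻¹ y) = y := γ.apply_symm_apply y
  have h2 : γ ((γ⁻¹ : F ≃ₐ[ℂ] F) y) ∈ O := by
    rw [h1]
    exact hy
  exact h2

/-- Lifting of the invariant section.

PROOF. `C = {j // b j = 0}`, `Bt = ∏ j : C, B j`, `E = D ^ l * ∏ B j ^ max (⌈b j⌉ - 1) 0`;
`E / Bt = D ^ l * ∏ B j ^ (⌈b j⌉ - 1)`, so `H1 Y (E / Bt)` by `hV` and `h1_of_hv`. `E` is invariant
(`gc_gi`, `bd_gi`). Let `ρ g₀ = φ` and `γ j ∈ G`, `gm (γ j) (P j₀) = P j`, `g j = γ j g₀`, for `j ∈ C`. `lift`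
(with `bd_le`, `bd_div`; the `P j`, `j ∈ C`, are disjoint by `strict`) gives `f₁ ∈ Sec Y E`. For every
`γ ∈ G` the difference `γ f₁ - g₀` is not a unit of `P j₀`, because `φ` is invariant
(`exists_sigma`). `f` = the average of the `γ f₁`. -/
theorem step_lift (hV : VX) (hs : Snc (n + 1) Y B Δ κ) (hG : Base (n + 1) Y G Δ)
    (hB : Bd Y P B) (hst : ∀ γ ∈ G, ∀ j, ∀ O ∈ Y, O ≤ P j → O ≤ gm γ (P j) → gm γ (P j) = P j)
    (hP : ∀ γ ∈ G, ∀ j, ∃ j', gm γ (P j) = P j') {D : Subalgebra ℂ F → Fˣ} (hD : GC Y G D)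
    {b : J → ℚ} (hb : ∀ j, 0 ≤ b j) {j₀ : J}
    (hb0 : ∀ j, b j = 0 ↔ ∃ γ ∈ G, gm γ (P j₀) = P j)
    (hbi : ∀ γ ∈ G, ∀ j j', gm γ (P j) = P j' → b j' = b j) {l : ℕ}
    (hQ : QA Y B κ (D ^ l) b) (hu : ∀ γ ∈ G, Un (gm γ (P j₀)) (D (gm γ (P j₀))))
    {K : Type} [Field K] [Algebra ℂ K] (ρ : P j₀ →ₐ[ℂ] K) (hsur : Function.Surjective ρ)
    (hρ : ∀ x : P j₀, ρ x = 0 ↔ ¬ Un (P j₀) (x : F)) {φ : K} (hφ : φ ≠ 0)
    (hφi : ∀ σ ∈ rsG ρ G, σ φ = φ)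
    (hφs : ∀ O ∈ Y, O ≤ P j₀ → ∀ x : P j₀,
      (x : F) = (D ^ l * ∏ j, B j ^ max (⌈b j⌉ - 1) 0 : Subalgebra ℂ F → Fˣ) O →
        φ * ρ x ∈ rs ρ O) :
    ∃ f : F, f ∈ Sec Y (D ^ l * ∏ j, B j ^ max (⌈b j⌉ - 1) 0) ∧ (∀ γ ∈ G, γ f = f) ∧
      Un (P j₀) f := by
  classical
  have hY := hG.proj
  set e : J → ℤ := fun j => max (⌈b j⌉ - 1) 0 with he
  set E : Subalgebra ℂ F → Fˣ := D ^ l * ∏ j, B j ^ e j with hEdef
  let o : J → ℤ := fun j => if b j = 0 then 1 else 0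
  set Bt : Subalgebra ℂ F → Fˣ := ∏ j, B j ^ o j with hBtdef
  have ho1 : ∀ j, b j = 0 → o j = 1 := fun j hj => if_pos hj
  have ho0 : ∀ j, b j ≠ 0 → o j = 0 := fun j hj => if_neg hj
  have he0 : ∀ j, b j = 0 → e j = 0 := by
    intro j hj
    simp only [he, hj, Int.ceil_zero]
    rfl
  have hEcar : IsCar Y E :=
    car_mul (car_pow hD.1 l) (car_prod _ fun j _ => car_zpow (hs.car j) _)
  have hBtcar : IsCar Y Bt := car_prod _ fun j _ => car_zpow (hs.car j) _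
  have hEGI : GI Y G E := by
    refine gi_mul (gi_pow (gc_gi hD) l) (bd_gi hB hs.car hG hP fun γ hγ j j' h => ?_)
    simp only [he, hbi γ hγ j j' h]
  have hEval : ∀ O, (E O : F) = (D O : F) ^ l * ∏ j, (B j O : F) ^ e j := by
    intro O
    rw [hEdef, Pi.mul_apply, Pi.pow_apply, Finset.prod_apply, Units.val_mul,
      Units.val_pow_eq_pow_val, Units.coe_prod]
    refine congrArg _ (Finset.prod_congr rfl fun j _ => ?_)
    rw [Pi.pow_apply, Units.val_zpow_eq_zpow_val]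
  have hBtval : ∀ O, (Bt O : F) = ∏ j, (B j O : F) ^ o j := by
    intro O
    rw [hBtdef, Finset.prod_apply, Units.coe_prod]
    refine Finset.prod_congr rfl fun j _ => ?_
    rw [Pi.pow_apply, Units.val_zpow_eq_zpow_val]
  -- the orbit is disjoint
  have hdis : ∀ c c' : {j : J // b j = 0}, c ≠ c' → ∀ O ∈ Y, O ≤ P c → ¬ O ≤ P c' := by
    intro c c' hne O hO h1 h2
    obtain ⟨γ, hγ, hγ'⟩ := (hb0 c).1 c.2
    obtain ⟨δ, hδ, hδ'⟩ := (hb0 c').1 c'.2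
    have h3 : gm (δ * γ⁻¹) (P c) = P c' := by
      rw [← hγ', ← gm_mul, inv_mul_cancel_right, hδ']
    have h4 := hst (δ * γ⁻¹) (G.mul_mem hδ (G.inv_mem hγ)) c O hO h1 (h3.symm ▸ h2)
    rw [h3] at h4
    exact hne (Subtype.ext (hB.inj h4.symm))
  have hBu : ∀ O ∈ Y, ∀ j, ¬ O ≤ P j → Un O (B j O : F) := by
    intro O hO j hj
    by_contra h
    exact hj ((bd_le hB hs hO j).1.1 h)
  have hB1 : ∀ O ∈ Y, (∀ c : {j : J // b j = 0}, ¬ O ≤ P c) → Un O (Bt O : F) := by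
    intro O hO h
    rw [hBtval]
    refine Un.prod _ fun j _ => ?_
    by_cases hj : b j = 0
    · exact (hBu O hO j (h ⟨j, hj⟩)).zpow _
    · rw [ho0 j hj, zpow_zero]
      exact Un.one _
  have hB2 : ∀ O ∈ Y, ∀ c : {j : J // b j = 0}, O ≤ P c → (Bt O : F) ∈ O ∧
      ∀ x ∈ O, ¬ Un (P c) x → x / Bt O ∈ O := by
    intro O hO c hc
    have h1 : (Bt O : F) = (B c O : F) * ∏ j ∈ Finset.univ.erase (c : J), (B j O : F) ^ o j := by
      rw [hBtval, ← Finset.mul_prod_erase _ _ (Finset.mem_univ (c : J)), ho1 c c.2, zpow_one]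
    have h2 : Un O (∏ j ∈ Finset.univ.erase (c : J), (B j O : F) ^ o j) := by
      refine Un.prod _ fun j hj => ?_
      by_cases hj0 : b j = 0
      · refine (hBu O hO j (hdis c ⟨j, hj0⟩ ?_ O hO hc)).zpow _
        intro h
        exact (Finset.mem_erase.1 hj).1 (congrArg Subtype.val h).symm
      · rw [ho0 j hj0, zpow_zero]
        exact Un.one _
    refine ⟨?_, fun x hx hxu => ?_⟩
    · rw [h1]
      exact O.mul_mem (bd_le hB hs hO c).2 h2.2.1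
    · rw [h1, ← div_div, div_eq_mul_inv (x / _)]
      exact O.mul_mem (bd_div hB hs hO hc hx hxu) h2.2.2
  have hB3 : ∀ c : {j : J // b j = 0}, ¬ Un (P c) (Bt (P c) : F) := by
    intro c hun
    have h1 : (Bt (P c) : F) = (B c (P c) : F) *
        ∏ j ∈ Finset.univ.erase (c : J), (B j (P c) : F) ^ o j := by
      rw [hBtval, ← Finset.mul_prod_erase _ _ (Finset.mem_univ (c : J)), ho1 c c.2, zpow_one]
    have h2 : Un (P c) (∏ j ∈ Finset.univ.erase (c : J), (B j (P c) : F) ^ o j) := by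
      refine Un.prod _ fun j hj => ?_
      by_cases hj0 : b j = 0
      · refine (hBu _ (hB.mem c).1 j (hdis c ⟨j, hj0⟩ ?_ _ (hB.mem c).1 le_rfl)).zpow _
        intro h
        exact (Finset.mem_erase.1 hj).1 (congrArg Subtype.val h).symm
      · rw [ho0 j hj0, zpow_zero]
        exact Un.one _
    have h3 := hun.div h2
    rw [h1, mul_div_cancel_right₀ _ h2.1] at h3
    exact ((hB.eqn c _ (hB.mem c).1 (hB.mem c).2).1 rfl).2.1 h3.2.2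
  -- `E` is a unit at the orbit
  have hE' : ∀ c : {j : J // b j = 0}, Un (P c) (E (P c) : F) := by
    intro c
    rw [hEval]
    obtain ⟨γ, hγ, hγ'⟩ := (hb0 c).1 c.2
    refine Un.mul ?_ (Un.prod _ fun j _ => ?_)
    · have h1 := hu γ hγ
      rw [hγ'] at h1
      exact h1.pow l
    · by_cases hj : j = c
      · rw [hj, he0 c c.2, zpow_zero]
        exact Un.one _
      · refine Un.zpow (((hB.eqn j _ (hB.mem c).1 (hB.mem c).2).2 ?_)) _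
        intro h
        exact hj (hB.inj h).symm
  have h1 : H1 Y (E / Bt) := by
    refine h1_of_hv hY (car_div hEcar hBtcar) ?_
    have h2 : E / Bt = D ^ l * ∏ j, B j ^ (⌈b j⌉ - 1) := by
      rw [hEdef, hBtdef, mul_div_assoc, ← Finset.prod_div_distrib]
      refine congrArg _ (Finset.prod_congr rfl fun j _ => ?_)
      rw [div_eq_mul_inv, ← zpow_sub]
      refine congrArg _ ?_
      by_cases hj : b j = 0
      · rw [ho1 j hj, he0 j hj, hj, Int.ceil_zero]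
      · have h3 : 0 < b j := lt_of_le_of_ne (hb j) (Ne.symm hj)
        have h4 : 0 < ⌈b j⌉ := Int.ceil_pos.2 h3
        rw [ho0 j hj, sub_zero]
        exact max_eq_left (by omega)
    rw [h2]
    exact hV (n + 1) F J Y B Δ κ hs (D ^ l) b (car_pow hD.1 l) hQ
  -- the conjugates of a lift of `φ`
  obtain ⟨g₀, hg₀⟩ := hsur φ
  have hC : ∀ c : {j : J // b j = 0}, ∃ γ ∈ G, gm γ (P j₀) = P c := fun c => (hb0 c).1 c.2
  choose γc hγc hγc' using hC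
  have hg : ∀ c : {j : J // b j = 0}, ∀ O ∈ Y, O ≤ P c → ∃ h ∈ O,
      γc c (g₀ : F) * E O - h ∈ P c ∧ ¬ Un (P c) (γc c (g₀ : F) * E O - h) := by
    intro c O hO hc
    have hO₁ : gm (γc c)⁻¹ O ∈ Y := hG.st _ (G.inv_mem (hγc c)) O hO
    have hle : gm (γc c)⁻¹ O ≤ P j₀ := by
      have h2 := gm_mono (γ := (γc c)⁻¹) hc
      rwa [← hγc' c, ← gm_mul, inv_mul_cancel, gm_one] at h2
    have hEP : (E (gm (γc c)⁻¹ O) : F) ∈ P j₀ := by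
      have hj₀ : b j₀ = 0 := (hb0 j₀).2 ⟨1, G.one_mem, gm_one⟩
      have h2 := hEcar.un_of_le hO₁ (hB.mem j₀).1 hle
      have h3 := h2.mul (hE' ⟨j₀, hj₀⟩)
      rw [← Units.val_mul, div_mul_cancel] at h3
      exact h3.2.1
    obtain ⟨z, hz, hz'⟩ := mem_rs.1 (hφs _ hO₁ hle ⟨_, hEP⟩ rfl)
    have hu1 := stL_conj hEGI (hγc c) hO₁
    set u : F := (E O : F) / γc c (E (gm (γc c)⁻¹ O)) with hudef
    have hγ0 : γc c (E (gm (γc c)⁻¹ O) : F) ≠ 0 :=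
      (map_ne_zero_iff _ (γc c).injective).2 (E _).ne_zero
    have hEO : (E O : F) = u * γc c (E (gm (γc c)⁻¹ O)) := (div_mul_cancel₀ _ hγ0).symm
    have hk : ρ (g₀ * ⟨_, hEP⟩ - z) = 0 := by
      rw [map_sub, map_mul, hg₀, hz', sub_self]
    have hk' := (hρ _).1 hk
    have hkP : γc c ((g₀ * ⟨_, hEP⟩ - z : P j₀) : F) ∈ P c := by
      rw [← hγc' c]
      exact ⟨_, (g₀ * ⟨_, hEP⟩ - z : P j₀).2, rfl⟩
    have hkU : ¬ Un (P c) (γc c ((g₀ * ⟨_, hEP⟩ - z : P j₀) : F)) := by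
      rw [← hγc' c, un_gm]
      exact hk'
    have hdiff : γc c (g₀ : F) * E O - γc c (z : F) * u =
        u * γc c ((g₀ * ⟨_, hEP⟩ - z : P j₀) : F) := by
      have h2 : ((g₀ * ⟨_, hEP⟩ - z : P j₀) : F) = (g₀ : F) * E (gm (γc c)⁻¹ O) - z := rfl
      rw [hEO, h2, map_sub, map_mul]
      ring
    have huP : Un (P c) u := hu1.mono hc
    refine ⟨γc c (z : F) * u, O.mul_mem (stL_mem hz) hu1.2.1, ?_, ?_⟩
    · rw [hdiff]
      exact (P c).mul_mem huP.2.1 hkP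
    · rw [hdiff]
      intro h2
      have h3 := huP.inv.mul h2
      rw [inv_mul_cancel_left₀ huP.1] at h3
      exact hkU h3
  obtain ⟨f₁, hf₁, hf₁'⟩ := lift (P := fun c : {j : J // b j = 0} => P c)
    (fun c => hB.mem c) hdis hBtcar hB1 hB2 hB3 hEcar hE' h1 hg
  -- all conjugates of `f₁` have the residue `φ`
  have hres : ∀ γ ∈ G, ∃ h : γ f₁ ∈ P j₀, ρ ⟨γ f₁, h⟩ = φ := by
    intro γ hγ
    obtain ⟨j, hj⟩ := hP γ⁻¹ (G.inv_mem hγ) j₀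
    have hbj : b j = 0 := (hb0 j).2 ⟨γ⁻¹, G.inv_mem hγ, hj⟩
    have hPj : gm γ (P j) = P j₀ := by
      rw [← hj, ← gm_mul, mul_inv_cancel, gm_one]
    have hcj := hγc' ⟨j, hbj⟩
    obtain ⟨h2, h3⟩ := hf₁' ⟨j, hbj⟩
    have h4 : γ (f₁ - γc ⟨j, hbj⟩ (g₀ : F)) ∈ P j₀ := hPj.le ⟨_, h2, rfl⟩
    have h5 : ¬ Un (P j₀) (γ (f₁ - γc ⟨j, hbj⟩ (g₀ : F))) := by
      intro h
      have h' : Un (gm γ (P j)) (γ (f₁ - γc ⟨j, hbj⟩ (g₀ : F))) := h.mono hPj.ge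
      exact h3 (un_gm.1 h')
    have h6 : gm (γ * γc ⟨j, hbj⟩) (P j₀) = P j₀ := by
      rw [gm_mul, hcj]
      exact hPj
    obtain ⟨σ, hσ, hσ'⟩ := exists_sigma (G := G) hsur hρ (G.mul_mem hγ (hγc ⟨j, hbj⟩)) h6
    have h7 : (γ * γc ⟨j, hbj⟩) (g₀ : F) ∈ P j₀ := by
      have h8 : (γ * γc ⟨j, hbj⟩) (g₀ : F) ∈ gm (γ * γc ⟨j, hbj⟩) (P j₀) := ⟨_, g₀.2, rfl⟩
      rwa [h6] at h8
    have h8 : ρ ⟨_, h7⟩ = φ := by
      rw [← hσ' g₀ ⟨_, h7⟩ rfl, hg₀]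
      exact hφi σ hσ
    have h9 : γ f₁ = γ (f₁ - γc ⟨j, hbj⟩ (g₀ : F)) + (γ * γc ⟨j, hbj⟩) (g₀ : F) := by
      rw [map_sub]
      change γ f₁ = γ f₁ - γ (γc ⟨j, hbj⟩ (g₀ : F)) + γ (γc ⟨j, hbj⟩ (g₀ : F))
      ring
    have h10 : γ f₁ ∈ P j₀ := by
      rw [h9]
      exact (P j₀).add_mem h4 h7
    refine ⟨h10, ?_⟩
    have h11 : (⟨γ f₁, h10⟩ : P j₀) = ⟨_, h4⟩ + ⟨_, h7⟩ := Subtype.ext h9
    rw [h11, map_add, h8, (hρ ⟨_, h4⟩).2 h5, zero_add]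
  -- the average
  have hfin : Finite G := hG.fin
  let _ : Fintype G := Fintype.ofFinite G
  have hN : (Fintype.card G : ℂ) ≠ 0 := by
    exact_mod_cast Fintype.card_ne_zero
  have hsumP : ∑ γ : G, (γ : F ≃ₐ[ℂ] F) f₁ ∈ P j₀ :=
    Subalgebra.sum_mem _ fun γ _ => (hres γ γ.2).1
  have hsumρ : ρ ⟨_, hsumP⟩ = (Fintype.card G : K) * φ := by
    have h2 : (⟨∑ γ : G, (γ : F ≃ₐ[ℂ] F) f₁, hsumP⟩ : P j₀) =
        ∑ γ : G, ⟨(γ : F ≃ₐ[ℂ] F) f₁, (hres γ γ.2).1⟩ := by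
      apply Subtype.ext
      rw [AddSubmonoidClass.coe_finsetSum]
    rw [h2, map_sum, Finset.sum_congr rfl fun γ _ => (hres γ.1 γ.2).2, Finset.sum_const,
      Finset.card_univ, nsmul_eq_mul]
  have hNK : (Fintype.card G : K) ≠ 0 := by
    have h2 := (map_ne_zero (algebraMap ℂ K)).2 hN
    rwa [map_natCast] at h2
  refine ⟨∑ γ : G, (γ : F ≃ₐ[ℂ] F) f₁,
    Submodule.sum_mem _ fun γ _ => sec_gm hG.st hEGI γ.2 hf₁, fun δ hδ => ?_, ?_⟩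
  · rw [map_sum]
    exact Fintype.sum_equiv (Equiv.mulLeft (⟨δ, hδ⟩ : G)) _ _ fun x => rfl
  · by_contra h2
    have h3 := (hρ ⟨_, hsumP⟩).2 h2
    rw [hsumρ] at h3
    exact mul_ne_zero hNK hφ h3

end Pool.Agent.KM
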