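import Pool.Agent.Lib.MP_732f67_ag.N.ResD
import Pool.Agent.Lib.MP_732f67_ag.N.Lift
import Pool.Agent.Lib.MP_732f67_ag.N.SncB
import Pool.Agent.Lib.MP_732f67_ag.N.StR
import Pool.Agent.Lib.MP_732f67_ag.N.StL

/-!
Part N: the induction step: sections which do not vanish on the minimal center.
-/

namespace Pool.Agent.KM

variable {F : Type} [Field F] [Algebra ℂ F] {Y : Set (Subalgebra ℂ F)} {n : ℕ} {J : Type}
  [Fintype J] {P : J → Subalgebra ℂ F} {B : J → Subalgebra ℂ F → Fˣ}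
  {Δ : Fin (n + 1) → Derivation ℂ F F} {κ : Subalgebra ℂ F → Fˣ} {G : Subgroup (F ≃ₐ[ℂ] F)}

/-- the residue map -/
private theorem stS_res {O : Subalgebra ℂ F} (h : PrimDiv O) :
    ∃ (K : Type) (_ : Field K) (_ : Algebra ℂ K) (ρ : O →ₐ[ℂ] K), Function.Surjective ρ ∧
      ∀ x : O, ρ x = 0 ↔ ¬ Un O (x : F) := by
  have hd := h.1
  refine ⟨IsLocalRing.ResidueField O, inferInstance, inferInstance,
    IsScalarTower.toAlgHom ℂ O (IsLocalRing.ResidueField O), IsLocalRing.residue_surjective,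
    fun x => ?_⟩
  have h1 : IsScalarTower.toAlgHom ℂ O (IsLocalRing.ResidueField O) x = IsLocalRing.residue O x :=
    rfl
  rw [h1, IsLocalRing.residue_eq_zero_iff, IsLocalRing.mem_maximalIdeal, mem_nonunits_iff]
  refine not_congr ⟨fun hu => ?_, fun hu => ?_⟩
  · obtain ⟨u, rfl⟩ := hu
    have h2 : ((u : O) : F) * ((u⁻¹ : Oˣ) : O) = 1 := congrArg Subtype.val u.mul_inv
    refine ⟨left_ne_zero_of_mul_eq_one h2, (u : O).2, ?_⟩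
    rw [inv_eq_of_mul_eq_one_right h2]
    exact ((u⁻¹ : Oˣ) : O).2
  · exact IsUnit.of_mul_eq_one ⟨_, hu.2.2⟩ (Subtype.ext (mul_inv_cancel₀ hu.1))

/-- The induction step.

PROOF. `δ` an invariant local equation of `D` at `P j₀` (`GC`); replace `D` by `D / δ` (`nf_const`, `QA`
does not change: `amp_const`). `step_res`, `step_lift`; `f / δ ^ l`. -/
theorem step (hNV : NV n) (hV : VX) (hs : Snc (n + 1) Y B Δ κ) (hG : Base (n + 1) Y G Δ)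
    (hB : Bd Y P B) (hst : ∀ γ ∈ G, ∀ j, ∀ O ∈ Y, O ≤ P j → O ≤ gm γ (P j) → gm γ (P j) = P j)
    (hP : ∀ γ ∈ G, ∀ j, ∃ j', gm γ (P j) = P j') {D : Subalgebra ℂ F → Fˣ} (hD : GC Y G D)
    (hN : Nf Y D) {b : J → ℚ} (hb : ∀ j, 0 ≤ b j) {j₀ : J}
    (hb0 : ∀ j, b j = 0 ↔ ∃ γ ∈ G, gm γ (P j₀) = P j)
    (hbi : ∀ γ ∈ G, ∀ j j', gm γ (P j) = P j' → b j' = b j) {b₁ : ℕ}
    (hQ : ∀ l : ℕ, b₁ ≤ l → QA Y B κ (D ^ l) b) :
    ∃ b₂ : ℕ, ∀ l : ℕ, b₂ ≤ l → ∃ f : F,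
      f ∈ Sec Y (D ^ l * ∏ j, B j ^ max (⌈b j⌉ - 1) 0) ∧ (∀ γ ∈ G, γ f = f) ∧
      Un (P j₀) (f * (D (P j₀) : F) ^ l) := by
  obtain ⟨δ, hδ0, hδ, hδu⟩ := hD.2 _ (hB.mem j₀).1
  obtain ⟨K, iK, iA, ρ, hsur, hρ⟩ := stS_res (hB.mem j₀).2
  set u : Fˣ := (Units.mk0 δ hδ0)⁻¹ with hu
  have huv : (u : F) = δ⁻¹ := by
    rw [hu, Units.val_inv_eq_inv_val, Units.val_mk0]
  set D' : Subalgebra ℂ F → Fˣ := D * fun _ => u with hD'
  have hD'v : ∀ O, (D' O : F) = D O / δ := by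
    intro O
    rw [hD', Pi.mul_apply, Units.val_mul, huv, div_eq_mul_inv]
  have hu' : ∀ γ ∈ G, Un (gm γ (P j₀)) (D' (gm γ (P j₀)) : F) := by
    intro γ hγ
    rw [hD'v]
    exact hδu γ hγ
  have hcG : GC Y G (fun _ => u) := by
    refine ⟨car_const u, fun O _ => ⟨u, u.ne_zero, fun γ hγ => ?_, fun γ _ => ?_⟩⟩
    · rw [huv, map_inv₀, hδ γ hγ]
    · rw [div_self u.ne_zero]
      exact Un.one _
  have hDG : GC Y G D' := gc_mul hD hcG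
  have hDN : Nf Y D' := nf_const hN u
  have hpow : ∀ l : ℕ, D' ^ l = D ^ l * fun _ => u ^ l := by
    intro l
    rw [hD', mul_pow]
    rfl
  have hDQ : ∀ l : ℕ, b₁ ≤ l → QA Y B κ (D' ^ l) b := by
    intro l hl
    obtain ⟨m, hm, e, he, hA⟩ := hQ l hl
    refine ⟨m, hm, e, he, ?_⟩
    have h1 : (D' ^ l) ^ m * (∏ j, B j ^ e j) / κ ^ m =
        (D ^ l) ^ m * (∏ j, B j ^ e j) / κ ^ m * fun _ => (u ^ l) ^ m := by
      rw [hpow, mul_pow]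
      have h2 : ((fun _ => u ^ l : Subalgebra ℂ F → Fˣ) ^ m) = fun _ => (u ^ l) ^ m := rfl
      rw [h2, div_eq_mul_inv, div_eq_mul_inv, mul_right_comm ((D ^ l) ^ m), mul_right_comm]
    rw [h1]
    exact amp_const hA _
  have h1 : gm (1 : F ≃ₐ[ℂ] F) (P j₀) = P j₀ := gm_one
  have hu1 : Un (P j₀) (D' (P j₀) : F) := by
    have h2 := hu' 1 G.one_mem
    rwa [h1] at h2
  obtain ⟨b₂, hb₂⟩ := step_res hNV hs hG hB hst hP hDG hDN hb hb0 hbi hDQ hu1 ρ hsur hρ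
  refine ⟨max b₁ b₂, fun l hl => ?_⟩
  obtain ⟨φ, hφ, hφi, hφs⟩ := hb₂ l (le_trans (le_max_right _ _) hl)
  obtain ⟨f, hf, hfi, hfu⟩ := step_lift hV hs hG hB hst hP hDG hb hb0 hbi
    (hDQ l (le_trans (le_max_left _ _) hl)) hu' ρ hsur hρ hφ hφi hφs
  refine ⟨f / δ ^ l, fun O hO => ?_, fun γ hγ => ?_, ?_⟩
  · have h2 := hf O hO
    have h3 : f / δ ^ l * ((D ^ l * ∏ j, B j ^ max (⌈b j⌉ - 1) 0 : Subalgebra ℂ F → Fˣ) O : Fˣ) =
        f * ((D' ^ l * ∏ j, B j ^ max (⌈b j⌉ - 1) 0 : Subalgebra ℂ F → Fˣ) O : Fˣ) := by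
      rw [Pi.mul_apply, Pi.mul_apply, Units.val_mul, Units.val_mul, Pi.pow_apply, Pi.pow_apply,
        Units.val_pow_eq_pow_val, Units.val_pow_eq_pow_val, hD'v, div_pow]
      ring
    rw [h3]
    exact h2
  · rw [map_div₀, map_pow, hδ γ hγ, hfi γ hγ]
  · have h2 := hfu.mul (hu1.pow l)
    rw [hD'v] at h2
    have h3 : f / δ ^ l * (D (P j₀) : F) ^ l = f * ((D (P j₀) : F) / δ) ^ l := by
      rw [div_pow]
      ring
    rw [h3]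
    exact h2

end Pool.Agent.KM
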