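import Mathlib

/-!
Part N: the threshold and its perturbation.
-/

namespace Pool.Agent.KM

/-- PROOF. Let `δ > 0` be at most `ε` and `min p j / 2`, and `τ > 0` small (`τ ≤ τ₀`,
`τ (p j + δ) < A j` for all `j`). First `q = p`; let `j₀` be an index with `M j > 0` and
`(A j - τ q j) / M j` minimal; then increase `q` by `δ` on the class of `j₀`: now exactly the indices of
the class of `j₀` are minimal. `c` = the minimum. -/
theorem threshold {J : Type} [Fintype J] (R : Setoid J) (A M p : J → ℚ) (hA : ∀ j, 0 < A j)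
    (hM : ∀ j, 0 ≤ M j) (hM0 : ∃ j, 0 < M j) (hp : ∀ j, 0 < p j)
    (hR : ∀ j j', R.r j j' → A j = A j' ∧ M j = M j' ∧ p j = p j') {ε τ₀ : ℚ} (hε : 0 < ε)
    (hτ₀ : 0 < τ₀) :
    ∃ (c τ : ℚ) (q : J → ℚ) (j₀ : J), 0 < c ∧ 0 < τ ∧ τ ≤ τ₀ ∧ (∀ j, |q j - p j| ≤ ε) ∧
      (∀ j j', R.r j j' → q j = q j') ∧ 0 < M j₀ ∧ (∀ j, 0 ≤ A j - (c * M j + τ * q j)) ∧
      (∀ j, A j - (c * M j + τ * q j) = 0 ↔ R.r j j₀) ∧
      ∀ (C : ℚ) (j : J), 0 < C → C * A j < M j → c * C < 1 := by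
  classical
  obtain ⟨j1, hj1⟩ := hM0
  -- the small number `τ`
  obtain ⟨τ, hτ, hττ, hτA⟩ : ∃ τ : ℚ, 0 < τ ∧ τ ≤ τ₀ ∧ ∀ j, τ * (p j + ε) < A j := by
    obtain ⟨j2, -, hj2⟩ := Finset.exists_min_image Finset.univ (fun j => A j / (2 * (p j + ε)))
      ⟨j1, Finset.mem_univ _⟩
    have h1 : ∀ j, 0 < p j + ε := fun j => add_pos (hp j) hε
    have h2 : 0 < A j2 / (2 * (p j2 + ε)) := div_pos (hA j2) (by linarith [h1 j2])
    refine ⟨min τ₀ (A j2 / (2 * (p j2 + ε))), lt_min hτ₀ h2, min_le_left _ _, fun j => ?_⟩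
    have h3 : min τ₀ (A j2 / (2 * (p j2 + ε))) ≤ A j / (2 * (p j + ε)) :=
      (min_le_right _ _).trans (hj2 j (Finset.mem_univ _))
    have h4 : A j / (2 * (p j + ε)) * (p j + ε) = A j / 2 := by
      have := (h1 j).ne'
      field_simp
    calc min τ₀ (A j2 / (2 * (p j2 + ε))) * (p j + ε) ≤ A j / (2 * (p j + ε)) * (p j + ε) :=
          mul_le_mul_of_nonneg_right h3 (h1 j).le
      _ = A j / 2 := h4
      _ < A j := by linarith [hA j]
  -- the minimal index
  obtain ⟨j₀, hj₀, hmin⟩ := Finset.exists_min_image (Finset.univ.filter fun j => 0 < M j)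
    (fun j => (A j - τ * p j) / M j) ⟨j1, Finset.mem_filter.2 ⟨Finset.mem_univ _, hj1⟩⟩
  have hM₀ : 0 < M j₀ := (Finset.mem_filter.1 hj₀).2
  obtain ⟨q, hq⟩ : ∃ q : J → ℚ, q = fun j => p j + if R.r j j₀ then ε else 0 := ⟨_, rfl⟩
  have hq1 : ∀ j, R.r j j₀ → q j = p j + ε := fun j h => by
    rw [hq]
    simp only
    rw [if_pos h]
  have hq2 : ∀ j, ¬ R.r j j₀ → q j = p j := fun j h => by
    rw [hq]
    simp only
    rw [if_neg h, add_zero]
  have hqle : ∀ j, q j ≤ p j + ε := fun j => by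
    by_cases h : R.r j j₀
    · exact (hq1 j h).le
    · rw [hq2 j h]
      linarith
  have hqge : ∀ j, p j ≤ q j := fun j => by
    by_cases h : R.r j j₀
    · rw [hq1 j h]
      linarith
    · exact (hq2 j h).ge
  obtain ⟨c, hc⟩ : ∃ c : ℚ, c = (A j₀ - τ * (p j₀ + ε)) / M j₀ := ⟨_, rfl⟩
  have hcM : c * M j₀ = A j₀ - τ * (p j₀ + ε) := by
    rw [hc, div_mul_cancel₀ _ hM₀.ne']
  have hc0 : 0 < c := by
    rw [hc]
    exact div_pos (by linarith [hτA j₀]) hM₀
  have hclt : c < (A j₀ - τ * p j₀) / M j₀ := by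
    rw [hc]
    refine div_lt_div_of_pos_right ?_ hM₀
    have : τ * (p j₀ + ε) = τ * p j₀ + τ * ε := mul_add _ _ _
    have := mul_pos hτ hε
    linarith
  -- the three cases
  have hz : ∀ j, R.r j j₀ → A j - (c * M j + τ * q j) = 0 := by
    intro j h
    obtain ⟨h1, h2, h3⟩ := hR j j₀ h
    rw [hq1 j h, h1, h2, h3, hcM]
    ring
  have hpos : ∀ j, ¬ R.r j j₀ → 0 < A j - (c * M j + τ * q j) := by
    intro j h
    rw [hq2 j h]
    rcases eq_or_lt_of_le (hM j) with h1 | h1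
    · rw [← h1, mul_zero, zero_add]
      have h2 := hτA j
      have h3 : τ * (p j + ε) = τ * p j + τ * ε := mul_add _ _ _
      have h4 := mul_pos hτ hε
      linarith
    · have h2 := hmin j (Finset.mem_filter.2 ⟨Finset.mem_univ _, h1⟩)
      have h3 : c < (A j - τ * p j) / M j := hclt.trans_le h2
      rw [lt_div_iff₀ h1] at h3
      linarith
  have hnn : ∀ j, 0 ≤ A j - (c * M j + τ * q j) := fun j => by
    by_cases h : R.r j j₀
    · exact (hz j h).ge
    · exact (hpos j h).le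
  refine ⟨c, τ, q, j₀, hc0, hτ, hττ, fun j => ?_, fun j j' h => ?_, hM₀, hnn, fun j => ?_,
    fun C j hC hj => ?_⟩
  · rw [abs_le]
    constructor
    · linarith [hqge j]
    · linarith [hqle j]
  · have h3 := (hR j j' h).2.2
    by_cases h1 : R.r j j₀
    · have h2 : R.r j' j₀ := R.trans (R.symm h) h1
      rw [hq1 j h1, hq1 j' h2, h3]
    · have h2 : ¬ R.r j' j₀ := fun h2 => h1 (R.trans h h2)
      rw [hq2 j h1, hq2 j' h2, h3]
  · constructor
    · intro h
      by_contra h1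
      exact absurd h (hpos j h1).ne'
    · exact hz j
  · have h1 := hnn j
    have h2 : 0 < τ * q j := mul_pos hτ (lt_of_lt_of_le (hp j) (hqge j))
    have h3 : c * (C * A j) < c * M j := mul_lt_mul_of_pos_left hj hc0
    have h4 : c * C * A j < 1 * A j := by
      rw [mul_assoc]
      linarith
    exact lt_of_mul_lt_mul_right h4 (hA j).le

end Pool.Agent.KM
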