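import Pool.Agent.Lib.MP_732f67_ag.N.Pert
import Pool.Agent.Lib.MP_732f67_ag.N.Mult
import Pool.Agent.Lib.MP_732f67_ag.N.Step
import Pool.Agent.Lib.MP_732f67_ag.N.Th

/-!
Part N: the non-vanishing theorem if there are sections of high multiplicity.
-/

namespace Pool.Agent.KM

namespace GMod

variable {F : Type} [Field F] [Algebra ℂ F] {Y : Set (Subalgebra ℂ F)} {d : ℕ}
  {G : Subgroup (F ≃ₐ[ℂ] F)} {Δ : Fin d → Derivation ℂ F F} {Φ : Finset F}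
  {D ν H E : Subalgebra ℂ F → Fˣ} {m a : ℕ} (M : GMod d Y G Δ Φ H)

/-- the divisor of a section `s`, with `s * E O ∈ Φ` up to units, is supported by the boundary
(`exp`, `un`, `sec_pb`) -/
theorem sec_exp (hY : Base d Y G Δ) (hE : IsCar Y E) {s : F} (hs0 : s ≠ 0)
    (hs : s ∈ Sec Y E) (hΦ : ∀ O ∈ Y, ∃ t ∈ Φ, Un O (s * E O / t)) :
    (∀ j, 0 ≤ oD (M.P j) (M.i s * pb M.i Y E (M.P j))) ∧ ∀ O' ∈ M.Y',
      Un O' (M.i s * pb M.i Y E O' /
        ∏ j, (M.B j O' : M.F') ^ oD (M.P j) (M.i s * pb M.i Y E (M.P j))) := by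
  have hmor := M.mor hY.proj
  have hs0' : M.i s ≠ 0 := (map_ne_zero M.i).2 hs0
  obtain ⟨E₁, hE₁⟩ : ∃ E₁ : Subalgebra ℂ M.F' → M.F'ˣ,
    E₁ = (fun _ => Units.mk0 (M.i s) hs0') * pb M.i Y E := ⟨_, rfl⟩
  have hcar : IsCar M.Y' E₁ := by
    rw [hE₁]
    exact car_mul (car_const _) (car_pb hmor hE)
  have hval : ∀ O', (E₁ O' : M.F') = M.i s * pb M.i Y E O' := fun O' => by
    rw [hE₁]
    rfl
  refine ⟨fun j => ?_, fun O' hO' => ?_⟩
  · have hP := M.bd.mem j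
    rw [oD_nonneg hP.2 (mul_ne_zero hs0' (Units.ne_zero _))]
    exact sec_pb hmor hs _ hP.1
  · have h1 := M.exp hcar (fun O₁ hO₁ hu => ?_) hO'
    · rw [hval] at h1
      simp only [hval] at h1
      exact h1
    · obtain ⟨hc, hd⟩ := cen_spec (M.dom O₁ hO₁)
      obtain ⟨t, ht, hut⟩ := hΦ _ hc
      have h3 := M.un t ht O₁ hO₁ hu
      have ht0 : t ≠ 0 := by
        rintro rfl
        exact h3.1 (map_zero _)
      have h4 := (hd.un hut).mul h3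
      rw [← map_mul, div_mul_cancel₀ _ ht0, map_mul] at h4
      rw [hval]
      exact h4

end GMod

variable {F : Type} [Field F] [Algebra ℂ F] {Y : Set (Subalgebra ℂ F)} {n : ℕ}
  {G : Subgroup (F ≃ₐ[ℂ] F)} {Δ : Fin (n + 1) → Derivation ℂ F F}
  {D ν : Subalgebra ℂ F → Fˣ} {m a : ℕ}

end Pool.Agent.KM
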