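import Pool.Agent.Lib.MP_732f67_ag.N.Pert
import Pool.Agent.Lib.MP_732f67_ag.N.Mult
import Pool.Agent.Lib.MP_732f67_ag.N.Step
import Pool.Agent.Lib.MP_732f67_ag.N.Th
import Pool.Agent.Lib.MP_732f67_ag.N.VbE

/-!
Part N: the non-vanishing theorem if there are sections of high multiplicity.
-/

namespace Pool.Agent.KM

namespace GMod

variable {F : Type} [Field F] [Algebra ℂ F] {Y : Set (Subalgebra ℂ F)} {d : ℕ}
  {G : Subgroup (F ≃ₐ[ℂ] F)} {Δ : Fin d → Derivation ℂ F F} {Φ : Finset F}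
  {D ν H E : Subalgebra ℂ F → Fˣ} {m a : ℕ} (M : GMod d Y G Δ Φ H)

/-- A component with a large coefficient.

PROOF. `v'` a prime divisor of `M.F'` over `v` (`exists_prim_over`), `ρ` the ramification index, `O₁` its
center on `M.Y'`, over `O` (`exists_centers`, uniqueness of centers). `ad_log` and `LD_ram`:
`∑ ad j * oD v' (B j O₁) ≤ ρ * LD Δ m v (ν O)`. `sec_exp`:
`ρ * oD v (s * E O) = ∑ t j * oD v' (B j O₁)`, `t j` the coefficients. If all `t j ≤ C ad j` then this is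
at most `C ρ LD < ρ * oD v (s * E O)`. -/
theorem exists_big (hY : Base d Y G Δ) (hm : 1 ≤ m) (hν : IsCar Y ν)
    (hΦν : ∀ O ∈ Y, ∃ t ∈ Φ, Un O ((ν O : F) / t)) (hE : IsCar Y E) {s : F} (hs0 : s ≠ 0)
    (hs : s ∈ Sec Y E) (hΦ : ∀ O ∈ Y, ∃ t ∈ Φ, Un O (s * E O / t)) {v O : Subalgebra ℂ F}
    (hv : PrimDiv v) (hO : O ∈ Y) (hdom : Dom O v) {C : ℚ} (hC : 0 ≤ C)
    (h : C * LD Δ m v (ν O) < oD v (s * E O)) :
    ∃ j, C * M.ad m ν j < oD (M.P j) (M.i s * pb M.i Y E (M.P j)) := by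
  classical
  obtain ⟨v', hv', hcom⟩ := exists_prim_over (i := M.i) M.fin hv
  obtain ⟨O₁, hO₁, hd₁, hc₁, hc₂⟩ := exists_centers (M.mor hY.proj) hv'
  rw [hcom] at hc₂
  have hcen : cen M.i Y O₁ = O := hY.proj.eq_of_dom hc₁ hO hc₂ hdom
  have hvc : PrimDiv (v'.comap M.i) := by
    rw [hcom]
    exact hv
  obtain ⟨ρ, hρ, hram⟩ := exists_ram hv' hvc
  have hLD := M.ad_log hY hm hν hΦν hv' hO₁ hd₁
  have hLr := LD_ram M.fin hY.dim hY.frame M.der hv' hvc hram m (ν O).ne_zero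
  rw [pb_val, hcen, hLr, hcom] at hLD
  obtain ⟨ht0, htu⟩ := M.sec_exp hY hE hs0 hs hΦ
  have hu := (htu O₁ hO₁).mono hd₁.1
  have hsE : s * (E O : F) ≠ 0 := mul_ne_zero hs0 (E O).ne_zero
  have hB0 : ∀ j, (M.B j O₁ : M.F') ^ oD (M.P j) (M.i s * pb M.i Y E (M.P j)) ≠ 0 := fun j =>
    zpow_ne_zero _ (M.B j O₁).ne_zero
  have hprod : (∏ j, (M.B j O₁ : M.F') ^ oD (M.P j) (M.i s * pb M.i Y E (M.P j))) ≠ 0 :=
    Finset.prod_ne_zero_iff.2 fun j _ => hB0 j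
  have e1 : M.i s * (pb M.i Y E O₁ : M.F') = M.i (s * E O) := by
    rw [pb_val, hcen, map_mul]
  rw [e1] at hu
  have h1 : oD v' (M.i (s * E O)) = ∑ j, oD (M.P j) (M.i s * pb M.i Y E (M.P j)) *
      oD v' (M.B j O₁ : M.F') := by
    rw [oD_of_un hv' ((map_ne_zero _).2 hsE) hprod hu, oD_prod hv' _ fun j _ => hB0 j]
    exact Finset.sum_congr rfl fun j _ => oD_zpow hv' (M.B j O₁).ne_zero _
  rw [hram _ hsE, hcom] at h1
  have hBn : ∀ j, 0 ≤ oD v' (M.B j O₁ : M.F') := fun j =>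
    (oD_nonneg hv' (M.B j O₁).ne_zero).2 (hd₁.1 (bd_le M.bd M.snc hO₁ j).2)
  by_contra hcon
  push Not at hcon
  have hρ0 : (0 : ℚ) < ρ := by exact_mod_cast hρ
  have h2 : (ρ : ℚ) * oD v (s * E O) ≤ C * (ρ * LD Δ m v (ν O)) := by
    have h3 : ((ρ * oD v (s * E O) : ℤ) : ℚ) = ∑ j,
        ((oD (M.P j) (M.i s * pb M.i Y E (M.P j)) : ℤ) : ℚ) * (oD v' (M.B j O₁ : M.F') : ℚ) := by
      rw [h1]
      push_cast
      rfl
    have h4 : (ρ : ℚ) * oD v (s * E O) = ((ρ * oD v (s * E O) : ℤ) : ℚ) := by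
      push_cast
      rfl
    rw [h4, h3]
    refine le_trans (Finset.sum_le_sum fun j _ => mul_le_mul_of_nonneg_right (hcon j)
      (by exact_mod_cast hBn j)) ?_
    have h5 : ∑ j, C * M.ad m ν j * (oD v' (M.B j O₁ : M.F') : ℚ) =
        C * ∑ j, M.ad m ν j * (oD v' (M.B j O₁ : M.F') : ℚ) := by
      rw [Finset.mul_sum]
      exact Finset.sum_congr rfl fun j _ => mul_assoc _ _ _
    rw [h5]
    exact mul_le_mul_of_nonneg_left hLD hC
  have h6 : C * (ρ * LD Δ m v (ν O)) < ρ * oD v (s * E O) := by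
    have h7 := mul_lt_mul_of_pos_left h hρ0
    linarith [h7, mul_left_comm C (ρ : ℚ) (LD Δ m v (ν O))]
  exact absurd h2 (not_le.2 h6)

end GMod

variable {F : Type} [Field F] [Algebra ℂ F] {Y : Set (Subalgebra ℂ F)} {n : ℕ}
  {G : Subgroup (F ≃ₐ[ℂ] F)} {Δ : Fin (n + 1) → Derivation ℂ F F}
  {D ν : Subalgebra ℂ F → Fˣ} {m a : ℕ}

end Pool.Agent.KM
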