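import Pool.Agent.Lib.MP_732f67_ag.N.Pert
import Pool.Agent.Lib.MP_732f67_ag.N.Mult
import Pool.Agent.Lib.MP_732f67_ag.N.Step
import Pool.Agent.Lib.MP_732f67_ag.N.Th
import Pool.Agent.Lib.MP_732f67_ag.N.VbE
import Pool.Agent.Lib.MP_732f67_ag.N.VbB

/-!
Part N: the non-vanishing theorem if there are sections of high multiplicity.
-/

namespace Pool.Agent.KM

namespace GMod

variable {F : Type} [Field F] [Algebra ℂ F] {Y : Set (Subalgebra ℂ F)} {d : ℕ}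
  {G : Subgroup (F ≃ₐ[ℂ] F)} {Δ : Fin d → Derivation ℂ F F} {Φ : Finset F}
  {D ν H E : Subalgebra ℂ F → Fˣ} {m a : ℕ} (M : GMod d Y G Δ Φ H)

/-- The ample class.

PROOF. `A = ![pb D, pb ν, pb H]`. `pert` for `2 m τ` and `QK.smul` by `1 / (2 m)`: `![0, 0, 1 / (2 m)]`,
`-τ q j`. Add the nef class `![l - a - c q₀ k, 0, 1 / (2 m) - 2 c k]`. `QK.prin` twice: for the relation
`A 2 = A 0 ^ (a m) * A 1`, with the factor `1 / m`, and for `sec_exp`, with the factor `c`. The result is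
`![l, 1 / m, 0]`, `-(c t j + τ q j)`. `qa_of`. -/
theorem big_qa (hY : Base d Y G Δ) (hD : GC Y G D) (hN : Nf Y D) (hν : GC Y G ν)
    (hm : 1 ≤ m) (hH : H = D ^ (a * m) * ν) (hA : Amp Y H)
    (hΦν : ∀ O ∈ Y, ∃ t ∈ Φ, Un O ((ν O : F) / t)) {q₀ k : ℕ}
    (hE : E = (D ^ q₀ * H ^ 2) ^ k) {s : F} (hs0 : s ≠ 0) (hs : s ∈ Sec Y E)
    (hΦ : ∀ O ∈ Y, ∃ t ∈ Φ, Un O (s * E O / t)) {c τ : ℚ} {q : M.J → ℚ} (hc : 0 ≤ c)
    (hτ : 0 < τ) (hτ1 : 2 * m * τ ≤ 1) (hck : c * (4 * m * k) ≤ 1)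
    (hq : ∀ A : Fin 3 → Subalgebra ℂ M.F' → M.F'ˣ, A 2 = pb M.i Y H → ∀ t : ℚ, 0 < t →
      t ≤ 1 → QK M.Y' (fam A M.B) (Sum.elim ![0, 0, 1] fun j => -(t * q j))) {l : ℕ}
    (hl : a + c * q₀ * k ≤ (l : ℚ)) :
    QA M.Y' M.B M.κ (pb M.i Y D ^ l) (fun j => M.ad m ν j -
      (c * (oD (M.P j) (M.i s * pb M.i Y E (M.P j)) : ℤ) + τ * q j)) := by
  have hmor := M.mor hY.proj
  have hY' := hmor.proj'
  have hmq : (0 : ℚ) < m := by exact_mod_cast hm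
  have hcarH : IsCar Y H := by
    rw [hH]
    exact car_mul (car_pow hD.1 _) hν.1
  have hcarE : IsCar Y E := by
    rw [hE]
    exact car_pow (car_mul (car_pow hD.1 _) (car_pow hcarH _)) _
  have hpbH : pb M.i Y H = pb M.i Y D ^ (a * m) * pb M.i Y ν := by
    have h0 : pb M.i Y H = pb M.i Y (D ^ (a * m) * ν) := congrArg (pb M.i Y) hH
    rw [h0, pb_mul, pb_pow]
  obtain ⟨A, hAdef⟩ : ∃ A : Fin 3 → Subalgebra ℂ M.F' → M.F'ˣ,
      A = ![pb M.i Y D, pb M.i Y ν, pb M.i Y H] := ⟨_, rfl⟩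
  have hA0 : A 0 = pb M.i Y D := by
    rw [hAdef]
    rfl
  have hA1 : A 1 = pb M.i Y ν := by
    rw [hAdef]
    rfl
  have hA2 : A 2 = pb M.i Y H := by
    rw [hAdef]
    rfl
  have hfc : ∀ k, IsCar M.Y' (fam A M.B k) := by
    rintro (k | j)
    · show IsCar M.Y' (A k)
      rw [hAdef]
      fin_cases k
      · exact car_pb hmor hD.1
      · exact car_pb hmor hν.1
      · exact car_pb hmor hcarH
    · exact M.snc.car j
  -- the perturbation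
  have h1 := (hq A hA2 (2 * m * τ) (by positivity) hτ1).smul hY' (t := 1 / (2 * m))
    (by positivity)
  -- the nef class
  have hN0 : Nf M.Y' (fam A M.B (Sum.inl 0)) := by
    show Nf M.Y' (A 0)
    rw [hA0]
    exact nf_pb hmor hN
  have hN2 : Nf M.Y' (fam A M.B (Sum.inl 2)) := by
    show Nf M.Y' (A 2)
    rw [hA2]
    exact nf_of_sf hY' (sf_pb hmor (amp_sf hA))
  have hl0 : 0 ≤ (l : ℚ) - a - c * q₀ * k := by linarith
  have hl2 : 0 ≤ 1 / (2 * (m : ℚ)) - 2 * c * k := by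
    rw [sub_nonneg, le_div_iff₀ (by positivity)]
    linarith
  classical
  have h2 := ((qn_single _ hN0).smul hl0).add hfc ((qn_single _ hN2).smul hl2)
  have h3 := h1.add_nef hY' hfc h2
  -- the relation between `H`, `D` and `ν`
  have hr1 : ∀ O' ∈ M.Y', Un O' ((∏ z, (fam A M.B z O' : M.F') ^
      (Sum.elim ![(a * m : ℤ), 1, -1] (fun _ => 0) : Fin 3 ⊕ M.J → ℤ) z) / (1 : M.F'ˣ)) := by
    intro O' _
    have h4 : (∏ z, (fam A M.B z O' : M.F') ^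
        (Sum.elim ![(a * m : ℤ), 1, -1] (fun _ => 0) : Fin 3 ⊕ M.J → ℤ) z) = 1 := by
      rw [Fintype.prod_sum_type, Fin.prod_univ_three]
      simp only [Sum.elim_inl, Sum.elim_inr, zpow_zero, Finset.prod_const_one, mul_one]
      show (A 0 O' : M.F') ^ (a * m : ℤ) * (A 1 O' : M.F') ^ (1 : ℤ) *
        (A 2 O' : M.F') ^ (-1 : ℤ) = 1
      rw [hA0, hA1, hA2, hpbH, Pi.mul_apply, Pi.pow_apply, Units.val_mul,
        Units.val_pow_eq_pow_val, zpow_one, zpow_neg_one]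
      have h5 : (pb M.i Y D O' : M.F') ^ (a * m : ℤ) = (pb M.i Y D O' : M.F') ^ (a * m) := by
        rw [← zpow_natCast, Nat.cast_mul]
      rw [h5]
      exact mul_inv_cancel₀ (mul_ne_zero (pow_ne_zero _ (Units.ne_zero _)) (Units.ne_zero _))
    rw [h4, Units.val_one, div_one]
    exact Un.one O'
  have h4 := h3.prin hY' hr1 (1 / m)
  -- the divisor of `s`
  have hs0' : M.i s ≠ 0 := (map_ne_zero M.i).2 hs0
  obtain ⟨t, ht⟩ : ∃ t : M.J → ℤ, t = fun j => oD (M.P j) (M.i s * pb M.i Y E (M.P j)) :=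
    ⟨_, rfl⟩
  have hr2 : ∀ O' ∈ M.Y', Un O' ((∏ z, (fam A M.B z O' : M.F') ^
      (Sum.elim ![(q₀ * k : ℤ), 0, 2 * k] (fun j => -t j) : Fin 3 ⊕ M.J → ℤ) z) /
        ((Units.mk0 _ hs0')⁻¹ : M.F'ˣ)) := by
    intro O' hO'
    have h5 := (M.sec_exp hY hcarE hs0 hs hΦ).2 O' hO'
    have h6 : (∏ z, (fam A M.B z O' : M.F') ^
        (Sum.elim ![(q₀ * k : ℤ), 0, 2 * k] (fun j => -t j) : Fin 3 ⊕ M.J → ℤ) z) /
          ((Units.mk0 _ hs0')⁻¹ : M.F'ˣ) = M.i s * pb M.i Y E O' /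
            ∏ j, (M.B j O' : M.F') ^ oD (M.P j) (M.i s * pb M.i Y E (M.P j)) := by
      rw [Fintype.prod_sum_type, Fin.prod_univ_three]
      simp only [Sum.elim_inl, Sum.elim_inr, zpow_neg, Finset.prod_inv_distrib]
      show (A 0 O' : M.F') ^ (q₀ * k : ℤ) * (A 1 O' : M.F') ^ (0 : ℤ) *
        (A 2 O' : M.F') ^ (2 * k : ℤ) * (∏ j, (M.B j O' : M.F') ^ t j)⁻¹ /
          ((Units.mk0 _ hs0')⁻¹ : M.F'ˣ) = _
      have h7 : (pb M.i Y E O' : M.F') = (A 0 O' : M.F') ^ (q₀ * k : ℤ) *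
          (A 2 O' : M.F') ^ (2 * k : ℤ) := by
        rw [hA0, hA2, hE, pb_pow, pb_mul, pb_pow, pb_pow, Pi.pow_apply, Pi.mul_apply,
          Pi.pow_apply, Pi.pow_apply, Units.val_pow_eq_pow_val, Units.val_mul,
          Units.val_pow_eq_pow_val, Units.val_pow_eq_pow_val, mul_pow, ← pow_mul, ← pow_mul,
          ← zpow_natCast, ← zpow_natCast, Nat.cast_mul, Nat.cast_mul]
        rfl
      rw [h7, zpow_zero, mul_one, Units.val_inv_eq_inv_val, Units.val_mk0, div_inv_eq_mul, ht,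
        div_eq_mul_inv]
      ring
    rw [h6]
    exact h5
  have h5 := h4.prin hY' hr2 c
  refine M.qa_of hY hm hν.1 hΦν hA1 (b := l) (b' := l) (by rw [hA0, zpow_natCast])
    (Int.cast_natCast l).symm ?_
  convert h5 using 1
  funext z
  rcases z with z | j
  · simp only [Sum.elim_inl]
    fin_cases z <;> simp <;> field_simp <;> ring
  · simp only [Sum.elim_inr, ht]
    simp
    field_simp

/-- conjugate boundary divisors -/
def cj (M : GMod d Y G Δ Φ H) : Setoid M.J where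
  r j j' := ∃ γ ∈ M.G', gm γ (M.P j) = M.P j'
  iseqv := by
    refine ⟨fun j => ⟨1, M.G'.one_mem, gm_one⟩, ?_, ?_⟩
    · rintro j j' ⟨γ, hγ, h⟩
      refine ⟨γ⁻¹, M.G'.inv_mem hγ, ?_⟩
      rw [← h, ← gm_mul, inv_mul_cancel, gm_one]
    · rintro j j' j'' ⟨γ, hγ, h⟩ ⟨γ', hγ', h'⟩
      exact ⟨γ' * γ, M.G'.mul_mem hγ' hγ, by rw [gm_mul, h, h']⟩

end GMod

variable {F : Type} [Field F] [Algebra ℂ F] {Y : Set (Subalgebra ℂ F)} {n : ℕ}
  {G : Subgroup (F ≃ₐ[ℂ] F)} {Δ : Fin (n + 1) → Derivation ℂ F F}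
  {D ν : Subalgebra ℂ F → Fˣ} {m a : ℕ}

end Pool.Agent.KM
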