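import Pool.Agent.Lib.MP_732f67_ag.N.Pert
import Pool.Agent.Lib.MP_732f67_ag.N.Mult
import Pool.Agent.Lib.MP_732f67_ag.N.Step
import Pool.Agent.Lib.MP_732f67_ag.N.Th
import Pool.Agent.Lib.MP_732f67_ag.N.VbE
import Pool.Agent.Lib.MP_732f67_ag.N.VbB
import Pool.Agent.Lib.MP_732f67_ag.N.VbQ

/-!
Part N: the non-vanishing theorem if there are sections of high multiplicity.
-/

namespace Pool.Agent.KM

namespace GMod

variable {F : Type} [Field F] [Algebra ℂ F] {Y : Set (Subalgebra ℂ F)} {d : ℕ}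
  {G : Subgroup (F ≃ₐ[ℂ] F)} {Δ : Fin d → Derivation ℂ F F} {Φ : Finset F}
  {D ν H E : Subalgebra ℂ F → Fˣ} {m a : ℕ} (M : GMod d Y G Δ Φ H)

end GMod

variable {F : Type} [Field F] [Algebra ℂ F] {Y : Set (Subalgebra ℂ F)} {n : ℕ}
  {G : Subgroup (F ≃ₐ[ℂ] F)} {Δ : Fin (n + 1) → Derivation ℂ F F}
  {D ν : Subalgebra ℂ F → Fˣ} {m a : ℕ}

/-- conjugate boundary divisors have the same coefficient -/
theorem GMod.VbN_inv {d : ℕ} {Δ : Fin d → Derivation ℂ F F} {Φ : Finset F}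
    {H E : Subalgebra ℂ F → Fˣ} (M : GMod d Y G Δ Φ H) (hY : Base d Y G Δ) (hE : GI Y G E) {s : F}
    (hs0 : s ≠ 0) (hs : ∀ γ ∈ G, γ s = s) {γ' : M.F' ≃ₐ[ℂ] M.F'} (hγ : γ' ∈ M.G') {j j' : M.J}
    (h : gm γ' (M.P j) = M.P j') :
    oD (M.P j') (M.i s * pb M.i Y E (M.P j')) = oD (M.P j) (M.i s * pb M.i Y E (M.P j)) := by
  have hP := M.bd.mem j
  have hP' := M.bd.mem j'
  have his : M.i s ≠ 0 := (map_ne_zero M.i).2 hs0
  obtain ⟨γ, hγG, hγi⟩ := M.grp γ' hγ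
  have e1 : γ' (M.i s) = M.i s := by rw [hγi, hs γ hγG]
  have h2 := gi_pb (M.mor hY.proj) hY.st M.grp hE γ' hγ _ hP.1
  rw [h] at h2
  have h3 := oD_of_un hP'.2 (Units.ne_zero _) ((map_ne_zero γ').2 (Units.ne_zero _)) h2
  have h4 : oD (M.P j') (γ' (M.i s * pb M.i Y E (M.P j))) =
      oD (M.P j) (M.i s * pb M.i Y E (M.P j)) := by
    rw [← h]
    exact oD_gm hP.2 _
  rw [map_mul, e1, oD_mul hP'.2 his ((map_ne_zero γ').2 (Units.ne_zero _)), ← h3,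
    ← oD_mul hP'.2 his (Units.ne_zero _)] at h4
  exact h4

/-- a positive lower bound of finitely many positive numbers -/
theorem VbN_min {J : Type} [Fintype J] (p : J → ℚ) (hp : ∀ j, 0 < p j) {ε : ℚ} (hε : 0 < ε) :
    ∃ ε' : ℚ, 0 < ε' ∧ ε' ≤ ε ∧ ∀ j, ε' ≤ p j := by
  classical
  by_cases hJ : Nonempty J
  · obtain ⟨j0, -, hj0⟩ := Finset.exists_min_image Finset.univ p
      ⟨hJ.some, Finset.mem_univ _⟩
    exact ⟨min ε (p j0), lt_min hε (hp j0), min_le_left _ _, fun j =>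
      (min_le_right _ _).trans (hj0 j (Finset.mem_univ _))⟩
  · exact ⟨ε, hε, le_rfl, fun j => absurd ⟨j⟩ hJ⟩

/-- PROOF. `H = D ^ (a m) * ν`; `v`, `O` as in `exists_mult`; `q₀`, `k`, `s` as in `exists_mult_inv` with
`C = 4 m + 1`; `E = (D ^ q₀ * H ^ 2) ^ k`, so `4 m k LD < oD v (s * E O)` (`Pos`). A model `M` for `Φ` = local
equations of `ν`, and `s t` for the local equations `t` of `E` (`car_fin`). `exists_big` with
`C = 4 m k`; `threshold` for `M.cj`, `A = ad`, the coefficients `t j` of `s`, `p`, `ε` as in `pert`,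
`τ₀ = 1 / (2 m)` (`ad_inv`, `ad_pos`; the `t j` are invariant, as `s` and `E` are): `c 4 m k < 1`.
`big_qa`, and `step` with `b j = ad j - (c t j + τ q j)`: for large `l` an invariant section
`f ≠ 0` of `pb D ^ l * ∏ B j ^ max (⌈b j⌉ - 1) 0`. `exists_inv`, `ls_of`. -/
theorem nv_big (hNV : NV n) (hR : RX (n + 1)) (hV : VX) (hY : Base (n + 1) Y G Δ)
    (hD : GC Y G D) (hN : Nf Y D) (hν : GC Y G ν) (hm : 1 ≤ m)
    (hA : Amp Y (D ^ (a * m) * ν)) (hP : Pos Y Δ m ν)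
    (hbig : ∀ C : ℕ, ∃ q k : ℕ, 1 ≤ k ∧ C * k ^ (n + 1) <
      Module.finrank ℂ (Sec Y ((D ^ q * (D ^ (a * m) * ν) ^ 2) ^ k))) :
    ∃ b₀ : ℕ, ∀ b, b₀ ≤ b → ∃ f : F, f ≠ 0 ∧ (∀ γ ∈ G, γ f = f) ∧ LS Y Δ m ν (D ^ b) f := by
  classical
  obtain ⟨H, hHdef⟩ : ∃ H : Subalgebra ℂ F → Fˣ, H = D ^ (a * m) * ν := ⟨_, rfl⟩
  rw [← hHdef] at hA hbig
  have hH : GC Y G H := by
    rw [hHdef]
    exact gc_mul (gc_pow hD _) hν
  obtain ⟨v, O, hv, hO, hdom, hmul⟩ := exists_mult hR hY (Nat.succ_pos n) hm hν.1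
  obtain ⟨q₀, k, hk, s, hs0, hs, hsi, hsm⟩ := exists_mult_inv (C := 4 * m + 1) (H := H) hY
    (Nat.succ_pos n) hD hH hbig hv hO hdom hmul
  obtain ⟨E, hE⟩ : ∃ E : Subalgebra ℂ F → Fˣ, E = (D ^ q₀ * H ^ 2) ^ k := ⟨_, rfl⟩
  rw [← hE] at hs hsm
  have hEG : GC Y G E := by
    rw [hE]
    exact gc_pow (gc_mul (gc_pow hD _) (gc_pow hH _)) _
  have hmQ : (1 : ℚ) ≤ m := by exact_mod_cast hm
  have hkQ : (1 : ℚ) ≤ k := by exact_mod_cast hk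
  have hLD : 0 < LD Δ m v (ν O) := hP v hv O hO hdom
  have hC : ((4 * m * k : ℚ)) * LD Δ m v (ν O) < oD v (s * E O) := by
    refine lt_of_lt_of_le ?_ hsm
    refine mul_lt_mul_of_pos_right ?_ hLD
    push_cast
    nlinarith
  -- the finite set of functions
  obtain ⟨T₁, hT₁0, hT₁⟩ := car_fin hY.proj hν.1
  obtain ⟨T₂, hT₂0, hT₂⟩ := car_fin hY.proj hEG.1
  obtain ⟨Φ, hΦ⟩ : ∃ Φ : Finset F, Φ = T₁ ∪ T₂.image (fun t => s * t) := ⟨_, rfl⟩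
  have hΦ0 : ∀ φ ∈ Φ, φ ≠ 0 := by
    intro φ hφ
    rw [hΦ, Finset.mem_union, Finset.mem_image] at hφ
    rcases hφ with hφ | ⟨t, ht, rfl⟩
    · exact hT₁0 φ hφ
    · exact mul_ne_zero hs0 (hT₂0 t ht)
  have hΦν : ∀ O ∈ Y, ∃ t ∈ Φ, Un O ((ν O : F) / t) := by
    intro O hO
    obtain ⟨t, ht, hu⟩ := hT₁ O hO
    exact ⟨t, by rw [hΦ]; exact Finset.mem_union_left _ ht, hu⟩
  have hΦE : ∀ O ∈ Y, ∃ t ∈ Φ, Un O (s * E O / t) := by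
    intro O hO
    obtain ⟨t, ht, hu⟩ := hT₂ O hO
    refine ⟨s * t, by rw [hΦ]; exact Finset.mem_union_right _ (Finset.mem_image_of_mem _ ht), ?_⟩
    rwa [mul_div_mul_left _ _ hs0]
  obtain ⟨M⟩ := hR F Y G Δ Φ H hY hΦ0 hH hA
  have hCn : (0 : ℚ) < 4 * m * k := by nlinarith
  obtain ⟨j₁, hj₁⟩ := M.exists_big hY hm hν.1 hΦν hEG.1 hs0 hs hΦE hv hO hdom hCn.le hC
  obtain ⟨t, ht⟩ : ∃ t : M.J → ℤ, t = fun j => oD (M.P j) (M.i s * pb M.i Y E (M.P j)) :=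
    ⟨_, rfl⟩
  have htj : ∀ j, t j = oD (M.P j) (M.i s * pb M.i Y E (M.P j)) := fun j => by rw [ht]
  have ht0 : ∀ j, 0 ≤ t j := fun j => by
    rw [htj]
    exact (M.sec_exp hY hEG.1 hs0 hs hΦE).1 j
  rw [← htj] at hj₁
  have had : ∀ j, 0 < M.ad m ν j := fun j => M.ad_pos hY hP j
  obtain ⟨p, hp, hpi, ε, hε, hpert⟩ := M.pert hY hH hA
  obtain ⟨ε', hε', hεε, hεp⟩ := VbN_min p hp hε
  have hRel : ∀ j j', M.cj.r j j' → M.ad m ν j = M.ad m ν j' ∧ (t j : ℚ) = (t j' : ℚ) ∧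
      p j = p j' := by
    rintro j j' ⟨γ, hγ, h⟩
    refine ⟨(M.ad_inv hY (gc_gi hν) hγ h).symm, ?_, (hpi γ hγ j j' h).symm⟩
    rw [htj, htj, M.VbN_inv hY (gc_gi hEG) hs0 hsi hγ h]
  have hτ₀ : (0 : ℚ) < 1 / (2 * m) := by positivity
  obtain ⟨c, τ, q, j₀, hc, hτ, hττ, hq, hqR, hMj₀, hb, hb0, hcC⟩ := threshold M.cj
    (fun j => M.ad m ν j) (fun j => (t j : ℚ)) p had (fun j => by exact_mod_cast ht0 j)
    ⟨j₁, (mul_pos hCn (had j₁)).trans hj₁⟩ hp hRel hε' hτ₀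
  have hck : c * (4 * m * k) ≤ 1 := (hcC _ j₁ hCn hj₁).le
  have hτ1 : 2 * m * τ ≤ 1 := by
    rw [le_div_iff₀ (by linarith)] at hττ
    linarith
  have hq0 : ∀ j, 0 ≤ q j := by
    intro j
    have h1 := hq j
    rw [abs_le] at h1
    linarith [hεp j]
  obtain ⟨b, hbdef⟩ : ∃ b : M.J → ℚ, b = fun j => M.ad m ν j - (c * (t j : ℤ) + τ * q j) :=
    ⟨_, rfl⟩
  have hbj : ∀ j, b j = M.ad m ν j - (c * (t j : ℤ) + τ * q j) := fun j => by rw [hbdef]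
  have hQ : ∀ l : ℕ, ⌈(a + c * q₀ * k : ℚ)⌉₊ ≤ l → QA M.Y' M.B M.κ (pb M.i Y D ^ l) b := by
    intro l hl
    have h1 := M.big_qa hY hD hN hν hm hHdef hA hΦν hE hs0 hs hΦE hc.le hτ hτ1 hck
      (fun A hA2 t ht ht1 => hpert A hA2 q (fun j => (hq j).trans hεε) t ht ht1)
      (Nat.ceil_le.1 hl)
    rw [hbdef]
    simp only [htj]
    exact h1
  obtain ⟨b₂, hb₂⟩ := step hNV hV M.snc M.base M.bd M.strict
    (fun γ hγ j => M.perm hY hH hγ j) (gc_pb (M.mor hY.proj) hY.st M.grp hD)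
    (nf_pb (M.mor hY.proj) hN) (b := b) (fun j => by rw [hbj]; exact hb j) (j₀ := j₀)
    (fun j => by
      rw [hbj, hb0 j]
      exact ⟨fun h => M.cj.symm h, fun h => M.cj.symm h⟩)
    (fun γ hγ j j' h => by
      obtain ⟨h1, h2, h3⟩ := hRel j j' ⟨γ, hγ, h⟩
      rw [hbj, hbj, h1, h2, hqR j j' ⟨γ, hγ, h⟩])
    hQ
  refine ⟨b₂, fun l hl => ?_⟩
  obtain ⟨f', hf', hfi, hfu⟩ := hb₂ l hl
  have hf0 : f' ≠ 0 := left_ne_zero_of_mul hfu.1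
  obtain ⟨g, hg, hgf⟩ := M.exists_inv hfi
  have hg0 : g ≠ 0 := by
    rintro rfl
    rw [map_zero] at hgf
    exact hf0 hgf.symm
  refine ⟨g, hg0, hg, M.ls_of hY hm hν.1 hΦν (gc_pow hD l).1 hg0
    (g := fun j => max (⌈b j⌉ - 1) 0) (fun j => ?_) ?_⟩
  · have h1 : b j ≤ M.ad m ν j := by
      rw [hbj]
      have h2 : 0 ≤ c * ((t j : ℤ) : ℚ) := mul_nonneg hc.le (by exact_mod_cast ht0 j)
      have h3 : 0 ≤ τ * q j := mul_nonneg hτ.le (hq0 j)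
      linarith
    rw [Int.cast_max, max_lt_iff]
    refine ⟨?_, by
      rw [Int.cast_zero]
      exact had j⟩
    have h2 := Int.ceil_lt_add_one (b j)
    push_cast
    linarith
  · rw [hgf, pb_pow]
    exact hf'

end Pool.Agent.KM
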