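import Pool.Agent.Lib.MP_732f67_ag.N.OrdA
import Pool.Agent.Lib.MP_732f67_ag.N.Dmn
import Pool.Agent.Lib.MP_732f67_ag.N.PrR
import Pool.Agent.Lib.MP_732f67_ag.N.PrD
import Pool.Agent.Lib.MP_732f67_ag.N.PrC

/-!
Part N: prime divisors in a finite extension of function fields.
-/

namespace Pool.Agent.KM

variable {F F' : Type} [Field F] [Algebra ℂ F] [Field F'] [Algebra ℂ F'] {i : F →ₐ[ℂ] F'}
  {O : Subalgebra ℂ F} {O' : Subalgebra ℂ F'}

/-- the localization of a Dedekind subring at a nonzero prime ideal is a discrete valuation ring -/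
private theorem pro_dvr {B T : Subalgebra ℂ F'} [IsDedekindDomain B] {P : Ideal B} (hP : P.IsPrime)
    (hP0 : P ≠ ⊥) (hBT : B ≤ T) (hT : ∀ x : F', x ∈ T ↔ ∃ a b : B, b ∉ P ∧ x = a / b) :
    IsDiscreteValuationRing T := by
  have hb0 : ∀ b : B, b ∉ P → (b : F') ≠ 0 := by
    intro b hb h0
    apply hb
    have : b = 0 := Subtype.ext h0
    rw [this]
    exact P.zero_mem
  let _ : Algebra B T := (Subalgebra.inclusion hBT).toRingHom.toAlgebra
  have hloc : IsLocalization.AtPrime T P := by
    refine ⟨?_, ?_, ?_⟩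
    · rintro ⟨b, hb⟩
      have hb' : b ∉ P := hb
      have h0 := hb0 b hb'
      have hinv : (b : F')⁻¹ ∈ T := (hT _).2 ⟨1, b, hb', by simp⟩
      refine IsUnit.of_mul_eq_one ⟨(b : F')⁻¹, hinv⟩ ?_
      apply Subtype.ext
      exact mul_inv_cancel₀ h0
    · rintro ⟨x, hx⟩
      obtain ⟨a, b, hb, rfl⟩ := (hT x).1 hx
      refine ⟨(a, ⟨b, hb⟩), ?_⟩
      apply Subtype.ext
      exact div_mul_cancel₀ _ (hb0 b hb)
    · intro x y hxy
      refine ⟨1, ?_⟩
      have h1 : (x : F') = y := congrArg (fun z : T => (z : F')) hxy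
      rw [Subtype.ext h1]
  exact IsLocalization.AtPrime.isDiscreteValuationRing_of_dedekind_domain B hP0 T

/-- the extension of a prime divisor (the localization of the integral closure of `O` in `F'` at a
maximal ideal; `prim_of_ri`, or directly) -/
theorem exists_prim_over (hfin : (i : F →+* F').Finite) (hO : PrimDiv O) :
    ∃ O' : Subalgebra ℂ F', PrimDiv O' ∧ O'.comap i = O := by
  classical
  have hdvr : IsDiscreteValuationRing O := hO.1
  have hfrO := hO.2.1
  obtain ⟨A, ⟨S, hS⟩, hl⟩ := hO.2.2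
  have hinj : Function.Injective i := (i : F →+* F').injective
  -- algebra structures
  let _ : Algebra F F' := (i : F →+* F').toAlgebra
  have hsc : IsScalarTower ℂ F F' := IsScalarTower.of_algebraMap_eq fun c => (i.commutes c).symm
  have hmf : Module.Finite F F' := hfin
  have hFr : IsFractionRing O F := by
    refine IsFractionRing.of_field O F fun z => ?_
    obtain ⟨a, b, -, h⟩ := hfrO z
    exact ⟨a, b, h⟩
  have hchar : CharZero F := charZero_of_injective_algebraMap (algebraMap ℂ F).injective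
  have hsep : Algebra.IsSeparable F F' := inferInstance
  have hfinB : Module.Finite O (integralClosure O F') := IsIntegralClosure.finite O F F' _
  have hDed : IsDedekindDomain (integralClosure O F') := integralClosure.isDedekindDomain O F F'
  have hFrB : IsFractionRing (integralClosure O F') F' :=
    integralClosure.isFractionRing_of_finite_extension F F'
  obtain ⟨B, hB⟩ : ∃ B : Subalgebra ℂ F', B = (integralClosure O F').restrictScalars ℂ := ⟨_, rfl⟩
  have hmemB : ∀ x : F', x ∈ B ↔ IsIntegral O x := by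
    intro x
    rw [hB]
    rfl
  have hiB : ∀ x ∈ O, i x ∈ B := by
    intro x hx
    rw [hmemB]
    exact isIntegral_algebraMap (R := O) (A := F') (x := ⟨x, hx⟩)
  -- a dominating valuation ring
  have hlocO : IsLocalRing (O.map i) :=
    (O.equivMapOfInjective i hinj).toRingEquiv.isLocalRing
  obtain ⟨R, hR1, hR2⟩ := exists_val hlocO
  have hR1' : ∀ x ∈ O, i x ∈ R := fun x hx => hR1 _ ⟨x, hx, rfl⟩
  let R' : Subalgebra ℂ F' := { R.toSubring with
    algebraMap_mem' := fun c => by
      have h1 := hR1' _ (O.algebraMap_mem c)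
      rwa [i.commutes] at h1 }
  have hR' : ∀ x : F', x ∈ R' ↔ x ∈ R := fun x => Iff.rfl
  have hlocR : IsLocalRing R' := inferInstanceAs (IsLocalRing R)
  have hBR : B ≤ R' := by
    intro x hx
    rw [hmemB] at hx
    rw [hR']
    obtain ⟨p, hp, hp0⟩ := hx
    let f : O →+* R := ((i : F →+* F').comp O.toSubring.subtype).codRestrict R.toSubring
      fun y => hR1' y y.2
    have h1 : IsIntegral R x := by
      refine ⟨p.map f, hp.map f, ?_⟩
      rw [Polynomial.eval₂_map]
      exact hp0
    obtain ⟨y, hy⟩ := (IsIntegrallyClosed.isIntegral_iff (R := R) (K := F')).1 h1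
    rw [← hy]
    exact y.2
  -- the local ring
  obtain ⟨T, hTdef⟩ : ∃ T : Subalgebra ℂ F', T = locOf B R' hBR := ⟨_, rfl⟩
  have hTR : Dom T R' := by
    rw [hTdef]
    exact dom_locOf hBR
  have hBT : LocAt B T := by
    rw [hTdef]
    exact locAt_locOf hBR hlocR
  have hdom : ∀ x : F, x⁻¹ ∈ O → i x ∈ R → x ∈ O := by
    intro x hx hxR
    have h1 := hR2 (i x⁻¹) ⟨x⁻¹, hx, rfl⟩ (by rw [← map_inv₀, inv_inv]; exact hxR)
    rw [← map_inv₀, inv_inv] at h1
    obtain ⟨y, hy, hyx⟩ := h1
    rw [← hinj hyx]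
    exact hy
  have hval : ∀ x : F, x ∈ O ∨ x⁻¹ ∈ O := by
    intro x
    rcases ValuationRing.isInteger_or_isInteger O x with ⟨y, hy⟩ | ⟨y, hy⟩
    · left
      rw [← hy]
      exact y.2
    · right
      rw [← hy]
      exact y.2
  have hcomap : T.comap i = O := by
    ext x
    constructor
    · intro hx
      rcases hval x with h1 | h1
      · exact h1
      · exact hdom x h1 (hTR.1 hx)
    · intro hx
      exact hBT.le (hiB x hx)
  -- the field of fractions
  have hfrT : FracEq T := by
    intro x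
    obtain ⟨a, b, hb, hab⟩ := IsFractionRing.div_surjective (A := integralClosure O F') x
    have ha' : (a : F') ∈ B := (hmemB _).2 a.2
    have hb' : (b : F') ∈ B := (hmemB _).2 b.2
    refine ⟨⟨a, hBT.le ha'⟩, ⟨b, hBT.le hb'⟩, ?_, hab.symm⟩
    intro h0
    exact nonZeroDivisors.ne_zero hb (Subtype.ext h0)
  -- the valuation ring
  have hdvrT : IsDiscreteValuationRing T := by
    have hBT2 := hBT
    obtain ⟨P, hP, hPT⟩ := hBT2
    have hDB : IsDedekindDomain B := by
      rw [hB]
      exact hDed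
    refine pro_dvr hP ?_ hBT.le hPT
    obtain ⟨π, hπ⟩ := hO.exists_unif
    have h1 : i π ∈ B := hiB π hπ.1
    have h2 : (⟨i π, h1⟩ : B) ∈ P := by
      by_contra h3
      have h4 : (i π)⁻¹ ∈ T := (hPT _).2 ⟨1, ⟨i π, h1⟩, h3, by simp⟩
      have h5 : i π⁻¹ ∈ R := by
        rw [map_inv₀]
        exact hTR.1 h4
      exact hπ.2.1 (hdom π⁻¹ (by rw [inv_inv]; exact hπ.1) h5)
    intro h3
    rw [h3, Ideal.mem_bot] at h2
    have h4 : i π = 0 := congrArg Subtype.val h2
    exact hπ.ne_zero ((map_eq_zero i).1 h4)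
  -- a finitely generated algebra
  obtain ⟨G, hG⟩ := hfinB.fg_top
  let G' : Finset F' := Finset.image (fun g : integralClosure O F' => (g : F')) G
  obtain ⟨C, hC⟩ : ∃ C : Subalgebra ℂ F', C = Algebra.adjoin ℂ ((S.image i ∪ G' : Finset F') : Set F') :=
    ⟨_, rfl⟩
  have hAC : ∀ x ∈ A, i x ∈ C := by
    intro x hx
    rw [← hS] at hx
    have h1 : i x ∈ (Algebra.adjoin ℂ (S : Set F)).map i := ⟨x, hx, rfl⟩
    rw [AlgHom.map_adjoin] at h1
    rw [hC]
    refine Algebra.adjoin_mono ?_ h1
    rw [Finset.coe_union, Finset.coe_image]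
    exact Set.subset_union_left
  have hGC : ∀ g ∈ G, (g : F') ∈ C := by
    intro g hg
    rw [hC]
    refine Algebra.subset_adjoin ?_
    rw [Finset.coe_union]
    exact Or.inr (Finset.mem_coe.2 (Finset.mem_image.2 ⟨g, hg, rfl⟩))
  have hCB : C ≤ B := by
    rw [hC]
    refine Algebra.adjoin_le ?_
    rw [Finset.coe_union, Set.union_subset_iff]
    constructor
    · intro x hx
      obtain ⟨s, hs, rfl⟩ := Finset.mem_image.1 (Finset.mem_coe.1 hx)
      refine hiB s (hl.le ?_)
      rw [← hS]
      exact Algebra.subset_adjoin hs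
    · intro x hx
      obtain ⟨g, -, rfl⟩ := Finset.mem_image.1 (Finset.mem_coe.1 hx)
      exact (hmemB _).2 g.2
  have hfrac : ∀ x ∈ B, x ∈ locOf C B hCB := by
    intro x hx
    have hx' := (hmemB x).1 hx
    have h1 : (⟨x, hx'⟩ : integralClosure O F') ∈ Submodule.span O (G : Set (integralClosure O F')) := by
      rw [hG]
      trivial
    have h2 : ∀ y ∈ Submodule.span O (G : Set (integralClosure O F')),
        (y : F') ∈ locOf C B hCB := by
      intro y hy
      induction hy using Submodule.span_induction with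
      | mem g hg => exact ⟨g, hGC g hg, 1, C.one_mem, one_ne_zero, by
          rw [inv_one]; exact B.one_mem, (div_one _).symm⟩
      | zero => exact (locOf C B hCB).zero_mem
      | add y z _ _ hy hz => exact (locOf C B hCB).add_mem hy hz
      | smul o y _ hy =>
        obtain ⟨a, ha, s, hs, hs0, hsO, hos⟩ := (pt_locAt_iff.1 hl).2.2 o o.2
        have h3 : i (o : F) ∈ locOf C B hCB := by
          refine ⟨i a, hAC a ha, i s, hAC s hs, (map_ne_zero i).2 hs0, ?_, ?_⟩
          · rw [← map_inv₀]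
            exact hiB _ hsO
          · rw [hos, map_div₀]
        exact (locOf C B hCB).mul_mem h3 hy
    exact h2 _ h1
  refine ⟨T, ⟨hdvrT, hfrT, C, ⟨S.image i ∪ G', hC.symm⟩, ?_⟩, hcomap⟩
  exact LocAt.of_frac hCB hfrac hBT

end Pool.Agent.KM
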