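import Pool.Agent.Lib.MP_732f67_ag.N.NumA
import Pool.Agent.Lib.MP_732f67_ag.N.NumB
import Pool.Agent.Lib.MP_732f67_ag.N.Prm

/-!
Part N: the fibres of a finite projection; the dichotomy for nef divisors.
-/

namespace Pool.Agent.KM

variable {F : Type} [Field F] [Algebra ℂ F] {Y : Set (Subalgebra ℂ F)}
  {D E H : Subalgebra ℂ F → Fˣ} {d : ℕ}

/-- the value of a form, divided by a power of `y l` -/
private theorem ncP_mem {y : Fin (d + 1) → F} {l : Fin (d + 1)} {N : ℕ}
    {P : MvPolynomial (Fin (d + 1)) ℂ} (hP : P.IsHomogeneous N) :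
    MvPolynomial.aeval y P / y l ^ N ∈ rat y l := by
  rw [MvPolynomial.aeval_def, MvPolynomial.eval₂_eq, Finset.sum_div]
  refine sum_mem fun m hm => ?_
  have h1 : N = ∑ i ∈ m.support, m i := hP.degree_eq_sum_deg_support hm
  have h2 : algebraMap ℂ F (P.coeff m) * (∏ i ∈ m.support, y i ^ m i) / y l ^ N =
      algebraMap ℂ F (P.coeff m) * ∏ i ∈ m.support, (y i / y l) ^ m i := by
    simp only [div_pow]
    rw [Finset.prod_div_distrib, Finset.prod_pow_eq_pow_sum, ← h1, mul_div_assoc]
  have h3 : ∀ i, y i / y l ∈ rat y l := fun i => Algebra.subset_adjoin ⟨i, rfl⟩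
  rw [h2]
  exact mul_mem (Subalgebra.algebraMap_mem _ _) (prod_mem fun i _ => pow_mem (h3 i) _)

/-- all elements of `rat y l` are of this form -/
private theorem ncP_form {y : Fin (d + 1) → F} {l : Fin (d + 1)} (hy : y l ≠ 0) {x : F}
    (hx : x ∈ rat y l) : ∃ (a : ℕ) (A : MvPolynomial (Fin (d + 1)) ℂ), A.IsHomogeneous a ∧
      x = MvPolynomial.aeval y A / y l ^ a := by
  induction hx using Algebra.adjoin_induction with
  | mem x hx =>
    obtain ⟨i, rfl⟩ := hx
    refine ⟨1, MvPolynomial.X i, MvPolynomial.isHomogeneous_X _ i, ?_⟩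
    show y i / y l = _
    rw [MvPolynomial.aeval_X, pow_one]
  | algebraMap c =>
    refine ⟨0, MvPolynomial.C c, MvPolynomial.isHomogeneous_C _ c, ?_⟩
    rw [pow_zero, div_one, MvPolynomial.aeval_C]
  | add x z _ _ h1 h2 =>
    obtain ⟨a, A, hA, rfl⟩ := h1
    obtain ⟨b, B, hB, rfl⟩ := h2
    refine ⟨a + b, A * MvPolynomial.X l ^ b + B * MvPolynomial.X l ^ a,
      (hA.mul (MvPolynomial.isHomogeneous_X_pow l b)).add ?_, ?_⟩
    · have h1 := hB.mul (MvPolynomial.isHomogeneous_X_pow (R := ℂ) l a)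
      have h2 : b + a = a + b := add_comm b a
      rwa [h2] at h1
    · rw [map_add, map_mul, map_mul, map_pow, map_pow, MvPolynomial.aeval_X,
        div_add_div _ _ (pow_ne_zero _ hy) (pow_ne_zero _ hy), pow_add]
      ring
  | mul x z _ _ h1 h2 =>
    obtain ⟨a, A, hA, rfl⟩ := h1
    obtain ⟨b, B, hB, rfl⟩ := h2
    refine ⟨a + b, A * B, hA.mul hB, ?_⟩
    rw [map_mul, pow_add, div_mul_div_comm]

/-- a power of a non-unit is divisible by a given element -/
private theorem ncP_pow {v : Subalgebra ℂ F} (hv : IsDiscreteValuationRing v) {a b : F}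
    (ha : a ∈ v) (ha' : ¬ Un v a) (hb : b ∈ v) (hb0 : b ≠ 0) : ∃ n : ℕ, a ^ n / b ∈ v := by
  obtain ⟨ϖ, hϖ⟩ := IsDiscreteValuationRing.exists_irreducible v
  obtain ⟨n, hn⟩ := IsDiscreteValuationRing.associated_pow_irreducible (x := (⟨b, hb⟩ : v))
    (fun h => hb0 (congrArg Subtype.val h)) hϖ
  have h1 : (⟨a, ha⟩ : v) ∈ IsLocalRing.maximalIdeal v := by
    rw [IsLocalRing.mem_maximalIdeal]
    intro hu
    obtain ⟨w, hw⟩ := hu.exists_right_inv
    have h3 : a * (w : F) = 1 := congrArg (fun x : v => (x : F)) hw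
    refine ha' ⟨left_ne_zero_of_mul_eq_one h3, ha, ?_⟩
    rw [inv_eq_of_mul_eq_one_right h3]
    exact w.2
  rw [(IsDiscreteValuationRing.irreducible_iff_uniformizer ϖ).1 hϖ,
    Ideal.mem_span_singleton] at h1
  obtain ⟨c, hc⟩ := hn.dvd.trans (pow_dvd_pow_of_dvd h1 n)
  refine ⟨n, ?_⟩
  have h2 : a ^ n = b * (c : F) := congrArg (fun x : v => (x : F)) hc
  rw [h2, mul_div_cancel_left₀ _ hb0]
  exact c.2

/-- Let `l` be an index such that `y l` generates `E` at the prime divisor `v ∈ Y`. The elements of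
`rat y l` which are not units at `v` are the multiples of the value of `P`, for every irreducible
form `P` which vanishes at `v` (then `P` is not `c X l`).

PROOF. Let `p` be the prime ideal of these elements, `p' = P(y) / y l ^ N ∈ p`, a prime element of
the polynomial ring `rat y l` (`rat_indep`; dehomogenization of an irreducible form). If `p` is not
generated by `p'`, then `rat y l / p` has transcendence degree at most `d - 2`, and so has `v / m`, which
is algebraic over it: the ring `cht V (y l)` is integral over `rat y l`; but the residue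
field of `v` has transcendence degree `d - 1` (`exists_ri`). (Or: heights and going down for integral
extensions of normal domains.) -/
theorem Noe.prim {V : Submodule ℂ F} {y : Fin (d + 1) → F} (h : Noe Y E V y)
    (hd : Algebra.trdeg ℂ F = d) {v : Subalgebra ℂ F} (hv : v ∈ Y) (hp : PrimDiv v)
    {l : Fin (d + 1)} (hl : Un v (y l * E v)) {N : ℕ} {P : MvPolynomial (Fin (d + 1)) ℂ}
    (hP : P.IsHomogeneous N) (hirr : Irreducible P)
    (hPv : ¬ Un v (MvPolynomial.aeval y P * (E v : F) ^ N)) {x : F} (hx : x ∈ rat y l)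
    (hxv : ¬ Un v x) : x / (MvPolynomial.aeval y P / y l ^ N) ∈ rat y l := by
  have hy : ∀ l, y l ≠ 0 := fun l => (h.mem l).2
  have hpr := hp
  clear hp
  have hle : rat y l ≤ cht V (y l) := by
    refine Algebra.adjoin_le ?_
    rintro _ ⟨i, rfl⟩
    exact Algebra.subset_adjoin ⟨y i, (h.mem i).1, rfl⟩
  have hBv : cht V (y l) ≤ v := h.va.toBF.cht_le hv (h.mem l).1 hl
  obtain ⟨p, hp⟩ : ∃ p : F, p = MvPolynomial.aeval y P / y l ^ N := ⟨_, rfl⟩
  have hpC : p ∈ rat y l := hp ▸ ncP_mem hP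
  have hP0 : P ≠ 0 := hirr.ne_zero
  have hp0 : p ≠ 0 := by
    rw [hp]
    exact div_ne_zero (fun h1 => hP0 (h.ind N P hP h1)) (pow_ne_zero _ (hy l))
  have hpv : ¬ Un v p := by
    intro h1
    refine hPv ?_
    have h2 : MvPolynomial.aeval y P * (E v : F) ^ N = p * (y l * E v) ^ N := by
      rw [hp, mul_pow, ← mul_assoc, div_mul_cancel₀ _ (pow_ne_zero _ (hy l))]
    rw [h2]
    exact h1.mul (hl.pow N)
  rw [← hp]
  -- the ideal of the center of `v`
  have hvY := hv
  rw [h.va.eq] at hvY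
  obtain ⟨q, hq, hqv⟩ := Pts.locAt hvY (h.mem l).1 (hy l) hBv
  have hqu : ∀ b : cht V (y l), b ∈ q ↔ ¬ Un v (b : F) := by
    intro b
    constructor
    · intro hb hu
      obtain ⟨a, s, hs, has⟩ := (hqv _).1 hu.2.2
      have hs0 : (s : F) ≠ 0 := by
        intro h1
        refine hs ?_
        have h2 : s = 0 := Subtype.ext h1
        rw [h2]
        exact q.zero_mem
      refine hs ?_
      have h2 : s = a * b := by
        refine Subtype.ext ?_
        show (s : F) = (a : F) * (b : F)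
        have h3 : (a : F) = (b : F)⁻¹ * s := by
          rw [has, div_mul_cancel₀ _ hs0]
        rw [h3, mul_comm, ← mul_assoc, mul_inv_cancel₀ hu.1, one_mul]
      rw [h2]
      exact q.mul_mem_left _ hb
    · intro hb
      by_contra h1
      refine hb ⟨fun h2 => h1 ?_, hBv b.2, (hqv _).2 ⟨1, b, h1, ?_⟩⟩
      · have h3 : b = 0 := Subtype.ext h2
        rw [h3]
        exact q.zero_mem
      · rw [← one_div]
        rfl
  -- the algebra
  letI : Algebra (rat y l) (cht V (y l)) := (Subalgebra.inclusion hle).toAlgebra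
  have hclosed : IsIntegrallyClosed (rat y l) := by
    obtain ⟨h1, h2⟩ := rat_indep hy h.ind l
    have h3 : IsIntegrallyClosed (MvPolynomial (Fin d) ℂ) := inferInstance
    rw [h2]
    exact IsIntegrallyClosed.of_equiv h1.aevalEquiv.toRingEquiv
  have hfaith : FaithfulSMul (rat y l) (cht V (y l)) := by
    rw [faithfulSMul_iff_algebraMap_injective]
    exact Subalgebra.inclusion_injective hle
  have hint : Algebra.IsIntegral (rat y l) (cht V (y l)) := by
    refine ⟨fun b => ?_⟩
    obtain ⟨f, hf, hf0⟩ := h.int l b b.2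
    refine ⟨f, hf, Subtype.ext ?_⟩
    have h1 : (((Polynomial.eval₂ (algebraMap (rat y l) (cht V (y l))) b f : cht V (y l)) : F)) =
        Polynomial.eval₂ (algebraMap (rat y l) F) (b : F) f := by
      rw [Polynomial.eval₂_eq_sum, Polynomial.eval₂_eq_sum, Polynomial.sum, Polynomial.sum]
      rw [← Subalgebra.coe_val, map_sum]
      refine Finset.sum_congr rfl fun n _ => ?_
      rw [map_mul, map_pow]
      rfl
    rw [h1]
    exact hf0
  obtain ⟨I, hI⟩ : ∃ I : Ideal (rat y l), I = Ideal.span {⟨p, hpC⟩} := ⟨_, rfl⟩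
  have hIle : I ≤ q.under (rat y l) := by
    rw [hI, Ideal.span_singleton_le_iff_mem]
    show algebraMap (rat y l) (cht V (y l)) ⟨p, hpC⟩ ∈ q
    rw [hqu]
    exact hpv
  have hItop : I ≠ ⊤ := fun h1 => by
    have h2 : (q.under (rat y l)) = ⊤ := top_le_iff.1 (h1 ▸ hIle)
    exact (Ideal.IsPrime.under (rat y l) q).ne_top h2
  -- forms divisible by `P`
  have hdiv : ∀ (a : ℕ) (A : MvPolynomial (Fin (d + 1)) ℂ) (hA : A.IsHomogeneous a), P ∣ A →
      (⟨MvPolynomial.aeval y A / y l ^ a, ncP_mem hA⟩ : rat y l) ∈ I := by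
    rintro a A hA ⟨A', rfl⟩
    rw [hI, Ideal.mem_span_singleton']
    by_cases h0 : P * A' = 0
    · refine ⟨0, Subtype.ext ?_⟩
      show (0 : F) * p = MvPolynomial.aeval y (P * A') / y l ^ a
      rw [h0, map_zero, zero_div, zero_mul]
    · obtain ⟨N', a', hsum, hN', ha'⟩ := homog_of_mul h0 hA
      have h1 : N' = N := hN'.inj_right hP hP0
      subst h1
      refine ⟨⟨_, ncP_mem (y := y) (l := l) ha'⟩, Subtype.ext ?_⟩
      show MvPolynomial.aeval y A' / y l ^ a' * p = MvPolynomial.aeval y (P * A') / y l ^ a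
      rw [hp, ← hsum, map_mul, pow_add, div_mul_div_comm, mul_comm (MvPolynomial.aeval y A'),
        mul_comm (y l ^ a')]
  have hPX : ¬ P ∣ MvPolynomial.X l := by
    intro h1
    have h2 := hdiv 1 _ (MvPolynomial.isHomogeneous_X ℂ l) h1
    refine hItop ((Ideal.eq_top_iff_one I).2 ?_)
    convert h2 using 1
    refine Subtype.ext ?_
    show (1 : F) = MvPolynomial.aeval y (MvPolynomial.X l) / y l ^ 1
    rw [MvPolynomial.aeval_X, pow_one, div_self (hy l)]
  have hPp : Prime P := UniqueFactorizationMonoid.irreducible_iff_prime.1 hirr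
  have hIp : I.IsPrime := by
    refine ⟨hItop, fun {z w} hzw => ?_⟩
    obtain ⟨a, A, hA, hz⟩ := ncP_form (hy l) z.2
    obtain ⟨b, B, hB, hw⟩ := ncP_form (hy l) w.2
    rw [hI, Ideal.mem_span_singleton'] at hzw
    obtain ⟨c, hc⟩ := hzw
    obtain ⟨e, M, hM, hcM⟩ := ncP_form (hy l) c.2
    have h1 : (c : F) * p = z * w := congrArg (fun x : rat y l => (x : F)) hc
    have h2 : A * B * MvPolynomial.X l ^ (e + N) = P * (M * MvPolynomial.X l ^ (a + b)) := by
      rw [← sub_eq_zero]
      refine h.ind (a + b + (e + N)) _ (((hA.mul hB).mul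
        (MvPolynomial.isHomogeneous_X_pow l (e + N))).sub ?_) ?_
      · have h3 := hP.mul (hM.mul (MvPolynomial.isHomogeneous_X_pow (R := ℂ) l (a + b)))
        have h4 : N + (e + (a + b)) = a + b + (e + N) := by omega
        rwa [h4] at h3
      · rw [hcM, hp, hz, hw, div_mul_div_comm, div_mul_div_comm, ← pow_add, ← pow_add,
          div_eq_div_iff (pow_ne_zero _ (hy l)) (pow_ne_zero _ (hy l))] at h1
        simp only [map_sub, map_mul, map_pow, MvPolynomial.aeval_X]
        linear_combination (-1 : F) * h1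
    have h3 : P ∣ A * B * MvPolynomial.X l ^ (e + N) := ⟨_, h2⟩
    rcases hPp.dvd_or_dvd h3 with h4 | h4
    · rcases hPp.dvd_or_dvd h4 with h5 | h5
      · left
        convert hdiv a A hA h5 using 1
        exact Subtype.ext hz
      · right
        convert hdiv b B hB h5 using 1
        exact Subtype.ext hw
    · exact absurd (hPp.dvd_of_dvd_pow h4) hPX
  -- going down
  have hxI : (⟨x, hx⟩ : rat y l) ∈ I := by
    by_contra hxI
    have hxq : (⟨x, hx⟩ : rat y l) ∈ q.under (rat y l) := by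
      show algebraMap (rat y l) (cht V (y l)) ⟨x, hx⟩ ∈ q
      rw [hqu]
      exact hxv
    have hlt : I < q.under (rat y l) := lt_of_le_of_ne hIle fun h1 => hxI (h1 ▸ hxq)
    obtain ⟨Q, hQq, hQp, hQI⟩ := Algebra.HasGoingDown.exists_ideal_le_liesOver_of_lt q hlt
    have hpQ : algebraMap (rat y l) (cht V (y l)) ⟨p, hpC⟩ ∈ Q := by
      have h1 : (⟨p, hpC⟩ : rat y l) ∈ Q.under (rat y l) := by
        rw [← hQI.over, hI]
        exact Ideal.mem_span_singleton_self _
      exact h1
    have hxQ : algebraMap (rat y l) (cht V (y l)) ⟨x, hx⟩ ∉ Q := by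
      intro h1
      refine hxI ?_
      rw [hQI.over]
      exact h1
    obtain ⟨n, hn⟩ := ncP_pow hpr.1 (hBv (hle hx)) hxv (hBv (hle hpC)) hp0
    obtain ⟨c, s, hs, hcs⟩ := (hqv _).1 hn
    have hs0 : (s : F) ≠ 0 := by
      intro h1
      refine hs ?_
      have h2 : s = 0 := Subtype.ext h1
      rw [h2]
      exact q.zero_mem
    have h1 : algebraMap (rat y l) (cht V (y l)) ⟨x, hx⟩ ^ n * s =
        algebraMap (rat y l) (cht V (y l)) ⟨p, hpC⟩ * c := by
      refine Subtype.ext ?_
      show x ^ n * (s : F) = p * (c : F)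
      rw [div_eq_div_iff hp0 hs0] at hcs
      rw [hcs, mul_comm]
    have h2 : algebraMap (rat y l) (cht V (y l)) ⟨x, hx⟩ ^ n * s ∈ Q := by
      rw [h1]
      exact Q.mul_mem_right _ hpQ
    rcases hQp.mem_or_mem h2 with h3 | h3
    · exact hxQ (hQp.mem_of_pow_mem _ h3)
    · exact hs (hQq h3)
  rw [hI, Ideal.mem_span_singleton'] at hxI
  obtain ⟨c, hc⟩ := hxI
  have h1 : (c : F) * p = x := congrArg (fun x : rat y l => (x : F)) hc
  rw [← h1, mul_div_cancel_right₀ _ hp0]
  exact c.2

end Pool.Agent.KM
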