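import Pool.Agent.Lib.MP_732f67_ag.N.NumA
import Pool.Agent.Lib.MP_732f67_ag.N.NumB
import Pool.Agent.Lib.MP_732f67_ag.N.Prm
import Pool.Agent.Lib.MP_732f67_ag.N.NcP

/-!
Part N: the fibres of a finite projection; the dichotomy for nef divisors.
-/

namespace Pool.Agent.KM

variable {F : Type} [Field F] [Algebra ℂ F] {Y : Set (Subalgebra ℂ F)}
  {D E H : Subalgebra ℂ F → Fˣ} {d : ℕ}

private theorem ncf_notMem {A O : Subalgebra ℂ F} {Q : Ideal A} (hQ : Q.IsPrime)
    (h : ∀ x : F, x ∈ O ↔ ∃ a b : A, b ∉ Q ∧ x = a / b) (a : A) : a ∉ Q ↔ Un O (a : F) := by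
  have h1 : (1 : A) ∉ Q := fun h1 => hQ.ne_top ((Ideal.eq_top_iff_one Q).2 h1)
  constructor
  · intro ha
    have ha0 : (a : F) ≠ 0 := fun h0 => ha (by
      rw [show a = 0 from Subtype.ext h0]
      exact Q.zero_mem)
    refine ⟨ha0, (h _).2 ⟨a, 1, h1, by simp⟩, (h _).2 ⟨1, a, ha, by simp⟩⟩
  · rintro ⟨ha0, -, ha2⟩ ha
    obtain ⟨c, b, hb, hcb⟩ := (h _).1 ha2
    have hb0 : (b : F) ≠ 0 := fun h0 => hb (by
      rw [show b = 0 from Subtype.ext h0]
      exact Q.zero_mem)
    apply hb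
    have : b = a * c := by
      apply Subtype.ext
      show (b : F) = a * c
      field_simp at hcb
      exact hcb
    rw [this]
    exact Q.mul_mem_right _ ha

private theorem ncf_form {y : Fin (d + 1) → F} (hy : ∀ l, y l ≠ 0) {l : Fin (d + 1)} {x : F}
    (hx : x ∈ rat y l) : ∃ (M : ℕ) (Q : MvPolynomial (Fin (d + 1)) ℂ), Q.IsHomogeneous M ∧
      x * y l ^ M = MvPolynomial.aeval y Q := by
  have hyl := hy l
  induction hx using Algebra.adjoin_induction with
  | mem x hx =>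
    obtain ⟨i, rfl⟩ := hx
    refine ⟨1, MvPolynomial.X i, MvPolynomial.isHomogeneous_X _ _, ?_⟩
    rw [pow_one, MvPolynomial.aeval_X, div_mul_cancel₀ _ hyl]
  | algebraMap c =>
    refine ⟨0, MvPolynomial.C c, MvPolynomial.isHomogeneous_C _ _, ?_⟩
    rw [pow_zero, mul_one, MvPolynomial.aeval_C]
  | add x x' _ _ h h' =>
    obtain ⟨M, Q, hQ, h⟩ := h
    obtain ⟨M', Q', hQ', h'⟩ := h'
    refine ⟨M + M', Q * MvPolynomial.X l ^ M' + Q' * MvPolynomial.X l ^ M, ?_, ?_⟩
    · refine MvPolynomial.IsHomogeneous.add ?_ ?_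
      · exact hQ.mul (MvPolynomial.isHomogeneous_X_pow _ _)
      · rw [add_comm M]
        exact hQ'.mul (MvPolynomial.isHomogeneous_X_pow _ _)
    · rw [map_add, map_mul, map_mul, map_pow, map_pow, MvPolynomial.aeval_X, ← h, ← h']
      ring
  | mul x x' _ _ h h' =>
    obtain ⟨M, Q, hQ, h⟩ := h
    obtain ⟨M', Q', hQ', h'⟩ := h'
    refine ⟨M + M', Q * Q', hQ.mul hQ', ?_⟩
    rw [map_mul, ← h, ← h']
    ring

private theorem ncf_const {O : Subalgebra ℂ F} {c : ℂ} (hc : c ≠ 0) :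
    Un O (algebraMap ℂ F c) := by
  refine ⟨(map_ne_zero _).2 hc, O.algebraMap_mem c, ?_⟩
  rw [← map_inv₀]
  exact O.algebraMap_mem _

private theorem ncf_lin {N : ℕ} {P : MvPolynomial (Fin (d + 1)) ℂ} (hP : P.IsHomogeneous N)
    (hirr : Irreducible P) {j : Fin (d + 1)} (h : P ∣ MvPolynomial.X j) :
    N = 1 ∧ ∃ c : ℂ, c ≠ 0 ∧ P = MvPolynomial.C c * MvPolynomial.X j := by
  obtain ⟨u, hu⟩ := h
  have hX : Irreducible (MvPolynomial.X j : MvPolynomial (Fin (d + 1)) ℂ) :=
    MvPolynomial.X_prime.irreducible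
  have hu1 : IsUnit u := (hX.isUnit_or_isUnit hu).resolve_left hirr.not_isUnit
  obtain ⟨c, hc, rfl⟩ := MvPolynomial.isUnit_iff_eq_C_of_isReduced.1 hu1
  have hc0 : c ≠ 0 := hc.ne_zero
  have hPe : P = MvPolynomial.C c⁻¹ * MvPolynomial.X j := by
    rw [hu, mul_comm P, ← mul_assoc, ← MvPolynomial.C_mul, inv_mul_cancel₀ hc0, MvPolynomial.C_1,
      one_mul]
  refine ⟨?_, c⁻¹, inv_ne_zero hc0, hPe⟩
  have h1 : P.IsHomogeneous 1 := by
    rw [hPe]
    exact MvPolynomial.isHomogeneous_C_mul_X _ _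
  exact hP.inj_right h1 hirr.ne_zero

/-- the fibres of a finite extension -/
private theorem ncf_fin {A C : Subalgebra ℂ F} (hCA : C ≤ A) (hfg : A.FG)
    (hint : ∀ x ∈ A, IsIntegral C x) (q : Ideal A) (hq : q.IsPrime) :
    ∃ T : Finset (Ideal A), (∀ J ∈ T, J.IsPrime) ∧ ∀ q' : Ideal A, q'.IsPrime →
      (∀ c : A, (c : F) ∈ C → c ∈ q' → c ∈ q) → ∃ J ∈ T, q' ≤ J := by
  classical
  let _ : Algebra C A := (Subalgebra.inclusion hCA).toRingHom.toAlgebra
  have htow : IsScalarTower C A F := IsScalarTower.of_algebraMap_eq fun _ => rfl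
  have htow2 : IsScalarTower ℂ C A := IsScalarTower.of_algebraMap_eq fun _ => rfl
  have hint : Algebra.IsIntegral C A := by
    refine ⟨fun a => ?_⟩
    rw [← isIntegral_algebraMap_iff (B := F) (Subtype.val_injective)]
    exact hint _ a.2
  have hft : Algebra.FiniteType C A := by
    have h1 : Algebra.FiniteType ℂ A := (Subalgebra.fg_iff_finiteType _).1 hfg
    exact Algebra.FiniteType.of_restrictScalars_finiteType ℂ C A
  have hfin : Module.Finite C A := Algebra.IsIntegral.finite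
  have hTfin := Algebra.QuasiFinite.finite_primesOver (R := C) (S := A)
    (q.comap (algebraMap C A))
  refine ⟨hTfin.toFinset, ?_, ?_⟩
  · intro J hJ
    rw [Set.Finite.mem_toFinset] at hJ
    exact hJ.1
  · intro q' hq' hle
    obtain ⟨J, hJq, hJp, hJc⟩ := Ideal.exists_ideal_over_prime_of_isIntegral_of_isPrime
      (q.comap (algebraMap C A)) q' (by
        intro c hc
        rw [Ideal.mem_comap] at hc ⊢
        exact hle _ c.2 hc)
    refine ⟨J, ?_, hJq⟩
    rw [Set.Finite.mem_toFinset]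
    exact ⟨hJp, ⟨hJc.symm⟩⟩

/-- The fibre `T` of the point `O`.

PROOF. Let `y l` be a generator of `E` at `O`, `A = cht V (y l)`, `C = rat y l`, `A` is a finite `C`-module.
`O = A_q`. `T` = the local rings of `A` at the finitely many prime ideals over `q ∩ C`. Let `v`, `P` be as in
the statement. If `y l` is not a generator at `v`: let `y l'` be one, by `Noe.prim` `y l / y l'` is a
multiple of `P(y) / y l' ^ N` in `rat y l'`: the form `X l` is divisible by `P`, `P = c X l` (`c ≠ 0` constant),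
which does not vanish at `O`, a contradiction. So `v = A_q'`, and `q' ∩ C = (P(y) / y l ^ N)` is contained in
`q ∩ C`, because `P` vanishes at `O`. Going up: a prime ideal `q'' ⊇ q'` with `q'' ∩ C = q ∩ C`. -/
theorem Noe.fibre {V : Submodule ℂ F} {y : Fin (d + 1) → F} (h : Noe Y E V y)
    (hd : Algebra.trdeg ℂ F = d) {O : Subalgebra ℂ F} (hO : O ∈ Y) :
    ∃ T : Finset (Subalgebra ℂ F), (∀ O₂ ∈ T, O₂ ∈ Y) ∧ ∀ v ∈ Y, PrimDiv v →
      ∀ (N : ℕ) (P : MvPolynomial (Fin (d + 1)) ℂ), P.IsHomogeneous N → Irreducible P →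
        ¬ Un v (MvPolynomial.aeval y P * (E v : F) ^ N) →
        ¬ Un O (MvPolynomial.aeval y P * (E O : F) ^ N) → ∃ O₂ ∈ T, O₂ ≤ v := by
  classical
  have hy0 : ∀ l, y l ≠ 0 := fun l => (h.mem l).2
  obtain ⟨l, hl⟩ := h.gen O hO
  have hAO : cht V (y l) ≤ O := h.va.toBF.cht_le hO (h.mem l).1 hl
  have hOV : O ∈ Pts V := h.va.eq ▸ hO
  obtain ⟨q, hq, hqO⟩ := Pts.locAt hOV (h.mem l).1 (hy0 l) hAO
  have hCA : rat y l ≤ cht V (y l) := by
    refine Algebra.adjoin_le ?_
    rintro _ ⟨i, rfl⟩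
    exact ptc_div_mem (h.mem i).1
  obtain ⟨T, hT1, hT2⟩ := ncf_fin hCA (cht_fg h.va.fin (y l)) (h.int l) q hq
  obtain ⟨f, hf⟩ : ∃ f : Ideal (cht V (y l)) → Subalgebra ℂ F,
      ∀ (J : Ideal (cht V (y l))) (hJ : J.IsPrime), f J = @covLoc _ _ _ _ _ (cht V (y l)) J hJ :=
    ⟨fun J => if hJ : J.IsPrime then @covLoc _ _ _ _ _ (cht V (y l)) J hJ else O,
      fun J hJ => dif_pos hJ⟩
  refine ⟨T.image f, ?_, ?_⟩
  · intro O₂ hO₂
    rw [Finset.mem_image] at hO₂
    obtain ⟨J, hJ, rfl⟩ := hO₂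
    have hJp : J.IsPrime := hT1 J hJ
    rw [hf J hJp, h.va.eq]
    exact ⟨y l, (h.mem l).1, hy0 l, covLoc_locAt _ _⟩
  · intro v hv hvp N P hP hirr hPv hPO
    have hP0 : MvPolynomial.aeval y P ≠ 0 := fun h0 => hirr.ne_zero (h.ind N P hP h0)
    -- `y l` is a generator at `v`
    have hlv : Un v (y l * E v) := by
      obtain ⟨l', hl'⟩ := h.gen v hv
      by_contra hcon
      have hx : y l / y l' ∈ rat y l' := Algebra.subset_adjoin ⟨l, rfl⟩
      have hxv : ¬ Un v (y l / y l') := by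
        intro hu
        apply hcon
        have h1 := hu.mul hl'
        have h2 : y l / y l' * (y l' * (E v : F)) = y l * (E v : F) := by
          have := hy0 l'
          field_simp
        rwa [h2] at h1
      obtain ⟨M, Q, hQ, hQe⟩ := ncf_form hy0 (h.prim hd hv hvp hl' hP hirr hPv hx hxv)
      have h3 : MvPolynomial.X l * MvPolynomial.X l' ^ N * MvPolynomial.X l' ^ M =
          P * (Q * MvPolynomial.X l') := by
        rw [← sub_eq_zero]
        refine h.ind (1 + N + M) _ ?_ ?_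
        · refine MvPolynomial.IsHomogeneous.sub ?_ ?_
          · exact ((MvPolynomial.isHomogeneous_X _ _).mul
              (MvPolynomial.isHomogeneous_X_pow _ _)).mul (MvPolynomial.isHomogeneous_X_pow _ _)
          · have h4 : 1 + N + M = N + (M + 1) := by omega
            rw [h4]
            exact hP.mul (hQ.mul (MvPolynomial.isHomogeneous_X _ _))
        · rw [map_sub, map_mul, map_mul, map_mul, map_mul, map_pow, map_pow, MvPolynomial.aeval_X,
            MvPolynomial.aeval_X, ← hQe]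
          have := hy0 l'
          field_simp
          ring
      have hPp : Prime P := hirr.prime
      have h5 : P ∣ MvPolynomial.X l * MvPolynomial.X l' ^ N * MvPolynomial.X l' ^ M :=
        ⟨_, h3⟩
      have h6 : P ∣ MvPolynomial.X l ∨ P ∣ MvPolynomial.X l' := by
        rcases hPp.dvd_or_dvd h5 with h6 | h6
        · rcases hPp.dvd_or_dvd h6 with h7 | h7
          · exact Or.inl h7
          · exact Or.inr (hPp.dvd_of_dvd_pow h7)
        · exact Or.inr (hPp.dvd_of_dvd_pow h6)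
      rcases h6 with h6 | h6
      · obtain ⟨rfl, c, hc, rfl⟩ := ncf_lin hP hirr h6
        apply hPO
        rw [map_mul, MvPolynomial.aeval_C, MvPolynomial.aeval_X, pow_one, mul_assoc]
        exact (ncf_const hc).mul hl
      · obtain ⟨rfl, c, hc, rfl⟩ := ncf_lin hP hirr h6
        apply hPv
        rw [map_mul, MvPolynomial.aeval_C, MvPolynomial.aeval_X, pow_one, mul_assoc]
        exact (ncf_const hc).mul hl'
    have hAv : cht V (y l) ≤ v := h.va.toBF.cht_le hv (h.mem l).1 hlv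
    have hvV : v ∈ Pts V := h.va.eq ▸ hv
    obtain ⟨q', hq', hqv⟩ := Pts.locAt hvV (h.mem l).1 (hy0 l) hAv
    have hle : ∀ c : cht V (y l), (c : F) ∈ rat y l → c ∈ q' → c ∈ q := by
      intro c hcC hc
      by_contra hcq
      have h1 : ¬ Un v (c : F) := fun hu => (ncf_notMem hq' hqv _).2 hu hc
      have h2 : Un O (c : F) := (ncf_notMem hq hqO _).1 hcq
      have h3 := h.prim hd hv hvp hlv hP hirr hPv hcC h1
      have h4 : (c : F) / (MvPolynomial.aeval y P / y l ^ N) ∈ O := hAO (hCA h3)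
      have h5 : MvPolynomial.aeval y P * (E O : F) ^ N ∈ O := by
        have := h.sec hP O hO
        rwa [Pi.pow_apply, Units.val_pow_eq_pow_val] at this
      apply hPO
      refine ⟨mul_ne_zero hP0 (pow_ne_zero _ (E O).ne_zero), h5, ?_⟩
      have h6 : (MvPolynomial.aeval y P * (E O : F) ^ N)⁻¹ =
          (c : F) / (MvPolynomial.aeval y P / y l ^ N) * (c : F)⁻¹ * ((y l * (E O : F)) ^ N)⁻¹ := by
        have h7 := hy0 l
        have h8 := (E O).ne_zero
        have h9 := h2.1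
        rw [mul_pow]
        field_simp
      rw [h6]
      exact O.mul_mem (O.mul_mem h4 h2.2.2) (hl.pow N).2.2
    obtain ⟨J, hJT, hJq⟩ := hT2 q' hq' hle
    have hJp := hT1 J hJT
    refine ⟨f J, Finset.mem_image.2 ⟨J, hJT, rfl⟩, ?_⟩
    rw [hf J hJp]
    rintro x ⟨a, b, hb, rfl⟩
    have h1 : Un v (b : F) := (ncf_notMem hq' hqv b).1 fun h2 => hb (hJq h2)
    rw [div_eq_mul_inv]
    exact v.mul_mem (hAv a.2) h1.2.2

end Pool.Agent.KM
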