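import Pool.Agent.Lib.MP_732f67_ag.N.NumA
import Pool.Agent.Lib.MP_732f67_ag.N.NumB
import Pool.Agent.Lib.MP_732f67_ag.N.Prm
import Pool.Agent.Lib.MP_732f67_ag.N.NcP
import Pool.Agent.Lib.MP_732f67_ag.N.NcF

/-!
Part N: the fibres of a finite projection; the dichotomy for nef divisors.
-/

namespace Pool.Agent.KM

variable {F : Type} [Field F] [Algebra ℂ F] {Y : Set (Subalgebra ℂ F)}
  {D E H : Subalgebra ℂ F → Fˣ} {d : ℕ}

private theorem nce_const {O : Subalgebra ℂ F} {c : ℂ} (hc : c ≠ 0) :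
    Un O (algebraMap ℂ F c) := by
  refine ⟨(map_ne_zero _).2 hc, O.algebraMap_mem c, ?_⟩
  rw [← map_inv₀]
  exact O.algebraMap_mem _

/-- an irreducible factor which vanishes at `O` -/
private theorem nce_factor (y : Fin (d + 1) → F) (O : Subalgebra ℂ F) (u : F)
    (Q : MvPolynomial (Fin (d + 1)) ℂ) : ∀ M : ℕ, Q.IsHomogeneous M → Q ≠ 0 →
      ¬ Un O (MvPolynomial.aeval y Q * u ^ M) →
      ∃ (N : ℕ) (P : MvPolynomial (Fin (d + 1)) ℂ), P.IsHomogeneous N ∧ Irreducible P ∧ P ∣ Q ∧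
        ¬ Un O (MvPolynomial.aeval y P * u ^ N) := by
  induction Q using WfDvdMonoid.induction_on_irreducible with
  | zero =>
    intro M _ h0
    exact absurd rfl h0
  | unit Q hQ =>
    intro M hM h0 hU
    obtain ⟨c, hc, rfl⟩ := MvPolynomial.isUnit_iff_eq_C_of_isReduced.1 hQ
    exfalso
    apply hU
    have hM0 : M = 0 := hM.inj_right (MvPolynomial.isHomogeneous_C _ _) h0
    rw [hM0, pow_zero, mul_one, MvPolynomial.aeval_C]
    exact nce_const hc.ne_zero
  | mul a i ha hi ih =>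
    intro M hM h0 hU
    obtain ⟨a', b', hab, h1, h2⟩ := homog_of_mul h0 hM
    by_cases hi' : Un O (MvPolynomial.aeval y i * u ^ a')
    · obtain ⟨N, P, hP, hirr, hdvd, hPU⟩ := ih b' h2 ha (by
        intro h3
        apply hU
        have h4 : MvPolynomial.aeval y (i * a) * u ^ M =
            MvPolynomial.aeval y i * u ^ a' * (MvPolynomial.aeval y a * u ^ b') := by
          rw [map_mul, ← hab, pow_add]
          ring
        rw [h4]
        exact hi'.mul h3)
      exact ⟨N, P, hP, hirr, hdvd.mul_left i, hPU⟩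
    · exact ⟨a', i, h1, hi, dvd_mul_right i a, hi'⟩

/-- PROOF. `c` as in `exists_norm`. Let `O ∈ Y`, `T` as in `Noe.fibre`, `s ∈ W` a generator of `A` at the
elements of `T` and at `O` (`avoid`). `t = s g ∈ Sec (E ^ k)`; `exists_norm`: a form `P ≠ 0` of degree
`k e ≤ c k` with `P(y) / s = g * g' ∈ Sec (E ^ (k e) / A)`. Let `P₀ ≠ 0` be a form of minimal degree `N₀`
with `P₀(y) / s ∈ Sec (E ^ N₀ / A)`. `P₀` does not vanish at `O`: otherwise it has an irreducible factor
`P` which vanishes at `O`, `P₀ = P * P₁` (`homog_of_mul`), and by minimality and `sec_of_prim` there is a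
prime divisor `v ∈ Y` with `oD v (P₁(y) / s * ..) < 0 ≤ oD v (P₀(y) / s * ..)`: `P` vanishes at `v` and so does
`s` (`P₁(y)` is a section); but there is `O₂ ∈ T`, `O₂ ≤ v`, where `s` is a generator, hence also at `v`
(`IsCar.un_of_le`). The section `P₀(y) / s * y l ^ (c k - N₀)`, `y l` a generator at `O`. -/
theorem Noe.free {V : Submodule ℂ F} {y : Fin (d + 1) → F} (h : Noe Y E V y)
    (hY : IsProj Y) (hn : Normal Y) (hE : IsCar Y E) (hd : Algebra.trdeg ℂ F = d)
    (hd1 : 1 ≤ d) :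
    ∃ c : ℕ, 1 ≤ c ∧ ∀ (k : ℕ) (A : Subalgebra ℂ F → Fˣ) (W : Submodule ℂ F), IsCar Y A →
      BF Y A W → (∃ g : F, g ≠ 0 ∧ g ∈ Sec Y (E ^ k / A)) → Free Y (E ^ (c * k) / A) := by
  classical
  obtain ⟨c, hc1, hc⟩ := exists_norm h hd1
  refine ⟨c, hc1, ?_⟩
  rintro k A W hA hW ⟨g, hg0, hg⟩ O hO
  obtain ⟨T, hTY, hT⟩ := h.fibre hd hO
  obtain ⟨s, hsW, hs⟩ := avoid hY hW (insert O T) (by
    intro O' hO'
    rcases Finset.mem_insert.1 hO' with rfl | hO'
    · exact hO
    · exact hTY O' hO')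
  have hsO : Un O (s * A O) := hs O (Finset.mem_insert_self _ _)
  have hs0 : s ≠ 0 := left_ne_zero_of_mul hsO.1
  have key : ∀ (P : MvPolynomial (Fin (d + 1)) ℂ) (N : ℕ) (v : Subalgebra ℂ F),
      MvPolynomial.aeval y P / s * (((E ^ N / A) v : Fˣ) : F) =
        MvPolynomial.aeval y P * (E v : F) ^ N / (s * A v) := by
    intro P N v
    rw [Pi.div_apply, Pi.pow_apply, Units.val_div_eq_div_val, Units.val_pow_eq_pow_val,
      div_mul_div_comm]
  have hex : ∃ (N : ℕ) (P : MvPolynomial (Fin (d + 1)) ℂ), P.IsHomogeneous N ∧ P ≠ 0 ∧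
      MvPolynomial.aeval y P / s ∈ Sec Y (E ^ N / A) ∧ N ≤ c * k := by
    have ht : s * g ∈ Sec Y (E ^ k) := by
      have h1 := sec_mul (hW.sec hsW) hg
      rwa [mul_div_cancel] at h1
    obtain ⟨e, P, he1, hec, hP, hP0, g', hg', hPe⟩ := hc k (s * g) (mul_ne_zero hs0 hg0) ht
    refine ⟨k * e, P, hP, hP0, ?_, ?_⟩
    · have h1 := sec_mul hg hg'
      have h2 : E ^ k / A * E ^ (k * (e - 1)) = E ^ (k * e) / A := by
        have h3 : k * e = k + k * (e - 1) := by
          obtain ⟨e', rfl⟩ : ∃ e', e = e' + 1 := ⟨e - 1, by omega⟩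
          rw [Nat.add_sub_cancel]
          ring
        rw [h3, pow_add, div_mul_eq_mul_div]
      rw [h2] at h1
      have h3 : MvPolynomial.aeval y P / s = g * g' := by
        rw [hPe]
        field_simp
      rwa [h3]
    · rw [mul_comm c]
      exact Nat.mul_le_mul_left k hec
  obtain ⟨P₀, hP₀, hP₀0, hP₀s, hN₀⟩ := Nat.find_spec hex
  have hmin := fun m hm => Nat.find_min hex (m := m) hm
  generalize Nat.find hex = N₀ at *
  have hU : Un O (MvPolynomial.aeval y P₀ * (E O : F) ^ N₀) := by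
    by_contra hcon
    obtain ⟨N, P, hP, hirr, ⟨P₁, hP₁⟩, hPU⟩ := nce_factor y O (E O : F) P₀ N₀ hP₀ hP₀0 hcon
    have hP₁0 : P₁ ≠ 0 := by
      rintro rfl
      exact hP₀0 (by rw [hP₁, mul_zero])
    obtain ⟨N', N₁, hNN, hPh, hP₁h⟩ := homog_of_mul (hP₁ ▸ hP₀0) (hP₁ ▸ hP₀)
    obtain rfl : N' = N := hPh.inj_right hP hirr.ne_zero
    have hN1 : N' ≠ 0 := by
      rintro rfl
      have h1 : P.totalDegree = 0 := hPh.totalDegree hirr.ne_zero
      have h2 : P = MvPolynomial.C (MvPolynomial.coeff 0 P) :=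
        MvPolynomial.totalDegree_eq_zero_iff_eq_C.1 h1
      apply hirr.not_isUnit
      rw [h2]
      refine (IsUnit.mk0 _ ?_).map _
      intro h3
      rw [h3, MvPolynomial.C_0] at h2
      exact hirr.ne_zero h2
    have hnot : ¬ MvPolynomial.aeval y P₁ / s ∈ Sec Y (E ^ N₁ / A) := by
      intro h1
      exact hmin N₁ (by omega) ⟨P₁, hP₁h, hP₁0, h1, by omega⟩
    have h2 : ∃ v ∈ Y, PrimDiv v ∧
        ¬ MvPolynomial.aeval y P₁ / s * (((E ^ N₁ / A) v : Fˣ) : F) ∈ v := by
      by_contra hcon2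
      push Not at hcon2
      exact hnot (sec_of_prim hY hn (car_div (car_pow hE N₁) hA) hcon2)
    obtain ⟨v, hv, hvp, hvn⟩ := h2
    rw [key] at hvn
    have hPv : ¬ Un v (MvPolynomial.aeval y P * (E v : F) ^ N') := by
      intro hu
      apply hvn
      have h3 := hP₀s v hv
      rw [key] at h3
      have h4 : MvPolynomial.aeval y P₁ * (E v : F) ^ N₁ / (s * A v) =
          MvPolynomial.aeval y P₀ * (E v : F) ^ N₀ / (s * A v) *
            (MvPolynomial.aeval y P * (E v : F) ^ N')⁻¹ := by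
        have h5 := hu.1
        rw [hP₁, map_mul, ← hNN, pow_add]
        rw [← div_eq_mul_inv, eq_div_iff h5]
        ring
      rw [h4]
      exact v.mul_mem h3 hu.2.2
    obtain ⟨O₂, hO₂, hle⟩ := hT v hv hvp N' P hP hirr hPv hPU
    have h5 : Un O₂ (s * A O₂) := hs O₂ (Finset.mem_insert_of_mem hO₂)
    have h6 : Un v (s * A O₂) := ⟨h5.1, hle h5.2.1, hle h5.2.2⟩
    have h7 : Un v (s * A v) := by
      have h8 := hA.un_of_le (hTY O₂ hO₂) hv hle
      rw [Units.val_div_eq_div_val] at h8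
      have h9 := h6.div h8
      have h10 : s * (A O₂ : F) / ((A O₂ : F) / A v) = s * A v := by
        have := (A O₂).ne_zero
        have := (A v).ne_zero
        field_simp
      rwa [h10] at h9
    apply hvn
    rw [div_eq_mul_inv]
    refine v.mul_mem ?_ h7.2.2
    have h11 := h.sec hP₁h v hv
    rwa [Pi.pow_apply, Units.val_pow_eq_pow_val] at h11
  obtain ⟨l, hl⟩ := h.gen O hO
  refine ⟨MvPolynomial.aeval y P₀ / s * y l ^ (c * k - N₀), ?_, ?_⟩
  · have h1 := sec_mul hP₀s (sec_pow (h.va.sec (h.mem l).1) (c * k - N₀))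
    have h2 : E ^ N₀ / A * E ^ (c * k - N₀) = E ^ (c * k) / A := by
      have h3 : c * k = N₀ + (c * k - N₀) := by omega
      conv_rhs => rw [h3]
      rw [pow_add, div_mul_eq_mul_div]
    rwa [h2] at h1
  · have h2 : MvPolynomial.aeval y P₀ / s * y l ^ (c * k - N₀) *
        (((E ^ (c * k) / A) O : Fˣ) : F) =
        MvPolynomial.aeval y P₀ * (E O : F) ^ N₀ / (s * A O) * (y l * E O) ^ (c * k - N₀) := by
      have h3 : (E O : F) ^ (c * k) = (E O : F) ^ N₀ * (E O : F) ^ (c * k - N₀) := by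
        rw [← pow_add]
        congr 1
        omega
      rw [Pi.div_apply, Pi.pow_apply, Units.val_div_eq_div_val, Units.val_pow_eq_pow_val, h3,
        mul_pow]
      have := (A O).ne_zero
      field_simp
    rw [h2]
    exact (hU.div hsO).mul (hl.pow _)

end Pool.Agent.KM
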