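import Pool.Agent.Lib.MP_732f67_ag.N.NumA
import Pool.Agent.Lib.MP_732f67_ag.N.NumB
import Pool.Agent.Lib.MP_732f67_ag.N.Prm
import Pool.Agent.Lib.MP_732f67_ag.N.NcP
import Pool.Agent.Lib.MP_732f67_ag.N.NcF
import Pool.Agent.Lib.MP_732f67_ag.N.NcE

/-!
Part N: the fibres of a finite projection; the dichotomy for nef divisors.
-/

namespace Pool.Agent.KM

variable {F : Type} [Field F] [Algebra ℂ F] {Y : Set (Subalgebra ℂ F)}
  {D E H : Subalgebra ℂ F → Fˣ} {d : ℕ}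

/-- `fin_sec` -/
theorem sf_of_free (hY : IsProj Y) (hD : IsCar Y D) {m : ℕ} (hm : 1 ≤ m) (h : Free Y (D ^ m)) :
    SF Y D := by
  refine ⟨m, hm, Sec Y (D ^ m), fin_sec hY (car_pow hD m), le_rfl, fun O hO => ?_⟩
  obtain ⟨f, hf, hu⟩ := h O hO
  exact ⟨f, hf, hu⟩

/-- The dichotomy.

PROOF. Suppose not the first; `pigeon`. `exists_noe`: `E = H ^ n`; `c` as in `Noe.free`. Let `r : ℕ`,
`f ∈ Sec ((H / D ^ r) ^ k)`. `D ^ r * H` is ample; `K = k n x`, `x ≥ 1`, such that `A = (D ^ r * H) ^ K` has `BF`.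
`f ^ (n x)` is a section of `(H / D ^ r) ^ K = E ^ (2 k x) / A`. So `E ^ (2 c k x) / A = (H ^ (2 c - 1) / D ^ r) ^ K`
is free; times `H ^ K`: `H ^ (2 c) / D ^ r` is ample (`sf_of_free`, `amp_mul_sf`, `amp_of_pow`). `nf_of`. -/
theorem num_dich (hY : IsProj Y) (hn : Normal Y) (hd : Algebra.trdeg ℂ F = d) (hd1 : 1 ≤ d)
    (hD : IsCar Y D) (hN : Nf Y D) (hH : IsCar Y H) (hA : Amp Y H) :
    (∀ C : ℕ, ∃ q k : ℕ, 1 ≤ k ∧
      C * k ^ d < Module.finrank ℂ (Sec Y ((D ^ q * H ^ 2) ^ k))) ∨ Nf Y D⁻¹ := by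
  rw [or_iff_not_imp_left]
  intro hneg
  push Not at hneg
  obtain ⟨C, hC⟩ := hneg
  obtain ⟨n, hn1, V, y, hV⟩ := exists_noe hY hd hA
  obtain ⟨c, hc, hfree⟩ := hV.free hY hn (car_pow hH n) hd hd1
  refine nf_of hY (car_pow hH (2 * c)) fun m => ⟨m + 1, by omega, by omega, ?_⟩
  obtain ⟨r, hr⟩ : ∃ r, r = m + 1 := ⟨_, rfl⟩
  rw [← hr]
  obtain ⟨k, hk, f, hf0, hf⟩ := pigeon hY hn hd hD hN hH hA hC r
  obtain ⟨a, ha, W, hW⟩ := hN H hH hA r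
  have hW' := hW.toBF.pow (k * n)
  rw [← pow_mul] at hW'
  have hcar : IsCar Y ((D ^ r * H) ^ (a * (k * n))) := car_pow (car_mul (car_pow hD r) hH) _
  have e1 : (H ^ n) ^ (2 * k * a) / (D ^ r * H) ^ (a * (k * n)) =
      ((H / D ^ r) ^ k) ^ (n * a) := by
    rw [← pow_mul, ← pow_mul, mul_pow, div_pow, div_eq_div_iff_mul_eq_mul]
    have h1 : n * (2 * k * a) = k * (n * a) + a * (k * n) := by ring
    have h2 : k * (n * a) = a * (k * n) := by ring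
    rw [h1, pow_add, h2]
    rw [mul_assoc, mul_comm (H ^ (a * (k * n))) ((D ^ r) ^ (a * (k * n)))]
  have hg : f ^ (n * a) ∈ Sec Y ((H ^ n) ^ (2 * k * a) / (D ^ r * H) ^ (a * (k * n))) := by
    rw [e1]
    intro O hO
    rw [Pi.pow_apply, Units.val_pow_eq_pow_val, ← mul_pow]
    exact O.pow_mem (hf O hO) _
  have hF := hfree (2 * k * a) _ _ hcar hW' ⟨_, pow_ne_zero _ hf0, hg⟩
  have hK : 1 ≤ a * (k * n) := Nat.mul_pos ha (Nat.mul_pos hk hn1)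
  obtain ⟨c', rfl⟩ : ∃ c', c = c' + 1 := ⟨c - 1, by omega⟩
  have e2 : (H ^ n) ^ ((c' + 1) * (2 * k * a)) / (D ^ r * H) ^ (a * (k * n)) =
      (H ^ (2 * c' + 1) / D ^ r) ^ (a * (k * n)) := by
    rw [← pow_mul, mul_pow, div_pow, div_eq_div_iff_mul_eq_mul, ← pow_mul]
    have h1 : n * ((c' + 1) * (2 * k * a)) = (2 * c' + 1) * (a * (k * n)) + a * (k * n) := by
      ring
    rw [h1, pow_add, mul_assoc, mul_comm (H ^ (a * (k * n))) (D ^ (r * (a * (k * n)))),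
      pow_mul H]
  rw [e2] at hF
  have hS := sf_of_free hY (car_div (car_pow hH (2 * c' + 1)) (car_pow hD r)) hK hF
  have hA2 := amp_mul_sf hY hA hS
  have e3 : H * (H ^ (2 * c' + 1) / D ^ r) = D⁻¹ ^ r * H ^ (2 * (c' + 1)) := by
    have h1 : 2 * (c' + 1) = (2 * c' + 1) + 1 := by ring
    rw [h1, pow_succ H (2 * c' + 1), inv_pow, div_eq_mul_inv]
    rw [mul_comm H, mul_right_comm, mul_comm ((D ^ r)⁻¹)]
  rwa [e3] at hA2

end Pool.Agent.KM
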