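import Pool.Agent.Lib.MP_732f67_ag.N.NVa
import Pool.Agent.Lib.MP_732f67_ag.N.NVb
import Pool.Agent.Lib.MP_732f67_ag.N.NumC

/-!
Part N: the non-vanishing theorem.
-/

namespace Pool.Agent.KM

/-- the dimension `0`: `F = ℂ`, and there are no prime divisors; `f = 1` -/
theorem nv_zero : NV 0 := by
  intro F _ _ Y G Δ D ν m a hB _ _ _ _ _ _ _
  refine ⟨0, fun b _ => ⟨1, one_ne_zero, fun γ _ => map_one γ, fun O _ hP => ?_⟩⟩
  have : Algebra.IsAlgebraic ℂ F := by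
    rw [← trdeg_eq_zero_iff, hB.dim, Nat.cast_zero]
  have hbij : Function.Bijective (algebraMap ℂ F) :=
    IsAlgClosed.algebraMap_bijective_of_isIntegral
  have hO : ∀ x : F, x ∈ O := fun x => by
    obtain ⟨c, rfl⟩ := hbij.2 x
    exact O.algebraMap_mem c
  have := hP.1
  refine absurd ?_ (IsDiscreteValuationRing.not_isField O)
  refine ⟨⟨0, 1, zero_ne_one⟩, mul_comm, fun {x} hx => ⟨⟨(x : F)⁻¹, hO _⟩, Subtype.ext ?_⟩⟩
  exact mul_inv_cancel₀ fun h => hx (Subtype.ext h)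

variable {F : Type} [Field F] [Algebra ℂ F] {Y : Set (Subalgebra ℂ F)} {d : ℕ}
  {Δ : Fin d → Derivation ℂ F F} {ν E : Subalgebra ℂ F → Fˣ} {m g : ℕ}

end Pool.Agent.KM
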