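import Pool.Agent.Lib.MP_732f67_ag.N.NVa
import Pool.Agent.Lib.MP_732f67_ag.N.NVb
import Pool.Agent.Lib.MP_732f67_ag.N.NumC
import Pool.Agent.Lib.MP_732f67_ag.N.NvZ

/-!
Part N: the non-vanishing theorem.
-/

namespace Pool.Agent.KM

variable {F : Type} [Field F] [Algebra ℂ F] {Y : Set (Subalgebra ℂ F)} {d : ℕ}
  {Δ : Fin d → Derivation ℂ F F} {ν E : Subalgebra ℂ F → Fˣ} {m g : ℕ}

/-- `m`, `ν` can be replaced by `m g`, `ν ^ g` -/
theorem LD_pow (hm : 1 ≤ m) (hg : 1 ≤ g) {O : Subalgebra ℂ F} (hO : PrimDiv O) {x : F}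
    (hx : x ≠ 0) : LD Δ (m * g) O (x ^ g) = LD Δ m O x := by
  have hm' : (m : ℚ) ≠ 0 := by exact_mod_cast (by omega : m ≠ 0)
  have hg' : (g : ℚ) ≠ 0 := by exact_mod_cast (by omega : g ≠ 0)
  unfold LD
  rw [oD_pow hO hx]
  push_cast
  field_simp

theorem pos_pow (hm : 1 ≤ m) (hg : 1 ≤ g) : Pos Y Δ (m * g) (ν ^ g) ↔ Pos Y Δ m ν := by
  have key : ∀ O, PrimDiv O → ∀ O₀, LD Δ (m * g) O (((ν ^ g : Subalgebra ℂ F → Fˣ) O₀ : Fˣ) : F) =
      LD Δ m O (ν O₀) := by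
    intro O hO O₀
    rw [Pi.pow_apply, Units.val_pow_eq_pow_val]
    exact LD_pow hm hg hO (ν O₀).ne_zero
  constructor
  · intro h O hO O₀ hO₀ hd
    have := h O hO O₀ hO₀ hd
    rwa [key O hO] at this
  · intro h O hO O₀ hO₀ hd
    rw [key O hO]
    exact h O hO O₀ hO₀ hd

theorem ls_pow (hm : 1 ≤ m) (hg : 1 ≤ g) {f : F} :
    LS Y Δ (m * g) (ν ^ g) E f ↔ LS Y Δ m ν E f := by
  have key : ∀ O, PrimDiv O → ∀ O₀, LD Δ (m * g) O (((ν ^ g : Subalgebra ℂ F → Fˣ) O₀ : Fˣ) : F) =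
      LD Δ m O (ν O₀) := by
    intro O hO O₀
    rw [Pi.pow_apply, Units.val_pow_eq_pow_val]
    exact LD_pow hm hg hO (ν O₀).ne_zero
  constructor
  · intro h O hO hp
    have := h O hO hp
    rwa [key O hp] at this
  · intro h O hO hp
    rw [key O hp]
    exact h O hO hp

end Pool.Agent.KM
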