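import Pool.Agent.Lib.MP_732f67_ag.N.NVa
import Pool.Agent.Lib.MP_732f67_ag.N.NVb
import Pool.Agent.Lib.MP_732f67_ag.N.NumC
import Pool.Agent.Lib.MP_732f67_ag.N.NvZ
import Pool.Agent.Lib.MP_732f67_ag.N.NvP

/-!
Part N: the non-vanishing theorem.
-/

namespace Pool.Agent.KM

variable {F : Type} [Field F] [Algebra ℂ F] {Y : Set (Subalgebra ℂ F)} {d : ℕ}
  {Δ : Fin d → Derivation ℂ F F} {ν E : Subalgebra ℂ F → Fˣ} {m g : ℕ}

/-- PROOF. Replace `m`, `ν` by `m g`, `ν ^ g`, `g = Nat.card G` (`gi_pow_gc`, `pos_pow`, `ls_pow`;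
`D ^ (a (m g)) * ν ^ g = (D ^ (a m) * ν) ^ g`, `amp_pow`). `num_dich` for `H = D ^ (a m) * ν`; `nv_big`, `nv_triv`. -/
theorem nv_succ {n : ℕ} (hNV : NV n) (hR : RX (n + 1)) (hV : VX) : NV (n + 1) := by
  intro F _ _ Y G Δ D ν m a hY hD hN hνC hνG hm hA hP
  have hfin : Finite G := hY.fin
  have hg : 1 ≤ Nat.card G := Nat.card_pos
  have hν' : GC Y G (ν ^ Nat.card G) := gi_pow_gc hY hνC hνG
  have hm' : 1 ≤ m * Nat.card G := Nat.mul_pos hm hg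
  have hA' : Amp Y (D ^ (a * (m * Nat.card G)) * ν ^ Nat.card G) := by
    rw [← mul_assoc, pow_mul, ← mul_pow]
    exact amp_pow hY.proj hA hg
  have hP' : Pos Y Δ (m * Nat.card G) (ν ^ Nat.card G) := (pos_pow hm hg).2 hP
  rcases num_dich hY.proj hY.normal hY.dim (Nat.succ_le_succ (Nat.zero_le n)) hD.1 hN
    (car_mul (car_pow hD.1 (a * (m * Nat.card G))) hν'.1) hA' with hbig | hN'
  · obtain ⟨b₀, hb₀⟩ := nv_big hNV hR hV hY hD hN hν' hm' hA' hP' hbig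
    refine ⟨b₀, fun b hb => ?_⟩
    obtain ⟨f, hf0, hfG, hf⟩ := hb₀ b hb
    exact ⟨f, hf0, hfG, (ls_pow hm hg).1 hf⟩
  · refine ⟨0, fun b _ => ?_⟩
    obtain ⟨f, hf0, hfG, hf⟩ := nv_triv hR hV hY hD hN hN' hν' hm' hA' hP' b
    exact ⟨f, hf0, hfG, (ls_pow hm hg).1 hf⟩

theorem nv_all (hR : ∀ d, RX d) (hV : VX) (d : ℕ) : NV d := by
  induction d with
  | zero => exact nv_zero
  | succ n ih => exact nv_succ ih (hR (n + 1)) hV

end Pool.Agent.KM
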