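import Mathlib

/-!
Part N: functions which satisfy difference equations are polynomials.
-/

namespace Pool.Agent.KM

/-- A polynomial is the difference of a polynomial. -/
theorem rep_exists_sum (P : Polynomial ℚ) :
    ∃ S : Polynomial ℚ, ∀ x : ℚ, S.eval (x + 1) - S.eval x = P.eval x := by
  induction P using Polynomial.induction_on' with
  | add P Q hP hQ =>
    obtain ⟨S, hS⟩ := hP
    obtain ⟨T, hT⟩ := hQ
    refine ⟨S + T, fun x => ?_⟩
    rw [Polynomial.eval_add, Polynomial.eval_add, Polynomial.eval_add, ← hS, ← hT]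
    ring
  | monomial n a =>
    refine ⟨Polynomial.C (a / (n + 1)) * Polynomial.bernoulli (n + 1), fun x => ?_⟩
    have h1 := Polynomial.bernoulli_eval_one_add (n + 1) x
    rw [Nat.add_sub_cancel] at h1
    have h2 : ((n : ℚ) + 1) ≠ 0 := by positivity
    simp only [Polynomial.eval_mul, Polynomial.eval_C, Polynomial.eval_monomial]
    rw [add_comm x 1, h1]
    push_cast
    field_simp
    ring

/-- A function on the integers with a vanishing iterated difference is a polynomial. -/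
theorem rep_poly (m : ℕ) : ∀ f : ℤ → ℚ,
    (∀ b : ℤ, ∑ j ∈ Finset.range (m + 1), (-1 : ℚ) ^ j * (m.choose j * f (b + j)) = 0) →
    ∃ P : Polynomial ℚ, ∀ b : ℤ, P.eval (b : ℚ) = f b := by
  induction m with
  | zero =>
    intro f hf
    refine ⟨0, fun b => ?_⟩
    have h1 := hf b
    simp at h1
    rw [h1, Polynomial.eval_zero]
  | succ m ih =>
    intro f hf
    obtain ⟨P, hP⟩ := ih (fun b => f (b + 1) - f b) (fun b => by
      have h1 := hf b
      have h2 : ∑ j ∈ Finset.range (m + 1 + 1), (-1 : ℚ) ^ j * (((m + 1).choose j : ℕ) * f (b + j)) =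
          -∑ j ∈ Finset.range (m + 1), (-1 : ℚ) ^ j * ((m.choose j : ℕ) *
            (f (b + j + 1) - f (b + j))) := by
        rw [Finset.sum_range_succ']
        have h3 : ∀ j : ℕ, (-1 : ℚ) ^ (j + 1) * (((m + 1).choose (j + 1) : ℕ) *
            f (b + ((j + 1 : ℕ) : ℤ))) = -((-1 : ℚ) ^ j * ((m.choose j : ℕ) * f (b + j + 1))) +
              (-1 : ℚ) ^ (j + 1) * ((m.choose (j + 1) : ℕ) * f (b + ((j + 1 : ℕ) : ℤ))) := by
          intro j
          rw [Nat.choose_succ_succ, pow_succ]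
          push_cast
          rw [← add_assoc b]
          ring
        rw [Finset.sum_congr rfl fun j _ => h3 j, Finset.sum_add_distrib]
        have h4 : ∑ j ∈ Finset.range (m + 1), (-1 : ℚ) ^ (j + 1) * ((m.choose (j + 1) : ℕ) *
            f (b + ((j + 1 : ℕ) : ℤ))) + (-1 : ℚ) ^ 0 * (((m + 1).choose 0 : ℕ) * f (b + (0 : ℕ))) =
            ∑ j ∈ Finset.range (m + 1), (-1 : ℚ) ^ j * ((m.choose j : ℕ) * f (b + j)) := by
          rw [Finset.sum_range_succ, Nat.choose_succ_self, Finset.sum_range_succ' _ m]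
          simp
        rw [add_assoc, h4, Finset.sum_neg_distrib, ← sub_eq_neg_add, ← neg_sub,
          ← Finset.sum_sub_distrib]
        congr 1
        refine Finset.sum_congr rfl fun j _ => ?_
        ring
      rw [h2, neg_eq_zero] at h1
      exact h1)
    obtain ⟨S, hS⟩ := rep_exists_sum P
    have h5 : ∀ b : ℤ, f (b + 1) - S.eval (((b + 1 : ℤ)) : ℚ) = f b - S.eval (b : ℚ) := by
      intro b
      have h6 := hS b
      have h7 := hP b
      push_cast
      linarith
    have h8 : ∀ b : ℤ, f b - S.eval (b : ℚ) = f 0 - S.eval 0 := by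
      intro b
      induction b using Int.induction_on with
      | zero => simp
      | succ n ih => rw [h5, ih]
      | pred n ih =>
        have h9 := h5 (-(n : ℤ) - 1)
        rw [sub_add_cancel] at h9
        rw [← h9, ih]
    refine ⟨S + Polynomial.C (f 0 - S.eval 0), fun b => ?_⟩
    rw [Polynomial.eval_add, Polynomial.eval_C, ← h8 b]
    ring

/-- The ring theoretic part. -/
theorem rep_nilpotent {A : Type*} [CommRing A] (I : Ideal A) (X T : A) (R R' : ℕ)
    (h1 : (1 - X) ^ R ∈ I) (h2 : (1 - X * T) ^ R' ∈ I) : ∃ m, (1 - T) ^ m ∈ I := by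
  have h3 : IsNilpotent (1 - Ideal.Quotient.mk I X) := ⟨R, by
    rw [← map_one (Ideal.Quotient.mk I), ← map_sub, ← map_pow]
    exact Ideal.Quotient.eq_zero_iff_mem.2 h1⟩
  have h4 : IsNilpotent (1 - Ideal.Quotient.mk I X * Ideal.Quotient.mk I T) := ⟨R', by
    rw [← map_one (Ideal.Quotient.mk I), ← map_mul, ← map_sub, ← map_pow]
    exact Ideal.Quotient.eq_zero_iff_mem.2 h2⟩
  have h5 : IsUnit (Ideal.Quotient.mk I X) := by
    have h6 := h3.isUnit_one_sub
    rwa [sub_sub_cancel] at h6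
  obtain ⟨u, hu⟩ := h5
  have h7 : IsNilpotent ((1 - Ideal.Quotient.mk I X * Ideal.Quotient.mk I T) -
      (1 - Ideal.Quotient.mk I X)) := (Commute.all _ _).isNilpotent_sub h4 h3
  have h8 : (1 - Ideal.Quotient.mk I X * Ideal.Quotient.mk I T) - (1 - Ideal.Quotient.mk I X) =
      Ideal.Quotient.mk I X * (1 - Ideal.Quotient.mk I T) := by ring
  rw [h8] at h7
  have h9 : IsNilpotent (((u⁻¹ : (A ⧸ I)ˣ) : A ⧸ I) *
      (Ideal.Quotient.mk I X * (1 - Ideal.Quotient.mk I T))) :=
    (Commute.all _ _).isNilpotent_mul_left h7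
  rw [← mul_assoc, ← hu, Units.inv_mul, one_mul] at h9
  obtain ⟨m, hm⟩ := h9
  refine ⟨m, ?_⟩
  rw [← map_one (Ideal.Quotient.mk I), ← map_sub, ← map_pow] at hm
  exact Ideal.Quotient.eq_zero_iff_mem.1 hm

/-- PROOF. Let `m = R + R'`. On the functions on `ℕ × ℤ` the shifts `X : Q x b ↦ Q (x + 1) b` and
`Z : Q x b ↦ Q (x + 1) (b + 1)` commute, `(1 - X) ^ R Q = 0 = (1 - Z) ^ R' Q`, so `(Z - X) ^ m Q = 0`
(binomial theorem for `(1 - X) - (1 - Z)`), that is `∑ j, (-1) ^ j * m.choose j * Q (x + m) (b + j) = 0`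
for all `x`, `b`. The `m`-th difference in `b` of `Q x` vanishes for `x ≥ m`, and by `h1` (descending
induction on `x`: `Q x b` is a combination of the `Q (x + j) b`, `1 ≤ j ≤ R`; if `R = 0` then `Q = 0`) for
all `x`. A function on `ℤ` with vanishing `m`-th difference is a polynomial (Newton's
formula on `b ≥ b₀`, for all `b₀`; `fwdDiff_iter_eq_sum_shift` and its neighbours in Mathlib). -/
theorem rec_poly {Q : ℕ → ℤ → ℤ} {R R' : ℕ}
    (h1 : ∀ x b, ∑ j ∈ Finset.range (R + 1), (-1 : ℤ) ^ j * (R.choose j * Q (x + j) b) = 0)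
    (h2 : ∀ x b, ∑ j ∈ Finset.range (R' + 1),
      (-1 : ℤ) ^ j * (R'.choose j * Q (x + j) (b + j)) = 0) :
    ∃ P : Polynomial ℚ, ∀ b : ℤ, P.eval (b : ℚ) = Q 0 b := by
  classical
  -- the functional
  obtain ⟨φ, hφ⟩ : ∃ φ : AddMonoidAlgebra ℤ (ℕ × ℤ) →+ ℤ, ∀ (x : ℕ) (b : ℤ) (c : ℤ),
      φ (AddMonoidAlgebra.single (x, b) c) = c * Q x b := by
    refine ⟨(Finsupp.liftAddHom fun p : ℕ × ℤ => AddMonoidHom.mulRight (Q p.1 p.2)).comp
      (AddMonoidAlgebra.coeffAddEquiv : AddMonoidAlgebra ℤ (ℕ × ℤ) ≃+ (ℕ × ℤ →₀ ℤ)).toAddMonoidHom,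
      fun x b c => ?_⟩
    exact Finsupp.liftAddHom_apply_single _ _ _
  let I : Ideal (AddMonoidAlgebra ℤ (ℕ × ℤ)) :=
    { carrier := {p | ∀ q, φ (q * p) = 0}
      zero_mem' := fun q => by rw [mul_zero, map_zero]
      add_mem' := fun {p p'} hp hp' q => by rw [mul_add, map_add, hp, hp', add_zero]
      smul_mem' := fun c p hp q => by
        rw [smul_eq_mul, ← mul_assoc]
        exact hp _ }
  have hI : ∀ p, (∀ x b, φ (AddMonoidAlgebra.single (x, b) 1 * p) = 0) → p ∈ I := by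
    intro p hp q
    induction q using AddMonoidAlgebra.induction_on with
    | of m =>
      exact hp m.1 m.2
    | add q q' hq hq' => rw [add_mul, map_add, hq, hq', add_zero]
    | smul r q hq => rw [smul_mul_assoc, map_zsmul, hq, smul_zero]
  obtain ⟨X, hX⟩ : ∃ X : AddMonoidAlgebra ℤ (ℕ × ℤ), X = AddMonoidAlgebra.single (1, 0) 1 := ⟨_, rfl⟩
  obtain ⟨T, hT⟩ : ∃ T : AddMonoidAlgebra ℤ (ℕ × ℤ), T = AddMonoidAlgebra.single (0, 1) 1 := ⟨_, rfl⟩
  have hXT : X * T = AddMonoidAlgebra.single (1, 1) 1 := by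
    rw [hX, hT, AddMonoidAlgebra.single_mul_single]
    simp
  have key : ∀ (u : ℕ) (v : ℤ) (n x : ℕ) (b : ℤ), φ (AddMonoidAlgebra.single (x, b) 1 *
      (1 - AddMonoidAlgebra.single (u, v) 1) ^ n) =
      ∑ j ∈ Finset.range (n + 1), (-1 : ℤ) ^ j * (n.choose j * Q (x + j * u) (b + j * v)) := by
    intro u v n x b
    have h3 : (1 - AddMonoidAlgebra.single (u, v) (1 : ℤ)) ^ n = ∑ j ∈ Finset.range (n + 1),
        AddMonoidAlgebra.single ((j * u, j * v) : ℕ × ℤ) ((-1 : ℤ) ^ j * n.choose j) := by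
      rw [sub_eq_neg_add, add_pow]
      refine Finset.sum_congr rfl fun j _ => ?_
      rw [one_pow, mul_one, neg_pow, AddMonoidAlgebra.single_pow, one_pow]
      have h4 : ((-1 : AddMonoidAlgebra ℤ (ℕ × ℤ)) ^ j) =
          AddMonoidAlgebra.single 0 ((-1 : ℤ) ^ j) := by
        rw [AddMonoidAlgebra.one_def, ← AddMonoidAlgebra.single_neg, AddMonoidAlgebra.single_pow,
          smul_zero]
      have h5 : ((n.choose j : ℕ) : AddMonoidAlgebra ℤ (ℕ × ℤ)) =
          AddMonoidAlgebra.single 0 ((n.choose j : ℕ) : ℤ) := rfl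
      rw [h4, h5, AddMonoidAlgebra.single_mul_single, AddMonoidAlgebra.single_mul_single]
      congr 1
      · ext
        · simp
        · simp
      · ring
    rw [h3, Finset.mul_sum, map_sum]
    refine Finset.sum_congr rfl fun j _ => ?_
    rw [AddMonoidAlgebra.single_mul_single, Prod.mk_add_mk, hφ]
    ring
  have hXI : (1 - X) ^ R ∈ I := hI _ fun x b => by
    rw [hX, key]
    simpa using h1 x b
  have hTI : (1 - X * T) ^ R' ∈ I := hI _ fun x b => by
    rw [hXT, key]
    simpa using h2 x b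
  obtain ⟨m, hm⟩ := rep_nilpotent I X T R R' hXI hTI
  refine rep_poly m (fun b => (Q 0 b : ℚ)) fun b => ?_
  have h3 := hm (AddMonoidAlgebra.single (0, b) 1)
  rw [hT, key] at h3
  have h4 := congrArg (fun z : ℤ => (z : ℚ)) h3
  push_cast at h4
  simpa using h4

end Pool.Agent.KM
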