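import Mathlib
import Pool.Agent.Lib.MP_732f67_ag.N.ReP

/-!
Part N: functions which satisfy difference equations are polynomials.
-/

namespace Pool.Agent.KM

/-- PROOF. If `P ≠ 0` then for all but finitely many `b` both `P b` and `P (-b)` are not zero, so
`0 ≤ P b ≤ h`; a polynomial which is bounded on infinitely many integers going to infinity
is constant. -/
theorem poly_const {P : Polynomial ℚ} (h0 : ∀ b : ℤ, 0 ≤ P.eval (b : ℚ)) {h : ℚ}
    (hb : ∀ b : ℤ, P.eval (b : ℚ) ≠ 0 → P.eval ((-b : ℤ) : ℚ) ≠ 0 → P.eval (b : ℚ) ≤ h) (b : ℤ) :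
    P.eval (b : ℚ) = P.eval 0 := by
  by_cases hdeg : 0 < P.degree
  · exfalso
    have h1 : Filter.Tendsto (fun n : ℕ => |P.eval (n : ℚ)|) Filter.atTop Filter.atTop :=
      (Polynomial.abs_tendsto_atTop P hdeg).comp tendsto_natCast_atTop_atTop
    have h2 : 0 < (P.comp (-Polynomial.X)).degree := by
      rw [← Polynomial.natDegree_pos_iff_degree_pos] at hdeg ⊢
      rw [Polynomial.natDegree_comp, Polynomial.natDegree_neg, Polynomial.natDegree_X, mul_one]
      exact hdeg
    have h3 : Filter.Tendsto (fun n : ℕ => |(P.comp (-Polynomial.X)).eval (n : ℚ)|) Filter.atTop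
        Filter.atTop :=
      (Polynomial.abs_tendsto_atTop _ h2).comp tendsto_natCast_atTop_atTop
    obtain ⟨n, hn1, hn2⟩ := ((h1.eventually_gt_atTop (|h|)).and (h3.eventually_gt_atTop 0)).exists
    have h4 : P.eval ((n : ℤ) : ℚ) ≠ 0 := by
      intro h5
      rw [Int.cast_natCast] at h5
      rw [h5, abs_zero] at hn1
      exact absurd hn1 (not_lt.2 (abs_nonneg h))
    have h5 : P.eval ((-(n : ℤ) : ℤ) : ℚ) ≠ 0 := by
      intro h6
      rw [Polynomial.eval_comp, Polynomial.eval_neg, Polynomial.eval_X] at hn2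
      push_cast at h6
      rw [h6, abs_zero] at hn2
      exact lt_irrefl _ hn2
    have h6 := hb n h4 h5
    have h7 := h0 n
    rw [Int.cast_natCast] at h6 h7
    rw [abs_of_nonneg h7] at hn1
    exact absurd (h6.trans (le_abs_self h)) (not_le.2 hn1)
  · rw [Polynomial.eq_C_of_degree_le_zero (not_lt.1 hdeg), Polynomial.eval_C, Polynomial.eval_C]

end Pool.Agent.KM
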