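import Pool.Agent.Lib.MP_732f67_ag.N.Pert
import Pool.Agent.Lib.MP_732f67_ag.N.KosC
import Pool.Agent.Lib.MP_732f67_ag.N.Rec
import Pool.Agent.Lib.MP_732f67_ag.N.SncB

/-!
Part N: the non-vanishing theorem for a numerically trivial divisor `D`.
-/

namespace Pool.Agent.KM

theorem gc_one {F : Type} [Field F] [Algebra ℂ F] {Y : Set (Subalgebra ℂ F)}
    {G : Subgroup (F ≃ₐ[ℂ] F)} : GC Y G 1 := by
  refine ⟨pol_car_one Y, fun O _ => ⟨1, one_ne_zero, fun γ _ => map_one γ, fun γ _ => ?_⟩⟩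
  have h1 : (((1 : Subalgebra ℂ F → Fˣ) (gm γ O) : Fˣ) : F) / 1 = 1 := by
    rw [Pi.one_apply, Units.val_one, div_one]
  rw [h1]
  exact Un.one _

theorem NaH_nf_zpow {F : Type} [Field F] [Algebra ℂ F] {Y : Set (Subalgebra ℂ F)}
    {D : Subalgebra ℂ F → Fˣ} (hN : Nf Y D) (hN' : Nf Y D⁻¹) (c : ℤ) : Nf Y (D ^ c) := by
  rcases le_total 0 c with hc | hc
  · have h1 : D ^ c = D ^ c.toNat := by
      rw [← zpow_natCast, Int.toNat_of_nonneg hc]
    rw [h1]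
    exact nf_pow hN _
  · have h1 : D ^ c = D⁻¹ ^ (-c).toNat := by
      rw [← zpow_natCast, Int.toNat_of_nonneg (by omega), inv_zpow, ← zpow_neg, neg_neg]
    rw [h1]
    exact nf_pow hN' _

theorem NaH_tau {J : Type} [Fintype J] (A p : J → ℚ) (hA : ∀ j, 0 < A j) (hp : ∀ j, 0 < p j)
    (m : ℕ) : ∃ τ : ℚ, 0 < τ ∧ m * τ ≤ 1 ∧ ∀ j, τ * p j < A j := by
  have hS : 0 ≤ ∑ j, p j / A j := Finset.sum_nonneg fun j _ => (div_pos (hp j) (hA j)).le
  have hm : (0 : ℚ) ≤ m := Nat.cast_nonneg m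
  have h0 : 0 < (m : ℚ) + ∑ j, p j / A j + 1 := by linarith
  refine ⟨1 / (m + ∑ j, p j / A j + 1), by positivity, ?_, fun j => ?_⟩
  · rw [mul_one_div, div_le_one h0]
    linarith
  · rw [one_div_mul_eq_div, div_lt_iff₀ h0]
    have h1 : p j / A j ≤ ∑ j, p j / A j :=
      Finset.single_le_sum (f := fun j => p j / A j) (fun j _ => (div_pos (hp j) (hA j)).le)
        (Finset.mem_univ j)
    have h2 : p j / A j < m + ∑ j, p j / A j + 1 := by linarith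
    rwa [div_lt_iff₀' (hA j)] at h2

namespace GMod

variable {F : Type} [Field F] [Algebra ℂ F] {Y : Set (Subalgebra ℂ F)} {d : ℕ}
  {G : Subgroup (F ≃ₐ[ℂ] F)} {Δ : Fin d → Derivation ℂ F F} {Φ : Finset F}
  {D ν H : Subalgebra ℂ F → Fˣ} {m a : ℕ} (M : GMod d Y G Δ Φ H)

/-- Vanishing on the model.

PROOF. `p`, `ε` as in `pert`; `τ > 0` rational with `m τ ≤ 1` and `τ p j < ad j` for all `j` (`ad_pos`);
`g j = ⌈ad j - τ p j⌉ - 1`. Fix `x` and `b`; `A = ![pb (H ^ x * D ^ b), pb ν, pb H]`. `pert` with `t = m τ` and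
`QK.smul` by `1 / m`: the class `![0, 0, 1 / m]`, `-τ p j` is ample. The class `![1, 1 / m, -1 / m]`, `0` is
nef (`QN` with `N = m`): `A 0 ^ m * A 1 / A 2 = pb (H ^ (x m) * D ^ (b m - a m))`, and `H`, `D`, `D⁻¹` are
nef (`nf_pb`, `nf_mul`, `nf_pow`). `QK.add_nef`, then `qa_of` with the exponent `1`, and `VX`. -/
theorem triv_hv (hV : VX) (hY : Base d Y G Δ) (hD : GC Y G D) (hN : Nf Y D) (hN' : Nf Y D⁻¹)
    (hν : GC Y G ν) (hm : 1 ≤ m) (hH : H = D ^ (a * m) * ν) (hA : Amp Y H) (hP : Pos Y Δ m ν)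
    (hΦ : ∀ O ∈ Y, ∃ t ∈ Φ, Un O ((ν O : F) / t)) :
    ∃ g : M.J → ℤ, (∀ j, 0 ≤ g j ∧ (g j : ℚ) < M.ad m ν j) ∧
      (∀ γ' ∈ M.G', ∀ j j', gm γ' (M.P j) = M.P j' → g j' = g j) ∧
      ∀ (x : ℕ) (b : ℤ), Hv M.Y' (pb M.i Y (H ^ x * D ^ b) * ∏ j, M.B j ^ g j) := by
  classical
  have hGC : GC Y G H := by
    rw [hH]
    exact gc_mul (gc_pow hD _) hν
  obtain ⟨p, hp, hpi, ε, hε, hpert⟩ := M.pert hY hGC hA
  have had : ∀ j, 0 < M.ad m ν j := M.ad_pos hY hP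
  obtain ⟨τ, hτ, hmτ, hτp⟩ := NaH_tau (M.ad m ν) p had hp m
  have hm0 : (0 : ℚ) < m := by exact_mod_cast hm
  have hY' : IsProj M.Y' := M.base.proj
  have hmor : Mor M.i Y M.Y' := M.mor hY.proj
  refine ⟨fun j => ⌈M.ad m ν j - τ * p j⌉ - 1, fun j => ⟨?_, ?_⟩, ?_, ?_⟩
  · have h1 : 0 < ⌈M.ad m ν j - τ * p j⌉ := Int.ceil_pos.2 (by linarith [hτp j])
    change 0 ≤ ⌈M.ad m ν j - τ * p j⌉ - 1
    omega
  · have h1 := Int.ceil_lt_add_one (M.ad m ν j - τ * p j)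
    have h2 : 0 < τ * p j := mul_pos hτ (hp j)
    push_cast
    linarith
  · intro γ' hγ j j' h
    change ⌈M.ad m ν j' - τ * p j'⌉ - 1 = ⌈M.ad m ν j - τ * p j⌉ - 1
    rw [hpi γ' hγ j j' h, M.ad_inv hY (gc_gi hν) hγ h]
  intro x b
  have hcH : IsCar Y H := hGC.1
  have hcE : IsCar Y (H ^ x * D ^ b) := car_mul (car_pow hcH x) (car_zpow hD.1 b)
  obtain ⟨A, hAdef⟩ : ∃ A : Fin 3 → Subalgebra ℂ M.F' → M.F'ˣ,
      A = ![pb M.i Y (H ^ x * D ^ b), pb M.i Y ν, pb M.i Y H] := ⟨_, rfl⟩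
  have hA0 : A 0 = pb M.i Y (H ^ x * D ^ b) := by rw [hAdef]; rfl
  have hA1 : A 1 = pb M.i Y ν := by rw [hAdef]; rfl
  have hA2 : A 2 = pb M.i Y H := by rw [hAdef]; rfl
  have hcar : ∀ k, IsCar M.Y' (fam A M.B k) := by
    rintro (k | j)
    · change IsCar M.Y' (A k)
      rw [hAdef]
      fin_cases k
      · exact car_pb hmor hcE
      · exact car_pb hmor hν.1
      · exact car_pb hmor hcH
    · exact M.snc.car j
  have h1 := hpert A hA2 p (fun j => by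
    rw [sub_self, abs_zero]
    exact hε.le) (m * τ) (mul_pos hm0 hτ) hmτ
  have h2 := QK.smul hY' h1 (t := 1 / m) (by positivity)
  have h3 : QN M.Y' (fam A M.B) (Sum.elim ![1, 1 / m, -1 / m] fun _ => 0) := by
    refine ⟨m, hm, Sum.elim ![(m : ℤ), 1, -1] fun _ => 0, ?_, ?_⟩
    · rintro (k | j)
      · fin_cases k
        · simp
        · simp only [Sum.elim_inl, Fin.mk_one, Matrix.cons_val_one, Matrix.cons_val_zero,
            Int.cast_one]
          rw [mul_one_div_cancel hm0.ne']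
        · simp only [Sum.elim_inl, Matrix.cons_val]
          push_cast
          field_simp
      · simp
    · have h4 : (∏ k, fam A M.B k ^ (Sum.elim ![(m : ℤ), 1, -1] fun _ => 0 : Fin 3 ⊕ M.J → ℤ) k) =
          pb M.i Y (H ^ (x * m) * D ^ (b * m - (a * m : ℕ))) := by
        rw [Fintype.prod_sum_type, Fin.prod_univ_three]
        simp only [Sum.elim_inl, Sum.elim_inr, zpow_zero, Finset.prod_const_one, mul_one, fam,
          Matrix.cons_val]
        rw [hA0, hA1, hA2, ← pb_zpow, ← pb_zpow, ← pb_zpow, ← pb_mul, ← pb_mul]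
        congr 1
        have h5 : ν = H * D ^ (-((a * m : ℕ) : ℤ)) := by
          rw [hH, zpow_neg, zpow_natCast]
          rw [mul_right_comm, mul_inv_cancel, one_mul]
        rw [h5, zpow_one, zpow_neg_one, zpow_natCast, mul_pow, ← pow_mul, ← zpow_natCast (D ^ b),
          ← zpow_mul, sub_eq_add_neg, zpow_add]
        rw [mul_comm H, ← mul_assoc, mul_inv_cancel_right, mul_assoc]
      rw [h4]
      refine nf_pb hmor (nf_mul (car_pow hcH _) ?_ (NaH_nf_zpow hN hN' _))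
      exact nf_pow (nf_of_sf hY.proj (amp_sf hA)) _
  have h4 := QK.add_nef hY' hcar h2 h3
  have h5 : (fun k => 1 / (m : ℚ) * (Sum.elim ![0, 0, 1] fun j => -(m * τ * p j) :
      Fin 3 ⊕ M.J → ℚ) k + (Sum.elim ![1, 1 / m, -1 / m] fun _ => 0 : Fin 3 ⊕ M.J → ℚ) k) =
      (Sum.elim ![1, 1 / m, 0] fun j => -(τ * p j) : Fin 3 ⊕ M.J → ℚ) := by
    funext k
    rcases k with k | j
    · fin_cases k
      · simp
      · simp
      · change 1 / (m : ℚ) * 1 + -1 / m = 0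
        field_simp
        norm_num
    · simp only [Sum.elim_inr]
      field_simp
      simp
  rw [h5] at h4
  have h6 : QA M.Y' M.B M.κ (pb M.i Y (H ^ x * D ^ b)) (fun j => M.ad m ν j - τ * p j) :=
    M.qa_of hY hm hν.1 hΦ hA1 (b := 1) (b' := 1) (by rw [zpow_one, hA0]) (by simp) h4
  exact hV d M.F' M.J M.Y' M.B M.Δ' M.κ M.snc _ _ (car_pb hmor hcE) h6

end GMod

variable {F : Type} [Field F] [Algebra ℂ F] {Y : Set (Subalgebra ℂ F)} {d : ℕ}
  {G : Subgroup (F ≃ₐ[ℂ] F)} {Δ : Fin d → Derivation ℂ F F} {D ν : Subalgebra ℂ F → Fˣ}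
  {m a : ℕ}

end Pool.Agent.KM
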