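import Pool.Agent.Lib.MP_732f67_ag.N.Pert
import Pool.Agent.Lib.MP_732f67_ag.N.KosC
import Pool.Agent.Lib.MP_732f67_ag.N.Rec
import Pool.Agent.Lib.MP_732f67_ag.N.SncB
import Pool.Agent.Lib.MP_732f67_ag.N.NaH

/-!
Part N: the non-vanishing theorem for a numerically trivial divisor `D`.
-/

namespace Pool.Agent.KM

namespace GMod

variable {F : Type} [Field F] [Algebra ℂ F] {Y : Set (Subalgebra ℂ F)} {d : ℕ}
  {G : Subgroup (F ≃ₐ[ℂ] F)} {Δ : Fin d → Derivation ℂ F F} {Φ : Finset F}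
  {D ν H : Subalgebra ℂ F → Fˣ} {m a : ℕ} (M : GMod d Y G Δ Φ H)

/-- The dimension of the space of invariant sections is a polynomial.

PROOF. `inv_sec_fin` for `D := 1` and for `D`: `x₀ ≥ 1` and invariant sections `y l`, `l : Fin R`, of
`H ^ x₀` and `y' l`, `l : Fin R'`, of `H ^ x₀ * D` without common zeros. Their images are invariant
sections of the pull backs (`sec_pb`). Let
`Q x b = finrank (SecG Y' G' (pb (H ^ (x₀ x) * D ^ b) * ∏ B j ^ g j))`. `koszul` with `E` = this divisor and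
`H₁ = pb (H ^ x₀)`, `pb (H ^ x₀ * D)`; `rec_poly`. (`gc_pb`, `gc_gi`, `bd_gi`, `car_pb`.) -/
theorem triv_poly (hY : Base d Y G Δ) (hD : GC Y G D) (hH : GC Y G H) (hA : Amp Y H)
    {g : M.J → ℤ} (hg : ∀ γ' ∈ M.G', ∀ j j', gm γ' (M.P j) = M.P j' → g j' = g j)
    (hv : ∀ (x : ℕ) (b : ℤ), Hv M.Y' (pb M.i Y (H ^ x * D ^ b) * ∏ j, M.B j ^ g j)) :
    ∃ P : Polynomial ℚ, ∀ b : ℤ, P.eval (b : ℚ) =
      Module.finrank ℂ (SecG M.Y' M.G' (pb M.i Y (D ^ b) * ∏ j, M.B j ^ g j)) := by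
  classical
  have hmor := M.mor hY.proj
  obtain ⟨x₁, hx₁⟩ := inv_sec_fin hY hH hA (gc_one (Y := Y) (G := G))
  obtain ⟨x₂, hx₂⟩ := inv_sec_fin hY hH hA hD
  obtain ⟨R, y, hy, hyc⟩ := hx₁ (max x₁ x₂) (le_max_left _ _)
  obtain ⟨R', y', hy', hyc'⟩ := hx₂ (max x₁ x₂) (le_max_right _ _)
  rw [mul_one] at hyc
  simp only [mul_one] at hy
  obtain ⟨x₀, hx₀⟩ : ∃ x₀, x₀ = max x₁ x₂ := ⟨_, rfl⟩
  rw [← hx₀] at hy hyc hy' hyc'
  -- the divisors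
  obtain ⟨T, hT⟩ : ∃ T : Subalgebra ℂ M.F' → M.F'ˣ, T = ∏ j, M.B j ^ g j := ⟨_, rfl⟩
  have hTc : IsCar M.Y' T := by
    rw [hT]
    exact car_prod _ fun j _ => car_zpow (M.snc.car j) (g j)
  have hTi : GI M.Y' M.G' T := by
    rw [hT]
    exact bd_gi M.bd M.snc.car M.base (fun γ' hγ' j => M.perm hY hH hγ' j) hg
  rw [← hT] at hv ⊢
  have hEc : ∀ (x : ℕ) (b : ℤ), IsCar M.Y' (pb M.i Y (H ^ x * D ^ b) * T) := fun x b =>
    car_mul (car_pb hmor (car_mul (car_pow hH.1 x) (car_zpow hD.1 b))) hTc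
  have hEi : ∀ (x : ℕ) (b : ℤ), GI M.Y' M.G' (pb M.i Y (H ^ x * D ^ b) * T) := fun x b =>
    gi_mul (gc_gi (gc_pb hmor hY.st M.grp (gc_mul (gc_pow hH x) (gc_zpow hD b)))) hTi
  -- the images of invariant sections
  have hinv : ∀ u : F, (∀ γ ∈ G, γ u = u) → ∀ γ' ∈ M.G', γ' (M.i u) = M.i u := by
    intro u hu γ' hγ'
    obtain ⟨γ, hγ, hγi⟩ := M.grp γ' hγ'
    rw [hγi, hu γ hγ]
  have hcov : ∀ (C : Subalgebra ℂ F → Fˣ) (r : ℕ) (s : Fin r → F),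
      (∀ O ∈ Y, ∃ l, Un O (s l * C O)) →
      ∀ O' ∈ M.Y', ∃ l, Un O' (M.i (s l) * (pb M.i Y C O' : M.F')) := by
    intro C r s hs O' hO'
    obtain ⟨h1, h2⟩ := cen_spec (hmor.dom O' hO')
    obtain ⟨l, hl⟩ := hs _ h1
    refine ⟨l, ?_⟩
    rw [pb_val, ← map_mul]
    exact h2.un hl
  have key1 : ∀ (x : ℕ) (b : ℤ) (j : ℕ), pb M.i Y (H ^ x * D ^ b) * T * pb M.i Y (H ^ x₀) ^ j =
      pb M.i Y (H ^ (x + x₀ * j) * D ^ b) * T := by
    intro x b j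
    rw [mul_right_comm, ← pb_pow, ← pb_mul, ← pow_mul]
    congr 2
    rw [pow_add]
    exact mul_right_comm _ _ _
  have key2 : ∀ (x : ℕ) (b : ℤ) (j : ℕ), pb M.i Y (H ^ x * D ^ b) * T *
      pb M.i Y (H ^ x₀ * D) ^ j = pb M.i Y (H ^ (x + x₀ * j) * D ^ (b + j)) * T := by
    intro x b j
    rw [mul_right_comm, ← pb_pow, ← pb_mul, mul_pow, ← pow_mul]
    congr 2
    rw [pow_add, zpow_add, zpow_natCast]
    exact mul_mul_mul_comm _ _ _ _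
  have hk1 := fun (x : ℕ) (b : ℤ) => koszul M.base (hEc (x₀ * x) b)
    (H₁ := pb M.i Y (H ^ x₀)) (car_pb hmor (car_pow hH.1 x₀)) (hEi (x₀ * x) b)
    (gc_gi (gc_pb hmor hY.st M.grp (gc_pow hH x₀))) (y := fun l => M.i (y l))
    (fun l => ⟨sec_pb hmor (hy l).1, fun h => (hy l).2.1 ((map_eq_zero M.i).1 h),
      hinv _ (hy l).2.2⟩) (hcov _ R y hyc) (fun j _ => by
        rw [key1]
        exact hv _ _)
  have hk2 := fun (x : ℕ) (b : ℤ) => koszul M.base (hEc (x₀ * x) b)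
    (H₁ := pb M.i Y (H ^ x₀ * D)) (car_pb hmor (car_mul (car_pow hH.1 x₀) hD.1))
    (hEi (x₀ * x) b) (gc_gi (gc_pb hmor hY.st M.grp (gc_mul (gc_pow hH x₀) hD)))
    (y := fun l => M.i (y' l))
    (fun l => ⟨sec_pb hmor (hy' l).1, fun h => (hy' l).2.1 ((map_eq_zero M.i).1 h),
      hinv _ (hy' l).2.2⟩) (hcov _ R' y' hyc') (fun j _ => by
        rw [key2]
        exact hv _ _)
  obtain ⟨f, hf⟩ : ∃ f : (Subalgebra ℂ M.F' → M.F'ˣ) → ℕ,
      ∀ C, f C = Module.finrank ℂ (SecG M.Y' M.G' C) := ⟨_, fun _ => rfl⟩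
  simp only [← hf] at hk1 hk2 ⊢
  obtain ⟨P, hP⟩ := rec_poly (Q := fun x b => (f (pb M.i Y (H ^ (x₀ * x) * D ^ b) * T) : ℤ))
    (R := R) (R' := R')
    (fun x b => by
      have h1 := hk1 x b
      simp only [key1] at h1
      simpa only [mul_add] using h1)
    (fun x b => by
      have h1 := hk2 x b
      simp only [key2] at h1
      simpa only [mul_add] using h1)
  refine ⟨P, fun b => ?_⟩
  rw [hP b]
  simp only [mul_zero, pow_zero, one_mul, Int.cast_natCast]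

end GMod

variable {F : Type} [Field F] [Algebra ℂ F] {Y : Set (Subalgebra ℂ F)} {d : ℕ}
  {G : Subgroup (F ≃ₐ[ℂ] F)} {Δ : Fin d → Derivation ℂ F F} {D ν : Subalgebra ℂ F → Fˣ}
  {m a : ℕ}

end Pool.Agent.KM
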