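import Pool.Agent.Lib.MP_732f67_ag.N.Pert
import Pool.Agent.Lib.MP_732f67_ag.N.KosC
import Pool.Agent.Lib.MP_732f67_ag.N.Rec
import Pool.Agent.Lib.MP_732f67_ag.N.SncB
import Pool.Agent.Lib.MP_732f67_ag.N.NaH
import Pool.Agent.Lib.MP_732f67_ag.N.NaP
import Pool.Agent.Lib.MP_732f67_ag.N.AmpF

/-!
Part N: the non-vanishing theorem for a numerically trivial divisor `D`.
-/

namespace Pool.Agent.KM

theorem naS_mul {F : Type} [Field F] [Algebra ℂ F] {Y : Set (Subalgebra ℂ F)}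
    {G : Subgroup (F ≃ₐ[ℂ] F)} {D E : Subalgebra ℂ F → Fˣ} {f g : F} (hf : f ∈ SecG Y G D)
    (hg : g ∈ SecG Y G E) : f * g ∈ SecG Y G (D * E) := by
  refine ⟨fun O hO => ?_, fun γ hγ => by rw [map_mul, hf.2 γ hγ, hg.2 γ hγ]⟩
  have h1 := O.mul_mem (hf.1 O hO) (hg.1 O hO)
  have h2 : f * g * ((D * E) O : Fˣ) = f * (D O : F) * (g * (E O : F)) := by
    rw [Pi.mul_apply, Units.val_mul]
    ring
  rw [h2]
  exact h1

theorem naS_fin {F : Type} [Field F] [Algebra ℂ F] {Y : Set (Subalgebra ℂ F)}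
    {G : Subgroup (F ≃ₐ[ℂ] F)} {D : Subalgebra ℂ F → Fˣ} (hY : IsProj Y) (hD : IsCar Y D) :
    Module.Finite ℂ (SecG Y G D) := by
  have h1 : Module.Finite ℂ (Sec Y D) := fin_sec hY hD
  exact Submodule.finiteDimensional_of_le (S₁ := SecG Y G D) (S₂ := Sec Y D) fun f hf => hf.1

namespace GMod

variable {F : Type} [Field F] [Algebra ℂ F] {Y : Set (Subalgebra ℂ F)} {d : ℕ}
  {G : Subgroup (F ≃ₐ[ℂ] F)} {Δ : Fin d → Derivation ℂ F F} {Φ : Finset F}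
  {D ν H : Subalgebra ℂ F → Fˣ} {m a : ℕ} (M : GMod d Y G Δ Φ H)

/-- PROOF. `poly_const`: if `s ≠ 0` is an invariant section for `-b` then multiplication by `s` embeds
the space for `b` into the invariant sections of `∏ B j ^ (2 g j)`; the constant `1` is a section
for `b = 0` (`bd_le`). -/
theorem triv_sec (hY : Base d Y G Δ) (hD : GC Y G D) (hH : GC Y G H) (hA : Amp Y H)
    {g : M.J → ℤ} (hg0 : ∀ j, 0 ≤ g j)
    (hg : ∀ γ' ∈ M.G', ∀ j j', gm γ' (M.P j) = M.P j' → g j' = g j)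
    (hv : ∀ (x : ℕ) (b : ℤ), Hv M.Y' (pb M.i Y (H ^ x * D ^ b) * ∏ j, M.B j ^ g j)) (b : ℤ) :
    ∃ f : M.F', f ≠ 0 ∧ f ∈ SecG M.Y' M.G' (pb M.i Y (D ^ b) * ∏ j, M.B j ^ g j) := by
  classical
  obtain ⟨P, hP⟩ := M.triv_poly hY hD hH hA hg hv
  obtain ⟨E, hE⟩ : ∃ E, E = ∏ j, M.B j ^ g j := ⟨_, rfl⟩
  rw [← hE] at hP ⊢
  have hEc : IsCar M.Y' E := by
    rw [hE]
    exact car_prod _ fun j _ => car_zpow (M.snc.car j) (g j)
  have hmor := M.mor hY.proj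
  have hDc : ∀ b : ℤ, IsCar M.Y' (pb M.i Y (D ^ b) * E) := fun b =>
    car_mul (car_pb hmor (car_zpow hD.1 b)) hEc
  have hfin : ∀ b : ℤ, Module.Finite ℂ (SecG M.Y' M.G' (pb M.i Y (D ^ b) * E)) := fun b =>
    naS_fin M.base.proj (hDc b)
  have hfinW : Module.Finite ℂ (SecG M.Y' M.G' (E * E)) :=
    naS_fin M.base.proj (car_mul hEc hEc)
  -- the constant section
  have hone : (1 : M.F') ∈ SecG M.Y' M.G' (pb M.i Y (D ^ (0 : ℤ)) * E) := by
    refine ⟨fun O hO => ?_, fun γ _ => map_one γ⟩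
    rw [zpow_zero, pb_one, one_mul, one_mul, hE, Finset.prod_apply, Units.coe_prod]
    refine O.prod_mem fun j _ => ?_
    obtain ⟨k, hk⟩ := Int.eq_ofNat_of_zero_le (hg0 j)
    rw [Pi.pow_apply, hk, zpow_natCast, Units.val_pow_eq_pow_val]
    exact O.pow_mem (bd_le M.bd M.snc hO j).2 k
  have hpos : ∀ b : ℤ, (∃ f : M.F', f ≠ 0 ∧ f ∈ SecG M.Y' M.G' (pb M.i Y (D ^ b) * E)) ↔
      P.eval (b : ℚ) ≠ 0 := by
    intro b
    rw [hP b, Nat.cast_ne_zero]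
    constructor
    · rintro ⟨f, hf0, hf⟩ h0
      have h1 := (Submodule.finrank_eq_zero (S := SecG M.Y' M.G' (pb M.i Y (D ^ b) * E))).1 h0
      rw [h1, Submodule.mem_bot] at hf
      exact hf0 hf
    · intro h0
      have h1 : SecG M.Y' M.G' (pb M.i Y (D ^ b) * E) ≠ ⊥ := fun h =>
        h0 ((Submodule.finrank_eq_zero (S := SecG M.Y' M.G' (pb M.i Y (D ^ b) * E))).2 h)
      obtain ⟨f, hf, hf0⟩ := (Submodule.ne_bot_iff _).1 h1
      exact ⟨f, hf0, hf⟩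
  have hconst := poly_const (P := P) (fun b => by
    rw [hP b]
    exact Nat.cast_nonneg _) (h := (Module.finrank ℂ (SecG M.Y' M.G' (E * E)) : ℚ)) (fun b _ hb => by
    obtain ⟨s, hs0, hs⟩ := (hpos (-b)).2 hb
    rw [hP b, Nat.cast_le]
    have hEE : pb M.i Y (D ^ (-b)) * E * (pb M.i Y (D ^ b) * E) = E * E := by
      rw [mul_mul_mul_comm, ← pb_mul, ← zpow_add, neg_add_cancel, zpow_zero, pb_one, one_mul]
    let φ : SecG M.Y' M.G' (pb M.i Y (D ^ b) * E) →ₗ[ℂ] SecG M.Y' M.G' (E * E) :=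
      { toFun := fun f => ⟨s * f.1, by
          have h1 := naS_mul hs f.2
          rwa [hEE] at h1⟩
        map_add' := fun f f' => Subtype.ext (mul_add s f.1 f'.1)
        map_smul' := fun c f => Subtype.ext (mul_smul_comm c s f.1) }
    refine LinearMap.finrank_le_finrank_of_injective (f := φ) ?_
    intro f f' hff
    have h1 : s * f.1 = s * f'.1 := congrArg Subtype.val hff
    exact Subtype.ext (mul_left_cancel₀ hs0 h1)) b
  refine (hpos b).2 ?_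
  rw [hconst]
  have h0 := (hpos 0).1 ⟨1, one_ne_zero, hone⟩
  rwa [Int.cast_zero] at h0

end GMod

variable {F : Type} [Field F] [Algebra ℂ F] {Y : Set (Subalgebra ℂ F)} {d : ℕ}
  {G : Subgroup (F ≃ₐ[ℂ] F)} {Δ : Fin d → Derivation ℂ F F} {D ν : Subalgebra ℂ F → Fˣ}
  {m a : ℕ}

end Pool.Agent.KM
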