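import Pool.Agent.Lib.MP_732f67_ag.N.Pert
import Pool.Agent.Lib.MP_732f67_ag.N.KosC
import Pool.Agent.Lib.MP_732f67_ag.N.Rec
import Pool.Agent.Lib.MP_732f67_ag.N.SncB
import Pool.Agent.Lib.MP_732f67_ag.N.NaH
import Pool.Agent.Lib.MP_732f67_ag.N.NaP
import Pool.Agent.Lib.MP_732f67_ag.N.NaS

/-!
Part N: the non-vanishing theorem for a numerically trivial divisor `D`.
-/

namespace Pool.Agent.KM

namespace GMod

variable {F : Type} [Field F] [Algebra ℂ F] {Y : Set (Subalgebra ℂ F)} {d : ℕ}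
  {G : Subgroup (F ≃ₐ[ℂ] F)} {Δ : Fin d → Derivation ℂ F F} {Φ : Finset F}
  {D ν H : Subalgebra ℂ F → Fˣ} {m a : ℕ} (M : GMod d Y G Δ Φ H)

end GMod

variable {F : Type} [Field F] [Algebra ℂ F] {Y : Set (Subalgebra ℂ F)} {d : ℕ}
  {G : Subgroup (F ≃ₐ[ℂ] F)} {Δ : Fin d → Derivation ℂ F F} {D ν : Subalgebra ℂ F → Fˣ}
  {m a : ℕ}

/-- PROOF. A model for `H = D ^ (a m) * ν` and `Φ` = local equations of `ν` (`car_fin`); `triv_hv`,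
`triv_sec`, `exists_inv`, `ls_of`. -/
theorem nv_triv (hR : RX d) (hV : VX) (hY : Base d Y G Δ) (hD : GC Y G D) (hN : Nf Y D)
    (hN' : Nf Y D⁻¹) (hν : GC Y G ν) (hm : 1 ≤ m) (hA : Amp Y (D ^ (a * m) * ν))
    (hP : Pos Y Δ m ν) (b : ℕ) :
    ∃ f : F, f ≠ 0 ∧ (∀ γ ∈ G, γ f = f) ∧ LS Y Δ m ν (D ^ b) f := by
  obtain ⟨T, hT0, hT⟩ := car_fin hY.proj hν.1
  have hH : GC Y G (D ^ (a * m) * ν) := gc_mul (gc_pow hD _) hν
  obtain ⟨M⟩ := hR F Y G Δ T (D ^ (a * m) * ν) hY hT0 hH hA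
  obtain ⟨g, hg0, hg, hv⟩ := M.triv_hv hV hY hD hN hN' hν hm rfl hA hP hT
  obtain ⟨f', hf0, hf'⟩ := M.triv_sec hY hD hH hA (fun j => (hg0 j).1) hg hv (b : ℤ)
  obtain ⟨f, hf1, rfl⟩ := M.exists_inv hf'.2
  have hf2 : f ≠ 0 := by
    rintro rfl
    exact hf0 (map_zero _)
  refine ⟨f, hf2, hf1, ?_⟩
  refine M.ls_of hY hm hν.1 hT (gc_pow hD b).1 hf2 (fun j => (hg0 j).2) ?_
  have h1 := hf'.1
  rwa [zpow_natCast] at h1

end Pool.Agent.KM
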