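import Pool.Agent.Lib.MP_732f67_ag.N.Mdl
import Pool.Agent.Lib.MP_732f67_ag.N.NefB
import Pool.Agent.Lib.MP_732f67_ag.N.PeK
import Pool.Agent.Lib.MP_732f67_ag.N.PeP

/-!
Part N: ample classes on the Galois model.
-/

namespace Pool.Agent.KM

variable {F : Type} [Field F] [Algebra ℂ F] {Y : Set (Subalgebra ℂ F)}

/-- the identity of the classes, in a commutative group -/
theorem PeQ_id {A J : Type*} [CommGroup A] [Fintype J] (a n κ : A) (B : J → A) (r e : J → ℤ)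
    (b e₁ : ℤ) (m N : ℕ) (h : e₁ * m = N) :
    (a ^ ((N : ℤ) * b) * n ^ e₁ * ∏ j, B j ^ r j) /
        ((a ^ b) ^ N * (∏ j, B j ^ (e₁ * e j + r j)) / κ ^ N) =
      (n * κ ^ m / ∏ j, B j ^ e j) ^ e₁ := by
  have h1 : ∏ j, B j ^ (e₁ * e j + r j) = (∏ j, B j ^ e j) ^ e₁ * ∏ j, B j ^ r j := by
    rw [← Finset.prod_zpow, ← Finset.prod_mul_distrib]
    refine Finset.prod_congr rfl fun j _ => ?_
    rw [zpow_add, mul_comm e₁, zpow_mul]
  have h2 : (a ^ b) ^ N = a ^ ((N : ℤ) * b) := by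
    rw [← zpow_natCast, ← zpow_mul, mul_comm]
  have h3 : κ ^ N = (κ ^ m) ^ e₁ := by
    rw [← zpow_natCast, ← h, mul_comm e₁, zpow_mul, zpow_natCast]
  rw [h1, h2, h3, div_zpow, mul_zpow, div_div_eq_mul_div, div_eq_div_iff_mul_eq_mul]
  generalize a ^ ((N : ℤ) * b) = x
  generalize n ^ e₁ = y
  generalize (κ ^ m) ^ e₁ = z
  generalize (∏ j, B j ^ e j) ^ e₁ = w
  generalize ∏ j, B j ^ r j = t
  simp only [mul_comm, mul_left_comm]

namespace GMod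

variable {d : ℕ} {G : Subgroup (F ≃ₐ[ℂ] F)} {Δ : Fin d → Derivation ℂ F F} {Φ : Finset F}
  {H : Subalgebra ℂ F → Fˣ} (M : GMod d Y G Δ Φ H)

variable {m : ℕ} {ν : Subalgebra ℂ F → Fˣ}

/-- `E + ∑ (ad j - x j - 1) B j - K` is `E + f^* ν / m - ∑ x j B j` (`ad_exp`) -/
theorem qa_of (hY : Base d Y G Δ) (hm : 1 ≤ m) (hν : IsCar Y ν)
    (hΦ : ∀ O ∈ Y, ∃ t ∈ Φ, Un O ((ν O : F) / t)) {A : Fin 3 → Subalgebra ℂ M.F' → M.F'ˣ}
    (hA1 : A 1 = pb M.i Y ν) {x : M.J → ℚ} {b : ℤ} {b' : ℚ} {E : Subalgebra ℂ M.F' → M.F'ˣ}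
    (hE : E = A 0 ^ b) (hb : b' = b)
    (h : QK M.Y' (fam A M.B) (Sum.elim ![b', 1 / m, 0] fun j => -x j)) :
    QA M.Y' M.B M.κ E (fun j => M.ad m ν j - x j) := by
  obtain ⟨N, hN, e, he, ha⟩ := h
  obtain ⟨e'', he'', hu⟩ := M.ad_exp hY hm hν hΦ
  have hm0 : (m : ℚ) ≠ 0 := by
    have : m ≠ 0 := by omega
    exact_mod_cast this
  have h0 : (e (Sum.inl 0) : ℚ) = N * b' := he (Sum.inl 0)
  have h1 : (e (Sum.inl 1) : ℚ) = N * (1 / m) := he (Sum.inl 1)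
  have h2 : (e (Sum.inl 2) : ℚ) = N * 0 := he (Sum.inl 2)
  have hj : ∀ j, (e (Sum.inr j) : ℚ) = N * (-x j) := fun j => he (Sum.inr j)
  have e0 : e (Sum.inl 0) = N * b := by
    rw [hb] at h0
    exact_mod_cast h0
  have e1' : (e (Sum.inl 1) : ℚ) * m = N := by
    rw [h1, mul_assoc, one_div_mul_cancel hm0, mul_one]
  have e1 : e (Sum.inl 1) * (m : ℤ) = N := by exact_mod_cast e1'
  have e2 : e (Sum.inl 2) = 0 := by
    rw [mul_zero] at h2
    exact_mod_cast h2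
  refine ⟨N, hN, fun j => e (Sum.inl 1) * e'' j + e (Sum.inr j), fun j => ?_,
    amp_congr ha fun O' hO' => ?_⟩
  · push_cast
    rw [he'' j, hj j]
    linear_combination (M.ad m ν j - 1) * e1'
  · have h3 := (hu O' hO').zpow (e (Sum.inl 1))
    have h4 := PeQ_id (A 0 O') (pb M.i Y ν O') (M.κ O') (fun j => M.B j O')
      (fun j => e (Sum.inr j)) e'' b (e (Sum.inl 1)) m N e1
    have h5 : (∏ k, fam A M.B k ^ e k) O' = A 0 O' ^ ((N : ℤ) * b) *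
        pb M.i Y ν O' ^ e (Sum.inl 1) * ∏ j, M.B j O' ^ e (Sum.inr j) := by
      rw [Finset.prod_apply, Fintype.prod_sum_type, Fin.prod_univ_three]
      simp only [fam, Sum.elim_inl, Sum.elim_inr, Pi.pow_apply, e0, e2, zpow_zero, mul_one, hA1]
    have h6 : (E ^ N * (∏ j, M.B j ^ (e (Sum.inl 1) * e'' j + e (Sum.inr j))) / M.κ ^ N) O' =
        (A 0 O' ^ b) ^ N * (∏ j, M.B j O' ^ (e (Sum.inl 1) * e'' j + e (Sum.inr j))) /
          M.κ O' ^ N := by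
      rw [hE, Pi.div_apply, Pi.mul_apply, Finset.prod_apply]
      rfl
    have h7 := congrArg (fun y : M.F'ˣ => (y : M.F')) h4
    rw [h5, h6, ← Units.val_div_eq_div_val]
    rw [h7]
    push_cast
    exact h3

end GMod

end Pool.Agent.KM
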