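import Pool.Agent.Lib.MP_732f67_ag.N.NefA
import Pool.Agent.Lib.MP_732f67_ag.N.OrdA

/-!
Part N: the prime divisor `P₀` of `Y` as a projective variety `rsY` with function field `K`, the
residue field of `P₀`; restriction of divisors and sections.
-/

namespace Pool.Agent.KM

variable {F : Type} [Field F] [Algebra ℂ F] {Y : Set (Subalgebra ℂ F)} {P₀ : Subalgebra ℂ F}
  {K : Type} [Field K] [Algebra ℂ K]

/-- the local ring of `P₀` at the point `O ≤ P₀` of `Y` -/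
def rs (ρ : P₀ →ₐ[ℂ] K) (O : Subalgebra ℂ F) : Subalgebra ℂ K := (O.comap P₀.val).map ρ

/-- the variety `P₀` -/
def rsY (ρ : P₀ →ₐ[ℂ] K) (Y : Set (Subalgebra ℂ F)) : Set (Subalgebra ℂ K) :=
  {Q | ∃ O ∈ Y, O ≤ P₀ ∧ Q = rs ρ O}

/-- the divisor `D₀` on `P₀` is the restriction of `D` (a divisor which does not contain `P₀`) -/
def RD (ρ : P₀ →ₐ[ℂ] K) (Y : Set (Subalgebra ℂ F)) (D : Subalgebra ℂ F → Fˣ)
    (D₀ : Subalgebra ℂ K → Kˣ) : Prop :=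
  Un P₀ (D P₀) ∧ ∀ O ∈ Y, O ≤ P₀ → ∀ x : P₀, (x : F) = D O →
    Un (rs ρ O) ((D₀ (rs ρ O) : K) / ρ x)

variable {ρ : P₀ →ₐ[ℂ] K} {D E : Subalgebra ℂ F → Fˣ} {D₀ E₀ : Subalgebra ℂ K → Kˣ}
  {O O₁ : Subalgebra ℂ F}

theorem mem_rs {y : K} : y ∈ rs ρ O ↔ ∃ x : P₀, (x : F) ∈ O ∧ ρ x = y := by
  rw [rs, Subalgebra.mem_map]
  rfl

/-- `ρ x` is a unit for `x ∈ O ≤ P₀` iff `x` is a unit of `O`

PROOF. `→`: `ρ x * ρ y = 1`, `y ∈ O`, `x y - 1 ∈ O` is in the kernel of `ρ`, the maximal ideal of `P₀`, so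
it is not a unit of the local ring `O`, and `x y` is a unit of `O`. -/
theorem un_rs (hY : IsProj Y) (hP : IsLocalRing P₀) (hρ : ∀ x : P₀, ρ x = 0 ↔ ¬ Un P₀ (x : F))
    (hO : O ∈ Y) (hle : O ≤ P₀) {x : P₀} (hx : (x : F) ∈ O) : Un (rs ρ O) (ρ x) ↔ Un O (x : F) := by
  have hl : IsLocalRing O := hY.isLocalRing hO
  constructor
  · rintro ⟨h1, -, h3⟩
    obtain ⟨y, hy, hxy⟩ := mem_rs.1 h3
    have h4 : ρ (1 - x * y) = 0 := by
      rw [map_sub, map_one, map_mul, hxy, mul_inv_cancel₀ h1, sub_self]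
    rw [hρ] at h4
    have hz : (x : F) * y ∈ O := O.mul_mem hx hy
    rcases IsLocalRing.isUnit_or_isUnit_one_sub_self (⟨(x : F) * y, hz⟩ : O) with h5 | h5
    · obtain ⟨h6, h7⟩ := (pt_isUnit_iff _).1 h5
      have hx0 : (x : F) ≠ 0 := left_ne_zero_of_mul h6
      have hy0 : (y : F) ≠ 0 := right_ne_zero_of_mul h6
      refine ⟨hx0, hx, ?_⟩
      have h8 : (x : F)⁻¹ = y * ((x : F) * y)⁻¹ := by
        rw [mul_inv_rev, ← mul_assoc, mul_inv_cancel₀ hy0, one_mul]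
      rw [h8]
      exact O.mul_mem hy h7
    · exfalso
      obtain ⟨h6, h7⟩ := (pt_isUnit_iff _).1 h5
      apply h4
      have h9 : ((1 - x * y : P₀) : F) = ((1 - ⟨(x : F) * y, hz⟩ : O) : F) := by
        push_cast
        rfl
      rw [h9]
      exact Un.mono hle ⟨h6, (1 - ⟨(x : F) * y, hz⟩ : O).2, h7⟩
  · intro h
    have h1 : ρ x ≠ 0 := by
      intro h2
      rw [hρ] at h2
      exact h2 (h.mono hle)
    refine ⟨h1, mem_rs.2 ⟨x, hx, rfl⟩, mem_rs.2 ⟨⟨(x : F)⁻¹, hle h.2.2⟩, h.2.2, ?_⟩⟩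
    refine eq_inv_of_mul_eq_one_left ?_
    rw [← map_mul, ← map_one ρ]
    congr 1
    exact Subtype.ext (inv_mul_cancel₀ h.1)

/-- different points of `Y` on `P₀` have different local rings

PROOF. `Y = Pts V`; `v, v' ∈ V` with `cht V v ≤ O`, `cht V v' ≤ O₁`. Suppose `rs ρ O = rs ρ O₁`. `v' / v ∈ O`,
`v / v' ∈ O₁`, and `v`, `v'` are both generators at `P₀`, so `ρ (v' / v) ∈ rs ρ O` and its inverse
`ρ (v / v') ∈ rs ρ O₁ = rs ρ O`: a unit, so `v' / v` is a unit of `O` (`un_rs`). Both points are local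
rings of `cht V v` at primes with the same image in `K` of their complements. -/
theorem rs_inj (hY : IsProj Y) (hP₀ : P₀ ∈ Y) (hρ : ∀ x : P₀, ρ x = 0 ↔ ¬ Un P₀ (x : F))
    (hO : O ∈ Y) (hle : O ≤ P₀) (hO₁ : O₁ ∈ Y) (hle₁ : O₁ ≤ P₀) (h : rs ρ O = rs ρ O₁) :
    O = O₁ := by
  have hP : IsLocalRing P₀ := hY.isLocalRing hP₀
  have hO' := hO
  have hO₁' := hO₁
  have hYp := hY
  obtain ⟨V, -, -, -, hV⟩ := hYp
  rw [hV] at hO' hO₁'
  obtain ⟨v, hv, hv0, hl⟩ := hO'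
  obtain ⟨v', hv', hv0', hl'⟩ := hO₁'
  -- one half of the argument
  have key : ∀ {O O₁ : Subalgebra ℂ F} {v v' : F}, O ∈ Y → O ≤ P₀ → O₁ ∈ Y → O₁ ≤ P₀ →
      rs ρ O = rs ρ O₁ → v ∈ V → v ≠ 0 → v' ∈ V → v' ≠ 0 → LocAt (cht V v) O →
      LocAt (cht V v') O₁ → O ≤ O₁ := by
    intro O O₁ v v' hO hle hO₁ hle₁ h hv hv0 hv' hv0' hl hl'
    have h1 : v' / v ∈ O := hl.le (Algebra.subset_adjoin ⟨v', hv', rfl⟩)
    have h2 : v / v' ∈ O₁ := hl'.le (Algebra.subset_adjoin ⟨v, hv, rfl⟩)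
    have hne : ρ ⟨v / v', hle₁ h2⟩ ≠ 0 := by
      rw [Ne, hρ, not_not]
      refine ⟨div_ne_zero hv0 hv0', hle₁ h2, ?_⟩
      rw [inv_div]
      exact hle h1
    have h3 : Un (rs ρ O₁) (ρ ⟨v / v', hle₁ h2⟩) := by
      refine ⟨hne, mem_rs.2 ⟨_, h2, rfl⟩, ?_⟩
      rw [← h]
      refine mem_rs.2 ⟨⟨v' / v, hle h1⟩, h1, eq_inv_of_mul_eq_one_left ?_⟩
      rw [← map_mul, ← map_one ρ]
      congr 1
      apply Subtype.ext
      change v' / v * (v / v') = 1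
      rw [div_mul_div_comm, mul_comm v' v, div_self (mul_ne_zero hv0 hv0')]
    have h4 : Un O₁ (v / v') := (un_rs hY hP hρ hO₁ hle₁ (x := ⟨v / v', hle₁ h2⟩) h2).1 h3
    have h5 : cht V v ≤ O₁ := by
      apply Algebra.adjoin_le
      rintro _ ⟨w, hw, rfl⟩
      have h6 : w / v' ∈ O₁ := hl'.le (Algebra.subset_adjoin ⟨w, hw, rfl⟩)
      have h7 : w / v = w / v' * (v / v')⁻¹ := by
        rw [inv_div, div_mul_div_comm, mul_comm w v', mul_div_mul_left _ _ hv0']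
      rw [h7]
      exact O₁.mul_mem h6 h4.2.2
    intro x hx
    obtain ⟨-, -, h8⟩ := pt_locAt_iff.1 hl
    obtain ⟨a, ha, b, hb, hb0, hbO, rfl⟩ := h8 x hx
    have hb1 : Un O b := ⟨hb0, hl.le hb, hbO⟩
    have hb2 : Un (rs ρ O) (ρ ⟨b, hle (hl.le hb)⟩) :=
      (un_rs hY hP hρ hO hle (x := ⟨b, hle (hl.le hb)⟩) (hl.le hb)).2 hb1
    rw [h] at hb2
    have hb3 : Un O₁ b := (un_rs hY hP hρ hO₁ hle₁ (x := ⟨b, hle (hl.le hb)⟩) (h5 hb)).1 hb2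
    rw [div_eq_mul_inv]
    exact O₁.mul_mem (h5 ha) hb3.2.2
  exact le_antisymm (key hO hle hO₁ hle₁ h hv hv0 hv' hv0' hl hl')
    (key hO₁ hle₁ hO hle h.symm hv' hv0' hv hv0 hl' hl)

end Pool.Agent.KM
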