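import Pool.Agent.Lib.MP_732f67_ag.N.NefA
import Pool.Agent.Lib.MP_732f67_ag.N.OrdA
import Pool.Agent.Lib.MP_732f67_ag.N.RaE

/-!
Part N: the prime divisor `P₀` of `Y` as a projective variety `rsY` with function field `K`, the
residue field of `P₀`; restriction of divisors and sections.
-/

namespace Pool.Agent.KM

variable {F : Type} [Field F] [Algebra ℂ F] {Y : Set (Subalgebra ℂ F)} {P₀ : Subalgebra ℂ F}
  {K : Type} [Field K] [Algebra ℂ K]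

variable {ρ : P₀ →ₐ[ℂ] K} {D E : Subalgebra ℂ F → Fˣ} {D₀ E₀ : Subalgebra ℂ K → Kˣ}
  {O O₁ : Subalgebra ℂ F}

/-- the restriction of the linear system `V` to `P₀` -/
noncomputable def RaP_T (ρ : P₀ →ₐ[ℂ] K) (V : Submodule ℂ F) (v₀ : F) (h : cht V v₀ ≤ P₀) :
    V →ₗ[ℂ] K :=
  ρ.toLinearMap ∘ₗ
    { toFun := fun w => (⟨(w : F) / v₀, h (ptc_div_mem w.2)⟩ : P₀)
      map_add' := fun _ _ => Subtype.ext (add_div _ _ _)
      map_smul' := fun _ _ => Subtype.ext (smul_div_assoc _ _ _) }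

theorem RaP_T_apply {V : Submodule ℂ F} {v₀ : F} (h : cht V v₀ ≤ P₀) (w : V) :
    RaP_T ρ V v₀ h w = ρ (⟨(w : F) / v₀, h (ptc_div_mem w.2)⟩ : P₀) := rfl

theorem RaP_T_mul {V : Submodule ℂ F} {v₀ : F} (h : cht V v₀ ≤ P₀) {v : V} (hv0 : (v : F) ≠ 0)
    (hv : cht V (v : F) ≤ P₀) (w : V) :
    ρ (⟨(w : F) / v, hv (ptc_div_mem w.2)⟩ : P₀) * RaP_T ρ V v₀ h v = RaP_T ρ V v₀ h w := by
  rw [RaP_T_apply, RaP_T_apply, ← map_mul]
  congr 1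
  refine Subtype.ext ?_
  change (w : F) / v * (v / v₀) = w / v₀
  rw [div_mul_div_cancel₀ hv0]

theorem RaP_rs_mono {A : Subalgebra ℂ F} (h : A ≤ O) : rs ρ A ≤ rs ρ O := by
  intro y hy
  rw [mem_rs] at hy ⊢
  obtain ⟨x, hx, rfl⟩ := hy
  exact ⟨x, h hx, rfl⟩

/-- the charts of the restriction -/
theorem RaP_cht {V : Submodule ℂ F} {v₀ : F} (h : cht V v₀ ≤ P₀) {v : V} (hv0 : (v : F) ≠ 0)
    (hv : cht V (v : F) ≤ P₀) (hT : RaP_T ρ V v₀ h v ≠ 0) :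
    cht (LinearMap.range (RaP_T ρ V v₀ h)) (RaP_T ρ V v₀ h v) = rs ρ (cht V (v : F)) := by
  apply le_antisymm
  · refine Algebra.adjoin_le ?_
    rintro _ ⟨_, ⟨w, rfl⟩, rfl⟩
    change _ ∈ rs ρ (cht V (v : F))
    rw [mem_rs]
    exact ⟨⟨(w : F) / v, hv (ptc_div_mem w.2)⟩, ptc_div_mem w.2,
      (eq_div_iff hT).2 (RaP_T_mul h hv0 hv w)⟩
  · intro y hy
    rw [mem_rs] at hy
    obtain ⟨x, hx, rfl⟩ := hy
    have h1 : cht V (v : F) ≤ ((cht (LinearMap.range (RaP_T ρ V v₀ h))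
        (RaP_T ρ V v₀ h v)).comap ρ).map P₀.val := by
      refine Algebra.adjoin_le ?_
      rintro _ ⟨w, hw, rfl⟩
      refine ⟨⟨w / v, hv (ptc_div_mem hw)⟩, ?_, rfl⟩
      change ρ _ ∈ cht (LinearMap.range (RaP_T ρ V v₀ h)) (RaP_T ρ V v₀ h v)
      rw [(eq_div_iff hT).2 (RaP_T_mul h hv0 hv ⟨w, hw⟩)]
      exact ptc_div_mem ⟨_, rfl⟩
    obtain ⟨x', hx', hxx⟩ := h1 hx
    have h2 : x' = x := Subtype.ext hxx
    rw [← h2]
    exact hx'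

/-- PROOF. `Y = Pts V`, `v₀ ∈ V` a generator at `P₀` (`cht V v₀ ≤ P₀`), `V₀ = ρ (V / v₀)`:
`rsY = Pts V₀`. -/
theorem rs_proj (hY : IsProj Y) (hP₀ : P₀ ∈ Y) (hs : Function.Surjective ρ)
    (hρ : ∀ x : P₀, ρ x = 0 ↔ ¬ Un P₀ (x : F)) : IsProj (rsY ρ Y) := by
  obtain ⟨V, hVf, hV0, hfrac, rfl⟩ := hY
  have hP₀' := hP₀
  obtain ⟨v₀, hv₀, hv₀0, hl₀⟩ := hP₀'
  have h := hl₀.le
  have hun : ∀ x : P₀, ρ x ≠ 0 → Un P₀ (x : F) := fun x hx => by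
    by_contra h1
    exact hx ((hρ x).2 h1)
  have hun' : ∀ x : P₀, Un P₀ (x : F) → ρ x ≠ 0 := fun x hx h1 => (hρ x).1 h1 hx
  -- charts of `V₀`
  have hch : ∀ v : V, RaP_T ρ V v₀ h v ≠ 0 → (v : F) ≠ 0 ∧ cht V (v : F) ≤ P₀ := by
    intro v hv
    have h1 := hun _ hv
    change Un P₀ ((v : F) / v₀) at h1
    have hv0 : (v : F) ≠ 0 := fun h2 => h1.1 (by rw [h2, zero_div])
    refine ⟨hv0, Algebra.adjoin_le ?_⟩
    rintro _ ⟨w, hw, rfl⟩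
    change w / (v : F) ∈ P₀
    have h2 := P₀.mul_mem (h (ptc_div_mem hw)) h1.2.2
    rw [inv_div, div_mul_div_cancel₀ hv₀0] at h2
    exact h2
  have hch' : ∀ v : V, (v : F) ≠ 0 → cht V (v : F) ≤ P₀ → RaP_T ρ V v₀ h v ≠ 0 := by
    intro v hv0 hv
    refine hun' _ ⟨div_ne_zero hv0 hv₀0, h (ptc_div_mem v.2), ?_⟩
    change ((v : F) / v₀)⁻¹ ∈ P₀
    rw [inv_div]
    exact hv (ptc_div_mem hv₀)
  have hinv : ∀ b : P₀, ∀ hb : (b : F)⁻¹ ∈ P₀, (b : F) ≠ 0 → ρ ⟨(b : F)⁻¹, hb⟩ = (ρ b)⁻¹ := by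
    intro b hb hb0
    refine eq_inv_of_mul_eq_one_left ?_
    rw [← map_mul]
    have h1 : (⟨(b : F)⁻¹, hb⟩ : P₀) * b = 1 := Subtype.ext (inv_mul_cancel₀ hb0)
    rw [h1, map_one]
  refine ⟨LinearMap.range (RaP_T ρ V v₀ h), inferInstance, ?_, ?_, ?_⟩
  · intro h1
    have h2 : RaP_T ρ V v₀ h ⟨v₀, hv₀⟩ ∈ LinearMap.range (RaP_T ρ V v₀ h) := ⟨_, rfl⟩
    rw [h1, Submodule.mem_bot] at h2
    exact hch' ⟨v₀, hv₀⟩ hv₀0 h h2
  · rintro _ ⟨v, rfl⟩ hu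
    obtain ⟨hv0, hv⟩ := hch v hu
    rw [RaP_cht h hv0 hv hu]
    intro y
    obtain ⟨x, rfl⟩ := hs y
    obtain ⟨-, -, h3⟩ := pt_locAt_iff.1 (Pts.locAt hP₀ v.2 hv0 hv)
    obtain ⟨a, ha, b, hb, hb0, hbP, hx⟩ := h3 x x.2
    have hb' : ρ ⟨b, hv hb⟩ ≠ 0 := hun' _ ⟨hb0, hv hb, hbP⟩
    refine ⟨⟨ρ ⟨a, hv ha⟩, mem_rs.2 ⟨_, ha, rfl⟩⟩, ⟨ρ ⟨b, hv hb⟩, mem_rs.2 ⟨_, hb, rfl⟩⟩, hb', ?_⟩
    change ρ x = ρ ⟨a, hv ha⟩ / ρ ⟨b, hv hb⟩
    rw [eq_div_iff hb', ← map_mul]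
    congr 1
    refine Subtype.ext ?_
    change (x : F) * b = a
    rw [hx, div_mul_cancel₀ _ hb0]
  · ext Q
    constructor
    · rintro ⟨O, ⟨v', hv, hv0, hl⟩, hle, rfl⟩
      obtain ⟨v, rfl⟩ : ∃ v : V, (v : F) = v' := ⟨⟨v', hv⟩, rfl⟩
      have hvP : cht V (v : F) ≤ P₀ := hl.le.trans hle
      have hu := hch' v hv0 hvP
      refine ⟨RaP_T ρ V v₀ h v, ⟨_, rfl⟩, hu, ?_⟩
      rw [RaP_cht h hv0 hvP hu]
      rw [pt_locAt_iff] at hl ⊢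
      obtain ⟨h1, h2, h3⟩ := hl
      refine ⟨RaP_rs_mono h1, ?_, ?_⟩
      · let g : O →+* rs ρ O :=
          { toFun := fun x => ⟨ρ ⟨x, hle x.2⟩, mem_rs.2 ⟨_, x.2, rfl⟩⟩
            map_one' := Subtype.ext (map_one ρ)
            map_mul' := fun x y => Subtype.ext (map_mul ρ ⟨x, hle x.2⟩ ⟨y, hle y.2⟩)
            map_zero' := Subtype.ext (map_zero ρ)
            map_add' := fun x y => Subtype.ext (map_add ρ ⟨x, hle x.2⟩ ⟨y, hle y.2⟩) }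
        refine IsLocalRing.of_surjective' g ?_
        rintro ⟨y, hy⟩
        obtain ⟨x, hx, hxy⟩ := mem_rs.1 hy
        exact ⟨⟨x, hx⟩, Subtype.ext hxy⟩
      · intro y hy
        obtain ⟨x, hx, rfl⟩ := mem_rs.1 hy
        obtain ⟨a, ha, b, hb, hb0, hbO, hxab⟩ := h3 x hx
        have hbP : (b : F)⁻¹ ∈ P₀ := hle hbO
        have hb' : ρ ⟨b, hvP hb⟩ ≠ 0 := hun' _ ⟨hb0, hvP hb, hbP⟩
        refine ⟨ρ ⟨a, hvP ha⟩, mem_rs.2 ⟨_, ha, rfl⟩, ρ ⟨b, hvP hb⟩, mem_rs.2 ⟨_, hb, rfl⟩, hb',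
          ?_, ?_⟩
        · rw [← hinv ⟨b, hvP hb⟩ hbP hb0]
          exact mem_rs.2 ⟨_, hbO, rfl⟩
        · rw [eq_div_iff hb', ← map_mul]
          congr 1
          refine Subtype.ext ?_
          change (x : F) * b = a
          rw [hxab, div_mul_cancel₀ _ hb0]
    · rintro ⟨_, ⟨v, rfl⟩, hu, hl⟩
      obtain ⟨hv0, hv⟩ := hch v hu
      rw [RaP_cht h hv0 hv hu] at hl
      let R : Subalgebra ℂ F := (Q.comap ρ).map P₀.val
      have hRP : R ≤ P₀ := by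
        rintro _ ⟨x, _, rfl⟩
        exact x.2
      have hmem : ∀ x : P₀, (x : F) ∈ R ↔ ρ x ∈ Q := by
        intro x
        constructor
        · rintro ⟨x', hx', hxx⟩
          have h2 : x' = x := Subtype.ext hxx
          rw [← h2]
          exact hx'
        · intro hx
          exact ⟨x, hx, rfl⟩
      have hRu : ∀ x : R, ρ ⟨x, hRP x.2⟩ ≠ 0 → (ρ ⟨x, hRP x.2⟩)⁻¹ ∈ Q → IsUnit x := by
        intro x hx0 hxQ
        have h1 := hun _ hx0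
        rw [pt_isUnit_iff]
        refine ⟨h1.1, (hmem ⟨(x : F)⁻¹, h1.2.2⟩).2 ?_⟩
        rw [hinv ⟨x, hRP x.2⟩ h1.2.2 h1.1]
        exact hxQ
      have hQ := hl.isLocalRing
      have hRloc : IsLocalRing R := by
        refine IsLocalRing.of_isUnit_or_isUnit_one_sub_self fun x => ?_
        have hxQ : ρ ⟨x, hRP x.2⟩ ∈ Q := (hmem ⟨x, hRP x.2⟩).1 x.2
        rcases IsLocalRing.isUnit_or_isUnit_one_sub_self (⟨_, hxQ⟩ : Q) with h1 | h1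
        · left
          rw [pt_isUnit_iff] at h1
          exact hRu x h1.1 h1.2
        · right
          rw [pt_isUnit_iff] at h1
          have h2 : ρ ⟨((1 - x : R) : F), hRP (1 - x : R).2⟩ = 1 - ρ ⟨x, hRP x.2⟩ := by
            rw [← map_one ρ, ← map_sub]
            rfl
          refine hRu (1 - x) ?_ ?_
          · rw [h2]
            exact h1.1
          · rw [h2]
            exact h1.2
      have hvR : cht V (v : F) ≤ R := by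
        intro x hx
        exact (hmem ⟨x, hv hx⟩).2 (hl.le (mem_rs.2 ⟨⟨x, hv hx⟩, hx, rfl⟩))
      refine ⟨locOf (cht V (v : F)) R hvR, ⟨v, v.2, hv0, locAt_locOf hvR hRloc⟩,
        (dom_locOf hvR).1.trans hRP, ?_⟩
      ext y
      constructor
      · intro hy
        obtain ⟨-, -, h3⟩ := pt_locAt_iff.1 hl
        obtain ⟨a', ha', b', hb', hb0', hbQ, rfl⟩ := h3 y hy
        obtain ⟨a, ha, rfl⟩ := mem_rs.1 ha'
        obtain ⟨b, hb, rfl⟩ := mem_rs.1 hb'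
        have hbu := hun b hb0'
        have hbR : (b : F)⁻¹ ∈ R := by
          refine (hmem ⟨(b : F)⁻¹, hbu.2.2⟩).2 ?_
          rw [hinv b hbu.2.2 hbu.1]
          exact hbQ
        refine mem_rs.2 ⟨a * ⟨(b : F)⁻¹, hbu.2.2⟩, ⟨a, ha, b, hb, hbu.1, hbR, ?_⟩, ?_⟩
        · change (a : F) * (b : F)⁻¹ = a / b
          rw [div_eq_mul_inv]
        · rw [map_mul, hinv b hbu.2.2 hbu.1, div_eq_mul_inv]
      · intro hy
        obtain ⟨x, hx, rfl⟩ := mem_rs.1 hy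
        exact (hmem x).1 ((dom_locOf hvR).1 hx)

end Pool.Agent.KM
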