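import Pool.Agent.Lib.MP_732f67_ag.N.NefA
import Pool.Agent.Lib.MP_732f67_ag.N.OrdA
import Pool.Agent.Lib.MP_732f67_ag.N.PrR
import Pool.Agent.Lib.MP_732f67_ag.N.RaE
import Pool.Agent.Lib.MP_732f67_ag.N.RaP
import Pool.Agent.Lib.MP_732f67_ag.G.OrdB

/-!
Part N: the prime divisor `P₀` of `Y` as a projective variety `rsY` with function field `K`, the
residue field of `P₀`; restriction of divisors and sections.
-/

namespace Pool.Agent.KM

variable {F : Type} [Field F] [Algebra ℂ F] {Y : Set (Subalgebra ℂ F)} {P₀ : Subalgebra ℂ F}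
  {K : Type} [Field K] [Algebra ℂ K]

variable {ρ : P₀ →ₐ[ℂ] K} {D E : Subalgebra ℂ F → Fˣ} {D₀ E₀ : Subalgebra ℂ K → Kˣ}
  {O O₁ : Subalgebra ℂ F}

/-- the local ring `P₀` itself gives the generic point -/
theorem rs_trdeg {n : ℕ} (hd : Algebra.trdeg ℂ F = (n + 1 : ℕ)) (hp : PrimDiv P₀)
    (hs : Function.Surjective ρ) (hρ : ∀ x : P₀, ρ x = 0 ↔ ¬ Un P₀ (x : F)) :
    Algebra.trdeg ℂ K = n := by
  apply le_antisymm
  · by_contra hcon
    push Not at hcon
    have h1 : ((n + 1 : ℕ) : Cardinal) ≤ Algebra.trdeg ℂ K := by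
      have h2 := Order.succ_le_of_lt hcon
      rw [Cardinal.succ_natCast] at h2
      exact_mod_cast h2
    obtain ⟨s, hsb⟩ := exists_isTranscendenceBasis ℂ K
    rw [← hsb.cardinalMk_eq_trdeg, ← Cardinal.mk_fin, Cardinal.le_def] at h1
    obtain ⟨e⟩ := h1
    have hy : AlgebraicIndependent ℂ (fun i => (e i : K)) := hsb.1.comp e e.injective
    choose x hx using fun i => hs (e i : K)
    have := hp.1
    obtain ⟨π, hπ⟩ := IsDiscreteValuationRing.exists_irreducible P₀
    have hπ0 : ρ π = 0 := by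
      rw [hρ]
      intro h
      exact hπ.not_isUnit (IsUnit.of_mul_eq_one (⟨(π : F)⁻¹, h.2.2⟩ : P₀) (Subtype.ext
        (mul_inv_cancel₀ h.1)))
    have h2 := ordB_step (k := ℂ) x (⊥ : Ideal P₀) (RingHom.ker ρ) bot_le (by
      intro Q hQ h
      apply hQ
      rw [RingHom.mem_ker] at h
      have h3 : ρ (MvPolynomial.aeval x Q) = MvPolynomial.aeval (fun i => (e i : K)) Q := by
        have h4 := MvPolynomial.comp_aeval_apply (f := x) ρ Q
        rw [h4]
        simp only [hx]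
      rw [h3] at h
      exact hy.eq_zero_of_aeval_eq_zero Q h) π hπ0 (by
      rw [Ideal.mem_bot]
      exact hπ.ne_zero)
    have h3 := ordB_trdeg hd _ h2
    omega
  · obtain ⟨t, ht⟩ := exists_ri hd hp
    have h1 : AlgebraicIndependent ℂ (fun l => ρ ⟨t l, ht.mem l⟩) := by
      rw [algebraicIndependent_iff]
      intro Q hQ
      by_contra hQ0
      have h2 : ρ (MvPolynomial.aeval (fun l => (⟨t l, ht.mem l⟩ : P₀)) Q) =
          MvPolynomial.aeval (fun l => ρ ⟨t l, ht.mem l⟩) Q := by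
        rw [← MvPolynomial.comp_aeval_apply]
      rw [← h2, hρ] at hQ
      apply hQ
      have h3 : ((MvPolynomial.aeval (fun l => (⟨t l, ht.mem l⟩ : P₀)) Q : P₀) : F) =
          MvPolynomial.aeval t Q :=
        (MvPolynomial.aeval_algebraMap_apply F (fun l => (⟨t l, ht.mem l⟩ : P₀)) Q).symm
      rw [h3]
      exact ht Q hQ0
    have h2 := h1.lift_cardinalMk_le_trdeg
    rw [Cardinal.mk_fin, Cardinal.lift_natCast] at h2
    simpa using h2

end Pool.Agent.KM
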