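import Pool.Agent.Lib.MP_732f67_ag.N.NefA
import Pool.Agent.Lib.MP_732f67_ag.N.OrdA
import Pool.Agent.Lib.MP_732f67_ag.N.RaE
import Pool.Agent.Lib.MP_732f67_ag.N.RaP
import Pool.Agent.Lib.MP_732f67_ag.N.RaT

/-!
Part N: the prime divisor `P₀` of `Y` as a projective variety `rsY` with function field `K`, the
residue field of `P₀`; restriction of divisors and sections.
-/

namespace Pool.Agent.KM

variable {F : Type} [Field F] [Algebra ℂ F] {Y : Set (Subalgebra ℂ F)} {P₀ : Subalgebra ℂ F}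
  {K : Type} [Field K] [Algebra ℂ K]

variable {ρ : P₀ →ₐ[ℂ] K} {D E : Subalgebra ℂ F → Fˣ} {D₀ E₀ : Subalgebra ℂ K → Kˣ}
  {O O₁ : Subalgebra ℂ F}

private theorem rad_key (hP₀ : P₀ ∈ Y) (hD : IsCar Y D) (hu : Un P₀ (D P₀ : F)) (hO : O ∈ Y)
    (hle : O ≤ P₀) : Un P₀ (D O : F) := by
  obtain ⟨S, hS, h⟩ := hD O hO
  have h1 := h P₀ hP₀ fun s hs => hle (hS s hs)
  have h2 := h1.mul hu
  rwa [← Units.val_mul, div_mul_cancel] at h2

private theorem rad_local (hY : IsProj Y) (hP₀ : P₀ ∈ Y) : IsLocalRing P₀ := by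
  obtain ⟨V, -, -, -, rfl⟩ := hY
  obtain ⟨v, -, -, hl⟩ := hP₀
  exact hl.isLocalRing

private theorem rad_alg {d d' x x' t : K} (hx : x ≠ 0) (hx' : x' ≠ 0) (h : t * x' = x) :
    d / x * t / (d' / x') = d / d' := by
  subst h
  have ht : t ≠ 0 := left_ne_zero_of_mul hx
  field_simp

/-- an element of `O'` whose image has an inverse in the local ring of `P₀` at `O'` -/
private theorem rad_unit (hY : IsProj Y) (hP₀ : P₀ ∈ Y)
    (hρ : ∀ x : P₀, ρ x = 0 ↔ ¬ Un P₀ (x : F)) (hO : O ∈ Y) (hle : O ≤ P₀) {x y : P₀}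
    (hx : (x : F) ∈ O) (hy : ρ y ∈ rs ρ O) (hxy : x * y = 1) : (y : F) ∈ O := by
  have h1 : ρ x * ρ y = 1 := by rw [← map_mul, hxy, map_one]
  have h2 : Un (rs ρ O) (ρ x) := by
    refine ⟨left_ne_zero_of_mul_eq_one h1, mem_rs.2 ⟨x, hx, rfl⟩, ?_⟩
    rwa [inv_eq_of_mul_eq_one_right h1]
  have h3 := (un_rs hY (rad_local hY hP₀) hρ hO hle hx).1 h2
  have h4 : (x : F) * y = 1 := congrArg Subtype.val hxy
  rw [← inv_eq_of_mul_eq_one_right h4]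
  exact h3.2.2

private theorem rad_inv (hk : ∀ O ∈ Y, O ≤ P₀ → Un P₀ (D O : F)) (h : RD ρ Y D D₀) :
    RD ρ Y D⁻¹ D₀⁻¹ := by
  refine ⟨?_, fun O hO hle x hx => ?_⟩
  · change Un P₀ (((D P₀)⁻¹ : Fˣ) : F)
    rw [Units.val_inv_eq_inv_val]
    exact h.1.inv
  · have h1 := hk O hO hle
    have h3 := (h.2 O hO hle ⟨_, h1.2.1⟩ rfl).inv
    have h4 : x * ⟨_, h1.2.1⟩ = 1 := by
      refine Subtype.ext ?_
      change (x : F) * (D O : F) = 1
      rw [hx]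
      exact (D O).inv_mul
    have h5 : ρ x * ρ ⟨_, h1.2.1⟩ = 1 := by rw [← map_mul, h4, map_one]
    have h6 : (((D₀⁻¹ : Subalgebra ℂ K → Kˣ) (rs ρ O) : Kˣ) : K) / ρ x =
        ((D₀ (rs ρ O) : K) / ρ ⟨_, h1.2.1⟩)⁻¹ := by
      rw [inv_div, ← inv_eq_of_mul_eq_one_right h5, Pi.inv_apply, Units.val_inv_eq_inv_val,
        div_eq_mul_inv, div_eq_mul_inv, mul_comm]
    rw [h6]
    exact h3

/-- the restriction of a Cartier divisor -/
theorem exists_rd (hY : IsProj Y) (hP₀ : P₀ ∈ Y) (hs : Function.Surjective ρ)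
    (hρ : ∀ x : P₀, ρ x = 0 ↔ ¬ Un P₀ (x : F)) (hD : IsCar Y D) (hu : Un P₀ (D P₀)) :
    ∃ D₀ : Subalgebra ℂ K → Kˣ, RD ρ Y D D₀ := by
  classical
  have hk : ∀ O ∈ Y, O ≤ P₀ → Un P₀ (D O : F) := fun O hO hle => rad_key hP₀ hD hu hO hle
  have hex : ∀ Q : Subalgebra ℂ K, ∃ u : Kˣ, ∀ O ∈ Y, O ≤ P₀ → Q = rs ρ O → ∀ x : P₀,
      (x : F) = D O → (u : K) = ρ x := by
    intro Q
    by_cases h : ∃ O ∈ Y, O ≤ P₀ ∧ Q = rs ρ O
    · obtain ⟨O, hO, hle, hQ⟩ := h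
      have h1 := hk O hO hle
      have h2 : ρ ⟨D O, h1.2.1⟩ ≠ 0 := by
        rw [Ne, hρ, not_not]
        exact h1
      refine ⟨Units.mk0 _ h2, fun O' hO' hle' hQ' x hx => ?_⟩
      have h3 : O = O' := rs_inj hY hP₀ hρ hO hle hO' hle' (hQ.symm.trans hQ')
      subst h3
      rw [Units.val_mk0]
      congr 1
      exact Subtype.ext hx.symm
    · exact ⟨1, fun O hO hle hQ => (h ⟨O, hO, hle, hQ⟩).elim⟩
  choose D₀ h using hex
  refine ⟨D₀, hu, fun O hO hle x hx => ?_⟩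
  have h1 := h (rs ρ O) O hO hle rfl x hx
  rw [h1, div_self (by rw [← h1]; exact (D₀ _).ne_zero)]
  exact Un.one _

theorem car_rd (hY : IsProj Y) (hP₀ : P₀ ∈ Y) (hs : Function.Surjective ρ)
    (hρ : ∀ x : P₀, ρ x = 0 ↔ ¬ Un P₀ (x : F)) (hD : IsCar Y D) (h : RD ρ Y D D₀) :
    IsCar (rsY ρ Y) D₀ := by
  classical
  obtain ⟨hu, h⟩ := h
  have hY' := hY
  obtain ⟨V, hV, -, -, rfl⟩ := hY'
  rintro Q ⟨O, hO, hle, rfl⟩
  obtain ⟨v, hv, hv0, hl⟩ := id hO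
  obtain ⟨S, hS, hSD⟩ := hD O hO
  obtain ⟨T, hT⟩ := Module.Finite.iff_fg.1 hV
  have hTV : ∀ w ∈ T, w ∈ V := fun w hw => hT ▸ Submodule.subset_span hw
  have hfr : ∀ s : F, ∃ b : F, s ∈ O → b ∈ cht V v ∧ b ≠ 0 ∧ b⁻¹ ∈ O ∧ s * b ∈ cht V v := by
    intro s
    by_cases hs' : s ∈ O
    · obtain ⟨P, hP, hPi⟩ := id hl
      obtain ⟨a, b, hb, hab⟩ := (hPi s).1 hs'
      have hb0 : (b : F) ≠ 0 := by
        intro h0
        have h1 : b = 0 := Subtype.ext h0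
        rw [h1] at hb
        exact hb P.zero_mem
      refine ⟨b, fun _ => ⟨b.2, hb0, (hPi _).2 ⟨1, b, hb, ?_⟩, ?_⟩⟩
      · rw [OneMemClass.coe_one, one_div]
      · rw [hab, div_mul_cancel₀ _ hb0]
        exact a.2
    · exact ⟨0, fun h => (hs' h).elim⟩
  choose b hb using hfr
  obtain ⟨g, hg⟩ : ∃ g : F → K, ∀ x (hx : x ∈ P₀), g x = ρ ⟨x, hx⟩ :=
    ⟨fun x => if hx : x ∈ P₀ then ρ ⟨x, hx⟩ else 0, fun x hx => dif_pos hx⟩
  have hx := rad_key hP₀ hD hu hO hle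
  have hux := h O hO hle ⟨_, hx.2.1⟩ rfl
  set u : K := (D₀ (rs ρ O) : K) / ρ ⟨_, hx.2.1⟩ with hudef
  refine ⟨T.image (fun w => g (w / v)) ∪ S.image (fun s => g (b s)⁻¹) ∪ {u, u⁻¹}, ?_, ?_⟩
  · intro s hs'
    rw [Finset.mem_union, Finset.mem_union, Finset.mem_image, Finset.mem_image, Finset.mem_insert,
      Finset.mem_singleton] at hs'
    rcases hs' with (⟨w, hw, rfl⟩ | ⟨s, hs', rfl⟩) | rfl | rfl
    · have h1 : w / v ∈ O := hl.le (ptc_div_mem (hTV w hw))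
      exact mem_rs.2 ⟨⟨_, hle h1⟩, h1, (hg _ _).symm⟩
    · have h1 := (hb s (hS s hs')).2.2.1
      exact mem_rs.2 ⟨⟨_, hle h1⟩, h1, (hg _ _).symm⟩
    · exact hux.2.1
    · exact hux.2.2
  · rintro Q' ⟨O', hO', hle', rfl⟩ hS'
    have hT' : ∀ w ∈ T, g (w / v) ∈ rs ρ O' := fun w hw => hS' _ (Finset.mem_union_left _
      (Finset.mem_union_left _ (Finset.mem_image_of_mem _ hw)))
    have hb' : ∀ s ∈ S, g (b s)⁻¹ ∈ rs ρ O' := fun s hs => hS' _ (Finset.mem_union_left _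
      (Finset.mem_union_right _ (Finset.mem_image_of_mem (fun s => g (b s)⁻¹) hs)))
    have hu1 : u ∈ rs ρ O' := hS' _ (Finset.mem_union_right _ (Finset.mem_insert_self _ _))
    have hu2 : u⁻¹ ∈ rs ρ O' := hS' _ (Finset.mem_union_right _
      (Finset.mem_insert_of_mem (Finset.mem_singleton_self _)))
    obtain ⟨v', hv', hv0', hl'⟩ := id hO'
    have hchP : cht V v ≤ P₀ := hl.le.trans hle
    -- the chart maps to the local ring of `P₀` at `O'`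
    have hch : cht V v ≤ ((rs ρ O').comap ρ).map P₀.val := by
      have h1 : cht V v = Algebra.adjoin ℂ ((fun w => w / v) '' (T : Set F)) := by
        rw [← ptc_cht_span, hT]
      rw [h1]
      refine Algebra.adjoin_le ?_
      rintro _ ⟨w, hw, rfl⟩
      have h2 : w / v ∈ P₀ := hchP (ptc_div_mem (hTV w hw))
      refine ⟨⟨w / v, h2⟩, ?_, rfl⟩
      have h3 := hT' w hw
      rw [hg _ h2] at h3
      exact h3
    have h1 : v / v' ∈ O' := hl'.le (ptc_div_mem hv)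
    have h2 : v' / v ∈ O' := by
      obtain ⟨z, hz, hz'⟩ := hch (ptc_div_mem hv')
      have hz1 : (z : F) = v' / v := hz'
      rw [← hz1]
      refine rad_unit hY hP₀ hρ hO' hle' (x := ⟨v / v', hle' h1⟩) h1 hz (Subtype.ext ?_)
      change v / v' * (z : F) = 1
      rw [hz1]
      field_simp
    have h3 : cht V v ≤ O' := by
      refine Algebra.adjoin_le ?_
      rintro x ⟨w, hw, rfl⟩
      have h5 : w / v = w / v' * (v' / v) := by
        field_simp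
      change w / v ∈ O'
      rw [h5]
      exact O'.mul_mem (hl'.le (ptc_div_mem hw)) h2
    have h4 : ∀ s ∈ S, s ∈ O' := by
      intro s hs
      obtain ⟨hb1, hb2, hb3, hb4⟩ := hb s (hS s hs)
      have h5 : (b s)⁻¹ ∈ P₀ := hle hb3
      have h6 : (b s)⁻¹ ∈ O' := by
        refine rad_unit hY hP₀ hρ hO' hle' (x := ⟨b s, hle' (h3 hb1)⟩) (y := ⟨(b s)⁻¹, h5⟩) (h3 hb1)
          ?_ (Subtype.ext (mul_inv_cancel₀ hb2))
        have := hb' s hs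
        rwa [hg _ h5] at this
      have h7 : s = s * b s * (b s)⁻¹ := by
        rw [mul_assoc, mul_inv_cancel₀ hb2, mul_one]
      rw [h7]
      exact O'.mul_mem (h3 hb4) h6
    have h5 := hSD O' hO' h4
    have hx' := rad_key hP₀ hD hu hO' hle'
    have h6 := h O' hO' hle' ⟨_, hx'.2.1⟩ rfl
    have h7 : ((D O / D O' : Fˣ) : F) ∈ P₀ := hle' h5.2.1
    have h8 : Un (rs ρ O') (ρ ⟨((D O / D O' : Fˣ) : F), h7⟩) :=
      (un_rs hY (rad_local hY hP₀) hρ hO' hle' h5.2.1).2 h5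
    have h9 : ρ ⟨((D O / D O' : Fˣ) : F), h7⟩ * ρ ⟨_, hx'.2.1⟩ = ρ ⟨_, hx.2.1⟩ := by
      rw [← map_mul]
      congr 1
      refine Subtype.ext ?_
      change ((D O / D O' : Fˣ) : F) * (D O' : F) = D O
      rw [← Units.val_mul, div_mul_cancel]
    have h10 : ρ ⟨_, hx.2.1⟩ ≠ 0 := by
      rw [Ne, hρ, not_not]
      exact hx
    have h11 : ρ ⟨_, hx'.2.1⟩ ≠ 0 := by
      rw [Ne, hρ, not_not]
      exact hx'
    have h12 : u ≠ 0 := hux.1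
    have h13 : Un (rs ρ O') u := ⟨h12, hu1, hu2⟩
    have h14 := (h13.mul h8).div h6
    have h15 : u * ρ ⟨((D O / D O' : Fˣ) : F), h7⟩ / ((D₀ (rs ρ O') : K) / ρ ⟨_, hx'.2.1⟩) =
        ((D₀ (rs ρ O) / D₀ (rs ρ O') : Kˣ) : K) := by
      rw [Units.val_div_eq_div_val (D₀ (rs ρ O)), hudef]
      exact rad_alg h10 h11 h9
    rwa [h15] at h14

theorem rd_mul (hP₀ : P₀ ∈ Y) (hD : IsCar Y D) (hE : IsCar Y E) (h : RD ρ Y D D₀) (h' : RD ρ Y E E₀) :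
    RD ρ Y (D * E) (D₀ * E₀) := by
  refine ⟨?_, fun O hO hle x hx => ?_⟩
  · change Un P₀ ((D P₀ * E P₀ : Fˣ) : F)
    rw [Units.val_mul]
    exact h.1.mul h'.1
  · have h1 := rad_key hP₀ hD h.1 hO hle
    have h2 := rad_key hP₀ hE h'.1 hO hle
    have h3 := (h.2 O hO hle ⟨_, h1.2.1⟩ rfl).mul (h'.2 O hO hle ⟨_, h2.2.1⟩ rfl)
    have h4 : x = ⟨_, h1.2.1⟩ * ⟨_, h2.2.1⟩ := Subtype.ext hx
    rw [div_mul_div_comm, ← map_mul, ← h4] at h3
    exact h3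

theorem rd_inv (hP₀ : P₀ ∈ Y) (hD : IsCar Y D) (h : RD ρ Y D D₀) : RD ρ Y D⁻¹ D₀⁻¹ := by
  exact rad_inv (fun O hO hle => rad_key hP₀ hD h.1 hO hle) h

theorem rd_pow (hP₀ : P₀ ∈ Y) (hD : IsCar Y D) (h : RD ρ Y D D₀) (m : ℕ) :
    RD ρ Y (D ^ m) (D₀ ^ m) := by
  refine ⟨?_, fun O hO hle x hx => ?_⟩
  · change Un P₀ ((D P₀ ^ m : Fˣ) : F)
    rw [Units.val_pow_eq_pow_val]
    exact h.1.pow m
  · have h1 := rad_key hP₀ hD h.1 hO hle
    have h3 := (h.2 O hO hle ⟨_, h1.2.1⟩ rfl).pow m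
    have h4 : x = ⟨_, h1.2.1⟩ ^ m := by
      refine Subtype.ext ?_
      rw [hx, SubmonoidClass.coe_pow]
      rfl
    rw [div_pow, ← map_pow, ← h4] at h3
    exact h3

theorem rd_zpow (hP₀ : P₀ ∈ Y) (hD : IsCar Y D) (h : RD ρ Y D D₀) (m : ℤ) :
    RD ρ Y (D ^ m) (D₀ ^ m) := by
  have h0 : ∀ m : ℕ, ∀ O ∈ Y, O ≤ P₀ → Un P₀ ((D ^ m) O : F) := by
    intro m O hO hle
    change Un P₀ ((D O ^ m : Fˣ) : F)
    rw [Units.val_pow_eq_pow_val]
    exact (rad_key hP₀ hD h.1 hO hle).pow m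
  cases m with
  | ofNat m =>
    have h1 := rd_pow hP₀ hD h m
    rw [Int.ofNat_eq_natCast, zpow_natCast, zpow_natCast]
    exact h1
  | negSucc m =>
    have h1 := rd_pow hP₀ hD h (m + 1)
    rw [zpow_negSucc, zpow_negSucc]
    exact rad_inv (h0 (m + 1)) h1

/-- a constant with residue `c` -/
theorem rd_const (u : Fˣ) (hu : Un P₀ (u : F)) {c : Kˣ} (hc : ∀ x : P₀, (x : F) = u → ρ x = c) :
    RD ρ Y (fun _ => u) (fun _ => c) := by
  refine ⟨hu, fun O _ _ x hx => ?_⟩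
  rw [hc x hx, div_self c.ne_zero]
  exact Un.one _

end Pool.Agent.KM
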