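import Pool.Agent.Lib.MP_732f67_ag.N.ResA

/-!
Part N: restriction of sections, of ample and nef divisors to the prime divisor `P₀`.
-/

namespace Pool.Agent.KM

variable {F : Type} [Field F] [Algebra ℂ F] {Y : Set (Subalgebra ℂ F)} {P₀ : Subalgebra ℂ F}
  {K : Type} [Field K] [Algebra ℂ K] {ρ : P₀ →ₐ[ℂ] K} {D E H : Subalgebra ℂ F → Fˣ}
  {D₀ E₀ H₀ : Subalgebra ℂ K → Kˣ}

private theorem rbs_key (hP₀ : P₀ ∈ Y) (hD : IsCar Y D) (hu : Un P₀ (D P₀ : F))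
    {O : Subalgebra ℂ F} (hO : O ∈ Y) (hle : O ≤ P₀) : Un P₀ (D O : F) := by
  obtain ⟨S, hS, h⟩ := hD O hO
  have h1 := h P₀ hP₀ fun s hs => hle (hS s hs)
  have h2 := h1.mul hu
  rwa [← Units.val_mul, div_mul_cancel] at h2

private theorem rbs_local (hY : IsProj Y) (hP₀ : P₀ ∈ Y) : IsLocalRing P₀ := by
  obtain ⟨V, -, -, -, rfl⟩ := hY
  obtain ⟨v, -, -, hl⟩ := hP₀
  exact hl.isLocalRing

theorem sec_le (hP₀ : P₀ ∈ Y) (h : RD ρ Y D D₀) {f : F} (hf : f ∈ Sec Y D) : f ∈ P₀ := by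
  have h1 := P₀.mul_mem (hf P₀ hP₀) h.1.2.2
  rwa [mul_assoc, mul_inv_cancel₀ h.1.1, mul_one] at h1

/-- the value of a section of `D` in terms of its restriction -/
private theorem rbs_val (hP₀ : P₀ ∈ Y) (hD : IsCar Y D) (h : RD ρ Y D D₀) {O : Subalgebra ℂ F}
    (hO : O ∈ Y) (hle : O ≤ P₀) : ∃ u : K, Un (rs ρ O) u ∧ ∀ f : P₀, ∃ g : P₀,
      (g : F) = f * D O ∧ ρ f * (D₀ (rs ρ O) : K) = ρ g * u := by
  have h1 := rbs_key hP₀ hD h.1 hO hle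
  have h2 := h.2 O hO hle ⟨_, h1.2.1⟩ rfl
  refine ⟨_, h2, fun f => ⟨f * ⟨_, h1.2.1⟩, rfl, ?_⟩⟩
  have h3 : ρ ⟨_, h1.2.1⟩ ≠ 0 := by
    intro h0
    rw [h0, div_zero] at h2
    exact h2.1 rfl
  rw [map_mul, mul_assoc, mul_div_cancel₀ _ h3]

theorem sec_rs (hP₀ : P₀ ∈ Y) (hD : IsCar Y D) (h : RD ρ Y D D₀) {f : P₀}
    (hf : (f : F) ∈ Sec Y D) : ρ f ∈ Sec (rsY ρ Y) D₀ := by
  rintro Q ⟨O, hO, hle, rfl⟩
  obtain ⟨u, hu, h1⟩ := rbs_val hP₀ hD h hO hle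
  obtain ⟨g, hg, h2⟩ := h1 f
  rw [h2]
  refine Subalgebra.mul_mem _ (mem_rs.2 ⟨g, ?_, rfl⟩) hu.2.1
  rw [hg]
  exact hf O hO

/-- the image of a very ample linear system -/
theorem va_rs (hY : IsProj Y) (hP₀ : P₀ ∈ Y) (hs : Function.Surjective ρ)
    (hρ : ∀ x : P₀, ρ x = 0 ↔ ¬ Un P₀ (x : F)) (hD : IsCar Y D) (h : RD ρ Y D D₀)
    {V : Submodule ℂ F} (hV : VA Y D V) :
    VA (rsY ρ Y) D₀ (Submodule.map ρ.toLinearMap (Submodule.comap P₀.val.toLinearMap V)) := by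
  have hmem : ∀ f : P₀, (f : F) ∈ V →
      ρ f ∈ Submodule.map ρ.toLinearMap (Submodule.comap P₀.val.toLinearMap V) := fun f hf =>
    ⟨f, hf, rfl⟩
  have hVP : ∀ f ∈ V, f ∈ P₀ := fun f hf => sec_le hP₀ h (hV.sec hf)
  have hgen : ∀ O ∈ Y, ∀ hle : O ≤ P₀, ∀ f : P₀, Un O ((f : F) * D O) →
      Un (rs ρ O) (ρ f * (D₀ (rs ρ O) : K)) := by
    intro O hO hle f hf
    obtain ⟨u, hu, h1⟩ := rbs_val hP₀ hD h hO hle
    obtain ⟨g, hg, h2⟩ := h1 f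
    rw [h2]
    rw [← hg] at hf
    exact ((un_rs hY (rbs_local hY hP₀) hρ hO hle hf.2.1).2 hf).mul hu
  have hBF : BF (rsY ρ Y) D₀
      (Submodule.map ρ.toLinearMap (Submodule.comap P₀.val.toLinearMap V)) := by
    refine ⟨?_, ?_, ?_⟩
    · have h1 := hV.fin
      have h2 : Module.Finite ℂ (Submodule.comap P₀.val.toLinearMap V) := by
        refine Module.Finite.of_injective
          (P₀.val.toLinearMap.restrict (q := V) (fun x hx => hx) :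
            Submodule.comap P₀.val.toLinearMap V →ₗ[ℂ] V) ?_
        intro x y hxy
        refine Subtype.ext (Subtype.ext ?_)
        exact congrArg (fun z : V => (z : F)) hxy
      exact Module.Finite.map _ _
    · rintro _ ⟨f, hf, rfl⟩
      exact sec_rs hP₀ hD h (hV.sec hf)
    · rintro Q ⟨O, hO, hle, rfl⟩
      obtain ⟨f, hf, hu⟩ := hV.gen O hO
      exact ⟨ρ ⟨f, hVP f hf⟩, hmem _ hf, hgen O hO hle ⟨f, hVP f hf⟩ hu⟩
  refine ⟨hBF, (rs_proj hY hP₀ hs hρ).eq_pts ?_⟩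
  rintro Q ⟨O, hO, hle, rfl⟩
  have hO1 := hO
  rw [hV.eq] at hO1
  obtain ⟨v, hv, hv0, hl⟩ := hO1
  have hu := hV.toBF.un_of_cht_le hO hv hv0 hl.le
  have hvP := hVP v hv
  have hk := rbs_key hP₀ hD h.1 hO hle
  have hvu : Un P₀ v := by
    have h1 := (hu.mono hle).div hk
    rwa [mul_div_cancel_right₀ _ (D O).ne_zero] at h1
  have hv0' : ρ ⟨v, hvP⟩ ≠ 0 := by
    rw [Ne, hρ, not_not]
    exact hvu
  refine ⟨ρ ⟨v, hvP⟩, hmem _ hv, hv0', ?_⟩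
  have hQ : IsLocalRing (rs ρ O) := by
    obtain ⟨V', -, -, -, h1⟩ := rs_proj hY hP₀ hs hρ
    have h2 : rs ρ O ∈ rsY ρ Y := ⟨O, hO, hle, rfl⟩
    rw [h1] at h2
    obtain ⟨_, -, -, h3⟩ := h2
    exact h3.isLocalRing
  -- the image of the chart
  have hch : ∀ x ∈ cht V v, ∃ y : P₀, (y : F) = x ∧ ρ y ∈ cht
      (Submodule.map ρ.toLinearMap (Submodule.comap P₀.val.toLinearMap V)) (ρ ⟨v, hvP⟩) := by
    intro x hx
    have h1 : cht V v ≤ ((cht (Submodule.map ρ.toLinearMap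
        (Submodule.comap P₀.val.toLinearMap V)) (ρ ⟨v, hvP⟩)).comap ρ).map P₀.val := by
      refine Algebra.adjoin_le ?_
      rintro _ ⟨w, hw, rfl⟩
      have h2 : w / v ∈ P₀ := by
        rw [div_eq_mul_inv]
        exact P₀.mul_mem (hVP w hw) hvu.2.2
      refine ⟨⟨w / v, h2⟩, ?_, rfl⟩
      refine Algebra.subset_adjoin ⟨ρ ⟨w, hVP w hw⟩, hmem _ hw, ?_⟩
      have h4 : ρ ⟨w / v, h2⟩ * ρ ⟨v, hvP⟩ = ρ ⟨w, hVP w hw⟩ := by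
        rw [← map_mul]
        congr 1
        refine Subtype.ext ?_
        change w / v * v = w
        exact div_mul_cancel₀ _ hv0
      exact (eq_div_iff hv0').2 h4
    obtain ⟨y, hy, hy'⟩ := h1 hx
    exact ⟨y, hy', hy⟩
  rw [pt_locAt_iff] at hl ⊢
  obtain ⟨h1, h2, h3⟩ := hl
  refine ⟨hBF.cht_le ⟨O, hO, hle, rfl⟩ (hmem _ hv) (hgen O hO hle ⟨v, hvP⟩ hu), hQ, ?_⟩
  intro z hz
  obtain ⟨x, hx, rfl⟩ := mem_rs.1 hz
  obtain ⟨a, ha, b, hb, hb0, hb1, hab⟩ := h3 x hx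
  obtain ⟨a', ha', ha''⟩ := hch a ha
  obtain ⟨b', hb', hb''⟩ := hch b hb
  have hbu : Un O (b' : F) := by
    rw [hb']
    exact ⟨hb0, h1 hb, hb1⟩
  have hbu' := (un_rs hY (rbs_local hY hP₀) hρ hO hle hbu.2.1).2 hbu
  refine ⟨ρ a', ha'', ρ b', hb'', hbu'.1, hbu'.2.2, ?_⟩
  rw [eq_div_iff hbu'.1, ← map_mul]
  congr 1
  refine Subtype.ext ?_
  change (x : F) * (b' : F) = a'
  rw [hab, ha', hb', div_mul_cancel₀ _ hb0]

theorem amp_rs (hY : IsProj Y) (hP₀ : P₀ ∈ Y) (hs : Function.Surjective ρ)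
    (hρ : ∀ x : P₀, ρ x = 0 ↔ ¬ Un P₀ (x : F)) (hD : IsCar Y D) (h : RD ρ Y D D₀)
    (hA : Amp Y D) : Amp (rsY ρ Y) D₀ := by
  obtain ⟨m, hm, V, hV⟩ := hA
  exact ⟨m, hm, _, va_rs hY hP₀ hs hρ (car_pow hD m) (rd_pow hP₀ hD h m) hV⟩

end Pool.Agent.KM
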