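import Pool.Agent.Lib.MP_732f67_ag.N.ResA
import Pool.Agent.Lib.MP_732f67_ag.N.RbS

/-!
Part N: restriction of sections, of ample and nef divisors to the prime divisor `P₀`.
-/

namespace Pool.Agent.KM

variable {F : Type} [Field F] [Algebra ℂ F] {Y : Set (Subalgebra ℂ F)} {P₀ : Subalgebra ℂ F}
  {K : Type} [Field K] [Algebra ℂ K] {ρ : P₀ →ₐ[ℂ] K} {D E H : Subalgebra ℂ F → Fˣ}
  {D₀ E₀ H₀ : Subalgebra ℂ K → Kˣ}

/-- PROOF. `H` ample on `Y` (`exists_amp`), times a constant such that it is a unit at `P₀`; `H₀`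
its restriction. `D ^ m * H` is ample for all `m`; `amp_rs`, `nf_of`. -/
theorem nf_rs (hY : IsProj Y) (hP₀ : P₀ ∈ Y) (hs : Function.Surjective ρ)
    (hρ : ∀ x : P₀, ρ x = 0 ↔ ¬ Un P₀ (x : F)) (hD : IsCar Y D) (h : RD ρ Y D D₀)
    (hN : Nf Y D) : Nf (rsY ρ Y) D₀ := by
  obtain ⟨H, hH, hA⟩ := exists_amp hY
  have hH' := car_mul hH (car_const (Y := Y) (H P₀)⁻¹)
  have hA' := amp_const hA (H P₀)⁻¹
  have hu : Un P₀ ((H * fun _ => (H P₀)⁻¹ : Subalgebra ℂ F → Fˣ) P₀ : F) := by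
    rw [Pi.mul_apply, mul_inv_cancel, Units.val_one]
    exact Un.one P₀
  obtain ⟨H₀, hH₀⟩ := exists_rd hY hP₀ hs hρ hH' hu
  refine nf_of (rs_proj hY hP₀ hs hρ) (car_rd hY hP₀ hs hρ hH' hH₀) fun m =>
    ⟨m + 1, Nat.le_succ m, Nat.le_add_left 1 m, ?_⟩
  have h1 := rd_pow hP₀ hD h (m + 1)
  exact amp_rs hY hP₀ hs hρ (car_mul (car_pow hD (m + 1)) hH')
    (rd_mul hP₀ (car_pow hD (m + 1)) hH' h1 hH₀) (hN _ hH' hA' (m + 1))

end Pool.Agent.KM
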