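import Pool.Agent.Lib.MP_732f67_ag.N.ResB
import Pool.Agent.Lib.MP_732f67_ag.N.LogB

/-!
Part N: adjunction. A boundary divisor of a smooth variety with normal crossings is again one.
-/

namespace Pool.Agent.KM

open scoped KaehlerDifferential

section

open TensorProduct

/-- The quotient of a smooth algebra by a coordinate. -/
theorem rcb_sm {P S : Type} [CommRing P] [CommRing S] [Algebra ℂ P] [Algebra ℂ S]
    [Nontrivial S] (φ : P →ₐ[ℂ] S) (hφ : Function.Surjective φ) {n : ℕ} {x : Fin (n + 1) → P}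
    (b : Module.Basis (Fin (n + 1)) P Ω[P⁄ℂ]) (hb : ∀ l, b l = KaehlerDifferential.D ℂ P (x l))
    {l₀ : Fin (n + 1)} (h0 : φ (x l₀) = 0) (hker : ∀ z, φ z = 0 → ∃ w, z = x l₀ * w)
    (hsm : Algebra.FormallySmooth ℂ P) :
    Algebra.FormallySmooth ℂ S ∧ ∃ b' : Module.Basis (Fin n) S Ω[S⁄ℂ],
      ∀ l, b' l = KaehlerDifferential.D ℂ S (φ (x (l₀.succAbove l))) := by
  classical
  let _ : Algebra P S := φ.toRingHom.toAlgebra
  have hst : IsScalarTower ℂ P S := IsScalarTower.of_algebraMap_eq fun c => (φ.commutes c).symm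
  have hmap : ∀ p : P, algebraMap P S p = φ p := fun p => rfl
  have hsurj : Function.Surjective (algebraMap P S) := hφ
  set bS := b.baseChange S with hbS
  have hbS' : ∀ l, bS l = (1 : S) ⊗ₜ[P] KaehlerDifferential.D ℂ P (x l) := by
    intro l
    rw [hbS, Module.Basis.baseChange_apply, hb]
  -- the kernel
  have hcot : ∀ z : (RingHom.ker (algebraMap P S)).Cotangent, ∃ w : P,
      KaehlerDifferential.kerCotangentToTensor ℂ P S z = φ w • bS l₀ ∧
      (φ w = 0 → z = 0) := by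
    intro z
    obtain ⟨⟨z, hz⟩, rfl⟩ := Ideal.toCotangent_surjective _ z
    obtain ⟨w, hw⟩ := hker z hz
    refine ⟨w, ?_, fun hw0 => ?_⟩
    · rw [KaehlerDifferential.kerCotangentToTensor_toCotangent]
      change (1 : S) ⊗ₜ[P] KaehlerDifferential.D ℂ P z = _
      rw [hw, Derivation.leibniz, TensorProduct.tmul_add, TensorProduct.tmul_smul,
        TensorProduct.tmul_smul, TensorProduct.smul_tmul', TensorProduct.smul_tmul',
        ← Algebra.algebraMap_eq_smul_one, ← Algebra.algebraMap_eq_smul_one, hmap, h0,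
        TensorProduct.zero_tmul, zero_add, hmap, hbS', TensorProduct.smul_tmul', smul_eq_mul,
        mul_one]
    · rw [Ideal.toCotangent_eq_zero]
      obtain ⟨v, hv⟩ := hker w hw0
      change z ∈ RingHom.ker (algebraMap P S) ^ 2
      rw [hw, hv, ← mul_assoc, pow_two]
      exact Ideal.mul_mem_right _ _ (Ideal.mul_mem_mul h0 h0)
  have hinj : Function.Injective (KaehlerDifferential.kerCotangentToTensor ℂ P S) := by
    rw [injective_iff_map_eq_zero]
    intro z hz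
    obtain ⟨w, hw, hw'⟩ := hcot z
    refine hw' ?_
    rw [hz] at hw
    have := congrArg (fun q => bS.repr q l₀) hw
    simpa using this.symm
  -- the basis
  set D' : Fin n → Ω[S⁄ℂ] := fun l => KaehlerDifferential.D ℂ S (φ (x (l₀.succAbove l))) with hD'
  have hD : ∀ l, KaehlerDifferential.mapBaseChange ℂ P S (bS l) =
      KaehlerDifferential.D ℂ S (φ (x l)) := by
    intro l
    rw [hbS', KaehlerDifferential.mapBaseChange_tmul, one_smul, KaehlerDifferential.map_D]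
    rfl
  have hexp : ∀ q : S ⊗[P] Ω[P⁄ℂ], q = bS.repr q l₀ • bS l₀ +
      ∑ l, bS.repr q (l₀.succAbove l) • bS (l₀.succAbove l) := by
    intro q
    conv_lhs => rw [← bS.sum_repr q]
    rw [Fin.sum_univ_succAbove _ l₀]
  have hli : LinearIndependent S D' := by
    rw [Fintype.linearIndependent_iff]
    intro g hg i
    have h1 : KaehlerDifferential.mapBaseChange ℂ P S
        (∑ l, g l • bS (l₀.succAbove l)) = 0 := by
      rw [map_sum, ← hg]
      exact Finset.sum_congr rfl fun l _ => by rw [map_smul, hD]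
    obtain ⟨z, hz⟩ := (KaehlerDifferential.exact_kerCotangentToTensor_mapBaseChange ℂ P S
      hsurj _).1 h1
    obtain ⟨w, hw, -⟩ := hcot z
    rw [hz] at hw
    have h2 := congrArg (fun q => bS.repr q (l₀.succAbove i)) hw
    simp only [map_sum, map_smul, Module.Basis.repr_self, Finsupp.coe_finsetSum,
      Finset.sum_apply, Finsupp.smul_single, smul_eq_mul, mul_one, Finsupp.single_apply,
      Fin.succAbove_right_inj, (Fin.succAbove_ne l₀ i).symm, if_false, Finset.sum_ite_eq',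
      Finset.mem_univ, if_true] at h2
    simpa using h2
  have hsp : ⊤ ≤ Submodule.span S (Set.range D') := by
    intro z _
    obtain ⟨q, rfl⟩ := KaehlerDifferential.mapBaseChange_surjective ℂ P S hsurj z
    rw [hexp q, map_add, map_smul, hD, h0, map_zero, smul_zero, zero_add, map_sum]
    refine Submodule.sum_mem _ fun l _ => ?_
    rw [map_smul, hD]
    exact Submodule.smul_mem _ _ (Submodule.subset_span ⟨l, rfl⟩)
  refine ⟨?_, Module.Basis.mk hli hsp, fun l => by rw [Module.Basis.mk_apply]⟩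
  rw [Algebra.formallySmooth_iff]
  exact ⟨Module.Projective.of_basis (Module.Basis.mk hli hsp),
    (Algebra.FormallySmooth.kerCotangentToTensor_injective_iff hsurj).1 hinj⟩

end

section

variable {F : Type} [Field F] [Algebra ℂ F] {K : Type} [Field K] [Algebra ℂ K] {n : ℕ}

/-- the substitution `X l₀ ↦ 0` -/
noncomputable def rcbT (l₀ : Fin (n + 1)) : MvPolynomial (Fin (n + 1)) ℂ →ₐ[ℂ] MvPolynomial (Fin n) ℂ :=
  MvPolynomial.aeval (l₀.insertNth 0 (MvPolynomial.X : Fin n → MvPolynomial (Fin n) ℂ))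

/-- the inclusion of the polynomials without `X l₀` -/
noncomputable def rcbI (l₀ : Fin (n + 1)) : MvPolynomial (Fin n) ℂ →ₐ[ℂ] MvPolynomial (Fin (n + 1)) ℂ :=
  MvPolynomial.aeval fun l => MvPolynomial.X (l₀.succAbove l)

theorem rcb_lift0 (l₀ : Fin (n + 1)) (P : MvPolynomial (Fin (n + 1)) ℂ) :
    ∃ T, P = rcbI l₀ (rcbT l₀ P) + MvPolynomial.X l₀ * T := by
  induction P using MvPolynomial.induction_on with
  | C a =>
    refine ⟨0, ?_⟩
    rw [MvPolynomial.algHom_C, AlgHom.commutes]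
    simp [MvPolynomial.algebraMap_eq]
  | add p q hp hq =>
    obtain ⟨T, hT⟩ := hp
    obtain ⟨T', hT'⟩ := hq
    refine ⟨T + T', ?_⟩
    conv_lhs => rw [hT, hT']
    rw [map_add, map_add]
    ring
  | mul_X p i hp =>
    obtain ⟨T, hT⟩ := hp
    rw [map_mul, map_mul]
    rcases Fin.eq_self_or_eq_succAbove l₀ i with rfl | ⟨j, rfl⟩
    · refine ⟨p, ?_⟩
      have h1 : rcbT i (MvPolynomial.X i) = 0 := by
        unfold rcbT
        rw [MvPolynomial.aeval_X, Fin.insertNth_apply_same]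
      rw [h1, map_zero, mul_zero, zero_add, mul_comm]
    · refine ⟨T * MvPolynomial.X (l₀.succAbove j), ?_⟩
      have h1 : rcbT l₀ (MvPolynomial.X (l₀.succAbove j)) = MvPolynomial.X j := by
        unfold rcbT
        rw [MvPolynomial.aeval_X, Fin.insertNth_apply_succAbove]
      have h2 : rcbI l₀ (MvPolynomial.X j) = MvPolynomial.X (l₀.succAbove j) :=
        MvPolynomial.aeval_X _ _
      rw [h1, h2]
      conv_lhs => rw [hT]
      ring

theorem rcb_lift (l₀ : Fin (n + 1)) (P : Polynomial (MvPolynomial (Fin (n + 1)) ℂ)) :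
    ∃ T, P = (P.map (rcbT l₀).toRingHom).map (rcbI l₀).toRingHom +
      Polynomial.C (MvPolynomial.X l₀) * T := by
  induction P using Polynomial.induction_on' with
  | add p q hp hq =>
    obtain ⟨T, hT⟩ := hp
    obtain ⟨T', hT'⟩ := hq
    refine ⟨T + T', ?_⟩
    conv_lhs => rw [hT, hT']
    rw [Polynomial.map_add, Polynomial.map_add]
    ring
  | monomial i a =>
    obtain ⟨T, hT⟩ := rcb_lift0 l₀ a
    refine ⟨Polynomial.monomial i T, ?_⟩
    rw [Polynomial.map_monomial, Polynomial.map_monomial, Polynomial.C_mul_monomial,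
      ← map_add]
    congr 1

theorem rcb_ev {R S : Type*} [CommRing R] [CommRing S] [Algebra ℂ R] [Algebra ℂ S]
    (σ : R →ₐ[ℂ] S) {m : ℕ} (x : Fin m → R) (y : R) (P : Polynomial (MvPolynomial (Fin m) ℂ)) :
    σ (ev x y P) = ev (fun l => σ (x l)) (σ y) P := by
  unfold ev
  refine (Polynomial.hom_eval₂ P _ σ.toRingHom y).trans ?_
  congr 1
  refine RingHom.ext fun p => ?_
  have h1 : σ.comp (MvPolynomial.aeval x) = MvPolynomial.aeval fun l => σ (x l) :=
    MvPolynomial.comp_aeval x σ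
  exact DFunLike.congr_fun h1 p

theorem rcb_evI {R : Type*} [CommRing R] [Algebra ℂ R] (l₀ : Fin (n + 1)) (x : Fin (n + 1) → R)
    (y : R) (P : Polynomial (MvPolynomial (Fin n) ℂ)) :
    ev x y (P.map (rcbI l₀).toRingHom) = ev (fun l => x (l₀.succAbove l)) y P := by
  unfold ev
  rw [Polynomial.eval₂_map]
  congr 1
  refine RingHom.ext fun p => ?_
  have h1 : (MvPolynomial.aeval x).comp (rcbI l₀) =
      MvPolynomial.aeval fun l => x (l₀.succAbove l) := by
    refine MvPolynomial.algHom_ext fun l => ?_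
    simp [rcbI]
  exact DFunLike.congr_fun h1 p


theorem rcb_adjoin {m : ℕ} (x : Fin m → F) (y : F) {w : F}
    (hw : w ∈ Algebra.adjoin ℂ (Set.range x ∪ {y})) : ∃ P, ev (k := ℂ) x y P = w := by
  induction hw using Algebra.adjoin_induction with
  | mem w hw =>
    rcases hw with ⟨i, rfl⟩ | hw
    · refine ⟨Polynomial.C (MvPolynomial.X i), ?_⟩
      unfold ev
      rw [Polynomial.eval₂_C]
      exact MvPolynomial.aeval_X _ _
    · rw [Set.mem_singleton_iff] at hw
      exact ⟨Polynomial.X, by unfold ev; rw [Polynomial.eval₂_X, hw]⟩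
  | algebraMap r =>
    refine ⟨Polynomial.C (MvPolynomial.C r), ?_⟩
    unfold ev
    rw [Polynomial.eval₂_C]
    exact MvPolynomial.algHom_C _ _
  | add a b _ _ ha hb =>
    obtain ⟨P, rfl⟩ := ha
    obtain ⟨Q, rfl⟩ := hb
    exact ⟨P + Q, Polynomial.eval₂_add _ _⟩
  | mul a b _ _ ha hb =>
    obtain ⟨P, rfl⟩ := ha
    obtain ⟨Q, rfl⟩ := hb
    exact ⟨P * Q, Polynomial.eval₂_mul _ _⟩

/-- Elements of the kernel of `σ` are divisible by `x l₀`. -/
theorem rcb_key {A O : Subalgebra ℂ F} {x : Fin (n + 1) → O} {y u : F}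
    (h : IsCh A (fun l => (x l : F)) y u) (hAO : LocAt A O) (σ : O →ₐ[ℂ] K)
    (hσ : ∀ z w : O, σ z * σ w = 1 → Un O (z : F)) {l₀ : Fin (n + 1)} (h0 : σ (x l₀) = 0)
    (hind : AlgebraicIndependent ℂ fun l : Fin n => σ (x (l₀.succAbove l))) (z : O)
    (hz : σ z = 0) : ∃ w : O, z = x l₀ * w := by
  classical
  have hle := hAO.le
  have hy : y ∈ O := hle (h.B_le (Algebra.subset_adjoin (Or.inr rfl)))
  set x' : Fin n → K := fun l => σ (x (l₀.succAbove l)) with hx'
  obtain ⟨f, hfm, hfi, hf0, hf1, hf2⟩ := h.pol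
  set yO : O := ⟨y, hy⟩ with hyO
  have hval : ∀ P : Polynomial (MvPolynomial (Fin (n + 1)) ℂ), ((ev x yO P : O) : F) =
      ev (fun l => (x l : F)) y P := fun P => rcb_ev O.val x yO P
  have hsig : ∀ P : Polynomial (MvPolynomial (Fin (n + 1)) ℂ), σ (ev x yO P) =
      ev x' (σ yO) (P.map (rcbT l₀).toRingHom) := by
    intro P
    obtain ⟨T, hT⟩ := rcb_lift l₀ P
    have h1 : ev x yO P = ev x yO ((P.map (rcbT l₀).toRingHom).map (rcbI l₀).toRingHom) +
        x l₀ * ev x yO T := by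
      conv_lhs => rw [hT]
      unfold ev
      rw [Polynomial.eval₂_add, Polynomial.eval₂_mul, Polynomial.eval₂_C]
      congr 2
      exact MvPolynomial.aeval_X _ _
    rw [h1, map_add, map_mul, h0, zero_mul, add_zero, rcb_evI, rcb_ev]
  -- `K` as an algebra over the polynomial ring
  let _ : Algebra (MvPolynomial (Fin n) ℂ) K := (MvPolynomial.aeval x').toRingHom.toAlgebra
  have hinj : Function.Injective (algebraMap (MvPolynomial (Fin n) ℂ) K) := hind
  have hfaith : FaithfulSMul (MvPolynomial (Fin n) ℂ) K :=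
    (faithfulSMul_iff_algebraMap_injective _ _).2 hinj
  have haev : ∀ P : Polynomial (MvPolynomial (Fin n) ℂ), Polynomial.aeval (σ yO) P =
    ev x' (σ yO) P := fun P => rfl
  set g := f.map (rcbT l₀).toRingHom with hg
  have hgm : g.Monic := hfm.map _
  have hg0 : Polynomial.aeval (σ yO) g = 0 := by
    rw [haev, ← hsig]
    have : ev x yO f = 0 := Subtype.ext (by rw [hval, hf0]; rfl)
    rw [this, map_zero]
  have hint : IsIntegral (MvPolynomial (Fin n) ℂ) (σ yO) := ⟨g, hgm, hg0⟩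
  set f₁ := minpoly (MvPolynomial (Fin n) ℂ) (σ yO) with hf₁
  obtain ⟨g₁, hg₁⟩ : f₁ ∣ g := minpoly.isIntegrallyClosed_dvd hint hg0
  have hsplit : ∀ P : Polynomial (MvPolynomial (Fin (n + 1)) ℂ), ∃ t : O,
      ev x yO P = ev x yO ((P.map (rcbT l₀).toRingHom).map (rcbI l₀).toRingHom) + x l₀ * t := by
    intro P
    obtain ⟨T, hT⟩ := rcb_lift l₀ P
    refine ⟨ev x yO T, ?_⟩
    conv_lhs => rw [hT]
    unfold ev
    rw [Polynomial.eval₂_add, Polynomial.eval₂_mul, Polynomial.eval₂_C]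
    congr 2
    exact MvPolynomial.aeval_X _ _
  have hevmul : ∀ P Q : Polynomial (MvPolynomial (Fin (n + 1)) ℂ),
      ev x yO (P * Q) = ev x yO P * ev x yO Q := fun P Q => Polynomial.eval₂_mul _ _
  -- the unit
  set e₂ : O := ev x yO (g₁.map (rcbI l₀).toRingHom) with he₂
  have hder : σ (ev x yO f.derivative) =
      Polynomial.aeval (σ yO) f₁.derivative * Polynomial.aeval (σ yO) g₁ := by
    rw [hsig, ← haev, ← Polynomial.derivative_map, ← hg, hg₁, Polynomial.derivative_mul, map_add,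
      map_mul, map_mul, minpoly.aeval, zero_mul, add_zero]
  have hf2O : (ev (fun l => (x l : F)) y f.derivative)⁻¹ ∈ O := hle hf2
  have hinv : ev x yO f.derivative * ⟨_, hf2O⟩ = 1 := Subtype.ext (by
    change ((ev x yO f.derivative : O) : F) * (ev (fun l => (x l : F)) y f.derivative)⁻¹ = 1
    rw [hval]
    exact mul_inv_cancel₀ hf1)
  have hu : Un O (e₂ : F) := by
    refine hσ e₂ (ev x yO (f₁.derivative.map (rcbI l₀).toRingHom) * ⟨_, hf2O⟩) ?_
    rw [map_mul, he₂, rcb_evI, rcb_evI, rcb_ev, rcb_ev, ← map_one σ, ← hinv, map_mul, hder, haev,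
      haev]
    ring
  -- the denominator of `z`
  obtain ⟨c, hc, P, hP⟩ : ∃ c : O, Un O (c : F) ∧ ∃ P, ev x yO P = z * c := by
    obtain ⟨Q, hQ, hO⟩ := id hAO
    obtain ⟨a, b, hb, hab⟩ := (hO (z : F)).1 z.2
    have hb0 : (b : F) ≠ 0 := fun h0 => hb (by
      have : b = 0 := Subtype.ext h0
      rw [this]; exact Q.zero_mem)
    have hbi : (b : F)⁻¹ ∈ O := (hO _).2 ⟨1, b, hb, by simp⟩
    obtain ⟨N, hN⟩ := h.exists_pow a.2
    have hui : u⁻¹ ∈ O := hle (h.B_le h.u_inv)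
    have huO : u ∈ O := hle h.u_mem
    have hcO : (b : F) * u⁻¹ ^ N ∈ O := O.mul_mem (hle b.2) (O.pow_mem hui _)
    refine ⟨⟨_, hcO⟩, ⟨mul_ne_zero hb0 (pow_ne_zero _ (inv_ne_zero h.u_ne)), hcO, ?_⟩, ?_⟩
    · change ((b : F) * u⁻¹ ^ N)⁻¹ ∈ O
      rw [mul_inv, inv_pow, inv_inv]
      exact O.mul_mem hbi (O.pow_mem huO _)
    · obtain ⟨P, hP⟩ := rcb_adjoin _ _ hN
      refine ⟨P, Subtype.ext ?_⟩
      rw [hval, hP]
      change (a : F) * u⁻¹ ^ N = (z : F) * ((b : F) * u⁻¹ ^ N)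
      rw [hab]
      field_simp
  obtain ⟨s, hs⟩ : f₁ ∣ P.map (rcbT l₀).toRingHom := by
    refine minpoly.isIntegrallyClosed_dvd hint ?_
    rw [haev, ← hsig, hP, map_mul, hz, zero_mul]
  obtain ⟨t, ht⟩ := hsplit P
  obtain ⟨t', ht'⟩ := hsplit f
  have hf0' : ev x yO f = 0 := Subtype.ext (by rw [hval, hf0]; rfl)
  rw [hf0', ← hg, hg₁, Polynomial.map_mul, hevmul] at ht'
  rw [hP, hs, Polynomial.map_mul, hevmul] at ht
  have hc1 : c * ⟨_, hc.2.2⟩ = 1 := Subtype.ext (mul_inv_cancel₀ hc.1)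
  have he1 : e₂ * ⟨_, hu.2.2⟩ = 1 := Subtype.ext (mul_inv_cancel₀ hu.1)
  refine ⟨(t - t' * ⟨_, hu.2.2⟩ * ev x yO (s.map (rcbI l₀).toRingHom)) * ⟨_, hc.2.2⟩, ?_⟩
  linear_combination (-z) * hc1 + (⟨_, hc.2.2⟩ : O) * ht -
    (⟨_, hc.2.2⟩ : O) * ⟨_, hu.2.2⟩ * ev x yO (s.map (rcbI l₀).toRingHom) * ht' -
    (⟨_, hc.2.2⟩ : O) * ev x yO (s.map (rcbI l₀).toRingHom) *
      ev x yO (f₁.map (rcbI l₀).toRingHom) * he1


theorem rcb_ev_mem {m : ℕ} {x : Fin m → K} {y : K} {S : Subalgebra ℂ K} (hx : ∀ l, x l ∈ S)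
    (hy : y ∈ S) (P : Polynomial (MvPolynomial (Fin m) ℂ)) : ev x y P ∈ S := by
  have h1 : ∀ c : MvPolynomial (Fin m) ℂ, MvPolynomial.aeval x c ∈ S := by
    intro c
    have h2 : MvPolynomial.aeval x c ∈ Algebra.adjoin ℂ (Set.range x) := by
      rw [Algebra.adjoin_range_eq_range_aeval]
      exact ⟨c, rfl⟩
    refine (Algebra.adjoin_le ?_ : Algebra.adjoin ℂ (Set.range x) ≤ S) h2
    rintro _ ⟨l, rfl⟩
    exact hx l
  unfold ev
  rw [Polynomial.eval₂_eq_sum_range]
  exact S.sum_mem fun i _ => S.mul_mem (h1 _) (S.pow_mem hy _)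

/-- The residues of the other coordinates are algebraically independent. -/
theorem rcb_ind {P₀ A O : Subalgebra ℂ F} {ρ : P₀ →ₐ[ℂ] K} (hp : PrimDiv P₀)
    (hs : Function.Surjective ρ) (hρ : ∀ x : P₀, ρ x = 0 ↔ ¬ Un P₀ (x : F))
    {x : Fin (n + 1) → O} {y u : F} (h : IsCh A (fun l => (x l : F)) y u) (hAO : LocAt A O)
    (hle : O ≤ P₀) (hOP : LocAt O P₀) {l₀ : Fin (n + 1)} (hl₀ : ¬ Un P₀ (x l₀ : F)) :
    AlgebraicIndependent ℂ
      fun l : Fin n => ρ (Subalgebra.inclusion hle (x (l₀.succAbove l))) := by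
  classical
  set σ : O →ₐ[ℂ] K := ρ.comp (Subalgebra.inclusion hle) with hσ
  set x' : Fin n → K := fun l => σ (x (l₀.succAbove l)) with hx'
  change AlgebraicIndependent ℂ x'
  have hd : Algebra.trdeg ℂ F = (n + 1 : ℕ) := by
    have := h.tb.cardinalMk_eq_trdeg
    simpa using this.symm
  have hdK := rs_trdeg hd hp hs hρ
  have h0 : σ (x l₀) = 0 := (hρ _).2 hl₀
  set S₀ := Algebra.adjoin ℂ (Set.range x') with hS₀
  have halg : Algebra.IsAlgebraic S₀ K := by
    set E : Subalgebra ℂ K := (Subalgebra.algebraicClosure S₀ K).restrictScalars ℂ with hE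
    have hEmem : ∀ z, z ∈ E ↔ IsAlgebraic S₀ z := fun z => Iff.rfl
    have hEinv : ∀ z ∈ E, z⁻¹ ∈ E := fun z hz => (hEmem _).2 ((hEmem z).1 hz).inv
    have hSE : ∀ z ∈ S₀, z ∈ E := fun z hz =>
      (hEmem z).2 (isAlgebraic_algebraMap (R := S₀) (A := K) ⟨z, hz⟩)
    have hx'E : ∀ l, x' l ∈ E := fun l => hSE _ (Algebra.subset_adjoin ⟨l, rfl⟩)
    have hy : y ∈ O := hAO.le (h.B_le (Algebra.subset_adjoin (Or.inr rfl)))
    set yO : O := ⟨y, hy⟩ with hyO
    have hval : ∀ P : Polynomial (MvPolynomial (Fin (n + 1)) ℂ), ((ev x yO P : O) : F) =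
        ev (fun l => (x l : F)) y P := fun P => rcb_ev O.val x yO P
    have hxσ : ∀ l, σ (x l) ∈ E := by
      intro l
      rcases Fin.eq_self_or_eq_succAbove l₀ l with rfl | ⟨j, rfl⟩
      · rw [h0]
        exact E.zero_mem
      · exact hx'E j
    have hyE : σ yO ∈ E := by
      obtain ⟨f, hfm, -, hf0, -⟩ := h.pol
      refine (hEmem _).2 (IsIntegral.isAlgebraic ?_)
      have hmem : ∀ p : MvPolynomial (Fin (n + 1)) ℂ,
          MvPolynomial.aeval (fun l => σ (x l)) p ∈ S₀ := by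
        intro p
        have h2 : MvPolynomial.aeval (fun l => σ (x l)) p ∈
            Algebra.adjoin ℂ (Set.range fun l => σ (x l)) := by
          rw [Algebra.adjoin_range_eq_range_aeval]
          exact ⟨p, rfl⟩
        refine (Algebra.adjoin_le ?_ : Algebra.adjoin ℂ (Set.range fun l => σ (x l)) ≤ S₀) h2
        rintro _ ⟨l, rfl⟩
        change σ (x l) ∈ S₀
        rcases Fin.eq_self_or_eq_succAbove l₀ l with rfl | ⟨j, rfl⟩
        · rw [h0]
          exact S₀.zero_mem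
        · exact Algebra.subset_adjoin ⟨j, rfl⟩
      let φ : MvPolynomial (Fin (n + 1)) ℂ →ₐ[ℂ] S₀ :=
        (MvPolynomial.aeval fun l => σ (x l)).codRestrict S₀ hmem
      refine ⟨f.map φ.toRingHom, hfm.map _, ?_⟩
      rw [Polynomial.eval₂_map]
      have h3 : σ (ev x yO f) = 0 := by
        have : ev x yO f = 0 := Subtype.ext (by rw [hval, hf0]; rfl)
        rw [this, map_zero]
      rw [rcb_ev] at h3
      exact h3
    have hev : ∀ P : Polynomial (MvPolynomial (Fin (n + 1)) ℂ), σ (ev x yO P) ∈ E := by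
      intro P
      rw [rcb_ev]
      exact rcb_ev_mem hxσ hyE P
    have huO : u ∈ O := hAO.le h.u_mem
    have huiO : u⁻¹ ∈ O := hAO.le (h.B_le h.u_inv)
    refine ⟨fun k => (hEmem k).1 ?_⟩
    obtain ⟨q, rfl⟩ := hs k
    obtain ⟨Q, hQ, hP'⟩ := hAO.trans hOP
    obtain ⟨a, b, hb, hab⟩ := (hP' (q : F)).1 q.2
    have hb0 : (b : F) ≠ 0 := fun h0 => hb (by
      have : b = 0 := Subtype.ext h0
      rw [this]; exact Q.zero_mem)
    have hbi : (b : F)⁻¹ ∈ P₀ := (hP' _).2 ⟨1, b, hb, by simp⟩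
    have hbP : (b : F) ∈ P₀ := hle (hAO.le b.2)
    obtain ⟨N, hN⟩ := h.exists_pow a.2
    obtain ⟨M, hM⟩ := h.exists_pow b.2
    obtain ⟨u', hu'⟩ := rcb_adjoin _ _ h.u_inv
    obtain ⟨a', ha'⟩ := rcb_adjoin _ _ hN
    obtain ⟨b', hb'⟩ := rcb_adjoin _ _ hM
    set v : O := ev x yO (b' * u' ^ N) with hv
    set w : O := ev x yO (a' * u' ^ M) with hw
    have hevmul : ∀ (P Q : Polynomial (MvPolynomial (Fin (n + 1)) ℂ)) (i : ℕ),
        ev (fun l => (x l : F)) y (P * Q ^ i) = ev (fun l => (x l : F)) y P *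
          ev (fun l => (x l : F)) y Q ^ i := by
      intro P Q i
      unfold ev
      rw [Polynomial.eval₂_mul, Polynomial.eval₂_pow]
    have hvF : (v : F) = b * u⁻¹ ^ M * u⁻¹ ^ N := by rw [hv, hval, hevmul, hb', hu']
    have hwF : (w : F) = a * u⁻¹ ^ N * u⁻¹ ^ M := by rw [hw, hval, hevmul, ha', hu']
    have hvu : Un P₀ (v : F) := by
      rw [hvF]
      have hu : Un P₀ u := ⟨h.u_ne, hle huO, hle huiO⟩
      exact Un.mul (Un.mul ⟨hb0, hbP, hbi⟩ (hu.inv.pow M)) (hu.inv.pow N)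
    have hqv : q * Subalgebra.inclusion hle v = Subalgebra.inclusion hle w := by
      refine Subtype.ext ?_
      change (q : F) * (v : F) = (w : F)
      rw [hvF, hwF, hab]
      field_simp
    have h4 := congrArg ρ hqv
    rw [map_mul] at h4
    have h5 : ρ (Subalgebra.inclusion hle v) ≠ 0 := fun h6 => ((hρ _).1 h6) hvu
    have h6 : ρ q = ρ (Subalgebra.inclusion hle w) * (ρ (Subalgebra.inclusion hle v))⁻¹ := by
      rw [← h4, mul_assoc, mul_inv_cancel₀ h5, mul_one]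
    rw [h6]
    exact E.mul_mem (hev _) (hEinv _ (hev _))
  exact (Algebra.IsAlgebraic.isTranscendenceBasis_of_le_trdeg_of_finite ℂ x'
    (by rw [hdK]; simp)).1

end

variable {F : Type} [Field F] [Algebra ℂ F] {Y : Set (Subalgebra ℂ F)} {P₀ : Subalgebra ℂ F}
  {K : Type} [Field K] [Algebra ℂ K] {ρ : P₀ →ₐ[ℂ] K} {n : ℕ} {J : Type}
  {B : J → Subalgebra ℂ F → Fˣ} {Δ : Fin (n + 1) → Derivation ℂ F F}
  {κ : Subalgebra ℂ F → Fˣ}

/-- The differentials of `rs ρ O = O / (x l₀)`.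

PROOF. `x l₀ ∈ O` is not a unit of `P₀`; the ideal of the elements of `O` which are not units of `P₀` is
generated by `x l₀`: `O / (x l₀)` is formally smooth over `ℂ` (Jacobian criterion: the
conormal sequence is split by `dx l₀`), a noetherian local ring which is a domain, and
both ideals are primes of height one. The differentials of the quotient are
`Ω[O/ℂ] / (x l₀, dx l₀)`. -/
theorem rs_basis (hY : IsProj Y) (hP₀ : P₀ ∈ Y) (hp : PrimDiv P₀)
    (hs : Function.Surjective ρ) (hρ : ∀ x : P₀, ρ x = 0 ↔ ¬ Un P₀ (x : F))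
    {O : Subalgebra ℂ F} (hO : O ∈ Y) (hle : O ≤ P₀) (hsm : Algebra.FormallySmooth ℂ O)
    {x : Fin (n + 1) → O}
    (hx : ∃ b : Module.Basis (Fin (n + 1)) O (Ω[O⁄ℂ]), ∀ l, b l = KaehlerDifferential.D ℂ O (x l))
    {l₀ : Fin (n + 1)} (hl₀ : ¬ Un P₀ (x l₀ : F)) :
    Algebra.FormallySmooth ℂ (rs ρ O) ∧ ∃ x' : Fin n → rs ρ O,
      (∀ l, ∀ y : P₀, (y : F) = x (l₀.succAbove l) → (x' l : K) = ρ y) ∧
      ∃ b : Module.Basis (Fin n) (rs ρ O) (Ω[(rs ρ O)⁄ℂ]),
        ∀ l, b l = KaehlerDifferential.D ℂ (rs ρ O) (x' l) := by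
  classical
  obtain ⟨b, hb⟩ := hx
  obtain ⟨A, hA, hfr, hl, -⟩ := hY.exists_chart hO
  obtain ⟨h, hhA, -, hhO, y, u, hch⟩ := exists_isCh hA hfr hl hsm x b hb
  set A' := Algebra.adjoin ℂ ((A : Set F) ∪ {h⁻¹}) with hA'
  have hAA' : A ≤ A' := fun a ha => Algebra.subset_adjoin (Or.inl ha)
  have hA'O : A' ≤ O := by
    refine Algebra.adjoin_le ?_
    rintro z (hz | hz)
    · exact hl.le hz
    · rw [Set.mem_singleton_iff] at hz
      rw [hz]
      exact hhO
  have hl' : LocAt A' O := hl.of_le hAA' hA'O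
  have hOP : LocAt O P₀ := hY.locAt_of_le hO hP₀ hle
  have hPl : IsLocalRing P₀ := hY.isLocalRing hP₀
  set σ : O →ₐ[ℂ] K := ρ.comp (Subalgebra.inclusion hle) with hσ
  have hmem : ∀ z : O, σ z ∈ rs ρ O := fun z =>
    mem_rs.2 ⟨Subalgebra.inclusion hle z, z.2, rfl⟩
  have hun : ∀ z w : O, σ z * σ w = 1 → Un O (z : F) := by
    intro z w hzw
    refine (un_rs hY hPl hρ hO hle (x := Subalgebra.inclusion hle z) z.2).1
      ⟨left_ne_zero_of_mul_eq_one hzw, hmem z, ?_⟩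
    change (σ z)⁻¹ ∈ rs ρ O
    rw [inv_eq_of_mul_eq_one_right hzw]
    exact hmem w
  have h0 : σ (x l₀) = 0 := (hρ _).2 hl₀
  have hind := rcb_ind hp hs hρ hch hl' hle hOP hl₀
  let φ : O →ₐ[ℂ] rs ρ O := σ.codRestrict (rs ρ O) hmem
  have hφ : Function.Surjective φ := by
    rintro ⟨z, hz⟩
    obtain ⟨w, hw, rfl⟩ := mem_rs.1 hz
    exact ⟨⟨w, hw⟩, rfl⟩
  obtain ⟨h1, b', hb'⟩ := rcb_sm φ hφ b hb (l₀ := l₀) (Subtype.ext h0) (fun z hz =>
    rcb_key hch hl' σ hun h0 hind z (congrArg Subtype.val hz)) hsm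
  refine ⟨h1, fun l => φ (x (l₀.succAbove l)), fun l z hz => ?_, b', hb'⟩
  change ρ (Subalgebra.inclusion hle (x (l₀.succAbove l))) = ρ z
  congr 1
  exact Subtype.ext hz.symm

end Pool.Agent.KM
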