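import Pool.Agent.Lib.MP_732f67_ag.N.ResB
import Pool.Agent.Lib.MP_732f67_ag.N.LogB
import Pool.Agent.Lib.MP_732f67_ag.N.RcB

/-!
Part N: adjunction. A boundary divisor of a smooth variety with normal crossings is again one.
-/

namespace Pool.Agent.KM

open scoped KaehlerDifferential

variable {F : Type} [Field F] [Algebra ℂ F] {Y : Set (Subalgebra ℂ F)} {P₀ : Subalgebra ℂ F}
  {K : Type} [Field K] [Algebra ℂ K] {ρ : P₀ →ₐ[ℂ] K} {n : ℕ} {J : Type}
  {B : J → Subalgebra ℂ F → Fˣ} {Δ : Fin (n + 1) → Derivation ℂ F F}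
  {κ : Subalgebra ℂ F → Fˣ}

/-- the restriction of a derivation to a subalgebra which it preserves -/
def rcjD (P₀ : Subalgebra ℂ F) (δ : Derivation ℂ F F) (hδ : ∀ x ∈ P₀, δ x ∈ P₀) :
    Derivation ℂ P₀ P₀ :=
  Derivation.mk'
    { toFun := fun x => ⟨δ x, hδ _ x.2⟩
      map_add' := fun a b => Subtype.ext (map_add δ (a : F) b)
      map_smul' := fun c a => Subtype.ext (δ.map_smul c (a : F)) }
    fun a b => Subtype.ext (δ.leibniz (a : F) b)

theorem rcj_tb (hd : Algebra.trdeg ℂ F = (n + 1 : ℕ)) (hp : PrimDiv P₀)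
    (hs : Function.Surjective ρ) (hρ : ∀ x : P₀, ρ x = 0 ↔ ¬ Un P₀ (x : F)) {t : Fin n → P₀}
    (ht : RI P₀ fun l => (t l : F)) : IsTranscendenceBasis ℂ fun l => ρ (t l) := by
  have h1 : AlgebraicIndependent ℂ fun l => ρ (t l) := by
    rw [algebraicIndependent_iff]
    intro p hp
    by_contra h0
    have h2 := ht p h0
    have h3 : ((MvPolynomial.aeval t p : P₀) : F) = MvPolynomial.aeval (fun l => (t l : F)) p :=
      DFunLike.congr_fun (MvPolynomial.comp_aeval t P₀.val) p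
    have h4 : ρ (MvPolynomial.aeval t p) = MvPolynomial.aeval (fun l => ρ (t l)) p :=
      DFunLike.congr_fun (MvPolynomial.comp_aeval t ρ) p
    rw [← h4, hρ, h3] at hp
    exact hp h2
  refine h1.isTranscendenceBasis_of_trdeg_le_of_finite ?_
  rw [rs_trdeg hd hp hs hρ]
  simp

/-- Residues of Jacobians. `π`, `t` are elements of `P₀`, `π` a uniformizer and the residues of the
`t l` algebraically independent.

PROOF. `δ` the frame dual to `(π, t)` (`dual_frame`), `δ k`, `k ≥ 1`, preserves `P₀` and `(π)` (as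
`δ k π = 0`) and induces on `K` the frame dual to the residues of `t`. For `y = (y 0, y')` with
`y 0 = u π`: `nj δ y ≡ u * det (δ k (y' l))` mod `π`. -/
theorem rs_jac (hd : Algebra.trdeg ℂ F = (n + 1 : ℕ)) (hp : PrimDiv P₀)
    (hs : Function.Surjective ρ) (hρ : ∀ x : P₀, ρ x = 0 ↔ ¬ Un P₀ (x : F))
    (Δ : Fin (n + 1) → Derivation ℂ F F) {Δ₀ : Fin n → Derivation ℂ K K}
    {π : F} (hπ : Unif P₀ π) {t : Fin n → P₀} (ht : RI P₀ fun l => (t l : F)) {y : Fin n → P₀}
    {u : P₀} :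
    ∃ q : P₀, nj Δ (Fin.cons (u * π) fun l => (y l : F)) =
        q * nj Δ (Fin.cons π fun l => (t l : F)) ∧
      ρ q * nj Δ₀ (fun l => ρ (t l)) = ρ u * nj Δ₀ fun l => ρ (y l) := by
  obtain ⟨δ, hδ, hδ'⟩ := dual_frame hd hp hπ ht
  have htb := tb_of_ri hd hπ ht
  have hπ0 := hπ.ne_zero
  set w : Fin (n + 1) → P₀ := Fin.cons (u * ⟨π, hπ.1⟩) y with hw
  have hwF : (fun l => (w l : F)) = Fin.cons ((u : F) * π) fun l => (y l : F) := by
    funext l
    refine Fin.cases ?_ (fun j => ?_) l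
    · rfl
    · rfl
  set D : Fin (n + 1) → Derivation ℂ P₀ P₀ := fun k => rcjD P₀ (δ k) (hδ k) with hD
  have hDF : ∀ k (a : P₀), ((D k a : P₀) : F) = δ k a := fun k a => rfl
  set q : P₀ := (Matrix.of fun k l => D k (w l)).det with hq
  have hqF : (q : F) = nj δ fun l => (w l : F) := by
    unfold nj
    exact RingHom.map_det (algebraMap P₀ F) _
  refine ⟨q, ?_, ?_⟩
  · rw [nj_chain htb hδ' Δ, ← hwF, ← hqF, mul_comm]
  have hπP : ρ ⟨π, hπ.1⟩ = 0 := (hρ _).2 fun h => hπ.2.1 h.2.2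
  -- the kernel of `ρ`
  have hker : ∀ a : P₀, ρ a = 0 → ∃ b : P₀, a = ⟨π, hπ.1⟩ * b := by
    intro a ha
    have h1 := (hρ a).1 ha
    by_cases ha0 : (a : F) = 0
    · exact ⟨0, by rw [mul_zero]; exact Subtype.ext ha0⟩
    · have h2 := (hπ.2.2 a a.2).resolve_left fun h => h1 ⟨ha0, a.2, h⟩
      refine ⟨⟨_, h2⟩, Subtype.ext ?_⟩
      change (a : F) = π * ((a : F) / π)
      rw [mul_div_cancel₀ _ hπ0]
  have hDπ : ∀ k, D k ⟨π, hπ.1⟩ = if k = 0 then 1 else 0 := by
    intro k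
    refine Subtype.ext ?_
    rw [hDF]
    have h1 := hδ' k 0
    rw [Fin.cons_zero] at h1
    change δ k π = _
    rw [h1]
    split_ifs <;> rfl
  have hDk : ∀ (k : Fin n) (a : P₀), ρ a = 0 → ρ (D k.succ a) = 0 := by
    intro k a ha
    obtain ⟨b, rfl⟩ := hker a ha
    rw [Derivation.leibniz, hDπ, if_neg (Fin.succ_ne_zero k), smul_zero, add_zero, smul_eq_mul,
      map_mul, hπP, zero_mul]
  set d : Fin n → Derivation ℂ K K := fun k => Derivation.liftOfSurjective hs (hDk k) with hd'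
  have hdρ : ∀ k (a : P₀), d k (ρ a) = ρ (D k.succ a) := fun k a =>
    Derivation.liftOfSurjective_apply hs (hDk k) a
  have hdt : ∀ k l, d k (ρ (t l)) = if k = l then 1 else 0 := by
    intro k l
    rw [hdρ]
    have h1 := hδ' k.succ l.succ
    rw [Fin.cons_succ] at h1
    have h2 : D k.succ (t l) = if k = l then 1 else 0 := by
      refine Subtype.ext ?_
      rw [hDF, h1]
      simp only [Fin.succ_inj]
      split_ifs <;> rfl
    rw [h2]
    split_ifs
    · rw [map_one]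
    · rw [map_zero]
  have hch := nj_chain (rcj_tb hd hp hs hρ ht) hdt Δ₀ fun l => ρ (y l)
  have hρq : ρ q = ρ u * nj d fun l => ρ (y l) := by
    rw [hq]
    have h1 : ρ (Matrix.of fun k l => D k (w l)).det =
        (Matrix.of fun k l => ρ (D k (w l))).det := RingHom.map_det ρ.toRingHom _
    rw [h1, Matrix.det_succ_column_zero]
    have h2 : ∀ k, ρ (D k (w 0)) = if k = 0 then ρ u else 0 := by
      intro k
      have h3 : w 0 = u * ⟨π, hπ.1⟩ := rfl
      rw [h3, Derivation.leibniz, hDπ, map_add, smul_eq_mul, smul_eq_mul, map_mul, map_mul, hπP,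
        zero_mul, add_zero]
      split_ifs
      · rw [map_one, mul_one]
      · rw [map_zero, mul_zero]
    rw [Fin.sum_univ_succ]
    simp only [Matrix.of_apply, h2, if_true, Fin.succ_ne_zero, if_false, mul_zero, zero_mul,
      Finset.sum_const_zero, add_zero]
    unfold nj
    simp only [Fin.val_zero, pow_zero, one_mul]
    congr 2
    ext k l
    simp only [Matrix.submatrix_apply, Matrix.of_apply, hdρ]
    rfl
  rw [hρq, hch]
  ring

end Pool.Agent.KM
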