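import Pool.Agent.Lib.MP_732f67_ag.N.ResB
import Pool.Agent.Lib.MP_732f67_ag.N.LogB
import Pool.Agent.Lib.MP_732f67_ag.N.RcB
import Pool.Agent.Lib.MP_732f67_ag.N.RcJ

/-!
Part N: adjunction. A boundary divisor of a smooth variety with normal crossings is again one.
-/

namespace Pool.Agent.KM

open scoped KaehlerDifferential

variable {F : Type} [Field F] [Algebra ℂ F] {Y : Set (Subalgebra ℂ F)} {P₀ : Subalgebra ℂ F}
  {K : Type} [Field K] [Algebra ℂ K] {ρ : P₀ →ₐ[ℂ] K} {n : ℕ} {J : Type}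
  {B : J → Subalgebra ℂ F → Fˣ} {Δ : Fin (n + 1) → Derivation ℂ F F}
  {κ : Subalgebra ℂ F → Fˣ}

/-- the first coordinate is moved to the front -/
theorem rca_reorder {O : Subalgebra ℂ F} {x : Fin (n + 1) → O}
    (hx : ∃ b : Module.Basis (Fin (n + 1)) O (Ω[O⁄ℂ]), ∀ l, b l = KaehlerDifferential.D ℂ O (x l))
    (l₀ : Fin (n + 1)) :
    ∃ b : Module.Basis (Fin (n + 1)) O (Ω[O⁄ℂ]), ∀ l, b l = KaehlerDifferential.D ℂ O
      ((Fin.cons (x l₀) fun l => x (l₀.succAbove l) : Fin (n + 1) → O) l) := by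
  classical
  obtain ⟨b, hb⟩ := hx
  have hinj : Function.Injective
      (Fin.cons l₀ fun l => l₀.succAbove l : Fin (n + 1) → Fin (n + 1)) := by
    intro a a'
    refine Fin.cases ?_ (fun a => ?_) a <;> refine Fin.cases ?_ (fun a' => ?_) a'
    · exact fun _ => rfl
    · intro h
      exact absurd h (Fin.succAbove_ne l₀ a').symm
    · intro h
      exact absurd h (Fin.succAbove_ne l₀ a)
    · intro h
      exact congrArg Fin.succ (Fin.succAbove_right_injective h)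
  let σ : Fin (n + 1) ≃ Fin (n + 1) := Equiv.ofBijective _ (Finite.injective_iff_bijective.1 hinj)
  refine ⟨b.reindex σ.symm, fun l => ?_⟩
  rw [Module.Basis.reindex_apply, hb]
  congr 1
  refine Fin.cases ?_ (fun j => ?_) l
  · rfl
  · rfl

/-- the conditions for one of the divisors -/
theorem rca_sub (h : Snc (n + 1) Y B Δ κ) (j₀ : J) : Snc (n + 1) Y (fun _ : Unit => B j₀) Δ κ where
  proj := h.proj
  dim := h.dim
  frame := h.frame
  smooth := h.smooth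
  car := fun _ => h.car j₀
  kcar := h.kcar
  snc := fun O hO => by
    obtain ⟨x, co, h1, h2, h3, h4⟩ := h.snc O hO
    exact ⟨x, fun _ => co j₀, h1, fun _ _ _ _ _ => rfl, fun _ => h3 j₀, h4⟩

theorem rca_pt (h : Snc (n + 1) Y B Δ κ) {j₀ : J} (hP₀ : P₀ ∈ Y) (hp : PrimDiv P₀)
    (hj₀ : ¬ Un P₀ (B j₀ P₀)) (hs : Function.Surjective ρ)
    (hρ : ∀ x : P₀, ρ x = 0 ↔ ¬ Un P₀ (x : F)) {Δ₀ : Fin n → Derivation ℂ K K}
    (hΔ₀ : LinearIndependent K Δ₀) {π : F} (hπ : Unif P₀ π) {t : Fin n → P₀}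
    (ht : RI P₀ fun l => (t l : F)) {O : Subalgebra ℂ F} (hO : O ∈ Y) (hle : O ≤ P₀) :
    Algebra.FormallySmooth ℂ (rs ρ O) ∧ ∃ (x : Fin (n + 1) → O) (co : J → Option (Fin (n + 1)))
      (l₀ : Fin (n + 1)) (x' : Fin n → rs ρ O),
      (∀ j j' l, co j = some l → co j' = some l → j = j') ∧
      (∀ j, Un O ((B j O : F) / eps (fun i => (x i : F)) (co j))) ∧ co j₀ = some l₀ ∧
      ¬ Un P₀ (x l₀ : F) ∧
      (∀ l, ∀ y : P₀, (y : F) = x (l₀.succAbove l) → (x' l : K) = ρ y) ∧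
      (∃ b : Module.Basis (Fin n) (rs ρ O) (Ω[(rs ρ O)⁄ℂ]),
        ∀ l, b l = KaehlerDifferential.D ℂ (rs ρ O) (x' l)) ∧
      (nj Δ₀ fun l => (x' l : K)) ≠ 0 ∧
      Un P₀ (κ O * B j₀ O * (nj Δ (Fin.cons π fun l => (t l : F)) / π)) ∧
      ∀ z : P₀, (z : F) = κ O * B j₀ O * (nj Δ (Fin.cons π fun l => (t l : F)) / π) →
        Un (rs ρ O) (nj Δ₀ (fun l => ρ (t l)) / (ρ z * nj Δ₀ fun l => (x' l : K))) := by
  classical
  have hY := h.proj
  have hd : Algebra.trdeg ℂ F = (n + 1 : ℕ) := h.dim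
  have hPl : IsLocalRing P₀ := hY.isLocalRing hP₀
  have hπ0 := hπ.ne_zero
  obtain ⟨x, co, hx, hco, hB, hu⟩ := h.snc O hO
  have hcar := (h.car j₀).un_of_le hO hP₀ hle
  rw [Units.val_div_eq_div_val] at hcar
  -- the coordinate of `B j₀`
  obtain ⟨l₀, hl₀⟩ : ∃ l₀, co j₀ = some l₀ := by
    rcases hc : co j₀ with - | l
    · exfalso
      have h1 := hB j₀
      rw [hc] at h1
      have h2 : (B j₀ O : F) / eps (fun i => (x i : F)) none = B j₀ O := div_one _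
      rw [h2] at h1
      have h3 := (h1.mono hle).div hcar
      have h4 : (B j₀ O : F) / ((B j₀ O : F) / B j₀ P₀) = B j₀ P₀ := by
        have := (B j₀ O).ne_zero
        have := (B j₀ P₀).ne_zero
        field_simp
      rw [h4] at h3
      exact hj₀ h3
    · exact ⟨l, rfl⟩
  have hBx : Un O ((B j₀ O : F) / (x l₀ : F)) := by
    have h1 := hB j₀
    rw [hl₀] at h1
    exact h1
  have hx0 : (x l₀ : F) ≠ 0 := by
    intro h0
    rw [h0, div_zero] at hBx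
    exact hBx.1 rfl
  have hUB : Unif P₀ (B j₀ P₀) := ((rca_sub h j₀).prim hP₀ hp).1 () hj₀
  have hxπ : Un P₀ ((x l₀ : F) / π) := by
    have h1 : (x l₀ : F) / π = (B j₀ P₀ : F) / π * ((B j₀ O : F) / B j₀ P₀) *
        ((B j₀ O : F) / (x l₀ : F))⁻¹ := by
      have := (B j₀ O).ne_zero
      have := (B j₀ P₀).ne_zero
      field_simp
    rw [h1]
    exact (Un.mul (hUB.un_div hπ) hcar).mul (hBx.mono hle).inv
  have hxl₀ : ¬ Un P₀ (x l₀ : F) := by
    intro h1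
    have h2 := hxπ.div h1
    have h3 : (x l₀ : F) / π / (x l₀ : F) = π⁻¹ := by field_simp
    rw [h3] at h2
    exact hπ.2.1 h2.2.1
  obtain ⟨hsm, x', hx', b', hb'⟩ := rs_basis hY hP₀ hp hs hρ hO hle (h.smooth O hO) hx hxl₀
  set y : Fin n → P₀ := fun l => Subalgebra.inclusion hle (x (l₀.succAbove l)) with hy
  have hx'y : (fun l => (x' l : K)) = fun l => ρ (y l) := by
    funext l
    exact hx' l (y l) rfl
  have hne : (nj Δ₀ fun l => (x' l : K)) ≠ 0 := by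
    refine nj_ne ?_ hΔ₀
    exact tb_of_basis ((rs_proj hY hP₀ hs hρ).fracEq ⟨O, hO, hle, rfl⟩) x' b' hb'
  obtain ⟨v₃, hv₃, hv₃'⟩ := nj_un (Δ := Δ) hx (rca_reorder hx l₀)
  obtain ⟨q, hq, hq'⟩ := rs_jac hd hp hs hρ Δ (Δ₀ := Δ₀) hπ ht (y := y)
    (u := ⟨(x l₀ : F) / π, hxπ.2.1⟩)
  have hcons : (fun l => (((Fin.cons (x l₀) fun l => x (l₀.succAbove l) : Fin (n + 1) → O) l : O) : F))
      = Fin.cons ((x l₀ : F) / π * π) fun l => (y l : F) := by
    funext l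
    refine Fin.cases ?_ (fun j => ?_) l
    · change (x l₀ : F) = (x l₀ : F) / π * π
      rw [div_mul_cancel₀ _ hπ0]
    · rfl
  rw [hcons] at hv₃'
  change nj Δ (Fin.cons ((x l₀ : F) / π * π) fun l => (y l : F)) = _ at hq
  rw [hq] at hv₃'
  set w := nj Δ (Fin.cons π fun l => (t l : F)) with hw
  set v₁ := (κ O : F) * nj Δ (fun i => (x i : F)) with hv₁
  set v₂ := (B j₀ O : F) / (x l₀ : F) with hv₂
  have hw0 : w ≠ 0 := nj_ne (tb_of_ri hd hπ ht) h.frame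
  have hρu : ρ ⟨(x l₀ : F) / π, hxπ.2.1⟩ ≠ 0 := fun h1 => ((hρ _).1 h1) hxπ
  have hρq : ρ q ≠ 0 := by
    intro h1
    rw [h1, zero_mul, ← hx'y] at hq'
    exact mul_ne_zero hρu hne hq'.symm
  have hqu : Un P₀ (q : F) := by
    by_contra h1
    exact hρq ((hρ q).2 h1)
  have hq0 : (q : F) ≠ 0 := hqu.1
  have hv : Un O (v₁ * v₂ * v₃⁻¹) := (Un.mul hu hBx).mul hv₃.inv
  -- the product with `q`
  have hz : κ O * B j₀ O * (w / π) * (q : F) = v₁ * v₂ * v₃⁻¹ * ((x l₀ : F) / π) := by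
    have h1 : (nj Δ fun i => (x i : F)) ≠ 0 := by
      rw [hv₃']
      exact mul_ne_zero hv₃.1 (mul_ne_zero hq0 hw0)
    have h2 := hv₃.1
    rw [hv₁, hv₂, hv₃']
    field_simp
  refine ⟨hsm, x, co, l₀, x', hco, hB, hl₀, hxl₀, hx', ⟨b', hb'⟩, hne, ?_, ?_⟩
  · have h1 : κ O * B j₀ O * (w / π) = v₁ * v₂ * v₃⁻¹ * ((x l₀ : F) / π) / (q : F) := by
      rw [← hz, mul_div_cancel_right₀ _ hq0]
    rw [h1]
    exact ((hv.mono hle).mul hxπ).div hqu
  · intro z hzz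
    have h1 : z * q = ⟨v₁ * v₂ * v₃⁻¹, hle hv.2.1⟩ * ⟨(x l₀ : F) / π, hxπ.2.1⟩ := by
      refine Subtype.ext ?_
      change (z : F) * (q : F) = v₁ * v₂ * v₃⁻¹ * ((x l₀ : F) / π)
      rw [hzz, hz]
    have h2 := congrArg ρ h1
    rw [map_mul, map_mul] at h2
    set ρv := ρ ⟨v₁ * v₂ * v₃⁻¹, hle hv.2.1⟩ with hρv
    have h3 : Un (rs ρ O) ρv := (un_rs hY hPl hρ hO hle hv.2.1).2 hv
    have hz0 : ρ z ≠ 0 := by
      intro h4
      rw [h4, zero_mul] at h2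
      exact mul_ne_zero h3.1 hρu h2.symm
    have h4 : nj Δ₀ (fun l => ρ (t l)) / (ρ z * nj Δ₀ fun l => (x' l : K)) = ρv⁻¹ := by
      rw [hx'y] at hne ⊢
      have h5 := h3.1
      rw [div_eq_iff (mul_ne_zero hz0 hne)]
      have h6 : ρv * nj Δ₀ (fun l => ρ (t l)) = ρ z * nj Δ₀ fun l => ρ (y l) := by
        have h7 : ρ q * ρ ⟨(x l₀ : F) / π, hxπ.2.1⟩ *
            (ρv * nj Δ₀ (fun l => ρ (t l))) = ρ q * ρ ⟨(x l₀ : F) / π, hxπ.2.1⟩ *
            (ρ z * nj Δ₀ fun l => ρ (y l)) := by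
          linear_combination ρv * ρ ⟨(x l₀ : F) / π, hxπ.2.1⟩ * hq' -
            (ρ ⟨(x l₀ : F) / π, hxπ.2.1⟩ * nj Δ₀ fun l => ρ (y l)) * h2
        exact mul_left_cancel₀ (mul_ne_zero hρq hρu) h7
      rw [← h6]
      field_simp
    rw [h4]
    exact h3.inv

/-- Adjunction. `B₀` are the restrictions of the `B j` which do not contain `P₀`.

PROOF. `κ₀ (rs ρ O) = (nj Δ₀ x')⁻¹`, `x'` as in `rs_basis` for the coordinates `x` of `O` in `snc`;
`l₀ = co j₀`. Normal crossings: `rs_basis`; `B j O` is a unit or `x l` times a unit, `l ≠ l₀` for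
`j ≠ j₀`. `u = nj Δ (π, t) / π`, `c = nj Δ₀ (ρ t)`, for a fixed pair `π`, `t`: `rs_jac` and
`κ O * nj Δ x` a unit, `B j₀ O = x l₀` times a unit. -/
theorem adj (h : Snc (n + 1) Y B Δ κ) {j₀ : J} (hP₀ : P₀ ∈ Y) (hp : PrimDiv P₀)
    (hj₀ : ¬ Un P₀ (B j₀ P₀)) (hs : Function.Surjective ρ)
    (hρ : ∀ x : P₀, ρ x = 0 ↔ ¬ Un P₀ (x : F)) {Δ₀ : Fin n → Derivation ℂ K K}
    (hΔ₀ : LinearIndependent K Δ₀) {J₀ : Type} {e : J₀ → J} (he : Function.Injective e)
    (hj : ∀ j, Un P₀ (B (e j) P₀)) {B₀ : J₀ → Subalgebra ℂ K → Kˣ}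
    (hB₀ : ∀ j, RD ρ Y (B (e j)) (B₀ j)) :
    ∃ κ₀ : Subalgebra ℂ K → Kˣ, Snc n (rsY ρ Y) B₀ Δ₀ κ₀ ∧ ∃ (u : Fˣ) (c : Kˣ),
      RD ρ Y (κ * B j₀ * fun _ => u) (κ₀ * fun _ => c) := by
  classical
  have hY := h.proj
  have hd : Algebra.trdeg ℂ F = (n + 1 : ℕ) := h.dim
  have hPl : IsLocalRing P₀ := hY.isLocalRing hP₀
  obtain ⟨π, hπ⟩ := hp.exists_unif
  obtain ⟨t', ht'⟩ := exists_ri hd hp
  set t : Fin n → P₀ := fun l => ⟨t' l, ht'.mem l⟩ with ht0
  have ht : RI P₀ fun l => (t l : F) := ht'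
  have hw0 : nj Δ (Fin.cons π fun l => (t l : F)) ≠ 0 := nj_ne (tb_of_ri hd hπ ht) h.frame
  have hc0 : nj Δ₀ (fun l => ρ (t l)) ≠ 0 := nj_ne (rcj_tb hd hp hs hρ ht) hΔ₀
  -- the canonical divisor
  set good : (Q : Subalgebra ℂ K) → (Fin n → Q) → Prop := fun Q x' =>
    (∃ b : Module.Basis (Fin n) Q (Ω[Q⁄ℂ]), ∀ l, b l = KaehlerDifferential.D ℂ Q (x' l)) ∧
      (nj Δ₀ fun l => (x' l : K)) ≠ 0 with hgood
  obtain ⟨κ₀, hκ₀⟩ : ∃ κ₀ : Subalgebra ℂ K → Kˣ, ∀ (Q : Subalgebra ℂ K) (x' : Fin n → Q), good Q x' →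
      Un Q ((κ₀ Q : K) * nj Δ₀ fun l => (x' l : K)) := by
    refine ⟨fun Q => if hQ : ∃ x', good Q x' then (Units.mk0 _ hQ.choose_spec.2)⁻¹ else 1,
      fun Q x' hx' => ?_⟩
    have hQ : ∃ x', good Q x' := ⟨x', hx'⟩
    beta_reduce
    rw [dif_pos hQ]
    obtain ⟨v, hv, hv'⟩ := nj_un (Δ := Δ₀) hx'.1 hQ.choose_spec.1
    rw [hv']
    have h1 : (((Units.mk0 _ hQ.choose_spec.2)⁻¹ : Kˣ) : K) *
        (v * nj Δ₀ fun l => ((hQ.choose l : Q) : K)) = v := by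
      rw [Units.val_inv_eq_inv_val, Units.val_mk0]
      have := hQ.choose_spec.2
      field_simp
    rw [h1]
    exact hv
  set u : Fˣ := Units.mk0 (nj Δ (Fin.cons π fun l => (t l : F)) / π)
    (div_ne_zero hw0 hπ.ne_zero) with hu
  set c : Kˣ := Units.mk0 _ hc0 with hc
  have hval : ∀ O, (((κ * B j₀ * fun _ => u) : Subalgebra ℂ F → Fˣ) O : F) =
      κ O * B j₀ O * (nj Δ (Fin.cons π fun l => (t l : F)) / π) := fun O => rfl
  have hRD : RD ρ Y (κ * B j₀ * fun _ => u) (κ₀ * fun _ => c) := by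
    refine ⟨?_, fun O hO hle z hz => ?_⟩
    · obtain ⟨-, x, co, l₀, x', -, -, -, -, -, -, -, h8, -⟩ :=
        rca_pt h hP₀ hp hj₀ hs hρ hΔ₀ hπ ht hP₀ le_rfl
      exact h8
    · obtain ⟨-, x, co, l₀, x', -, -, -, -, -, h6, h7, h8, h9⟩ :=
        rca_pt h hP₀ hp hj₀ hs hρ hΔ₀ hπ ht hO hle
      have h10 := h9 z hz
      have h11 := hκ₀ (rs ρ O) x' ⟨h6, h7⟩
      have hz0 : ρ z ≠ 0 := by
        intro h12
        rw [h12, zero_mul, div_zero] at h10
        exact h10.1 rfl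
      have h12 : (((κ₀ * fun _ => c) : Subalgebra ℂ K → Kˣ) (rs ρ O) : K) / ρ z =
          (κ₀ (rs ρ O) : K) * (nj Δ₀ fun l => (x' l : K)) *
            (nj Δ₀ (fun l => ρ (t l)) / (ρ z * nj Δ₀ fun l => (x' l : K))) := by
        have h13 : (((κ₀ * fun _ => c) : Subalgebra ℂ K → Kˣ) (rs ρ O) : K) =
            (κ₀ (rs ρ O) : K) * nj Δ₀ (fun l => ρ (t l)) := rfl
        rw [h13]
        field_simp
      rw [h12]
      exact h11.mul h10
  refine ⟨κ₀, ?_, u, c, hRD⟩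
  have hcar := car_rd hY hP₀ hs hρ (car_mul (car_mul h.kcar (h.car j₀)) (car_const u)) hRD
  refine
    { proj := rs_proj hY hP₀ hs hρ
      dim := rs_trdeg hd hp hs hρ
      frame := hΔ₀
      smooth := ?_
      car := fun j => car_rd hY hP₀ hs hρ (h.car (e j)) (hB₀ j)
      kcar := ?_
      snc := ?_ }
  · rintro _ ⟨O, hO, hle, rfl⟩
    exact (rca_pt h hP₀ hp hj₀ hs hρ hΔ₀ hπ ht hO hle).1
  · have h1 := car_mul hcar (car_inv (car_const (Y := rsY ρ Y) c))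
    have h2 : ((κ₀ * fun _ => c) * (fun _ => c)⁻¹ : Subalgebra ℂ K → Kˣ) = κ₀ := by
      funext Q
      exact mul_inv_cancel_right (κ₀ Q) c
    rwa [h2] at h1
  · rintro _ ⟨O, hO, hle, rfl⟩
    obtain ⟨-, x, co, l₀, x', hco, hB, hl₀, hxl₀, hx', hb', hne, -, -⟩ :=
      rca_pt h hP₀ hp hj₀ hs hρ hΔ₀ hπ ht hO hle
    -- the divisors do not contain `P₀`
    have hcar' : ∀ j, Un P₀ (B (e j) O : F) := by
      intro j
      have h1 := (h.car (e j)).un_of_le hO hP₀ hle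
      have h2 := h1.mul (hj j)
      rwa [← Units.val_mul, div_mul_cancel] at h2
    have hnl : ∀ j, co (e j) ≠ some l₀ := by
      intro j hjl
      have h1 := hB (e j)
      rw [hjl] at h1
      have h2 : Un O ((B (e j) O : F) / (x l₀ : F)) := h1
      have hx0 : (x l₀ : F) ≠ 0 := by
        intro h0
        rw [h0, div_zero] at h2
        exact h2.1 rfl
      have h3 := (hcar' j).div (h2.mono hle)
      have h4 : (B (e j) O : F) / ((B (e j) O : F) / (x l₀ : F)) = x l₀ := by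
        have := (B (e j) O).ne_zero
        field_simp
      rw [h4] at h3
      exact hxl₀ h3
    have hex : ∀ j, ∃ o : Option (Fin n), (o = none ∧ co (e j) = none) ∨
        ∃ l, o = some l ∧ co (e j) = some (l₀.succAbove l) := by
      intro j
      rcases hcj : co (e j) with - | l
      · exact ⟨none, Or.inl ⟨rfl, rfl⟩⟩
      · rcases Fin.eq_self_or_eq_succAbove l₀ l with rfl | ⟨i, rfl⟩
        · exact absurd hcj (hnl j)
        · exact ⟨some i, Or.inr ⟨i, rfl, rfl⟩⟩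
    choose co' hco' using hex
    refine ⟨x', co', hb', ?_, ?_, hκ₀ _ x' ⟨hb', hne⟩⟩
    · intro j j' l h1 h2
      rcases hco' j with ⟨h3, -⟩ | ⟨i, h3, h4⟩
      · rw [h3] at h1
        exact absurd h1 (by simp)
      rcases hco' j' with ⟨h5, -⟩ | ⟨i', h5, h6⟩
      · rw [h5] at h2
        exact absurd h2 (by simp)
      rw [h3, Option.some_inj] at h1
      rw [h5, Option.some_inj] at h2
      subst h1 h2
      exact he (hco _ _ _ h4 h6)
    · intro j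
      have h1 := hcar' j
      have h2 := (hB₀ j).2 O hO hle ⟨_, h1.2.1⟩ rfl
      have hz0 : ρ ⟨_, h1.2.1⟩ ≠ 0 := fun h3 => ((hρ _).1 h3) h1
      have h3 : Un (rs ρ O) (ρ ⟨(B (e j) O : F), h1.2.1⟩ / eps (fun i => (x' i : K)) (co' j)) := by
        have h4 := hB (e j)
        rcases hco' j with ⟨h5, h6⟩ | ⟨i, h5, h6⟩
        · rw [h5]
          rw [h6] at h4
          have h7 : (B (e j) O : F) / eps (fun i => (x i : F)) none = B (e j) O := div_one _
          rw [h7] at h4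
          have h8 : ρ ⟨(B (e j) O : F), h1.2.1⟩ / eps (fun i => (x' i : K)) none =
            ρ ⟨(B (e j) O : F), h1.2.1⟩ := div_one _
          rw [h8]
          exact (un_rs hY hPl hρ hO hle h4.2.1).2 h4
        · rw [h5]
          rw [h6] at h4
          have h7 : Un O ((B (e j) O : F) / (x (l₀.succAbove i) : F)) := h4
          have h8 : ρ ⟨(B (e j) O : F), h1.2.1⟩ =
              ρ ⟨(B (e j) O : F) / (x (l₀.succAbove i) : F), hle h7.2.1⟩ * (x' i : K) := by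
            rw [hx' i ⟨_, hle (x (l₀.succAbove i)).2⟩ rfl, ← map_mul]
            congr 1
            refine Subtype.ext ?_
            change (B (e j) O : F) = (B (e j) O : F) / (x (l₀.succAbove i) : F) *
              (x (l₀.succAbove i) : F)
            have hx0 : (x (l₀.succAbove i) : F) ≠ 0 := by
              intro h0
              rw [h0, div_zero] at h7
              exact h7.1 rfl
            rw [div_mul_cancel₀ _ hx0]
          have h9 : eps (fun i => (x' i : K)) (some i) = (x' i : K) := rfl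
          have h10 : (x' i : K) ≠ 0 := by
            intro h0
            rw [h8, h0, mul_zero] at hz0
            exact hz0 rfl
          rw [h9, h8, mul_div_cancel_right₀ _ h10]
          exact (un_rs hY hPl hρ hO hle h7.2.1).2 h7
      have h4 := h2.mul h3
      have h5 : (B₀ j (rs ρ O) : K) / ρ ⟨(B (e j) O : F), h1.2.1⟩ *
          (ρ ⟨(B (e j) O : F), h1.2.1⟩ / eps (fun i => (x' i : K)) (co' j)) =
          (B₀ j (rs ρ O) : K) / eps (fun i => (x' i : K)) (co' j) := by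
        rw [div_mul_div_comm, mul_comm, mul_div_mul_left _ _ hz0]
      rw [h5] at h4
      exact h4

end Pool.Agent.KM
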