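import Pool.Agent.Lib.MP_732f67_ag.N.ResC
import Pool.Agent.Lib.MP_732f67_ag.N.GrpB

/-!
Part N: the stabilizer of the prime divisor `P₀` acts on its residue field.
-/

namespace Pool.Agent.KM

variable {F : Type} [Field F] [Algebra ℂ F] {Y : Set (Subalgebra ℂ F)} {P₀ : Subalgebra ℂ F}
  {K : Type} [Field K] [Algebra ℂ K]

/-- the automorphisms of the residue field induced by the elements of `G` which stabilize `P₀` -/
def rsG (ρ : P₀ →ₐ[ℂ] K) (G : Subgroup (F ≃ₐ[ℂ] F)) : Subgroup (K ≃ₐ[ℂ] K) where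
  carrier := {σ | ∃ γ ∈ G, gm γ P₀ = P₀ ∧ ∀ x y : P₀, (y : F) = γ x → σ (ρ x) = ρ y}
  one_mem' := by
    refine ⟨1, G.one_mem, ?_, fun x y h => ?_⟩
    · ext x
      simp [gm]
    · have : y = x := Subtype.ext h
      rw [this]
      rfl
  mul_mem' := by
    rintro σ τ ⟨γ, hγ, h1, h2⟩ ⟨δ, hδ, h3, h4⟩
    have key : ∀ x : P₀, (δ (x : F)) ∈ P₀ := fun x => by
      have hx : (δ (x : F)) ∈ gm δ P₀ := ⟨x, x.2, rfl⟩
      rw [h3] at hx
      exact hx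
    refine ⟨γ * δ, G.mul_mem hγ hδ, ?_, fun x y h => ?_⟩
    · have : gm (γ * δ) P₀ = gm γ (gm δ P₀) := by
        ext x
        simp [gm]
      rw [this, h3, h1]
    · change σ (τ (ρ x)) = ρ y
      rw [h4 x ⟨δ x, key x⟩ rfl]
      exact h2 _ y h
  inv_mem' := by
    rintro σ ⟨γ, hγ, h1, h2⟩
    refine ⟨γ⁻¹, G.inv_mem hγ, ?_, fun x y h => ?_⟩
    · have : gm γ⁻¹ (gm γ P₀) = P₀ := by
        ext x
        simp [gm]
      rw [h1] at this
      exact this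
    · change σ.symm (ρ x) = ρ y
      rw [AlgEquiv.symm_apply_eq]
      refine (h2 y x ?_).symm
      rw [h]
      exact (γ.apply_symm_apply _).symm

variable {ρ : P₀ →ₐ[ℂ] K} {G : Subgroup (F ≃ₐ[ℂ] F)} {n : ℕ} {D : Subalgebra ℂ F → Fˣ}
  {D₀ : Subalgebra ℂ K → Kˣ}

/-- an element of the stabilizer induces an automorphism -/
theorem exists_sigma (hs : Function.Surjective ρ) (hρ : ∀ x : P₀, ρ x = 0 ↔ ¬ Un P₀ (x : F))
    {γ : F ≃ₐ[ℂ] F} (hγ : γ ∈ G) (h : gm γ P₀ = P₀) :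
    ∃ σ ∈ rsG ρ G, ∀ x y : P₀, (y : F) = γ x → σ (ρ x) = ρ y := by
  have hmem : ∀ x : P₀, γ (x : F) ∈ P₀ := fun x => by
    have hx : γ (x : F) ∈ gm γ P₀ := ⟨x, x.2, rfl⟩
    rwa [h] at hx
  let γ' : P₀ →ₐ[ℂ] P₀ := ((γ : F →ₐ[ℂ] F).comp P₀.val).codRestrict P₀ hmem
  have hγ' : ∀ x : P₀, ((γ' x : P₀) : F) = γ x := fun x => rfl
  have hsur : Function.Surjective (ρ.comp γ') := by
    intro z
    obtain ⟨y, rfl⟩ := hs z
    have hy : (y : F) ∈ gm γ P₀ := by rw [h]; exact y.2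
    obtain ⟨x, hx, hxy⟩ := hy
    refine ⟨⟨x, hx⟩, ?_⟩
    change ρ (γ' ⟨x, hx⟩) = ρ y
    congr 1
    exact Subtype.ext hxy
  have hun : ∀ x : P₀, Un P₀ (γ (x : F)) ↔ Un P₀ (x : F) := fun x => by
    have h1 := un_gm (O := P₀) (γ := γ) (x := (x : F))
    rwa [h] at h1
  have hker : RingHom.ker ρ = RingHom.ker (ρ.comp γ') := by
    ext x
    rw [RingHom.mem_ker, RingHom.mem_ker, AlgHom.comp_apply, hρ, hρ, hγ', hun]
  let e₁ := Ideal.quotientKerAlgEquivOfSurjective hs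
  let e₂ := Ideal.quotientKerAlgEquivOfSurjective hsur
  let σ : K ≃ₐ[ℂ] K := e₁.symm.trans ((Ideal.quotientEquivAlgOfEq ℂ hker).trans e₂)
  have hσ : ∀ x : P₀, σ (ρ x) = ρ (γ' x) := by
    intro x
    have h1 : e₁.symm (ρ x) = Ideal.Quotient.mk _ x := by
      rw [AlgEquiv.symm_apply_eq]
      rfl
    change e₂ (Ideal.quotientEquivAlgOfEq ℂ hker (e₁.symm (ρ x))) = _
    rw [h1]
    rfl
  have key : ∀ x y : P₀, (y : F) = γ x → σ (ρ x) = ρ y := by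
    intro x y hxy
    rw [hσ]
    congr 1
    exact Subtype.ext hxy.symm
  exact ⟨σ, ⟨γ, hγ, h, key⟩, key⟩

end Pool.Agent.KM
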