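import Pool.Agent.Lib.MP_732f67_ag.N.ResC
import Pool.Agent.Lib.MP_732f67_ag.N.GrpB
import Pool.Agent.Lib.MP_732f67_ag.N.RdG

/-!
Part N: the stabilizer of the prime divisor `P₀` acts on its residue field.
-/

namespace Pool.Agent.KM

variable {F : Type} [Field F] [Algebra ℂ F] {Y : Set (Subalgebra ℂ F)} {P₀ : Subalgebra ℂ F}
  {K : Type} [Field K] [Algebra ℂ K]

variable {ρ : P₀ →ₐ[ℂ] K} {G : Subgroup (F ≃ₐ[ℂ] F)} {n : ℕ} {D : Subalgebra ℂ F → Fˣ}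
  {D₀ : Subalgebra ℂ K → Kˣ}

/-- the elements are algebraic over the field of invariants -/
theorem RdF_alg (G : Subgroup (F ≃ₐ[ℂ] F)) (hG : Finite G) :
    Algebra.IsAlgebraic (Algebra.adjoin ℂ {x : F | ∀ γ ∈ G, γ x = x}) F := by
  refine ⟨fun x => ?_⟩
  have h1 : IsIntegral (FixedPoints.subfield G F) x := FixedPoints.isIntegral G F x
  obtain ⟨p, hp, hpx⟩ := h1
  let j : FixedPoints.subfield G F →+* Algebra.adjoin ℂ {x : F | ∀ γ ∈ G, γ x = x} :=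
    ((FixedPoints.subfield G F).subtype).codRestrict _ (fun y =>
      Algebra.subset_adjoin fun γ hγ => y.2 ⟨γ, hγ⟩)
  refine ⟨p.map j, (hp.map j).ne_zero, ?_⟩
  rw [Polynomial.aeval_def, Polynomial.eval₂_map]
  exact hpx

/-- the conjugate of a derivation -/
theorem RdF_conj (γ : F ≃ₐ[ℂ] F) (D : Derivation ℂ F F) :
    ∃ D' : Derivation ℂ F F, ∀ x, D' x = γ.symm (D (γ x)) := by
  refine ⟨Derivation.mk' (γ.symm.toLinearMap ∘ₗ (D : F →ₗ[ℂ] F) ∘ₗ γ.toLinearMap)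
    (fun a b => ?_), fun x => rfl⟩
  show γ.symm (D (γ (a * b))) = a • γ.symm (D (γ b)) + b • γ.symm (D (γ a))
  rw [map_mul, Derivation.leibniz, map_add, smul_eq_mul, smul_eq_mul, smul_eq_mul, smul_eq_mul,
    map_mul, map_mul, AlgEquiv.symm_apply_apply, AlgEquiv.symm_apply_apply]

/-- A frame which commutes with a finite group.

PROOF. A transcendence basis `t` of the fixed field of `G` is one of `F`; the derivations dual to `t`
(`exists_der`) are unique (`der_eq_zero`), so they commute with `G`. -/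
theorem exists_comm_frame (hF : ∃ A : Subalgebra ℂ F, A.FG ∧ FracEq A)
    (hd : Algebra.trdeg ℂ F = n) (hG : Finite G) :
    ∃ Δ : Fin n → Derivation ℂ F F, LinearIndependent F Δ ∧
      ∀ γ ∈ G, ∀ l x, Δ l (γ x) = γ (Δ l x) := by
  classical
  have _ := hF
  have halg := RdF_alg G hG
  obtain ⟨t, htS, ht⟩ := exists_isTranscendenceBasis_subset (R := ℂ)
    {x : F | ∀ γ ∈ G, γ x = x}
  have h1 : Cardinal.mk t = Cardinal.mk (Fin n) := by
    rw [ht.cardinalMk_eq_trdeg, hd, Cardinal.mk_fin]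
  obtain ⟨e⟩ := Cardinal.eq.1 h1.symm
  have ht' : IsTranscendenceBasis ℂ (fun i => ((e i : t) : F)) :=
    (isTranscendenceBasis_equiv e).2 ht
  obtain ⟨D, hD⟩ := exists_der ht'
  refine ⟨D, ?_, fun γ hγ l x => ?_⟩
  · rw [Fintype.linearIndependent_iff]
    intro g hg j
    have h2 : (∑ i, g i • D i) ((e j : t) : F) = ∑ i, g i * D i ((e j : t) : F) := by
      have h3 := congrFun (map_sum (Derivation.coeFnAddMonoidHom : Derivation ℂ F F →+ (F → F))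
        (fun i => g i • D i) Finset.univ) ((e j : t) : F)
      rw [Finset.sum_apply] at h3
      exact h3
    rw [hg, Derivation.coe_zero, Pi.zero_apply] at h2
    simp only [hD] at h2
    simpa using h2.symm
  · obtain ⟨D', hD'⟩ := RdF_conj γ (D l)
    have h3 : D' - D l = 0 := by
      refine der_eq_zero ht' fun i => ?_
      rw [Derivation.sub_apply, hD', htS (e i).2 γ hγ, hD]
      split_ifs
      · rw [map_one, sub_self]
      · rw [map_zero, sub_self]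
    have h4 := congrArg (fun E : Derivation ℂ F F => E x) h3
    simp only [Derivation.sub_apply, Derivation.coe_zero, Pi.zero_apply, hD', sub_eq_zero] at h4
    rw [← h4, AlgEquiv.apply_symm_apply]

/-- the elements of the stabilizer act on the local ring -/
theorem RdF_mem {γ : F ≃ₐ[ℂ] F} (h : gm γ P₀ = P₀) (x : P₀) : γ (x : F) ∈ P₀ := by
  have hx : γ (x : F) ∈ gm γ P₀ := ⟨x, x.2, rfl⟩
  rw [h] at hx
  exact hx

theorem RdF_finite (hs : Function.Surjective ρ) (hG : Finite G) : Finite (rsG ρ G) := by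
  choose f hf using fun σ : rsG ρ G => σ.2
  refine Finite.of_injective (fun σ : rsG ρ G => (⟨f σ, (hf σ).1⟩ : G)) fun σ τ hστ => ?_
  have h1 : f σ = f τ := congrArg Subtype.val hστ
  refine Subtype.ext (AlgEquiv.ext fun z => ?_)
  obtain ⟨x, rfl⟩ := hs z
  rw [(hf σ).2.2 x ⟨f σ x, RdF_mem (hf σ).2.1 x⟩ rfl,
    (hf τ).2.2 x ⟨f σ x, RdF_mem (hf σ).2.1 x⟩ (by
      show f σ x = f τ x
      rw [h1])]

theorem RdF_gm {γ : F ≃ₐ[ℂ] F} (h : gm γ P₀ = P₀) {σ : K ≃ₐ[ℂ] K}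
    (hσ : ∀ x y : P₀, (y : F) = γ x → σ (ρ x) = ρ y) (O : Subalgebra ℂ F) (hO : O ≤ P₀) :
    gm σ (rs ρ O) = rs ρ (gm γ O) := by
  ext y
  constructor
  · rintro ⟨z, hz, rfl⟩
    obtain ⟨x, hx, rfl⟩ := mem_rs.1 hz
    exact mem_rs.2 ⟨⟨γ x, RdF_mem h x⟩, ⟨x, hx, rfl⟩, (hσ x _ rfl).symm⟩
  · intro hy
    obtain ⟨x', ⟨x, hx, hxx⟩, rfl⟩ := mem_rs.1 hy
    exact ⟨ρ ⟨x, hO hx⟩, mem_rs.2 ⟨⟨x, hO hx⟩, hx, rfl⟩, hσ ⟨x, hO hx⟩ x' hxx.symm⟩

theorem base_rs {Δ : Fin (n + 1) → Derivation ℂ F F} (h : Base (n + 1) Y G Δ) (hP₀ : P₀ ∈ Y)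
    (hp : PrimDiv P₀) (hs : Function.Surjective ρ) (hρ : ∀ x : P₀, ρ x = 0 ↔ ¬ Un P₀ (x : F))
    (hn : Normal (rsY ρ Y)) :
    ∃ Δ₀ : Fin n → Derivation ℂ K K, Base n (rsY ρ Y) (rsG ρ G) Δ₀ := by
  have hproj := rs_proj h.proj hP₀ hs hρ
  have hdim := rs_trdeg h.dim hp hs hρ
  have hfin : Finite (rsG ρ G) := RdF_finite hs h.fin
  have hF : ∃ A : Subalgebra ℂ K, A.FG ∧ FracEq A := by
    obtain ⟨A, hA, hfr, -⟩ := hproj.exists_chart ⟨P₀, hP₀, le_rfl, rfl⟩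
    exact ⟨A, hA, hfr⟩
  obtain ⟨Δ₀, h1, h2⟩ := exists_comm_frame hF hdim hfin
  refine ⟨Δ₀, ⟨hproj, hn, hdim, hfin, ?_, h1, h2⟩⟩
  rintro σ ⟨γ, hγ, hγP, hσ⟩ _ ⟨O, hO, hle, rfl⟩
  refine ⟨gm γ O, h.st γ hγ O hO, ?_, RdF_gm hγP hσ O hle⟩
  have h3 := gm_mono (γ := γ) hle
  rwa [hγP] at h3

end Pool.Agent.KM
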