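import Pool.Agent.Lib.MP_732f67_ag.N.ResC
import Pool.Agent.Lib.MP_732f67_ag.N.GrpB
import Pool.Agent.Lib.MP_732f67_ag.N.RdG
import Pool.Agent.Lib.MP_732f67_ag.N.RdF

/-!
Part N: the stabilizer of the prime divisor `P₀` acts on its residue field.
-/

namespace Pool.Agent.KM

variable {F : Type} [Field F] [Algebra ℂ F] {Y : Set (Subalgebra ℂ F)} {P₀ : Subalgebra ℂ F}
  {K : Type} [Field K] [Algebra ℂ K]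

variable {ρ : P₀ →ₐ[ℂ] K} {G : Subgroup (F ≃ₐ[ℂ] F)} {n : ℕ} {D : Subalgebra ℂ F → Fˣ}
  {D₀ : Subalgebra ℂ K → Kˣ}

private theorem rdC_key (hP₀ : P₀ ∈ Y) (hD : IsCar Y D) (hu : Un P₀ (D P₀ : F))
    {O : Subalgebra ℂ F} (hO : O ∈ Y) (hle : O ≤ P₀) : Un P₀ (D O : F) := by
  have h1 := hD.un_of_le hO hP₀ hle
  have h2 := hu.mul h1
  rwa [← Units.val_mul, mul_div_cancel] at h2

private theorem rdC_gm {γ : F ≃ₐ[ℂ] F} {σ : K ≃ₐ[ℂ] K} (hg : gm γ P₀ = P₀)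
    (hσ : ∀ x y : P₀, (y : F) = γ x → σ (ρ x) = ρ y) (O : Subalgebra ℂ F) :
    gm σ (rs ρ O) = rs ρ (gm γ O) := by
  ext y
  constructor
  · rintro ⟨x, hx, rfl⟩
    obtain ⟨a, ha, rfl⟩ := mem_rs.1 hx
    have h1 : γ (a : F) ∈ P₀ := hg.le ⟨a, a.2, rfl⟩
    exact mem_rs.2 ⟨⟨γ a, h1⟩, ⟨a, ha, rfl⟩, (hσ a ⟨γ a, h1⟩ rfl).symm⟩
  · intro hy
    obtain ⟨b, ⟨a, ha, hb⟩, rfl⟩ := mem_rs.1 hy
    have hb' : γ a = (b : F) := hb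
    have h1 : (b : F) ∈ gm γ P₀ := by
      rw [hg]
      exact b.2
    obtain ⟨a', ha', hb''⟩ := h1
    have h2 : a' = a := γ.injective (hb''.trans hb'.symm)
    rw [h2] at ha'
    refine ⟨ρ ⟨a, ha'⟩, mem_rs.2 ⟨⟨a, ha'⟩, ha, rfl⟩, ?_⟩
    exact hσ ⟨a, ha'⟩ b hb'.symm

private theorem rdC_un {O : Subalgebra ℂ F} {x : P₀} (hx : Un O (x : F)) (hP : Un P₀ (x : F)) :
    Un (rs ρ O) (ρ x) := by
  have h1 : ρ x * ρ ⟨(x : F)⁻¹, hP.2.2⟩ = 1 := by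
    rw [← map_mul, ← map_one ρ]
    congr 1
    exact Subtype.ext (mul_inv_cancel₀ hP.1)
  refine ⟨left_ne_zero_of_mul_eq_one h1, mem_rs.2 ⟨x, hx.2.1, rfl⟩, ?_⟩
  rw [← eq_inv_of_mul_eq_one_right h1]
  exact mem_rs.2 ⟨_, hx.2.2, rfl⟩

private theorem rdC_div {O : Subalgebra ℂ F} {x y : P₀} (hx : Un P₀ (x : F))
    (hy : Un P₀ (y : F)) (h : Un O ((x : F) / y)) : Un (rs ρ O) (ρ x / ρ y) := by
  have h0 := hx.div hy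
  have h1 := rdC_un (ρ := ρ) (x := ⟨(x : F) / y, h0.2.1⟩) h h0
  have h2 : ρ ⟨(x : F) / y, h0.2.1⟩ * ρ y = ρ x := by
    rw [← map_mul]
    congr 1
    exact Subtype.ext (div_mul_cancel₀ _ hy.1)
  have h3 := rdC_un (ρ := ρ) (O := P₀) hy hy
  rwa [← h2, mul_div_cancel_right₀ _ h3.1]

theorem gc_rs (hY : IsProj Y) (hG : ∀ γ ∈ G, ∀ O ∈ Y, gm γ O ∈ Y) (hP₀ : P₀ ∈ Y)
    (hs : Function.Surjective ρ) (hρ : ∀ x : P₀, ρ x = 0 ↔ ¬ Un P₀ (x : F)) (hD : GC Y G D)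
    (h : RD ρ Y D D₀) : GC (rsY ρ Y) (rsG ρ G) D₀ := by
  refine ⟨car_rd hY hP₀ hs hρ hD.1 h, ?_⟩
  rintro _ ⟨O, hO, hle, rfl⟩
  obtain ⟨δ, hδ0, hδG, hδ⟩ := hD.2 O hO
  have hDO : Un P₀ (D O : F) := rdC_key hP₀ hD.1 h.1 hO hle
  have h1 := hδ 1 G.one_mem
  rw [gm_one] at h1
  have hδP : Un P₀ δ := by
    have h2 := hDO.div (h1.mono hle)
    rwa [div_div_cancel₀ hDO.1] at h2
  refine ⟨ρ ⟨δ, hδP.2.1⟩, (rdC_un (ρ := ρ) (O := P₀) hδP hδP).1, ?_, ?_⟩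
  · rintro σ ⟨γ, hγ, _, hσ⟩
    exact hσ _ _ (hδG γ hγ).symm
  · rintro σ ⟨γ, hγ, hg, hσ⟩
    rw [rdC_gm hg hσ]
    have hO' : gm γ O ∈ Y := hG γ hγ O hO
    have hle' : gm γ O ≤ P₀ := by
      rw [← hg]
      exact gm_mono hle
    have hDO' : Un P₀ (D (gm γ O) : F) := rdC_key hP₀ hD.1 h.1 hO' hle'
    have h2 := h.2 (gm γ O) hO' hle' ⟨(D (gm γ O) : F), hDO'.2.1⟩ rfl
    have h3 : Un (rs ρ (gm γ O)) (ρ ⟨(D (gm γ O) : F), hDO'.2.1⟩ / ρ ⟨δ, hδP.2.1⟩) :=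
      rdC_div hDO' hδP (hδ γ hγ)
    have h4 := h2.mul h3
    have h5 : ρ ⟨(D (gm γ O) : F), hDO'.2.1⟩ ≠ 0 := (rdC_un (ρ := ρ) (O := P₀) hDO' hDO').1
    rwa [div_mul_div_cancel₀ h5] at h4

theorem gi_rs (hY : IsProj Y) (hG : ∀ γ ∈ G, ∀ O ∈ Y, gm γ O ∈ Y) (hP₀ : P₀ ∈ Y)
    (hs : Function.Surjective ρ) (hρ : ∀ x : P₀, ρ x = 0 ↔ ¬ Un P₀ (x : F)) (hC : IsCar Y D)
    (hD : GI Y G D) (h : RD ρ Y D D₀) : GI (rsY ρ Y) (rsG ρ G) D₀ := by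
  rintro σ ⟨γ, hγ, hg, hσ⟩ _ ⟨O, hO, hle, rfl⟩
  have hg1 : gm σ (rs ρ O) = rs ρ (gm γ O) := rdC_gm hg hσ O
  have hO' : gm γ O ∈ Y := hG γ hγ O hO
  have hle' : gm γ O ≤ P₀ := by
    rw [← hg]
    exact gm_mono hle
  have hDO : Un P₀ (D O : F) := rdC_key hP₀ hC h.1 hO hle
  have hDO' : Un P₀ (D (gm γ O) : F) := rdC_key hP₀ hC h.1 hO' hle'
  have hγD : Un P₀ (γ (D O : F)) := by
    have h1 := un_gm (γ := γ) |>.2 hDO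
    rwa [hg] at h1
  have h2 := h.2 O hO hle ⟨(D O : F), hDO.2.1⟩ rfl
  have h3 := un_gm (γ := σ) |>.2 h2
  rw [map_div₀, hσ ⟨(D O : F), hDO.2.1⟩ ⟨γ (D O : F), hγD.2.1⟩ rfl, hg1] at h3
  have h4 := h.2 (gm γ O) hO' hle' ⟨(D (gm γ O) : F), hDO'.2.1⟩ rfl
  have h5 : Un (rs ρ (gm γ O)) (ρ ⟨(D (gm γ O) : F), hDO'.2.1⟩ / ρ ⟨γ (D O : F), hγD.2.1⟩) :=
    rdC_div hDO' hγD (hD γ hγ O hO)
  have h6 : ρ ⟨(D (gm γ O) : F), hDO'.2.1⟩ ≠ 0 := (rdC_un (ρ := ρ) (O := P₀) hDO' hDO').1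
  have h7 : ρ ⟨γ (D O : F), hγD.2.1⟩ ≠ 0 := (rdC_un (ρ := ρ) (O := P₀) hγD hγD).1
  have h8 := (h4.mul h5).div h3
  rw [div_mul_div_cancel₀ h6, div_div_div_cancel_right₀ h7] at h8
  rw [hg1]
  exact h8

end Pool.Agent.KM
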