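import Pool.Agent.Lib.MP_732f67_ag.N.LogB
import Pool.Agent.Lib.MP_732f67_ag.N.Clo
import Pool.Agent.Lib.MP_732f67_ag.R.Tay

/-!
Part N: Taylor series at a closed point of a smooth variety.
-/

namespace Pool.Agent.KM

open scoped KaehlerDifferential

section

variable {O : Type} [CommRing O] [Algebra ℂ O] {d : ℕ}

/-- the derivations dual to the basis `D (x l)` -/
noncomputable def serA_der (b : Module.Basis (Fin d) O (Ω[O⁄ℂ])) (l : Fin d) :
    Derivation ℂ O O := (b.coord l).compDer (KaehlerDifferential.D ℂ O)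

theorem serA_der_x {x : Fin d → O} {b : Module.Basis (Fin d) O (Ω[O⁄ℂ])}
    (hb : ∀ i, b i = KaehlerDifferential.D ℂ O (x i)) (l j : Fin d) :
    serA_der b l (x j) = if j = l then 1 else 0 := by
  classical
  change b.coord l (KaehlerDifferential.D ℂ O (x j)) = _
  rw [← hb, Module.Basis.coord_apply, Module.Basis.repr_self, Finsupp.single_apply]

theorem serA_sum (b : Module.Basis (Fin d) O (Ω[O⁄ℂ])) (a : O) :
    KaehlerDifferential.D ℂ O a = ∑ l, serA_der b l a • b l :=
  (b.sum_repr (KaehlerDifferential.D ℂ O a)).symm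

/-- a derivation which kills the coordinates is zero -/
theorem serA_zero {x : Fin d → O} {b : Module.Basis (Fin d) O (Ω[O⁄ℂ])}
    (hb : ∀ i, b i = KaehlerDifferential.D ℂ O (x i)) {M : Type} [AddCommGroup M] [Module O M]
    [Module ℂ M] [IsScalarTower ℂ O M] (E : Derivation ℂ O M) (a : O) :
    E a = ∑ l, serA_der b l a • E (x l) := by
  have h1 : ∀ y : O, E y = E.liftKaehlerDifferential (KaehlerDifferential.D ℂ O y) := fun y =>
    (Derivation.liftKaehlerDifferential_comp_D E y).symm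
  rw [h1, serA_sum b a, map_sum]
  refine Finset.sum_congr rfl fun l _ => ?_
  rw [map_smul, hb, ← h1]

theorem serA_comm {x : Fin d → O} {b : Module.Basis (Fin d) O (Ω[O⁄ℂ])}
    (hb : ∀ i, b i = KaehlerDifferential.D ℂ O (x i)) (i j : Fin d) (a : O) :
    serA_der b i (serA_der b j a) = serA_der b j (serA_der b i a) := by
  classical
  have h1 := serA_zero hb ⁅serA_der b i, serA_der b j⁆ a
  rw [Derivation.commutator_apply, Finset.sum_eq_zero, sub_eq_zero] at h1
  · exact h1
  · intro l _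
    rw [Derivation.commutator_apply, serA_der_x hb, serA_der_x hb]
    have h2 : ∀ (m : Fin d) (p : Prop) [Decidable p],
        serA_der b m (if p then (1 : O) else 0) = 0 := by
      intro m p _
      split_ifs
      · exact Derivation.map_one_eq_zero _
      · exact map_zero _
    rw [h2, h2, sub_zero, smul_zero]

variable [IsLocalRing O]

open IsLocalRing

/-- the derivation `a ↦ a - ψ a` modulo the square of the maximal ideal -/
noncomputable def serA_cot (ψ : O →ₐ[ℂ] ℂ) (hψ : ∀ x, x ∈ maximalIdeal O ↔ ψ x = 0) :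
    Derivation ℂ O (maximalIdeal O).Cotangent :=
  have hm : ∀ a : O, a - algebraMap ℂ O (ψ a) ∈ maximalIdeal O := fun a => by
    rw [hψ, map_sub, AlgHom.commutes]
    exact sub_self _
  Derivation.mk'
    { toFun := fun a => (maximalIdeal O).toCotangent ⟨a - algebraMap ℂ O (ψ a), hm a⟩
      map_add' := fun a b => by
        rw [← map_add]
        congr 1
        refine Subtype.ext ?_
        change a + b - algebraMap ℂ O (ψ (a + b)) =
          (a - algebraMap ℂ O (ψ a)) + (b - algebraMap ℂ O (ψ b))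
        rw [map_add, map_add]
        ring
      map_smul' := fun c a => by
        rw [RingHom.id_apply, ← algebraMap_smul O c
          ((maximalIdeal O).toCotangent ⟨a - algebraMap ℂ O (ψ a), hm a⟩), ← map_smul]
        congr 1
        refine Subtype.ext ?_
        change c • a - algebraMap ℂ O (ψ (c • a)) = algebraMap ℂ O c * (a - algebraMap ℂ O (ψ a))
        rw [map_smul, smul_eq_mul, map_mul, Algebra.smul_def]
        ring }
    (fun a b => by
      change (maximalIdeal O).toCotangent ⟨a * b - algebraMap ℂ O (ψ (a * b)), hm _⟩ =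
        a • (maximalIdeal O).toCotangent ⟨b - algebraMap ℂ O (ψ b), hm b⟩ +
          b • (maximalIdeal O).toCotangent ⟨a - algebraMap ℂ O (ψ a), hm a⟩
      rw [← map_smul, ← map_smul, ← map_add, Ideal.toCotangent_eq]
      change (a * b - algebraMap ℂ O (ψ (a * b))) -
        (a * (b - algebraMap ℂ O (ψ b)) + b * (a - algebraMap ℂ O (ψ a))) ∈ maximalIdeal O ^ 2
      have h1 : (a * b - algebraMap ℂ O (ψ (a * b))) -
        (a * (b - algebraMap ℂ O (ψ b)) + b * (a - algebraMap ℂ O (ψ a))) =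
          -((a - algebraMap ℂ O (ψ a)) * (b - algebraMap ℂ O (ψ b))) := by
        rw [map_mul, map_mul]
        ring
      rw [h1, pow_two]
      exact Ideal.neg_mem_iff _ |>.2 (Ideal.mul_mem_mul (hm a) (hm b)))

theorem serA_gen [IsNoetherianRing O] (ψ : O →ₐ[ℂ] ℂ)
    (hψ : ∀ x, x ∈ maximalIdeal O ↔ ψ x = 0) {x : Fin d → O}
    {b : Module.Basis (Fin d) O (Ω[O⁄ℂ])}
    (hb : ∀ i, b i = KaehlerDifferential.D ℂ O (x i)) :
    maximalIdeal O = Ideal.span (Set.range fun l => x l - algebraMap ℂ O (ψ (x l))) := by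
  have hm : ∀ a : O, a - algebraMap ℂ O (ψ a) ∈ maximalIdeal O := fun a => by
    rw [hψ, map_sub, AlgHom.commutes]
    exact sub_self _
  refine le_antisymm ?_ ?_
  · refine Submodule.le_of_le_smul_of_le_jacobson_bot (I := maximalIdeal O)
      (IsNoetherian.noetherian _) ?_ ?_
    · rw [IsLocalRing.jacobson_eq_maximalIdeal ⊥ bot_ne_top]
    · intro a ha
      have h1 := serA_zero hb (serA_cot ψ hψ) a
      have h2 : (maximalIdeal O).toCotangent ⟨a, ha⟩ =
          (maximalIdeal O).toCotangent (∑ l, serA_der b l a •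
            (⟨x l - algebraMap ℂ O (ψ (x l)), hm (x l)⟩ : maximalIdeal O)) := by
        rw [map_sum]
        have h3 : (maximalIdeal O).toCotangent ⟨a, ha⟩ = serA_cot ψ hψ a := by
          change _ = (maximalIdeal O).toCotangent ⟨a - algebraMap ℂ O (ψ a), hm a⟩
          congr 1
          refine Subtype.ext ?_
          change a = a - algebraMap ℂ O (ψ a)
          rw [(hψ a).1 ha, map_zero, sub_zero]
        rw [h3, h1]
        refine Finset.sum_congr rfl fun l _ => ?_
        rw [map_smul]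
        rfl
      rw [Ideal.toCotangent_eq] at h2
      have h4 : a = ((∑ l, serA_der b l a •
            (⟨x l - algebraMap ℂ O (ψ (x l)), hm (x l)⟩ : maximalIdeal O) : maximalIdeal O) : O) +
          (a - ((∑ l, serA_der b l a •
            (⟨x l - algebraMap ℂ O (ψ (x l)), hm (x l)⟩ : maximalIdeal O) : maximalIdeal O) : O)) := by
        ring
      rw [h4]
      refine Submodule.add_mem_sup ?_ ?_
      · rw [AddSubmonoidClass.coe_finset_sum]
        refine Ideal.sum_mem _ fun l _ => ?_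
        exact Ideal.mul_mem_left _ _ (Ideal.subset_span ⟨l, rfl⟩)
      · rw [smul_eq_mul, ← pow_two]
        exact h2
  · rw [Ideal.span_le]
    rintro _ ⟨l, rfl⟩
    exact hm (x l)

theorem serA_core [IsNoetherianRing O] (ψ : O →ₐ[ℂ] ℂ)
    (hψ : ∀ x, x ∈ maximalIdeal O ↔ ψ x = 0) {x : Fin d → O}
    {b : Module.Basis (Fin d) O (Ω[O⁄ℂ])}
    (hb : ∀ i, b i = KaehlerDifferential.D ℂ O (x i)) :
    ∃ T : O →ₐ[ℂ] MvPowerSeries (Fin d) ℂ,
      (∀ l, T (x l - algebraMap ℂ O (ψ (x l))) = MvPowerSeries.X l) ∧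
      Function.Injective T ∧ ∀ a, MvPowerSeries.constantCoeff (T a) = ψ a := by
  classical
  obtain ⟨τ, hτ0, hτ⟩ := Pool.Agent.KMR.exists_taylor ψ (serA_der b) (serA_comm hb)
  have hpd : ∀ i a, MvPowerSeries.pderiv ℂ i (τ a) = τ (serA_der b i a) := by
    intro i a
    ext α
    rw [MvPowerSeries.coeff_pderiv, hτ, mul_comm]
  have hz0 : ∀ l, ψ (x l - algebraMap ℂ O (ψ (x l))) = 0 := fun l => by
    rw [map_sub, AlgHom.commutes]
    exact sub_self _
  have hzX : ∀ l, τ (x l - algebraMap ℂ O (ψ (x l))) = MvPowerSeries.X l := by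
    intro l
    refine MvPowerSeries.pderiv.ext (fun j => ?_) ?_
    · rw [hpd, map_sub, Derivation.map_algebraMap, sub_zero, serA_der_x hb]
      by_cases hij : l = j
      · subst hij
        rw [if_pos rfl, map_one, MvPowerSeries.pderiv_X_self]
      · rw [if_neg hij, map_zero, MvPowerSeries.pderiv_X_of_ne hij]
    · rw [hτ0, hz0, MvPowerSeries.constantCoeff_X]
  refine ⟨τ, hzX, ?_, hτ0⟩
  rw [injective_iff_map_eq_zero]
  intro a ha
  have h2 := Pool.Agent.KMR.tay_mem ψ (fun l => x l - algebraMap ℂ O (ψ (x l))) hψ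
    (fun i => (hψ _).2 (hz0 i)) (fun y hy => by
      rw [serA_gen ψ hψ hb] at hy
      obtain ⟨c, hc⟩ := (Ideal.mem_span_range_iff_exists_fun).1 hy
      exact ⟨c, hc.symm⟩) τ hτ0 hzX ∅ a (fun α hα => by
        rw [ha, map_zero] at hα
        exact absurd rfl hα)
  rw [Finset.coe_empty, Set.image_empty, Ideal.span_empty] at h2
  exact h2

end

variable {F : Type} [Field F] [Algebra ℂ F] {Y : Set (Subalgebra ℂ F)} {d : ℕ} {J : Type}
  {B : J → Subalgebra ℂ F → Fˣ} {Δ : Fin d → Derivation ℂ F F}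
  {κ : Subalgebra ℂ F → Fˣ} {O : Subalgebra ℂ F}

/-- the value at a closed point -/
theorem serA_val (hloc : IsLocalRing O) (hc : Clo O) : ∃ ψ : O →ₐ[ℂ] ℂ,
    ∀ a : O, ψ a ≠ 0 ↔ Un O (a : F) := by
  have hun : ∀ a : O, Un O (a : F) ↔ IsUnit a := fun a => by
    rw [pt_isUnit_iff]
    exact ⟨fun h => ⟨h.1, h.2.2⟩, fun h => ⟨h.1, a.2, h.2⟩⟩
  have h1 : ∀ a : O, ∃ c : ℂ, a - algebraMap ℂ O c ∈ IsLocalRing.maximalIdeal O := by
    intro a
    obtain ⟨c, hc⟩ := hc a a.2
    refine ⟨c, ?_⟩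
    rw [IsLocalRing.mem_maximalIdeal, mem_nonunits_iff, ← hun]
    exact hc
  have hsur : Function.Surjective (algebraMap ℂ (O ⧸ IsLocalRing.maximalIdeal O)) := by
    intro a
    obtain ⟨a, rfl⟩ := Ideal.Quotient.mk_surjective a
    obtain ⟨c, hc⟩ := h1 a
    refine ⟨c, ?_⟩
    have h2 := Ideal.Quotient.eq_zero_iff_mem.2 hc
    rw [map_sub, sub_eq_zero] at h2
    rw [h2]
    rfl
  have hbij : Function.Bijective (algebraMap ℂ (O ⧸ IsLocalRing.maximalIdeal O)) :=
    ⟨(algebraMap ℂ (O ⧸ IsLocalRing.maximalIdeal O)).injective, hsur⟩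
  let e : ℂ ≃ₐ[ℂ] (O ⧸ IsLocalRing.maximalIdeal O) :=
    AlgEquiv.ofBijective (Algebra.ofId ℂ (O ⧸ IsLocalRing.maximalIdeal O)) hbij
  refine ⟨(e.symm : (O ⧸ IsLocalRing.maximalIdeal O) →ₐ[ℂ] ℂ).comp
    (Ideal.Quotient.mkₐ ℂ (IsLocalRing.maximalIdeal O)), fun a => ?_⟩
  rw [AlgHom.comp_apply, ne_eq]
  have h3 : (e.symm : (O ⧸ IsLocalRing.maximalIdeal O) →ₐ[ℂ] ℂ)
      (Ideal.Quotient.mkₐ ℂ (IsLocalRing.maximalIdeal O) a) = 0 ↔
      a ∈ IsLocalRing.maximalIdeal O := by
    rw [← Ideal.Quotient.eq_zero_iff_mem]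
    exact map_eq_zero_iff e.symm e.symm.injective
  rw [h3, IsLocalRing.mem_maximalIdeal, mem_nonunits_iff, not_not, hun]

/-- PROOF. `z l = x l - c l` (`Clo`) for the coordinates `x l` of `O` in `snc`; the residue field of `O` is `ℂ`, and
the maximal ideal is generated by the `z l` (`d : m / m ^ 2 → Ω / m Ω` is injective, and the `dz l` are a
basis of `Ω`; a dimension count, or: an element of `m / m ^ 2` which is killed by all derivations
of the dual basis is zero, `Ω / m Ω = m / m ^ 2`). The derivations `δ k` of `O` dual to the basis `dz l` commute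
(they extend to the frame dual to `z` of `F`). `exists_taylor` in `R/TayH.lean` or `R/TayK.lean` (see the use
in `R/Tay.lean`, `exists_tay`) gives `T`, with `T (z l) = X l`, and `T f = 0` implies `f ∈ m ^ r` for all `r`,
so `f = 0` (Krull). `nj Δ z = nj Δ x`. -/
theorem exists_series (h : Snc d Y B Δ κ) (hO : O ∈ Y) (hc : Clo O) :
    ∃ (z : Fin d → O) (T : O →ₐ[ℂ] MvPowerSeries (Fin d) ℂ), (∀ l, T (z l) = MvPowerSeries.X l) ∧
      Function.Injective T ∧ (∀ f : O, MvPowerSeries.constantCoeff (T f) ≠ 0 ↔ Un O (f : F)) ∧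
      Un O ((κ O : F) * nj Δ fun l => (z l : F)) := by
  have hloc : IsLocalRing O := h.proj.isLocalRing hO
  obtain ⟨A, hA, -, hl, -⟩ := h.proj.exists_chart hO
  have hnoe : IsNoetherianRing O := hl.isNoetherianRing hA
  obtain ⟨ψ, hψ⟩ := serA_val hloc hc
  obtain ⟨x, -, ⟨b, hb⟩, -, -, hu⟩ := h.snc O hO
  have hψm : ∀ a, a ∈ IsLocalRing.maximalIdeal O ↔ ψ a = 0 := by
    intro a
    rw [IsLocalRing.mem_maximalIdeal, mem_nonunits_iff, ← not_iff_not, not_not]
    rw [← ne_eq, hψ, pt_isUnit_iff]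
    exact ⟨fun h => ⟨h.1, a.2, h.2⟩, fun h => ⟨h.1, h.2.2⟩⟩
  obtain ⟨T, hT, hinj, h0⟩ := serA_core ψ hψm hb
  refine ⟨fun l => x l - algebraMap ℂ O (ψ (x l)), T, hT, hinj, fun f => ?_, ?_⟩
  · rw [h0, hψ]
  · have h1 : (nj Δ fun l => ((x l - algebraMap ℂ O (ψ (x l)) : O) : F)) =
        nj Δ fun i => (x i : F) := by
      unfold nj
      congr 1
      ext i l
      rw [Matrix.of_apply, Matrix.of_apply]
      change Δ i ((x l : F) - algebraMap ℂ F (ψ (x l))) = Δ i (x l)
      rw [map_sub, Derivation.map_algebraMap, sub_zero]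
    rw [h1]
    exact hu

end Pool.Agent.KM
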